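import Pool.Agent.Work.MP_7084a3_h91.InterfaceF

set_option autoImplicit false

namespace Pool.HA

/-- splitting a list of three elements -/
theorem ASPH_three {X : Type} {a b c : X} {x y : List X} {E : X}
    (h : [a, b, c] = x ++ E :: y) :
    (x = [] ∧ E = a ∧ y = [b, c]) ∨ (x = [a] ∧ E = b ∧ y = [c]) ∨ (x = [a, b] ∧ E = c ∧ y = []) := by
  rcases x with _ | ⟨x1, _ | ⟨x2, _ | ⟨x3, x⟩⟩⟩
  · simp only [List.nil_append, List.cons.injEq] at h
    obtain ⟨rfl, rfl⟩ := h
    exact Or.inl ⟨rfl, rfl, rfl⟩
  · simp only [List.cons_append, List.nil_append, List.cons.injEq] at h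
    obtain ⟨rfl, rfl, rfl⟩ := h
    exact Or.inr (Or.inl ⟨rfl, rfl, rfl⟩)
  · simp only [List.cons_append, List.nil_append, List.cons.injEq] at h
    obtain ⟨rfl, rfl, rfl, rfl⟩ := h
    exact Or.inr (Or.inr ⟨rfl, rfl, rfl⟩)
  · exfalso
    have := congrArg List.length h
    simp only [List.length_cons, List.length_append, List.length_nil] at this
    omega

theorem ASPH_inner (hGB : Stmt_GB) (hFBR : Stmt_FBR) {V A : Type} [AddCommGroup A]
    {adj : V → V → Prop} {T : V → V → V → A} {ang : V → V → V → ℝ} {ε : ℝ}
    (hT : TriOK adj T) (hN : NPC adj ang ε) (n : ℕ)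
    (IH : ∀ m < n, ∀ D : A, Fill adj T [] D m → D = 0)
    {l : List V} {D : A} {m : ℕ} (h : Fill adj T l D m) :
    m ≤ n → (l = [] ∨ ∃ u v, adj u v ∧ l = [u, v]) → D = 0 := by
  induction h with
  | nil => intro _ _; rfl
  | @sph u v D m huv h1 ih =>
    intro hm _
    exact ih hm (Or.inr ⟨u, v, huv, rfl⟩)
  | @pair u v P₁ P₂ D₁ D₂ n₁ n₂ huv h1 h2 h3 h4 ih1 ih2 =>
    intro hm hl
    rcases hl with hl | ⟨u', v', -, hl⟩
    · cases hl
    · obtain ⟨-, hl⟩ := List.cons.inj hl
      have hlen := congrArg List.length hl
      simp only [List.length_append, List.length_cons, List.length_nil] at hlen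
      have e1 : P₁ = [] := List.eq_nil_of_length_eq_zero (by omega)
      have e2 : P₂ = [] := List.eq_nil_of_length_eq_zero (by omega)
      rw [ih1 (by omega) (Or.inl e1), ih2 (by omega) (Or.inl e2), add_zero]
  | @tri u v c q D₀ n₀ huv huc hcv h1 ih =>
    intro hm hl
    rcases hl with hl | ⟨u', v', -, hl⟩
    · cases hl
    have hq : q = [] := by
      have hlen := congrArg List.length hl
      simp only [List.length_cons, List.length_nil] at hlen
      exact List.eq_nil_of_length_eq_zero (by omega)
    subst hq
    by_contra hD
    have star : ∀ n', Fill adj T [] (D₀ + T u v c) n' → n ≤ n' := by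
      intro n' h'
      by_contra hc
      exact hD (IH n' (by omega) _ h')
    have star2 : ∀ a b, adj a b → ∀ n', Fill adj T [a, b] (D₀ + T u v c) n' → n ≤ n' :=
      fun a b hab n' h' => star n' (Fill.sph hab h')
    have hvu := hT.symm _ _ huv
    have hcu := hT.symm _ _ huc
    have hvc := hT.symm _ _ hcv
    have nuv : u ≠ v := fun e => hT.irr v (e ▸ huv)
    have nuc : u ≠ c := fun e => hT.irr c (e ▸ huc)
    have ncv : c ≠ v := fun e => hT.irr v (e ▸ hcv)
    have hTc : T v u c = - T u v c := hT.anti u v c
    have hT1 : T u c v = T v u c := by rw [hT.cyc u c v, hT.cyc c v u]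
    have hT2 : T c v u = T v u c := hT.cyc c v u
    have hgb := hGB V A adj T ang ε hT hN
      [(u, [⟨c, v, 0⟩]), (c, [⟨v, u, 0⟩]), (v, [⟨u, c, 0⟩])] D₀ n₀ (by simp) ?_ ?_ ?_ ?_ ?_
    · simp only [List.map_cons, List.map_nil, List.sum_cons, List.sum_nil, wts, wt, if_true,
        add_zero] at hgb
      have hs := hN.sum u c v huc hcv huv
      have hp := hN.pos
      have h5 : 0 ≤ ε * n₀ := by positivity
      linarith
    · -- StOK
      constructor
      · intro E hE
        simp only [List.mem_cons, List.not_mem_nil, or_false] at hE
        rcases hE with rfl | rfl | rfl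
        · refine ⟨by simp, by simp, ?_⟩
          intro s hs
          rw [List.mem_singleton] at hs
          subst hs
          exact Or.inl ⟨rfl, huc, huv, hcv⟩
        · refine ⟨by simp, by simp, ?_⟩
          intro s hs
          rw [List.mem_singleton] at hs
          subst hs
          exact Or.inl ⟨rfl, hcv, hcu, hvu⟩
        · refine ⟨by simp, by simp, ?_⟩
          intro s hs
          rw [List.mem_singleton] at hs
          subst hs
          exact Or.inl ⟨rfl, hvu, hvc, huc⟩
      · intro x E y hE
        rcases ASPH_three hE with ⟨rfl, rfl, rfl⟩ | ⟨rfl, rfl, rfl⟩ | ⟨rfl, rfl, rfl⟩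
        · refine ⟨_, rfl, huc, ?_⟩
          intro s hs t ht
          simp only [List.head?_cons, List.getLast?_singleton, Option.mem_def,
            Option.some.injEq] at hs ht
          subst hs ht
          exact ⟨rfl, rfl, Iff.rfl, fun _ => rfl⟩
        · refine ⟨_, rfl, hcv, ?_⟩
          intro s hs t ht
          simp only [List.head?_cons, List.getLast?_singleton, Option.mem_def,
            Option.some.injEq] at hs ht
          subst hs ht
          exact ⟨rfl, rfl, Iff.rfl, fun _ => rfl⟩
        · refine ⟨_, rfl, hvu, ?_⟩
          intro s hs t ht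
          simp only [List.head?_cons, List.getLast?_singleton, Option.mem_def,
            Option.some.injEq] at hs ht
          subst hs ht
          exact ⟨rfl, rfl, Iff.rfl, fun _ => rfl⟩
    · -- MinF
      refine ⟨h1, fun n' h' => ?_⟩
      have := star2 u v huv _ (Fill.tri huv huc hcv h')
      omega
    · -- InvB
      intro x E y hE s hs _ n' h'
      rcases ASPH_three hE with ⟨rfl, rfl, rfl⟩ | ⟨rfl, rfl, rfl⟩ | ⟨rfl, rfl, rfl⟩
      · simp only [List.head?_cons, Option.mem_def, Option.some.injEq] at hs
        subst hs
        simp only [List.map_nil, List.map_cons, List.nil_append] at h'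
        have h2 := hFBR V A adj T hT [u] [] v c _ n' hvc h'
        rw [hT1, hTc, sub_neg_eq_add] at h2
        have := star2 u v huv _ h2
        omega
      · simp only [List.head?_cons, Option.mem_def, Option.some.injEq] at hs
        subst hs
        simp only [List.map_nil, List.map_cons, List.cons_append, List.nil_append] at h'
        have h2 := hFBR V A adj T hT [] [v] u c _ n' huc h'
        rw [hT2, hTc, sub_neg_eq_add] at h2
        have := star2 u v huv _ h2
        omega
      · simp only [List.head?_cons, Option.mem_def, Option.some.injEq] at hs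
        subst hs
        simp only [List.map_nil, List.map_cons, List.cons_append, List.nil_append] at h'
        have h2 := hFBR V A adj T hT [u] [] c v _ n' hcv h'
        rw [hTc, sub_neg_eq_add] at h2
        have := star2 u c huc _ h2
        omega
    · -- InvC
      intro x E y E' z hE s hs s' hs' _ _ ha ha' _ n' _
      exfalso
      rcases ASPH_three hE with ⟨rfl, rfl, h5⟩ | ⟨rfl, rfl, h5⟩ | ⟨rfl, rfl, h5⟩
      · simp only [List.head?_cons, Option.mem_def, Option.some.injEq] at hs
        subst hs
        rcases y with _ | ⟨y1, _ | ⟨y2, y⟩⟩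
        · simp only [List.nil_append, List.cons.injEq] at h5
          obtain ⟨rfl, rfl⟩ := h5
          simp only [List.head?_cons, Option.mem_def, Option.some.injEq] at hs'
          subst hs'
          exact nuv ha'.symm
        · simp only [List.cons_append, List.nil_append, List.cons.injEq] at h5
          obtain ⟨rfl, rfl, rfl⟩ := h5
          exact ncv ha
        · have := congrArg List.length h5
          simp only [List.length_cons, List.length_append, List.length_nil] at this
          omega
      · simp only [List.head?_cons, Option.mem_def, Option.some.injEq] at hs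
        subst hs
        rcases y with _ | ⟨y1, y⟩
        · simp only [List.nil_append, List.cons.injEq] at h5
          obtain ⟨rfl, rfl⟩ := h5
          simp only [List.head?_cons, Option.mem_def, Option.some.injEq] at hs'
          subst hs'
          exact nuc ha'
        · have := congrArg List.length h5
          simp only [List.length_cons, List.length_append, List.length_nil] at this
          omega
      · have := congrArg List.length h5
        simp only [List.length_cons, List.length_append, List.length_nil] at this
        omega
    · -- spheres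
      intro D' n' hn' h'
      exact IH n' (by omega) D' h'

theorem stmt_ASPH (hGB : Stmt_GB) (hFBR : Stmt_FBR) : Stmt_ASPH := by
  intro V A _ adj T ang ε hT hN D n
  induction n using Nat.strong_induction_on generalizing D with
  | _ n IH =>
    intro h
    exact ASPH_inner hGB hFBR hT hN n (fun m hm D => IH m hm D) h le_rfl (Or.inl rfl)

end Pool.HA
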