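import Pool.Agent.Work.MP_7084a3_h91.InterfaceF
import Pool.Agent.Work.MP_7084a3_h91.InterfaceX

set_option autoImplicit false

namespace Pool.HA

namespace BIGaux

section
variable {V : Type}

/-- a walk without its last vertex, flagged except at the first vertex -/
def flg (a : V) (W : List V) : List (V × Bool) := (a, false) :: W.map (fun v => (v, true))

theorem flg_fst (a : V) (W : List V) : (flg a W).map Prod.fst = a :: W := by
  simp [flg, Function.comp_def]

theorem nns_flg (a : V) (W : List V) : nns (flg a W) = 1 := by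
  simp [nns, flg, List.countP_map, Function.comp_def]

theorem nns_append (P Q : List (V × Bool)) : nns (P ++ Q) = nns P + nns Q := by
  simp [nns]

theorem flg_part {a : V} {W : List V} {x y : List (V × Bool)} {q : V × Bool}
    (h : flg a W = x ++ q :: y) (hq : q.2 = true) :
    ∃ x' c, x = x' ++ [c] ∧ ∀ z, ∀ r ∈ (y.map Prod.fst ++ [z]).head?,
      ∃ A B, a :: W ++ [z] = A ++ c.1 :: q.1 :: r :: B := by
  rcases List.eq_nil_or_concat x with rfl | ⟨x', c, rfl⟩
  · exfalso
    rw [flg, List.nil_append, List.cons.injEq] at h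
    rw [← h.1] at hq
    simp at hq
  · refine ⟨x', c, by simp, ?_⟩
    intro z r hr
    rw [Option.mem_def, List.head?_eq_some_iff] at hr
    obtain ⟨B, hB⟩ := hr
    refine ⟨x'.map Prod.fst, B, ?_⟩
    have e := congrArg (List.map Prod.fst) h
    rw [flg_fst] at e
    rw [e]
    simp only [List.concat_eq_append, List.map_append, List.map_cons, List.map_nil,
      List.append_assoc, List.cons_append, List.nil_append]
    rw [hB]

theorem red_rev {l : List V} (h : Red l) : Red l.reverse := by
  intro x a b c y e
  have e' := congrArg List.reverse e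
  rw [List.reverse_reverse] at e'
  simp only [List.reverse_append, List.reverse_cons, List.append_assoc, List.cons_append,
    List.nil_append] at e'
  exact (h y.reverse c b a x.reverse e').symm

theorem wk_form {P : List V} {v w : V} (h1 : P.head? = some v) (h2 : P.getLast? = some w)
    (h3 : P ≠ [v]) : ∃ P', P = v :: P' ++ [w] := by
  rw [List.head?_eq_some_iff] at h1
  obtain ⟨P₁, rfl⟩ := h1
  rcases List.eq_nil_or_concat P₁ with rfl | ⟨P', c, rfl⟩
  · exact absurd rfl h3
  · refine ⟨P', ?_⟩
    simp [List.concat_eq_append, List.getLast?_cons] at h2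
    rw [← h2]
    simp

end

section
variable {G S : Type} [Group G] {g : S → G}

/-- conclusion of `RFlag` at one position -/
theorem use_red {W : List (Vtx g)} (hW : Red W) {ρ : G} (hρ : Rfl g ρ) (hF : Fx ρ W)
    {A B : List (Vtx g)} {p q r : Vtx g} (h : W = A ++ p :: q :: r :: B) :
    r ≠ p ∧ ∃ ρ, Rfl g ρ ∧ ρ • r = r ∧ ρ • q = q ∧ ρ • p = p := by
  refine ⟨(hW A p q r B h).symm, ρ, hρ, hF _ ?_, hF _ ?_, hF _ ?_⟩ <;> rw [h] <;> simp

theorem rflag_one {W : List (Vtx g)} {v : Vtx g} (hW : Red (v :: W ++ [v])) {ρ : G}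
    (hρ : Rfl g ρ) (hF : Fx ρ (v :: W ++ [v])) : RFlag (flg v W) := by
  intro x q y h hq r hr p hp
  obtain ⟨x', c, rfl, H⟩ := flg_part h hq
  have hpc : p = c := by
    rw [← List.append_assoc, List.getLast?_concat, Option.mem_def, Option.some.injEq] at hp
    exact hp.symm
  subst hpc
  have hr' : r.1 ∈ (y.map Prod.fst ++ [v]).head? := by
    cases y with
    | cons d y =>
      simp at hr ⊢
      rw [hr]
    | nil =>
      have h1 := congrArg List.head? h
      rw [List.append_assoc, List.nil_append] at *
      have h2 : (x' ++ [p]).head? = some (v, false) := by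
        have : (x' ++ ([p] ++ [q])).head? = (x' ++ [p]).head? := by
          cases x' <;> simp
        rw [← this, ← h1]
        simp [flg]
      rw [h2] at hr
      simp at hr ⊢
      rw [← hr]
  obtain ⟨A, B, e⟩ := H v r.1 hr'
  exact use_red hW hρ hF e

theorem rflag_two {P Q : List (Vtx g)} {v w : Vtx g} (hP : Red (v :: P ++ [w]))
    (hQ : Red (w :: Q ++ [v])) {r₁ r₂ : G} (h₁ : Rfl g r₁) (h₂ : Rfl g r₂)
    (hF₁ : Fx r₁ (v :: P ++ [w])) (hF₂ : Fx r₂ (w :: Q ++ [v])) : RFlag (flg v P ++ flg w Q) := by
  intro x q y h hq r hr p hp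
  rw [List.append_eq_append_iff] at h
  rcases h with ⟨x₂, rfl, h⟩ | ⟨c', h, h'⟩
  · -- the second part
    obtain ⟨x', c, rfl, H⟩ := flg_part h hq
    have hpc : p = c := by
      rw [← List.append_assoc, ← List.append_assoc, List.getLast?_concat, Option.mem_def,
        Option.some.injEq] at hp
      exact hp.symm
    subst hpc
    have hr' : r.1 ∈ (y.map Prod.fst ++ [v]).head? := by
      cases y with
      | cons d y =>
        simp at hr ⊢
        rw [hr]
      | nil =>
        simp [flg] at hr ⊢
        rw [← hr]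
    obtain ⟨A, B, e⟩ := H v r.1 hr'
    exact use_red hQ h₂ hF₂ e
  · cases c' with
    | nil =>
      exfalso
      rw [List.nil_append, flg, List.cons.injEq] at h'
      rw [h'.1] at hq
      simp at hq
    | cons q' y₁ =>
      rw [List.cons_append, List.cons.injEq] at h'
      obtain ⟨rfl, rfl⟩ := h'
      obtain ⟨x', c, rfl, H⟩ := flg_part h hq
      have hpc : p = c := by
        rw [← List.append_assoc, List.getLast?_concat, Option.mem_def, Option.some.injEq] at hp
        exact hp.symm
      subst hpc
      have hr' : r.1 ∈ (y₁.map Prod.fst ++ [w]).head? := by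
        cases y₁ with
        | cons d y =>
          simp at hr ⊢
          rw [hr]
        | nil =>
          simp [flg] at hr ⊢
          rw [← hr]
      obtain ⟨A, B, e⟩ := H w r.1 hr'
      exact use_red hP h₁ hF₁ e

end

end BIGaux

open BIGaux

theorem stmt_BIG (hX : Stmt_XISO) (hF : Stmt_FTWO) (hT : Stmt_TTOK) (hW : Stmt_WCH) :
    Stmt_BIG := by
  intro S _ M hM r₁ r₂ v w P Q hr₁ hr₂ hP hQ hF₁ hF₂ hRP hRQ
  obtain ⟨C, hC⟩ := hX S M hM
  obtain ⟨-, -, hcw, -⟩ := hW (Art M) S (gen M)
  have one : ∀ (r : Art M) (W : List (Vtx (gen M))), Rfl (gen M) r → Wk W v v → Fx r W →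
      Red W → W = [v] := by
    intro r W hr hWk hFx hRed
    by_contra hne
    obtain ⟨W', rfl⟩ := wk_form hWk.1 hWk.2.1 hne
    have hs : Wk [v] v v := ⟨rfl, rfl, by simp⟩
    have h1 := (hcw _ _ v v hWk hs).1
    have e : (v :: W' ++ [v]).dropLast ++ [v].reverse.dropLast = v :: W' := by
      rw [List.dropLast_concat]; simp
    rw [e] at h1
    have h2 := (hC (flg v W') (by simp [flg]) (by rw [flg_fst]; exact h1)
      (rflag_one hRed hr hFx)).1
    rw [nns_flg] at h2
    omega
  by_cases hPv : P = [v]
  · have hwv : w = v := by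
      have := hP.2.1
      rw [hPv] at this
      simpa using this.symm
    subst hwv
    rw [hPv, one r₂ Q hr₂ hQ hF₂ hRQ]
  · by_cases hQv : Q = [v]
    · have hwv : w = v := by
        have := hQ.2.1
        rw [hQv] at this
        simpa using this.symm
      subst hwv
      rw [hQv, one r₁ P hr₁ hP hF₁ hRP]
    · obtain ⟨P', hP'⟩ := wk_form hP.1 hP.2.1 hPv
      have hQr : Q.reverse ≠ [w] := by
        intro h
        have h' := congrArg List.reverse h
        rw [List.reverse_reverse] at h'
        have h3 := hQ.1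
        rw [h'] at h3
        apply hQv
        rw [h']
        simpa using h3
      obtain ⟨Q', hQ'⟩ := wk_form (P := Q.reverse) (v := w) (w := v)
        (by rw [List.head?_reverse]; exact hQ.2.1) (by rw [List.getLast?_reverse]; exact hQ.1) hQr
      have hcw' := (hcw P Q v w hP hQ).1
      have e : P.dropLast ++ Q.reverse.dropLast = (flg v P' ++ flg w Q').map Prod.fst := by
        rw [List.map_append, flg_fst, flg_fst, hP', hQ', List.dropLast_concat,
          List.dropLast_concat]
      rw [e] at hcw'
      have hRQ' := red_rev hRQ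
      rw [hQ'] at hRQ'
      have hF₂' : Fx r₂ (w :: Q' ++ [v]) := by
        intro z hz
        rw [← hQ'] at hz
        exact hF₂ z (List.mem_reverse.1 hz)
      rw [hP'] at hRP hF₁
      obtain ⟨-, D, n, hD, hn⟩ := hC _ (by simp [flg]) hcw'
        (rflag_two hRP hRQ' hr₁ hr₂ hF₁ hF₂')
      rw [nns_append, nns_flg, nns_flg] at hn
      have hn0 : n = 0 := by simpa using hn
      subst hn0
      rw [← e] at hD
      rw [← hP'] at hRP
      refine hF _ _ Vtx.ad TT (hT (Art M) S (gen M)) P Q D ?_ ?_ hRP hRQ ?_ ?_ hD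
      · intro h; rw [h] at hP; simpa using hP.1
      · intro h; rw [h] at hQ; simpa using hQ.1
      · rw [hP.1, hQ.1]
      · rw [hP.2.1, hQ.2.1]

end Pool.HA
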