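import Pool.Agent.Work.MP_7084a3_h91.InterfaceX
import Pool.Agent.Work.MP_7084a3_h91.InterfaceF

set_option autoImplicit false

namespace Pool.HA

theorem xiso_next {V : Type} {adj : V → V → Prop} {P : List (V × Bool)}
    (hP : CW adj (P.map Prod.fst)) {x y : List (V × Bool)} {q : V × Bool} (h : P = x ++ q :: y)
    {r : V × Bool} (hr : r ∈ (y ++ x).head?) : adj q.1 r.1 := by
  obtain ⟨r', hr', had⟩ := hP (x.map Prod.fst) q.1 (y.map Prod.fst) (by
    rw [h, List.map_append, List.map_cons])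
  rw [← List.map_append, List.head?_map, Option.mem_def.1 hr] at hr'
  have h1 : r.1 = r' := by simpa using hr'
  rw [h1]
  exact had

theorem xiso_prev {V : Type} {adj : V → V → Prop} {P : List (V × Bool)}
    (hP : CW adj (P.map Prod.fst)) {x y : List (V × Bool)} {q : V × Bool} (h : P = x ++ q :: y)
    {p : V × Bool} (hp : p ∈ (y ++ x).getLast?) : adj p.1 q.1 := by
  rcases List.eq_nil_or_concat x with rfl | ⟨x', p', rfl⟩
  · rw [List.append_nil] at hp
    rcases List.eq_nil_or_concat y with rfl | ⟨y', p', rfl⟩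
    · simp at hp
    · have h1 : p' = p := by simpa using hp
      subst h1
      refine xiso_next hP (x := q :: y') (y := []) (by rw [h]; simp) (by simp)
  · have h1 : p' = p := by simpa using hp
    subst h1
    refine xiso_next hP (x := x') (y := q :: y) (by rw [h]; simp) (by simp)

theorem stmt_XISO (hNPC : Stmt_NPC) (hSTR : Stmt_STR) (hISO : Stmt_ISO) (hEXF : Stmt_EXF)
    (hTTOK : Stmt_TTOK) : Stmt_XISO := by
  intro S _ M hM
  classical
  obtain ⟨ε, hε⟩ := hNPC S M hM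
  refine ⟨⌈1 / ε⌉₊, ?_⟩
  intro P hP0 hP hR
  have hT := hTTOK (Art M) S (gen M)
  have hF : FlagOK Vtx.ad (ang M ε) P := by
    intro x q y h hq r hr p hp
    obtain ⟨hne, ρ, hρ, h1, h2, h3⟩ := hR x q y h hq r hr p hp
    exact hSTR S M hM ε ρ p.1 q.1 r.1 hρ (hT.symm _ _ (xiso_prev hP h hp)) (xiso_next hP h hr)
      (Ne.symm hne) h3 h2 h1
  have hne : ∀ s t, M s t ≠ 0 := hM.ne_zero
  obtain ⟨D, n₀, hD⟩ := hEXF S M hne (P.map Prod.fst) hP
  obtain ⟨n, hn, hle⟩ := hISO (Vtx (gen M)) (C2 (gen M)) Vtx.ad TT (ang M ε) ε hT hε P hP0 hF D n₀ hD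
  have hε0 := hε.pos
  have h2 : 2 ≤ nns P := by
    have h3 : (2 : ℝ) ≤ (nns P : ℝ) := by
      have : 0 ≤ ε * n := by positivity
      linarith
    exact_mod_cast h3
  refine ⟨h2, D, n, hn, ?_⟩
  have h3 : (n : ℝ) ≤ (⌈1 / ε⌉₊ : ℝ) * ((nns P : ℝ) - 2) := by
    have h4 : (n : ℝ) ≤ (1 / ε) * ((nns P : ℝ) - 2) := by
      rw [one_div, inv_mul_eq_div, le_div_iff₀ hε0]
      linarith
    refine h4.trans (mul_le_mul_of_nonneg_right (Nat.le_ceil _) ?_)
    have : (2 : ℝ) ≤ (nns P : ℝ) := by exact_mod_cast h2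
    linarith
  have h5 : ((nns P - 2 : ℕ) : ℝ) = (nns P : ℝ) - 2 := by
    rw [Nat.cast_sub h2]
    norm_num
  rw [← h5] at h3
  exact_mod_cast h3

end Pool.HA
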