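import Pool.Agent.Work.MP_7084a3_h91.InterfaceD

set_option autoImplicit false

/-! # Block DROOT (helper54): roots of powers of a generator -/

namespace Pool.HA

open Polynomial in
/-- roots of unity in `ℝ(q)` -/
theorem droot_unity {d : KK} {K : ℕ} (hK : 0 < K) (h : d ^ K = 1) : d = 1 ∨ d = -1 := by
  have h1 : IsIntegral ℝ[X] (d ^ K) := by rw [h]; exact isIntegral_one
  obtain ⟨P, hP⟩ := IsIntegrallyClosed.exists_algebraMap_eq_of_isIntegral_pow (K := KK) hK h1
  have h2 : P ^ K = 1 := by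
    apply IsFractionRing.injective ℝ[X] KK
    rw [map_pow, hP, h, map_one]
  have h3 : P.natDegree = 0 := by
    have h4 := congrArg natDegree h2
    rw [natDegree_pow, natDegree_one] at h4
    rcases Nat.mul_eq_zero.1 h4 with h5 | h5
    · omega
    · exact h5
  obtain ⟨c, hc⟩ := natDegree_eq_zero.1 h3
  have h5 : c ^ K = 1 := by
    rw [← hc, ← C_pow, ← C_1] at h2
    exact C_injective h2
  have h6 : |c| = 1 := by
    have h7 : |c| ^ K = 1 := by rw [← abs_pow, h5, abs_one]
    exact (pow_eq_one_iff_of_nonneg (abs_nonneg c) hK.ne').1 h7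
  rcases (abs_eq (zero_le_one)).1 h6 with h7 | h7
  · left
    rw [← hP, ← hc, h7, C_1, map_one]
  · right
    rw [← hP, ← hc, h7, C_neg, C_1, map_neg, map_one]

open Polynomial in
theorem droot_X {c : ℝ} : (RatFunc.X : KK) ≠ algebraMap ℝ KK c := by
  intro h
  have h1 : algebraMap ℝ[X] KK X = algebraMap ℝ[X] KK (C c) := by
    rw [RatFunc.algebraMap_X, h, RatFunc.algebraMap_C, RatFunc.algebraMap_eq_C]
  have h2 := IsFractionRing.injective ℝ[X] KK h1
  have h3 := congrArg natDegree h2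
  rw [natDegree_X, natDegree_C] at h3
  exact one_ne_zero h3

theorem droot_negX {n : ℕ} (hn : 0 < n) : (-RatFunc.X : KK) ^ n ≠ 1 := by
  intro h
  rcases droot_unity hn h with h1 | h1
  · apply droot_X (c := -1)
    rw [map_neg, map_one, ← h1, neg_neg]
  · apply droot_X (c := 1)
    rw [map_one]
    exact neg_injective h1

/-- `1 + (-q) + ⋯ + (-q)^(n-1)` -/
noncomputable def drootc (n : ℕ) : KK := ∑ l ∈ Finset.range n, (-RatFunc.X : KK) ^ l

theorem drootc_mul (n : ℕ) : (-RatFunc.X - 1) * drootc n = (-RatFunc.X : KK) ^ n - 1 := by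
  unfold drootc
  rw [mul_comm]
  exact geom_sum_mul _ n

theorem droot_pow (m n : ℕ) : sM m ^ n =
    !![(-RatFunc.X) ^ n, algebraMap ℝ KK (lam m) * drootc n; 0, 1] := by
  induction n with
  | zero =>
    rw [pow_zero, pow_zero]
    unfold drootc
    rw [Finset.range_zero, Finset.sum_empty, mul_zero]
    exact Matrix.one_fin_two
  | succ n ih =>
    rw [pow_succ, ih]
    unfold sM
    rw [Matrix.mul_fin_two]
    have h : drootc (n + 1) = drootc n + (-RatFunc.X : KK) ^ n := by
      unfold drootc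
      rw [Finset.sum_range_succ]
    rw [h]
    congr 1
    ext i j
    fin_cases i <;> fin_cases j <;> simp <;> ring

theorem droot_tri (a b d : KK) (K : ℕ) :
    ∃ b', !![a, b; 0, d] ^ K = !![a ^ K, b'; 0, d ^ K] := by
  induction K with
  | zero =>
    refine ⟨0, ?_⟩
    rw [pow_zero, pow_zero, pow_zero]
    exact Matrix.one_fin_two
  | succ K ih =>
    obtain ⟨b', hb⟩ := ih
    refine ⟨a ^ K * b + b' * d, ?_⟩
    rw [pow_succ, hb, Matrix.mul_fin_two]
    congr 1
    ext i j
    fin_cases i <;> fin_cases j <;> simp [pow_succ]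

/-- the determinant is `(-q)^esum` -/
theorem droot_det {S : Type} (M : CoxeterMatrix S) (s t : S)
    (Φ : ↥(pr (gen M) s t) →* Matrix (Fin 2) (Fin 2) KK)
    (hs : ∀ x, x.1 = gen M s → Φ x = sM (M s t)) (ht : ∀ x, x.1 = gen M t → Φ x = tM (M s t)) :
    ∀ g (hg : g ∈ pr (gen M) s t), (Φ ⟨g, hg⟩).det =
      (-RatFunc.X : KK) ^ (Multiplicative.toAdd (esum M g)) := by
  have hX : (-RatFunc.X : KK) ≠ 0 := neg_ne_zero.2 RatFunc.X_ne_zero
  have hes : ∀ s, esum M (gen M s) = Multiplicative.ofAdd 1 := by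
    intro s
    unfold esum gen
    exact PresentedGroup.toGroup.of _
  intro g hg
  induction hg using Subgroup.closure_induction with
  | mem x hx =>
    rcases hx with hx | hx
    · rw [hs _ hx, hx, hes]
      unfold sM
      rw [Matrix.det_fin_two_of]
      simp
    · have hx' : x = gen M t := hx
      rw [ht _ hx', hx', hes]
      unfold tM
      rw [Matrix.det_fin_two_of]
      simp
  | one =>
    have h1 : (⟨1, Subgroup.one_mem _⟩ : ↥(pr (gen M) s t)) = 1 := rfl
    rw [map_one]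
    erw [h1]
    rw [map_one, Matrix.det_one]
    simp
  | mul x y hx hy h1 h2 =>
    have h3 : (⟨x * y, Subgroup.mul_mem _ hx hy⟩ : ↥(pr (gen M) s t)) = ⟨x, hx⟩ * ⟨y, hy⟩ := rfl
    erw [h3]
    rw [map_mul, Matrix.det_mul, h1, h2, map_mul, toAdd_mul, zpow_add₀ hX]
  | inv x hx h1 =>
    have h3 : (⟨x⁻¹, Subgroup.inv_mem _ hx⟩ : ↥(pr (gen M) s t)) * ⟨x, hx⟩ = 1 :=
      Subtype.ext (inv_mul_cancel x)
    have h4 := congrArg (fun y => (Φ y).det) h3
    simp only [map_mul, Matrix.det_mul, map_one, Matrix.det_one] at h4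
    rw [h1] at h4
    rw [map_inv, toAdd_inv, zpow_neg]
    exact eq_inv_of_mul_eq_one_left h4

theorem droot_pos (hTH : Stmt_DTH) (hINJ : Stmt_DINJ) (S : Type) (M : CoxeterMatrix S)
    (hM : ∀ s t, M s t ≠ 0) (s t : S) (hst : s ≠ t) (h : Art M) (hh : h ∈ pr (gen M) s t)
    (K n : ℕ) (hK : 0 < K) (hn : 0 < n) (hpow : h ^ K = gen M s ^ n) :
    ∃ i : ℕ, h = gen M s ^ i := by
  obtain ⟨F, _, u, j, θ, Φ, hUJ, hΦs, hΦt, hθs, hθt, hθ⟩ := hTH S M hM s t hst
  have hes : esum M (gen M s) = Multiplicative.ofAdd 1 := by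
    unfold esum gen
    exact PresentedGroup.toGroup.of _
  set x : ↥(pr (gen M) s t) := ⟨h, hh⟩ with hx
  have hsm : gen M s ∈ pr (gen M) s t := Subgroup.subset_closure (Set.mem_insert _ _)
  set sx : ↥(pr (gen M) s t) := ⟨gen M s, hsm⟩ with hsx
  have hΦsx : Φ sx = sM (M s t) := hΦs sx rfl
  have hxs : x ^ K = sx ^ n := Subtype.ext hpow
  have hq : (-RatFunc.X : KK) ≠ 0 := neg_ne_zero.2 RatFunc.X_ne_zero
  -- exponent sum
  have hes1 : (K : ℤ) * Multiplicative.toAdd (esum M h) = n := by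
    have h1 := congrArg (fun y => Multiplicative.toAdd (esum M y)) hpow
    simp only [map_pow, toAdd_pow, hes, toAdd_ofAdd, smul_eq_mul, nsmul_eq_mul] at h1
    rw [h1]
    ring
  have hipos : 0 < Multiplicative.toAdd (esum M h) := by
    by_contra hneg
    push Not at hneg
    have h1 : (K : ℤ) * Multiplicative.toAdd (esum M h) ≤ 0 :=
      mul_nonpos_of_nonneg_of_nonpos (by positivity) hneg
    have h2 : (0 : ℤ) < n := by exact_mod_cast hn
    omega
  obtain ⟨i, hi⟩ := Int.eq_ofNat_of_zero_le hipos.le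
  have hKi : n = K * i := by
    have h1 := hes1
    rw [hi] at h1
    exact_mod_cast h1.symm
  -- the matrix
  set H := Φ x with hH
  have hcomm : H * sM (M s t) ^ n = sM (M s t) ^ n * H := by
    have h1 : x * sx ^ n = sx ^ n * x := by
      rw [← hxs]
      exact (Commute.self_pow x K).eq
    have h2 := congrArg Φ h1
    rw [map_mul, map_mul, map_pow, hΦsx] at h2
    exact h2
  have hHK : H ^ K = sM (M s t) ^ n := by
    have h2 := congrArg Φ hxs
    rw [map_pow, map_pow, hΦsx] at h2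
    exact h2
  have hdet : H.det = (-RatFunc.X : KK) ^ i := by
    have h1 := droot_det M s t Φ hΦs hΦt h hh
    rw [hi] at h1
    rw [hH, hx, h1]
    exact zpow_natCast _ _
  obtain ⟨a, b, c, d, habcd⟩ : ∃ a b c d, H = !![a, b; c, d] :=
    ⟨H 0 0, H 0 1, H 1 0, H 1 1, Matrix.eta_fin_two H⟩
  rw [droot_pow, habcd, Matrix.mul_fin_two, Matrix.mul_fin_two] at hcomm
  set A := (-RatFunc.X : KK) ^ n with hA
  set L := algebraMap ℝ KK (lam (M s t)) with hL
  have hA1 : A ≠ 1 := droot_negX hn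
  have hp : (-RatFunc.X - 1 : KK) * drootc n = A - 1 := drootc_mul n
  have hcn : drootc n ≠ 0 := by
    intro h0
    rw [h0, mul_zero] at hp
    exact hA1 (sub_eq_zero.1 hp.symm)
  have hp0 : (-RatFunc.X - 1 : KK) ≠ 0 := by
    intro h0
    rw [h0, zero_mul] at hp
    exact hA1 (sub_eq_zero.1 hp.symm)
  have e10 := congrFun (congrFun hcomm 1) 0
  have e01 := congrFun (congrFun hcomm 0) 1
  simp only [Matrix.of_apply, Matrix.cons_val', Matrix.cons_val_zero, Matrix.cons_val_one,
    Matrix.empty_val', Matrix.cons_val_fin_one] at e10 e01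
  have hc0 : c = 0 := by
    have h1 : c * (A - 1) = 0 := by linear_combination e10
    rcases mul_eq_zero.1 h1 with h2 | h2
    · exact h2
    · exact absurd (sub_eq_zero.1 h2) hA1
  have hb : b * (-RatFunc.X - 1) = L * (a - d) := by
    refine mul_right_cancel₀ hcn ?_
    have h1 : b * (A - 1) = L * drootc n * (a - d) := by linear_combination -e01
    rw [← hp] at h1
    linear_combination h1
  rw [hc0] at habcd
  obtain ⟨b', hb'⟩ := droot_tri a b d K
  rw [habcd, hb', droot_pow] at hHK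
  have f00 := congrFun (congrFun hHK 0) 0
  have f11 := congrFun (congrFun hHK 1) 1
  simp only [Matrix.of_apply, Matrix.cons_val', Matrix.cons_val_zero, Matrix.cons_val_one,
    Matrix.empty_val', Matrix.cons_val_fin_one] at f00 f11
  rw [habcd, Matrix.det_fin_two_of, mul_zero, sub_zero] at hdet
  -- `d = ± 1`, `a = ± (-q)^i`
  have hqi : (-RatFunc.X : KK) ^ i ≠ 0 := pow_ne_zero _ hq
  have hd : d = 1 ∨ d = -1 := droot_unity hK f11
  have hd2 : d * d = 1 := by rcases hd with h1 | h1 <;> rw [h1] <;> ring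
  have ha : a = d * (-RatFunc.X : KK) ^ i := by
    calc a = a * (d * d) := by rw [hd2, mul_one]
      _ = (a * d) * d := by ring
      _ = d * (-RatFunc.X : KK) ^ i := by rw [hdet]; ring
  have hb2 : b = d * (L * drootc i) := by
    refine mul_right_cancel₀ hp0 ?_
    rw [hb, ha]
    have h1 := drootc_mul i
    linear_combination (-(L * d)) * h1
  have hHi : H = d • (sM (M s t) ^ i) := by
    rw [habcd, droot_pow, ha, hb2]
    ext p r
    fin_cases p <;> fin_cases r <;> simp [hL]
  -- the conclusion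
  have hy : x * (sx ^ i)⁻¹ = 1 := by
    refine hINJ S M hM s t hst F u j θ hUJ hθs hθt _ ?_ ?_
    · refine (hθ _).2 ⟨d, ?_⟩
      rw [map_mul, ← hH, hHi, smul_mul_assoc]
      have h1 : Φ (sx ^ i) * Φ ((sx ^ i)⁻¹) = 1 := by
        rw [← map_mul, mul_inv_cancel, map_one]
      rw [map_pow, hΦsx] at h1
      rw [h1]
    · show esum M (h * (gen M s ^ i)⁻¹) = 1
      rw [map_mul, map_inv, map_pow, hes, mul_inv_eq_one]
      apply Multiplicative.toAdd.injective
      rw [hi, toAdd_pow, toAdd_ofAdd]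
      simp
  refine ⟨i, ?_⟩
  have h1 := congrArg Subtype.val (mul_inv_eq_one.1 hy)
  exact h1

theorem stmt_DROOT (h1 : Stmt_DTH) (h2 : Stmt_DINJ) : Stmt_DROOT := by
  intro S M hM s t hst h hh K k hK hk hpow
  rcases lt_trichotomy k 0 with hk0 | hk0 | hk0
  · obtain ⟨n, hn⟩ := Int.eq_ofNat_of_zero_le (show 0 ≤ -k by omega)
    obtain ⟨i, hi⟩ := droot_pos h1 h2 S M hM s t hst h⁻¹ (Subgroup.inv_mem _ hh) K n hK (by omega)
      (by
        rw [inv_pow, hpow, ← zpow_neg, hn]
        exact zpow_natCast _ _)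
    refine ⟨-(i : ℤ), ?_⟩
    rw [zpow_neg, zpow_natCast, ← hi, inv_inv]
  · exact absurd hk0 hk
  · obtain ⟨n, hn⟩ := Int.eq_ofNat_of_zero_le hk0.le
    obtain ⟨i, hi⟩ := droot_pos h1 h2 S M hM s t hst h hh K n hK (by omega)
      (by
        rw [hpow, hn]
        exact zpow_natCast _ _)
    exact ⟨(i : ℤ), by rw [zpow_natCast]; exact hi⟩

end Pool.HA
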