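import Pool.Agent.Work.MP_7084a3_h91.InterfaceX
import Pool.Agent.Work.MP_7084a3_h91.Basic

set_option autoImplicit false

namespace Pool.HA

theorem BD_nf_le {X : Type} (D : X →₀ ℤ) (s : Finset X) (hs : D.support ⊆ s) :
    nf D = ∑ x ∈ s, (D x).natAbs := by
  unfold nf
  exact Finsupp.sum_of_support_subset D hs _ (fun _ _ => rfl)

theorem BD_nf_add {X : Type} (D D' : X →₀ ℤ) : nf (D + D') ≤ nf D + nf D' := by
  classical
  rw [BD_nf_le (D + D') (D.support ∪ D'.support) Finsupp.support_add,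
    BD_nf_le D (D.support ∪ D'.support) Finset.subset_union_left,
    BD_nf_le D' (D.support ∪ D'.support) Finset.subset_union_right, ← Finset.sum_add_distrib]
  apply Finset.sum_le_sum
  intro x _
  rw [Finsupp.add_apply]
  exact Int.natAbs_add_le _ _

section
variable {G S : Type} [Group G] {g : S → G}

theorem BD_bd2_single (t : Vtx g × Vtx g × Vtx g) (n : ℤ) :
    bd2 g (Finsupp.single t n) = n • (EE t.1 t.2.1 + EE t.2.1 t.2.2 + EE t.2.2 t.1) := by
  simp [bd2]

theorem BD_EE_anti (x y : Vtx g) : EE y x = - EE x y := by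
  unfold EE; abel

theorem BD_wch_append (P Q : List (Vtx g)) (x : Vtx g) :
    wch (P ++ x :: Q) = wch (P ++ [x]) + wch (x :: Q) := by
  induction P with
  | nil => simp [wch]
  | cons a P ih =>
    cases P with
    | nil => simp [wch]
    | cons b P =>
      simp only [List.cons_append, wch] at ih ⊢
      rw [ih, add_assoc]

theorem BD_TT {u v c : Vtx g} (h1 : u.ad v) (h2 : v.ad c) (h3 : u.ad c) :
    ∃ (t : Vtx g × Vtx g × Vtx g) (n : ℤ), TT u v c = Finsupp.single t n ∧ n.natAbs = 1 ∧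
      (t.1.ty = 0 ∧ t.2.1.ty = 1 ∧ t.2.2.ty = 2 ∧ t.1.ad t.2.1 ∧ t.2.1.ad t.2.2 ∧ t.1.ad t.2.2) ∧
      n • (EE t.1 t.2.1 + EE t.2.1 t.2.2 + EE t.2.2 t.1) = EE u v + EE v c + EE c u := by
  have a1 := Vtx.ad_symm h1
  have a2 := Vtx.ad_symm h2
  have a3 := Vtx.ad_symm h3
  rcases Vtx.flag_ty h1 h2 h3 with ⟨b1, b2, b3⟩ | ⟨b1, b2, b3⟩ | ⟨b1, b2, b3⟩ | ⟨b1, b2, b3⟩ |
    ⟨b1, b2, b3⟩ | ⟨b1, b2, b3⟩
  · refine ⟨(u, v, c), 1, ?_, rfl, ⟨b1, b2, b3, h1, h2, h3⟩, ?_⟩
    · simp [TT, dlt, b1, b2, b3]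
    · simp
  · refine ⟨(u, c, v), -1, ?_, rfl, ⟨b1, b3, b2, h3, a2, h1⟩, ?_⟩
    · simp [TT, dlt, b1, b2, b3]
    · simp only [BD_EE_anti u c, BD_EE_anti v c, BD_EE_anti u v, neg_smul, one_smul]; abel
  · refine ⟨(v, u, c), -1, ?_, rfl, ⟨b2, b1, b3, a1, h3, h2⟩, ?_⟩
    · simp [TT, dlt, b1, b2, b3]
    · simp only [BD_EE_anti u c, BD_EE_anti v c, BD_EE_anti u v, neg_smul, one_smul]; abel
  · refine ⟨(c, u, v), 1, ?_, rfl, ⟨b3, b1, b2, a3, h1, a2⟩, ?_⟩
    · simp [TT, dlt, b1, b2, b3]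
    · simp only [one_smul]; abel
  · refine ⟨(v, c, u), 1, ?_, rfl, ⟨b2, b3, b1, h2, a3, a1⟩, ?_⟩
    · simp [TT, dlt, b1, b2, b3]
    · simp only [one_smul]; abel
  · refine ⟨(c, v, u), -1, ?_, rfl, ⟨b3, b2, b1, a2, a1, a3⟩, ?_⟩
    · simp [TT, dlt, b1, b2, b3]
    · simp only [BD_EE_anti u c, BD_EE_anti v c, BD_EE_anti u v, neg_smul, one_smul]; abel

theorem BD_cch_cons (u : Vtx g) (q : List (Vtx g)) : cch (u :: q) = wch (u :: (q ++ [u])) := rfl

theorem BD_flag_add {D D' : C2 g} (h : Flagged D) (h' : Flagged D') : Flagged (D + D') := by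
  classical
  intro t ht
  have := Finsupp.support_add ht
  rw [Finset.mem_union] at this
  rcases this with a | a
  · exact h t a
  · exact h' t a

end

theorem stmt_BD : Stmt_BD := by
  intro G S _ g l D n h
  induction h with
  | nil => exact ⟨by simp [cch], by intro t ht; simp at ht, by simp [nrm, nf]⟩
  | @sph u v D n huv h ih =>
    obtain ⟨i1, i2, i3⟩ := ih
    refine ⟨?_, i2, i3⟩
    rw [i1]
    simp [cch, wch, BD_EE_anti u v]
  | @pair u v P₁ P₂ D₁ D₂ n₁ n₂ huv hP₁ hP₂ h₁ h₂ ih₁ ih₂ =>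
    obtain ⟨i1, i2, i3⟩ := ih₁
    obtain ⟨j1, j2, j3⟩ := ih₂
    refine ⟨?_, BD_flag_add i2 j2, ?_⟩
    · rw [map_add, i1, j1, BD_cch_cons]
      have e1 : wch (u :: (P₁ ++ v :: P₂ ++ [u])) = wch (u :: P₁ ++ [v]) + wch (v :: (P₂ ++ [u])) := by
        have := BD_wch_append (u :: P₁) (P₂ ++ [u]) v
        simpa using this
      have e2 : wch (u :: P₁ ++ [v]) = EE u v + cch P₁ := by
        cases P₁ with
        | nil => simp [wch, cch]
        | cons a P =>
          have := hP₁ a (by simp)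
          subst this
          rw [BD_cch_cons]
          simp [wch]
      have e3 : wch (v :: (P₂ ++ [u])) = EE v u + cch P₂ := by
        cases P₂ with
        | nil => simp [wch, cch]
        | cons a P =>
          have := hP₂ a (by simp)
          subst this
          rw [BD_cch_cons]
          simp [wch]
      rw [e1, e2, e3, BD_EE_anti u v]
      abel
    · exact (BD_nf_add _ _).trans (Nat.add_le_add i3 j3)
  | @tri u v c q D n huv huc hcv h ih =>
    obtain ⟨i1, i2, i3⟩ := ih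
    obtain ⟨t, m, e1, e2, e3, e4⟩ := BD_TT huv (Vtx.ad_symm hcv) huc
    refine ⟨?_, BD_flag_add i2 ?_, ?_⟩
    · rw [map_add, i1, e1, BD_bd2_single, e4, BD_cch_cons, BD_cch_cons]
      simp only [List.cons_append, wch]
      rw [BD_EE_anti c v, BD_EE_anti u c]
      abel
    · rw [e1]
      intro t' ht'
      have := Finsupp.support_single_subset ht'
      rw [Finset.mem_singleton] at this
      subst this
      exact e3
    · refine (BD_nf_add _ _).trans (Nat.add_le_add i3 ?_)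
      rw [e1]
      unfold nf
      rw [Finsupp.sum_single_index (by simp), e2]

end Pool.HA
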