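import Pool.Agent.Work.MP_7084a3_h91.InterfaceX
import Pool.Agent.Work.MP_7084a3_h91.Basic

set_option autoImplicit false

namespace Pool.HA

theorem stmt_TTOK : Stmt_TTOK := by
  intro G S _ g
  refine ⟨fun u v h => Vtx.ad_symm h, Vtx.ad_irrefl, ?_, ?_⟩
  · intro u v w
    unfold TT
    abel
  · intro u v w
    unfold TT
    abel

end Pool.HA
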