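import Pool.Agent.Work.MP_7084a3_h91.B.NOFX

set_option autoImplicit false

/-! # Averaging over a dihedral group (helper35), for TRIP (also FXP) -/

namespace Pool.HA.H35

open Finset

theorem sum_sh {G : Type} [Group G] (R : G) (m : ℕ) (hR : R ^ m = 1) (F : G → ℝ) :
    ∑ j ∈ range m, F (R ^ j * R) = ∑ j ∈ range m, F (R ^ j) := by
  have h1 := sum_range_succ (fun j => F (R ^ j)) m
  have h2 := sum_range_succ' (fun j => F (R ^ j)) m
  rw [h1] at h2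
  simp only [hR, pow_zero, pow_succ] at h2
  linarith

theorem sum_iv {G : Type} [Group G] (R : G) (m : ℕ) (hR : R ^ m = 1) (F : G → ℝ) :
    ∑ j ∈ range m, F ((R ^ j)⁻¹) = ∑ j ∈ range m, F (R ^ j) := by
  rw [← sum_sh R m hR F, ← sum_range_reflect (fun j => F (R ^ j * R)) m]
  apply sum_congr rfl
  intro j hj
  have hj' := mem_range.mp hj
  congr 1
  rw [inv_eq_iff_mul_eq_one, ← pow_succ, ← pow_add]
  have : j + (m - 1 - j + 1) = m := by omega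
  rw [this, hR]

variable {S : Type} [Fintype S] [DecidableEq S] {M : CoxeterMatrix S}
  {ρ : M.Group →* Module.End ℝ (S → ℝ)}

/-- facts on the cone -/
structure FC (M : CoxeterMatrix S) (ρ : M.Group →* Module.End ℝ (S → ℝ)) : Prop where
  add : ∀ x ∈ UC M ρ, ∀ y ∈ UC M ρ, x + y ∈ UC M ρ
  smul : ∀ x ∈ UC M ρ, ∀ a : ℝ, 0 < a → a • x ∈ UC M ρ
  act : ∀ x ∈ UC M ρ, ∀ w, x ∘ₗ ρ w ∈ UC M ρ
  pos : ∀ x : (S → ℝ) →ₗ[ℝ] ℝ, (∀ s, 0 < x (bs s)) → x ∈ UC M ρ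

theorem FC.of (h : Stmt_CONE) (hM : ∀ s t, M s t ≠ 0) (hr : IsRep M ρ) : FC M ρ := by
  obtain ⟨h1, h2, h3, h4⟩ := h S M ρ hM hr
  exact ⟨h1, h2, h3, h4⟩

theorem FC.sum (C : FC M ρ) (f : ℕ → ((S → ℝ) →ₗ[ℝ] ℝ)) (hf : ∀ j, f j ∈ UC M ρ) (n : ℕ) :
    ∑ j ∈ range (n + 1), f j ∈ UC M ρ := by
  induction n with
  | zero => simpa using hf 0
  | succ n ih =>
    rw [sum_range_succ]
    exact C.add _ ih _ (hf _)

/-- the average over the dihedral group generated by `r₁`, `r₂` -/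
theorem avg (C : FC M ρ) {r₁ r₂ : M.Group} (h1 : r₁ * r₁ = 1) (h2 : r₂ * r₂ = 1) (m : ℕ)
    (hm : 0 < m) (hR : (r₁ * r₂) ^ m = 1) (y : (S → ℝ) →ₗ[ℝ] ℝ) (hy : y ∈ UC M ρ) :
    ∃ Y ∈ UC M ρ, (∀ v, Y (ρ r₁ v) = Y v) ∧ (∀ v, Y (ρ r₂ v) = Y v) ∧
      ∀ v, ρ r₁ v = v → ρ r₂ v = v → Y v = 2 * m * y v := by
  obtain ⟨n, rfl⟩ : ∃ n, m = n + 1 := ⟨m - 1, by omega⟩
  set R := r₁ * r₂ with hRd
  have hinv : R⁻¹ = r₂ * r₁ := by
    rw [hRd, mul_inv_rev, inv_eq_of_mul_eq_one_left h1, inv_eq_of_mul_eq_one_left h2]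
  have hc : ∀ j : ℕ, r₁ * R ^ j * r₁ = (R ^ j)⁻¹ := by
    intro j
    have h3 : r₁⁻¹ = r₁ := inv_eq_of_mul_eq_one_left h1
    have h4 : r₁ * R ^ j * r₁⁻¹ = (r₁ * R * r₁⁻¹) ^ j := (conj_pow).symm
    rw [h3] at h4
    rw [h4, ← inv_pow, hinv, hRd, ← mul_assoc, h1, one_mul]
  have hc2 : ∀ j : ℕ, R ^ j * r₁ = r₁ * (R ^ j)⁻¹ := by
    intro j
    rw [← hc j, ← mul_assoc, ← mul_assoc, h1, one_mul]
  obtain ⟨Y, hY⟩ : ∃ Y : (S → ℝ) →ₗ[ℝ] ℝ, Y = ∑ j ∈ range (n + 1),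
      (y ∘ₗ ρ (R ^ j) + y ∘ₗ ρ (r₁ * R ^ j)) := ⟨_, rfl⟩
  have hYv : ∀ v, Y v = ∑ j ∈ range (n + 1), (y (ρ (R ^ j) v) + y (ρ (r₁ * R ^ j) v)) := by
    intro v
    rw [hY, LinearMap.sum_apply]
    rfl
  have e1 : ∀ v, Y (ρ r₁ v) = Y v := by
    intro v
    rw [hYv, hYv, sum_add_distrib, sum_add_distrib]
    have h3 : ∑ j ∈ range (n + 1), y (ρ (R ^ j) (ρ r₁ v)) =
        ∑ j ∈ range (n + 1), y (ρ (r₁ * R ^ j) v) := by
      rw [← sum_iv R (n + 1) hR (fun g => y (ρ (r₁ * g) v))]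
      apply sum_congr rfl
      intro j _
      rw [← mul_app, hc2]
    have h4 : ∑ j ∈ range (n + 1), y (ρ (r₁ * R ^ j) (ρ r₁ v)) =
        ∑ j ∈ range (n + 1), y (ρ (R ^ j) v) := by
      rw [← sum_iv R (n + 1) hR (fun g => y (ρ g v))]
      apply sum_congr rfl
      intro j _
      rw [← mul_app, hc]
    rw [h3, h4, add_comm]
  have e2 : ∀ v, Y (ρ R v) = Y v := by
    intro v
    rw [hYv, hYv, sum_add_distrib, sum_add_distrib]
    have h3 : ∑ j ∈ range (n + 1), y (ρ (R ^ j) (ρ R v)) =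
        ∑ j ∈ range (n + 1), y (ρ (R ^ j) v) := by
      rw [← sum_sh R (n + 1) hR (fun g => y (ρ g v))]
      apply sum_congr rfl
      intro j _
      rw [← mul_app]
    have h4 : ∑ j ∈ range (n + 1), y (ρ (r₁ * R ^ j) (ρ R v)) =
        ∑ j ∈ range (n + 1), y (ρ (r₁ * R ^ j) v) := by
      rw [← sum_sh R (n + 1) hR (fun g => y (ρ (r₁ * g) v))]
      apply sum_congr rfl
      intro j _
      rw [← mul_app, mul_assoc]
    rw [h3, h4]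
  refine ⟨Y, ?_, e1, ?_, ?_⟩
  · rw [hY]
    exact C.sum _ (fun j => C.add _ (C.act y hy _) _ (C.act y hy _)) n
  · intro v
    have h3 : r₁ * R = r₂ := by rw [hRd, ← mul_assoc, h1, one_mul]
    rw [← h3, mul_app, e1, e2]
  · intro v hv1 hv2
    have hRv : ρ R v = v := by rw [hRd, mul_app, hv2, hv1]
    have hRj : ∀ j : ℕ, ρ (R ^ j) v = v := by
      intro j
      induction j with
      | zero => rw [pow_zero, one_app]
      | succ j ih => rw [pow_succ, mul_app, hRv, ih]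
    rw [hYv]
    have h3 : ∀ j ∈ range (n + 1), y (ρ (R ^ j) v) + y (ρ (r₁ * R ^ j) v) = 2 * y v := by
      intro j _
      rw [mul_app, hRj, hv1]
      ring
    rw [sum_congr rfl h3, sum_const, card_range, nsmul_eq_mul]
    ring

/-- a functional invariant under a reflection vanishes on its root -/
theorem inv_zero (F : FB M ρ) {r : M.Group} {v : S → ℝ} (h : IsRf M ρ r v)
    {Y : (S → ℝ) →ₗ[ℝ] ℝ} (hY : ∀ v, Y (ρ r v) = Y v) : Y v = 0 := by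
  have h1 := hY v
  rw [F.rf_neg h, map_neg] at h1
  linarith

end Pool.HA.H35
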