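import Pool.Agent.Work.MP_7084a3_h91.InterfaceW

set_option autoImplicit false

namespace Pool.HA

section cone

variable {S : Type} [Fintype S] [DecidableEq S] {M : CoxeterMatrix S}
  {ρ : M.Group →* Module.End ℝ (S → ℝ)}

theorem cone_inj (w : M.Group) : Function.Injective (ρ w) := by
  intro v v' h
  have h1 : ρ w⁻¹ (ρ w v) = ρ w⁻¹ (ρ w v') := by rw [h]
  have h2 : ∀ x, ρ w⁻¹ (ρ w x) = x := by
    intro x
    rw [← Module.End.mul_apply, ← map_mul, inv_mul_cancel, map_one]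
    rfl
  rwa [h2, h2] at h1

theorem cone_rt_ne {v : S → ℝ} (h : IsRt M ρ v) : v ≠ 0 := by
  obtain ⟨w, s, rfl⟩ := h
  intro h0
  have h1 : (bs s : S → ℝ) = 0 := cone_inj (ρ := ρ) w (by rw [h0, map_zero])
  have h3 : (bs s : S → ℝ) s = 1 := by simp [bs]
  rw [h1] at h3
  exact absurd h3 (by simp)

theorem cone_rt_smul {v : S → ℝ} (h : IsRt M ρ v) (w : M.Group) : IsRt M ρ (ρ w v) := by
  obtain ⟨w', s, rfl⟩ := h
  exact ⟨w * w', s, by rw [map_mul]; rfl⟩

theorem cone_sign (h2 : Stmt_POS) (hM : ∀ s t, M s t ≠ 0) (hρ : IsRep M ρ) {v : S → ℝ}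
    (h : IsRt M ρ v) : (∀ t, 0 ≤ v t) ∨ ∀ t, v t ≤ 0 := by
  obtain ⟨w, s, rfl⟩ := h
  have h3 := h2 S M ρ hM hρ w s
  rcases lt_or_gt_of_ne (M.toCoxeterSystem.length_mul_simple_ne w s) with h4 | h4
  · exact Or.inr (h3.2 h4)
  · exact Or.inl (h3.1 h4)

theorem cone_expand (x : (S → ℝ) →ₗ[ℝ] ℝ) (v : S → ℝ) : x v = ∑ t, v t * x (bs t) := by
  conv_lhs => rw [← Finset.univ_sum_single v]
  rw [map_sum]
  refine Finset.sum_congr rfl fun t _ => ?_
  have h1 : (Pi.single t (v t) : S → ℝ) = v t • bs t := by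
    rw [bs, ← Pi.single_smul, smul_eq_mul, mul_one]
  rw [h1, map_smul, smul_eq_mul]

end cone

theorem stmt_CONE (h1 : Stmt_NFIN) (h2 : Stmt_POS) : Stmt_CONE := by
  intro S _ _ M ρ hM hρ
  refine ⟨?_, ?_, ?_, ?_⟩
  · intro x hx y hy
    refine (Set.Finite.union hx hy).subset ?_
    rintro v ⟨hv, hxy⟩
    rw [LinearMap.add_apply] at hxy
    by_cases h : x v ≤ 0
    · exact Or.inl ⟨hv, h⟩
    · refine Or.inr ⟨hv, ?_⟩
      push Not at h
      linarith
  · intro x hx a ha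
    refine hx.subset ?_
    rintro v ⟨hv, hxv⟩
    rw [LinearMap.smul_apply, smul_eq_mul] at hxv
    exact ⟨hv, by
      by_contra h
      push Not at h
      exact absurd hxv (not_le.2 (mul_pos ha h))⟩
  · intro x hx w
    have e1 : ({v | IsPR M ρ v ∧ ∀ t, (ρ w v) t ≤ 0} ∪
        (ρ w) ⁻¹' {v | IsPR M ρ v ∧ x v ≤ 0}).Finite :=
      ((h1 S M ρ hM hρ).2 w).union (Set.Finite.preimage ((cone_inj w).injOn) hx)
    refine e1.subset ?_
    rintro v ⟨hv, hxv⟩
    rcases cone_sign h2 hM hρ (cone_rt_smul hv.1 w) with h3 | h3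
    · exact Or.inr ⟨⟨cone_rt_smul hv.1 w, h3⟩, hxv⟩
    · exact Or.inl ⟨hv, h3⟩
  · intro x hx
    have e1 : {v | IsPR M ρ v ∧ x v ≤ 0} = ∅ := by
      ext v
      simp only [Set.mem_setOf_eq, Set.mem_empty_iff_false, iff_false]
      rintro ⟨hv, hxv⟩
      rw [cone_expand] at hxv
      have h3 : ∀ t ∈ Finset.univ, 0 ≤ v t * x (bs t) := fun t _ => mul_nonneg (hv.2 t) (hx t).le
      have h4 := (Finset.sum_eq_zero_iff_of_nonneg h3).1 (le_antisymm hxv (Finset.sum_nonneg h3))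
      apply cone_rt_ne hv.1
      ext t
      have h5 := h4 t (Finset.mem_univ t)
      rcases mul_eq_zero.1 h5 with h6 | h6
      · exact h6
      · exact absurd h6 (hx t).ne'
    change {v | IsPR M ρ v ∧ x v ≤ 0}.Finite
    rw [e1]
    exact Set.finite_empty

end Pool.HA
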