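import Pool.Agent.Work.MP_7084a3_h91.Basic
import Pool.Agent.Work.MP_7084a3_h91.InterfaceX

set_option autoImplicit false

/-! # Block WB (helper45) -/

namespace Pool.HA.H45

theorem altG_quot {G : Type} [Group G] : ∀ (n : ℕ) (a b : G), a * a = 1 → b * b = 1 →
    altG a b n * (altG b a n)⁻¹ = (a * b) ^ n
  | 0, a, b, _, _ => by simp [altG]
  | n + 1, a, b, ha, hb => by
    have ih := altG_quot n b a hb ha
    have hbi : b⁻¹ = b := inv_eq_of_mul_eq_one_left hb
    have h1 : altG a b (n + 1) * (altG b a (n + 1))⁻¹ =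
        a * (altG b a n * (altG a b n)⁻¹) * b⁻¹ := by
      rw [altG, altG]; group
    rw [h1, ih, hbi, pow_succ]
    have h2 : ∀ k : ℕ, a * (b * a) ^ k = (a * b) ^ k * a := by
      intro k
      induction k with
      | zero => simp
      | succ k ih => rw [pow_succ, ← mul_assoc, ih, pow_succ]; group
    rw [h2, mul_assoc]

theorem altG_map {G H : Type} [Group G] [Group H] (f : G →* H) : ∀ (n : ℕ) (a b : G),
    f (altG a b n) = altG (f a) (f b) n
  | 0, a, b => by simp [altG]
  | n + 1, a, b => by rw [altG, altG, map_mul, altG_map f n]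

variable {S : Type}

theorem simple_sq45 (M : CoxeterMatrix S) (s : S) : M.simple s * M.simple s = 1 := by
  have := M.toCoxeterSystem.simple_mul_simple_self s
  rwa [CoxeterMatrix.toCoxeterSystem_simple] at this

theorem simple_pow45 (M : CoxeterMatrix S) (s t : S) : (M.simple s * M.simple t) ^ M s t = 1 := by
  have := M.toCoxeterSystem.simple_mul_simple_pow s t
  rwa [CoxeterMatrix.toCoxeterSystem_simple] at this

/-- the quotient map from the Artin group to the Coxeter group -/
noncomputable def qm (M : CoxeterMatrix S) : Art M →* M.Group :=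
  PresentedGroup.toGroup (f := M.simple) (by
    rintro r ⟨s, t, -, -, rfl⟩
    have key : ∀ (m : ℕ) (s t : S),
        FreeGroup.lift M.simple (alt s t m) = altG (M.simple s) (M.simple t) m := by
      intro m
      induction m with
      | zero => intro s t; simp [alt, altG]
      | succ m ih =>
        intro s t
        rw [alt, map_mul, ih, FreeGroup.lift_apply_of, altG]
    rw [map_mul, map_inv, key, key, altG_quot _ _ _ (simple_sq45 M s) (simple_sq45 M t),
      simple_pow45])

theorem qm_gen (M : CoxeterMatrix S) (s : S) : qm M (gen M s) = M.simple s :=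
  PresentedGroup.toGroup.of _

/-- lifting a homomorphism which sends the generators to involutions -/
theorem exists_lift (M : CoxeterMatrix S) (h0 : ∀ s t, M s t ≠ 0) {G : Type} [Group G]
    (f : Art M →* G) (hf : ∀ s, f (gen M s) * f (gen M s) = 1) :
    ∃ F : M.Group →* G, ∀ s, F (M.simple s) = f (gen M s) := by
  have hl : M.IsLiftable (fun s => f (gen M s)) := by
    intro s t
    by_cases hst : s = t
    · subst hst
      rw [M.diagonal, pow_one]
      exact hf s
    · rw [← altG_quot _ _ _ (hf s) (hf t), ← altG_map, ← altG_map,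
        braid M hst (h0 s t), mul_inv_cancel]
  refine ⟨M.toCoxeterSystem.lift ⟨_, hl⟩, fun s => ?_⟩
  have := M.toCoxeterSystem.lift_apply_simple hl s
  rwa [CoxeterMatrix.toCoxeterSystem_simple] at this

theorem art_hom_ext {M : CoxeterMatrix S} {G : Type} [Group G] {f g : Art M →* G}
    (h : ∀ s, f (gen M s) = g (gen M s)) : ∀ x, f x = g x := by
  have : f = g := PresentedGroup.ext (fun s => h s)
  intro x
  rw [this]

theorem cox_hom_ext {M : CoxeterMatrix S} {G : Type} [Group G] {f g : M.Group →* G}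
    (h : ∀ s, f (M.simple s) = g (M.simple s)) : ∀ x, f x = g x := by
  have : f = g := M.toCoxeterSystem.ext_simple (fun s => by
    rw [CoxeterMatrix.toCoxeterSystem_simple]; exact h s)
  intro x
  rw [this]

/-- the image of a reflection -/
theorem qm_rfl {M' : CoxeterMatrix S} {y : Art M'}
    (h : ∃ r', Rfl (gen M') r' ∧ (y = r' ∨ y = r'⁻¹)) :
    ∃ w s', qm M' y = w * M'.simple s' * w⁻¹ := by
  obtain ⟨r', ⟨x, s', rfl⟩, h1 | h1⟩ := h
  · exact ⟨qm M' x, s', by rw [h1]; simp [qm_gen]⟩
  · refine ⟨qm M' x, s', ?_⟩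
    have h2 : (M'.simple s')⁻¹ = M'.simple s' := inv_eq_of_mul_eq_one_left (simple_sq45 M' s')
    rw [h1, map_inv, map_mul, map_mul, map_inv, qm_gen, mul_inv_rev, mul_inv_rev, inv_inv, h2,
      mul_assoc]

theorem conj_sq {G : Type} [Group G] {w a : G} (ha : a * a = 1) :
    (w * a * w⁻¹) * (w * a * w⁻¹) = 1 := by
  have : (w * a * w⁻¹) * (w * a * w⁻¹) = w * (a * a) * w⁻¹ := by group
  rw [this, ha]; group

theorem _root_.Pool.HA.stmt_WB (h1 : Stmt_CC) (h2 : Stmt_PROD) : Stmt_WB := by
  intro S S' _ _ M M' hM hM' hc hc' ⟨φ⟩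
  have c1 : ∀ s : S, ∃ w s', qm M' (φ (gen M s)) = w * M'.simple s' * w⁻¹ := fun s =>
    qm_rfl (h1 S S' M M' hM hM' hc hc' φ (gen M s) (rfl_gen s))
  have c2 : ∀ s' : S', ∃ w s, qm M (φ.symm (gen M' s')) = w * M.simple s * w⁻¹ := fun s' =>
    qm_rfl (h1 S' S M' M hM' hM hc' hc φ.symm (gen M' s') (rfl_gen s'))
  obtain ⟨F, hF⟩ := exists_lift M hM.ne_zero ((qm M').comp φ.toMonoidHom) (by
    intro s
    obtain ⟨w, s', hw⟩ := c1 s
    show qm M' (φ (gen M s)) * qm M' (φ (gen M s)) = 1
    rw [hw]
    exact conj_sq (simple_sq45 M' s'))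
  obtain ⟨F', hF'⟩ := exists_lift M' hM'.ne_zero ((qm M).comp φ.symm.toMonoidHom) (by
    intro s
    obtain ⟨w, s', hw⟩ := c2 s
    show qm M (φ.symm (gen M' s)) * qm M (φ.symm (gen M' s)) = 1
    rw [hw]
    exact conj_sq (simple_sq45 M s'))
  have hF : ∀ s, F (M.simple s) = qm M' (φ (gen M s)) := hF
  have hF' : ∀ s, F' (M'.simple s) = qm M (φ.symm (gen M' s)) := hF'
  have e1 : ∀ x : Art M, F (qm M x) = qm M' (φ x) := by
    have := art_hom_ext (M := M) (f := F.comp (qm M)) (g := (qm M').comp φ.toMonoidHom)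
      (fun s => by
        show F (qm M (gen M s)) = qm M' (φ (gen M s))
        rw [qm_gen, hF])
    exact this
  have e2 : ∀ x : Art M', F' (qm M' x) = qm M (φ.symm x) := by
    have := art_hom_ext (M := M') (f := F'.comp (qm M')) (g := (qm M).comp φ.symm.toMonoidHom)
      (fun s => by
        show F' (qm M' (gen M' s)) = qm M (φ.symm (gen M' s))
        rw [qm_gen, hF'])
    exact this
  have i1 : ∀ x, F' (F x) = x := by
    have := cox_hom_ext (M := M) (f := F'.comp F) (g := MonoidHom.id _) (fun s => by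
      show F' (F (M.simple s)) = M.simple s
      rw [hF, e2, MulEquiv.symm_apply_apply, qm_gen])
    exact this
  have i2 : ∀ x, F (F' x) = x := by
    have := cox_hom_ext (M := M') (f := F.comp F') (g := MonoidHom.id _) (fun s => by
      show F (F' (M'.simple s)) = M'.simple s
      rw [hF', e1, MulEquiv.apply_symm_apply, qm_gen])
    exact this
  refine ⟨{ toFun := F, invFun := F', left_inv := i1, right_inv := i2, map_mul' := map_mul F },
    ?_, ?_, ?_⟩
  · intro s
    obtain ⟨w, s', hw⟩ := c1 s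
    exact ⟨w, s', (hF s).trans hw⟩
  · intro s'
    obtain ⟨w, s, hw⟩ := c2 s'
    exact ⟨w, s, (hF' s').trans hw⟩
  · intro s t hst hm
    obtain ⟨s', t', w, hne, h3⟩ := h2 S S' M M' hM hM' hc hc' φ s t hst hm
    have h4 : F (M.simple s * M.simple t) = qm M' (φ (gen M s * gen M t)) := by
      rw [← e1, map_mul (qm M), qm_gen, qm_gen]
    rcases h3 with h3 | h3
    · refine ⟨qm M' w, s', t', hne, ?_⟩
      show F (M.simple s * M.simple t) = _
      rw [h4, h3]
      simp [qm_gen]
    · refine ⟨qm M' w, t', s', Ne.symm hne, ?_⟩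
      show F (M.simple s * M.simple t) = _
      have i3 : (M'.simple s')⁻¹ = M'.simple s' := inv_eq_of_mul_eq_one_left (simple_sq45 M' s')
      have i4 : (M'.simple t')⁻¹ = M'.simple t' := inv_eq_of_mul_eq_one_left (simple_sq45 M' t')
      rw [h4, h3, map_mul, map_mul, map_inv, map_inv, map_mul, qm_gen, qm_gen, mul_inv_rev, i3, i4]

end Pool.HA.H45
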