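import Pool.Agent.Work.MP_7084a3_h91.InterfaceW

set_option autoImplicit false

/-! # Facts on roots used by the blocks NOFX, TRIP, GLOB, DOM (helper35) -/

namespace Pool.HA.H35

open Finset

variable {S : Type} [Fintype S] [DecidableEq S] {M : CoxeterMatrix S}
  {ρ : M.Group →* Module.End ℝ (S → ℝ)}

/-- facts on the form -/
structure FB (M : CoxeterMatrix S) (ρ : M.Group →* Module.End ℝ (S → ℝ)) : Prop where
  sym : ∀ v w, bf M v w = bf M w v
  lin : ∀ (a b : ℝ) v v' w, bf M (a • v + b • v') w = a * bf M v w + b * bf M v' w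
  bas : ∀ s t, bf M (bs s) (bs t) = -Real.cos (Real.pi / M s t)
  inv : ∀ g v w, bf M (ρ g v) (ρ g w) = bf M v w
  nrm : ∀ v, IsRt M ρ v → bf M v v = 1
  rfx : ∀ r v, IsRf M ρ r v → ∀ x, ρ r x = x - (2 * bf M x v) • v

theorem FB.of (h : Stmt_BFI) (hr : IsRep M ρ) : FB M ρ := by
  obtain ⟨h1, h2, h3, h4, h5, h6⟩ := h S M ρ hr
  exact ⟨h1, h2, h3, h4, h5, h6⟩

theorem simple_sq (M : CoxeterMatrix S) (s : S) : M.simple s * M.simple s = 1 := by
  have h := M.toCoxeterSystem.simple_mul_simple_self s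
  rwa [CoxeterMatrix.toCoxeterSystem_simple] at h

theorem mul_app (g h : M.Group) (v : S → ℝ) : ρ (g * h) v = ρ g (ρ h v) := by
  rw [map_mul]
  rfl

theorem one_app (v : S → ℝ) : ρ 1 v = v := by
  rw [map_one]
  rfl

namespace FB

variable (F : FB M ρ)

include F

theorem smul_left (a : ℝ) (v w : S → ℝ) : bf M (a • v) w = a * bf M v w := by
  have := F.lin a 0 v 0 w
  simpa using this

theorem add_left (v v' w : S → ℝ) : bf M (v + v') w = bf M v w + bf M v' w := by
  have := F.lin 1 1 v v' w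
  simpa using this

theorem neg_left (v w : S → ℝ) : bf M (-v) w = - bf M v w := by
  have := F.smul_left (-1) v w
  simpa using this

theorem sub_left (v v' w : S → ℝ) : bf M (v - v') w = bf M v w - bf M v' w := by
  have := F.lin 1 (-1) v v' w
  simpa [sub_eq_add_neg] using this

theorem smul_right (a : ℝ) (v w : S → ℝ) : bf M w (a • v) = a * bf M w v := by
  rw [F.sym, F.smul_left, F.sym]

theorem add_right (v v' w : S → ℝ) : bf M w (v + v') = bf M w v + bf M w v' := by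
  rw [F.sym, F.add_left, F.sym v, F.sym v']

theorem neg_right (v w : S → ℝ) : bf M w (-v) = - bf M w v := by
  rw [F.sym, F.neg_left, F.sym]

theorem bs_self (s : S) : bf M (bs s) (bs s) = 1 := by
  rw [F.bas, M.diagonal]
  simp

theorem simple_rf (s : S) : IsRf M ρ (M.simple s) (bs s) :=
  ⟨1, s, by simp, Or.inl (by rw [one_app])⟩

theorem simple_bs (s : S) : ρ (M.simple s) (bs s) = - bs s := by
  rw [F.rfx _ _ (F.simple_rf s), F.bs_self]
  rw [mul_one, two_smul]
  abel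

theorem neg_rt {v : S → ℝ} (h : IsRt M ρ v) : IsRt M ρ (-v) := by
  obtain ⟨w, s, rfl⟩ := h
  refine ⟨w * M.simple s, s, ?_⟩
  rw [mul_app, F.simple_bs, map_neg]

omit F in
theorem act_rt {v : S → ℝ} (h : IsRt M ρ v) (g : M.Group) : IsRt M ρ (ρ g v) := by
  obtain ⟨w, s, rfl⟩ := h
  exact ⟨g * w, s, by rw [mul_app]⟩

theorem rf_rt {r : M.Group} {v : S → ℝ} (h : IsRf M ρ r v) : IsRt M ρ v := by
  obtain ⟨w, s, -, h | h⟩ := h
  · exact ⟨w, s, h⟩
  · rw [h]
    exact F.neg_rt ⟨w, s, rfl⟩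

omit F in
theorem rf_sq {r : M.Group} {v : S → ℝ} (h : IsRf M ρ r v) : r * r = 1 := by
  obtain ⟨w, s, h, -⟩ := h
  rw [h]
  calc w * M.simple s * w⁻¹ * (w * M.simple s * w⁻¹)
      = w * (M.simple s * M.simple s) * w⁻¹ := by group
    _ = 1 := by rw [simple_sq]; group

theorem rf_nrm {r : M.Group} {v : S → ℝ} (h : IsRf M ρ r v) : bf M v v = 1 := F.nrm v (F.rf_rt h)

/-- the reflection moves in the form -/
theorem rf_adj {r : M.Group} {v : S → ℝ} (h : IsRf M ρ r v) (x y : S → ℝ) :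
    bf M (ρ r x) y = bf M x (ρ r y) := by
  rw [← F.inv r x (ρ r y), ← mul_app, rf_sq h, one_app]

/-- the reflection maps its root to the opposite one -/
theorem rf_neg {r : M.Group} {v : S → ℝ} (h : IsRf M ρ r v) : ρ r v = -v := by
  rw [F.rfx r v h, F.rf_nrm h, mul_one, two_smul]
  abel

theorem rf_neg' {r : M.Group} {v : S → ℝ} (h : IsRf M ρ r v) : IsRf M ρ r (-v) := by
  obtain ⟨w, s, h1, h | h⟩ := h
  · exact ⟨w, s, h1, Or.inr (by rw [h])⟩
  · exact ⟨w, s, h1, Or.inl (by rw [h, neg_neg])⟩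

end FB

/-- a root is positive or negative -/
theorem root_pm (hP : Stmt_POS) (hM : ∀ s t, M s t ≠ 0) (hr : IsRep M ρ) (F : FB M ρ) {v : S → ℝ}
    (h : IsRt M ρ v) : IsPR M ρ v ∨ IsPR M ρ (-v) := by
  obtain ⟨w, s, rfl⟩ := h
  obtain ⟨h1, h2⟩ := hP S M ρ hM hr w s
  have h3 : M.toCoxeterSystem.length (w * M.simple s) ≠ M.toCoxeterSystem.length w := by
    have := M.toCoxeterSystem.length_mul_simple_ne w s
    rwa [CoxeterMatrix.toCoxeterSystem_simple] at this
  rcases lt_or_gt_of_ne h3 with h4 | h4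
  · right
    refine ⟨F.neg_rt ⟨w, s, rfl⟩, fun t => ?_⟩
    have := h2 h4 t
    rw [Pi.neg_apply]
    linarith
  · left
    exact ⟨⟨w, s, rfl⟩, h1 h4⟩

end Pool.HA.H35
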