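import Pool.Agent.Work.MP_7084a3_h91.InterfaceF

/-! Block FBR of MP_7084a3_al: backtracks can be removed from fillings. -/

set_option autoImplicit false

namespace Pool.HA

theorem FBR_snoc {V : Type} {a b : List V} {x y : V} (h : a ++ [x] = b ++ [y]) :
    a = b ∧ x = y := by
  have h1 := List.append_inj' h rfl
  exact ⟨h1.1, by simpa using h1.2⟩

theorem FBR_aux {V A : Type} [AddCommGroup A] {adj : V → V → Prop} {T : V → V → V → A}
    (hrot : Stmt_FROT) (hcat : Stmt_FCAT) (hT : TriOK adj T) {a b : V} (hab : adj a b)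
    {l : List V} {D : A} {n : ℕ} (h : Fill adj T l D n) :
    ∀ z : List V, l = a :: (z ++ [a, b]) → Fill adj T (a :: z) D n := by
  induction h with
  | nil => intro z hz; simp at hz
  | sph _ _ => intro z hz; simp at hz
  | @pair u w P₁ P₂ D₁ D₂ n₁ n₂ ha h1 h2 hF1 hF2 ih1 ih2 =>
    intro z hz
    simp only [List.cons.injEq] at hz
    obtain ⟨rfl, hz⟩ := hz
    rcases List.eq_nil_or_concat P₂ with rfl | ⟨P₃, c', rfl⟩
    · have e1 : P₁ ++ [w] = (z ++ [u]) ++ [b] := by simpa using hz
      obtain ⟨e2, rfl⟩ := FBR_snoc e1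
      subst e2
      rcases z with _ | ⟨z0, z⟩
      · exfalso
        have := h1 u (by simp)
        exact hT.irr u (by rw [← this] at ha; exact ha)
      · have hz0 : z0 = w := h1 z0 (by simp)
        subst hz0
        have h3 : Fill adj T ([u] ++ (z0 :: z)) D₁ n₁ :=
          hrot V A adj T hT (z0 :: z) [u] D₁ n₁ hF1
        have h6 := hcat V A adj T _ _ _ _ _ _ h3 hF2 (by simp)
        rw [List.append_nil] at h6
        exact h6
    · rw [List.concat_eq_append] at *
      have e1 : (P₁ ++ w :: P₃) ++ [c'] = (z ++ [u]) ++ [b] := by simpa using hz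
      obtain ⟨e2, rfl⟩ := FBR_snoc e1
      rcases List.eq_nil_or_concat P₃ with rfl | ⟨P₄, c'', rfl⟩
      · exfalso
        obtain ⟨_, e4⟩ := FBR_snoc (show P₁ ++ [w] = z ++ [u] from e2)
        exact hT.irr u (by rw [e4] at ha; exact ha)
      · rw [List.concat_eq_append] at *
        have e3 : (P₁ ++ w :: P₄) ++ [c''] = z ++ [u] := by simpa using e2
        obtain ⟨e4, rfl⟩ := FBR_snoc e3
        subst e4
        rcases P₄ with _ | ⟨p, P₄⟩
        · have h3 : Fill adj T [] D₂ n₂ := Fill.sph hab (by simpa using hF2)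
          exact Fill.pair ha h1 (by simp) hF1 h3
        · have hp : p = c'' := h2 p (by simp)
          subst hp
          have h3 := ih2 P₄ (by simp)
          exact Fill.pair ha h1 (by intro x hx; simpa using hx.symm) hF1 h3
  | @tri u v c q' D₀ n₀ ha hb hc h0 ih =>
    intro z hz
    simp only [List.cons.injEq] at hz
    obtain ⟨rfl, hz⟩ := hz
    rcases z with _ | ⟨z0, z⟩
    · exfalso
      simp only [List.nil_append, List.cons.injEq] at hz
      exact hT.irr u (by rw [hz.1] at ha; exact ha)
    · simp only [List.cons_append, List.cons.injEq] at hz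
      obtain ⟨rfl, rfl⟩ := hz
      exact Fill.tri ha hb hc (ih (c :: v :: z) (by simp))

theorem stmt_FBR (hrot : Stmt_FROT) (hcat : Stmt_FCAT) : Stmt_FBR := by
  intro V A _ adj T hT x y a b D n hab h
  have h1 : Fill adj T ((x ++ [a, b]) ++ (a :: y)) D n := by simpa using h
  have h2 := hrot V A adj T hT _ _ D n h1
  have h3 := FBR_aux hrot hcat hT hab h2 (y ++ x) (by simp)
  have h4 : Fill adj T ((a :: y) ++ x) D n := by simpa using h3
  exact hrot V A adj T hT _ _ D n h4

end Pool.HA
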