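import Pool.Agent.Work.MP_7084a3_h91.InterfaceF

/-! Block FCAT of MP_7084a3_al: concatenation of fillings. -/

set_option autoImplicit false

namespace Pool.HA

theorem FCAT_sphere {V A : Type} [AddCommGroup A] {adj : V → V → Prop} {T : V → V → V → A}
    {w : List V} {D : A} {n : ℕ} (h : Fill adj T w D n) {D' : A} {n' : ℕ}
    (h' : Fill adj T [] D' n') : Fill adj T w (D + D') (n + n') := by
  induction h with
  | nil => rw [zero_add, Nat.zero_add]; exact h'
  | sph ha _ ih => exact Fill.sph ha ih
  | pair ha h1 h2 hF1 _ _ ih2 =>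
    rw [add_assoc, Nat.add_assoc]
    exact Fill.pair ha h1 h2 hF1 ih2
  | tri ha hb hc _ ih =>
    rw [add_right_comm, Nat.add_right_comm]
    exact Fill.tri ha hb hc ih

theorem stmt_FCAT : Stmt_FCAT := by
  intro V A _ adj T r w D' D n' n hr hw hh
  induction hr with
  | nil => rw [zero_add, Nat.zero_add]; exact hw
  | sph ha hF ih =>
    rw [add_comm, Nat.add_comm]
    exact FCAT_sphere hw (Fill.sph ha hF)
  | @pair u v P₁ P₂ D₁ D₂ n₁ n₂ ha h1 h2 hF1 hF2 ih1 ih2 =>
    have hw' : ∀ z' ∈ w.head?, z' = u := by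
      intro z' hz'
      exact (hh u (by simp) z' hz').symm
    have h3 := ih2 (by
      intro z hz z' hz'
      rw [h2 z hz, hw' z' hz'])
    have h4 : ∀ x ∈ (P₂ ++ w).head?, x = u := by
      intro x hx
      rcases P₂ with _ | ⟨p, P₂⟩
      · exact hw' x hx
      · exact h2 x hx
    have h5 := Fill.pair ha h1 h4 hF1 h3
    rw [add_assoc, Nat.add_assoc]
    simpa using h5
  | tri ha hb hc _ ih =>
    rw [add_right_comm, Nat.add_right_comm]
    have h3 := ih (by
      intro z hz z' hz'
      exact hh z (by simpa using hz) z' hz')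
    exact Fill.tri ha hb hc h3

end Pool.HA
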