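import Pool.Agent.Work.MP_7084a3_h91.InterfaceF

/-! # Block FCW (helper55) -/

set_option autoImplicit false

namespace Pool.HA

theorem stmt_FCW : Stmt_FCW := by
  intro V A _ adj T hT l D n h
  induction h with
  | nil => intro x q y e; simp at e
  | sph _ _ _ => intro x q y e; simp at e
  | @pair u v P₁ P₂ D₁ D₂ n₁ n₂ h1 h2 h3 _ _ ih1 ih2 =>
    intro x q y e
    cases x with
    | nil =>
      simp only [List.nil_append, List.cons.injEq] at e
      obtain ⟨e1, e2⟩ := e
      subst e1 e2
      cases P₁ with
      | nil => exact ⟨v, by simp, h1⟩
      | cons a l => exact ⟨a, by simp, by rw [h2 a (by simp)]; exact h1⟩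
    | cons u' x' =>
      simp only [List.cons_append, List.cons.injEq] at e
      obtain ⟨e1, e2⟩ := e
      subst e1
      have hv : adj v u := hT.symm _ _ h1
      rcases List.append_eq_append_iff.1 e2 with ⟨c', e3, e4⟩ | ⟨a', e3, e4⟩
      · -- x' = P₁ ++ c'
        cases c' with
        | nil =>
          simp only [List.nil_append, List.cons.injEq] at e4
          obtain ⟨e5, e6⟩ := e4
          subst e5 e6
          cases P₂ with
          | nil => exact ⟨u, by simp, hv⟩
          | cons a l => exact ⟨a, by simp, by rw [h3 a (by simp)]; exact hv⟩
        | cons v' c'' =>
          simp only [List.cons_append, List.cons.injEq] at e4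
          obtain ⟨e5, e6⟩ := e4
          subst e5
          obtain ⟨r, hr, hr2⟩ := ih2 c'' q y e6
          cases y with
          | nil =>
            have : r = u := by
              refine h3 r ?_
              cases c'' with
              | nil => simp at hr
              | cons b c3 => rw [e6]; simpa using hr
            exact ⟨u, by simp, this ▸ hr2⟩
          | cons b y' => exact ⟨r, by simpa using hr, hr2⟩
      · -- P₁ = x' ++ a'
        cases a' with
        | nil =>
          simp only [List.nil_append, List.cons.injEq] at e4
          obtain ⟨e5, e6⟩ := e4
          subst e5 e6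
          cases y with
          | nil => exact ⟨u, by simp, hv⟩
          | cons a l => exact ⟨a, by simp, by rw [h3 a (by simp)]; exact hv⟩
        | cons q' a'' =>
          simp only [List.cons_append, List.cons.injEq] at e4
          obtain ⟨e5, e6⟩ := e4
          subst e5
          obtain ⟨r, hr, hr2⟩ := ih1 x' q a'' e3
          cases a'' with
          | nil =>
            have : r = v := by
              refine h2 r ?_
              cases x' with
              | nil => simp at hr
              | cons b c3 => rw [e3]; simpa using hr
            exact ⟨v, by rw [e6]; simp, this ▸ hr2⟩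
          | cons b y' => exact ⟨r, by rw [e6]; simpa using hr, hr2⟩
  | @tri u v c q D n h1 h2 h3 _ ih =>
    intro x p y e
    cases x with
    | nil =>
      simp only [List.nil_append, List.cons.injEq] at e
      obtain ⟨e1, e2⟩ := e
      subst e1 e2
      exact ⟨v, by simp, h1⟩
    | cons u' x' =>
      simp only [List.cons_append, List.cons.injEq] at e
      obtain ⟨e1, e2⟩ := e
      subst e1
      cases x' with
      | nil =>
        simp only [List.nil_append, List.cons.injEq] at e2
        obtain ⟨e3, e4⟩ := e2
        subst e3 e4
        obtain ⟨r, hr, hr2⟩ := ih [u, c] v q (by simp)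
        refine ⟨r, ?_, hr2⟩
        cases q with
        | nil => simpa using hr
        | cons b l => simpa using hr
      | cons v' x'' =>
        simp only [List.cons_append, List.cons.injEq] at e2
        obtain ⟨e3, e4⟩ := e2
        subst e3
        obtain ⟨r, hr, hr2⟩ := ih (u :: c :: v :: x'') p y (by rw [e4]; simp)
        refine ⟨r, ?_, hr2⟩
        cases y with
        | nil => simpa using hr
        | cons b l => simpa using hr

end Pool.HA
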