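import Pool.Agent.Work.MP_7084a3_h91.InterfaceF

/-! Block FROT of MP_7084a3_al: rotation of fillings. -/

set_option autoImplicit false

namespace Pool.HA

theorem FROT_snoc {V : Type} {a b : List V} {x y : V} (h : a ++ [x] = b ++ [y]) :
    a = b ∧ x = y := by
  have h1 := List.append_inj' h rfl
  exact ⟨h1.1, by simpa using h1.2⟩

section

variable {V A : Type} [AddCommGroup A] {adj : V → V → Prop} {T : V → V → V → A}

/-- rotation by one step for `n` triangles -/
def FROT_R (adj : V → V → Prop) (T : V → V → V → A) (n : ℕ) : Prop :=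
  ∀ (u : V) (q : List V) (D : A), Fill adj T (u :: q) D n → Fill adj T (q ++ [u]) D n

theorem FROT_gen {n : ℕ} (hR : FROT_R adj T n) :
    ∀ (x y : List V) (D : A), Fill adj T (x ++ y) D n → Fill adj T (y ++ x) D n := by
  intro x
  induction x with
  | nil => intro y D h; simpa using h
  | cons u x ih =>
    intro y D h
    have h1 := hR u (x ++ y) D h
    rw [List.append_assoc] at h1
    have h2 := ih (y ++ [u]) D h1
    simpa using h2

theorem FROT_TL (hcat : Stmt_FCAT) (hT : TriOK adj T) (K : ℕ) (hR : ∀ k ≤ K, FROT_R adj T k)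
    {u v c : V} (huv : adj u v) (huc : adj u c) (hcv : adj c v) {l : List V} {D : A} {k : ℕ}
    (h : Fill adj T l D k) : ∀ z : List V, l = v :: (z ++ [u, c]) → k ≤ K →
      Fill adj T (v :: (z ++ [u])) (D + T u v c) (k + 1) := by
  induction h with
  | nil => intro z hz; simp at hz
  | sph _ _ => intro z hz; simp at hz
  | @pair u' w P₁ P₂ D₁ D₂ n₁ n₂ ha h1 h2 hF1 hF2 ih1 ih2 =>
    intro z hz hk
    simp only [List.cons.injEq] at hz
    obtain ⟨rfl, hz⟩ := hz
    rcases List.eq_nil_or_concat P₂ with rfl | ⟨P₃, c', rfl⟩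
    · -- the last vertex is the end of the edge
      have e1 : P₁ ++ [w] = (z ++ [u]) ++ [c] := by simpa using hz
      obtain ⟨e2, rfl⟩ := FROT_snoc e1
      subst e2
      rcases z with _ | ⟨z0, z⟩
      · exfalso
        have := h1 u (by simp)
        exact hT.irr u (by rw [← this] at huc; exact huc)
      · have hz0 : z0 = w := h1 z0 (by simp)
        subst hz0
        have h3 : Fill adj T ([u] ++ (z0 :: z)) D₁ n₁ :=
          FROT_gen (hR n₁ (by omega)) (z0 :: z) [u] D₁ hF1
        have h4 : Fill adj T (u' :: ((u :: z0 :: z) ++ u :: [])) (D₁ + 0) (n₁ + 0) := by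
          refine Fill.pair (hT.symm _ _ huv) ?_ ?_ h3 Fill.nil
          · intro x hx
            simpa using hx.symm
          · intro x hx
            simp at hx
        have h5 : Fill adj T (u' :: z0 :: (z ++ [u])) (D₁ + 0 + T u' z0 u) (n₁ + 0 + 1) :=
          Fill.tri ha (hT.symm _ _ huv) huc h4
        have h6 := hcat V A adj T _ _ _ _ _ _ h5 hF2 (by simp)
        rw [List.append_nil] at h6
        have h7 : D₁ + 0 + T u' z0 u + D₂ = D₁ + D₂ + T u u' z0 := by
          rw [hT.cyc u u' z0]
          abel
        have h8 : n₁ + 0 + 1 + n₂ = n₁ + n₂ + 1 := by omega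
        rw [h7, h8] at h6
        exact h6
    · rw [List.concat_eq_append] at *
      have e1 : (P₁ ++ w :: P₃) ++ [c'] = (z ++ [u]) ++ [c] := by simpa using hz
      obtain ⟨e2, rfl⟩ := FROT_snoc e1
      rcases List.eq_nil_or_concat P₃ with rfl | ⟨P₄, c'', rfl⟩
      · exfalso
        have := h2 c' (by simp)
        exact hT.irr u' (by rw [this] at hcv; exact hcv)
      · rw [List.concat_eq_append] at *
        have e3 : (P₁ ++ w :: P₄) ++ [c''] = z ++ [u] := by simpa using e2
        obtain ⟨e4, rfl⟩ := FROT_snoc e3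
        subst e4
        rcases P₄ with _ | ⟨p, P₄⟩
        · exfalso
          have := h2 c'' (by simp)
          exact hT.irr u' (by rw [this] at huv; exact huv)
        · have hp : p = u' := h2 p (by simp)
          subst hp
          have h3 := ih2 P₄ (by simp) (by omega)
          have h4 : Fill adj T (p :: (P₁ ++ w :: (p :: (P₄ ++ [c'']))))
              (D₁ + (D₂ + T c'' p c')) (n₁ + (n₂ + 1)) := by
            refine Fill.pair ha h1 ?_ hF1 h3
            intro x hx
            simpa using hx.symm
          rw [← add_assoc, ← Nat.add_assoc] at h4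
          simpa using h4
  | @tri u' v' c' q' D₀ n₀ ha hb hc h0 ih =>
    intro z hz hk
    simp only [List.cons.injEq] at hz
    obtain ⟨rfl, hz⟩ := hz
    rcases z with _ | ⟨z0, z⟩
    · simp only [List.nil_append, List.cons.injEq] at hz
      obtain ⟨rfl, rfl⟩ := hz
      have h3 := ih [c'] (by simp) (by omega)
      have h4 := Fill.tri ha hb hc h3
      rw [add_right_comm] at h4
      exact h4
    · simp only [List.cons_append, List.cons.injEq] at hz
      obtain ⟨rfl, rfl⟩ := hz
      have h3 := ih (c' :: v' :: z) (by simp) (by omega)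
      have h4 := Fill.tri ha hb hc h3
      rw [add_right_comm] at h4
      exact h4

theorem FROT_all (hcat : Stmt_FCAT) (hT : TriOK adj T) : ∀ n, FROT_R adj T n := by
  intro n
  induction n using Nat.strong_induction_on with
  | _ n ihn =>
    intro u q D h
    cases h with
    | @pair u' v P₁ P₂ D₁ D₂ n₁ n₂ ha h1 h2 hF1 hF2 =>
      have h3 : Fill adj T (v :: (P₂ ++ u :: [])) (D₂ + 0) (n₂ + 0) := by
        refine Fill.pair (hT.symm _ _ ha) h2 ?_ hF2 Fill.nil
        intro x hx
        simp at hx
      have h4 := hcat V A adj T _ _ _ _ _ _ hF1 h3 (by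
        intro z hz z' hz'
        rw [h1 z hz]
        simpa using hz')
      rw [add_zero, Nat.add_zero] at h4
      simpa using h4
    | @tri u' v c q' D₀ n₀ ha hb hc h0 =>
      have hk := ihn n₀ (Nat.lt_succ_self _)
      have h1 := hk u _ D₀ h0
      have h2 := hk c _ D₀ h1
      have h3 := FROT_TL hcat hT n₀ (fun k hk => ihn k (Nat.lt_succ_of_le hk)) ha hb hc h2
        q' (by simp) le_rfl
      exact h3

end

theorem stmt_FROT (hcat : Stmt_FCAT) : Stmt_FROT := by
  intro V A _ adj T hT x y D n h
  exact FROT_gen (FROT_all hcat hT n) x y D h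

end Pool.HA
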