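import Pool.Agent.Work.MP_7084a3_h91.InterfaceF

/-! # Block FTRI (helper55) -/

set_option autoImplicit false

namespace Pool.HA

theorem stmt_FTRI (hFROT : Stmt_FROT) : Stmt_FTRI := by
  intro V A _ adj T hT x y u v c D n h1 h2 h3 h
  have e1 := hFROT V A adj T hT x (u :: c :: v :: y) D n h
  have e2 : Fill adj T (u :: c :: v :: (y ++ x)) D n := e1
  have e3 : Fill adj T ((u :: v :: y) ++ x) (D + T u v c) (n + 1) := Fill.tri h1 h2 h3 e2
  exact hFROT V A adj T hT (u :: v :: y) x _ _ e3

end Pool.HA
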