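import Pool.Agent.Work.MP_7084a3_h91.InterfaceF
import Pool.Agent.Work.MP_7084a3_h91.InterfaceX

set_option autoImplicit false

namespace Pool.HA

namespace INJ2h

section
variable {V A : Type} [AddCommGroup A] {adj : V → V → Prop} {T : V → V → V → A}

/-- an open walk -/
def W (adj : V → V → Prop) (l : List V) (v w : V) : Prop :=
  l.head? = some v ∧ l.getLast? = some w ∧ l.IsChain adj

/-- removal of the middle of a concatenation of a reversed walk and the walk -/
lemma mid (hT : TriOK adj T) (hFBR : Stmt_FBR) : ∀ (γ : List V) (o v : V), W adj γ o v →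
    ∀ (X Y : List V) (D : A) (n : ℕ), Fill adj T (X ++ (γ.reverse.dropLast ++ (γ ++ Y))) D n →
      Fill adj T (X ++ v :: Y) D n := by
  intro γ
  induction γ with
  | nil => intro o v h; simp [W] at h
  | cons a γ' ih =>
    intro o v h X Y D n hF
    rcases γ' with _ | ⟨b, γ''⟩
    · have hv : a = v := by simpa using h.2.1
      subst hv
      simpa using hF
    · have hab : adj a b := by
        have := h.2.2
        rw [List.isChain_cons_cons] at this
        exact this.1
      have hch : (b :: γ'').IsChain adj := by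
        have := h.2.2
        rw [List.isChain_cons_cons] at this
        exact this.2
      have hW : W adj (b :: γ'') b v := by
        refine ⟨rfl, ?_, hch⟩
        have := h.2.1
        rw [List.getLast?_cons_cons] at this
        exact this
      refine ih b v hW X Y D n ?_
      -- rewrite
      have e1 : (a :: b :: γ'').reverse.dropLast = (b :: γ'').reverse := by
        rw [List.reverse_cons, List.dropLast_concat]
      rw [e1] at hF
      have e2 : (b :: γ'').reverse = (b :: γ'').reverse.dropLast ++ [b] := by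
        rw [List.reverse_cons, List.dropLast_concat]
      rw [e2] at hF
      have e3 : X ++ ((b :: γ'').reverse.dropLast ++ [b] ++ (a :: b :: γ'' ++ Y)) =
          (X ++ (b :: γ'').reverse.dropLast) ++ b :: a :: b :: (γ'' ++ Y) := by simp
      rw [e3] at hF
      have h2 := hFBR V A adj T hT _ _ b a D n (hT.symm _ _ hab) hF
      simpa using h2

end

end INJ2h

theorem stmt_INJ2 (hEXF : Stmt_EXF) (hCONN : Stmt_CONN) (hNPC : Stmt_NPC) (hUNI : Stmt_UNI)
    (hFCAT : Stmt_FCAT) (hFROT : Stmt_FROT) (hFBR : Stmt_FBR) (hFREV : Stmt_FREV)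
    (hFTRI : Stmt_FTRI) (hTTOK : Stmt_TTOK) (hWCH : Stmt_WCH) : Stmt_INJ2 := by
  intro S _ M hM D hD hbd
  classical
  obtain ⟨ε, hN⟩ := hNPC S M hM
  have hT := hTTOK (Art M) S (gen M)
  have uni := hUNI _ _ Vtx.ad TT (ang M ε) ε hT hN
  set o : Vtx (gen M) := Vtx.mk (gen M) ∅ (by simp) 1 with ho
  choose γ hγ using fun u => hCONN S M o u
  have hcons : ∀ u, ∃ a, γ u = o :: a := by
    intro u
    have h1 := (hγ u).1
    rcases h : γ u with _ | ⟨x, a⟩
    · rw [h] at h1; simp at h1
    · rw [h] at h1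
      have hx : x = o := by simpa using h1
      exact ⟨a, by rw [hx]⟩
  have ex : ∀ u v : Vtx (gen M), u.ad v →
      ∃ D n, Fill Vtx.ad TT (γ u ++ (γ v).reverse.dropLast) D n := by
    intro u v huv
    have hW : Wk (γ u ++ [v]) o v := by
      refine ⟨?_, by simp, ?_⟩
      · obtain ⟨a, ha⟩ := hcons u
        rw [ha]; simp
      · rw [List.isChain_append]
        refine ⟨(hγ u).2.2, by simp, ?_⟩
        intro x hx y hy
        rw [(hγ u).2.1] at hx
        simp only [Option.mem_def, Option.some.injEq] at hx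
        simp only [List.head?_cons, Option.mem_def, Option.some.injEq] at hy
        rw [← hx, ← hy]; exact huv
    have h1 := ((hWCH (Art M) S (gen M)).2.2.1 (γ u ++ [v]) (γ v) o v hW (hγ v)).1
    rw [List.dropLast_concat] at h1
    exact hEXF S M hM.ne_zero _ h1
  obtain ⟨f, hf⟩ : ∃ f : Vtx (gen M) → Vtx (gen M) → C2 (gen M), ∀ u v : Vtx (gen M), u.ad v →
      ∃ n, Fill Vtx.ad TT (γ u ++ (γ v).reverse.dropLast) (f u v) n := by
    refine ⟨fun u v => if h : u.ad v then (ex u v h).choose else 0, ?_⟩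
    intro u v huv
    simp only [dif_pos huv]
    exact (ex u v huv).choose_spec
  have hanti : ∀ u v : Vtx (gen M), u.ad v → f v u = - f u v := by
    intro u v huv
    obtain ⟨n, h1⟩ := hf u v huv
    obtain ⟨n', h2⟩ := hf v u (hT.symm _ _ huv)
    have h3 := hFREV _ _ Vtx.ad TT hT _ _ _ h1
    obtain ⟨a, ha⟩ := hcons u
    obtain ⟨b, hb⟩ := hcons v
    have e : rv (γ u ++ (γ v).reverse.dropLast) = γ v ++ (γ u).reverse.dropLast := by
      rw [ha, hb, List.reverse_cons, List.reverse_cons, List.dropLast_concat, List.dropLast_concat]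
      simp [rv]
    rw [e] at h3
    exact uni _ _ _ _ _ h2 h3
  have htri : ∀ u v c : Vtx (gen M), u.ad v → v.ad c → c.ad u →
      f u v + f v c + f c u = TT u v c := by
    intro u v c huv hvc hcu
    obtain ⟨n1, h1⟩ := hf u v huv
    obtain ⟨n2, h2⟩ := hf v c hvc
    obtain ⟨n3, h3⟩ := hf c u hcu
    have hd : ∀ (w : Vtx (gen M)) (Y : List (Vtx (gen M))), (γ w ++ Y).head? = some o := by
      intro w Y
      obtain ⟨a, ha⟩ := hcons w
      rw [ha]; rfl
    have h12 := hFCAT _ _ Vtx.ad TT _ _ _ _ _ _ h1 h2 (by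
      intro z hz z' hz'
      rw [hd] at hz hz'
      simp only [Option.mem_def, Option.some.injEq] at hz hz'
      rw [← hz, ← hz'])
    have h12' := INJ2h.mid hT hFBR (γ v) o v (hγ v) (γ u) (γ c).reverse.dropLast _ _
      (by simpa only [List.append_assoc] using h12)
    have h123 := hFCAT _ _ Vtx.ad TT _ _ _ _ _ _ h12' h3 (by
      intro z hz z' hz'
      rw [hd] at hz hz'
      simp only [Option.mem_def, Option.some.injEq] at hz hz'
      rw [← hz, ← hz'])
    have h123' := INJ2h.mid hT hFBR (γ c) o c (hγ c) (γ u ++ [v]) (γ u).reverse.dropLast _ _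
      (by simpa only [List.append_assoc, List.cons_append, List.nil_append] using h123)
    have hr := hFROT _ _ Vtx.ad TT hT (γ u ++ [v, c]) (γ u).reverse.dropLast _ _
      (by simpa only [List.append_assoc, List.cons_append, List.nil_append] using h123')
    have hr' := INJ2h.mid hT hFBR (γ u) o u (hγ u) [] [v, c] _ _
      (by simpa only [List.append_assoc, List.cons_append, List.nil_append] using hr)
    have ht := hFTRI _ _ Vtx.ad TT hT [] [] u c v _ _ (hT.symm _ _ hcu) huv hvc hr'
    have h0 := uni _ _ _ _ _ (Fill.sph (hT.symm _ _ hcu) ht) Fill.nil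
    have e1 : TT (g := gen M) u c v = - TT u v c := by
      rw [hT.cyc u c v, hT.anti v c u, ← hT.cyc u v c]
    rw [e1] at h0
    rw [← sub_eq_add_neg, sub_eq_zero] at h0
    exact h0
  let h : C1 (gen M) →+ C2 (gen M) := Finsupp.liftAddHom
    (fun p : Vtx (gen M) × Vtx (gen M) => (AddMonoidHom.flip (smulAddHom ℤ (C2 (gen M)))) (f p.1 p.2))
  have hh : ∀ p : Vtx (gen M) × Vtx (gen M), h (Finsupp.single p 1) = f p.1 p.2 := by
    intro p
    simp [h]
  have hEE : ∀ x y : Vtx (gen M), x.ad y → h (EE x y) = f x y := by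
    intro x y hxy
    rcases hxy.2 with h1 | h1
    · have h2 : x.ty < y.ty := Finset.card_lt_card h1
      have h3 : ¬ y.ty < x.ty := by omega
      rw [EE, dl1, dl1, if_pos h2, if_neg h3, sub_zero, hh]
    · have h2 : y.ty < x.ty := Finset.card_lt_card h1
      have h3 : ¬ x.ty < y.ty := by omega
      rw [EE, dl1, dl1, if_pos h2, if_neg h3, zero_sub, map_neg, hh, hanti x y hxy, neg_neg]
  have key : h (bd2 (gen M) D) = D := by
    have e1 : bd2 (gen M) D = D.sum (fun t a => a • (EE t.1 t.2.1 + EE t.2.1 t.2.2 + EE t.2.2 t.1)) := rfl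
    rw [e1, Finsupp.sum, map_sum]
    conv_rhs => rw [← Finsupp.sum_single D]
    rw [Finsupp.sum]
    refine Finset.sum_congr rfl ?_
    intro t ht
    obtain ⟨h0, h1, h2, a1, a2, a3⟩ := hD t ht
    rw [map_zsmul, map_add, map_add, hEE _ _ a1, hEE _ _ a2, hEE _ _ (hT.symm _ _ a3),
      htri _ _ _ a1 a2 (hT.symm _ _ a3)]
    have e2 : TT t.1 t.2.1 t.2.2 = Finsupp.single t (1 : ℤ) := by
      simp [TT, dlt, h0, h1, h2]
    rw [e2, Finsupp.smul_single, smul_eq_mul, mul_one]
  rw [← key, hbd, map_zero]

end Pool.HA
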