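import Pool.Agent.Work.MP_7084a3_h91.InterfaceF

set_option autoImplicit false

namespace Pool.HA

namespace ZZ1Aux

open Finsupp

theorem mv_single {X : Type} (σ : Equiv.Perm X) (x : X) (c : ℤ) :
    mv σ (single x c) = single (σ x) c := by
  simp [mv, Finsupp.mapDomain_single]

theorem mv_apply {X : Type} (σ : Equiv.Perm X) (D : X →₀ ℤ) (y : X) :
    mv σ D y = D (σ⁻¹ y) := by
  show Finsupp.mapDomain σ D y = _
  rw [Finsupp.mapDomain_equiv_apply]
  rfl

theorem tele {X : Type} (σ : Equiv.Perm X) (x : X) (a : ℤ) :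
    ∃ P ∈ Finsupp.supported ℤ ℤ {y | ∃ k : ℤ, y = (σ ^ k) x},
      single x (1 : ℤ) - single ((σ ^ a) x) 1 = P - mv σ P := by
  induction a using Int.induction_on with
  | zero => exact ⟨0, Submodule.zero_mem _, by simp⟩
  | succ n ih =>
    obtain ⟨P, hP, h⟩ := ih
    refine ⟨P + single ((σ ^ (n : ℤ)) x) 1, Submodule.add_mem _ hP
      (Finsupp.single_mem_supported ℤ 1 ⟨_, rfl⟩), ?_⟩
    have h1 : (σ ^ ((n : ℤ) + 1)) x = σ ((σ ^ (n : ℤ)) x) := by
      rw [add_comm, zpow_add, zpow_one]; rfl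
    rw [map_add, mv_single, ← h1]
    calc single x (1 : ℤ) - single ((σ ^ ((n : ℤ) + 1)) x) 1
        = (single x (1 : ℤ) - single ((σ ^ (n : ℤ)) x) 1) +
          (single ((σ ^ (n : ℤ)) x) 1 - single ((σ ^ ((n : ℤ) + 1)) x) 1) := by abel
      _ = _ := by rw [h]; abel
  | pred n ih =>
    obtain ⟨P, hP, h⟩ := ih
    refine ⟨P - single ((σ ^ (-(n : ℤ) - 1)) x) 1, Submodule.sub_mem _ hP
      (Finsupp.single_mem_supported ℤ 1 ⟨_, rfl⟩), ?_⟩
    have h1 : (σ ^ (-(n : ℤ))) x = σ ((σ ^ (-(n : ℤ) - 1)) x) := by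
      have : (-(n : ℤ)) = 1 + (-(n : ℤ) - 1) := by ring
      conv_lhs => rw [this, zpow_add, zpow_one]
      rfl
    rw [map_sub, mv_single, ← h1]
    calc single x (1 : ℤ) - single ((σ ^ (-(n : ℤ) - 1)) x) 1
        = (single x (1 : ℤ) - single ((σ ^ (-(n : ℤ))) x) 1) +
          (single ((σ ^ (-(n : ℤ))) x) 1 - single ((σ ^ (-(n : ℤ) - 1)) x) 1) := by abel
      _ = _ := by rw [h]; abel

/-- the sum of the values of a finitely supported function over a large box -/
theorem box_sum (d : (ℤ × ℤ) →₀ ℤ) (K t : ℕ)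
    (hK : ∀ g ∈ d.support, g.1.natAbs ≤ K ∧ g.2.natAbs ≤ K) (a b : ℕ) (ha : a < t) (hb : b < t) :
    ∑ i ∈ Finset.range (2 * K + t), ∑ j ∈ Finset.range (2 * K + t),
      d ((K : ℤ) + a - i, (K : ℤ) + b - j) = ∑ g ∈ d.support, d g := by
  classical
  rw [← Finset.sum_product']
  have hinj : Set.InjOn (fun p : ℕ × ℕ => (((K : ℤ) + a - p.1, (K : ℤ) + b - p.2) : ℤ × ℤ))
      ((Finset.range (2 * K + t) ×ˢ Finset.range (2 * K + t) : Finset (ℕ × ℕ)) : Set (ℕ × ℕ)) := by
    rintro ⟨i, j⟩ - ⟨i', j'⟩ - h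
    simp only [Prod.mk.injEq] at h
    ext <;> simp <;> omega
  have h2 := Finset.sum_image (f := fun g => d g) hinj
  rw [← h2]
  symm
  refine Finset.sum_subset ?_ ?_
  · intro g hg
    obtain ⟨h3, h4⟩ := hK g hg
    rw [Finset.mem_image]
    refine ⟨(((K : ℤ) + a - g.1).toNat, ((K : ℤ) + b - g.2).toNat), ?_, ?_⟩
    · rw [Finset.mem_product, Finset.mem_range, Finset.mem_range]
      constructor <;> simp <;> omega
    · ext <;> simp <;> omega
  · intro g _ hg
    exact Finsupp.notMem_support_iff.1 hg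

theorem nf_ge {X ι : Type} (F : X →₀ ℤ) (T : Finset ι) (e : ι → X) (he : Set.InjOn e T) :
    ∑ p ∈ T, (F (e p)).natAbs ≤ nf F := by
  classical
  rw [← Finset.sum_image (f := fun x => (F x).natAbs) he]
  unfold nf Finsupp.sum
  calc ∑ x ∈ T.image e, (F x).natAbs
      ≤ ∑ x ∈ T.image e ∪ F.support, (F x).natAbs :=
        Finset.sum_le_sum_of_subset Finset.subset_union_left
    _ = ∑ x ∈ F.support, (F x).natAbs := by
        symm
        refine Finset.sum_subset Finset.subset_union_right ?_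
        intro x _ hx
        rw [Finsupp.notMem_support_iff.1 hx]
        rfl

end ZZ1Aux

open ZZ1Aux Finsupp in
theorem stmt_ZZ1 : Stmt_ZZ1 := by
  intro X σ τ hc D C hfree hbd
  classical
  have hg : ∀ a b c d : ℤ, (σ ^ a * τ ^ b) * (σ ^ c * τ ^ d) = σ ^ (a + c) * τ ^ (b + d) := by
    intro a b c d
    have h1 : τ ^ b * σ ^ c = σ ^ c * τ ^ b := (hc.zpow_zpow c b).symm.eq
    calc (σ ^ a * τ ^ b) * (σ ^ c * τ ^ d) = σ ^ a * (τ ^ b * σ ^ c) * τ ^ d := by group
      _ = σ ^ a * (σ ^ c * τ ^ b) * τ ^ d := by rw [h1]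
      _ = σ ^ (a + c) * τ ^ (b + d) := by rw [zpow_add, zpow_add]; group
  have hg' : ∀ (a b c d : ℤ) (x : X), (σ ^ a * τ ^ b) ((σ ^ c * τ ^ d) x) =
      (σ ^ (a + c) * τ ^ (b + d)) x := by
    intro a b c d x
    rw [← hg]; rfl
  let R : Setoid X :=
    { r := fun x y => ∃ a b : ℤ, (σ ^ a * τ ^ b) x = y
      iseqv := ⟨fun x => ⟨0, 0, by simp⟩, by
        rintro x y ⟨a, b, rfl⟩
        refine ⟨-a, -b, ?_⟩
        rw [hg']; simp, by
        rintro x y z ⟨a, b, rfl⟩ ⟨c, d, rfl⟩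
        exact ⟨c + a, d + b, (hg' _ _ _ _ _).symm⟩⟩ }
  -- all orbit sums vanish
  have key : D.mapDomain (Quotient.mk R) = 0 := by
    ext q
    rw [Finsupp.zero_apply]
    by_contra hs
    -- a point of the support in this orbit
    have hq : q ∈ (D.mapDomain (Quotient.mk R)).support := Finsupp.mem_support_iff.2 hs
    have hq' := Finsupp.mapDomain_support hq
    rw [Finset.mem_image] at hq'
    obtain ⟨x₀, hx₀, rfl⟩ := hq'
    let e : ℤ × ℤ → X := fun g => (σ ^ g.1 * τ ^ g.2) x₀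
    have he : Function.Injective e := by
      rintro ⟨a, b⟩ ⟨a', b'⟩ h
      have h1 : (σ ^ (a - a') * τ ^ (b - b')) x₀ = x₀ := by
        have h2 : (σ ^ (-a') * τ ^ (-b')) ((σ ^ a * τ ^ b) x₀) =
            (σ ^ (-a') * τ ^ (-b')) ((σ ^ a' * τ ^ b') x₀) := congrArg _ h
        rw [hg', hg'] at h2
        have h3 : -a' + a = a - a' := by ring
        have h4 : -b' + b = b - b' := by ring
        rw [h3, h4] at h2
        rw [h2]; simp
      obtain ⟨h2, h3⟩ := hfree x₀ hx₀ _ _ h1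
      ext
      · show a = a'; omega
      · show b = b'; omega
    let d : (ℤ × ℤ) →₀ ℤ := D.comapDomain e he.injOn
    have hd : ∀ g, d g = D (e g) := fun g => rfl
    set s : ℤ := ∑ g ∈ d.support, d g with hsdef
    have hsum : D.mapDomain (Quotient.mk R) (Quotient.mk R x₀) = s := by
      rw [Finsupp.mapDomain, Finsupp.sum_apply, Finsupp.sum]
      simp only [Finsupp.single_apply]
      rw [← Finset.sum_filter, hsdef]
      symm
      refine Finset.sum_nbij e ?_ he.injOn ?_ (fun g _ => hd g)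
      · intro g hg1
        rw [Finset.mem_filter, Finsupp.mem_support_iff]
        refine ⟨?_, ?_⟩
        · have := Finsupp.mem_support_iff.1 hg1
          rwa [hd] at this
        · exact (Quotient.sound (⟨g.1, g.2, rfl⟩ : R x₀ (e g))).symm
      · intro x hx
        simp only [Finset.coe_filter, Set.mem_ofPred_eq] at hx
        obtain ⟨a, b, h⟩ := Quotient.exact hx.2.symm
        refine ⟨(a, b), ?_, h⟩
        rw [Finset.mem_coe, Finsupp.mem_support_iff, hd]
        show D ((σ ^ a * τ ^ b) x₀) ≠ 0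
        rw [h]
        exact Finsupp.mem_support_iff.1 hx.1
    rw [hsum] at hs
    let K : ℕ := d.support.sup (fun g => max g.1.natAbs g.2.natAbs)
    have hK : ∀ g ∈ d.support, g.1.natAbs ≤ K ∧ g.2.natAbs ≤ K := by
      intro g hg1
      have := Finset.le_sup (f := fun g : ℤ × ℤ => max g.1.natAbs g.2.natAbs) hg1
      exact ⟨(le_max_left _ _).trans this, (le_max_right _ _).trans this⟩
    have hmain : ∀ t : ℕ, t * t * s.natAbs ≤ C * ((2 * K + t) + (2 * K + t)) := by
      intro t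
      refine le_trans ?_ (hbd (2 * K + t) (2 * K + t))
      let e' : ℕ × ℕ → X := fun p => e ((K : ℤ) + p.1, (K : ℤ) + p.2)
      have he' : Set.InjOn e' ((Finset.range t ×ˢ Finset.range t : Finset (ℕ × ℕ)) : Set _) := by
        rintro ⟨i, j⟩ - ⟨i', j'⟩ - h
        have h1 := he h
        simp only [Prod.mk.injEq] at h1
        ext <;> simp <;> omega
      refine le_trans ?_ (nf_ge _ _ e' he')
      have hval : ∀ p ∈ (Finset.range t ×ˢ Finset.range t : Finset (ℕ × ℕ)),
          (∑ i ∈ Finset.range (2 * K + t), ∑ j ∈ Finset.range (2 * K + t),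
            mv (σ ^ i * τ ^ j) D) (e' p) = s := by
        rintro ⟨a, b⟩ hp
        rw [Finset.mem_product, Finset.mem_range, Finset.mem_range] at hp
        rw [hsdef, ← box_sum d K t hK a b hp.1 hp.2, Finsupp.finsetSum_apply]
        refine Finset.sum_congr rfl fun i _ => ?_
        rw [Finsupp.finsetSum_apply]
        refine Finset.sum_congr rfl fun j _ => ?_
        rw [mv_apply, hd]
        congr 1
        show (σ ^ i * τ ^ j)⁻¹ ((σ ^ ((K : ℤ) + a) * τ ^ ((K : ℤ) + b)) x₀) =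
          (σ ^ ((K : ℤ) + a - i) * τ ^ ((K : ℤ) + b - j)) x₀
        rw [Equiv.Perm.inv_eq_iff_eq, ← zpow_natCast σ i, ← zpow_natCast τ j, hg']
        congr 3 <;> ring
      rw [Finset.sum_congr rfl fun p hp => by rw [hval p hp], Finset.sum_const,
        Finset.card_product, Finset.card_range, smul_eq_mul]
    have hs1 : 1 ≤ s.natAbs := Int.natAbs_pos.2 hs
    have h1 := hmain (4 * C * (2 * K + 1) + 1)
    have h2 : (4 * C * (2 * K + 1) + 1) * (4 * C * (2 * K + 1) + 1) ≤
        C * ((2 * K + (4 * C * (2 * K + 1) + 1)) + (2 * K + (4 * C * (2 * K + 1) + 1))) :=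
      le_trans (Nat.le_mul_of_pos_right _ hs1) h1
    nlinarith [Nat.zero_le (C * K), Nat.zero_le C, Nat.zero_le K, Nat.zero_le (C * C * K),
      Nat.zero_le (C * C), Nat.zero_le (C * C * K * K)]
  -- representatives
  let r : X → X := fun x => (Quotient.mk R x).out
  have hr : ∀ x, ∃ a b : ℤ, (σ ^ a * τ ^ b) x = r x := by
    intro x
    exact Quotient.exact (Quotient.out_eq (Quotient.mk R x)).symm
  have h0 : D.mapDomain r = 0 := by
    have h1 : r = Quotient.out ∘ Quotient.mk R := rfl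
    rw [h1, Finsupp.mapDomain_comp, key, Finsupp.mapDomain_zero]
  have hD : D = ∑ x ∈ D.support, D x • (single x (1 : ℤ) - single (r x) 1) := by
    have h1 : ∑ x ∈ D.support, D x • (single x (1 : ℤ) - single (r x) 1) =
        D.sum single - D.mapDomain r := by
      rw [Finsupp.mapDomain, Finsupp.sum, Finsupp.sum, ← Finset.sum_sub_distrib]
      refine Finset.sum_congr rfl fun x _ => ?_
      rw [smul_sub, Finsupp.smul_single, Finsupp.smul_single, smul_eq_mul, mul_one]
    rw [h1, h0, Finsupp.sum_single, sub_zero]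
  let O : Set X := {y | ∃ a b : ℤ, (σ ^ a * τ ^ b) y ∈ D.support}
  have hone : ∀ x ∈ D.support, ∃ P ∈ Finsupp.supported ℤ ℤ O, ∃ Q ∈ Finsupp.supported ℤ ℤ O,
      single x (1 : ℤ) - single (r x) 1 = (P - mv σ P) + (Q - mv τ Q) := by
    intro x hx
    obtain ⟨a, b, hab⟩ := hr x
    obtain ⟨Q, hQ, hQ'⟩ := tele τ x b
    obtain ⟨P, hP, hP'⟩ := tele σ ((τ ^ b) x) a
    refine ⟨P, Finsupp.supported_mono ?_ hP, Q, Finsupp.supported_mono ?_ hQ, ?_⟩
    · rintro y ⟨k, rfl⟩
      refine ⟨-k, -b, ?_⟩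
      have : (σ ^ (-k) * τ ^ (-b)) ((σ ^ k) ((τ ^ b) x)) = x := by
        have h1 : (σ ^ k) ((τ ^ b) x) = (σ ^ k * τ ^ b) x := rfl
        rw [h1, hg']; simp
      rw [this]; exact hx
    · rintro y ⟨k, rfl⟩
      refine ⟨0, -k, ?_⟩
      have : (σ ^ (0 : ℤ) * τ ^ (-k)) ((τ ^ k) x) = x := by
        have h1 : (τ ^ k) x = (σ ^ (0 : ℤ) * τ ^ k) x := by simp
        rw [h1, hg']; simp
      rw [this]; exact hx
    · rw [← hP', ← hQ', ← hab]
      have h1 : (σ ^ a) ((τ ^ b) x) = (σ ^ a * τ ^ b) x := rfl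
      rw [h1]; abel
  choose! P hP Q hQ hPQ using hone
  refine ⟨∑ x ∈ D.support, D x • P x, ∑ x ∈ D.support, D x • Q x, ?_, ?_, ?_⟩
  · conv_lhs => rw [hD]
    rw [map_sum, map_sum, ← Finset.sum_sub_distrib, ← Finset.sum_sub_distrib,
      ← Finset.sum_add_distrib]
    refine Finset.sum_congr rfl fun x hx => ?_
    rw [hPQ x hx, map_zsmul, map_zsmul, smul_add, smul_sub, smul_sub]
  · have h1 : ∑ x ∈ D.support, D x • P x ∈ Finsupp.supported ℤ ℤ O :=
      Submodule.sum_mem _ fun x hx => Submodule.smul_mem _ _ (hP x hx)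
    intro x hx
    exact h1 hx
  · have h1 : ∑ x ∈ D.support, D x • Q x ∈ Finsupp.supported ℤ ℤ O :=
      Submodule.sum_mem _ fun x hx => Submodule.smul_mem _ _ (hQ x hx)
    intro x hx
    exact h1 hx

end Pool.HA
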