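import Pool.Agent.Work.MP_7084a3_h91.InterfaceW

set_option autoImplicit false

namespace Pool.HA

namespace TRCB

set_option linter.unusedSectionVars false

variable {S : Type} [Fintype S] [DecidableEq S]

/-- `x ↦ bf x v` as a linear form -/
noncomputable def fl (M : CoxeterMatrix S)
    (hl : ∀ (a b : ℝ) (v v' w : S → ℝ), bf M (a • v + b • v') w = a * bf M v w + b * bf M v' w)
    (v : S → ℝ) : (S → ℝ) →ₗ[ℝ] ℝ where
  toFun x := bf M x v
  map_add' x y := by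
    have := hl 1 1 x y v
    simpa using this
  map_smul' a x := by
    have := hl a 0 x 0 v
    simpa using this

theorem fl_apply (M : CoxeterMatrix S)
    (hl : ∀ (a b : ℝ) (v v' w : S → ℝ), bf M (a • v + b • v') w = a * bf M v w + b * bf M v' w)
    (v x : S → ℝ) : fl M hl v x = bf M x v := rfl

theorem bf_neg_left (M : CoxeterMatrix S)
    (hl : ∀ (a b : ℝ) (v v' w : S → ℝ), bf M (a • v + b • v') w = a * bf M v w + b * bf M v' w)
    (v w : S → ℝ) : bf M (-v) w = -bf M v w := by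
  have := hl (-1) 0 v 0 w
  simpa using this

theorem isRf_simple (M : CoxeterMatrix S) (ρ : M.Group →* Module.End ℝ (S → ℝ)) (s : S) :
    IsRf M ρ (M.simple s) (bs s) := ⟨1, s, by simp, Or.inl (by simp)⟩

theorem bf_self (hB : Stmt_BFI) (M : CoxeterMatrix S) (ρ : M.Group →* Module.End ℝ (S → ℝ))
    (hρ : IsRep M ρ) {r : M.Group} {v : S → ℝ} (h : IsRf M ρ r v) : bf M v v = 1 := by
  obtain ⟨hs, hl, _, _, hone, _⟩ := hB S M ρ hρ
  obtain ⟨w, s, _, hv | hv⟩ := h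
  · exact hone v ⟨w, s, hv⟩
  · have h1 := hone _ ⟨w, s, rfl⟩
    rw [hv, bf_neg_left M hl, hs, bf_neg_left M hl, neg_neg]
    exact h1

theorem trace_rr (hB : Stmt_BFI) (M : CoxeterMatrix S) (ρ : M.Group →* Module.End ℝ (S → ℝ))
    (hρ : IsRep M ρ) {r₁ r₂ : M.Group} {v₁ v₂ : S → ℝ} (h₁ : IsRf M ρ r₁ v₁)
    (h₂ : IsRf M ρ r₂ v₂) :
    LinearMap.trace ℝ (S → ℝ) (ρ (r₁ * r₂)) =
      (Module.finrank ℝ (S → ℝ) : ℝ) - 4 + 4 * (bf M v₁ v₂) ^ 2 := by
  have e₁ := bf_self hB M ρ hρ h₁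
  have e₂ := bf_self hB M ρ hρ h₂
  obtain ⟨hs, hl, _, _, _, hrf⟩ := hB S M ρ hρ
  have a₁ : ρ r₁ = 1 - (2 : ℝ) • (fl M hl v₁).smulRight v₁ := by
    refine LinearMap.ext fun x => ?_
    simp only [LinearMap.sub_apply, Module.End.one_apply, LinearMap.smul_apply,
      LinearMap.smulRight_apply, fl_apply]
    rw [hrf r₁ v₁ h₁ x, smul_smul]
  have a₂ : ρ r₂ = 1 - (2 : ℝ) • (fl M hl v₂).smulRight v₂ := by
    refine LinearMap.ext fun x => ?_
    simp only [LinearMap.sub_apply, Module.End.one_apply, LinearMap.smul_apply,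
      LinearMap.smulRight_apply, fl_apply]
    rw [hrf r₂ v₂ h₂ x, smul_smul]
  have a₃ : (fl M hl v₁).smulRight v₁ * (fl M hl v₂).smulRight v₂ =
      bf M v₂ v₁ • ((fl M hl v₂).smulRight v₁ : Module.End ℝ (S → ℝ)) := by
    refine LinearMap.ext fun x => ?_
    simp only [Module.End.mul_apply, LinearMap.smulRight_apply, LinearMap.smul_apply, map_smul,
      fl_apply, smul_eq_mul, smul_smul]
    rw [mul_comm]
  have a₄ : ρ (r₁ * r₂) = 1 - (2 : ℝ) • (fl M hl v₁).smulRight v₁ -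
      (2 : ℝ) • (fl M hl v₂).smulRight v₂ +
      (4 * bf M v₂ v₁) • ((fl M hl v₂).smulRight v₁ : Module.End ℝ (S → ℝ)) := by
    have a₅ : ∀ A B : Module.End ℝ (S → ℝ), (1 - (2 : ℝ) • A) * (1 - (2 : ℝ) • B) =
        1 - (2 : ℝ) • A - (2 : ℝ) • B + (4 : ℝ) • (A * B) := by
      intro A B
      simp only [sub_mul, mul_sub, one_mul, mul_one, smul_mul_assoc, mul_smul_comm, smul_smul]
      module
    rw [map_mul, a₁, a₂, a₅, a₃, smul_smul]
  rw [a₄, map_add, map_sub, map_sub, map_smul, map_smul, map_smul, LinearMap.trace_one,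
    LinearMap.trace_smulRight, LinearMap.trace_smulRight, LinearMap.trace_smulRight, fl_apply,
    fl_apply, fl_apply, e₁, e₂, hs v₂ v₁]
  simp only [smul_eq_mul]
  ring

end TRCB

theorem stmt_TRC (hB : Stmt_BFI) : Stmt_TRC := by
  intro S _ _ M ρ hρ r₁ r₂ w v₁ v₂ s t h₁ h₂ _ hw
  have e₁ := TRCB.trace_rr hB M ρ hρ h₁ h₂
  have e₂ := TRCB.trace_rr hB M ρ hρ (TRCB.isRf_simple M ρ s) (TRCB.isRf_simple M ρ t)
  have e₃ : LinearMap.trace ℝ (S → ℝ) (ρ (r₁ * r₂)) =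
      LinearMap.trace ℝ (S → ℝ) (ρ (M.simple s * M.simple t)) := by
    rw [hw, map_mul, map_mul ρ w, LinearMap.trace_mul_comm, ← mul_assoc, ← map_mul ρ w⁻¹ w,
      inv_mul_cancel, map_one, one_mul]
  rw [e₁, e₂] at e₃
  obtain ⟨_, _, hst, _, _, _⟩ := hB S M ρ hρ
  rw [hst s t, neg_sq] at e₃
  linarith

end Pool.HA
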