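import Pool.Agent.Work.MP_7084a3_h91.InterfaceF

set_option autoImplicit false

namespace Pool.HA

section cyc
variable {X : Type} {R : X → X → Prop}

/-- cyclic chain condition in chain form -/
theorem cyc_mp (a : X) (l : List X)
    (h : ∀ x E y, a :: l = x ++ E :: y → ∃ E' ∈ (y ++ x).head?, R E E') :
      (a :: (l ++ [a])).IsChain R := by
  rw [List.isChain_iff_forall_rel_of_append_cons_cons]
  intro b c x y e
  rcases List.eq_nil_or_concat y with rfl | ⟨y', z, rfl⟩
  · have e1 : a :: l = x ++ [b] ∧ a = c := by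
      have : (a :: l) ++ [a] = (x ++ [b]) ++ [c] := by simpa using e
      exact ⟨(List.append_inj' this rfl).1, by simpa using (List.append_inj' this rfl).2⟩
    obtain ⟨E', h1, h2⟩ := h x b [] e1.1
    have : E' = a := by
      cases x with
      | nil => simp at h1
      | cons x0 x' => simp at h1 e1; rw [← h1, e1.1.1]
    rw [← e1.2, ← this]; exact h2
  · have e1 : a :: l = x ++ b :: (c :: y') := by
      have : (a :: l) ++ [a] = (x ++ b :: c :: y') ++ [z] := by simpa using e
      exact (List.append_inj' this rfl).1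
    obtain ⟨E', h1, h2⟩ := h x b (c :: y') e1
    simp at h1
    rw [← h1] at h2
    exact h2

theorem cyc_mpr (a : X) (l : List X) (hl : l ≠ []) (h : (a :: (l ++ [a])).IsChain R) :
    ∀ x E y, a :: l = x ++ E :: y → ∃ E' ∈ (y ++ x).head?, R E E' := by
  rw [List.isChain_iff_forall_rel_of_append_cons_cons] at h
  intro x E y e
  cases y with
  | nil =>
    refine ⟨a, ?_, ?_⟩
    · cases x with
      | nil => simp at e; exact absurd e.2 hl
      | cons x0 x' => simp at e; simp [e.1]
    · exact h (l₁ := x) (l₂ := []) (by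
        have : a :: (l ++ [a]) = (a :: l) ++ [a] := rfl
        rw [this, e]; simp)
  | cons c y' =>
    refine ⟨c, by simp, ?_⟩
    exact h (l₁ := x) (l₂ := y' ++ [a]) (by
      have : a :: (l ++ [a]) = (a :: l) ++ [a] := rfl
      rw [this, e]; simp)

theorem chain_head {a a' : X} (h : ∀ b, R a b → R a' b) {l : List X}
    (hl : (a :: l).IsChain R) : (a' :: l).IsChain R := by
  cases l with
  | nil => simp
  | cons b l => rw [List.isChain_cons_cons] at hl ⊢; exact ⟨h _ hl.1, hl.2⟩

theorem chain_mid {l L : List X} (hL : L.IsChain R) (h : ∃ x y, x ++ l ++ y = L) :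
    l.IsChain R := by
  obtain ⟨x, y, rfl⟩ := h
  rw [List.append_assoc, List.isChain_append] at hL
  have h2 := hL.2.1
  rw [List.isChain_append] at h2
  exact h2.1

theorem chain_last {a a' : X} (h : ∀ b, R b a → R b a') {l : List X}
    (hl : (l ++ [a]).IsChain R) : (l ++ [a']).IsChain R := by
  rw [List.isChain_append] at hl ⊢
  refine ⟨hl.1, by simp, ?_⟩
  intro x hx y hy
  simp only [List.head?_cons, Option.mem_def, Option.some.injEq] at hy
  subst hy
  exact h _ (hl.2.2 x hx a (by simp))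

end cyc

section st
variable {V A : Type} [AddCommGroup A] {adj : V → V → Prop} {T : V → V → V → A}
  {ang : V → V → V → ℝ} {ε : ℝ}

theorem wts_cons (v : V) (s : Stp V) (ω : List (Stp V)) :
    wts ang v (s :: ω) = wt ang v s + wts ang v ω := by simp [wts]

theorem wts_append (v : V) (ω ω' : List (Stp V)) :
    wts ang v (ω ++ ω') = wts ang v ω + wts ang v ω' := by simp [wts]

theorem wts_single (v a b : V) : wts ang v [⟨a, b, 0⟩] = ang v a b := by simp [wts, wt]

theorem nxt_head {E E' : V × List (Stp V)} (h1 : E'.1 = E.1) (h2 : E'.2.head? = E.2.head?)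
    (F : V × List (Stp V)) (h : Nxt adj E F) : Nxt adj E' F := by
  unfold Nxt at h ⊢
  rw [h1, h2]; exact h

theorem nxt_last {E E' : V × List (Stp V)} (h1 : E'.1 = E.1) (h2 : E'.2.getLast? = E.2.getLast?)
    (F : V × List (Stp V)) (h : Nxt adj F E) : Nxt adj F E' := by
  unfold Nxt at h ⊢
  rw [h1, h2]; exact h

theorem getLast?_cons_ne {X : Type} (a : X) {l : List X} (h : l ≠ []) :
    (a :: l).getLast? = l.getLast? := by
  cases l with
  | nil => exact absurd rfl h
  | cons b l => simp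

theorem head?_append_ne {X : Type} {l : List X} (l' : List X) (h : l ≠ []) :
    (l ++ l').head? = l.head? := by
  cases l with
  | nil => exact absurd rfl h
  | cons b l => simp

theorem getLast?_append_ne {X : Type} (l : List X) {l' : List X} (h : l' ≠ []) :
    (l ++ l').getLast? = l'.getLast? := by
  rw [List.getLast?_append]
  cases h' : l'.getLast? with
  | none => exact absurd (List.getLast?_eq_none_iff.1 h') h
  | some x => simp

theorem T_ucv (hT : TriOK adj T) (u v c : V) : T u c v = - T u v c := by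
  rw [hT.cyc u c v, hT.cyc c v u, hT.anti u v c]

theorem T_cvu (hT : TriOK adj T) (u v c : V) : T c v u = - T u v c := by
  rw [hT.cyc c v u, hT.anti u v c]

theorem T_cuv (hT : TriOK adj T) (u v c : V) : T c u v = T u v c := by
  rw [hT.cyc c u v]

theorem T_vcu (hT : TriOK adj T) (u v c : V) : T v c u = T u v c := by
  rw [hT.cyc u v c]

/-- the `tri` step: the new state is fine -/
theorem tri_state (hT : TriOK adj T)
    (hTRI : Stmt_FTRI) (hBR : Stmt_FBR) {u v c : V} (huv : adj u v)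
    (huc : adj u c) (hcv : adj c v) {ω₀ ω₁ : List (Stp V)} {Q' : List (V × List (Stp V))}
    {D₀ : A} {n₀ : ℕ} (hF : Fill adj T (u :: c :: v :: Q'.map Prod.fst) D₀ n₀)
    (hS : StOK adj ang ((u, ω₀) :: (v, ω₁) :: Q'))
    (hM : ∀ n', Fill adj T (u :: v :: Q'.map Prod.fst) (D₀ + T u v c) n' → n₀ + 1 ≤ n')
    (hB : InvB adj T ((u, ω₀) :: (v, ω₁) :: Q') (D₀ + T u v c) (n₀ + 1))
    (hC : InvC adj T ((u, ω₀) :: (v, ω₁) :: Q') (D₀ + T u v c) (n₀ + 1)) :
    StOK adj ang ((u, ⟨c, v, 0⟩ :: ω₀) :: (c, [⟨v, u, 0⟩]) :: (v, ω₁ ++ [⟨u, c, 0⟩]) :: Q') ∧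
    (∀ n', Fill adj T (u :: c :: v :: Q'.map Prod.fst) D₀ n' → n₀ ≤ n') ∧
    InvB adj T ((u, ⟨c, v, 0⟩ :: ω₀) :: (c, [⟨v, u, 0⟩]) :: (v, ω₁ ++ [⟨u, c, 0⟩]) :: Q') D₀ n₀ ∧
    InvC adj T ((u, ⟨c, v, 0⟩ :: ω₀) :: (c, [⟨v, u, 0⟩]) :: (v, ω₁ ++ [⟨u, c, 0⟩]) :: Q') D₀ n₀ := by
  have hvc := hT.symm _ _ hcv
  have hcu := hT.symm _ _ huc
  have hvu := hT.symm _ _ huv
  have hS0 := hS.1 (u, ω₀) (by simp)
  have hS1 := hS.1 (v, ω₁) (by simp)
  have hne0 : ω₀ ≠ [] := hS0.1
  have hne1 : ω₁ ≠ [] := hS1.1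
  obtain ⟨s0, w0, rfl⟩ := List.exists_cons_of_ne_nil hne0
  have hN01 : Nxt adj (u, s0 :: w0) (v, ω₁) := by
    obtain ⟨E', h1, h2⟩ := hS.2 [] _ _ rfl
    simp at h1
    rw [← h1] at h2; exact h2
  have hchain := cyc_mp _ _ hS.2
  -- the label at the edge is not `c`
  have hlab : s0.k = 0 → s0.b ≠ c := by
    intro hk hb
    have h1 := (hN01.2 s0 (by simp))
    obtain ⟨t, ht⟩ : ∃ t, ω₁.getLast? = some t := by
      cases h : ω₁.getLast? with
      | none => exact absurd (List.getLast?_eq_none_iff.1 h) hne1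
      | some t => exact ⟨t, rfl⟩
    have ha : s0.a = v := (h1 t ht).1
    have := hB [] (u, s0 :: w0) ((v, ω₁) :: Q') rfl s0 (by simp) hk n₀ (by
      simpa [ha, hb] using hF)
    omega
  refine ⟨⟨?_, ?_⟩, ?_, ?_, ?_⟩
  · -- sectors
    intro E hE
    simp only [List.mem_cons] at hE
    rcases hE with rfl | rfl | rfl | hE
    · refine ⟨by simp, ?_, ?_⟩
      · rw [List.isChain_cons_cons]
        refine ⟨?_, hS0.2.1⟩
        obtain ⟨t, ht⟩ : ∃ t, ω₁.getLast? = some t := by
          cases h : ω₁.getLast? with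
          | none => exact absurd (List.getLast?_eq_none_iff.1 h) hne1
          | some t => exact ⟨t, rfl⟩
        have h1 := hN01.2 s0 (by simp) t ht
        exact ⟨h1.1.symm, fun _ hk => (hlab hk).symm⟩
      · intro s hs
        rcases List.mem_cons.1 hs with rfl | hs
        · exact Or.inl ⟨rfl, huc, huv, hcv⟩
        · exact hS0.2.2 s hs
    · refine ⟨by simp, by simp, ?_⟩
      intro s hs
      simp only [List.mem_singleton] at hs
      subst hs
      exact Or.inl ⟨rfl, hcv, hcu, hvu⟩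
    · refine ⟨by simp, ?_, ?_⟩
      · rw [List.isChain_append]
        refine ⟨hS1.2.1, by simp, ?_⟩
        intro t ht y hy
        simp only [List.head?_cons, Option.mem_def, Option.some.injEq] at hy
        subst hy
        have h1 := hN01.2 s0 (by simp) t ht
        refine ⟨h1.2.1, fun hk _ => ?_⟩
        have hk0 := h1.2.2.1.2 hk
        rw [← h1.2.2.2 hk0]
        exact hlab hk0
      · intro s hs
        rcases List.mem_append.1 hs with hs | hs
        · exact hS1.2.2 s hs
        · simp only [List.mem_singleton] at hs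
          subst hs
          exact Or.inl ⟨rfl, hvu, hvc, huc⟩
    · exact hS.1 E (by simp [hE])
  · -- cyclic chain
    apply cyc_mpr _ _ (by simp)
    rw [List.cons_append, List.cons_append, List.isChain_cons_cons, List.isChain_cons_cons]
    refine ⟨?_, ?_, ?_⟩
    · refine ⟨huc, ?_⟩
      simp
    · refine ⟨hcv, ?_⟩
      simp
    · rw [List.cons_append, List.isChain_cons_cons] at hchain
      have h2 := chain_head (R := Nxt adj) (a := (v, ω₁)) (a' := (v, ω₁ ++ [⟨u, c, 0⟩]))
        (fun b => nxt_head (E := (v, ω₁)) (E' := (v, ω₁ ++ [⟨u, c, 0⟩])) rfl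
          (head?_append_ne _ hne1) b) hchain.2
      rw [← List.cons_append] at h2
      have h3 := chain_last (R := Nxt adj) (l := (v, ω₁ ++ [⟨u, c, 0⟩]) :: Q')
        (a := (u, s0 :: w0)) (a' := (u, ⟨c, v, 0⟩ :: s0 :: w0))
        (fun b => nxt_last (E := (u, s0 :: w0)) (E' := (u, ⟨c, v, 0⟩ :: s0 :: w0)) rfl
          (getLast?_cons_ne _ (by simp)) b) h2
      exact h3
  · intro n' h
    have := hM (n' + 1) (Fill.tri huv huc hcv h)
    omega
  · -- InvB
    intro x E y hxy s hs hk n' hn'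
    rcases x with _ | ⟨e0, _ | ⟨e1, _ | ⟨e2, x⟩⟩⟩
    · simp only [List.nil_append, List.cons.injEq] at hxy
      obtain ⟨rfl, rfl⟩ := hxy
      simp only [List.head?_cons, Option.mem_def, Option.some.injEq] at hs
      subst hs
      simp only [List.map_nil, List.nil_append, List.map_cons] at hn'
      rw [T_ucv hT u v c, sub_neg_eq_add] at hn'
      exact hM n' (hBR V A adj T hT [u] (Q'.map Prod.fst) v c _ _ hvc hn')
    · simp only [List.cons_append, List.nil_append, List.cons.injEq] at hxy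
      obtain ⟨rfl, rfl, rfl⟩ := hxy
      simp only [List.head?_cons, Option.mem_def, Option.some.injEq] at hs
      subst hs
      simp only [List.map_nil, List.nil_append, List.map_cons, List.cons_append] at hn'
      rw [T_cvu hT u v c, sub_neg_eq_add] at hn'
      exact hM n' (hBR V A adj T hT [] (v :: Q'.map Prod.fst) u c _ _ huc hn')
    · simp only [List.cons_append, List.nil_append, List.cons.injEq] at hxy
      obtain ⟨rfl, rfl, rfl, rfl⟩ := hxy
      rw [head?_append_ne _ hne1] at hs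
      simp only [List.map_nil, List.nil_append, List.map_cons, List.cons_append] at hn'
      have h1 := hTRI V A adj T hT [] _ u v c _ _ huv huc hcv hn'
      have h2 := hB [(u, s0 :: w0)] (v, ω₁) Q' rfl s hs hk (n' + 1) (by
        have e : D₀ + T u v c - T v s.a s.b = D₀ - T v s.a s.b + T u v c := by abel
        simpa [e] using h1)
      omega
    · simp only [List.cons_append, List.cons.injEq] at hxy
      obtain ⟨rfl, rfl, rfl, rfl⟩ := hxy
      simp only [List.map_cons, List.cons_append] at hn'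
      have h1 := hTRI V A adj T hT [] _ u v c _ _ huv huc hcv hn'
      have h2 := hB ((u, s0 :: w0) :: (v, ω₁) :: x) E y rfl s hs hk (n' + 1) (by
        have e : D₀ + T u v c - T E.1 s.a s.b = D₀ - T E.1 s.a s.b + T u v c := by abel
        simpa [e] using h1)
      omega
  · -- InvC
    intro x E y E' z hxy s hs s' hs' hk hk' ha ha' hb n' hn'
    rcases x with _ | ⟨e0, _ | ⟨e1, _ | ⟨e2, x⟩⟩⟩
    · simp only [List.nil_append, List.cons.injEq] at hxy
      obtain ⟨rfl, hxy⟩ := hxy
      simp only [List.head?_cons, Option.mem_def, Option.some.injEq] at hs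
      subst hs
      simp only at ha ha' hb
      rcases y with _ | ⟨f0, _ | ⟨f1, y⟩⟩
      · simp only [List.nil_append, List.cons.injEq] at hxy
        obtain ⟨rfl, rfl⟩ := hxy
        simp only [List.head?_cons, Option.mem_def, Option.some.injEq] at hs'
        subst hs'
        simp only at ha'
        subst ha'
        exact absurd huv (hT.irr _)
      · simp only [List.cons_append, List.nil_append, List.cons.injEq] at hxy
        obtain ⟨rfl, rfl, rfl⟩ := hxy
        simp only at ha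
        subst ha
        exact absurd hcv (hT.irr _)
      · simp only [List.cons_append, List.cons.injEq] at hxy
        obtain ⟨rfl, rfl, rfl⟩ := hxy
        simp only [List.map_nil, List.nil_append, List.map_cons, List.cons_append] at hn'
        have h1 := hBR V A adj T hT [u] _ v c _ _ hvc hn'
        have h2 := hB ((u, s0 :: w0) :: (v, ω₁) :: y) E' z rfl s' hs' hk' n' (by
          have e : D₀ + T u v c - T E'.1 s'.a s'.b = D₀ := by
            rw [← ha, ha', ← hb, T_cuv hT u v c]; abel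
          simpa [e] using h1)
        omega
    · simp only [List.cons_append, List.nil_append, List.cons.injEq] at hxy
      obtain ⟨rfl, rfl, hxy⟩ := hxy
      simp only [List.head?_cons, Option.mem_def, Option.some.injEq] at hs
      subst hs
      simp only at ha ha' hb
      rcases y with _ | ⟨f0, y⟩
      · simp only [List.nil_append, List.cons.injEq] at hxy
        obtain ⟨rfl, rfl⟩ := hxy
        rw [head?_append_ne _ hne1] at hs'
        simp only [List.map_nil, List.nil_append, List.map_cons, List.cons_append] at hn'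
        have h1 := hBR V A adj T hT [] _ u c _ _ huc hn'
        have h2 := hB [(u, s0 :: w0)] (v, ω₁) Q' rfl s' hs' hk' n' (by
          have e : D₀ + T u v c - T v s'.a s'.b = D₀ := by
            rw [ha', ← hb, T_vcu hT u v c]; abel
          simpa [e] using h1)
        omega
      · simp only [List.cons_append, List.cons.injEq] at hxy
        obtain ⟨rfl, rfl⟩ := hxy
        simp only [List.map_nil, List.nil_append, List.map_cons, List.cons_append] at hn'
        have h1 := hBR V A adj T hT [] _ u c _ _ huc hn'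
        have h2 := hB ((u, s0 :: w0) :: (v, ω₁) :: y) E' z rfl s' hs' hk' n' (by
          have e : D₀ + T u v c - T E'.1 s'.a s'.b = D₀ := by
            rw [← ha, ha', ← hb, T_vcu hT u v c]; abel
          simpa [e] using h1)
        omega
    · simp only [List.cons_append, List.nil_append, List.cons.injEq] at hxy
      obtain ⟨rfl, rfl, rfl, rfl⟩ := hxy
      rw [head?_append_ne _ hne1] at hs
      simp only [List.map_nil, List.nil_append, List.map_cons, List.cons_append] at hn'
      have h1 := hTRI V A adj T hT [] _ u v c _ _ huv huc hcv hn'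
      have h2 := hC [(u, s0 :: w0)] (v, ω₁) y E' z rfl s hs s' hs' hk hk' ha ha' hb (n' + 1) (by
        simpa using h1)
      omega
    · simp only [List.cons_append, List.cons.injEq] at hxy
      obtain ⟨rfl, rfl, rfl, rfl⟩ := hxy
      simp only [List.map_cons, List.cons_append] at hn'
      have h1 := hTRI V A adj T hT [] _ u v c _ _ huv huc hcv hn'
      have h2 := hC ((u, s0 :: w0) :: (v, ω₁) :: x) E y E' z rfl s hs s' hs' hk hk' ha ha' hb
        (n' + 1) (by simpa using h1)
      omega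

theorem getLast?_some {X : Type} {l : List X} (h : l ≠ []) : ∃ t, l.getLast? = some t := by
  cases h' : l.getLast? with
  | none => exact absurd (List.getLast?_eq_none_iff.1 h') h
  | some t => exact ⟨t, rfl⟩

/-- the `pair` step, piece at `v` -/
theorem pair_left (hT : TriOK adj T) {u v : V} (huv : adj u v)
    {ωa ωb ω₁ : List (Stp V)} {Q₁ Q₂ : List (V × List (Stp V))}
    {D₁ D₂ : A} {n₁ n₂ : ℕ} (hF2 : Fill adj T (Q₂.map Prod.fst) D₂ n₂)
    (hh2 : ∀ x ∈ (Q₂.map Prod.fst).head?, x = u)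
    (hS : StOK adj ang ((u, ωa) :: (((v, ω₁) :: Q₁) ++ (v, ωb) :: Q₂)))
    (hM : ∀ n', Fill adj T (u :: (v :: Q₁.map Prod.fst ++ v :: Q₂.map Prod.fst)) (D₁ + D₂) n' →
      n₁ + n₂ ≤ n')
    (hB : InvB adj T ((u, ωa) :: (((v, ω₁) :: Q₁) ++ (v, ωb) :: Q₂)) (D₁ + D₂) (n₁ + n₂))
    (hC : InvC adj T ((u, ωa) :: (((v, ω₁) :: Q₁) ++ (v, ωb) :: Q₂)) (D₁ + D₂) (n₁ + n₂))
    (hnu : ∀ s ∈ ωb.head?, s.a = u)
    (hlab : ∀ s ∈ ωa.head?, ∀ s' ∈ ωb.head?, s.k = 0 → s'.k = 0 → s.b ≠ s'.b) :
    StOK adj ang ((v, ω₁ ++ ωb) :: Q₁) ∧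
    (∀ n', Fill adj T (v :: Q₁.map Prod.fst) D₁ n' → n₁ ≤ n') ∧
    InvB adj T ((v, ω₁ ++ ωb) :: Q₁) D₁ n₁ ∧
    InvC adj T ((v, ω₁ ++ ωb) :: Q₁) D₁ n₁ := by
  have hSa := hS.1 (u, ωa) (by simp)
  have hS1 := hS.1 (v, ω₁) (by simp)
  have hSb := hS.1 (v, ωb) (by simp)
  have hne1 : ω₁ ≠ [] := hS1.1
  have hneb : ωb ≠ [] := hSb.1
  have hnea : ωa ≠ [] := hSa.1
  have hchain := cyc_mp _ _ hS.2
  have hNa1 : Nxt adj (u, ωa) (v, ω₁) := by
    simp only [List.cons_append, List.isChain_cons_cons] at hchain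
    exact hchain.1
  have hch1 : ((v, ω₁) :: (Q₁ ++ [(v, ωb)])).IsChain (Nxt adj) := by
    refine chain_mid hchain ⟨[(u, ωa)], Q₂ ++ [(u, ωa)], ?_⟩
    simp
  refine ⟨⟨?_, ?_⟩, ?_, ?_, ?_⟩
  · intro E hE
    rcases List.mem_cons.1 hE with rfl | hE
    · refine ⟨by simp [hne1], ?_, ?_⟩
      · rw [List.isChain_append]
        refine ⟨hS1.2.1, hSb.2.1, ?_⟩
        intro t ht s' hs'
        obtain ⟨s0, w0, rfl⟩ := List.exists_cons_of_ne_nil hnea
        have h1 := hNa1.2 s0 (by simp) t ht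
        refine ⟨?_, fun hk hk' => ?_⟩
        · rw [h1.2.1, hnu s' hs']
        · have hk0 := h1.2.2.1.2 hk
          rw [← h1.2.2.2 hk0]
          exact hlab s0 (by simp) s' hs' hk0 hk'
      · intro s hs
        rcases List.mem_append.1 hs with hs | hs
        · exact hS1.2.2 s hs
        · exact hSb.2.2 s hs
    · exact hS.1 E (by simp [hE])
  · have hQ : Q₁ ≠ [] := by
      rintro rfl
      simp only [List.nil_append, List.isChain_cons_cons] at hch1
      exact hT.irr _ hch1.1.1
    apply cyc_mpr _ _ hQ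
    have h2 := chain_head (R := Nxt adj) (a := (v, ω₁)) (a' := (v, ω₁ ++ ωb))
      (fun b => nxt_head (E := (v, ω₁)) (E' := (v, ω₁ ++ ωb)) rfl
        (head?_append_ne _ hne1) b) hch1
    rw [← List.cons_append] at h2
    exact chain_last (R := Nxt adj) (l := (v, ω₁ ++ ωb) :: Q₁)
      (a := (v, ωb)) (a' := (v, ω₁ ++ ωb))
      (fun b => nxt_last (E := (v, ωb)) (E' := (v, ω₁ ++ ωb)) rfl
        (getLast?_append_ne _ hneb) b) h2
  · intro n' h
    have := hM (n' + n₂) (Fill.pair huv (by simp) hh2 h hF2)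
    omega
  · intro x E y hxy s hs hk n' hn'
    rcases x with _ | ⟨e0, x⟩
    · simp only [List.nil_append, List.cons.injEq] at hxy
      obtain ⟨rfl, rfl⟩ := hxy
      rw [head?_append_ne _ hne1] at hs
      simp only [List.map_nil, List.nil_append] at hn'
      have h1 := Fill.pair huv (by simp) hh2 hn' hF2
      have h2 := hB [(u, ωa)] (v, ω₁) (Q₁ ++ (v, ωb) :: Q₂) rfl s hs hk (n' + n₂) (by
        have e : D₁ + D₂ - T v s.a s.b = D₁ - T v s.a s.b + D₂ := by abel
        simpa [e] using h1)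
      omega
    · simp only [List.cons_append, List.cons.injEq] at hxy
      obtain ⟨rfl, rfl⟩ := hxy
      simp only [List.map_cons, List.cons_append] at hn'
      have h1 := Fill.pair huv (by simp) hh2 hn' hF2
      have h2 := hB ((u, ωa) :: (v, ω₁) :: x) E (y ++ (v, ωb) :: Q₂) (by simp) s hs hk (n' + n₂) (by
        have e : D₁ + D₂ - T E.1 s.a s.b = D₁ - T E.1 s.a s.b + D₂ := by abel
        simpa [e] using h1)
      omega
  · intro x E y E' z hxy s hs s' hs' hk hk' ha ha' hb n' hn'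
    rcases x with _ | ⟨e0, x⟩
    · simp only [List.nil_append, List.cons.injEq] at hxy
      obtain ⟨rfl, rfl⟩ := hxy
      rw [head?_append_ne _ hne1] at hs
      simp only [List.map_nil, List.nil_append] at hn'
      have h1 := Fill.pair huv (by simp) hh2 hn' hF2
      have h2 := hC [(u, ωa)] (v, ω₁) y E' (z ++ (v, ωb) :: Q₂) (by simp) s hs s' hs' hk hk' ha ha'
        hb (n' + n₂) (by simpa using h1)
      omega
    · simp only [List.cons_append, List.cons.injEq] at hxy
      obtain ⟨rfl, rfl⟩ := hxy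
      simp only [List.map_cons, List.cons_append] at hn'
      have h1 := Fill.pair huv (by simp) hh2 hn' hF2
      have h2 := hC ((u, ωa) :: (v, ω₁) :: x) E y E' (z ++ (v, ωb) :: Q₂) (by simp) s hs s' hs'
        hk hk' ha ha' hb (n' + n₂) (by simpa using h1)
      omega

/-- the `pair` step, piece at `u` -/
theorem pair_right (hT : TriOK adj T) {u v : V} (huv : adj u v)
    {ωa ωb ω₂ : List (Stp V)} {Q₁ Q₂ : List (V × List (Stp V))}
    {D₁ D₂ : A} {n₁ n₂ : ℕ} (hF1 : Fill adj T (Q₁.map Prod.fst) D₁ n₁)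
    (hh1 : ∀ x ∈ (Q₁.map Prod.fst).head?, x = v)
    (hS : StOK adj ang ((u, ωa) :: (Q₁ ++ (v, ωb) :: (u, ω₂) :: Q₂)))
    (hM : ∀ n', Fill adj T (u :: (Q₁.map Prod.fst ++ v :: u :: Q₂.map Prod.fst)) (D₁ + D₂) n' →
      n₁ + n₂ ≤ n')
    (hB : InvB adj T ((u, ωa) :: (Q₁ ++ (v, ωb) :: (u, ω₂) :: Q₂)) (D₁ + D₂) (n₁ + n₂))
    (hC : InvC adj T ((u, ωa) :: (Q₁ ++ (v, ωb) :: (u, ω₂) :: Q₂)) (D₁ + D₂) (n₁ + n₂))
    (hnv : ∀ s ∈ ωa.head?, s.a = v)
    (hlab : ∀ s ∈ ωa.head?, ∀ s' ∈ ωb.head?, s.k = 0 → s'.k = 0 → s.b ≠ s'.b) :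
    StOK adj ang ((u, ω₂ ++ ωa) :: Q₂) ∧
    (∀ n', Fill adj T (u :: Q₂.map Prod.fst) D₂ n' → n₂ ≤ n') ∧
    InvB adj T ((u, ω₂ ++ ωa) :: Q₂) D₂ n₂ ∧
    InvC adj T ((u, ω₂ ++ ωa) :: Q₂) D₂ n₂ := by
  have hSa := hS.1 (u, ωa) (by simp)
  have hS2 := hS.1 (u, ω₂) (by simp)
  have hSb := hS.1 (v, ωb) (by simp)
  have hne2 : ω₂ ≠ [] := hS2.1
  have hneb : ωb ≠ [] := hSb.1
  have hnea : ωa ≠ [] := hSa.1
  have hchain := cyc_mp _ _ hS.2
  have hch1 : ((u, ω₂) :: (Q₂ ++ [(u, ωa)])).IsChain (Nxt adj) := by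
    refine chain_mid hchain ⟨(u, ωa) :: (Q₁ ++ [(v, ωb)]), [], ?_⟩
    simp
  have hNb2 : Nxt adj (v, ωb) (u, ω₂) := by
    have : [(v, ωb), (u, ω₂)].IsChain (Nxt adj) := by
      refine chain_mid hchain ⟨(u, ωa) :: Q₁, Q₂ ++ [(u, ωa)], ?_⟩
      simp
    simpa using this
  refine ⟨⟨?_, ?_⟩, ?_, ?_, ?_⟩
  · intro E hE
    rcases List.mem_cons.1 hE with rfl | hE
    · refine ⟨by simp [hne2], ?_, ?_⟩
      · rw [List.isChain_append]
        refine ⟨hS2.2.1, hSa.2.1, ?_⟩
        intro t ht s0 hs0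
        obtain ⟨s', w', rfl⟩ := List.exists_cons_of_ne_nil hneb
        have h1 := hNb2.2 s' (by simp) t ht
        refine ⟨?_, fun hk hk' => ?_⟩
        · rw [h1.2.1, hnv s0 hs0]
        · have hk0 := h1.2.2.1.2 hk
          rw [← h1.2.2.2 hk0]
          exact (hlab s0 hs0 s' (by simp) hk' hk0).symm
      · intro s hs
        rcases List.mem_append.1 hs with hs | hs
        · exact hS2.2.2 s hs
        · exact hSa.2.2 s hs
    · exact hS.1 E (by simp [hE])
  · have hQ : Q₂ ≠ [] := by
      rintro rfl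
      simp only [List.nil_append, List.isChain_cons_cons] at hch1
      exact hT.irr _ hch1.1.1
    apply cyc_mpr _ _ hQ
    have h2 := chain_head (R := Nxt adj) (a := (u, ω₂)) (a' := (u, ω₂ ++ ωa))
      (fun b => nxt_head (E := (u, ω₂)) (E' := (u, ω₂ ++ ωa)) rfl
        (head?_append_ne _ hne2) b) hch1
    rw [← List.cons_append] at h2
    exact chain_last (R := Nxt adj) (l := (u, ω₂ ++ ωa) :: Q₂)
      (a := (u, ωa)) (a' := (u, ω₂ ++ ωa))
      (fun b => nxt_last (E := (u, ωa)) (E' := (u, ω₂ ++ ωa)) rfl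
        (getLast?_append_ne _ hnea) b) h2
  · intro n' h
    have := hM (n₁ + n') (Fill.pair huv hh1 (by simp) hF1 h)
    omega
  · intro x E y hxy s hs hk n' hn'
    rcases x with _ | ⟨e0, x⟩
    · simp only [List.nil_append, List.cons.injEq] at hxy
      obtain ⟨rfl, rfl⟩ := hxy
      rw [head?_append_ne _ hne2] at hs
      simp only [List.map_nil, List.nil_append] at hn'
      have h1 := Fill.pair huv hh1 (by simp) hF1 hn'
      have h2 := hB ((u, ωa) :: (Q₁ ++ [(v, ωb)])) (u, ω₂) Q₂ (by simp) s hs hk (n₁ + n') (by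
        have e : D₁ + D₂ - T u s.a s.b = D₁ + (D₂ - T u s.a s.b) := by abel
        simpa [e] using h1)
      omega
    · simp only [List.cons_append, List.cons.injEq] at hxy
      obtain ⟨rfl, rfl⟩ := hxy
      simp only [List.map_cons, List.cons_append] at hn'
      have h1 := Fill.pair huv hh1 (by simp) hF1 hn'
      have h2 := hB ((u, ωa) :: (Q₁ ++ (v, ωb) :: (u, ω₂) :: x)) E y (by simp) s hs hk (n₁ + n') (by
        have e : D₁ + D₂ - T E.1 s.a s.b = D₁ + (D₂ - T E.1 s.a s.b) := by abel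
        simpa [e] using h1)
      omega
  · intro x E y E' z hxy s hs s' hs' hk hk' ha ha' hb n' hn'
    rcases x with _ | ⟨e0, x⟩
    · simp only [List.nil_append, List.cons.injEq] at hxy
      obtain ⟨rfl, rfl⟩ := hxy
      rw [head?_append_ne _ hne2] at hs
      simp only [List.map_nil, List.nil_append] at hn'
      have h1 := Fill.pair huv hh1 (by simp) hF1 hn'
      have h2 := hC ((u, ωa) :: (Q₁ ++ [(v, ωb)])) (u, ω₂) y E' z (by simp) s hs s' hs' hk hk' ha ha'
        hb (n₁ + n') (by simpa using h1)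
      omega
    · simp only [List.cons_append, List.cons.injEq] at hxy
      obtain ⟨rfl, rfl⟩ := hxy
      simp only [List.map_cons, List.cons_append] at hn'
      have h1 := Fill.pair huv hh1 (by simp) hF1 hn'
      have h2 := hC ((u, ωa) :: (Q₁ ++ (v, ωb) :: (u, ω₂) :: x)) E y E' z (by simp) s hs s' hs'
        hk hk' ha ha' hb (n₁ + n') (by simpa using h1)
      omega

/-- the labels at an edge passed in both directions are different -/
theorem pair_lab (hT : TriOK adj T) {u v : V} {ωa ωb : List (Stp V)}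
    {Q₁ Q₂ : List (V × List (Stp V))} {D₁ D₂ : A} {n₁ n₂ : ℕ} 
    (hh1 : ∀ x ∈ (Q₁.map Prod.fst).head?, x = v)
    (hh2 : ∀ x ∈ (Q₂.map Prod.fst).head?, x = u) (hF1 : Fill adj T (Q₁.map Prod.fst) D₁ n₁)
    (hF2 : Fill adj T (Q₂.map Prod.fst) D₂ n₂)
    (hS : StOK adj ang ((u, ωa) :: (Q₁ ++ (v, ωb) :: Q₂)))
    (hC : InvC adj T ((u, ωa) :: (Q₁ ++ (v, ωb) :: Q₂)) (D₁ + D₂) (n₁ + n₂))
    (hnv : ∀ s ∈ ωa.head?, s.a = v) (hnu : ∀ s ∈ ωb.head?, s.a = u) :
    ∀ s ∈ ωa.head?, ∀ s' ∈ ωb.head?, s.k = 0 → s'.k = 0 → s.b ≠ s'.b := by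
  intro s hs s' hs' hk hk' hb
  have hsa : s ∈ ωa := List.mem_of_mem_head? hs
  have h1 : TStp adj u s := by
    rcases (hS.1 (u, ωa) (by simp)).2.2 s hsa with h | h | h
    · exact h
    · exact absurd (h.1.symm.trans hk) (by norm_num)
    · exact absurd (h.symm.trans hk) (by norm_num)
  obtain ⟨-, h2, h3, h4⟩ := h1
  have ev := hnv s hs
  have eu := hnu s' hs'
  rw [ev] at h2 h4
  have i1 := Fill.pair (hT.symm _ _ h4) hh1 (by simp) hF1 Fill.nil
  have i2 := Fill.pair h3 (by simp) hh2 i1 hF2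
  have := hC [] (u, ωa) Q₁ (v, ωb) Q₂ rfl s hs s' hs' hk hk' ev eu hb (n₁ + n₂) (by
    rw [← hb]
    simpa using i2)
  omega

theorem gb_main (hCLO : Stmt_CLO) (hTRI : Stmt_FTRI) (hBR : Stmt_FBR) (hT : TriOK adj T)
    (hN : NPC adj ang ε) {l : List V} {D : A} {n : ℕ} (hF : Fill adj T l D n) :
    ∀ Q : List (V × List (Stp V)), Q.map Prod.fst = l → Q ≠ [] → StOK adj ang Q →
      (∀ n', Fill adj T l D n' → n ≤ n') → InvB adj T Q D n → InvC adj T Q D n →
      (∀ (D' : A) (n' : ℕ), n' ≤ n → Fill adj T [] D' n' → D' = 0) →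
      (Q.map (fun E => 1 - wts ang E.1 E.2)).sum + ε * n ≤ -2 := by
  induction hF with
  | nil => intro Q h1 h2; exact absurd (List.map_eq_nil_iff.1 h1) h2
  | sph _ _ _ => intro Q h1 h2; exact absurd (List.map_eq_nil_iff.1 h1) h2
  | @pair u v P₁ P₂ D₁ D₂ n₁ n₂ huv hh1 hh2 hF1 hF2 ih1 ih2 =>
    intro Q hQ hne hS hM hB hC hsph
    have hvu := hT.symm _ _ huv
    -- decompose `Q`
    obtain ⟨⟨a, ωa⟩, R, rfl, ha, hR⟩ := List.map_eq_cons_iff.1 hQ
    obtain ⟨Q₁, R₂, rfl, hQ1, hR2⟩ := List.map_eq_append_iff.1 hR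
    obtain ⟨⟨b, ωb⟩, Q₂, rfl, hb, hQ2⟩ := List.map_eq_cons_iff.1 hR2
    simp only at ha hb
    subst ha hb hQ1 hQ2
    have hchain := cyc_mp _ _ hS.2
    have hSa := hS.1 (a, ωa) (by simp)
    have hSb := hS.1 (b, ωb) (by simp)
    have hnea : ωa ≠ [] := hSa.1
    have hneb : ωb ≠ [] := hSb.1
    -- next vertices
    have hnv : ∀ s ∈ ωa.head?, s.a = b := by
      intro s hs
      rcases Q₁ with _ | ⟨⟨e, ω₁⟩, Q₁⟩
      · simp only [List.nil_append, List.cons_append, List.isChain_cons_cons] at hchain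
        obtain ⟨t, ht⟩ := getLast?_some hneb
        exact (hchain.1.2 s hs t ht).1
      · have he : e = b := hh1 e (by simp)
        subst he
        have hS1 := hS.1 (e, ω₁) (by simp)
        obtain ⟨t, ht⟩ := getLast?_some hS1.1
        simp only [List.cons_append, List.isChain_cons_cons] at hchain
        exact (hchain.1.2 s hs t ht).1
    have hnu : ∀ s ∈ ωb.head?, s.a = a := by
      intro s hs
      rcases Q₂ with _ | ⟨⟨e, ω₂⟩, Q₂⟩
      · have : [(b, ωb), (a, ωa)].IsChain (Nxt adj) := by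
          refine chain_mid hchain ⟨(a, ωa) :: Q₁, [], ?_⟩
          simp
        obtain ⟨t, ht⟩ := getLast?_some hnea
        simp only [List.isChain_cons_cons] at this
        exact (this.1.2 s hs t ht).1
      · have he : e = a := hh2 e (by simp)
        subst he
        have : [(b, ωb), (e, ω₂)].IsChain (Nxt adj) := by
          refine chain_mid hchain ⟨(e, ωa) :: Q₁, Q₂ ++ [(e, ωa)], ?_⟩
          simp
        have hS1 := hS.1 (e, ω₂) (by simp)
        obtain ⟨t, ht⟩ := getLast?_some hS1.1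
        simp only [List.isChain_cons_cons] at this
        exact (this.1.2 s hs t ht).1
    have hlab := pair_lab hT hh1 hh2 hF1 hF2 hS hC hnv hnu
    -- left piece
    have hL : (Q₁ = [] ∧ n₁ = 0 ∧ 2 ≤ wts ang b ωb) ∨
        ∃ ω₁ Q₁', Q₁ = (b, ω₁) :: Q₁' ∧
          ((1 - (wts ang b ω₁ + wts ang b ωb)) +
            (Q₁'.map (fun E => 1 - wts ang E.1 E.2)).sum) + ε * n₁ ≤ -2 := by
      rcases Q₁ with _ | ⟨⟨e, ω₁⟩, Q₁⟩
      · left
        have h0 : D₁ = 0 := hsph D₁ n₁ (by omega) (by simpa using hF1)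
        refine ⟨rfl, ?_, ?_⟩
        · have := hM (0 + n₂) (by
            have i := Fill.pair (P₁ := []) huv (by simp) hh2 Fill.nil hF2
            rw [h0]; simpa using i)
          omega
        · apply hCLO V adj ang ε hN b ωb hSb
          intro t ht s' hs'
          simp only [List.nil_append, List.cons_append, List.isChain_cons_cons] at hchain
          obtain ⟨s0, w0, rfl⟩ := List.exists_cons_of_ne_nil hnea
          have h1 := hchain.1.2 s0 (by simp) t ht
          refine ⟨by rw [h1.2.1, hnu s' hs'], fun hk hk' => ?_⟩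
          have hk0 := h1.2.2.1.2 hk
          rw [← h1.2.2.2 hk0]
          exact hlab s0 (by simp) s' hs' hk0 hk'
      · right
        have he : e = b := hh1 e (by simp)
        subst he
        refine ⟨ω₁, Q₁, rfl, ?_⟩
        obtain ⟨j1, j2, j3, j4⟩ := pair_left hT huv hF2 hh2 hS (by simpa using hM) hB hC hnu hlab
        have := ih1 ((e, ω₁ ++ ωb) :: Q₁) (by simp) (by simp) j1 (by simpa using j2) j3 j4
          (fun D' n' hn' => hsph D' n' (by omega))
        simpa [wts_append] using this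
    have hRR : (Q₂ = [] ∧ n₂ = 0 ∧ 2 ≤ wts ang a ωa) ∨
        ∃ ω₂ Q₂', Q₂ = (a, ω₂) :: Q₂' ∧
          ((1 - (wts ang a ω₂ + wts ang a ωa)) +
            (Q₂'.map (fun E => 1 - wts ang E.1 E.2)).sum) + ε * n₂ ≤ -2 := by
      rcases Q₂ with _ | ⟨⟨e, ω₂⟩, Q₂⟩
      · left
        have h0 : D₂ = 0 := hsph D₂ n₂ (by omega) (by simpa using hF2)
        refine ⟨rfl, ?_, ?_⟩
        · have := hM (n₁ + 0) (by
            have i := Fill.pair (P₂ := []) huv hh1 (by simp) hF1 Fill.nil
            rw [h0]; simpa using i)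
          omega
        · apply hCLO V adj ang ε hN a ωa hSa
          intro t ht s0 hs0
          have : [(b, ωb), (a, ωa)].IsChain (Nxt adj) := by
            refine chain_mid hchain ⟨(a, ωa) :: Q₁, [], ?_⟩
            simp
          simp only [List.isChain_cons_cons] at this
          obtain ⟨s', w', rfl⟩ := List.exists_cons_of_ne_nil hneb
          have h1 := this.1.2 s' (by simp) t ht
          refine ⟨by rw [h1.2.1, hnv s0 hs0], fun hk hk' => ?_⟩
          have hk0 := h1.2.2.1.2 hk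
          rw [← h1.2.2.2 hk0]
          exact (hlab s0 hs0 s' (by simp) hk' hk0).symm
      · right
        have he : e = a := hh2 e (by simp)
        subst he
        refine ⟨ω₂, Q₂, rfl, ?_⟩
        obtain ⟨j1, j2, j3, j4⟩ := pair_right hT huv hF1 hh1 hS (by simpa using hM) hB hC hnv hlab
        have := ih2 ((e, ω₂ ++ ωa) :: Q₂) (by simp) (by simp) j1 (by simpa using j2) j3 j4
          (fun D' n' hn' => hsph D' n' (by omega))
        simpa [wts_append] using this
    rcases hL with ⟨rfl, rfl, hw1⟩ | ⟨ω₁, Q₁', rfl, hw1⟩ <;>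
    rcases hRR with ⟨rfl, rfl, hw2⟩ | ⟨ω₂, Q₂', rfl, hw2⟩ <;>
    simp only [List.map_append, List.map_cons, List.map_nil, List.nil_append, List.sum_cons,
      List.sum_append, List.sum_nil, Nat.cast_add, Nat.cast_zero, mul_zero, mul_add, zero_add,
      add_zero] <;> linarith
  | @tri u v c q D₀ n₀ huv huc hcv hF ih =>
    intro Q hQ hne hS hM hB hC hsph
    obtain ⟨⟨a, ω₀⟩, R, rfl, ha, hR⟩ := List.map_eq_cons_iff.1 hQ
    obtain ⟨⟨b, ω₁⟩, Q', rfl, hb, hQ'⟩ := List.map_eq_cons_iff.1 hR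
    simp only at ha hb
    subst ha hb hQ'
    obtain ⟨j1, j2, j3, j4⟩ := tri_state hT hTRI hBR huv huc hcv hF hS hM hB hC
    have := ih _ (by simp) (by simp) j1 j2 j3 j4 (fun D' n' hn' => hsph D' n' (by omega))
    have hsum := hN.sum a c b huc hcv huv
    simp only [List.map_cons, List.sum_cons, wts_cons, wts_append, wts_single, wt] at this ⊢
    push_cast
    simp only [if_true] at this
    simp only [wts, List.map_nil, List.sum_nil] at this ⊢
    linarith

end st

/-- block GB -/
theorem stmt_GB (hCLO : Stmt_CLO) (hTRI : Stmt_FTRI) (hBR : Stmt_FBR) : Stmt_GB := by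
  intro V A _ adj T ang ε hT hN Q D n hne hS hM hB hC hsph
  exact gb_main hCLO hTRI hBR hT hN hM.1 Q rfl hne hS hM.2 hB hC hsph

end Pool.HA
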