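import Pool.Agent.Work.MP_7084a3_h91.B.Pre35

set_option autoImplicit false

/-! # Block NOFX (helper35) -/

namespace Pool.HA

open Finset Pool.HA.H35

namespace H35

/-- labels of different generators -/
theorem lab_two {S : Type} (M : CoxeterMatrix S) (h0 : ∀ s t, M s t ≠ 0) {s t : S} (h : s ≠ t) :
    2 ≤ M s t := by
  have h1 := M.off_diagonal s t h
  have h2 := h0 s t
  have h3 : M.M s t ≠ 1 := h1
  change 2 ≤ M.M s t
  change M.M s t ≠ 0 at h2
  omega

theorem cos_nonneg' (n : ℕ) (h : 2 ≤ n) : 0 ≤ Real.cos (Real.pi / n) := by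
  apply Real.cos_nonneg_of_mem_Icc
  have hp := Real.pi_pos
  have hn : (2 : ℝ) ≤ n := by exact_mod_cast h
  constructor
  · have : 0 ≤ Real.pi / n := by positivity
    linarith
  · exact div_le_div_of_nonneg_left hp.le (by norm_num) hn

theorem cos_lt_one' (n : ℕ) (h : 2 ≤ n) : Real.cos (Real.pi / n) < 1 := by
  have hp := Real.pi_pos
  have hn : (2 : ℝ) ≤ n := by exact_mod_cast h
  rw [← Real.cos_zero]
  apply Real.cos_lt_cos_of_nonneg_of_le_pi le_rfl
  · exact div_le_self hp.le (by linarith)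
  · positivity

theorem cos_pos' (n : ℕ) (h : 3 ≤ n) : 0 < Real.cos (Real.pi / n) := by
  apply Real.cos_pos_of_mem_Ioo
  have hp := Real.pi_pos
  have hn : (3 : ℝ) ≤ n := by exact_mod_cast h
  constructor
  · have : 0 ≤ Real.pi / n := by positivity
    linarith
  · exact div_lt_div_of_pos_left hp (by norm_num) (by linarith)

/-- the finite set of roots on which `x` vanishes -/
theorem fin_zero {S : Type} [Fintype S] [DecidableEq S] {M : CoxeterMatrix S}
    {ρ : M.Group →* Module.End ℝ (S → ℝ)} (hP : Stmt_POS) (hM : ∀ s t, M s t ≠ 0)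
    (hr : IsRep M ρ) (F : FB M ρ) {x : (S → ℝ) →ₗ[ℝ] ℝ} (hx : x ∈ UC M ρ) :
    {v | IsRt M ρ v ∧ x v = 0}.Finite := by
  have h1 : {v | IsPR M ρ v ∧ x v ≤ 0}.Finite := hx
  refine (h1.union (h1.image fun v => -v)).subset ?_
  rintro v ⟨h2, h3⟩
  rcases root_pm hP hM hr F h2 with h4 | h4
  · exact Or.inl ⟨h4, h3.le⟩
  · refine Or.inr ⟨-v, ⟨h4, ?_⟩, neg_neg v⟩
    rw [map_neg, h3, neg_zero]

/-- the key computation: the invariant positive form on the span of three roots on which `x`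
vanishes is a multiple of `bf` -/
theorem q_form {S : Type} [Fintype S] [DecidableEq S] {M : CoxeterMatrix S}
    {ρ : M.Group →* Module.End ℝ (S → ℝ)} (F : FB M ρ) (Ψ : Finset (S → ℝ))
    (hΨ : ∀ r v, IsRf M ρ r v → v ∈ Ψ → ∀ w ∈ Ψ, ρ r w ∈ Ψ) :
    ∃ q : (S → ℝ) → (S → ℝ) → ℝ, (∀ v w, q v w = q w v) ∧ (∀ v, 0 ≤ q v v) ∧
      (∀ (a b : ℝ) v v' w, q (a • v + b • v') w = a * q v w + b * q v' w) ∧
      (∀ r v, IsRf M ρ r v → v ∈ Ψ → 1 ≤ q v v ∧ ∀ w, q w v = bf M w v * q v v) := by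
  refine ⟨fun v w => ∑ ψ ∈ Ψ, bf M v ψ * bf M w ψ, ?_, ?_, ?_, ?_⟩
  · intro v w
    exact sum_congr rfl fun ψ _ => mul_comm _ _
  · intro v
    exact sum_nonneg fun ψ _ => mul_self_nonneg _
  · intro a b v v' w
    dsimp only
    rw [mul_sum, mul_sum, ← sum_add_distrib]
    apply sum_congr rfl
    intro ψ _
    rw [F.lin]
    ring
  · intro r v hrv hv
    have hinv : ∀ u w, ∑ ψ ∈ Ψ, bf M (ρ r u) ψ * bf M (ρ r w) ψ =
        ∑ ψ ∈ Ψ, bf M u ψ * bf M w ψ := by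
      intro u w
      apply sum_nbij' (fun ψ => ρ r ψ) (fun ψ => ρ r ψ)
      · exact fun ψ hψ => hΨ r v hrv hv ψ hψ
      · exact fun ψ hψ => hΨ r v hrv hv ψ hψ
      · intro ψ _
        rw [← mul_app, FB.rf_sq hrv, one_app]
      · intro ψ _
        rw [← mul_app, FB.rf_sq hrv, one_app]
      · intro ψ _
        rw [F.rf_adj hrv, F.rf_adj hrv]
    constructor
    · have h1 := F.rf_nrm hrv
      calc (1 : ℝ) = bf M v v * bf M v v := by rw [h1]; norm_num
        _ ≤ ∑ ψ ∈ Ψ, bf M v ψ * bf M v ψ :=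
          single_le_sum (f := fun ψ => bf M v ψ * bf M v ψ) (fun ψ _ => mul_self_nonneg _) hv
    · intro w
      have h1 := hinv w v
      rw [F.rf_neg hrv, F.rfx r v hrv w] at h1
      have h2 : ∀ ψ, bf M (w - (2 * bf M w v) • v) ψ * bf M (-v) ψ =
          -(bf M w ψ * bf M v ψ) + 2 * bf M w v * (bf M v ψ * bf M v ψ) := by
        intro ψ
        rw [F.sub_left, F.smul_left, F.neg_left]
        ring
      rw [sum_congr rfl fun ψ _ => h2 ψ, sum_add_distrib, sum_neg_distrib, ← mul_sum] at h1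
      dsimp only
      linarith

end H35

/-- NOFX -/
theorem stmt_NOFX (hG : Stmt_GRAM) (hB : Stmt_BFI) (hP : Stmt_POS) : Stmt_NOFX := by
  intro S S' _ _ _ _ M M' ρ ρ' ψ β hW hbf a b c hab hbc hac x hx ⟨xa, xb, xc⟩
  have F := FB.of hB hW.rep'
  have hfin := fin_zero hP hW.hM'.ne_zero hW.rep' F hx
  obtain ⟨Ψ, hΨ⟩ : ∃ Ψ : Finset (S' → ℝ), ∀ v, v ∈ Ψ ↔ IsRt M' ρ' v ∧ x v = 0 :=
    ⟨hfin.toFinset, fun v => by simp⟩
  obtain ⟨q, qs, qp, ql, qr⟩ := q_form F Ψ (by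
    intro r v hrv hv w hw
    rw [hΨ] at hv hw ⊢
    refine ⟨FB.act_rt hw.1 r, ?_⟩
    rw [F.rfx r v hrv, map_sub, map_smul, hv.2, hw.2, smul_zero, sub_zero])
  have hin : ∀ s, x (β s) = 0 → β s ∈ Ψ := fun s h => (hΨ _).mpr ⟨F.rf_rt (hW.refl s), h⟩
  obtain ⟨ka, qa⟩ := qr _ _ (hW.refl a) (hin a xa)
  obtain ⟨kb, qb⟩ := qr _ _ (hW.refl b) (hin b xb)
  obtain ⟨kc, qc⟩ := qr _ _ (hW.refl c) (hin c xc)
  have lab := fun s t (h : s ≠ t) => lab_two M hW.hM.ne_zero h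
  obtain ⟨p, hp⟩ : ∃ p, p = Real.cos (Real.pi / M a b) := ⟨_, rfl⟩
  obtain ⟨q', hq'⟩ : ∃ q', q' = Real.cos (Real.pi / M a c) := ⟨_, rfl⟩
  obtain ⟨r, hr⟩ : ∃ r, r = Real.cos (Real.pi / M b c) := ⟨_, rfl⟩
  have gab : bf M' (β a) (β b) = -p := by rw [hp]; exact hbf a b hab
  have gac : bf M' (β a) (β c) = -q' := by rw [hq']; exact hbf a c hac
  have gbc : bf M' (β b) (β c) = -r := by rw [hr]; exact hbf b c hbc
  have gba : bf M' (β b) (β a) = -p := by rw [F.sym, gab]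
  have gca : bf M' (β c) (β a) = -q' := by rw [F.sym, gac]
  have gcb : bf M' (β c) (β b) = -r := by rw [F.sym, gbc]
  have gaa := F.rf_nrm (hW.refl a)
  have gbb := F.rf_nrm (hW.refl b)
  have gcc := F.rf_nrm (hW.refl c)
  -- equal norms
  have eab : p ≠ 0 → q (β a) (β a) = q (β b) (β b) := by
    intro h
    have h1 := qa (β b)
    have h2 := qb (β a)
    rw [qs, h2, gab, gba] at h1
    exact mul_left_cancel₀ (neg_ne_zero.mpr h) h1.symm
  have eac : q' ≠ 0 → q (β a) (β a) = q (β c) (β c) := by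
    intro h
    have h1 := qa (β c)
    have h2 := qc (β a)
    rw [qs, h2, gac, gca] at h1
    exact mul_left_cancel₀ (neg_ne_zero.mpr h) h1.symm
  have ebc : r ≠ 0 → q (β b) (β b) = q (β c) (β c) := by
    intro h
    have h1 := qb (β c)
    have h2 := qc (β b)
    rw [qs, h2, gbc, gcb] at h1
    exact mul_left_cancel₀ (neg_ne_zero.mpr h) h1.symm
  have hsum := hW.hM.hyp a b c hab hbc hac
  have l1 := lab a b hab
  have l2 := lab a c hac
  have l3 := lab b c hbc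
  have n0 : ∀ n : ℕ, 2 ≤ n → Real.cos (Real.pi / n) = 0 → n = 2 := by
    intro n hn h
    by_contra h2
    exact absurd h (cos_pos' n (by omega)).ne'
  have hpos : ∀ n : ℕ, 2 ≤ n → (0 : ℚ) < 1 / n := by
    intro n hn
    have : (0 : ℚ) < n := by exact_mod_cast (show 0 < n by omega)
    positivity
  have half : ∀ n : ℕ, n = 2 → (1 : ℚ) / n = 1 / 2 := by
    intro n hn
    rw [hn]
    norm_num
  have two : ¬ (p = 0 ∧ q' = 0) ∧ ¬ (p = 0 ∧ r = 0) ∧ ¬ (q' = 0 ∧ r = 0) := by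
    refine ⟨?_, ?_, ?_⟩
    · rintro ⟨h1, h2⟩
      have e1 := n0 _ l1 (by rw [← hp]; exact h1)
      have e2 := n0 _ l2 (by rw [← hq']; exact h2)
      have e3 := half _ e1
      have e4 := half _ e2
      have := hpos _ l3
      linarith
    · rintro ⟨h1, h2⟩
      have e1 := n0 _ l1 (by rw [← hp]; exact h1)
      have e2 := n0 _ l3 (by rw [← hr]; exact h2)
      have e3 := half _ e1
      have e4 := half _ e2
      have := hpos _ l2
      linarith
    · rintro ⟨h1, h2⟩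
      have e1 := n0 _ l2 (by rw [← hq']; exact h1)
      have e2 := n0 _ l3 (by rw [← hr]; exact h2)
      have e3 := half _ e1
      have e4 := half _ e2
      have := hpos _ l1
      linarith
  obtain ⟨κ, hκ⟩ : ∃ κ, κ = q (β a) (β a) := ⟨_, rfl⟩
  have kab : q (β b) (β b) = κ := by
    rw [hκ]
    by_cases h : p = 0
    · have h1 : q' ≠ 0 := fun h2 => two.1 ⟨h, h2⟩
      have h2 : r ≠ 0 := fun h2 => two.2.1 ⟨h, h2⟩
      rw [eac h1, ebc h2]
    · exact (eab h).symm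
  have kac : q (β c) (β c) = κ := by
    rw [hκ]
    by_cases h : q' = 0
    · have h1 : p ≠ 0 := fun h2 => two.1 ⟨h2, h⟩
      have h2 : r ≠ 0 := fun h2 => two.2.2 ⟨h, h2⟩
      rw [eab h1, ebc h2]
    · exact (eac h).symm
  rw [← hκ] at ka qa
  rw [kab] at qb
  rw [kac] at qc
  -- the test vector
  obtain ⟨v, hv⟩ : ∃ v : S' → ℝ, v = (1 - r ^ 2) • β a + (1 : ℝ) • ((p + q' * r) • β b +
    (q' + p * r) • β c) := ⟨_, rfl⟩
  have bv : ∀ w, bf M' v w = (1 - r ^ 2) * bf M' (β a) w + (p + q' * r) * bf M' (β b) w +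
      (q' + p * r) * bf M' (β c) w := by
    intro w
    rw [hv, F.lin, F.lin]
    ring
  have qv : ∀ w, q v w = (1 - r ^ 2) * q (β a) w + (p + q' * r) * q (β b) w +
      (q' + p * r) * q (β c) w := by
    intro w
    rw [hv, ql, ql]
    ring
  have det : 1 - 2 * p * q' * r - p ^ 2 - q' ^ 2 - r ^ 2 < 0 := by
    have h1 := hG (M a b) (M a c) (M b c) l1 l2 l3 (by
      have : (1 : ℚ) / M a b + 1 / M a c + 1 / M b c =
        1 / M a b + 1 / M b c + 1 / M a c := by ring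
      rw [this]
      exact hsum)
    rw [← hp, ← hq', ← hr] at h1
    linarith
  have b1 : bf M' v (β a) = 1 - 2 * p * q' * r - p ^ 2 - q' ^ 2 - r ^ 2 := by
    rw [bv, gaa, gba, gca]
    ring
  have b2 : bf M' v (β b) = 0 := by
    rw [bv, gab, gbb, gcb]
    ring
  have b3 : bf M' v (β c) = 0 := by
    rw [bv, gac, gbc, gcc]
    ring
  have h1 : q v v = κ * (1 - r ^ 2) * (1 - 2 * p * q' * r - p ^ 2 - q' ^ 2 - r ^ 2) := by
    rw [qv v, qs (β a) v, qs (β b) v, qs (β c) v, qa v, qb v, qc v, b1, b2, b3]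
    ring
  have h2 := qp v
  have hr1 : r < 1 := by rw [hr]; exact cos_lt_one' _ l3
  have hr0 : 0 ≤ r := by rw [hr]; exact cos_nonneg' _ l3
  have h3 : 0 < κ * (1 - r ^ 2) := by
    apply mul_pos (by linarith)
    nlinarith
  have h4 := mul_neg_of_pos_of_neg h3 det
  linarith

end Pool.HA
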