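import Pool.Agent.Work.MP_7084a3_h91.InterfaceF
import Pool.Agent.Work.MP_7084a3_h91.InterfaceX

set_option autoImplicit false

namespace Pool.HA

namespace X1h

section
variable {G S : Type} [Group G] {g : S → G}

lemma mem_smul (a x : G) (v : Vtx g) (h : v.mem x) : (a • v).mem (a * x) := by
  have h1 : (QuotientGroup.mk x : G ⧸ par g v.1.1) = v.2 := h
  change (QuotientGroup.mk (a * x) : G ⧸ par g v.1.1) = a • v.2
  rw [← h1]; rfl

lemma ad_smul (a : G) (v w : Vtx g) (h : v.ad w) : (a • v).ad (a • w) := by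
  obtain ⟨⟨x, h1, h2⟩, h3⟩ := h
  exact ⟨⟨a * x, mem_smul a x v h1, mem_smul a x w h2⟩, h3⟩

lemma ad_smul_iff (a : G) (v w : Vtx g) : (a • v).ad (a • w) ↔ v.ad w := by
  refine ⟨fun h => ?_, ad_smul a v w⟩
  have := ad_smul a⁻¹ _ _ h
  rwa [inv_smul_smul, inv_smul_smul] at this

lemma ty0 (a : G) (v : Vtx g) (hv : v.ty = 0) (h : a • v = v) : a = 1 := by
  obtain ⟨⟨J, hJ⟩, q⟩ := v
  have hJ0 : J = ∅ := Finset.card_eq_zero.mp hv
  subst hJ0
  induction q using QuotientGroup.induction_on with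
  | H y =>
    have h1 : (⟨⟨∅, hJ⟩, (QuotientGroup.mk (a * y) : G ⧸ par g ∅)⟩ : Vtx g) =
        ⟨⟨∅, hJ⟩, (QuotientGroup.mk y : G ⧸ par g ∅)⟩ := h
    have h2 := eq_of_heq (Sigma.mk.inj h1).2
    rw [QuotientGroup.eq] at h2
    have h3 : par g ∅ = ⊥ := by simp [par]
    rw [h3, Subgroup.mem_bot] at h2
    have h4 : a * y = y := by
      have := eq_of_inv_mul_eq_one h2
      exact this
    simpa using h4

/-- chains of edges supported on adjacent pairs -/
def SA (g : S → G) : AddSubgroup (C1 g) where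
  carrier := {c | ∀ e : Vtx g × Vtx g, ¬ e.1.ad e.2 → c e = 0}
  zero_mem' := fun _ _ => rfl
  add_mem' := by
    intro a b ha hb e he
    rw [Finsupp.add_apply, ha e he, hb e he, add_zero]
  neg_mem' := by
    intro a ha e he
    rw [Finsupp.neg_apply, ha e he, neg_zero]

lemma ad_symm {x y : Vtx g} (h : x.ad y) : y.ad x := by
  obtain ⟨⟨z, h1, h2⟩, h3⟩ := h
  exact ⟨⟨z, h2, h1⟩, h3.symm⟩

lemma dl1_mem {x y : Vtx g} (h : x.ad y) : dl1 x y ∈ SA g := by
  classical
  intro e he
  unfold dl1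
  split_ifs with h1
  · rw [Finsupp.single_apply, if_neg]
    rintro rfl
    exact he h
  · rfl

lemma EE_mem {x y : Vtx g} (h : x.ad y) : EE x y ∈ SA g :=
  (SA g).sub_mem (dl1_mem h) (dl1_mem (ad_symm h))

lemma wch_mem : ∀ l : List (Vtx g), l.IsChain Vtx.ad → wch l ∈ SA g := by
  intro l
  induction l with
  | nil => intro _; exact (SA g).zero_mem
  | cons x l ih =>
    intro h
    rcases l with _ | ⟨y, l⟩
    · exact (SA g).zero_mem
    · rw [List.isChain_cons_cons] at h
      exact (SA g).add_mem (EE_mem h.1) (ih h.2)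

lemma bd2_mem (D : C2 g) (hD : Flagged D) : bd2 g D ∈ SA g := by
  have e1 : bd2 g D = D.sum (fun t a => a • (EE t.1 t.2.1 + EE t.2.1 t.2.2 + EE t.2.2 t.1)) := rfl
  rw [e1, Finsupp.sum]
  refine (SA g).sum_mem ?_
  intro t ht
  obtain ⟨_, _, _, a1, a2, a3⟩ := hD t ht
  exact (SA g).zsmul_mem ((SA g).add_mem ((SA g).add_mem (EE_mem a1) (EE_mem a2))
    (EE_mem (ad_symm a3))) _

lemma bd1_eq (E : C1 g) : bd1 g E =
    E.sum fun p a => a • (Finsupp.single p.2 (1 : ℤ) - Finsupp.single p.1 1) := rfl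

lemma flagged_zero : Flagged (0 : C2 g) := by
  intro t ht
  simp at ht

lemma flagged_sum (hACT : ∀ D D' : C2 g, Flagged D → Flagged D' → Flagged (D + D'))
    (F : ℕ → C2 g) (hF : ∀ i, Flagged (F i)) : ∀ N : ℕ, Flagged (∑ i ∈ Finset.range N, F i) := by
  intro N
  induction N with
  | zero => simpa using flagged_zero
  | succ N ih =>
    rw [Finset.sum_range_succ]
    exact hACT _ _ ih (hF N)

lemma common_power {X : Type} [MulAction G X] (h : G) (F : Finset X)
    (hF : ∀ e ∈ F, ∃ k : ℕ, 0 < k ∧ h ^ k • e = e) :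
    ∃ K : ℕ, 0 < K ∧ ∀ e ∈ F, h ^ K • e = e := by
  classical
  induction F using Finset.induction_on with
  | empty => exact ⟨1, one_pos, by simp⟩
  | insert a F ha ih =>
    obtain ⟨K, hK, h1⟩ := ih (fun e he => hF e (Finset.mem_insert_of_mem he))
    obtain ⟨k, hk, h2⟩ := hF a (Finset.mem_insert_self a F)
    have hp : ∀ (x : G) (e : X), x • e = e → ∀ n : ℕ, x ^ n • e = e := by
      intro x e hx n
      induction n with
      | zero => simp
      | succ n ihn => rw [pow_succ, mul_smul, hx, ihn]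
    refine ⟨K * k, Nat.mul_pos hK hk, ?_⟩
    intro e he
    rcases Finset.mem_insert.mp he with rfl | he
    · rw [mul_comm, pow_mul]
      exact hp _ _ h2 _
    · rw [pow_mul]
      exact hp _ _ (h1 e he) _

end

/-- in a chain with different ends each element has a neighbour -/
lemma chain_nb {V : Type} (R : V → V → Prop) : ∀ (l : List V), l.IsChain R → 2 ≤ l.length →
    ∀ a ∈ l, ∃ b, R a b ∨ R b a := by
  intro l
  induction l with
  | nil => intro _ h; simp at h
  | cons x l ih =>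
    intro hc hl a ha
    rcases l with _ | ⟨y, l⟩
    · simp at hl
    · rw [List.isChain_cons_cons] at hc
      rcases List.mem_cons.mp ha with rfl | ha
      · exact ⟨y, Or.inl hc.1⟩
      · rcases l with _ | ⟨z, l⟩
        · have : a = y := by simpa using ha
          subst this
          exact ⟨x, Or.inr hc.1⟩
        · exact ih hc.2 (by simp) a ha

end X1h

theorem stmt_X1 (hXISO : Stmt_XISO) (hINJ2 : Stmt_INJ2) (hBD : Stmt_BD) (hBD1 : Stmt_BD1)
    (hCONN : Stmt_CONN) (hWCH : Stmt_WCH) (hACT : Stmt_ACT) (hZL : Stmt_ZL) (hZPER : Stmt_ZPER)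
    (hZG : Stmt_ZG) : Stmt_X1 := by
  intro S _ M hM h v w hinf hvw hv hw
  classical
  obtain ⟨C, hC⟩ := hXISO S M hM
  obtain ⟨γ, hγ⟩ := hCONN S M v w
  obtain ⟨W1, W2, W3, W4, W5⟩ := hWCH (Art M) S (gen M)
  obtain ⟨A1, A2, A3, A4, A5, A6, A7, A8, A9⟩ := hACT (Art M) S (gen M)
  have hp : ∀ (e : Vtx (gen M)), h • e = e → ∀ n : ℕ, h ^ n • e = e := by
    intro e hx n
    induction n with
    | zero => simp
    | succ n ihn => rw [pow_succ, mul_smul, hx, ihn]
  have hDN : ∀ N : ℕ, ∃ D : C2 (gen M), bd2 (gen M) D = wch γ - act1 (h ^ N) (wch γ) ∧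
      Flagged D ∧ nrm D ≤ C * (2 * γ.length) := by
    intro N
    obtain ⟨q1, q2⟩ := W4 (h ^ N) γ v w hγ
    rw [hp v hv, hp w hw] at q1
    obtain ⟨q3, q4⟩ := W3 γ (γ.map (fun v => h ^ N • v)) v w hγ q1
    rw [q2] at q4
    set l := γ.dropLast ++ (γ.map (fun v => h ^ N • v)).reverse.dropLast with hl
    have hl0 : l ≠ [] := by
      intro h0
      rw [hl] at h0
      have h1 := (List.append_eq_nil_iff.mp h0).1
      rcases hγl : γ with _ | ⟨x, γ'⟩
      · have := hγ.1; rw [hγl] at this; simp at this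
      · rcases γ' with _ | ⟨y, γ''⟩
        · have a1 := hγ.1; have a2 := hγ.2.1
          rw [hγl] at a1 a2
          simp only [List.head?_cons, Option.some.injEq] at a1
          simp only [List.getLast?_singleton, Option.some.injEq] at a2
          exact hvw (a1.symm.trans a2)
        · rw [hγl] at h1; simp at h1
    have hlen : l.length ≤ 2 * γ.length := by
      rw [hl, List.length_append, List.length_dropLast, List.length_dropLast, List.length_reverse,
        List.length_map]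
      omega
    have hPm : (l.map (fun v => (v, false))).map Prod.fst = l := by
      rw [List.map_map]; exact List.map_id l
    obtain ⟨_, D, n, hF, hn⟩ := hC (l.map (fun v => (v, false))) (by simpa using hl0)
      (by rw [hPm]; exact q3) (by
        intro x q y hxy hq
        have : q ∈ l.map (fun v => (v, false)) := by rw [hxy]; simp
        obtain ⟨z, _, hz⟩ := List.mem_map.mp this
        rw [← hz] at hq
        exact absurd hq Bool.false_ne_true)
    rw [hPm] at hF
    obtain ⟨b1, b2, b3⟩ := hBD (Art M) S (gen M) l D n hF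
    refine ⟨D, b1.trans q4, b2, b3.trans (hn.trans (Nat.mul_le_mul_left C ?_))⟩
    have : nns (l.map (fun v => (v, false))) ≤ (l.map (fun v => (v, false))).length :=
      List.countP_le_length
    rw [List.length_map] at this
    omega
  choose D hD1 hD2 hD3 using hDN
  have hsum : ∀ N : ℕ, D N = ∑ i ∈ Finset.range N, act2 (h ^ i) (D 1) := by
    intro N
    have hfs : Flagged (∑ i ∈ Finset.range N, act2 (h ^ i) (D 1)) :=
      X1h.flagged_sum (fun D D' a b => (A3 D D' a b).1) _ (fun i => (A1 (h ^ i) (D 1)).2.1 (hD2 1)) N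
    have h0 := hINJ2 S M hM (D N - ∑ i ∈ Finset.range N, act2 (h ^ i) (D 1))
      (A3 _ _ (hD2 N) hfs).2 (by
        rw [map_sub, map_sum, hD1 N]
        have e1 : ∀ i ∈ Finset.range N, bd2 (gen M) (act2 (h ^ i) (D 1)) =
            act1 (h ^ i) (wch γ) - act1 (h ^ (i + 1)) (wch γ) := by
          intro i _
          rw [(A1 (h ^ i) (D 1)).1, hD1 1, map_sub, pow_one, pow_succ, A5]
        rw [Finset.sum_congr rfl e1, Finset.sum_range_sub', pow_zero, A8, sub_self])
    exact sub_eq_zero.mp h0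
  -- the permutation on triples
  set σ : Equiv.Perm (Vtx (gen M) × Vtx (gen M) × Vtx (gen M)) := MulAction.toPerm h with hσ
  have hσk : ∀ k : ℤ, σ ^ k = MulAction.toPerm (h ^ k) := by
    intro k
    exact (map_zpow (MulAction.toPermHom (Art M) (Vtx (gen M) × Vtx (gen M) × Vtx (gen M))) h k).symm
  have hσn : ∀ k : ℕ, σ ^ k = MulAction.toPerm (h ^ k) := by
    intro k
    exact (map_pow (MulAction.toPermHom (Art M) (Vtx (gen M) × Vtx (gen M) × Vtx (gen M))) h k).symm
  have hmv : ∀ (x : Art M) (D : C2 (gen M)),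
      mv (MulAction.toPerm x : Equiv.Perm (Vtx (gen M) × Vtx (gen M) × Vtx (gen M))) D = act2 x D :=
    fun _ _ => rfl
  obtain ⟨P, hP1, hP2⟩ := hZL _ σ (D 1) (C * (2 * γ.length)) (by
      intro x hx k hk hxk
      rw [hσn] at hxk
      have h1 : h ^ k • x.1 = x.1 := congrArg Prod.fst hxk
      exact hinf k hk (X1h.ty0 _ _ (hD2 1 x hx).1 h1)) (by
      intro N
      have e1 : ∑ i ∈ Finset.range N, mv (σ ^ i) (D 1) = D N := by
        rw [hsum N]
        refine Finset.sum_congr rfl ?_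
        intro i _
        rw [hσn]; rfl
      rw [e1]
      exact hD3 N)
  have hPf : Flagged P := by
    intro t ht
    obtain ⟨k, hk⟩ := hP2 t ht
    rw [hσk] at hk
    obtain ⟨c0, c1, c2, c3, c4, c5⟩ := hD2 1 _ hk
    exact ⟨c0, c1, c2, (X1h.ad_smul_iff (h ^ k) _ _).mp c3, (X1h.ad_smul_iff (h ^ k) _ _).mp c4,
      (X1h.ad_smul_iff (h ^ k) _ _).mp c5⟩
  set E : C1 (gen M) := wch γ - bd2 (gen M) P with hE
  have hE1 : act1 h E = E := by
    have h1 : bd2 (gen M) (D 1) = bd2 (gen M) P - bd2 (gen M) (act2 h P) := by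
      rw [← map_sub, ← hmv h P, ← hσ, ← hP1]
    rw [hD1 1, pow_one, (A1 h P).1] at h1
    rw [hE, map_sub]
    have h2 : wch γ - act1 h (wch γ) - (bd2 (gen M) P - act1 h (bd2 (gen M) P)) = 0 := by
      rw [h1, sub_self]
    have h3 : (wch γ - bd2 (gen M) P) - (act1 h (wch γ) - act1 h (bd2 (gen M) P)) = 0 := by
      rw [← h2]; abel
    exact (sub_eq_zero.mp h3).symm
  have hE2 : bd1 (gen M) E = Finsupp.single w 1 - Finsupp.single v 1 := by
    rw [hE, map_sub, (hBD1 (Art M) S (gen M)).1 γ v w hγ, (hBD1 (Art M) S (gen M)).2 P hPf, sub_zero]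
  have hE3 : E ∈ X1h.SA (gen M) :=
    (X1h.SA (gen M)).sub_mem (X1h.wch_mem γ hγ.2.2) (X1h.bd2_mem P hPf)
  have hE4 : ∀ e ∈ E.support, e.1.ad e.2 := by
    intro e he
    by_contra hcon
    exact (Finsupp.mem_support_iff.mp he) (hE3 e hcon)
  have hmv1 : ∀ (x : Art M) (D : C1 (gen M)),
      mv (MulAction.toPerm x : Equiv.Perm (Vtx (gen M) × Vtx (gen M))) D = act1 x D :=
    fun _ _ => rfl
  clear_value E
  obtain ⟨K, hK, hKE⟩ := X1h.common_power h E.support (by
    intro e he
    obtain ⟨k, hk, hk2⟩ := hZPER _ (MulAction.toPerm h : Equiv.Perm (Vtx (gen M) × Vtx (gen M))) E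
      ((hmv1 h E).trans hE1) e he
    refine ⟨k, hk, ?_⟩
    have e1 : (MulAction.toPerm h : Equiv.Perm (Vtx (gen M) × Vtx (gen M))) ^ k =
        MulAction.toPerm (h ^ k) :=
      (map_pow (MulAction.toPermHom (Art M) (Vtx (gen M) × Vtx (gen M))) h k).symm
    rw [e1] at hk2
    exact hk2)
  rw [X1h.bd1_eq] at hE2
  obtain ⟨l, hl1, hl2, hl3⟩ := hZG (Vtx (gen M)) E v w hvw hE2
  refine ⟨K, hK, l, ⟨hl1, hl2, ?_⟩, ?_⟩
  · refine hl3.imp ?_
    intro a b hab
    rcases hab with hab | hab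
    · exact hE4 (a, b) hab
    · exact X1h.ad_symm (hE4 (b, a) hab)
  · intro a ha
    have hlen : 2 ≤ l.length := by
      rcases l with _ | ⟨x, l⟩
      · simp at hl1
      · rcases l with _ | ⟨y, l⟩
        · simp only [List.head?_cons, Option.some.injEq] at hl1
          simp only [List.getLast?_singleton, Option.some.injEq] at hl2
          exact absurd (hl1.symm.trans hl2) hvw
        · simp
    obtain ⟨b, hb⟩ := X1h.chain_nb _ l hl3 hlen a ha
    have e1 : ∀ p : Vtx (gen M) × Vtx (gen M), h ^ K • p = p → h ^ K • p.1 = p.1 :=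
      fun p hp => congrArg Prod.fst hp
    have e2 : ∀ p : Vtx (gen M) × Vtx (gen M), h ^ K • p = p → h ^ K • p.2 = p.2 :=
      fun p hp => congrArg Prod.snd hp
    rcases hb with (hb | hb) | (hb | hb)
    · exact e1 (a, b) (hKE (a, b) hb)
    · exact e2 (b, a) (hKE (b, a) hb)
    · exact e2 (b, a) (hKE (b, a) hb)
    · exact e1 (a, b) (hKE (a, b) hb)

end Pool.HA
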