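import Pool.Agent.Work.MP_7084a3_h91.InterfaceF

/-! # Block ZG (helper55) -/

set_option autoImplicit false

namespace Pool.HA

theorem stmt_ZG : Stmt_ZG := by
  classical
  intro V E v w hvw h
  set R : V → V → Prop := fun a b => (a, b) ∈ E.support ∨ (b, a) ∈ E.support with hR
  have hw : Relation.ReflTransGen R v w := by
    by_contra hw
    let φ : (V →₀ ℤ) →+ ℤ := Finsupp.liftAddHom
      (fun y => if Relation.ReflTransGen R v y then AddMonoidHom.id ℤ else 0)
    have hφ : ∀ (y : V) (a : ℤ), φ (Finsupp.single y a) =
        if Relation.ReflTransGen R v y then a else 0 := by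
      intro y a
      have : φ (Finsupp.single y a) =
          (if Relation.ReflTransGen R v y then AddMonoidHom.id ℤ else 0) a :=
        Finsupp.liftAddHom_apply_single _ _ _
      rw [this]
      by_cases hy : Relation.ReflTransGen R v y
      · rw [if_pos hy, if_pos hy]; rfl
      · rw [if_neg hy, if_neg hy]; rfl
    have h1 := congrArg φ h
    rw [map_sub, hφ, hφ, if_neg hw, if_pos Relation.ReflTransGen.refl, Finsupp.sum, map_sum] at h1
    have h2 : ∀ p ∈ E.support, φ (E p • (Finsupp.single p.2 (1 : ℤ) - Finsupp.single p.1 1)) = 0 := by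
      intro p hp
      rw [map_zsmul, map_sub, hφ, hφ]
      have h3 : Relation.ReflTransGen R v p.1 ↔ Relation.ReflTransGen R v p.2 := by
        constructor
        · intro h4; exact h4.tail (Or.inl hp)
        · intro h4; exact h4.tail (Or.inr hp)
      by_cases h5 : Relation.ReflTransGen R v p.1
      · rw [if_pos h5, if_pos (h3.1 h5), sub_self, smul_zero]
      · rw [if_neg h5, if_neg (fun h6 => h5 (h3.2 h6)), sub_self, smul_zero]
    rw [Finset.sum_eq_zero h2] at h1
    omega
  obtain ⟨l, hl, hl2⟩ := List.exists_isChain_cons_of_relationReflTransGen hw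
  refine ⟨v :: l, rfl, ?_, hl⟩
  rw [List.getLast?_eq_getLast_of_ne_nil (List.cons_ne_nil v l), hl2]

end Pool.HA
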