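import Pool.Agent.Work.MP_7084a3_h91.InterfaceX

set_option autoImplicit false

/-! # Block AXIS: translation axis of an element commuting with a reflection -/

namespace Pool.HA

namespace AXISaux

theorem red_iff {V : Type} (l : List V) :
    Red l ↔ ∀ (i : ℕ) (h : i + 2 < l.length), l[i] ≠ l[i + 2] := by
  constructor
  · intro hl i h
    apply hl (l.take i) l[i] l[i + 1] l[i + 2] (l.drop (i + 3))
    rw [← List.drop_eq_getElem_cons, ← List.drop_eq_getElem_cons, ← List.drop_eq_getElem_cons,
      List.take_append_drop]
  · intro H x a b c y e
    subst e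
    have := H x.length (by simp)
    simpa using this

theorem red_append {V : Type} (P Q : List V) (a : V) (h1 : Red (P ++ [a])) (h2 : Red (a :: Q))
    (h3 : ∀ y ∈ P.getLast?, ∀ y' ∈ Q.head?, y ≠ y') : Red (P ++ a :: Q) := by
  rw [red_iff] at h1 h2 ⊢
  intro i hi
  have hlen : (P ++ a :: Q).length = P.length + 1 + Q.length := by simp; omega
  rw [hlen] at hi
  by_cases c1 : i + 2 < P.length + 1
  · have := h1 i (by simp; omega)
    have e1 : (P ++ a :: Q)[i]'(by rw [hlen]; omega) = (P ++ [a])[i]'(by simp; omega) := by
      rw [List.getElem_append_left (by omega), List.getElem_append_left (by omega)]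
    have e2 : (P ++ a :: Q)[i + 2]'(by rw [hlen]; omega) = (P ++ [a])[i + 2]'(by simp; omega) := by
      by_cases c2 : i + 2 < P.length
      · rw [List.getElem_append_left (by omega), List.getElem_append_left (by omega)]
      · have c3 : i + 2 = P.length := by omega
        simp [c3]
    rw [e1, e2]
    exact this
  · by_cases c2 : P.length ≤ i
    · have := h2 (i - P.length) (by simp; omega)
      have e1 : (P ++ a :: Q)[i]'(by rw [hlen]; omega) = (a :: Q)[i - P.length]'(by simp; omega) := by
        rw [List.getElem_append_right (by omega)]
      have e2 : (P ++ a :: Q)[i + 2]'(by rw [hlen]; omega) =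
          (a :: Q)[i - P.length + 2]'(by simp; omega) := by
        rw [List.getElem_append_right (by omega)]
        congr 1
        omega
      rw [e1, e2]
      exact this
    · have c3 : i = P.length - 1 := by omega
      have hP : P ≠ [] := by
        rintro rfl
        simp at c2
      have hQ : Q ≠ [] := by
        rintro rfl
        simp at hi
        omega
      have hlP : 0 < P.length := List.length_pos_iff.2 hP
      have hlQ : 0 < Q.length := List.length_pos_iff.2 hQ
      have e1 : (P ++ a :: Q)[i]'(by rw [hlen]; omega) = P.getLast hP := by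
        rw [List.getElem_append_left (by omega), List.getLast_eq_getElem]
        congr 1
      have e2 : (P ++ a :: Q)[i + 2]'(by rw [hlen]; omega) = Q.head hQ := by
        rw [List.getElem_append_right (by omega), List.head_eq_getElem]
        have c4 : i + 2 - P.length = 0 + 1 := by omega
        simp only [c4]
        rw [List.getElem_cons_succ]
      rw [e1, e2]
      exact h3 _ (by rw [List.getLast?_eq_some_getLast hP]; simp) _
        (by rw [List.head?_eq_some_head hQ]; simp)

end AXISaux

open AXISaux in
theorem stmt_AXIS : Stmt_AXIS := by
  intro G S _ g r x hcom hne hconn hfix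
  classical
  -- the shortest walk
  let Good : ℕ → Prop := fun n => ∃ (p : Vtx g) (l : List (Vtx g)),
    Wk l p (x • p) ∧ Fx r l ∧ l.length = n
  have hex : ∃ n, Good n := by
    obtain ⟨p, hp⟩ := hne
    have hxp : r • (x • p) = x • p := by
      rw [← mul_smul, ← hcom.eq, mul_smul, hp]
    obtain ⟨l, hl, hf⟩ := hconn p (x • p) hp hxp
    exact ⟨l.length, p, l, hl, hf, rfl⟩
  obtain ⟨p, l, hW, hF, hlen⟩ := Nat.find_spec hex
  have hmin : ∀ (p' : Vtx g) (l' : List (Vtx g)), Wk l' p' (x • p') → Fx r l' →
      l.length ≤ l'.length := by
    intro p' l' a b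
    rw [hlen]
    exact Nat.find_min' hex ⟨p', l', a, b, rfl⟩
  obtain ⟨hh, ht, hc⟩ := hW
  have hl0 : l ≠ [] := by
    rintro rfl
    simp at hh
  have hpm : p ∈ l := List.mem_of_mem_head? (by rw [hh]; simp)
  have hrp : r • p = p := hF p hpm
  -- length at least 2
  obtain ⟨t, rfl⟩ : ∃ t, l = p :: t := by
    cases l with
    | nil => exact absurd rfl hl0
    | cons a t =>
      simp at hh
      subst hh
      exact ⟨t, rfl⟩
  have ht0 : t ≠ [] := by
    rintro rfl
    simp at ht
    exact hfix p hrp ht.symm
  -- last vertex
  obtain ⟨m, hm⟩ : ∃ m, t = m ++ [x • p] := by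
    refine ⟨t.dropLast, ?_⟩
    have h1 : t.getLast? = some (x • p) := by
      rw [← ht, List.getLast?_cons_of_ne_nil ht0]
    rw [List.getLast?_eq_some_getLast ht0] at h1
    simp at h1
    rw [← h1, List.dropLast_append_getLast]
  subst hm
  -- length at least 3
  have hm0 : m ≠ [] := by
    rintro rfl
    have hc1 : List.IsChain Vtx.ad [p, x • p] := hc
    rw [List.isChain_pair] at hc1
    rcases hc1.2 with h | h
    · exact (ssubset_irrefl _ h)
    · exact (ssubset_irrefl _ h)
  -- second vertex
  obtain ⟨b, m', rfl⟩ : ∃ b m', m = b :: m' := by
    cases m with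
    | nil => exact absurd rfl hm0
    | cons b m' => exact ⟨b, m', rfl⟩
  -- the walk is reduced
  have hred : Red (p :: (b :: m' ++ [x • p])) := by
    intro s a c a' t e hac
    subst hac
    have h1 : Wk (s ++ a :: t) p (x • p) := by
      refine ⟨?_, ?_, ?_⟩
      · rw [e] at hh
        cases s with
        | nil => simpa using hh
        | cons s0 s => simpa using hh
      · rw [e] at ht
        rw [← ht]
        cases t with
        | nil => simp
        | cons t0 t => simp
      · rw [e] at hc
        have h2 := hc
        rw [List.isChain_append] at h2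
        obtain ⟨h3, h4, h5⟩ := h2
        have h6 : List.IsChain Vtx.ad (a :: t) := by
          have := h4.tail
          exact this.tail
        rw [List.isChain_append]
        exact ⟨h3, h6, by simpa using h5⟩
    have h2 : Fx r (s ++ a :: t) := by
      intro v hv
      apply hF
      rw [e]
      simp only [List.mem_append, List.mem_cons] at hv ⊢
      tauto
    have h3 := hmin p (s ++ a :: t) h1 h2
    rw [e] at h3
    simp at h3
  -- the junction
  have hjun : ∀ y ∈ (p :: b :: m').getLast?, y ≠ x • b := by
    intro y hy e
    have hrb : r • b = b := hF b (by simp)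
    have hxb : x • b ≠ b := hfix b hrb
    cases m' with
    | nil =>
      simp at hy
      rw [← hy] at e
      exact hxb e.symm
    | cons c m'' =>
      have hy' : (b :: c :: m'').getLast? = some y := by
        simpa using hy
      have h1 : Wk (b :: c :: m'') b (x • b) := by
        refine ⟨rfl, ?_, ?_⟩
        · rw [hy', e]
        · have h2 := hc.tail
          have h3 : List.IsChain Vtx.ad (b :: c :: m'' ++ [x • p]) := h2
          rw [List.isChain_append] at h3
          exact h3.1
      have h2 : Fx r (b :: c :: m'') := by
        intro v hv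
        apply hF
        simp only [List.mem_append, List.mem_cons] at hv ⊢
        tauto
      have h3 := hmin b _ h1 h2
      simp at h3
  refine ⟨p, p :: (b :: m' ++ [x • p]), ⟨hh, ht, hc⟩, hF, by simp, ?_⟩
  intro N
  have hdl : (p :: (b :: m' ++ [x • p])).dropLast = p :: b :: m' := by
    have : p :: (b :: m' ++ [x • p]) = (p :: b :: m') ++ [x • p] := rfl
    rw [this, List.dropLast_concat]
  have hsh : ∀ N, ∃ Q, pw x (p :: (b :: m' ++ [x • p])) N = p :: Q ∧ ∀ y ∈ Q.head?, y = b := by
    intro N
    cases N with
    | zero => exact ⟨[], rfl, by simp⟩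
    | succ N =>
      refine ⟨b :: m' ++ (pw x (p :: (b :: m' ++ [x • p])) N).map (fun v => x • v), ?_, ?_⟩
      · change (p :: (b :: m' ++ [x • p])).dropLast ++ _ = _
        rw [hdl]
        rfl
      · simp
  induction N with
  | zero =>
    change Red [p]
    intro s a c a' t e
    have := congrArg List.length e
    simp at this
    omega
  | succ N ih =>
    obtain ⟨Q, hQ, hQ'⟩ := hsh N
    change Red ((p :: (b :: m' ++ [x • p])).dropLast ++
      (pw x (p :: (b :: m' ++ [x • p])) N).map (fun v => x • v))
    rw [hdl, hQ, List.map_cons]
    rw [hQ] at ih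
    apply red_append
    · exact hred
    · rw [red_iff] at ih ⊢
      intro i hi e
      have hi' : i + 2 < (p :: Q).length := by simpa using hi
      apply ih i hi'
      have h1 : ((x • p) :: Q.map (fun v => x • v)) = (p :: Q).map (fun v => x • v) := rfl
      simp only [h1] at e
      rw [List.getElem_map, List.getElem_map] at e
      have := congrArg (fun u => x⁻¹ • u) e
      simpa using this
    · intro y hy y' hy' e
      cases Q with
      | nil => simp at hy'
      | cons c Q =>
        simp at hy'
        have hcb : c = b := hQ' c (by simp)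
        subst hcb
        exact hjun y hy (by rw [e, hy'])

end Pool.HA
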