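import Pool.Agent.Work.MP_7084a3_h91.InterfaceX
import Pool.Agent.Work.MP_7084a3_h91.Basic

set_option autoImplicit false

namespace Pool.HA

section
variable {G S : Type} [Group G] {g : S → G}

theorem BD1_bd1_single (t : Vtx g × Vtx g) (n : ℤ) :
    bd1 g (Finsupp.single t n) = n • (Finsupp.single t.2 1 - Finsupp.single t.1 1) := by
  simp [bd1, smul_sub]

theorem BD1_bd2_single (t : Vtx g × Vtx g × Vtx g) (n : ℤ) :
    bd2 g (Finsupp.single t n) = n • (EE t.1 t.2.1 + EE t.2.1 t.2.2 + EE t.2.2 t.1) := by
  simp [bd2]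

theorem BD1_bd1_EE {x y : Vtx g} (h : x.ad y) :
    bd1 g (EE x y) = Finsupp.single y 1 - Finsupp.single x 1 := by
  have h1 := Vtx.ad_ty_ne h
  rcases lt_or_gt_of_ne h1 with h2 | h2
  · have h3 : ¬ y.ty < x.ty := by omega
    simp only [EE, dl1, if_pos h2, if_neg h3, sub_zero, BD1_bd1_single, one_smul]
  · have h3 : ¬ x.ty < y.ty := by omega
    simp only [EE, dl1, if_pos h2, if_neg h3, zero_sub, map_neg, BD1_bd1_single, one_smul]
    abel

end

theorem stmt_BD1 : Stmt_BD1 := by
  intro G S _ g
  constructor
  · intro l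
    induction l with
    | nil =>
      intro v w h
      simp [Wk] at h
    | cons a l ih =>
      intro v w h
      obtain ⟨h1, h2, h3⟩ := h
      simp only [List.head?_cons, Option.some.injEq] at h1
      subst h1
      cases l with
      | nil =>
        simp only [List.getLast?_singleton, Option.some.injEq] at h2
        subst h2
        simp [wch]
      | cons b l =>
        rw [List.getLast?_cons_cons] at h2
        rw [List.isChain_cons_cons] at h3
        have := ih b w ⟨rfl, h2, h3.2⟩
        rw [wch, map_add, this, BD1_bd1_EE h3.1]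
        abel
  · intro D hD
    have e1 : D = D.sum Finsupp.single := (Finsupp.sum_single D).symm
    rw [e1, map_finsuppSum, map_finsuppSum]
    apply Finset.sum_eq_zero
    intro t ht
    obtain ⟨h1, h2, h3, h4, h5, h6⟩ := hD t ht
    show bd1 g (bd2 g (Finsupp.single t (D t))) = 0
    rw [BD1_bd2_single, map_zsmul]
    rw [map_add, map_add, BD1_bd1_EE h4, BD1_bd1_EE h5, BD1_bd1_EE (Vtx.ad_symm h6)]
    simp

end Pool.HA
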