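import Pool.Agent.Work.MP_7084a3_h91.InterfaceW

set_option autoImplicit false

namespace Pool.HA

section

variable {S : Type} [Fintype S] [DecidableEq S]

theorem BFI_symm (M : CoxeterMatrix S) (v w : S → ℝ) : bf M v w = bf M w v := by
  unfold bf
  rw [Finset.sum_comm]
  refine Finset.sum_congr rfl fun s _ => Finset.sum_congr rfl fun t _ => ?_
  rw [M.symmetric t s]
  ring

theorem BFI_lin (M : CoxeterMatrix S) (a b : ℝ) (v v' w : S → ℝ) :
    bf M (a • v + b • v') w = a * bf M v w + b * bf M v' w := by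
  unfold bf
  rw [Finset.mul_sum, Finset.mul_sum, ← Finset.sum_add_distrib]
  refine Finset.sum_congr rfl fun s _ => ?_
  rw [Finset.mul_sum, Finset.mul_sum, ← Finset.sum_add_distrib]
  refine Finset.sum_congr rfl fun t _ => ?_
  simp only [Pi.add_apply, Pi.smul_apply, smul_eq_mul]
  ring

theorem BFI_basis (M : CoxeterMatrix S) (s t : S) :
    bf M (bs s) (bs t) = -Real.cos (Real.pi / M s t) := by
  unfold bf bs
  rw [Finset.sum_eq_single s, Finset.sum_eq_single t]
  · simp
  · intro t' _ ht'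
    simp [Pi.single_eq_of_ne ht']
  · intro h; exact absurd (Finset.mem_univ _) h
  · intro s' _ hs'
    refine Finset.sum_eq_zero fun t' _ => ?_
    simp [Pi.single_eq_of_ne hs']
  · intro h; exact absurd (Finset.mem_univ _) h

theorem BFI_self (M : CoxeterMatrix S) (s : S) : bf M (bs s) (bs s) = 1 := by
  rw [BFI_basis, M.diagonal s]
  simp

theorem BFI_sub_smul (M : CoxeterMatrix S) (a : ℝ) (v v' w : S → ℝ) :
    bf M (v - a • v') w = bf M v w - a * bf M v' w := by
  have h := BFI_lin M 1 (-a) v v' w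
  have e : (1 : ℝ) • v + (-a) • v' = v - a • v' := by
    rw [one_smul, neg_smul, sub_eq_add_neg]
  rw [e] at h
  rw [h]
  ring

theorem BFI_sub_smul' (M : CoxeterMatrix S) (a : ℝ) (v v' w : S → ℝ) :
    bf M w (v - a • v') = bf M w v - a * bf M w v' := by
  rw [BFI_symm, BFI_sub_smul, BFI_symm M v w, BFI_symm M v' w]

theorem BFI_inv_simple (M : CoxeterMatrix S) {ρ : M.Group →* Module.End ℝ (S → ℝ)}
    (h : IsRep M ρ) (s : S) (v w : S → ℝ) :
    bf M (ρ (M.simple s) v) (ρ (M.simple s) w) = bf M v w := by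
  rw [h s v, h s w, BFI_sub_smul, BFI_sub_smul', BFI_sub_smul', BFI_self,
    BFI_symm M (bs s) w]
  ring

theorem BFI_inv (M : CoxeterMatrix S) {ρ : M.Group →* Module.End ℝ (S → ℝ)}
    (h : IsRep M ρ) (g : M.Group) : ∀ v w : S → ℝ, bf M (ρ g v) (ρ g w) = bf M v w := by
  refine M.toCoxeterSystem.simple_induction (p := fun g => ∀ v w : S → ℝ,
    bf M (ρ g v) (ρ g w) = bf M v w) g ?_ ?_ ?_
  · intro s v w
    rw [CoxeterMatrix.toCoxeterSystem_simple]
    exact BFI_inv_simple M h s v w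
  · intro v w
    rw [map_one]
    rfl
  · intro g g' hg hg' v w
    rw [map_mul, Module.End.mul_apply, Module.End.mul_apply, hg, hg']

theorem BFI_adj (M : CoxeterMatrix S) {ρ : M.Group →* Module.End ℝ (S → ℝ)}
    (h : IsRep M ρ) (g : M.Group) (v w : S → ℝ) : bf M (ρ g⁻¹ v) w = bf M v (ρ g w) := by
  rw [← BFI_inv M h g (ρ g⁻¹ v) w, ← Module.End.mul_apply, ← map_mul, mul_inv_cancel, map_one]
  rfl

theorem BFI_smul_smul (M : CoxeterMatrix S) (v w : S → ℝ) :
    (2 * bf M v (-w)) • (-w) = (2 * bf M v w) • w := by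
  have h : bf M v (-w) = - bf M v w := by
    have h1 := BFI_sub_smul' M 1 0 w v
    rw [one_smul, zero_sub] at h1
    have h2 := BFI_sub_smul' M 1 0 0 v
    rw [one_smul, sub_zero] at h2
    rw [h1]
    linarith
  rw [h, smul_neg, ← neg_smul]
  congr 1
  ring

end

theorem stmt_BFI : Stmt_BFI := by
  intro S _ _ M ρ h
  refine ⟨BFI_symm M, fun a b v v' w => BFI_lin M a b v v' w, BFI_basis M,
    fun g v w => BFI_inv M h g v w, ?_, ?_⟩
  · rintro v ⟨w, s, rfl⟩
    rw [BFI_inv M h, BFI_self]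
  · rintro r v ⟨w, s, rfl, hv⟩ x
    have h1 : ρ (w * M.simple s * w⁻¹) x =
        x - (2 * bf M x (ρ w (bs s))) • ρ w (bs s) := by
      rw [map_mul, map_mul, Module.End.mul_apply, Module.End.mul_apply, h s, map_sub,
        map_smul, BFI_adj M h, ← Module.End.mul_apply, ← map_mul, mul_inv_cancel, map_one]
      rfl
    rw [h1]
    rcases hv with rfl | rfl
    · rfl
    · rw [BFI_smul_smul]

end Pool.HA
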