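import Pool.Agent.Work.MP_7084a3_h91.InterfaceD
import Pool.Agent.Work.MP_7084a3_h91.InterfaceX
import Pool.Agent.Work.MP_7084a3_h91.Basic

set_option autoImplicit false

/-! # CA: images of type 2 stabilisers -/

namespace Pool.HA

theorem CA_esum_altG {S : Type} (M : CoxeterMatrix S) (m : ℕ) : ∀ s t : S,
    esum M (altG (gen M s) (gen M t) m) = Multiplicative.ofAdd (m : ℤ) := by
  induction m with
  | zero => intro s t; simp [altG]
  | succ m ih =>
    intro s t
    rw [altG, map_mul, ih, esum_gen, ← ofAdd_add]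
    congr 1
    push_cast
    ring

theorem CA_fix_zpow {G S : Type} [Group G] {g : S → G} {h : G} {v : Vtx g} (hv : h • v = v)
    (k : ℤ) : (h ^ k) • v = v := by
  have : h ∈ MulAction.stabilizer G v := hv
  exact (MulAction.stabilizer G v).zpow_mem this k

theorem CA_fix_mul {G S : Type} [Group G] {g : S → G} {h h' : G} {v : Vtx g} (hv : h • v = v)
    (hv' : h' • v = v) : (h * h') • v = v := by
  rw [mul_smul, hv', hv]

theorem CA_one (h2 : Stmt_X2) (h3 : Stmt_F3) (h4 : Stmt_F4) (h5 : Stmt_F5) (h7 : Stmt_F7)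
    (S S' : Type) [Finite S] [Finite S'] (M : CoxeterMatrix S) (M' : CoxeterMatrix S')
    (hM : HypType M) (hM' : HypType M') (hS : 3 ≤ Nat.card S) (hS' : 3 ≤ Nat.card S')
    (φ : Art M ≃* Art M') (u : Vtx (gen M)) (z : Art M)
    (hz : z • u = u) (hzc : ∀ h : Art M, h • u = u → Commute z h)
    (H : ∀ k : ℕ, 0 < k → ∀ v : Vtx (gen M'), (φ z ^ k) • v ≠ v)
    (y : Art M) (hy : y • u = u)
    (hyn : ∀ β : ℤ, β ≠ 0 → ∃ h : Art M, h • u = u ∧ ¬ Commute (y ^ β) h) :
    ∃ r r', Rfl (gen M) r ∧ Rfl (gen M') r' ∧ r • u = u ∧ Commute y r ∧ Commute (φ z) r' ∧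
      (φ r = r' ∨ φ r = r'⁻¹) := by
  have hzy : Commute z y := hzc y hy
  obtain ⟨α, β, v, hαβ, hv⟩ := h2 S' M' hM' (φ z) (φ y) (hzy.map φ)
  have hβ : β ≠ 0 := by
    intro h0
    subst h0
    have hα : α ≠ 0 := fun h => hαβ ⟨h, rfl⟩
    rw [zpow_zero, mul_one] at hv
    apply H α.natAbs (Int.natAbs_pos.2 hα) v
    have h1 : (φ z ^ (α.natAbs : ℤ)) • v = v := by
      rcases Int.natAbs_eq α with h | h
      · rw [← h]; exact hv
      · have h2 : ((α.natAbs : ℕ) : ℤ) = α * (-1) := by omega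
        rw [h2, zpow_mul]
        exact CA_fix_zpow hv _
    rw [zpow_natCast] at h1
    exact h1
  have hezz : Commute z (z ^ α * y ^ β) :=
    ((Commute.refl z).zpow_right α).mul_right (hzy.zpow_right β)
  have heyy : Commute y (z ^ α * y ^ β) :=
    (hzy.symm.zpow_right α).mul_right ((Commute.refl y).zpow_right β)
  have heu : (z ^ α * y ^ β) • u = u := CA_fix_mul (CA_fix_zpow hz α) (CA_fix_zpow hy β)
  have he1 : z ^ α * y ^ β ≠ 1 := by
    intro h1
    obtain ⟨h, hh, hn⟩ := hyn β hβ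
    apply hn
    have : y ^ β = (z ^ α)⁻¹ := (inv_eq_of_mul_eq_one_right h1).symm
    rw [this]
    exact ((hzc h hh).zpow_left α).inv_left
  have hφe : φ (z ^ α * y ^ β) = φ z ^ α * φ y ^ β := by rw [map_mul, map_zpow, map_zpow]
  rw [← hφe] at hv
  generalize z ^ α * y ^ β = e at hezz heyy heu he1 hφe hv
  have he1' : φ e ≠ 1 := by
    intro h
    exact he1 (by simpa using h)
  have hce : Commute (φ z) (φ e) := hezz.map φ
  have hcv : φ e • (φ z • v) = φ z • v := Fx.of_commute hce hv
  have hcv' : φ z • v ≠ v := by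
    have := H 1 one_pos v
    simpa using this
  have hr' : ∃ r', Rfl (gen M') r' ∧ ∃ i : ℤ, φ e = r' ^ i := by
    rcases h5 S' M' hM' (φ e) v he1' hv with h | h
    · exact h
    · exact absurd (h 1 one_ne_zero (φ z • v) (by simpa using hcv)) hcv'
  obtain ⟨r', hr', i, hi⟩ := hr'
  have hi0 : i ≠ 0 := by
    rintro rfl
    exact he1' (by simpa using hi)
  have hC' : ∀ y', Commute y' (φ e) → Commute y' r' := by
    intro y' h
    rw [hi] at h
    exact (h4 S' M' hM' r' hr' i hi0).2 y' h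
  have hC'' : ∀ y', Commute y' r' → Commute y' (φ e) := by
    intro y' h
    rw [hi]
    exact h.zpow_right i
  have hinv : ∀ y', Commute y' r' → Commute (φ.symm y') e := by
    intro y' h
    have := (hC'' y' h).map φ.symm
    simpa using this
  rcases h5 S M hM e u he1 heu with ⟨r, hr, j, hj⟩ | h
  · have hj0 : j ≠ 0 := by
      rintro rfl
      exact he1 (by simpa using hj)
    have hC : ∀ y, Commute y e → Commute y r := by
      intro y h
      rw [hj] at h
      exact (h4 S M hM r hr j hj0).2 y h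
    obtain ⟨i₁, hi₁⟩ := h7 S' M' hM' hS' r' (φ r) hr' (by
      intro y' h
      have h1 := (hC _ (hinv y' h)).map φ
      simpa using h1.symm)
    obtain ⟨i₂, hi₂⟩ := h7 S M hM hS r (φ.symm r') hr (by
      intro y h
      have h0 : Commute y e := by rw [hj]; exact h.zpow_right j
      have h1 := (hC' _ (h0.map φ)).map φ.symm
      simpa using h1.symm)
    have h8 : r' ^ (1 : ℤ) = r' ^ (i₁ * i₂) := by
      have := congrArg φ hi₂
      rw [MulEquiv.apply_symm_apply, map_zpow, hi₁, ← zpow_mul] at this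
      simpa using this
    have h9 : i₁ * i₂ = 1 := (hr'.zpow_inj hr' h8).symm
    refine ⟨r, r', hr, hr', (h3 S M hM r hr).1 j hj0 u (by rw [← hj]; exact heu), hC y heyy,
      hC' _ hce, ?_⟩
    rcases Int.eq_one_or_neg_one_of_mul_eq_one h9 with h | h
    · left; rw [hi₁, h, zpow_one]
    · right; rw [hi₁, h, zpow_neg_one]
  · exfalso
    obtain ⟨i₁, hi₁⟩ := h7 S' M' hM' hS' r' (φ z) hr' (by
      intro y' hy'
      have h1 := hinv y' hy'
      have h2 : e • (φ.symm y' • u) = φ.symm y' • u := Fx.of_commute h1 heu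
      have h3 := h 1 one_ne_zero (φ.symm y' • u) (by simpa using h2)
      have h4 := (hzc _ h3).map φ
      simpa using h4)
    obtain ⟨w, -, hw⟩ := hr'.exists_fix
    apply H 1 one_pos w
    rw [pow_one, hi₁]
    exact CA_fix_zpow hw i₁

theorem stmt_CA (hX2 : Stmt_X2) (hX3 : Stmt_X3) (hF3 : Stmt_F3) (hF4 : Stmt_F4) (hF5 : Stmt_F5)
    (hF6 : Stmt_F6) (hF7 : Stmt_F7) (_hCZ : Stmt_CZ) (hDNCM : Stmt_DNCM) (hDCEN : Stmt_DCEN)
    (hDCPC : Stmt_DCPC) : Stmt_CA := by
  classical
  intro S S' _ _ M M' hM hM' hS hS' φ u hu hlb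
  obtain ⟨s, t, hst, hJ⟩ := Vtx.J2 hu
  have hm : 3 ≤ M s t := by rwa [hJ, lb_pair hst (hM.ne_zero s t)] at hlb
  obtain ⟨x, hx⟩ := u.exists_mem
  have hfix : ∀ h : Art M, h • u = u ↔ x⁻¹ * h * x ∈ pr (gen M) s t := fun h => Vtx.fix2 hJ hx h
  obtain ⟨a, ha⟩ : ∃ a, a = x * gen M s * x⁻¹ := ⟨_, rfl⟩
  obtain ⟨b, hb⟩ : ∃ b, b = x * gen M t * x⁻¹ := ⟨_, rfl⟩
  obtain ⟨z, hz⟩ : ∃ z, z = x * (gen M s * gen M t) ^ M s t * x⁻¹ := ⟨_, rfl⟩
  have hconj : ∀ h : Art M, x⁻¹ * (x * h * x⁻¹) * x = h := fun h => by group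
  have hau : a • u = u := by rw [hfix, ha, hconj]; exact left_mem_pr s t
  have hbu : b • u = u := by rw [hfix, hb, hconj]; exact right_mem_pr s t
  have hzu : z • u = u := by
    rw [hfix, hz, hconj]
    exact Subgroup.pow_mem _ (Subgroup.mul_mem _ (left_mem_pr s t) (right_mem_pr s t)) _
  have hzc : ∀ h : Art M, h • u = u → Commute z h := by
    intro h hh
    rw [hfix] at hh
    have h1 := hDCEN S M hM.ne_zero s t hst _ hh
    have h2 : z = x * (gen M s * gen M t) ^ M s t * x⁻¹ := hz
    have h3 : h = x * (x⁻¹ * h * x) * x⁻¹ := by group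
    rw [h3, h2]
    exact (Commute.conj_iff x).2 h1
  have hab : ¬ Commute a b := by
    intro h
    rw [ha, hb, Commute.conj_iff] at h
    have := hDNCM S M hM.ne_zero s t hst hm 1 (by simpa using h)
    omega
  have hna : ∀ β : ℤ, β ≠ 0 → ∃ h : Art M, h • u = u ∧ ¬ Commute (a ^ β) h := by
    intro β hβ
    refine ⟨b, hbu, fun h => hβ ?_⟩
    rw [ha, hb, conj_zpow, Commute.conj_iff] at h
    exact hDNCM S M hM.ne_zero s t hst hm β h
  have hnb : ∀ β : ℤ, β ≠ 0 → ∃ h : Art M, h • u = u ∧ ¬ Commute (b ^ β) h := by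
    intro β hβ
    refine ⟨a, hau, fun h => hβ ?_⟩
    rw [ha, hb, conj_zpow, Commute.conj_iff] at h
    exact hDNCM S M hM.ne_zero t s hst.symm (by rw [M.symmetric]; exact hm) β h
  -- part I
  have hI : ∃ k : ℕ, 0 < k ∧ ∃ v : Vtx (gen M'), (φ z ^ k) • v = v := by
    by_contra hcon
    have H : ∀ k : ℕ, 0 < k → ∀ v : Vtx (gen M'), (φ z ^ k) • v ≠ v := by
      intro k hk v hv
      exact hcon ⟨k, hk, v, hv⟩
    obtain ⟨r₁, r₁', hr₁, hr₁', hr₁u, hr₁y, hr₁c, hr₁φ⟩ :=
      CA_one hX2 hF3 hF4 hF5 hF7 S S' M M' hM hM' hS hS' φ u z hzu hzc H a hau hna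
    obtain ⟨r₂, r₂', hr₂, hr₂', hr₂u, hr₂y, hr₂c, hr₂φ⟩ :=
      CA_one hX2 hF3 hF4 hF5 hF7 S S' M M' hM hM' hS hS' φ u z hzu hzc H b hbu hnb
    have hne : r₁' ≠ r₂' := by
      rintro rfl
      have h12 : r₁ = r₂ := by
        have h1 : φ r₁ = φ r₂ ∨ φ r₁ = φ r₂⁻¹ := by
          rcases hr₁φ with h | h <;> rcases hr₂φ with h' | h'
          · left; rw [h, h']
          · right; rw [map_inv, h, h', inv_inv]
          · right; rw [map_inv, h, h']
          · left; rw [h, h']
        rcases h1 with h1 | h1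
        · exact φ.injective h1
        · have h2 := φ.injective h1
          have h3 : r₁ ^ (1 : ℤ) = r₂ ^ (-1 : ℤ) := by simpa using h2
          have := hr₁.zpow_inj hr₂ h3
          omega
      subst h12
      have hs : Commute (x⁻¹ * r₁ * x) (gen M s) := by
        have h1 : gen M s = x⁻¹ * a * x := by rw [ha]; group
        rw [h1]
        have := (Commute.conj_iff x⁻¹).2 hr₁y.symm
        simpa using this
      have ht : Commute (x⁻¹ * r₁ * x) (gen M t) := by
        have h1 : gen M t = x⁻¹ * b * x := by rw [hb]; group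
        rw [h1]
        have := (Commute.conj_iff x⁻¹).2 hr₂y.symm
        simpa using this
      have hcen : ∀ h ∈ pr (gen M) s t, Commute ((x⁻¹ * r₁ * x) ^ 1) h := by
        intro h hh
        rw [pow_one]
        have h1 : pr (gen M) s t ≤ Subgroup.centralizer {x⁻¹ * r₁ * x} := by
          unfold pr
          rw [Subgroup.closure_le]
          intro w hw
          rw [SetLike.mem_coe, Subgroup.mem_centralizer_singleton_iff]
          simp only [Set.mem_insert_iff, Set.mem_singleton_iff] at hw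
          rcases hw with rfl | rfl
          · first | exact hs.eq | exact hs.eq.symm
          · first | exact ht.eq | exact ht.eq.symm
        have h2 := Subgroup.mem_centralizer_singleton_iff.1 (h1 hh)
        first | exact h2 | exact h2.symm
      obtain ⟨w, -, l, hl⟩ := hDCPC S M hM.ne_zero s t hst hm _ ((hfix r₁).1 hr₁u) 1 one_pos hcen
      have he : esum M (x⁻¹ * r₁ * x) = Multiplicative.ofAdd 1 := by
        rw [map_mul, map_mul, map_inv, mul_right_comm, inv_mul_cancel, one_mul, hr₁.esum_eq]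
      have hcj : ∀ (w g : Art M), esum M (w * g * w⁻¹) = esum M g := by
        intro w g
        rw [map_mul, map_mul, map_inv, mul_right_comm, mul_inv_cancel, one_mul]
      rcases hl with hl | hl
      · rw [hl, hcj, map_zpow, map_mul, esum_gen, esum_gen, ← ofAdd_add, ← ofAdd_zsmul] at he
        have := Multiplicative.ofAdd.injective he
        simp only [smul_eq_mul] at this
        omega
      · rw [hl, hcj, map_zpow, CA_esum_altG, ← ofAdd_zsmul] at he
        have := Multiplicative.ofAdd.injective he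
        simp only [smul_eq_mul] at this
        have h3 : ((M s t : ℕ) : ℤ) ∣ 1 := ⟨l, by linarith⟩
        have h4 := Int.le_of_dvd one_pos h3
        omega
    obtain ⟨k, hk, v, hv⟩ := hX3 S' M' hM' (φ z) r₁' r₂' hr₁' hr₂' hne hr₁c hr₂c
    exact H k hk v hv
  obtain ⟨k, hk, v, hv⟩ := hI
  -- part II
  have hzm : (a * b) ^ M s t = z := by
    have : a * b = x * (gen M s * gen M t) * x⁻¹ := by rw [ha, hb]; group
    rw [this, conj_pow, hz]
  have hz1 : z ^ k ≠ 1 := by
    intro h
    have h1 := congrArg (esum M) h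
    rw [map_pow, hz, map_mul, map_mul, map_inv, mul_right_comm, mul_inv_cancel, one_mul, map_pow,
      map_mul, esum_gen, esum_gen, ← pow_mul, (esum M).map_one, ← ofAdd_add, ← ofAdd_nsmul] at h1
    have h2 : (M s t * k) • ((1 : ℤ) + 1) = 0 := Multiplicative.ofAdd.injective h1
    rw [nsmul_eq_mul] at h2
    have h3 : ((M s t * k : ℕ) : ℤ) ≠ 0 := by
      have : 0 < M s t * k := Nat.mul_pos (by omega) hk
      omega
    have := mul_ne_zero h3 (by norm_num : (1 : ℤ) + 1 ≠ 0)
    exact this h2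
  have hc1 : φ z ^ k ≠ 1 := by
    intro h
    apply hz1
    apply φ.injective
    rw [map_pow, h, map_one]
  have hcc : ∀ h : Art M, h • u = u → Commute (φ h) (φ z ^ k) := by
    intro h hh
    exact ((hzc h hh).symm.map φ).pow_right k
  have hnr : ¬ ∃ r', Rfl (gen M') r' ∧ ∃ i : ℤ, φ z ^ k = r' ^ i := by
    rintro ⟨r', hr', i, hi⟩
    have hi0 : i ≠ 0 := by
      rintro rfl
      exact hc1 (by simpa using hi)
    have hC : ∀ h : Art M, h • u = u → Commute (φ h) r' := by
      intro h hh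
      have := hcc h hh
      rw [hi] at this
      exact (hF4 S' M' hM' r' hr' i hi0).2 _ this
    obtain ⟨j, hj⟩ := hF6 S' M' hM' r' (φ (a * b)) (M s t * k) i hr'
      (hC _ (CA_fix_mul hau hbu)) (Nat.mul_pos (by omega) hk) (by
        rw [pow_mul, ← map_pow, hzm, hi])
    have h1 : Commute (φ a) (φ (a * b)) := by
      rw [hj]
      exact (hC a hau).zpow_right j
    have h2 : Commute a (a * b) := by
      have := h1.map φ.symm
      simpa using this
    apply hab
    have h3 : b = a⁻¹ * (a * b) := by group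
    rw [h3]
    exact ((Commute.refl a).inv_right).mul_right h2
  have huniq : ∀ j : ℤ, j ≠ 0 → ∀ w : Vtx (gen M'), ((φ z ^ k) ^ j) • w = w → w = v := by
    rcases hF5 S' M' hM' (φ z ^ k) v hc1 hv with h | h
    · exact absurd h hnr
    · exact h
  have hst' : ∀ h : Art M, h • u = u → φ h • v = v := by
    intro h hh
    have h1 : (φ z ^ k) • (φ h • v) = φ h • v := Fx.of_commute (hcc h hh) hv
    exact huniq 1 one_ne_zero _ (by simpa using h1)
  have hv0 : v.ty ≠ 0 := ty_ne_zero_of_fix hc1 hv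
  have hv1 : v.ty ≠ 1 := by
    intro h1
    obtain ⟨r, hr, -, h⟩ := stab1 h1
    obtain ⟨i, hi⟩ := h _ hv
    exact hnr ⟨r, hr, i, hi⟩
  have hv2 : v.ty = 2 := by
    have := v.ty_le
    omega
  refine ⟨v, hv2, ?_, hst'⟩
  obtain ⟨s', t', hst2, hJ'⟩ := Vtx.J2 hv2
  rw [hJ', lb_pair hst2 (hM'.ne_zero s' t')]
  have h2le := hM'.two_le hst2
  by_contra hlt
  have h2 : M' s' t' = 2 := by omega
  obtain ⟨x', hx'⟩ := v.exists_mem
  have hbr := braid M' hst2 (hM'.ne_zero s' t')
  rw [h2] at hbr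
  simp only [altG, mul_one] at hbr
  have hcomm : ∀ p ∈ pr (gen M') s' t', ∀ q ∈ pr (gen M') s' t', Commute p q := by
    have hself : ∀ p ∈ ({gen M' s', gen M' t'} : Set (Art M')),
        ∀ q ∈ ({gen M' s', gen M' t'} : Set (Art M')), Commute p q := by
      intro p hp q hq
      simp only [Set.mem_insert_iff, Set.mem_singleton_iff] at hp hq
      rcases hp with rfl | rfl <;> rcases hq with rfl | rfl
      · exact Commute.refl _
      · exact hbr
      · exact hbr.symm
      · exact Commute.refl _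
    intro p hp q hq
    have h1 : ∀ p ∈ ({gen M' s', gen M' t'} : Set (Art M')), ∀ q ∈ pr (gen M') s' t',
        Commute p q := by
      intro p hp q hq
      induction hq using Subgroup.closure_induction with
      | mem q hq => exact hself p hp q hq
      | one => exact Commute.one_right p
      | mul q q' _ _ h h' => exact h.mul_right h'
      | inv q _ h => exact h.inv_right
    induction hp using Subgroup.closure_induction with
    | mem p hp => exact h1 p hp q hq
    | one => exact Commute.one_left q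
    | mul p p' _ _ h h' => exact h.mul_left h'
    | inv p _ h => exact h.inv_left
  have ha' := (Vtx.fix2 hJ' hx' (φ a)).1 (hst' a hau)
  have hb' := (Vtx.fix2 hJ' hx' (φ b)).1 (hst' b hbu)
  have h3 := hcomm _ ha' _ hb'
  have h4 : Commute (φ a) (φ b) := by
    have e1 : φ a = x' * (x'⁻¹ * φ a * x') * x'⁻¹ := by group
    have e2 : φ b = x' * (x'⁻¹ * φ b * x') * x'⁻¹ := by group
    rw [e1, e2]
    exact (Commute.conj_iff x').2 h3
  apply hab
  have := h4.map φ.symm
  simpa using this

end Pool.HA
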