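import Pool.Agent.Work.MP_7084a3_h91.InterfaceX
import Pool.Agent.Work.MP_7084a3_h91.InterfaceD
import Pool.Agent.Work.MP_7084a3_h91.Basic

set_option autoImplicit false

/-! Block CB (helper17): the stabilisers correspond. -/

namespace Pool.HA

theorem stmt_CB (hCA : Stmt_CA) (hCZ : Stmt_CZ) : Stmt_CB := by
  classical
  intro S S' _ _ M M' hM hM' hS hS' φ u hu hlb
  obtain ⟨u', hu', hlb', H⟩ := hCA S S' M M' hM hM' hS hS' φ u hu hlb
  obtain ⟨u'', hu'', hlb'', H'⟩ := hCA S' S M' M hM' hM hS' hS φ.symm u' hu' hlb'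
  refine ⟨u', hu', hlb', fun h => ⟨H h, fun hh => ?_⟩⟩
  obtain ⟨s, t, hst, hJ⟩ := Vtx.J2 hu
  obtain ⟨x, hx⟩ := u.exists_mem
  have hm : 3 ≤ M s t := by
    rw [hJ, lb_pair hst (hM.ne_zero s t)] at hlb
    exact hlb
  have hJ' : ∀ a, a ∈ u.J ↔ a = s ∨ a = t := by
    intro a; rw [hJ]; simp
  have hz : (x * (gen M s * gen M t) ^ M s t * x⁻¹) • u = u := by
    rw [Vtx.fix2' hJ' hx]
    have e : x⁻¹ * (x * (gen M s * gen M t) ^ M s t * x⁻¹) * x = (gen M s * gen M t) ^ M s t := by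
      group
    rw [e]
    exact pow_mem (mul_mem (left_mem_pr s t) (right_mem_pr s t)) _
  have h1 : (x * (gen M s * gen M t) ^ M s t * x⁻¹) • u'' = u'' := by
    have := H' _ (H _ hz)
    rwa [MulEquiv.symm_apply_apply] at this
  have h2 : u'' = u := by
    refine (hCZ S M hM s t x u hst hm hJ' hx 1 one_ne_zero).1 u'' ?_
    rw [zpow_one]
    exact h1
  have := H' _ hh
  rwa [MulEquiv.symm_apply_apply, h2] at this

end Pool.HA
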