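import Pool.Agent.Work.MP_7084a3_h91.Basic
import Pool.Agent.Work.MP_7084a3_h91.InterfaceX
import Pool.Agent.Work.MP_7084a3_h91.InterfaceD

set_option autoImplicit false

/-! # Block CC (helper45) -/

namespace Pool.HA.H45

/-- coordinates of a type 2 vertex -/
theorem coord2 {S : Type} {M : CoxeterMatrix S} (h0 : ∀ s t, M s t ≠ 0) {u : Vtx (gen M)}
    (hu : u.ty = 2) (hl : 3 ≤ lb M u.J) :
    ∃ s t x, s ≠ t ∧ 3 ≤ M s t ∧ (∀ a, a ∈ u.J ↔ a = s ∨ a = t) ∧ u.mem x := by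
  classical
  obtain ⟨s, t, hst, hJ⟩ := Vtx.J2 hu
  obtain ⟨x, hx⟩ := u.exists_mem
  refine ⟨s, t, x, hst, ?_, ?_, hx⟩
  · rw [hJ, lb_pair hst (h0 s t)] at hl
    exact hl
  · intro a
    rw [hJ]
    simp

theorem _root_.Pool.HA.stmt_CC (hCB : Stmt_CB) (hCZ : Stmt_CZ) (hF10 : Stmt_F10) (hF3 : Stmt_F3)
    (hF5 : Stmt_F5) (hINT : Stmt_INT) : Stmt_CC := by
  intro S S' _ _ M M' hM hM' hc hc' φ r hr
  obtain ⟨u₁, u₂, hne, hr1, hr2, hu⟩ := hF10 S M hM hc r hr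
  obtain ⟨ht1, hl1⟩ := hu u₁ (by simp)
  obtain ⟨ht2, hl2⟩ := hu u₂ (by simp)
  obtain ⟨v₁, hv1, hvl1, hi1⟩ := hCB S S' M M' hM hM' hc hc' φ u₁ ht1 hl1
  obtain ⟨v₂, hv2, hvl2, hi2⟩ := hCB S S' M M' hM hM' hc hc' φ u₂ ht2 hl2
  have hv : v₁ ≠ v₂ := by
    rintro rfl
    obtain ⟨s, t, x, hst, hm, hJ, hx⟩ := coord2 hM.ne_zero ht1 hl1
    obtain ⟨hz, -⟩ := hCZ S M hM s t x u₁ hst hm hJ hx 1 one_ne_zero
    refine hne (hz u₂ ?_).symm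
    rw [hi2, ← hi1, zpow_one, Vtx.fix2' hJ hx]
    have : x⁻¹ * (x * (gen M s * gen M t) ^ M s t * x⁻¹) * x = (gen M s * gen M t) ^ M s t := by
      group
    rw [this]
    exact pow_mem (mul_mem (left_mem_pr s t) (right_mem_pr s t)) _
  have hφ1 : φ r • v₁ = v₁ := (hi1 r).1 hr1
  have hφ2 : φ r • v₂ = v₂ := (hi2 r).1 hr2
  have hφ : φ r ≠ 1 := by
    intro h
    exact hr.ne_one (φ.injective (by rw [h, map_one]))
  rcases hF5 S' M' hM' (φ r) v₁ hφ hφ1 with ⟨r', hr', i, hi⟩ | h5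
  · have hi0 : i ≠ 0 := by
      rintro rfl
      exact hφ (by rw [hi, zpow_zero])
    have hf := (hF3 S' M' hM' r' hr').1 i hi0
    have g1 : r' • v₁ = v₁ := hf v₁ (by rw [← hi]; exact hφ1)
    have g2 : r' • v₂ = v₂ := hf v₂ (by rw [← hi]; exact hφ2)
    have k1 : φ.symm r' • u₁ = u₁ := by rw [hi1]; simpa using g1
    have k2 : φ.symm r' • u₂ = u₂ := by rw [hi2]; simpa using g2
    obtain ⟨l, hl⟩ := hINT S M hM r (φ.symm r') u₁ u₂ hr hne hr1 hr2 k1 k2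
    have e1 : r ^ (1 : ℤ) = r ^ (l * i) := by
      rw [zpow_one, zpow_mul, ← hl, ← map_zpow, ← hi, MulEquiv.symm_apply_apply]
    have e2 := hr.zpow_inj hr e1
    have e3 : i = 1 ∨ i = -1 := Int.isUnit_iff.1 (IsUnit.of_mul_eq_one l (by rw [mul_comm]; exact e2.symm))
    refine ⟨r', hr', ?_⟩
    rcases e3 with rfl | rfl
    · left; rw [hi, zpow_one]
    · right; rw [hi, zpow_neg, zpow_one]
  · exact absurd (h5 1 one_ne_zero v₂ (by rw [zpow_one]; exact hφ2)) (Ne.symm hv)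

end Pool.HA.H45
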