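import Pool.Agent.Work.MP_7084a3_h91.InterfaceF

set_option autoImplicit false

/-! # Block CLO: a closed sector has weight at least two -/

namespace Pool.HA

theorem clo_rot {α : Type} {R : α → α → Prop} (x y : List α) (h : (x ++ y).IsChain R)
    (hc : ∀ s ∈ (x ++ y).getLast?, ∀ t ∈ (x ++ y).head?, R s t) :
    (y ++ x).IsChain R ∧ ∀ s ∈ (y ++ x).getLast?, ∀ t ∈ (y ++ x).head?, R s t := by
  rcases x with _ | ⟨a, x⟩
  · simpa using ⟨h, hc⟩
  rcases y with _ | ⟨b, y⟩
  · simp only [List.append_nil, List.nil_append] at h hc ⊢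
    exact ⟨h, hc⟩
  rw [List.isChain_append] at h
  obtain ⟨h1, h2, h3⟩ := h
  rw [List.isChain_append]
  refine ⟨⟨h2, h1, ?_⟩, ?_⟩
  · intro s hs t ht
    apply hc s _ t _
    · rw [List.getLast?_append_of_ne_nil _ (by simp)]; exact hs
    · simpa using ht
  · intro s hs t ht
    rw [List.getLast?_append_of_ne_nil _ (by simp)] at hs
    exact h3 s hs t (by simpa using ht)

theorem clo_wt_nonneg {V : Type} {adj : V → V → Prop} {ang : V → V → V → ℝ} {ε : ℝ}
    (hN : NPC adj ang ε) {v : V} {s : Stp V}
    (hs : TStp adj v s ∨ (s.k = 1 ∧ Str adj ang v s.a s.b) ∨ s.k = 2) : 0 ≤ wt ang v s := by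
  rcases hs with ⟨h0, h1, h2, h3⟩ | ⟨h, -⟩ | h
  · rw [wt, if_pos h0]
    exact hN.nonneg _ _ _ h1 h3 h2
  · rw [wt, if_neg (by omega), h]; norm_num
  · rw [wt, if_neg (by omega), h]; norm_num

theorem clo_wts_nonneg {V : Type} {adj : V → V → Prop} {ang : V → V → V → ℝ} {ε : ℝ}
    (hN : NPC adj ang ε) {v : V} {ω : List (Stp V)}
    (hs : ∀ s ∈ ω, TStp adj v s ∨ (s.k = 1 ∧ Str adj ang v s.a s.b) ∨ s.k = 2) :
    0 ≤ wts ang v ω := by
  unfold wts
  apply List.sum_nonneg
  intro r hr
  obtain ⟨s, hsm, rfl⟩ := List.mem_map.1 hr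
  exact clo_wt_nonneg hN (hs s hsm)

theorem clo_wts_append {V : Type} (ang : V → V → V → ℝ) (v : V) (x y : List (Stp V)) :
    wts ang v (x ++ y) = wts ang v x + wts ang v y := by
  simp [wts]

theorem clo_wts_cons {V : Type} (ang : V → V → V → ℝ) (v : V) (g : Stp V) (y : List (Stp V)) :
    wts ang v (g :: y) = wt ang v g + wts ang v y := by
  simp [wts]

theorem stmt_CLO : Stmt_CLO := by
  intro V adj ang ε hN v ω hω hcl
  obtain ⟨hne, hch, hst⟩ := hω
  by_cases h2 : ∃ g ∈ ω, g.k ≠ 0
  · obtain ⟨g, hg, hgk⟩ := h2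
    obtain ⟨x, y, rfl⟩ := List.append_of_mem hg
    obtain ⟨hch', hcl'⟩ := clo_rot x (g :: y) hch hcl
    have hst' : ∀ s ∈ y ++ x, TStp adj v s ∨ (s.k = 1 ∧ Str adj ang v s.a s.b) ∨ s.k = 2 := by
      intro s hs
      apply hst s
      rcases List.mem_append.1 hs with h | h
      · simp [h]
      · simp [h]
    have hsum : wts ang v (x ++ g :: y) = wt ang v g + wts ang v (y ++ x) := by
      rw [clo_wts_append, clo_wts_cons, clo_wts_append]; ring
    rw [hsum]
    have h0 := clo_wts_nonneg hN hst'
    rcases hst g hg with h | ⟨hk, hstr⟩ | hk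
    · exact absurd h.1 hgk
    · have hwg : wt ang v g = 1 := by rw [wt, if_neg hgk, hk]; norm_num
      rw [hwg]
      suffices h : 1 ≤ wts ang v (y ++ x) by linarith
      by_cases h3 : ∃ g' ∈ y ++ x, g'.k ≠ 0
      · obtain ⟨g', hg', hgk'⟩ := h3
        obtain ⟨x', y', hxy⟩ := List.append_of_mem hg'
        have h1 : 1 ≤ wt ang v g' := by
          rw [wt, if_neg hgk']
          exact_mod_cast Nat.one_le_iff_ne_zero.2 hgk'
        rw [hxy] at hst' ⊢
        rw [clo_wts_append, clo_wts_cons]
        have hx := clo_wts_nonneg (ω := x') hN (fun s hs => hst' s (by simp [hs]))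
        have hy := clo_wts_nonneg (ω := y') hN (fun s hs => hst' s (by simp [hs]))
        linarith
      · push Not at h3
        rw [List.cons_append] at hch' hcl'
        generalize y ++ x = z at *
        by_cases hz : z = []
        · exfalso
          subst hz
          have := hcl' g (by simp) g (by simp)
          exact hstr.1 this.1.symm
        · refine hstr.2 z hz ⟨?_, hch'.tail⟩ ?_ ?_
          · intro s hs
            rcases hst' s hs with h | ⟨h, -⟩ | h
            · exact h
            · have := h3 s hs; omega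
            · have := h3 s hs; omega
          · intro s hs
            rcases z with _ | ⟨c, z⟩
            · simp at hz
            · simp only [List.head?_cons, Option.mem_def, Option.some.injEq] at hs
              subst hs
              exact ((List.isChain_cons_cons.1 hch').1.1).symm
          · intro s hs
            have := hcl' s (by
              rcases z with _ | ⟨c, z⟩
              · simp at hz
              · rw [List.getLast?_cons_cons]; exact hs) g (by simp)
            exact this.1
    · have hwg : wt ang v g = 2 := by rw [wt, if_neg hgk, hk]; norm_num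
      rw [hwg]; linarith
  · push Not at h2
    refine hN.loop v ω hne ⟨?_, hch⟩ hcl
    intro s hs
    rcases hst s hs with h | ⟨h, -⟩ | h
    · exact h
    · have := h2 s hs; omega
    · have := h2 s hs; omega

end Pool.HA
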