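import Pool.Agent.Work.MP_7084a3_h91.InterfaceX
import Pool.Agent.Work.MP_7084a3_h91.Basic

set_option autoImplicit false

/-! Block CONN (helper17): the coset complex of an Artin group is connected. -/

namespace Pool.HA

namespace CONNH17

variable {S : Type} {M : CoxeterMatrix S}

/-- the type 0 vertex -/
def o (x : Art M) : Vtx (gen M) := Vtx.mk (gen M) ∅ (by simp) x

theorem r_symm {v w : Vtx (gen M)} (h : Relation.ReflTransGen Vtx.ad v w) :
    Relation.ReflTransGen Vtx.ad w v := by
  induction h with
  | refl => exact Relation.ReflTransGen.refl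
  | tail _ h2 ih => exact (Relation.ReflTransGen.single (Vtx.ad_symm h2)).trans ih

theorem o_to {v : Vtx (gen M)} {x : Art M} (hx : v.mem x) :
    Relation.ReflTransGen Vtx.ad (o x) v := by
  by_cases h0 : v.J = ∅
  · have : o x = v := Vtx.ext_mem (by rw [h0]; rfl) (Vtx.mk_mem _ _ _) hx
    rw [this]
  · refine Relation.ReflTransGen.single (Vtx.ad_of (Vtx.mk_mem _ _ _) hx ?_)
    change ∅ ⊂ v.J
    exact Finset.empty_ssubset.2 (Finset.nonempty_iff_ne_empty.2 h0)

theorem o_gen (x : Art M) (s : S) : Relation.ReflTransGen Vtx.ad (o x) (o (x * gen M s)) := by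
  have h1 : (Vtx.mk (gen M) {s} (by simp) x).mem x := Vtx.mk_mem _ _ _
  have h2 : (Vtx.mk (gen M) {s} (by simp) x).mem (x * gen M s) := by
    rw [Vtx.mem1 (s := s) rfl h1]
    exact ⟨1, by simp⟩
  exact (o_to h1).trans (r_symm (o_to h2))

theorem o_all (y x : Art M) : Relation.ReflTransGen Vtx.ad (o x) (o (x * y)) := by
  have hy : y ∈ Subgroup.closure (Set.range (PresentedGroup.of (rels := braidRels M))) := by
    rw [PresentedGroup.closure_range_of]; trivial
  induction hy using Subgroup.closure_induction generalizing x with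
  | mem a ha =>
    obtain ⟨s, rfl⟩ := ha
    exact o_gen x s
  | one => rw [mul_one]
  | mul a b _ _ ha hb =>
    rw [← mul_assoc]
    exact (ha x).trans (hb (x * a))
  | inv a _ ha =>
    have := ha (x * a⁻¹)
    rw [inv_mul_cancel_right] at this
    exact r_symm this

end CONNH17

theorem stmt_CONN : Stmt_CONN := by
  intro S M v w
  obtain ⟨x, hx⟩ := v.exists_mem
  obtain ⟨y, hy⟩ := w.exists_mem
  have h : Relation.ReflTransGen Vtx.ad v w := by
    refine (CONNH17.r_symm (CONNH17.o_to hx)).trans ?_
    have := CONNH17.o_all (x⁻¹ * y) x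
    rw [mul_inv_cancel_left] at this
    exact this.trans (CONNH17.o_to hy)
  obtain ⟨l, hl, hlast⟩ := List.exists_isChain_cons_of_relationReflTransGen h
  refine ⟨v :: l, rfl, ?_, hl⟩
  rw [List.getLast?_eq_some_getLast (by simp), hlast]

end Pool.HA
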