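import Pool.Agent.Work.MP_7084a3_h91.InterfaceX

set_option autoImplicit false

namespace Pool.HA

theorem stmt_CYC (hXISO : Stmt_XISO) : Stmt_CYC := by
  intro S _ M hM r l hr hl hcw hfx hred
  obtain ⟨C, hC⟩ := hXISO S M hM
  have hmap : (l.map fun v => (v, true)).map Prod.fst = l := by
    rw [List.map_map]
    exact List.map_id _
  have h1 := hC (l.map fun v => (v, true)) (by simpa using hl) (by rw [hmap]; exact hcw) (by
    intro x q y h hq
    obtain ⟨x', z', hl', hx, hz⟩ := List.map_eq_append_iff.1 h
    obtain ⟨q', y', hz', hq', hy⟩ := List.map_eq_cons_iff.1 hz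
    subst hx hy hq' hz'
    intro n hn p hp
    rw [← List.map_append, List.head?_map] at hn
    rw [← List.map_append, List.getLast?_map] at hp
    obtain ⟨n', hn', rfl⟩ := Option.mem_map.1 hn
    obtain ⟨p', hp', rfl⟩ := Option.mem_map.1 hp
    refine ⟨hred x' q' y' hl' n' hn' p' hp', r, hr, ?_, ?_, ?_⟩
    · apply hfx
      have h2 := List.mem_of_mem_head? hn'
      rw [hl']
      rcases List.mem_append.1 h2 with h3 | h3
      · exact List.mem_append_right _ (List.mem_cons_of_mem _ h3)
      · exact List.mem_append_left _ h3
    · apply hfx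
      rw [hl']
      simp
    · apply hfx
      have h2 := List.mem_of_mem_getLast? hp'
      rw [hl']
      rcases List.mem_append.1 h2 with h3 | h3
      · exact List.mem_append_right _ (List.mem_cons_of_mem _ h3)
      · exact List.mem_append_left _ h3)
  have h2 : nns (l.map fun v => (v, true)) = 0 := by
    unfold nns
    rw [List.countP_eq_zero]
    intro a ha
    obtain ⟨b, -, rfl⟩ := List.mem_map.1 ha
    simp
  omega

end Pool.HA
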