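import Pool.Agent.Work.MP_7084a3_h91.InterfaceD

set_option autoImplicit false

namespace Pool.HA

namespace DCENx

theorem lift_alt {S G : Type} [Group G] (f : S → G) (s t : S) (n : ℕ) :
    FreeGroup.lift f (alt s t n) = altG (f s) (f t) n := by
  induction n generalizing s t with
  | zero => simp [alt, altG]
  | succ n ih => rw [alt, altG, map_mul, ih, FreeGroup.lift_apply_of]

theorem mk_alt {S : Type} (M : CoxeterMatrix S) (s t : S) (n : ℕ) :
    PresentedGroup.mk (braidRels M) (alt s t n) = altG (gen M s) (gen M t) n := by
  induction n generalizing s t with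
  | zero => simp [alt, altG]
  | succ n ih => rw [alt, altG, map_mul, ih]; rfl

/-- the braid relation -/
theorem braid {S : Type} (M : CoxeterMatrix S) (h0 : ∀ s t, M s t ≠ 0) (s t : S) (hst : s ≠ t) :
    altG (gen M s) (gen M t) (M s t) = altG (gen M t) (gen M s) (M s t) := by
  have h1 : PresentedGroup.mk (braidRels M) (alt s t (M s t) * (alt t s (M s t))⁻¹) = 1 :=
    PresentedGroup.one_of_mem ⟨s, t, hst, h0 s t, rfl⟩
  rw [map_mul, map_inv, mul_inv_eq_one, mk_alt, mk_alt] at h1
  exact h1

theorem altG_add {G : Type} [Group G] (x y : G) (a b : ℕ) :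
    altG x y (a + b) = altG x y a * (if Even a then altG x y b else altG y x b) := by
  induction a generalizing x y with
  | zero => simp [altG]
  | succ a ih =>
    rw [show a + 1 + b = (a + b) + 1 by ring, altG, altG, ih y x, mul_assoc]
    by_cases h : Even a <;> simp [h, Nat.even_add_one]

theorem altG_two_mul {G : Type} [Group G] (x y : G) (n : ℕ) : altG x y (n + n) = (x * y) ^ n := by
  induction n with
  | zero => simp [altG]
  | succ n ih =>
    rw [show n + 1 + (n + 1) = (n + n) + 1 + 1 by ring, altG, altG, ih, pow_succ', mul_assoc]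

theorem pow_eq {G : Type} [Group G] (x y : G) (m : ℕ) (h : altG x y m = altG y x m) :
    (x * y) ^ m = (y * x) ^ m := by
  rw [← altG_two_mul, ← altG_two_mul, altG_add, altG_add, h]

end DCENx

theorem stmt_DCEN : Stmt_DCEN := by
  intro S M h0 s t hst h hh
  have hb := DCENx.braid M h0 s t hst
  have hp := DCENx.pow_eq _ _ _ hb
  set x := gen M s
  set y := gen M t
  set m := M s t
  have key : ∀ n : ℕ, (x * y) ^ n * x = x * (y * x) ^ n := by
    intro n
    induction n with
    | zero => simp
    | succ n ih => rw [pow_succ', mul_assoc, ih, pow_succ']; simp only [mul_assoc]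
  have key2 : ∀ n : ℕ, (y * x) ^ n * y = y * (x * y) ^ n := by
    intro n
    induction n with
    | zero => simp
    | succ n ih => rw [pow_succ', mul_assoc, ih, pow_succ']; simp only [mul_assoc]
  have cx : Commute ((x * y) ^ m) x := by
    change (x * y) ^ m * x = x * (x * y) ^ m
    rw [key, ← hp]
  have cy : Commute ((x * y) ^ m) y := by
    change (x * y) ^ m * y = y * (x * y) ^ m
    rw [hp, key2, hp]
  refine Subgroup.closure_induction (p := fun h _ => Commute ((x * y) ^ m) h) ?_ ?_ ?_ ?_ hh
  · intro z hz
    rcases hz with rfl | hz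
    · exact cx
    · rw [Set.mem_singleton_iff] at hz
      rw [hz]
      exact cy
  · exact Commute.one_right _
  · intro a b _ _ ha hb
    exact ha.mul_right hb
  · intro a _ ha
    exact ha.inv_right

end Pool.HA
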