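import Pool.Agent.Work.MP_7084a3_h91.InterfaceD

set_option autoImplicit false

/-! # Basic lemmas on `wordF` (helper45) -/

namespace Pool.HA.H45

section
variable {F : Type} [Group F]

theorem wordF_nil (u j : F) : wordF u j [] = 1 := rfl

theorem wordF_cons (u j : F) (a : ℤ) (e : List ℤ) :
    wordF u j (a :: e) = u ^ a * j * wordF u j e := by
  simp [wordF]

theorem wordF_append (u j : F) (e f : List ℤ) :
    wordF u j (e ++ f) = wordF u j e * wordF u j f := by
  simp [wordF]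

theorem wordF_single (u j : F) (a : ℤ) : wordF u j [a] = u ^ a * j := by
  simp [wordF]

theorem mul_one_comm45 {x y : F} (h : x * y = 1) : y * x = 1 := by
  rw [mul_eq_one_iff_eq_inv] at h
  rw [h]; simp

theorem wordF_rot {u j : F} {e f : List ℤ} (h : wordF u j (e ++ f) = 1) :
    wordF u j (f ++ e) = 1 := by
  rw [wordF_append] at h ⊢
  exact mul_one_comm45 h

theorem u_zpow {m : ℕ} {u j : F} (h : UJ m u j) {a : ℤ} (ha : (m : ℤ) ∣ a) : u ^ a = 1 := by
  obtain ⟨k, rfl⟩ := ha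
  rw [zpow_mul, zpow_natCast, h.um, one_zpow]

theorem dvd_of_u_zpow {m : ℕ} {u j : F} (h : UJ m u j) {a : ℤ} (ha : u ^ a = 1) : (m : ℤ) ∣ a := by
  by_contra hd
  refine h.nf [a, a] (by simp) (by simpa using hd) ?_
  rw [wordF_cons, wordF_single, ha]
  simp [h.jj]

theorem j_ne_one {m : ℕ} {u j : F} (hm : 2 ≤ m) (h : UJ m u j) : j ≠ 1 := by
  intro hj
  have h1 : ¬ (m : ℤ) ∣ 1 := by
    intro hd
    have := Int.le_of_dvd one_pos hd
    omega
  refine h.nf [1, -1] (by simp) ?_ ?_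
  · intro a ha
    simp at ha
    rcases ha with rfl | rfl
    · exact h1
    · rw [dvd_neg]; exact h1
  · rw [wordF_cons, wordF_single, hj]
    simp

/-- number of entries divisible by `m` -/
def cd (m : ℕ) (e : List ℤ) : ℕ := e.countP (fun a => decide ((m : ℤ) ∣ a))

theorem cd_append (m : ℕ) (e f : List ℤ) : cd m (e ++ f) = cd m e + cd m f := by
  simp [cd, List.countP_append]

theorem cd_cons (m : ℕ) (a : ℤ) (e : List ℤ) :
    cd m (a :: e) = cd m e + if (m : ℤ) ∣ a then 1 else 0 := by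
  simp [cd, List.countP_cons]

theorem cd_eq_zero {m : ℕ} {e : List ℤ} (h : ∀ a ∈ e, ¬ (m : ℤ) ∣ a) : cd m e = 0 := by
  simp only [cd, List.countP_eq_zero, decide_eq_true_eq]
  exact h

theorem two_le_cd {m : ℕ} {e : List ℤ} :
    (∃ (x : List ℤ) (a : ℤ) (y : List ℤ) (b : ℤ) (z : List ℤ),
      e = x ++ a :: (y ++ b :: z) ∧ (m : ℤ) ∣ a ∧ (m : ℤ) ∣ b) → 2 ≤ cd m e := by
  rintro ⟨x, a, y, b, z, rfl, ha, hb⟩
  rw [cd_append, cd_cons, cd_append, cd_cons, if_pos ha, if_pos hb]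
  omega

theorem of_two_le_cd {m : ℕ} : ∀ {e : List ℤ}, 2 ≤ cd m e →
    ∃ (x : List ℤ) (a : ℤ) (y : List ℤ) (b : ℤ) (z : List ℤ),
      e = x ++ a :: (y ++ b :: z) ∧ (m : ℤ) ∣ a ∧ (m : ℤ) ∣ b
  | [], h => by simp [cd] at h
  | a :: e, h => by
    rw [cd_cons] at h
    by_cases ha : (m : ℤ) ∣ a
    · rw [if_pos ha] at h
      have h1 : 0 < cd m e := by omega
      rw [cd, List.countP_pos_iff] at h1
      obtain ⟨b, hb, hb2⟩ := h1
      obtain ⟨y, z, rfl⟩ := List.append_of_mem hb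
      exact ⟨[], a, y, b, z, rfl, ha, by simpa using hb2⟩
    · rw [if_neg ha] at h
      obtain ⟨x, a', y, b, z, rfl, h1, h2⟩ := of_two_le_cd (e := e) (by omega)
      exact ⟨a :: x, a', y, b, z, rfl, h1, h2⟩

/-- a list of length at least two is `b :: (f ++ [c])` -/
theorem list_ends {α : Type} {b : α} {l : List α} (h : l ≠ []) : ∃ f c, b :: l = b :: (f ++ [c]) :=
  ⟨l.dropLast, l.getLast h, by rw [List.dropLast_append_getLast h]⟩

/-- one entry divisible by `m`: shorten by two -/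
theorem shorten {u j : F} (hj : j * j = 1) (b c : ℤ) (f : List ℤ) :
    ∃ y ∈ Subgroup.closure ({u, j} : Set F),
      j * wordF u j (b :: (f ++ [c])) = y * wordF u j ((c + b) :: f) * y⁻¹ := by
  have hu : u ∈ Subgroup.closure ({u, j} : Set F) := Subgroup.subset_closure (by simp)
  have hjm : j ∈ Subgroup.closure ({u, j} : Set F) := Subgroup.subset_closure (by simp)
  have hji : j⁻¹ = j := inv_eq_of_mul_eq_one_left hj
  refine ⟨j * u ^ (-c), mul_mem hjm (zpow_mem hu _), ?_⟩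
  rw [wordF_cons, wordF_append, wordF_single, wordF_cons, mul_inv_rev, hji, zpow_neg, inv_inv,
    zpow_add]
  group

end

end Pool.HA.H45
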