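import Pool.Agent.Work.MP_7084a3_h91.InterfaceD
import Pool.Agent.Work.MP_7084a3_h91.Basic
import Pool.Agent.Work.MP_7084a3_h91.B.WF45

set_option autoImplicit false

/-! # Block DCPC (helper20): elements of a dihedral parabolic subgroup with a central power -/

namespace Pool.HA

open H45

namespace DCPC

section words
variable {F : Type} [Group F] {u j : F}

theorem alt_uj (hj : j * j = 1) (n : ℕ) :
    altG (u * j) (j * u) n = u ^ n * j ^ n ∧ altG (j * u) (u * j) n = j * u ^ n * j ^ (n + 1) := by
  induction n with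
  | zero => simp [altG, hj]
  | succ n ih =>
    obtain ⟨h1, h2⟩ := ih
    constructor
    · rw [altG, h2]
      rw [show u * j * (j * u ^ n * j ^ (n + 1)) = u * (j * j) * u ^ n * j ^ (n + 1) by
        simp only [mul_assoc], hj, mul_one, ← pow_succ']
    · rw [altG, h1]
      rw [show j * u * (u ^ n * j ^ n) = j * (u * u ^ n) * j ^ n by simp only [mul_assoc],
        ← pow_succ', pow_add j (n + 1), pow_succ j n, pow_one, mul_assoc (j ^ n), hj, mul_one]

theorem jz_even (hj : j * j = 1) {n : ℤ} (hn : Even n) : j ^ n = 1 := by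
  obtain ⟨k, rfl⟩ := hn
  rw [← two_mul, zpow_mul, zpow_two, hj, one_zpow]

theorem jz_odd (hj : j * j = 1) {n : ℤ} (hn : Odd n) : j ^ n = j := by
  obtain ⟨k, rfl⟩ := hn
  rw [zpow_add, zpow_mul, zpow_two, hj, one_zpow, one_mul, zpow_one]

theorem jz_natAbs (hj : j * j = 1) (n : ℤ) : j ^ n = j ^ n.natAbs := by
  rw [← zpow_natCast]
  rcases Int.even_or_odd n with h | h
  · rw [jz_even hj h, jz_even hj ((Int.even_coe_nat _).2 (Int.natAbs_even.2 h))]
  · rw [jz_odd hj h, jz_odd hj ((Int.odd_coe_nat _).2 (Int.natAbs_odd.2 h))]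

end words

section alts
variable {G : Type} [Group G]

theorem map_altG {H : Type} [Group H] (f : G →* H) (x y : G) (n : ℕ) :
    f (altG x y n) = altG (f x) (f y) n := by
  induction n generalizing x y with
  | zero => simp [altG]
  | succ n ih => rw [altG, altG, map_mul, ih]

theorem map_pos {H : Type} [Group H] (f : G →* H) (x y : G) (p : List Bool) :
    f (pos x y p) = pos (f x) (f y) p := by
  induction p with
  | nil => simp [pos]
  | cons b p ih =>
    have e1 : pos x y (b :: p) = (if b then x else y) * pos x y p := by simp [pos]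
    have e2 : pos (f x) (f y) (b :: p) = (if b then f x else f y) * pos (f x) (f y) p := by
      simp [pos]
    rw [e1, e2, map_mul, ih]
    cases b <;> simp

theorem altG_even (x y : G) (k : ℕ) : altG x y (2 * k) = (x * y) ^ k := by
  induction k with
  | zero => simp [altG]
  | succ k ih =>
    rw [show 2 * (k + 1) = 2 * k + 1 + 1 by ring, altG, altG, ih, pow_succ', mul_assoc]

theorem altG_odd_add (x y : G) (k n : ℕ) :
    altG x y (2 * k + 1 + n) = altG x y (2 * k + 1) * altG y x n := by
  induction k with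
  | zero =>
    rw [show 2 * 0 + 1 + n = n + 1 by ring, altG]
    simp [altG]
  | succ k ih =>
    have e : altG x y (2 * (k + 1) + 1) = x * (y * altG x y (2 * k + 1)) := rfl
    rw [e, show 2 * (k + 1) + 1 + n = 2 * k + 1 + n + 1 + 1 by ring, altG, altG, ih]
    simp only [mul_assoc]

theorem pos_altL (x y : G) (n : ℕ) :
    pos x y (altL true n) = altG x y n ∧ pos x y (altL false n) = altG y x n := by
  induction n with
  | zero => simp [pos, altL, altG]
  | succ n ih =>
    constructor
    · have : pos x y (altL true (n + 1)) = x * pos x y (altL false n) := by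
        simp [pos, altL]
      rw [this, ih.2, altG]
    · have : pos x y (altL false (n + 1)) = y * pos x y (altL true n) := by
        simp [pos, altL]
      rw [this, ih.1, altG]

theorem head_altL (d : Bool) (n : ℕ) (hn : n ≠ 0) : (altL d n).head? = some d := by
  obtain ⟨k, rfl⟩ := Nat.exists_eq_succ_of_ne_zero hn
  simp [altL]

/-- the square of the Garside element -/
theorem sq (s t : G) (m : ℕ) (hb : altG s t m = altG t s m) :
    altG s t m * altG s t m = (s * t) ^ m := by
  rcases Nat.even_or_odd' m with ⟨k, rfl | rfl⟩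
  · rw [altG_even, ← pow_add]
    congr 1
    ring
  · nth_rw 2 [hb]
    rw [← altG_odd_add, show 2 * k + 1 + (2 * k + 1) = 2 * (2 * k + 1) by ring, altG_even]

/-- an even power of the Garside element, or any power if `m` is even -/
theorem pow_st (s t : G) (m : ℕ) (hb : altG s t m = altG t s m) (i : ℤ) (hi : Even ((m : ℤ) * i)) :
    ∃ l : ℤ, altG s t m ^ i = (s * t) ^ l := by
  rcases Int.even_mul.1 hi with h | h
  · obtain ⟨k, hk⟩ : ∃ k, m = 2 * k := by
      obtain ⟨k, hk⟩ := (Int.even_coe_nat m).1 h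
      exact ⟨k, by omega⟩
    refine ⟨k * i, ?_⟩
    rw [hk, altG_even, zpow_mul, zpow_natCast]
  · obtain ⟨k, rfl⟩ := h
    refine ⟨m * k, ?_⟩
    rw [← two_mul, zpow_mul, zpow_two, sq s t m hb, zpow_mul, zpow_natCast]

end alts

/-- the conclusion -/
def Con {G : Type} [Group G] (s t : G) (m : ℕ) (y : G) : Prop :=
  ∃ w ∈ Subgroup.closure ({s, t} : Set G), ∃ l : ℤ, y = w * (s * t) ^ l * w⁻¹ ∨
        y = w * (altG s t m) ^ l * w⁻¹

theorem Con.conj {G : Type} [Group G] {s t : G} {m : ℕ} {y w : G}
    (hw : w ∈ Subgroup.closure ({s, t} : Set G)) (h : Con s t m (w⁻¹ * y * w)) : Con s t m y := by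
  obtain ⟨v, hv, l, h | h⟩ := h
  · refine ⟨w * v, mul_mem hw hv, l, Or.inl ?_⟩
    have : y = w * (w⁻¹ * y * w) * w⁻¹ := by group
    rw [this, h]
    group
  · refine ⟨w * v, mul_mem hw hv, l, Or.inr ?_⟩
    have : y = w * (w⁻¹ * y * w) * w⁻¹ := by group
    rw [this, h]
    group

/-- right cosets of the image -/
theorem coset {F : Type} [Group F] {u j : F} (hj : j * j = 1) (H : Subgroup F)
    (h1 : u * j ∈ H) (h2 : j * u ∈ H) (x : F) (hx : x ∈ Subgroup.closure ({u, j} : Set F)) :
    x ∈ H ∨ x * u⁻¹ ∈ H := by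
  have hji : j⁻¹ = j := inv_eq_of_mul_eq_one_left hj
  have hu2 : u * u ∈ H := by
    have := mul_mem h1 h2
    rwa [show u * j * (j * u) = u * (j * j) * u by simp only [mul_assoc], hj, mul_one] at this
  induction hx using Subgroup.closure_induction_right with
  | one => exact Or.inl (one_mem H)
  | mul_right x _ y hy ih =>
    simp only [Set.mem_insert_iff, Set.mem_singleton_iff] at hy
    rcases hy with rfl | rfl
    · rcases ih with h | h
      · right
        rw [mul_assoc, mul_inv_cancel, mul_one]
        exact h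
      · left
        have := mul_mem h hu2
        rwa [show x * y⁻¹ * (y * y) = x * y by group] at this
    · rcases ih with h | h
      · right
        have := mul_mem h (inv_mem h1)
        rwa [mul_inv_rev, hji, ← mul_assoc] at this
      · left
        have := mul_mem h h1
        rwa [show x * u⁻¹ * (u * y) = x * y by group] at this
  | mul_inv_cancel x _ y hy ih =>
    simp only [Set.mem_insert_iff, Set.mem_singleton_iff] at hy
    rcases hy with rfl | rfl
    · rcases ih with h | h
      · right
        have := mul_mem h (inv_mem hu2)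
        rwa [mul_inv_rev, ← mul_assoc] at this
      · exact Or.inl h
    · rcases ih with h | h
      · right
        have := mul_mem h (inv_mem h1)
        rwa [mul_inv_rev, ← mul_assoc] at this
      · left
        have := mul_mem h h1
        rw [show x * u⁻¹ * (u * y) = x * y by group] at this
        rwa [hji]

section core

variable {G F : Type} [Group G] [Group F] {s t : G} {m : ℕ} {u j : F}

/-- case 3: `m` even, image `u j u⁻¹` -/
theorem case3 (h4 : Stmt_DW1) (hm : 3 ≤ m) (hme : Even m) (hU : UJ m u j) (e : List ℤ)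
    (b c : ℕ) (hb : b ≤ 1) (hc : c ≤ 1) (he : e ≠ []) (hr : ∀ a ∈ e, 1 ≤ a ∧ a < m)
    (hp : Even ((b : ℤ) + c + e.length + e.sum))
    (h : j ^ b * wordF u j e * j ^ c = u * j * u⁻¹) : False := by
  have hj := hU.jj
  have hji : j⁻¹ = j := inv_eq_of_mul_eq_one_left hj
  have hnd : ∀ a ∈ e, ¬ (m : ℤ) ∣ a := by
    intro a ha hd
    have := Int.le_of_dvd (by have := (hr a ha).1; omega) hd
    have := (hr a ha).2
    omega
  have h1d : ¬ (m : ℤ) ∣ 1 := by
    intro hd
    have := Int.le_of_dvd one_pos hd
    omega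
  have hm1d : ¬ (m : ℤ) ∣ -1 := by rwa [dvd_neg]
  have key : ∀ l : List ℤ, l ≠ [] → cd m l < 2 → wordF u j l ≠ 1 := by
    intro l hl hc hw
    have := two_le_cd (h4 F m u j (by omega) hU l hl hw)
    omega
  have hcd : cd m e = 0 := cd_eq_zero hnd
  have hfin : u⁻¹ * (u * j * u⁻¹) * u * j = 1 := by
    rw [show u⁻¹ * (u * j * u⁻¹) * u * j = j * j by group, hj]
  interval_cases b <;> interval_cases c
  · -- b = 0, c = 0
    rw [pow_zero, one_mul, mul_one] at h
    obtain ⟨a, e', rfl⟩ := List.exists_cons_of_ne_nil he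
    refine key ((a - 1) :: (e' ++ [1])) (by simp) ?_ ?_
    · have h0 : cd m e' = 0 := cd_eq_zero (fun x hx => hnd x (List.mem_cons_of_mem _ hx))
      have h1 : cd m [1] = 0 := cd_eq_zero (by simpa using h1d)
      rw [cd_cons, cd_append, h0, h1]
      split_ifs <;> omega
    · rw [wordF_cons, wordF_append, wordF_single, zpow_one, sub_eq_add_neg, add_comm, zpow_add,
        zpow_neg_one]
      rw [wordF_cons] at h
      rw [← hfin, ← h]
      simp only [mul_assoc]
  · -- b = 0, c = 1
    rw [pow_zero, one_mul, pow_one] at h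
    obtain ⟨a, e', rfl⟩ := List.exists_cons_of_ne_nil he
    rw [wordF_cons] at h
    rcases List.eq_nil_or_concat e' with rfl | ⟨f, d, rfl⟩
    · -- r = 1
      rw [wordF_nil, mul_one, mul_assoc, hj, mul_one] at h
      refine hU.nf [a] (by simp) hnd ?_
      have h2 : u ^ a = u⁻¹ * u ^ a * u := by
        rw [← zpow_neg_one, ← zpow_add, ← zpow_add_one]
        congr 1
        ring
      rw [wordF_single, h2, h, hfin]
    · rw [List.concat_eq_append] at h hnd hr hp
      rw [wordF_append, wordF_single] at h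
      have h' : u ^ a * j * wordF u j f * u ^ d = u * j * u⁻¹ := by
        rw [← h]
        simp only [mul_assoc, hj, mul_one]
      have hw : u ^ (a - 1) * j * (wordF u j f * (u ^ (d + 1) * j)) = 1 := by
        rw [← hfin, ← h', sub_eq_add_neg, add_comm a, zpow_add, zpow_neg_one, zpow_add_one]
        simp only [mul_assoc]
      have hw' : wordF u j ((a - 1) :: (f ++ [d + 1])) = 1 := by
        rw [wordF_cons, wordF_append, wordF_single, hw]
      have hf : cd m f = 0 := cd_eq_zero (fun x hx => hnd x (by simp [hx]))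
      have h2 : 2 ≤ cd m ((a - 1) :: (f ++ [d + 1])) := by
        by_contra hlt
        exact key _ (by simp) (by omega) hw'
      have hd1 : cd m [d + 1] = if (m : ℤ) ∣ d + 1 then 1 else 0 := by
        rw [cd_cons]
        simp [cd]
      rw [cd_cons, cd_append, hf, hd1] at h2
      have ha := hr a (by simp)
      have hd := hr d (by simp)
      have hda : (m : ℤ) ∣ a - 1 := by
        by_contra hc'
        rw [if_neg hc'] at h2
        split_ifs at h2 <;> omega
      have hdd : (m : ℤ) ∣ d + 1 := by
        by_contra hc'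
        rw [if_neg hc'] at h2
        split_ifs at h2 <;> omega
      have ha1 : a = 1 := by
        have := Int.eq_zero_of_dvd_of_nonneg_of_lt (by omega) (by omega) hda
        omega
      have hdm : d = m - 1 := by
        obtain ⟨k, hk⟩ := hdd
        have hk1 : 0 < k := by
          by_contra hk1
          have : (m : ℤ) * k ≤ 0 := mul_nonpos_of_nonneg_of_nonpos (by omega) (by omega)
          omega
        have hk2 : k < 2 := by
          by_contra hk2
          have : (m : ℤ) * 2 ≤ m * k := mul_le_mul_of_nonneg_left (by omega) (by omega)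
          omega
        have : k = 1 := by omega
        subst this
        omega
      have hf1 : wordF u j f = 1 := by
        rw [u_zpow hU hda, u_zpow hU hdd, one_mul] at hw
        have : wordF u j f = j * (j * (wordF u j f * j)) * j := by
          rw [← mul_assoc j j, hj, one_mul, mul_assoc, hj, mul_one]
        rw [this, hw, mul_one, hj]
      have hf2 : f = [] := by
        by_contra hne
        exact hU.nf f hne (fun x hx => hnd x (by simp [hx])) hf1
      subst hf2
      rw [ha1, hdm] at hp
      simp only [List.nil_append, List.length_cons, List.length_nil, List.sum_cons,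
        List.sum_nil] at hp
      obtain ⟨k, hk⟩ := hme
      obtain ⟨l, hl⟩ := hp
      push_cast at hl
      omega
  · -- b = 1, c = 0
    rw [pow_zero, mul_one, pow_one] at h
    refine hU.nf (e ++ [1, -1]) (by simp) ?_ ?_
    · intro a ha
      simp only [List.mem_append, List.mem_cons, List.not_mem_nil, or_false] at ha
      rcases ha with ha | rfl | rfl
      · exact hnd a ha
      · exact h1d
      · exact hm1d
    · rw [wordF_append, wordF_cons, wordF_single]
      have h2 : wordF u j e = j * (u * j * u⁻¹) := by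
        rw [← h, ← mul_assoc, hj, one_mul]
      rw [h2, zpow_one, zpow_neg_one]
      rw [show j * (u * j * u⁻¹) * (u * j * (u⁻¹ * j)) = j * u * (j * j) * u⁻¹ * j by group, hj]
      rw [show j * u * 1 * u⁻¹ * j = j * j by group, hj]
  · -- b = 1, c = 1
    rw [pow_one] at h
    rcases List.eq_nil_or_concat e with rfl | ⟨f, d, rfl⟩
    · exact he rfl
    rw [List.concat_eq_append] at h hnd hr
    rw [wordF_append, wordF_single] at h
    have hf : cd m f = 0 := cd_eq_zero (fun x hx => hnd x (by simp [hx]))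
    have h1 : cd m [-1] = 0 := cd_eq_zero (by simpa using h1d)
    have h' : wordF u j f * u ^ d = j * (u * j * u⁻¹) := by
      rw [← h]
      simp only [← mul_assoc, hj, one_mul]
      simp only [mul_assoc, hj, mul_one]
    refine key (f ++ ((d + 1) :: [-1])) (by simp) ?_ ?_
    · rw [cd_append, cd_cons, hf, h1]
      split_ifs <;> omega
    · rw [wordF_append, wordF_cons, wordF_single, zpow_add_one, zpow_neg_one]
      rw [show wordF u j f * (u ^ d * u * j * (u⁻¹ * j)) =
        wordF u j f * u ^ d * (u * j * (u⁻¹ * j)) by simp only [mul_assoc], h']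
      rw [show j * (u * j * u⁻¹) * (u * j * (u⁻¹ * j)) = j * u * (j * j) * u⁻¹ * j by group, hj]
      rw [show j * u * 1 * u⁻¹ * j = j * j by group, hj]

theorem core (h1 : Stmt_DTOR) (h2 : Stmt_DNF) (h3 : Stmt_DNG) (h4 : Stmt_DW1) (h5 : Stmt_DW3)
    (hm : 3 ≤ m) (hb : altG s t m = altG t s m) (hU : UJ m u j)
    (θ : ↥(Subgroup.closure ({s, t} : Set G)) →* F) (hs : ∀ x, x.1 = s → θ x = u * j)
    (ht : ∀ x, x.1 = t → θ x = j * u) (y : ↥(Subgroup.closure ({s, t} : Set G))) (K : ℕ)
    (hK : 0 < K) (hy : θ y ^ K = 1) : Con s t m y.1 := by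
  have hj := hU.jj
  have hji : j⁻¹ = j := inv_eq_of_mul_eq_one_left hj
  obtain ⟨s', hs'⟩ : ∃ x : ↥(Subgroup.closure ({s, t} : Set G)), x.1 = s :=
    ⟨⟨s, Subgroup.subset_closure (by simp)⟩, rfl⟩
  obtain ⟨t', ht'⟩ : ∃ x : ↥(Subgroup.closure ({s, t} : Set G)), x.1 = t :=
    ⟨⟨t, Subgroup.subset_closure (by simp)⟩, rfl⟩
  have hθs : θ s' = u * j := hs s' hs'
  have hθt : θ t' = j * u := ht t' ht'
  have hum : u ∈ Subgroup.closure ({u, j} : Set F) := Subgroup.subset_closure (by simp)
  have hjm : j ∈ Subgroup.closure ({u, j} : Set F) := Subgroup.subset_closure (by simp)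
  have hrange : ∀ (g : G) (hg : g ∈ Subgroup.closure ({s, t} : Set G)),
      θ ⟨g, hg⟩ ∈ Subgroup.closure ({u, j} : Set F) := by
    intro g hg
    induction hg using Subgroup.closure_induction with
    | mem x hx =>
      simp only [Set.mem_insert_iff, Set.mem_singleton_iff] at hx
      rcases hx with rfl | rfl
      · rw [hs _ rfl]
        exact mul_mem hum hjm
      · rw [ht _ rfl]
        exact mul_mem hjm hum
    | one =>
      have : (⟨1, one_mem _⟩ : ↥(Subgroup.closure ({s, t} : Set G))) = 1 := rfl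
      rw [this, map_one]
      exact one_mem _
    | mul x y hx hy ihx ihy =>
      have : (⟨x * y, mul_mem hx hy⟩ : ↥(Subgroup.closure ({s, t} : Set G))) =
        ⟨x, hx⟩ * ⟨y, hy⟩ := rfl
      rw [this, map_mul]
      exact mul_mem ihx ihy
    | inv x hx ih =>
      have : (⟨x⁻¹, inv_mem hx⟩ : ↥(Subgroup.closure ({s, t} : Set G))) = ⟨x, hx⟩⁻¹ := rfl
      rw [this, map_inv]
      exact inv_mem ih
  have hdec : ∀ y₁ : ↥(Subgroup.closure ({s, t} : Set G)), ∃ (i : ℤ) (p : List Bool),
      y₁.1 = altG s t m ^ i * pos s t p ∧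
      (∀ (p₁ p₂ : List Bool) (b : Bool), p ≠ p₁ ++ altL b m ++ p₂) ∧
      θ y₁ = j ^ ((m : ℤ) * i).natAbs * pos (u * j) (j * u) p := by
    intro y₁
    obtain ⟨i, p, e1, e2⟩ := h2 G s t m (by omega) hb y₁.1 y₁.2
    refine ⟨i, p, e1, e2, ?_⟩
    have e3 : y₁ = altG s' t' m ^ i * pos s' t' p := by
      apply Subtype.ext
      have g1 := map_altG (Subgroup.closure ({s, t} : Set G)).subtype s' t' m
      have g2 := map_pos (Subgroup.closure ({s, t} : Set G)).subtype s' t' p
      rw [Subgroup.subtype_apply, Subgroup.subtype_apply, Subgroup.subtype_apply, hs', ht'] at g1 g2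
      rw [e1, Subgroup.coe_mul, Subgroup.coe_zpow, g1, g2]
    rw [e3, map_mul, map_zpow, map_altG, map_pos, hθs, hθt, (alt_uj hj m).1, hU.um, one_mul,
      ← jz_natAbs hj, zpow_mul, zpow_natCast]
  -- case 1
  have case1 : ∀ (y₁ : ↥(Subgroup.closure ({s, t} : Set G))) (a : ℤ), θ y₁ = u ^ a →
      Con s t m y₁.1 := by
    intro y₁ a ha
    obtain ⟨i, p, e1, e2, e3⟩ := hdec y₁
    by_cases hp : p = []
    · subst hp
      refine ⟨1, one_mem _, i, Or.inr ?_⟩
      rw [e1]
      simp [pos]
    obtain ⟨b, c, e, he, hr, hb1, hc1, hpos, hsum, hev, hhd, hone⟩ :=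
      h3 F m u j (by omega) hj p hp e2
    have hnd : ∀ a ∈ e, ¬ (m : ℤ) ∣ a := by
      intro a ha hd
      have := Int.le_of_dvd (by have := (hr a ha).1; omega) hd
      have := (hr a ha).2
      omega
    rw [hpos, ha] at e3
    obtain ⟨e₁, rfl, hB, hC, -⟩ := h5 F m u j (by omega) hU e (((m : ℤ) * i).natAbs + b) c a he hnd
      (by rw [pow_add, e3]; simp only [mul_assoc])
    obtain ⟨d, hd⟩ := hone rfl
    have hn0 : p.length ≠ 0 := by
      intro h0
      exact hp (List.length_eq_zero_iff.1 h0)
    have hhd' : p.head? = some d := by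
      rw [hd]
      exact head_altL d _ hn0
    rw [hhd'] at hhd
    have hc : c = 1 := by
      obtain ⟨k, hk⟩ := hC
      omega
    subst hc
    simp only [List.sum_cons, List.sum_nil, List.length_cons, List.length_nil, add_zero] at hsum hev
    subst hsum
    obtain ⟨k, hk⟩ := hev
    push_cast at hk
    interval_cases b
    · -- `b = 0`
      have hdt : d = true := by simpa using hhd
      have hN : Even ((m : ℤ) * i) := by
        rw [← Int.natAbs_even]
        simpa using hB
      obtain ⟨l, hl⟩ := pow_st s t m hb i hN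
      obtain ⟨n, hn⟩ : ∃ n, p.length = 2 * n := ⟨p.length / 2, by omega⟩
      refine ⟨1, one_mem _, l + n, Or.inl ?_⟩
      rw [e1, hd, hdt, (pos_altL s t _).1, hn, altG_even, hl, zpow_add, zpow_natCast]
      simp
    · have hdf : d = false := by
        cases d
        · rfl
        · simp at hhd
      have hN : ¬ Even ((m : ℤ) * i) := by
        rw [← Int.natAbs_even]
        intro hc
        obtain ⟨k1, hk1⟩ := hc
        obtain ⟨k2, hk2⟩ := hB
        omega
      rw [Int.even_mul, not_or, Int.not_even_iff_odd, Int.not_even_iff_odd] at hN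
      obtain ⟨hmo, hio⟩ := hN
      obtain ⟨i', hi'⟩ := hio
      obtain ⟨l, hl⟩ := pow_st s t m hb (2 * i') (by
        rw [Int.even_mul]
        exact Or.inr ⟨i', by ring⟩)
      obtain ⟨m', hm'⟩ : ∃ m', m = 2 * m' + 1 := by
        obtain ⟨m', hm'⟩ := hmo
        exact ⟨m'.toNat, by omega⟩
      obtain ⟨n, hn⟩ : ∃ n, m + p.length = 2 * n := ⟨(m + p.length) / 2, by omega⟩
      refine ⟨1, one_mem _, l + n, Or.inl ?_⟩
      have h6 : altG s t m * altG t s p.length = (s * t) ^ n := by
        rw [← altG_even, ← hn, hm', altG_odd_add]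
      rw [e1, hi', zpow_add, zpow_one, hl, mul_assoc, hd, hdf, (pos_altL s t _).2]
      rw [h6, zpow_add, zpow_natCast]
      simp
  -- case 2
  have case2 : ∀ (y₁ : ↥(Subgroup.closure ({s, t} : Set G))), θ y₁ = j → Con s t m y₁.1 := by
    intro y₁ ha
    obtain ⟨i, p, e1, e2, e3⟩ := hdec y₁
    by_cases hp : p = []
    · subst hp
      refine ⟨1, one_mem _, i, Or.inr ?_⟩
      rw [e1]
      simp [pos]
    obtain ⟨b, c, e, he, hr, hb1, hc1, hpos, hsum, hev, hhd, hone⟩ :=
      h3 F m u j (by omega) hj p hp e2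
    have hnd : ∀ a ∈ e, ¬ (m : ℤ) ∣ a := by
      intro a ha hd
      have := Int.le_of_dvd (by have := (hr a ha).1; omega) hd
      have := (hr a ha).2
      omega
    rw [hpos, ha] at e3
    obtain ⟨e₁, rfl, hB, hC, hdv⟩ := h5 F m u j (by omega) hU e (((m : ℤ) * i).natAbs + b + 1) c 0
      he hnd (by
        have : j * j = 1 := hj
        nth_rw 2 [e3] at this
        rw [zpow_zero, ← this, add_comm _ 1, pow_add, pow_add, pow_one]
        simp only [mul_assoc])
    rw [sub_zero] at hdv
    exact absurd hdv (hnd _ (by simp))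
  -- case 3
  have case3' : ∀ (y₁ : ↥(Subgroup.closure ({s, t} : Set G))), Even m → θ y₁ = u * j * u⁻¹ →
      Con s t m y₁.1 := by
    intro y₁ hme ha
    exfalso
    obtain ⟨i, p, e1, e2, e3⟩ := hdec y₁
    have hN : Even ((m : ℤ) * i).natAbs := by
      rw [Int.natAbs_even, Int.even_mul]
      exact Or.inl ((Int.even_coe_nat _).2 hme)
    have hjN : j ^ ((m : ℤ) * i).natAbs = 1 := by
      rw [← zpow_natCast]
      exact jz_even hj ((Int.even_coe_nat _).2 hN)
    rw [hjN, one_mul, ha] at e3
    by_cases hp : p = []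
    · subst hp
      apply j_ne_one (by omega) hU
      have : j = u⁻¹ * (u * j * u⁻¹) * u := by group
      rw [this, e3]
      simp [pos]
    obtain ⟨b, c, e, he, hr, hb1, hc1, hpos, hsum, hev, hhd, hone⟩ :=
      h3 F m u j (by omega) hj p hp e2
    rw [hpos] at e3
    exact case3 h4 hm hme hU e b c hb1 hc1 he hr hev e3.symm
  -- conclusion
  have hc := coset hj θ.range ⟨s', hθs⟩ ⟨t', hθt⟩
  obtain ⟨x, hx, hxy⟩ := h1 F m u j (by omega) hU (θ y) (hrange y.1 y.2) K hK hy
  have hcj : ∀ (w : ↥(Subgroup.closure ({s, t} : Set G))), Con s t m (w⁻¹ * y * w).1 →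
      Con s t m y.1 := by
    intro w hw
    exact Con.conj w.2 hw
  have hmap : ∀ (w : ↥(Subgroup.closure ({s, t} : Set G))), θ (w⁻¹ * y * w) =
      (θ w)⁻¹ * θ y * θ w := by
    intro w
    rw [map_mul, map_mul, map_inv]
  rcases hxy with ⟨a, ha⟩ | ha
  · rcases hc x hx with ⟨w, hw⟩ | ⟨w, hw⟩
    · apply hcj w
      apply case1 _ a
      rw [hmap, hw, ha]
      group
    · apply hcj w
      apply case1 _ a
      rw [hmap, hw, ha]
      group
  · rcases hc x hx with ⟨w, hw⟩ | ⟨w, hw⟩
    · apply hcj w
      apply case2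
      rw [hmap, hw, ha]
      group
    · rcases Nat.even_or_odd m with hme | hmo
      · apply hcj w
        apply case3' _ hme
        rw [hmap, hw, ha]
        group
      · -- `u` is in the image
        have hu : u ∈ θ.range := by
          obtain ⟨k, hk⟩ := hmo
          refine ⟨(s' * t') ^ (k + 1), ?_⟩
          rw [map_pow, map_mul, hθs, hθt, show u * j * (j * u) = u * (j * j) * u by
            simp only [mul_assoc], hj, mul_one, ← pow_two, ← pow_mul,
            show 2 * (k + 1) = m + 1 by omega, pow_succ, hU.um, one_mul]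
        obtain ⟨v, hv⟩ := hu
        apply hcj (w * v)
        apply case2
        rw [hmap, map_mul, hw, hv, ha]
        group

end core

/-- commuting with `sM` and `tM` -/
theorem scalar {m : ℕ} (hm : 3 ≤ m) (A : Matrix (Fin 2) (Fin 2) KK) (hs : A * sM m = sM m * A)
    (ht : A * tM m = tM m * A) : ∃ c : KK, A = c • (1 : Matrix (Fin 2) (Fin 2) KK) := by
  have hl : algebraMap ℝ KK (lam m) ≠ 0 := by
    intro h
    have h0 : lam m = 0 := (map_eq_zero (algebraMap ℝ KK)).1 h
    unfold lam at h0
    have hpos : 0 < Real.cos (Real.pi / m) := by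
      apply Real.cos_pos_of_mem_Ioo
      have hm' : (3 : ℝ) ≤ m := by exact_mod_cast hm
      constructor
      · have : 0 ≤ Real.pi / m := by positivity
        linarith [Real.pi_pos]
      · apply div_lt_div_of_pos_left Real.pi_pos two_pos
        linarith
    linarith
  have hq : (RatFunc.X : KK) ≠ 0 := RatFunc.X_ne_zero
  set l := algebraMap ℝ KK (lam m) with hl'
  have s00 := congrFun (congrFun hs 0) 0
  have s01 := congrFun (congrFun hs 0) 1
  have t00 := congrFun (congrFun ht 0) 0
  simp only [sM, tM, Matrix.mul_apply, Fin.sum_univ_two, Matrix.of_apply, Matrix.cons_val_zero,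
    Matrix.cons_val_one, Matrix.cons_val', Matrix.cons_val_fin_one] at s00 s01 t00
  rw [← hl'] at s00 s01 t00
  have h10 : A 1 0 = 0 := by
    have : l * A 1 0 = 0 := by linear_combination -s00
    exact (mul_eq_zero.1 this).resolve_left hl
  have h01 : A 0 1 = 0 := by
    have : (l * RatFunc.X) * A 0 1 = 0 := by linear_combination t00
    exact (mul_eq_zero.1 this).resolve_left (mul_ne_zero hl hq)
  have h11 : A 1 1 = A 0 0 := by
    have : l * (A 1 1 - A 0 0) = 0 := by
      rw [h01] at s01
      linear_combination -s01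
    exact sub_eq_zero.1 ((mul_eq_zero.1 this).resolve_left hl)
  refine ⟨A 0 0, ?_⟩
  ext i k
  fin_cases i <;> fin_cases k <;> simp [h10, h01, h11]

end DCPC

open DCPC in
theorem stmt_DCPC (hDTH : Stmt_DTH) (hDTOR : Stmt_DTOR) (hDNF : Stmt_DNF) (hDNG : Stmt_DNG)
    (hDW1 : Stmt_DW1) (hDW3 : Stmt_DW3) : Stmt_DCPC := by
  intro S M hM s t hst hm y hy K hK hc
  obtain ⟨F, iF, u, j, θ, Φ, hU, hΦs, hΦt, hθs, hθt, hsc⟩ := hDTH S M hM s t hst
  have hθ : θ ⟨y, hy⟩ ^ K = 1 := by
    rw [← map_pow, hsc]
    apply scalar hm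
    · have h1 := hc (gen M s) (left_mem_pr s t)
      have h2 : (⟨y, hy⟩ : ↥(pr (gen M) s t)) ^ K * ⟨gen M s, left_mem_pr s t⟩ =
          ⟨gen M s, left_mem_pr s t⟩ * (⟨y, hy⟩ : ↥(pr (gen M) s t)) ^ K := Subtype.ext h1.eq
      have h3 := congrArg Φ h2
      rwa [map_mul, map_mul, hΦs ⟨gen M s, left_mem_pr s t⟩ rfl] at h3
    · have h1 := hc (gen M t) (right_mem_pr s t)
      have h2 : (⟨y, hy⟩ : ↥(pr (gen M) s t)) ^ K * ⟨gen M t, right_mem_pr s t⟩ =
          ⟨gen M t, right_mem_pr s t⟩ * (⟨y, hy⟩ : ↥(pr (gen M) s t)) ^ K := Subtype.ext h1.eq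
      have h3 := congrArg Φ h2
      rwa [map_mul, map_mul, hΦt ⟨gen M t, right_mem_pr s t⟩ rfl] at h3
  exact core hDTOR hDNF hDNG hDW1 hDW3 hm (braid M hst (hM s t)) hU θ hθs hθt ⟨y, hy⟩ K hK hθ

end Pool.HA
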