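import Pool.Agent.Work.MP_7084a3_h91.InterfaceD

set_option autoImplicit false

/-! Block DDEG. -/

namespace Pool.HA

namespace ddeg

open Polynomial

noncomputable def Ur (m : ℕ) : (Matrix (Fin 2) (Fin 2) ℝ)ˣ where
  val := !![lam m, -1; 1, 0]
  inv := !![0, 1; -1, lam m]
  val_inv := by
    ext i j; fin_cases i <;> fin_cases j <;> simp [Matrix.mul_apply, Fin.sum_univ_two]
  inv_val := by
    ext i j; fin_cases i <;> fin_cases j <;> simp [Matrix.mul_apply, Fin.sum_univ_two]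

/-- `sin θ • Ur ^ a` -/
noncomputable def Nm (θ : ℝ) (a : ℤ) : Matrix (Fin 2) (Fin 2) ℝ :=
  !![Real.sin ((a + 1) * θ), -Real.sin (a * θ); Real.sin (a * θ), -Real.sin ((a - 1) * θ)]

theorem sin_rec (y θ : ℝ) : Real.sin y * (2 * Real.cos θ) = Real.sin (y + θ) + Real.sin (y - θ) := by
  rw [Real.sin_add, Real.sin_sub]; ring

theorem Ur_zpow (m : ℕ) (a : ℤ) :
    Real.sin (Real.pi / m) • ((Ur m ^ a : (Matrix (Fin 2) (Fin 2) ℝ)ˣ) : Matrix (Fin 2) (Fin 2) ℝ) =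
      Nm (Real.pi / m) a := by
  set θ := Real.pi / m with hθ
  have hl : lam m = 2 * Real.cos θ := rfl
  induction a using Int.induction_on with
  | zero =>
    ext i j
    fin_cases i <;> fin_cases j <;> simp [Nm]
  | succ n ih =>
    rw [zpow_add_one, Units.val_mul, ← smul_mul_assoc, ih]
    have h1 := sin_rec (((n : ℝ) + 1) * θ) θ
    have h2 := sin_rec ((n : ℝ) * θ) θ
    have e1 : ((n : ℝ) + 1) * θ + θ = ((n : ℝ) + 1 + 1) * θ := by ring
    have e2 : ((n : ℝ) + 1) * θ - θ = (n : ℝ) * θ := by ring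
    have e3 : (n : ℝ) * θ + θ = ((n : ℝ) + 1) * θ := by ring
    have e4 : (n : ℝ) * θ - θ = ((n : ℝ) - 1) * θ := by ring
    rw [e1, e2] at h1
    rw [e3, e4] at h2
    ext i j
    fin_cases i <;> fin_cases j
    · simp [Nm, Ur, Matrix.mul_apply, Fin.sum_univ_two, hl]; linarith
    · simp [Nm, Ur, Matrix.mul_apply, Fin.sum_univ_two, hl]
    · simp [Nm, Ur, Matrix.mul_apply, Fin.sum_univ_two, hl]; linarith
    · simp [Nm, Ur, Matrix.mul_apply, Fin.sum_univ_two, hl]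
  | pred n ih =>
    rw [zpow_sub_one, Units.val_mul, ← smul_mul_assoc, ih]
    have h1 := sin_rec ((-(n : ℝ)) * θ) θ
    have h2 := sin_rec ((-(n : ℝ) - 1) * θ) θ
    have e1 : (-(n : ℝ)) * θ + θ = (-(n : ℝ) + 1) * θ := by ring
    have e2 : (-(n : ℝ)) * θ - θ = (-(n : ℝ) - 1) * θ := by ring
    have e3 : (-(n : ℝ) - 1) * θ + θ = (-(n : ℝ)) * θ := by ring
    have e4 : (-(n : ℝ) - 1) * θ - θ = (-(n : ℝ) - 1 - 1) * θ := by ring
    rw [e1, e2] at h1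
    rw [e3, e4] at h2
    ext i j
    fin_cases i <;> fin_cases j
    · simp [Nm, Ur, Matrix.mul_apply, Fin.sum_univ_two, hl]
    · simp [Nm, Ur, Matrix.mul_apply, Fin.sum_univ_two, hl] at *; linarith
    · simp [Nm, Ur, Matrix.mul_apply, Fin.sum_univ_two, hl]
    · simp [Nm, Ur, Matrix.mul_apply, Fin.sum_univ_two, hl] at *; linarith

theorem Ur_ne (m : ℕ) (hm : 2 ≤ m) (a : ℤ) (ha : ¬ (m : ℤ) ∣ a) :
    ((Ur m ^ a : (Matrix (Fin 2) (Fin 2) ℝ)ˣ) : Matrix (Fin 2) (Fin 2) ℝ) 0 1 ≠ 0 := by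
  intro h0
  have h := congrFun (congrFun (Ur_zpow m a) 0) 1
  rw [Matrix.smul_apply, h0] at h
  simp [Nm] at h
  rw [Real.sin_eq_zero_iff] at h
  obtain ⟨k, hk⟩ := h
  apply ha
  refine ⟨k, ?_⟩
  have hm0 : (m : ℝ) ≠ 0 := by positivity
  have hpi := Real.pi_ne_zero
  have : (a : ℝ) = m * k := by
    field_simp at hk
    linarith
  exact_mod_cast this

noncomputable def Jp : Matrix (Fin 2) (Fin 2) ℝ[X] := !![0, 1; X, 0]

noncomputable def Zp (m : ℕ) : List ℤ → Matrix (Fin 2) (Fin 2) ℝ[X]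
  | [] => 1
  | a :: e => ((C : ℝ →+* ℝ[X]).mapMatrix
      ((Ur m ^ a : (Matrix (Fin 2) (Fin 2) ℝ)ˣ) : Matrix (Fin 2) (Fin 2) ℝ) * Jp) * Zp m e

theorem Zp_00 (m : ℕ) (a : ℤ) (e : List ℤ) :
    Zp m (a :: e) 0 0 = C (((Ur m ^ a : (Matrix (Fin 2) (Fin 2) ℝ)ˣ) : Matrix (Fin 2) (Fin 2) ℝ) 0 1) *
      (X * Zp m e 0 0) + C (((Ur m ^ a : (Matrix (Fin 2) (Fin 2) ℝ)ˣ) : Matrix (Fin 2) (Fin 2) ℝ) 0 0) * Zp m e 1 0 := by
  rw [Zp]; simp [Jp, Matrix.mul_apply, Fin.sum_univ_two]; ring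
theorem Zp_01 (m : ℕ) (a : ℤ) (e : List ℤ) :
    Zp m (a :: e) 0 1 = C (((Ur m ^ a : (Matrix (Fin 2) (Fin 2) ℝ)ˣ) : Matrix (Fin 2) (Fin 2) ℝ) 0 1) *
      (X * Zp m e 0 1) + C (((Ur m ^ a : (Matrix (Fin 2) (Fin 2) ℝ)ˣ) : Matrix (Fin 2) (Fin 2) ℝ) 0 0) * Zp m e 1 1 := by
  rw [Zp]; simp [Jp, Matrix.mul_apply, Fin.sum_univ_two]; ring
theorem Zp_10 (m : ℕ) (a : ℤ) (e : List ℤ) :
    Zp m (a :: e) 1 0 = C (((Ur m ^ a : (Matrix (Fin 2) (Fin 2) ℝ)ˣ) : Matrix (Fin 2) (Fin 2) ℝ) 1 1) *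
      (X * Zp m e 0 0) + C (((Ur m ^ a : (Matrix (Fin 2) (Fin 2) ℝ)ˣ) : Matrix (Fin 2) (Fin 2) ℝ) 1 0) * Zp m e 1 0 := by
  rw [Zp]; simp [Jp, Matrix.mul_apply, Fin.sum_univ_two]; ring
theorem Zp_11 (m : ℕ) (a : ℤ) (e : List ℤ) :
    Zp m (a :: e) 1 1 = C (((Ur m ^ a : (Matrix (Fin 2) (Fin 2) ℝ)ˣ) : Matrix (Fin 2) (Fin 2) ℝ) 1 1) *
      (X * Zp m e 0 1) + C (((Ur m ^ a : (Matrix (Fin 2) (Fin 2) ℝ)ˣ) : Matrix (Fin 2) (Fin 2) ℝ) 1 0) * Zp m e 1 1 := by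
  rw [Zp]; simp [Jp, Matrix.mul_apply, Fin.sum_univ_two]; ring

theorem Zp_inv (m : ℕ) (hm : 2 ≤ m) (e : List ℤ) (he : ∀ a ∈ e, ¬ (m : ℤ) ∣ a) :
    (Zp m e 0 0).coeff e.length ≠ 0 ∧
      (∀ k, e.length < k → (Zp m e 0 0).coeff k = 0 ∧ (Zp m e 1 0).coeff k = 0 ∧
        (Zp m e 1 1).coeff k = 0) ∧ (∀ k, e.length ≤ k → (Zp m e 0 1).coeff k = 0) := by
  induction e with
  | nil =>
    refine ⟨by simp [Zp], fun k hk => ?_, fun k _ => by simp [Zp]⟩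
    have hk0 : k ≠ 0 := by simp at hk; omega
    simp [Zp, Polynomial.coeff_one, hk0]
  | cons a e ih =>
    obtain ⟨i1, i2, i3⟩ := ih (fun b hb => he b (List.mem_cons_of_mem _ hb))
    have ha := Ur_ne m hm a (he a List.mem_cons_self)
    refine ⟨?_, fun k hk => ?_, fun k hk => ?_⟩
    · rw [Zp_00, List.length_cons, coeff_add, coeff_C_mul, coeff_C_mul, coeff_X_mul,
        (i2 (e.length + 1) (by omega)).2.1, mul_zero, add_zero]
      exact mul_ne_zero ha i1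
    · rw [List.length_cons] at hk
      obtain ⟨k, rfl⟩ : ∃ k', k = k' + 1 := ⟨k - 1, by omega⟩
      have q1 := i2 k (by omega)
      have q2 := i2 (k + 1) (by omega)
      have q3 := i3 k (by omega)
      refine ⟨?_, ?_, ?_⟩
      · rw [Zp_00, coeff_add, coeff_C_mul, coeff_C_mul, coeff_X_mul, q1.1, q2.2.1]; simp
      · rw [Zp_10, coeff_add, coeff_C_mul, coeff_C_mul, coeff_X_mul, q1.1, q2.2.1]; simp
      · rw [Zp_11, coeff_add, coeff_C_mul, coeff_C_mul, coeff_X_mul, q3, q2.2.2]; simp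
    · rw [List.length_cons] at hk
      obtain ⟨k, rfl⟩ : ∃ k', k = k' + 1 := ⟨k - 1, by omega⟩
      have q2 := i2 (k + 1) (by omega)
      have q3 := i3 k (by omega)
      rw [Zp_01, coeff_add, coeff_C_mul, coeff_C_mul, coeff_X_mul, q3, q2.2.2]; simp

theorem Zp_11_coeff (m : ℕ) (hm : 2 ≤ m) (e : List ℤ) (hne : e ≠ [])
    (he : ∀ a ∈ e, ¬ (m : ℤ) ∣ a) : (Zp m e 1 1).coeff e.length = 0 := by
  cases e with
  | nil => exact absurd rfl hne
  | cons a e =>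
    obtain ⟨i1, i2, i3⟩ := Zp_inv m hm e (fun b hb => he b (List.mem_cons_of_mem _ hb))
    have q2 := i2 (e.length + 1) (by omega)
    have q3 := i3 e.length (le_refl _)
    rw [Zp_11, List.length_cons, coeff_add, coeff_C_mul, coeff_C_mul, coeff_X_mul, q3, q2.2.2]
    simp

theorem U_eq (m : ℕ) (U : (Matrix (Fin 2) (Fin 2) KK)ˣ) (hU : (U : Matrix _ _ KK) = U0 m) :
    U = Units.map ((algebraMap ℝ KK).mapMatrix :
      Matrix (Fin 2) (Fin 2) ℝ →+* Matrix (Fin 2) (Fin 2) KK).toMonoidHom (Ur m) := by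
  apply Units.ext
  rw [hU]
  ext i j
  fin_cases i <;> fin_cases j <;> simp [U0, Ur]

theorem wordF_eq (m : ℕ) (U J : (Matrix (Fin 2) (Fin 2) KK)ˣ) (hU : (U : Matrix _ _ KK) = U0 m)
    (hJ : (J : Matrix _ _ KK) = J0) (e : List ℤ) :
    (wordF U J e).val = (algebraMap ℝ[X] KK).mapMatrix (Zp m e) := by
  induction e with
  | nil => simp [wordF, Zp]
  | cons a e ih =>
    have h1 : wordF U J (a :: e) = (U ^ a * J) * wordF U J e := by simp [wordF]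
    have hB : J0 = (algebraMap ℝ[X] KK).mapMatrix Jp := by
      ext i j
      fin_cases i <;> fin_cases j <;> simp [J0, Jp, RatFunc.algebraMap_X]
    have hA : ((U ^ a : (Matrix (Fin 2) (Fin 2) KK)ˣ) : Matrix (Fin 2) (Fin 2) KK) =
        (algebraMap ℝ[X] KK).mapMatrix ((C : ℝ →+* ℝ[X]).mapMatrix
          ((Ur m ^ a : (Matrix (Fin 2) (Fin 2) ℝ)ˣ) : Matrix (Fin 2) (Fin 2) ℝ)) := by
      rw [U_eq m U hU, ← map_zpow]
      ext i j
      change algebraMap ℝ KK _ = algebraMap ℝ[X] KK (C _)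
      rw [IsScalarTower.algebraMap_apply ℝ ℝ[X] KK]
      rfl
    rw [h1, Units.val_mul, Units.val_mul, ih, Zp, map_mul, map_mul, hJ, hA, hB]

end ddeg

open ddeg in
theorem stmt_DDEG : Stmt_DDEG := by
  intro m hm U J hU hJ e hne he c
  have hw := wordF_eq m U J hU hJ e
  obtain ⟨i1, i2, i3⟩ := Zp_inv m hm e he
  have i4 := Zp_11_coeff m hm e hne he
  have hinj : Function.Injective (algebraMap (Polynomial ℝ) KK) :=
    IsFractionRing.injective (Polynomial ℝ) KK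
  constructor
  · intro h
    rw [hw] at h
    have h00 := congrFun (congrFun h 0) 0
    have h11 := congrFun (congrFun h 1) 1
    simp at h00 h11
    have := hinj (h00.trans h11.symm)
    rw [this] at i1
    exact i1 i4
  · intro h
    have h2 : (wordF U J e).val = c • J0 := by
      have : wordF U J e = (wordF U J e * J⁻¹) * J := by simp
      rw [this, Units.val_mul, h, hJ]
      simp
    rw [hw] at h2
    have h00 := congrFun (congrFun h2 0) 0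
    simp [J0] at h00
    have : Zp m e 0 0 = 0 := h00
    rw [this] at i1
    simp at i1

end Pool.HA
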