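import Pool.Agent.Work.MP_7084a3_h91.InterfaceD

set_option autoImplicit false

namespace Pool.HA

namespace DINJx

theorem mk_alt {S : Type} (M : CoxeterMatrix S) (s t : S) (n : ℕ) :
    PresentedGroup.mk (braidRels M) (alt s t n) = altG (gen M s) (gen M t) n := by
  induction n generalizing s t with
  | zero => simp [alt, altG]
  | succ n ih => rw [alt, altG, map_mul, ih]; rfl

/-- the braid relation -/
theorem braid {S : Type} (M : CoxeterMatrix S) (h0 : ∀ s t, M s t ≠ 0) (s t : S) (hst : s ≠ t) :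
    altG (gen M s) (gen M t) (M s t) = altG (gen M t) (gen M s) (M s t) := by
  have h1 : PresentedGroup.mk (braidRels M) (alt s t (M s t) * (alt t s (M s t))⁻¹) = 1 :=
    PresentedGroup.one_of_mem ⟨s, t, hst, h0 s t, rfl⟩
  rw [map_mul, map_inv, mul_inv_eq_one, mk_alt, mk_alt] at h1
  exact h1

theorem esum_gen {S : Type} (M : CoxeterMatrix S) (s : S) :
    esum M (gen M s) = Multiplicative.ofAdd (1 : ℤ) := by
  unfold esum gen
  exact PresentedGroup.toGroup.of _

theorem map_altG {G H : Type} [Group G] [Group H] (f : G →* H) (x y : G) (n : ℕ) :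
    f (altG x y n) = altG (f x) (f y) n := by
  induction n generalizing x y with
  | zero => simp [altG]
  | succ n ih => rw [altG, altG, map_mul, ih]

theorem map_pos {G H : Type} [Group G] [Group H] (f : G →* H) (x y : G) (p : List Bool) :
    f (pos x y p) = pos (f x) (f y) p := by
  induction p with
  | nil => simp [pos]
  | cons b p ih =>
    unfold pos at ih ⊢
    rw [List.map_cons, List.prod_cons, map_mul, ih, List.map_cons, List.prod_cons]
    cases b <;> simp

theorem altG_same (n : ℕ) :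
    altG (Multiplicative.ofAdd (1 : ℤ)) (Multiplicative.ofAdd (1 : ℤ)) n =
      Multiplicative.ofAdd (n : ℤ) := by
  induction n with
  | zero => rfl
  | succ n ih =>
    rw [altG, ih, ← ofAdd_add]
    congr 1
    push_cast; ring

theorem altG_uj {F : Type} [Group F] (u j : F) (hj : j * j = 1) (n : ℕ) :
    altG (u * j) (j * u) n = u ^ n * (if Even n then 1 else j) ∧
      altG (j * u) (u * j) n = j * u ^ n * (if Even n then j else 1) := by
  induction n with
  | zero => simp [altG, hj]
  | succ n ih =>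
    constructor
    · rw [altG, ih.2]
      have e2 : ∀ z : F, j * (j * z) = z := fun z => by rw [← mul_assoc, hj, one_mul]
      by_cases h : Even n <;> simp [h, Nat.even_add_one, mul_assoc, e2, pow_succ']
    · rw [altG, ih.1]
      by_cases h : Even n <;> simp [h, Nat.even_add_one, mul_assoc, pow_succ']

theorem zpow_j {F : Type} [Group F] (j : F) (hj : j * j = 1) (k : ℤ) : ∃ b : ℕ, j ^ k = j ^ b := by
  have h2 : j ^ (2 : ℤ) = 1 := by
    rw [zpow_ofNat, pow_two, hj]
  rcases Int.even_or_odd' k with ⟨c, hc | hc⟩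
  · refine ⟨0, ?_⟩
    rw [hc, zpow_mul, h2, one_zpow, pow_zero]
  · refine ⟨1, ?_⟩
    rw [hc, zpow_add, zpow_mul, h2, one_zpow, one_mul, zpow_one, pow_one]

end DINJx

theorem stmt_DINJ (h1 : Stmt_DNF) (h2 : Stmt_DNG) (h3 : Stmt_DW3) : Stmt_DINJ := by
  intro S M h0 s t hst F iF u j θ hUJ hs ht x hx hex
  have hm : 2 ≤ M s t := by
    have e1 := h0 s t
    have e2 := M.off_diagonal s t hst
    omega
  have hbr := DINJx.braid M h0 s t hst
  obtain ⟨k, p, hxp, hno⟩ := h1 (Art M) (gen M s) (gen M t) (M s t) hm hbr x.1 x.2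
  have hs' : gen M s ∈ pr (gen M) s t := Subgroup.subset_closure (by simp)
  have ht' : gen M t ∈ pr (gen M) s t := Subgroup.subset_closure (by simp)
  -- lift to the subgroup
  have hx' : x = altG (⟨gen M s, hs'⟩ : ↥(pr (gen M) s t)) ⟨gen M t, ht'⟩ (M s t) ^ k *
      pos (⟨gen M s, hs'⟩ : ↥(pr (gen M) s t)) ⟨gen M t, ht'⟩ p := by
    apply Subtype.ext
    have e := map_mul (pr (gen M) s t).subtype
      (altG (⟨gen M s, hs'⟩ : ↥(pr (gen M) s t)) ⟨gen M t, ht'⟩ (M s t) ^ k)
      (pos (⟨gen M s, hs'⟩ : ↥(pr (gen M) s t)) ⟨gen M t, ht'⟩ p)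
    rw [map_zpow, DINJx.map_altG, DINJx.map_pos] at e
    exact hxp.trans e.symm
  have hθ := congrArg θ hx'
  rw [hx, map_mul, map_zpow, DINJx.map_altG, DINJx.map_pos, hs _ rfl, ht _ rfl,
    (DINJx.altG_uj u j hUJ.jj (M s t)).1, hUJ.um, one_mul] at hθ
  -- the power of `Δ`
  have hb : ∃ b : ℕ, (if Even (M s t) then 1 else j) ^ k = j ^ b := by
    by_cases he : Even (M s t)
    · rw [if_pos he]
      exact ⟨0, by simp⟩
    · rw [if_neg he]
      exact DINJx.zpow_j j hUJ.jj k
  obtain ⟨b'', hb''⟩ := hb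
  rw [hb''] at hθ
  have hp : p = [] := by
    by_contra hpne
    obtain ⟨b, c, e, he, hall, _, _, hpos, _, _, _, _⟩ := h2 F (M s t) u j hm hUJ.jj p hpne hno
    rw [hpos] at hθ
    have hθ' : j ^ (b'' + b) * wordF u j e * j ^ c = u ^ (0 : ℤ) := by
      rw [zpow_zero, hθ, pow_add]
      simp only [mul_assoc]
    have hnd : ∀ x ∈ e, ¬ ((M s t : ℕ) : ℤ) ∣ x := by
      intro y hy hd
      obtain ⟨g1, g2⟩ := hall y hy
      have := Int.le_of_dvd (by omega) hd
      omega
    obtain ⟨e₁, hee, _, _, hd⟩ := h3 F (M s t) u j hm hUJ e (b'' + b) c 0 he hnd hθ'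
    rw [sub_zero] at hd
    exact hnd e₁ (by rw [hee]; simp) hd
  subst hp
  have hxk : x.1 = altG (gen M s) (gen M t) (M s t) ^ k := by
    rw [hxp]
    simp [pos]
  have hsum : ((M s t : ℕ) : ℤ) * k = 0 := by
    have e1 := hex
    rw [hxk, map_zpow, DINJx.map_altG, DINJx.esum_gen, DINJx.esum_gen, DINJx.altG_same,
      ← ofAdd_zsmul] at e1
    have e2 := Multiplicative.ofAdd.injective (e1.trans ofAdd_zero.symm)
    rw [smul_eq_mul] at e2
    rw [mul_comm]
    exact e2
  have hk : k = 0 := by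
    rcases mul_eq_zero.1 hsum with h | h
    · exfalso
      have : M s t = 0 := by exact_mod_cast h
      omega
    · exact h
  apply Subtype.ext
  rw [hxk, hk, zpow_zero]
  rfl

end Pool.HA
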