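import Pool.Agent.Work.MP_7084a3_h91.InterfaceD

set_option autoImplicit false

namespace Pool.HA

theorem stmt_DNCM (h1 : Stmt_DSLG) : Stmt_DNCM := by
  intro S M h0 s t hst hm b hc
  by_contra hb
  have h2 := h1 S M h0 s t hst [b, 1, -b, -1] (by simp) (by
    intro a ha
    simp only [List.mem_cons, List.not_mem_nil, or_false] at ha
    rcases ha with rfl | rfl | rfl | rfl
    · exact hb
    · norm_num
    · exact neg_ne_zero.2 hb
    · norm_num) (by simp; decide) (by
    simp only [altP, zpow_neg, zpow_one, mul_one]
    have h3 : gen M s ^ b * gen M t = gen M t * gen M s ^ b := hc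
    rw [← mul_assoc, h3]
    group)
  simp at h2
  omega

end Pool.HA
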