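import Pool.Agent.Work.MP_7084a3_h91.InterfaceD

set_option autoImplicit false

namespace Pool.HA

namespace DNFx

variable {G : Type} [Group G]

theorem pos_append (s t : G) (p q : List Bool) : pos s t (p ++ q) = pos s t p * pos s t q := by
  simp [pos]

theorem pos_cons (s t : G) (b : Bool) (q : List Bool) :
    pos s t (b :: q) = (if b then s else t) * pos s t q := by
  simp [pos]

theorem pos_altL (s t : G) (n : ℕ) : pos s t (altL true n) = altG s t n ∧
    pos s t (altL false n) = altG t s n := by
  induction n with
  | zero => exact ⟨rfl, rfl⟩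
  | succ n ih =>
    constructor
    · rw [altL, pos_cons, Bool.not_true, ih.2]; rfl
    · rw [altL, pos_cons, Bool.not_false, ih.1]; rfl

/-- the letter at position `n` of the alternating word starting with `b` -/
def lst (b : Bool) (n : ℕ) : Bool := if Even n then b else !b

theorem altL_succ (b : Bool) (n : ℕ) : altL b (n + 1) = altL b n ++ [lst b n] := by
  induction n generalizing b with
  | zero => simp [altL, lst]
  | succ n ih =>
    rw [altL, ih (!b)]
    have : lst (!b) n = lst b (n + 1) := by
      unfold lst
      by_cases h : Even n <;> simp [h, Nat.even_add_one]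
    rw [this]
    rfl

/-- the flip -/
def flp (m : ℕ) (b : Bool) : Bool := if Even m then b else !b

theorem flp_flp (m : ℕ) (b : Bool) : flp m (flp m b) = b := by
  unfold flp
  by_cases h : Even m <;> simp [h]

variable {s t : G} {m : ℕ}

theorem pos_altL_eq (h : altG s t m = altG t s m) (b : Bool) : pos s t (altL b m) = altG s t m := by
  cases b
  · rw [(pos_altL s t m).2, h]
  · rw [(pos_altL s t m).1]

theorem letter_mul (h : altG s t m = altG t s m) (b : Bool) :
    (if b then s else t) * altG s t m = altG s t m * (if flp m b then s else t) := by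
  have h1 : pos s t (altL b (m + 1)) = (if b then s else t) * altG s t m := by
    rw [altL, pos_cons, pos_altL_eq h]
  have h2 : pos s t (altL b (m + 1)) = altG s t m * (if flp m b then s else t) := by
    rw [altL_succ, pos_append, pos_altL_eq h]
    congr 1
    simp [pos, lst, flp]
  rw [← h1, h2]

theorem pos_mul (h : altG s t m = altG t s m) (p : List Bool) :
    pos s t p * altG s t m = altG s t m * pos s t (p.map (flp m)) := by
  induction p with
  | nil => simp [pos]
  | cons b p ih =>
    rw [pos_cons, mul_assoc, ih, ← mul_assoc, letter_mul h, List.map_cons, pos_cons, mul_assoc]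

theorem pos_mul_inv (h : altG s t m = altG t s m) (p : List Bool) :
    pos s t p * (altG s t m)⁻¹ = (altG s t m)⁻¹ * pos s t (p.map (flp m)) := by
  have h1 := pos_mul h (p.map (flp m))
  rw [List.map_map] at h1
  have h2 : (flp m ∘ flp m) = id := by funext b; exact flp_flp m b
  rw [h2, List.map_id] at h1
  rw [eq_inv_mul_iff_mul_eq, ← mul_assoc, ← h1, mul_inv_cancel_right]

theorem exists_last (hm : 2 ≤ m) (h : altG s t m = altG t s m) (b : Bool) :
    ∃ q, altG s t m = pos s t q * (if b then s else t) := by
  obtain ⟨n, rfl⟩ : ∃ n, m = n + 1 := ⟨m - 1, by omega⟩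
  refine ⟨altL (flp n b) n, ?_⟩
  rw [← pos_altL_eq h (flp n b), altL_succ, pos_append]
  congr 1
  have : lst (flp n b) n = b := by
    unfold lst flp
    by_cases h : Even n <;> simp [h]
  simp [pos, this]

theorem exists_form (hm : 2 ≤ m) (h : altG s t m = altG t s m) (x : G)
    (hx : x ∈ Subgroup.closure ({s, t} : Set G)) :
    ∃ (k : ℤ) (p : List Bool), x = altG s t m ^ k * pos s t p := by
  have hletter : ∀ b : Bool, ∀ x : G, (∃ (k : ℤ) (p : List Bool), x = altG s t m ^ k * pos s t p) →
      (∃ (k : ℤ) (p : List Bool), x * (if b then s else t) = altG s t m ^ k * pos s t p) ∧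
      (∃ (k : ℤ) (p : List Bool), x * (if b then s else t)⁻¹ = altG s t m ^ k * pos s t p) := by
    rintro b x ⟨k, p, rfl⟩
    constructor
    · refine ⟨k, p ++ [b], ?_⟩
      rw [pos_append, mul_assoc]
      congr 2
      simp [pos]
    · obtain ⟨q, hq⟩ := exists_last hm h b
      refine ⟨k - 1, p.map (flp m) ++ q, ?_⟩
      have e1 : (if b then s else t)⁻¹ = (altG s t m)⁻¹ * pos s t q := by
        rw [hq]; group
      rw [e1, mul_assoc, ← mul_assoc (pos s t p), pos_mul_inv h, pos_append, zpow_sub_one]
      group
  refine Subgroup.closure_induction_right (p := fun x _ => ∃ (k : ℤ) (p : List Bool),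
    x = altG s t m ^ k * pos s t p) ⟨0, [], by simp [pos]⟩ ?_ ?_ hx
  · intro x _ y hy hxx
    rcases hy with rfl | hy
    · exact (hletter true x hxx).1
    · rw [Set.mem_singleton_iff] at hy
      subst hy
      exact (hletter false x hxx).1
  · intro x _ y hy hxx
    rcases hy with rfl | hy
    · exact (hletter true x hxx).2
    · rw [Set.mem_singleton_iff] at hy
      subst hy
      exact (hletter false x hxx).2

theorem reduce (hm : 2 ≤ m) (h : altG s t m = altG t s m) (x : G) :
    ∀ (n : ℕ) (k : ℤ) (p : List Bool), p.length ≤ n → x = altG s t m ^ k * pos s t p →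
      ∃ (k : ℤ) (p : List Bool), x = altG s t m ^ k * pos s t p ∧
        ∀ (p₁ p₂ : List Bool) (b : Bool), p ≠ p₁ ++ altL b m ++ p₂ := by
  intro n
  induction n with
  | zero =>
    intro k p hp hx
    refine ⟨k, p, hx, ?_⟩
    intro p₁ p₂ b hpp
    have hl := congrArg List.length hpp
    have hal : (altL b m).length = m := by
      have : ∀ (n : ℕ) (b : Bool), (altL b n).length = n := by
        intro n
        induction n with
        | zero => intro b; rfl
        | succ n ih => intro b; rw [altL, List.length_cons, ih]
      exact this m b
    rw [List.length_append, List.length_append, hal] at hl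
    omega
  | succ n ih =>
    intro k p hp hx
    by_cases hgood : ∀ (p₁ p₂ : List Bool) (b : Bool), p ≠ p₁ ++ altL b m ++ p₂
    · exact ⟨k, p, hx, hgood⟩
    · push Not at hgood
      obtain ⟨p₁, p₂, b, hpp⟩ := hgood
      have hal : (altL b m).length = m := by
        have : ∀ (n : ℕ) (b : Bool), (altL b n).length = n := by
          intro n
          induction n with
          | zero => intro b; rfl
          | succ n ih => intro b; rw [altL, List.length_cons, ih]
        exact this m b
      have hl := congrArg List.length hpp
      rw [List.length_append, List.length_append, hal] at hl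
      refine ih (k + 1) (p₁.map (flp m) ++ p₂) ?_ ?_
      · rw [List.length_append, List.length_map]
        omega
      · rw [hx, hpp, pos_append, pos_append, pos_altL_eq h, pos_mul h, pos_append, zpow_add_one]
        group

end DNFx

theorem stmt_DNF : Stmt_DNF := by
  intro G _ s t m hm h x hx
  obtain ⟨k, p, hxp⟩ := DNFx.exists_form hm h x hx
  exact DNFx.reduce hm h x p.length k p le_rfl hxp

end Pool.HA
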