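import Pool.Agent.Work.MP_7084a3_h91.InterfaceD

set_option autoImplicit false

namespace Pool.HA

namespace DNGx

variable {F : Type} [Group F]

theorem pos_cons (s t : F) (b : Bool) (q : List Bool) :
    pos s t (b :: q) = (if b then s else t) * pos s t q := by
  simp [pos]

theorem altL_length (n : ℕ) (b : Bool) : (altL b n).length = n := by
  induction n generalizing b with
  | zero => rfl
  | succ n ih => rw [altL, List.length_cons, ih]

/-- strengthened form -/
theorem aux (m : ℕ) (u j : F) (hm : 2 ≤ m) (hj : j * j = 1) (p : List Bool) (hp : p ≠ [])
    (hno : ∀ (p₁ p₂ : List Bool) (b : Bool), p ≠ p₁ ++ altL b m ++ p₂) :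
    ∃ (h : Bool) (n : ℕ) (e : List ℤ) (rest : List Bool) (c : ℕ), 1 ≤ n ∧ n < m ∧
      (∀ a ∈ e, 1 ≤ a ∧ a < m) ∧ c ≤ 1 ∧ p = altL h n ++ rest ∧
      pos (u * j) (j * u) p = j ^ (if h then 0 else 1) * wordF u j ((n : ℤ) :: e) * j ^ c ∧
      ((n : ℤ) :: e).sum = p.length ∧
      Even (((if h then 0 else 1 : ℕ) : ℤ) + c + ((n : ℤ) :: e).length + ((n : ℤ) :: e).sum) := by
  induction p with
  | nil => exact absurd rfl hp
  | cons x p ih =>
    by_cases hpe : p = []
    · subst hpe
      cases x with
      | true =>
        refine ⟨true, 1, [], [], 0, le_rfl, by omega, by simp, by omega, by simp [altL], ?_, by simp, ?_⟩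
        · simp [pos, wordF]
        · simp
      | false =>
        refine ⟨false, 1, [], [], 1, le_rfl, by omega, by simp, by omega, by simp [altL], ?_, by simp, ?_⟩
        · simp only [pos, wordF, List.map_cons, List.map_nil, List.prod_cons, List.prod_nil]
          simp [mul_assoc, hj]
        · simp; decide
    · obtain ⟨h, n, e, rest, c, h1, h2, h3, h4, h5, h6, h7, h8⟩ := ih hpe (by
        intro p₁ p₂ b hpp
        exact hno (x :: p₁) p₂ b (by rw [hpp]; simp))
      by_cases hx : x = h
      · -- equal letters: a new group
        refine ⟨h, 1, (n : ℤ) :: e, p, c, le_rfl, by omega, ?_, h4, by rw [hx]; simp [altL], ?_, ?_, ?_⟩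
        · intro a ha
          rcases List.mem_cons.1 ha with rfl | ha
          · constructor
            · exact_mod_cast h1
            · exact_mod_cast h2
          · exact h3 a ha
        · rw [pos_cons, h6, hx]
          cases h with
          | true =>
            simp only [wordF, List.map_cons, List.prod_cons, if_true, pow_zero, one_mul]
            simp [mul_assoc]
          | false =>
            simp only [wordF, List.map_cons, List.prod_cons]
            simp [mul_assoc]
        · rw [List.sum_cons, h7]
          push_cast [List.length_cons]
          ring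
        · rw [List.sum_cons, List.length_cons]
          have : ((if h then 0 else 1 : ℕ) : ℤ) + c + ((((n : ℤ) :: e).length + 1 : ℕ) : ℤ) +
              (((1 : ℕ) : ℤ) + ((n : ℤ) :: e).sum) =
              (((if h then 0 else 1 : ℕ) : ℤ) + c + ((n : ℤ) :: e).length + ((n : ℤ) :: e).sum) + 2 := by
            push_cast; ring
          rw [this]
          exact h8.add even_two
      · -- different letters: the first group grows
        have hxh : x = !h := by
          cases x <;> cases h <;> simp_all
        have hpfx : x :: p = altL x (n + 1) ++ rest := by
          rw [altL, hxh, Bool.not_not, h5]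
          rfl
        have hn : n + 1 < m := by
          by_contra hcon
          have hnm : n + 1 = m := by omega
          apply hno [] rest x
          rw [hpfx, hnm]
          rfl
        refine ⟨x, n + 1, e, rest, c, by omega, hn, h3, h4, hpfx, ?_, ?_, ?_⟩
        · rw [pos_cons, h6, hxh]
          cases h with
          | true =>
            simp only [wordF, List.map_cons, List.prod_cons]
            have e1 : u ^ (((n + 1 : ℕ)) : ℤ) = u * u ^ (n : ℤ) := by
              rw [zpow_natCast, zpow_natCast, pow_succ']
            rw [e1]
            simp [mul_assoc]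
          | false =>
            simp only [wordF, List.map_cons, List.prod_cons]
            have e1 : u ^ (((n + 1 : ℕ)) : ℤ) = u * u ^ (n : ℤ) := by
              rw [zpow_natCast, zpow_natCast, pow_succ']
            rw [e1]
            have e2 : ∀ z : F, j * (j * z) = z := fun z => by rw [← mul_assoc, hj, one_mul]
            simp [mul_assoc, e2]
        · rw [List.sum_cons] at h7 ⊢
          push_cast [List.length_cons]
          push_cast at h7
          linarith
        · rw [List.sum_cons, List.length_cons] at h8 ⊢
          rw [hxh]
          cases h with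
          | true =>
            have : (((if (!true) = true then 0 else 1 : ℕ) : ℤ) + c + ((e.length + 1 : ℕ) : ℤ) +
                (((n + 1 : ℕ) : ℤ) + e.sum)) =
                (((if true = true then 0 else 1 : ℕ) : ℤ) + c + ((e.length + 1 : ℕ) : ℤ) + ((n : ℤ) + e.sum)) + 2 := by
              push_cast; simp; ring
            rw [this]
            exact h8.add even_two
          | false =>
            have : (((if (!false) = true then 0 else 1 : ℕ) : ℤ) + c + ((e.length + 1 : ℕ) : ℤ) +
                (((n + 1 : ℕ) : ℤ) + e.sum)) =
                (((if false = true then 0 else 1 : ℕ) : ℤ) + c + ((e.length + 1 : ℕ) : ℤ) + ((n : ℤ) + e.sum)) := by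
              push_cast; simp; ring
            rw [this]
            exact h8

end DNGx

theorem stmt_DNG : Stmt_DNG := by
  intro F _ m u j hm hj p hp hno
  obtain ⟨h, n, e, rest, c, h1, h2, h3, h4, h5, h6, h7, h8⟩ := DNGx.aux m u j hm hj p hp hno
  refine ⟨if h then 0 else 1, c, (n : ℤ) :: e, by simp, ?_, by split_ifs <;> omega, h4, h6, h7, h8, ?_, ?_⟩
  · intro a ha
    rcases List.mem_cons.1 ha with rfl | ha
    · constructor
      · exact_mod_cast h1
      · exact_mod_cast h2
    · exact h3 a ha
  · obtain ⟨n', rfl⟩ : ∃ n', n = n' + 1 := ⟨n - 1, by omega⟩
    rw [h5, altL]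
    cases h <;> simp
  · intro hlen
    have he : e = [] := by
      rw [List.length_cons] at hlen
      exact List.length_eq_zero_iff.1 (by omega)
    subst he
    have hn : n = p.length := by
      rw [List.sum_singleton] at h7
      exact_mod_cast h7
    refine ⟨h, ?_⟩
    have hl := congrArg List.length h5
    rw [List.length_append, DNGx.altL_length] at hl
    have hr : rest = [] := List.length_eq_zero_iff.1 (by omega)
    rw [← hn]
    rw [h5, hr, List.append_nil]

end Pool.HA
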