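import Pool.Agent.Work.MP_7084a3_h91.B.Avg35
import Pool.Agent.Work.MP_7084a3_h91.B.CONE

set_option autoImplicit false

/-! # Block DOM (helper35) -/

namespace Pool.HA

open Finset Pool.HA.H35

theorem small_eps (a b : ℝ) (ha : 0 < a) : ∀ᶠ d in nhdsWithin (0 : ℝ) (Set.Ioi 0), 0 < a + d * b := by
  have h1 : Filter.Tendsto (fun d : ℝ => a + d * b) (nhds 0) (nhds (a + 0 * b)) :=
    (Continuous.tendsto (by fun_prop) 0)
  have h2 : ∀ᶠ d in nhds (0 : ℝ), 0 < a + d * b :=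
    h1.eventually (lt_mem_nhds (by rw [zero_mul, add_zero]; exact ha))
  exact h2.filter_mono nhdsWithin_le_nhds

/-- DOM -/
theorem stmt_DOM (hG : Stmt_GLOB) (hR : Stmt_REGD) (hC : Stmt_CONE) (hP : Stmt_POS) (hB : Stmt_BFI) :
    Stmt_DOM := by
  intro S S' _ _ _ _ M M' ρ ρ' ψ β hW hbf hS
  have F : FB M' ρ' := FB.of hB hW.rep'
  have C := FC.of hC hW.hM'.ne_zero hW.rep'
  obtain ⟨τ, hτ, x, hx, hpos⟩ := hG S S' M M' ρ ρ' ψ β hW hbf hS
  obtain ⟨y, hy⟩ : ∃ y : (S' → ℝ) →ₗ[ℝ] ℝ, ∀ v, y v = ∑ t, v t :=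
    ⟨∑ t, LinearMap.proj t, fun v => by simp⟩
  have hyb : ∀ s, 0 < y (bs s) := by
    intro s
    rw [hy]
    simp [bs]
  have hyU : y ∈ UC M' ρ' := C.pos y hyb
  have hyp : ∀ v, IsPR M' ρ' v → 0 < y v := by
    intro v hv
    rw [hy]
    refine lt_of_le_of_ne (Finset.sum_nonneg fun t _ => hv.2 t) fun h => cone_rt_ne hv.1 ?_
    funext t
    exact (Finset.sum_eq_zero_iff_of_nonneg fun t _ => hv.2 t).mp h.symm t (Finset.mem_univ t)
  -- choice of δ
  have e1 : ∀ᶠ d in nhdsWithin (0 : ℝ) (Set.Ioi 0), ∀ v ∈ {v | IsPR M' ρ' v ∧ x v ≤ 0},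
      x v < 0 → 0 < -x v + d * -y v := by
    rw [Filter.eventually_all_finite hx]
    intro v _
    by_cases h : x v < 0
    · filter_upwards [small_eps (-x v) (-y v) (by linarith)] with d hd _
      exact hd
    · exact Filter.Eventually.of_forall fun d h' => absurd h' h
  have e2 : ∀ᶠ d in nhdsWithin (0 : ℝ) (Set.Ioi 0), ∀ c, 0 < x (τ • β c) + d * y (τ • β c) := by
    rw [Filter.eventually_all]
    intro c
    exact small_eps _ _ (hpos c)
  have e3 : ∀ᶠ d in nhdsWithin (0 : ℝ) (Set.Ioi 0), 0 < d := self_mem_nhdsWithin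
  obtain ⟨d, ⟨h1, h2⟩, h3⟩ := ((e1.and e2).and e3).exists
  obtain ⟨z, hz⟩ : ∃ z : (S' → ℝ) →ₗ[ℝ] ℝ, ∀ v, z v = x v + d * y v :=
    ⟨x + d • y, fun v => by simp⟩
  have hzU : z ∈ UC M' ρ' := by
    have : z = x + d • y := by
      ext v
      simp [hz]
    rw [this]
    exact C.add _ hx _ (C.smul _ hyU _ h3)
  have hzne : ∀ v, IsPR M' ρ' v → z v ≠ 0 := by
    intro v hv
    rw [hz]
    have h4 := hyp v hv
    rcases lt_trichotomy (x v) 0 with h5 | h5 | h5
    · have := h1 v ⟨hv, h5.le⟩ h5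
      linarith
    · rw [h5]
      have := mul_pos h3 h4
      linarith
    · have := mul_pos h3 h4
      linarith
  have hzreg : ∀ v, IsRt M' ρ' v → z v ≠ 0 := by
    intro v hv
    rcases root_pm hP hW.hM'.ne_zero hW.rep' F hv with h4 | h4
    · exact hzne v h4
    · have := hzne _ h4
      rwa [map_neg, neg_ne_zero] at this
  obtain ⟨w, hw⟩ := hR S' M' ρ' hW.hM'.ne_zero hW.rep' z hzU hzreg
  have hrf : ∀ s, IsRf M' ρ' (w⁻¹ * ψ (M.simple s) * w) (τ • ρ' w⁻¹ (β s)) := by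
    intro s
    have key : IsRf M' ρ' (w⁻¹ * ψ (M.simple s) * w) (ρ' w⁻¹ (β s)) := by
      obtain ⟨u, t, h4, h5⟩ := hW.refl s
      refine ⟨w⁻¹ * u, t, ?_, ?_⟩
      · rw [h4]
        group
      · rcases h5 with h5 | h5
        · left
          rw [h5, mul_app]
        · right
          rw [h5, mul_app, map_neg]
    rcases hτ with rfl | rfl
    · rw [one_smul]
      exact key
    · rw [neg_smul, one_smul]
      exact F.rf_neg' key
  have hτ2 : τ * τ = 1 := by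
    rcases hτ with rfl | rfl <;> norm_num
  have hgr : ∀ s t, bf M' (τ • ρ' w⁻¹ (β s)) (τ • ρ' w⁻¹ (β t)) = bf M' (β s) (β t) := by
    intro s t
    rw [F.smul_left, F.smul_right, F.inv, ← mul_assoc, hτ2, one_mul]
  refine ⟨ψ.trans (MulAut.conj w⁻¹), fun s => τ • ρ' w⁻¹ (β s), ?_, ?_, ?_⟩
  · refine ⟨hW.hM, hW.hM', hW.rep, hW.rep', ?_, ?_, ?_⟩
    · intro s
      have : (ψ.trans (MulAut.conj w⁻¹)) (M.simple s) = w⁻¹ * ψ (M.simple s) * w := by
        simp [MulAut.conj_apply]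
      rw [this]
      exact hrf s
    · intro s'
      obtain ⟨u, s, h4⟩ := hW.refl' s'
      refine ⟨ψ.symm w * u, s, ?_⟩
      have : (ψ.trans (MulAut.conj w⁻¹)).symm (M'.simple s') =
          ψ.symm w * ψ.symm (M'.simple s') * (ψ.symm w)⁻¹ := by
        rw [MulEquiv.symm_apply_eq]
        simp [MulAut.conj_apply, mul_assoc]
      rw [this, h4]
      group
    · intro s t hst
      rw [hgr]
      exact hW.gram s t hst
  · intro s t hst
    show bf M' (τ • ρ' w⁻¹ (β s)) (τ • ρ' w⁻¹ (β t)) = _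
    rw [hgr]
    exact hbf s t hst
  · intro s
    show IsPR M' ρ' (τ • ρ' w⁻¹ (β s))
    rcases root_pm hP hW.hM'.ne_zero hW.rep' F (F.rf_rt (hrf s)) with h4 | h4
    · exact h4
    · exfalso
      have h5 : z (ρ' w (τ • ρ' w⁻¹ (β s))) = z (τ • β s) := by
        rw [map_smul (ρ' w), ← mul_app, mul_inv_cancel, one_app]
      have h6 : 0 < z (τ • β s) := by
        rw [hz]
        exact h2 s
      have h7 := cone_expand (z ∘ₗ ρ' w) (-(τ • ρ' w⁻¹ (β s)))
      have h8 : 0 ≤ (z ∘ₗ ρ' w) (-(τ • ρ' w⁻¹ (β s))) := by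
        rw [h7]
        exact Finset.sum_nonneg fun t _ => mul_nonneg (h4.2 t) (hw t).le
      rw [LinearMap.comp_apply, map_neg, map_neg, h5] at h8
      linarith

end Pool.HA
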