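import Pool.Agent.Work.MP_7084a3_h91.InterfaceD

set_option autoImplicit false

namespace Pool.HA

namespace DPGx

theorem hk_apply_ne {S : Type} (M : CoxeterMatrix S) (q : ℝ) (d : S → S → ℝ) (i x : S) (h : x ≠ i)
    (v : S →₀ ℝ) : (hk M q d i v) x = v x := by
  classical
  unfold hk
  simp only [LinearMap.add_apply, Module.End.one_apply, LinearMap.comp_apply, Finsupp.lsingle_apply,
    Finsupp.add_apply]
  rw [Finsupp.single_eq_of_ne h, add_zero]

theorem hk_single {S : Type} (M : CoxeterMatrix S) (q : ℝ) (d : S → S → ℝ) (i : S) :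
    (hk M q d i (Finsupp.single i 1)) i = -q := by
  classical
  unfold hk
  simp

theorem lam_sq_lt {m : ℕ} (hm : 2 ≤ m) : lam m ^ 2 < 4 := by
  unfold lam
  have hm' : (2 : ℝ) ≤ m := by exact_mod_cast hm
  have hpi := Real.pi_pos
  have h1 : 0 < Real.pi / m := by positivity
  have h2 : Real.pi / m ≤ Real.pi / 2 := div_le_div_of_nonneg_left hpi.le (by norm_num) hm'
  have h3 : 0 ≤ Real.cos (Real.pi / m) := Real.cos_nonneg_of_mem_Icc ⟨by linarith, h2⟩
  have h4 : Real.cos (Real.pi / m) < 1 := by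
    have := Real.cos_lt_cos_of_nonneg_of_le_pi_div_two (le_refl 0) h2 h1
    rwa [Real.cos_zero] at this
  nlinarith

end DPGx

theorem stmt_DPG (h1 : Stmt_DREP) : Stmt_DPG := by
  intro S M h0 J t ht
  by_contra htJ
  obtain ⟨ρ, hρ⟩ := h1 S ℝ M 1 (fun _ _ => 1) h0 one_ne_zero (fun _ _ _ => by simp) (by
    intro i j hij
    have hm : 2 ≤ M i j := by
      have e1 := h0 i j
      have e2 := M.off_diagonal i j hij
      omega
    have := DPGx.lam_sq_lt hm
    simp only [Algebra.algebraMap_self, RingHom.id_apply]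
    intro h
    linarith)
  have key : ∀ v : S →₀ ℝ, ∀ i, i ∉ J → (ρ (gen M t) v) i = v i := by
    refine Subgroup.closure_induction (p := fun h _ => ∀ v : S →₀ ℝ, ∀ i, i ∉ J → (ρ h v) i = v i)
      ?_ ?_ ?_ ?_ ht
    · rintro z ⟨j, hj, rfl⟩ v i hi
      rw [hρ]
      exact DPGx.hk_apply_ne M 1 _ j i (fun h => hi (by rw [h]; exact hj)) v
    · intro v i _
      rw [map_one]
      rfl
    · intro x y _ _ hx hy v i hi
      rw [map_mul, Module.End.mul_apply, hx _ i hi, hy _ i hi]
    · intro x _ hx v i hi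
      have h2 := hx (ρ x⁻¹ v) i hi
      rw [← Module.End.mul_apply, ← map_mul, mul_inv_cancel, map_one] at h2
      exact h2.symm
  have h2 := key (Finsupp.single t 1) t htJ
  rw [hρ, DPGx.hk_single, Finsupp.single_eq_same] at h2
  norm_num at h2

end Pool.HA
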