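import Pool.Agent.Work.MP_7084a3_h91.InterfaceD

/-! # Block DPL (helper39) -/

set_option autoImplicit false

namespace Pool.HA

open Finsupp

namespace DPLh39

variable {S K : Type} [Field K] [Algebra ℝ K]

/-- `hk` on a general vector -/
theorem hk_eq (M : CoxeterMatrix S) (q : K) (d : S → S → K) (i : S) (v : S →₀ K) :
    ∃ c : K, hk M q d i v = v + single i c := by
  classical
  exact ⟨_, rfl⟩

theorem hk_self (M : CoxeterMatrix S) (q : K) (d : S → S → K) (i : S) :
    hk M q d i (single i 1) = single i (-q) := by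
  classical
  unfold hk
  rw [LinearMap.add_apply, Module.End.one_apply, LinearMap.comp_apply, Finsupp.lsum_single]
  simp only [if_true, LinearMap.lsmul_apply, smul_eq_mul, mul_one, Finsupp.lsingle_apply]
  rw [← Finsupp.single_add]
  congr 1
  ring

theorem hk_other (M : CoxeterMatrix S) (q : K) (d : S → S → K) {i j : S} (h : j ≠ i) :
    hk M q d i (single j 1) = single j 1 + single i (algebraMap ℝ K (lam (M i j)) * d i j) := by
  classical
  unfold hk
  rw [LinearMap.add_apply, Module.End.one_apply, LinearMap.comp_apply, Finsupp.lsum_single]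
  simp only [if_neg h, LinearMap.lsmul_apply, smul_eq_mul, mul_one, Finsupp.lsingle_apply]

/-- the plane -/
def InV (s t : S) (v : S →₀ K) : Prop := ∃ a b : K, v = single s a + single t b

theorem inV_add {s t : S} {v w : S →₀ K} (hv : InV s t v) (hw : InV s t w) : InV s t (v + w) := by
  obtain ⟨a, b, rfl⟩ := hv
  obtain ⟨a', b', rfl⟩ := hw
  refine ⟨a + a', b + b', ?_⟩
  rw [Finsupp.single_add, Finsupp.single_add]
  abel

theorem inV_smul {s t : S} (c : K) {v : S →₀ K} (hv : InV s t v) : InV s t (c • v) := by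
  obtain ⟨a, b, rfl⟩ := hv
  refine ⟨c * a, c * b, ?_⟩
  rw [smul_add, Finsupp.smul_single, Finsupp.smul_single]
  rfl

theorem inV_s (s t : S) (c : K) : InV s t (single s c : S →₀ K) := ⟨c, 0, by simp⟩

theorem inV_t (s t : S) (c : K) : InV s t (single t c : S →₀ K) := ⟨0, c, by simp⟩

theorem inV_hk (M : CoxeterMatrix S) (q : K) (d : S → S → K) {s t i : S} (hi : i = s ∨ i = t)
    {v : S →₀ K} (hv : InV s t v) : InV s t (hk M q d i v) := by
  obtain ⟨c, hc⟩ := hk_eq M q d i v
  rw [hc]
  refine inV_add hv ?_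
  rcases hi with rfl | rfl
  · exact inV_s _ _ _
  · exact inV_t _ _ _

/-- the plane is invariant -/
theorem inv_plane {M : CoxeterMatrix S} {q : K} {d : S → S → K}
    (ρ : Art M →* Module.End K (S →₀ K)) (hρ : ∀ i, ρ (gen M i) = hk M q d i) {s t : S} :
    ∀ x ∈ pr (gen M) s t, ∀ v, InV s t v → InV s t (ρ x v) ∧ InV s t (ρ x⁻¹ v) := by
  intro x hx
  refine Subgroup.closure_induction (p := fun x _ => ∀ v, InV s t v →
    InV s t (ρ x v) ∧ InV s t (ρ x⁻¹ v)) ?_ ?_ ?_ ?_ hx
  · intro y hy v hv
    obtain ⟨i, hi, rfl⟩ : ∃ i, (i = s ∨ i = t) ∧ y = gen M i := by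
      rcases hy with h | h
      · exact ⟨s, Or.inl rfl, h⟩
      · exact ⟨t, Or.inr rfl, h⟩
    refine ⟨by rw [hρ]; exact inV_hk M q d hi hv, ?_⟩
    have h1 : ρ (gen M i) (ρ (gen M i)⁻¹ v) = v := by
      rw [← Module.End.mul_apply, ← map_mul, mul_inv_cancel, map_one, Module.End.one_apply]
    rw [hρ] at h1
    obtain ⟨c, hc⟩ := hk_eq M q d i (ρ (gen M i)⁻¹ v)
    rw [hc] at h1
    have h2 : ρ (gen M i)⁻¹ v = v + single i (-c) := by
      rw [Finsupp.single_neg, ← sub_eq_add_neg]
      exact eq_sub_of_add_eq h1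
    rw [h2]
    refine inV_add hv ?_
    rcases hi with rfl | rfl
    · exact inV_s _ _ _
    · exact inV_t _ _ _
  · intro v hv
    simpa using hv
  · intro x y _ _ hx hy v hv
    refine ⟨?_, ?_⟩
    · rw [map_mul, Module.End.mul_apply]
      exact (hx _ (hy v hv).1).1
    · rw [mul_inv_rev, map_mul, Module.End.mul_apply]
      exact (hy _ (hx v hv).2).2
  · intro x _ hx v hv
    rw [inv_inv]
    exact ⟨(hx v hv).2, (hx v hv).1⟩

end DPLh39

open DPLh39 in
theorem stmt_DPL (hDREP : Stmt_DREP) : Stmt_DPL := by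
  classical
  intro S M hM s t hst
  -- the weights
  let d : S → S → KK := fun i j => if i = s then 1 else if j = s then RatFunc.X else
    if WellOrderingRel i j then 1 else RatFunc.X
  have hX : (RatFunc.X : KK) ≠ 0 := RatFunc.X_ne_zero
  obtain ⟨ρ, hρ⟩ := hDREP S KK M RatFunc.X d hM hX (by
    intro i j hij
    show (if i = s then (1 : KK) else if j = s then RatFunc.X else
      if WellOrderingRel i j then 1 else RatFunc.X) * (if j = s then (1 : KK) else
      if i = s then RatFunc.X else if WellOrderingRel j i then 1 else RatFunc.X) = RatFunc.X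
    by_cases h1 : i = s
    · have h2 : j ≠ s := fun h => hij (h1.trans h.symm)
      rw [if_pos h1, if_neg h2, if_pos h1, one_mul]
    · by_cases h2 : j = s
      · rw [if_neg h1, if_pos h2, if_pos h2, mul_one]
      · rw [if_neg h1, if_neg h2, if_neg h2, if_neg h1]
        rcases trichotomous_of WellOrderingRel i j with h | h | h
        · have h' : ¬ WellOrderingRel j i := asymm_of WellOrderingRel h
          rw [if_pos h, if_neg h', one_mul]
        · exact absurd h hij
        · have h' : ¬ WellOrderingRel i j := asymm_of WellOrderingRel h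
          rw [if_pos h, if_neg h', mul_one]) (by
    intro i j _ h
    -- the polynomial `(1 + X)^2 - c X`
    set c : ℝ := lam (M i j) with hc
    have h1 : algebraMap (Polynomial ℝ) KK ((1 + Polynomial.X) ^ 2 -
        Polynomial.X * (Polynomial.C c) ^ 2) = 0 := by
      rw [map_sub, map_pow, map_add, map_one, map_mul, map_pow, RatFunc.algebraMap_X]
      have h2 : algebraMap (Polynomial ℝ) KK (Polynomial.C c) = algebraMap ℝ KK c := by
        rw [← Polynomial.algebraMap_eq, ← IsScalarTower.algebraMap_apply]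
      rw [h2, h, sub_self]
    have h2 : ((1 + Polynomial.X) ^ 2 - Polynomial.X * (Polynomial.C c) ^ 2 : Polynomial ℝ) = 0 := by
      apply RatFunc.algebraMap_injective ℝ
      rw [h1, map_zero]
    have h3 := congrArg (Polynomial.eval 0) h2
    simp at h3)
  -- the matrix
  let Ψ : Art M → Matrix (Fin 2) (Fin 2) KK := fun x =>
    !![(ρ x (single s 1)) s, (ρ x (single t 1)) s; (ρ x (single s 1)) t, (ρ x (single t 1)) t]
  have hts : t ≠ s := fun h => hst h.symm
  have hone : Ψ 1 = 1 := by
    show !![(ρ 1 (single s 1)) s, (ρ 1 (single t 1)) s; (ρ 1 (single s 1)) t,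
      (ρ 1 (single t 1)) t] = (1 : Matrix (Fin 2) (Fin 2) KK)
    rw [map_one]
    ext a b
    fin_cases a <;> fin_cases b <;> simp [Finsupp.single_apply, hst, hts]
  have hmul : ∀ x ∈ pr (gen M) s t, ∀ y ∈ pr (gen M) s t, Ψ (x * y) = Ψ x * Ψ y := by
    intro x _ y hy
    obtain ⟨a, b, h1⟩ := (inv_plane ρ hρ y hy (single s 1) (inV_s s t 1)).1
    obtain ⟨a', b', h2⟩ := (inv_plane ρ hρ y hy (single t 1) (inV_t s t 1)).1
    have e : ∀ (r : S) (c : KK), ρ x (single r c) = c • ρ x (single r 1) := by
      intro r c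
      rw [← map_smul, Finsupp.smul_single, smul_eq_mul, mul_one]
    have h3 : ρ (x * y) (single s 1) = a • ρ x (single s 1) + b • ρ x (single t 1) := by
      rw [map_mul, Module.End.mul_apply, h1, map_add, e s a, e t b]
    have h4 : ρ (x * y) (single t 1) = a' • ρ x (single s 1) + b' • ρ x (single t 1) := by
      rw [map_mul, Module.End.mul_apply, h2, map_add, e s a', e t b']
    show !![(ρ (x * y) (single s 1)) s, (ρ (x * y) (single t 1)) s; (ρ (x * y) (single s 1)) t,
      (ρ (x * y) (single t 1)) t] = !![(ρ x (single s 1)) s, (ρ x (single t 1)) s;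
      (ρ x (single s 1)) t, (ρ x (single t 1)) t] * !![(ρ y (single s 1)) s,
      (ρ y (single t 1)) s; (ρ y (single s 1)) t, (ρ y (single t 1)) t]
    rw [h3, h4, h1, h2]
    ext i j
    fin_cases i <;> fin_cases j <;>
      simp [Matrix.mul_apply, Fin.sum_univ_two, Finsupp.single_apply, hst, hts] <;> ring
  refine ⟨{ toFun := fun x => Ψ x.1, map_one' := hone,
            map_mul' := fun x y => hmul x.1 x.2 y.1 y.2 }, ?_, ?_⟩
  · intro x hx
    show Ψ x.1 = sM (M s t)
    show !![(ρ x.1 (single s 1)) s, (ρ x.1 (single t 1)) s; (ρ x.1 (single s 1)) t,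
      (ρ x.1 (single t 1)) t] = sM (M s t)
    rw [hx, hρ, hk_self, hk_other M RatFunc.X d hts]
    have hd : d s t = 1 := if_pos rfl
    rw [hd, mul_one]
    unfold sM
    ext i j
    fin_cases i <;> fin_cases j <;> simp [Finsupp.single_apply, hst, hts]
  · intro x hx
    show !![(ρ x.1 (single s 1)) s, (ρ x.1 (single t 1)) s; (ρ x.1 (single s 1)) t,
      (ρ x.1 (single t 1)) t] = tM (M s t)
    rw [hx, hρ, hk_self, hk_other M RatFunc.X d hst]
    have hd : d t s = RatFunc.X := by
      show (if t = s then (1 : KK) else if s = s then RatFunc.X else _) = _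
      rw [if_neg hts, if_pos rfl]
    rw [hd, M.symmetric t s]
    unfold tM
    ext i j
    fin_cases i <;> fin_cases j <;> simp [Finsupp.single_apply, hst, hts]

end Pool.HA
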