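import Pool.Agent.Work.MP_7084a3_h91.InterfaceD

set_option autoImplicit false

/-! # Block DREP (helper20): the one-parameter reflection representation of an Artin group -/

namespace Pool.HA

namespace DREP

/-- alternating product in a monoid -/
def altR {R : Type} [Monoid R] (x y : R) : ℕ → R
  | 0 => 1
  | m + 1 => x * altR y x m

theorem altR_units {R : Type} [Monoid R] (m : ℕ) (x y : Rˣ) :
    ((altG x y m : Rˣ) : R) = altR (x : R) (y : R) m := by
  induction m generalizing x y with
  | zero => rfl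
  | succ m ih => rw [altG, altR, Units.val_mul, ih]

theorem lift_alt {S G : Type} [Group G] (f : S → G) (m : ℕ) (s t : S) :
    FreeGroup.lift f (alt s t m) = altG (f s) (f t) m := by
  induction m generalizing s t with
  | zero => simp [alt, altG]
  | succ m ih => rw [alt, altG, map_mul, ih, FreeGroup.lift_apply_of]

section ring

variable {K R : Type} [Field K] [Ring R] [Algebra K R]

theorem comm_J (q : K) (U J : R) (hJ : J * J = algebraMap K R q) (n : ℕ) :
    altR (J * U) (U * J) n * J = J * altR (U * J) (J * U) n ∧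
      altR (U * J) (J * U) n * J = J * altR (J * U) (U * J) n := by
  induction n with
  | zero => simp [altR]
  | succ n ih =>
    obtain ⟨h1, h2⟩ := ih
    constructor
    · rw [altR, altR, mul_assoc, h2]
      simp only [mul_assoc]
    · rw [altR, altR, mul_assoc, h1]
      have e1 : U * J * (J * altR (U * J) (J * U) n) =
          algebraMap K R q * (U * altR (U * J) (J * U) n) := by
        rw [show U * J * (J * altR (U * J) (J * U) n) = U * (J * J) * altR (U * J) (J * U) n by
          simp only [mul_assoc], hJ, ← (Algebra.commutes q U), mul_assoc]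
      have e2 : J * (J * U * altR (U * J) (J * U) n) =
          algebraMap K R q * (U * altR (U * J) (J * U) n) := by
        rw [show J * (J * U * altR (U * J) (J * U) n) = (J * J) * (U * altR (U * J) (J * U) n) by
          simp only [mul_assoc], hJ]
      rw [e1, e2]

theorem mul_Jpow (q : K) (U J : R) (hJ : J * J = algebraMap K R q) (n : ℕ) :
    altR (U * J) (J * U) n * J ^ n = algebraMap K R (q ^ n) * U ^ n := by
  induction n with
  | zero => simp [altR]
  | succ n ih =>
    rw [altR, pow_succ' J, mul_assoc, ← mul_assoc (altR (J * U) (U * J) n),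
      (comm_J q U J hJ n).1, mul_assoc J, ih]
    rw [show U * J * (J * (algebraMap K R (q ^ n) * U ^ n)) =
      U * (J * J) * (algebraMap K R (q ^ n) * U ^ n) by simp only [mul_assoc], hJ,
      ← Algebra.commutes q U, mul_assoc, ← mul_assoc U, ← Algebra.commutes (q ^ n) U, mul_assoc,
      ← pow_succ', ← mul_assoc, ← map_mul, ← pow_succ']

theorem braid_ring (q : K) (hq : q ≠ 0) (U J : R) (hJ : J * J = algebraMap K R q) (m : ℕ)
    (hU : U ^ m = -1) : altR (U * J) (J * U) m = altR (J * U) (U * J) m := by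
  have h1 : altR (U * J) (J * U) m * J ^ m = -algebraMap K R (q ^ m) := by
    rw [mul_Jpow q U J hJ, hU, mul_neg, mul_one]
  have h2 := (comm_J q U J hJ m).1
  have h3 : altR (J * U) (U * J) m * J ^ (m + 1) = altR (U * J) (J * U) m * J ^ (m + 1) := by
    have e1 : altR (J * U) (U * J) m * J ^ (m + 1) = J * (-algebraMap K R (q ^ m)) := by
      rw [pow_succ', ← mul_assoc, h2, mul_assoc, h1]
    have e2 : altR (U * J) (J * U) m * J ^ (m + 1) = (-algebraMap K R (q ^ m)) * J := by
      rw [pow_succ, ← mul_assoc, h1]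
    rw [e1, e2, mul_neg, neg_mul, Algebra.commutes]
  have h4 : J ^ (m + 1) * J ^ (m + 1) = algebraMap K R (q ^ (m + 1)) := by
    rw [map_pow, ← hJ, ← pow_two, pow_right_comm, pow_two]
  have h5 := congrArg (fun z => z * J ^ (m + 1)) h3
  simp only [mul_assoc, h4] at h5
  have hq' : q ^ (m + 1) ≠ 0 := pow_ne_zero _ hq
  have h6 := congrArg (fun z => z * algebraMap K R ((q ^ (m + 1))⁻¹)) h5
  simp only [mul_assoc, ← map_mul, mul_inv_cancel₀ hq', map_one, mul_one] at h6
  exact h6.symm

end ring

/-- powers of an element with `U² = λ U - 1` -/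
theorem U_pow {K R : Type} [Field K] [Algebra ℝ K] [Ring R] [Algebra K R] (θ : ℝ) (U : R)
    (hU : U * U = algebraMap K R (algebraMap ℝ K (2 * Real.cos θ)) * U - 1) (k : ℕ) :
    algebraMap K R (algebraMap ℝ K (Real.sin θ)) * U ^ (k + 1) =
      algebraMap K R (algebraMap ℝ K (Real.sin ((k + 1 : ℕ) * θ))) * U -
        algebraMap K R (algebraMap ℝ K (Real.sin ((k : ℕ) * θ))) := by
  induction k with
  | zero => simp
  | succ k ih =>
    have e : Real.sin ((k + 1 + 1 : ℕ) * θ) =
        2 * Real.cos θ * Real.sin ((k + 1 : ℕ) * θ) - Real.sin ((k : ℕ) * θ) := by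
      have e1 : ((k + 1 + 1 : ℕ) : ℝ) * θ = ((k + 1 : ℕ) : ℝ) * θ + θ := by push_cast; ring
      have e2 : ((k : ℕ) : ℝ) * θ = ((k + 1 : ℕ) : ℝ) * θ - θ := by push_cast; ring
      rw [e1, e2, Real.sin_add, Real.sin_sub]
      ring
    have e3 : algebraMap K R (algebraMap ℝ K (Real.sin ((k + 1 + 1 : ℕ) * θ))) =
        algebraMap K R (algebraMap ℝ K (Real.sin ((k + 1 : ℕ) * θ))) *
          algebraMap K R (algebraMap ℝ K (2 * Real.cos θ)) -
          algebraMap K R (algebraMap ℝ K (Real.sin ((k : ℕ) * θ))) := by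
      rw [e, mul_comm (2 * Real.cos θ), map_sub (algebraMap ℝ K),
        map_mul (algebraMap ℝ K) (Real.sin _) (2 * Real.cos θ), map_sub (algebraMap K R),
        map_mul (algebraMap K R)]
    rw [pow_succ, ← mul_assoc, ih, e3, sub_mul, mul_assoc, hU, mul_sub, mul_one, sub_mul,
      ← mul_assoc]
    abel

theorem U_pow_m {K R : Type} [Field K] [Algebra ℝ K] [Ring R] [Algebra K R] (m : ℕ) (hm : 2 ≤ m)
    (U : R) (hU : U * U = algebraMap K R (algebraMap ℝ K (lam m)) * U - 1) : U ^ m = -1 := by
  have hm0 : (m : ℝ) ≠ 0 := by positivity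
  obtain ⟨k, rfl⟩ : ∃ k, m = k + 1 := ⟨m - 1, by omega⟩
  have h1 := U_pow (Real.pi / ((k + 1 : ℕ) : ℝ)) U hU k
  have e1 : ((k + 1 : ℕ) : ℝ) * (Real.pi / ((k + 1 : ℕ) : ℝ)) = Real.pi := by
    field_simp
  have e2 : ((k : ℕ) : ℝ) * (Real.pi / ((k + 1 : ℕ) : ℝ)) =
      Real.pi - Real.pi / ((k + 1 : ℕ) : ℝ) := by
    have : ((k : ℕ) : ℝ) = ((k + 1 : ℕ) : ℝ) - 1 := by push_cast; ring
    rw [this, sub_mul, e1, one_mul]
  rw [e1, e2, Real.sin_pi_sub, Real.sin_pi, map_zero, map_zero, zero_mul, zero_sub] at h1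
  have hs : Real.sin (Real.pi / ((k + 1 : ℕ) : ℝ)) ≠ 0 := by
    apply ne_of_gt
    apply Real.sin_pos_of_pos_of_lt_pi
    · positivity
    · apply div_lt_self Real.pi_pos
      exact_mod_cast (by omega : 1 < k + 1)
  have hs' : algebraMap ℝ K (Real.sin (Real.pi / ((k + 1 : ℕ) : ℝ))) ≠ 0 := by
    intro h
    exact hs ((map_eq_zero (algebraMap ℝ K)).1 h)
  have h2 := congrArg (fun z => algebraMap K R
    ((algebraMap ℝ K (Real.sin (Real.pi / ((k + 1 : ℕ) : ℝ))))⁻¹) * z) h1
  simp only [← mul_assoc, mul_neg, ← map_mul, inv_mul_cancel₀ hs', map_one, one_mul] at h2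
  exact h2

section rep

variable {S K : Type} [Field K] [Algebra ℝ K] (M : CoxeterMatrix S) (q : K) (d : S → S → K)

open Classical in
/-- the functional `φ_i` -/
noncomputable def phi (i : S) : (S →₀ K) →ₗ[K] K :=
  Finsupp.lsum K (fun j => (LinearMap.lsmul K K
      (if j = i then -(1 + q) else algebraMap ℝ K (lam (M i j)) * d i j)))

theorem hk_apply (i : S) (v : S →₀ K) :
    hk M q d i v = v + Finsupp.single i (phi M q d i v) := rfl

theorem phi_self (i : S) (x : K) : phi M q d i (Finsupp.single i x) = -(1 + q) * x := by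
  unfold phi
  rw [Finsupp.lsum_single, if_pos rfl]
  rfl

theorem phi_ne (i j : S) (h : j ≠ i) (x : K) : phi M q d i (Finsupp.single j x) =
    algebraMap ℝ K (lam (M i j)) * d i j * x := by
  unfold phi
  rw [Finsupp.lsum_single, if_neg h]
  rfl

/-- the inverse -/
noncomputable def hkInv (i : S) : Module.End K (S →₀ K) :=
  1 + (Finsupp.lsingle i) ∘ₗ (q⁻¹ • phi M q d i)

theorem hkInv_apply (i : S) (v : S →₀ K) :
    hkInv M q d i v = v + Finsupp.single i (q⁻¹ * phi M q d i v) := rfl

theorem hk_mul_inv (hq : q ≠ 0) (i : S) : hk M q d i * hkInv M q d i = 1 := by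
  apply LinearMap.ext
  intro v
  rw [Module.End.mul_apply, hkInv_apply, hk_apply, map_add, phi_self, Module.End.one_apply]
  set a := phi M q d i v
  rw [add_assoc, ← Finsupp.single_add]
  have : q⁻¹ * a + (a + -(1 + q) * (q⁻¹ * a)) = 0 := by
    field_simp
    ring
  rw [this, Finsupp.single_zero, add_zero]

theorem inv_mul_hk (hq : q ≠ 0) (i : S) : hkInv M q d i * hk M q d i = 1 := by
  apply LinearMap.ext
  intro v
  rw [Module.End.mul_apply, hk_apply, hkInv_apply, map_add, phi_self, Module.End.one_apply]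
  set a := phi M q d i v
  rw [add_assoc, ← Finsupp.single_add]
  have : a + q⁻¹ * (a + -(1 + q) * a) = 0 := by
    field_simp
    ring
  rw [this, Finsupp.single_zero, add_zero]

/-- the reflections as units -/
noncomputable def hu (hq : q ≠ 0) (i : S) : (Module.End K (S →₀ K))ˣ :=
  ⟨hk M q d i, hkInv M q d i, hk_mul_inv M q d hq i, inv_mul_hk M q d hq i⟩

/-- alternating products fix the common kernel of the two functionals -/
theorem fix_ker (s t : S) (n : ℕ) (v : S →₀ K) (hs : phi M q d s v = 0)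
    (ht : phi M q d t v = 0) : altR (hk M q d s) (hk M q d t) n v = v := by
  induction n generalizing s t with
  | zero => rfl
  | succ n ih =>
    rw [altR, Module.End.mul_apply, ih t s ht hs, hk_apply, hs, Finsupp.single_zero, add_zero]

/-- the plane -/
noncomputable def io (s t : S) (v : Fin 2 → K) : S →₀ K :=
  Finsupp.single s (v 0) + Finsupp.single t (v 1)

noncomputable def Um (l d : K) : Matrix (Fin 2) (Fin 2) K := !![l, -d; d⁻¹, 0]
noncomputable def Jm (d d' : K) : Matrix (Fin 2) (Fin 2) K := !![0, d; d', 0]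

theorem hk_s (s t : S) (hst : s ≠ t) (hd : d s t * d t s = q) (hq : q ≠ 0) (v : Fin 2 → K) :
    hk M q d s (io s t v) = io s t ((Um (algebraMap ℝ K (lam (M s t))) (d s t) *
      Jm (d s t) (d t s)).mulVec v) := by
  have hd1 : d s t ≠ 0 := by
    intro h
    rw [h, zero_mul] at hd
    exact hq hd.symm
  rw [hk_apply, io, map_add, phi_self, phi_ne M q d s t hst.symm, io, add_right_comm,
    ← Finsupp.single_add]
  have e0 : ((Um (algebraMap ℝ K (lam (M s t))) (d s t) * Jm (d s t) (d t s)).mulVec v) 0 =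
      -q * v 0 + algebraMap ℝ K (lam (M s t)) * d s t * v 1 := by
    simp [Um, Jm, Matrix.mulVec, dotProduct, Fin.sum_univ_two, Matrix.mul_apply]
    rw [hd]
    simp
  have e1 : ((Um (algebraMap ℝ K (lam (M s t))) (d s t) * Jm (d s t) (d t s)).mulVec v) 1 =
      v 1 := by
    simp [Um, Jm, Matrix.mulVec, dotProduct, Fin.sum_univ_two, Matrix.mul_apply]
    rw [inv_mul_cancel₀ hd1, one_mul]
  rw [e0, e1]
  congr 2
  ring

theorem hk_t (s t : S) (hst : s ≠ t) (hd : d s t * d t s = q) (hq : q ≠ 0) (v : Fin 2 → K) :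
    hk M q d t (io s t v) = io s t ((Jm (d s t) (d t s) *
      Um (algebraMap ℝ K (lam (M s t))) (d s t)).mulVec v) := by
  have hd1 : d s t ≠ 0 := by
    intro h
    rw [h, zero_mul] at hd
    exact hq hd.symm
  rw [hk_apply, io, map_add, phi_self, phi_ne M q d t s hst, io, add_assoc,
    ← Finsupp.single_add]
  have e0 : ((Jm (d s t) (d t s) * Um (algebraMap ℝ K (lam (M s t))) (d s t)).mulVec v) 0 =
      v 0 := by
    simp [Um, Jm, Matrix.mulVec, dotProduct, Fin.sum_univ_two, Matrix.mul_apply]
    rw [mul_inv_cancel₀ hd1, one_mul]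
  have e1 : ((Jm (d s t) (d t s) * Um (algebraMap ℝ K (lam (M s t))) (d s t)).mulVec v) 1 =
      algebraMap ℝ K (lam (M s t)) * d t s * v 0 - q * v 1 := by
    simp [Um, Jm, Matrix.mulVec, dotProduct, Fin.sum_univ_two, Matrix.mul_apply]
    rw [← hd]
    ring
  rw [e0, e1, M.symmetric t s]
  congr 2
  ring

theorem alt_io (s t : S) (hst : s ≠ t) (hd : d s t * d t s = q) (hq : q ≠ 0) (n : ℕ) :
    (∀ v : Fin 2 → K, altR (hk M q d s) (hk M q d t) n (io s t v) =
      io s t ((altR (Um (algebraMap ℝ K (lam (M s t))) (d s t) * Jm (d s t) (d t s))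
        (Jm (d s t) (d t s) * Um (algebraMap ℝ K (lam (M s t))) (d s t)) n).mulVec v)) ∧
    (∀ v : Fin 2 → K, altR (hk M q d t) (hk M q d s) n (io s t v) =
      io s t ((altR (Jm (d s t) (d t s) * Um (algebraMap ℝ K (lam (M s t))) (d s t))
        (Um (algebraMap ℝ K (lam (M s t))) (d s t) * Jm (d s t) (d t s)) n).mulVec v)) := by
  induction n with
  | zero =>
    constructor
    · intro v
      simp [altR]
    · intro v
      simp [altR]
  | succ n ih =>
    obtain ⟨h1, h2⟩ := ih
    constructor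
    · intro v
      rw [altR, altR, Module.End.mul_apply, h2, hk_s M q d s t hst hd hq, Matrix.mulVec_mulVec]
    · intro v
      rw [altR, altR, Module.End.mul_apply, h1, hk_t M q d s t hst hd hq, Matrix.mulVec_mulVec]

/-- the braid relation -/
theorem braid (s t : S) (hst : s ≠ t) (hM : M s t ≠ 0) (hq : q ≠ 0) (hd : d s t * d t s = q)
    (hne : (1 + q) ^ 2 ≠ q * (algebraMap ℝ K (lam (M s t))) ^ 2) :
    altR (hk M q d s) (hk M q d t) (M s t) = altR (hk M q d t) (hk M q d s) (M s t) := by
  have hd1 : d s t ≠ 0 := by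
    intro h
    rw [h, zero_mul] at hd
    exact hq hd.symm
  set l := algebraMap ℝ K (lam (M s t)) with hl
  set U := Um l (d s t) with hU
  set J := Jm (d s t) (d t s) with hJ
  have hm : 2 ≤ M s t := by
    have h1 : M s t ≠ 1 := fun h => hst (M.off_diagonal s t |>.mt (not_not.2 h) |> not_not.1)
    omega
  have hJJ : J * J = algebraMap K (Matrix (Fin 2) (Fin 2) K) q := by
    rw [hJ, Jm, Algebra.algebraMap_eq_smul_one]
    ext i j
    fin_cases i <;> fin_cases j <;> simp [Matrix.mul_apply, Fin.sum_univ_two, hd]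
    rw [mul_comm, hd]
  have hUU : U * U = algebraMap K (Matrix (Fin 2) (Fin 2) K) l * U - 1 := by
    rw [hU, Um, Algebra.algebraMap_eq_smul_one, Matrix.smul_mul, one_mul]
    ext i j
    fin_cases i <;> fin_cases j <;>
      simp [Matrix.mul_apply, Fin.sum_univ_two, hd1]
    · ring
    · ring
  have hUm : U ^ (M s t) = -1 := U_pow_m (M s t) hm U hUU
  have hbr := braid_ring q hq U J hJJ (M s t) hUm
  -- extend to the whole space
  apply LinearMap.ext
  intro v
  obtain ⟨w, hw1, hw2⟩ : ∃ w : Fin 2 → K, phi M q d s (io s t w) = phi M q d s v ∧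
      phi M q d t (io s t w) = phi M q d t v := by
    set a := phi M q d s v
    set b := phi M q d t v
    set D := (1 + q) ^ 2 - q * l ^ 2 with hD
    have hD0 : D ≠ 0 := sub_ne_zero.2 hne
    refine ⟨![(-(1 + q) * a - l * d s t * b) / D, (-(1 + q) * b - l * d t s * a) / D], ?_, ?_⟩
    · rw [io, map_add, phi_self, phi_ne M q d s t hst.symm]
      simp only [Matrix.cons_val_zero, Matrix.cons_val_one]
      rw [← hl]
      field_simp
      rw [hD]
      linear_combination (-(a * l ^ 2)) * hd
    · rw [io, map_add, phi_self, phi_ne M q d t s hst]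
      simp only [Matrix.cons_val_zero, Matrix.cons_val_one]
      rw [M.symmetric t s, ← hl]
      field_simp
      rw [hD]
      linear_combination (-(b * l ^ 2)) * hd
  have hz1 : phi M q d s (v - io s t w) = 0 := by rw [map_sub, hw1, sub_self]
  have hz2 : phi M q d t (v - io s t w) = 0 := by rw [map_sub, hw2, sub_self]
  have hv : v = io s t w + (v - io s t w) := by abel
  obtain ⟨k1, k2⟩ := alt_io M q d s t hst hd hq (M s t)
  rw [hv, map_add, map_add, fix_ker M q d s t _ _ hz1 hz2, fix_ker M q d t s _ _ hz2 hz1, k1, k2,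
    hbr]

end rep

end DREP

open DREP in
theorem stmt_DREP : Stmt_DREP := by
  intro S K _ _ M q d hM hq hd hne
  have hrel : ∀ r ∈ braidRels M, FreeGroup.lift (hu M q d hq) r = 1 := by
    rintro r ⟨s, t, hst, hM', rfl⟩
    rw [map_mul, map_inv, lift_alt, lift_alt, mul_inv_eq_one]
    apply Units.ext
    rw [altR_units, altR_units]
    exact braid M q d s t hst hM' hq (hd s t hst) (hne s t hst)
  refine ⟨(Units.coeHom _).comp (PresentedGroup.toGroup hrel), fun i => ?_⟩
  rw [MonoidHom.comp_apply, gen, PresentedGroup.toGroup.of]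
  rfl

end Pool.HA
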