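import Pool.Agent.Work.MP_7084a3_h91.B.WF45

set_option autoImplicit false

/-! # Block DW2 (helper45) -/

namespace Pool.HA.H45

section
variable {F : Type} [Group F]

theorem wordF_replicate (u j : F) (n : ℕ) (a : ℤ) :
    wordF u j (List.replicate n a) = (u ^ a * j) ^ n := by
  simp [wordF]

theorem ju_zpow {u j : F} (hj : j * j = 1) (a : ℤ) : (j * u) ^ a = j * (u * j) ^ a * j := by
  have hji : j⁻¹ = j := inv_eq_of_mul_eq_one_left hj
  have h1 : j * u = j * (u * j) * j⁻¹ := by group
  rw [h1, conj_zpow, hji]

theorem altP_swap {u j : F} (hj : j * j = 1) : ∀ l : List ℤ,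
    altP (j * u) (u * j) l = j * altP (u * j) (j * u) l * j
  | [] => by simp [altP, hj]
  | a :: l => by
    have h1 : altP (u * j) (j * u) l = j * altP (j * u) (u * j) l * j := by
      rw [altP_swap hj l]
      have : j * (j * altP (u * j) (j * u) l * j) * j =
        (j * j) * altP (u * j) (j * u) l * (j * j) := by group
      rw [this, hj]; simp
    rw [altP, altP, ju_zpow hj, h1]
    have h2 : j * (u * j) ^ a * j * (j * altP (j * u) (u * j) l * j) =
      j * (u * j) ^ a * (j * j) * altP (j * u) (u * j) l * j := by group
    rw [h2, hj]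
    simp [mul_assoc]

theorem altP_even {u j : F} (hj : j * j = 1) : ∀ l : List ℤ,
    (Even l.length → altP (u * j) (j * u) l = wordF (u * j) j l) ∧
    (¬ Even l.length → altP (u * j) (j * u) l * j = wordF (u * j) j l)
  | [] => by simp [altP, wordF_nil]
  | a :: l => by
    obtain ⟨h1, h2⟩ := altP_even hj l
    have h3 : altP (u * j) (j * u) (a :: l) =
        (u * j) ^ a * j * (altP (u * j) (j * u) l * j) := by
      rw [altP, altP_swap hj]
      group
    constructor
    · intro he
      have : ¬ Even l.length := by
        rw [List.length_cons] at he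
        intro h
        have := Nat.even_add_one.1 he
        exact this h
      rw [h3, h2 this, wordF_cons]
    · intro he
      have : Even l.length := by
        rw [List.length_cons] at he
        by_contra h
        exact he (Nat.even_add_one.2 h)
      rw [h3, h1 this, wordF_cons]
      have h4 : (u * j) ^ a * j * (wordF (u * j) j l * j) * j =
        (u * j) ^ a * j * wordF (u * j) j l * (j * j) := by group
      rw [h4, hj, mul_one]

/-- sum of `|a| - 1` -/
def sm (e : List ℤ) : ℤ := (e.map (fun a => (a.natAbs : ℤ) - 1)).sum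

theorem sm_cons (a : ℤ) (e : List ℤ) : sm (a :: e) = ((a.natAbs : ℤ) - 1) + sm e := by simp [sm]

theorem sm_replicate (n : ℕ) (e : List ℤ) (a : ℤ) (ha : a.natAbs = 1) :
    sm (List.replicate n a ++ e) = sm e := by
  induction n with
  | zero => simp
  | succ n ih => rw [List.replicate_succ, List.cons_append, sm_cons, ih, ha]; simp

theorem pos_factor (u j : F) (hj : j * j = 1) (n : ℕ) (w : F) :
    (u * j) ^ (((n : ℤ) + 1)) * j * w = wordF u j (List.replicate n 1) * (u * w) := by
  rw [wordF_replicate, zpow_add, zpow_one, zpow_natCast, zpow_one]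
  have : (u * j) ^ n * (u * j) * j * w = (u * j) ^ n * u * (j * j) * w := by group
  rw [this, hj, mul_one]
  group

theorem neg_factor (u j : F) (hj : j * j = 1) (n : ℕ) (w : F) :
    (u * j) ^ (-(n : ℤ)) * j * w = j * (wordF u j (List.replicate n (-1)) * w) := by
  have hji : j⁻¹ = j := inv_eq_of_mul_eq_one_left hj
  rw [wordF_replicate]
  have h1 : (u * j) ^ (-(n : ℤ)) = (j * u⁻¹) ^ n := by
    rw [zpow_neg, zpow_natCast, ← inv_pow, mul_inv_rev, hji]
  have h2 : (j * u⁻¹) ^ n = j * (u ^ (-1 : ℤ) * j) ^ n * j⁻¹ := by
    rw [← conj_pow]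
    congr 1
    group
  rw [h1, h2, hji]
  have : j * (u ^ (-1 : ℤ) * j) ^ n * j * j * w = j * (u ^ (-1 : ℤ) * j) ^ n * (j * j) * w := by
    group
  rw [this, hj, mul_one]
  group

theorem dw2_aux {u j : F} (hj : j * j = 1) : ∀ l : List ℤ, l ≠ [] → (∀ a ∈ l, a ≠ 0) →
    (∀ a ∈ l.getLast?, a < 0) →
    ((∀ a ∈ l.head?, 0 < a) → ∃ (x : ℤ) (e : List ℤ), 0 < x ∧ (∀ a ∈ e, a ≠ 0) ∧
      wordF (u * j) j l = wordF u j (x :: e) ∧ sm (x :: e) + 2 ≤ l.length) ∧
    ((∀ a ∈ l.head?, a < 0) → ∃ (x : ℤ) (e : List ℤ), x < 0 ∧ (∀ a ∈ e, a ≠ 0) ∧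
      wordF (u * j) j l = j * wordF u j (x :: e) ∧ sm (x :: e) + 1 ≤ l.length)
  | [], h, _, _ => absurd rfl h
  | [a], _, h0, h1 => by
    have ha : a < 0 := h1 a (by simp)
    refine ⟨fun h2 => absurd (h2 a (by simp)) (by omega), fun _ => ?_⟩
    obtain ⟨n, rfl⟩ : ∃ n : ℕ, a = -((n : ℤ) + 1) := ⟨(-a - 1).toNat, by omega⟩
    refine ⟨-1, List.replicate n (-1), by omega, ?_, ?_, ?_⟩
    · intro b hb
      rw [List.mem_replicate] at hb
      omega
    · rw [← List.replicate_succ, wordF_single]
      have := neg_factor u j hj (n + 1) 1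
      push_cast at this
      simpa using this
    · have h5 := sm_replicate (n + 1) [] (-1) (by simp)
      rw [List.append_nil, List.replicate_succ] at h5
      rw [h5]
      simp [sm]
  | a :: b :: l, _, h0, h1 => by
    have hb0 : b ≠ 0 := h0 b (by simp)
    have ha0 : a ≠ 0 := h0 a (by simp)
    obtain ⟨ihp, ihn⟩ := dw2_aux hj (b :: l) (by simp) (fun x hx => h0 x (by simp [hx]))
      (by
        intro x hx
        refine h1 x ?_
        rw [List.getLast?_cons_cons]
        exact hx)
    have hlen : ((a :: b :: l).length : ℤ) = ((b :: l).length : ℤ) + 1 := by simp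
    have hrep : ∀ (n : ℕ) (c : ℤ) (e : List ℤ), c ≠ 0 → (∀ a ∈ e, a ≠ 0) →
        ∀ a ∈ List.replicate n c ++ e, a ≠ 0 := by
      intro n c e hc he a ha
      rw [List.mem_append, List.mem_replicate] at ha
      rcases ha with ⟨-, rfl⟩ | ha
      · exact hc
      · exact he a ha
    rw [hlen]
    constructor
    · intro h2
      have ha : 0 < a := h2 a (by simp)
      obtain ⟨n, rfl⟩ : ∃ n : ℕ, a = (n : ℤ) + 1 := ⟨(a - 1).toNat, by omega⟩
      rcases lt_or_gt_of_ne hb0 with hb | hb
      · obtain ⟨x, e, hx, he, hw, hs⟩ := ihn (by simpa using hb)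
        refine ⟨1, List.replicate n 1 ++ x :: e, by omega,
          hrep n 1 _ (by omega) ?_, ?_, ?_⟩
        · intro y hy
          rw [List.mem_cons] at hy
          rcases hy with rfl | hy
          · omega
          · exact he y hy
        · rw [wordF_cons, hw, pos_factor u j hj, ← List.cons_append, ← List.replicate_succ,
            wordF_append, List.replicate_succ', wordF_append, wordF_single, zpow_one]
          group
        · have h5 := sm_replicate (n + 1) (x :: e) 1 (by simp)
          rw [List.replicate_succ, List.cons_append] at h5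
          rw [h5]
          omega
      · obtain ⟨x, e, hx, he, hw, hs⟩ := ihp (by simpa using hb)
        have h5 : sm ((x + 1) :: e) = sm (x :: e) + 1 := by
          rw [sm_cons, sm_cons]
          have : ((x + 1).natAbs : ℤ) = x.natAbs + 1 := by omega
          rw [this]; ring
        have hw2 : wordF (u * j) j (((n : ℤ) + 1) :: b :: l) =
            wordF u j (List.replicate n 1 ++ (x + 1) :: e) := by
          rw [wordF_cons, hw, pos_factor u j hj, wordF_append]
          rw [wordF_cons, wordF_cons, zpow_add, zpow_one]
          group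
        rw [hw2]
        rcases n with _ | n
        · refine ⟨x + 1, e, by omega, he, by simp, by rw [h5]; omega⟩
        · refine ⟨1, List.replicate n 1 ++ (x + 1) :: e, by omega,
            hrep n 1 _ (by omega) ?_, ?_, ?_⟩
          · intro y hy
            rw [List.mem_cons] at hy
            rcases hy with rfl | hy
            · omega
            · exact he y hy
          · rw [List.replicate_succ, List.cons_append]
          · rw [← List.cons_append, ← List.replicate_succ, sm_replicate _ _ _ (by simp), h5]
            omega
    · intro h2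
      have ha : a < 0 := h2 a (by simp)
      obtain ⟨n, rfl⟩ : ∃ n : ℕ, a = -((n : ℤ) + 1) := ⟨(-a - 1).toNat, by omega⟩
      rcases lt_or_gt_of_ne hb0 with hb | hb
      · obtain ⟨x, e, hx, he, hw, hs⟩ := ihn (by simpa using hb)
        have h5 : sm ((x - 1) :: e) = sm (x :: e) + 1 := by
          rw [sm_cons, sm_cons]
          have : ((x - 1).natAbs : ℤ) = x.natAbs + 1 := by omega
          rw [this]; ring
        have hw2 : wordF (u * j) j (-((n : ℤ) + 1) :: b :: l) =
            j * wordF u j (List.replicate n (-1) ++ (x - 1) :: e) := by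
          have h6 := neg_factor u j hj (n + 1) (j * wordF u j (x :: e))
          push_cast at h6
          rw [wordF_cons, hw, h6, wordF_append, List.replicate_succ', wordF_append, wordF_single,
            wordF_cons, wordF_cons]
          have h7 : wordF u j (List.replicate n (-1)) * (u ^ (-1 : ℤ) * j) *
              (j * (u ^ x * j * wordF u j e)) = wordF u j (List.replicate n (-1)) *
              (u ^ (-1 : ℤ) * (j * j) * u ^ x * j * wordF u j e) := by group
          rw [h7, hj, sub_eq_add_neg, add_comm x, zpow_add]
          group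
        rw [hw2]
        rcases n with _ | n
        · refine ⟨x - 1, e, by omega, he, by simp, by rw [h5]; omega⟩
        · refine ⟨-1, List.replicate n (-1) ++ (x - 1) :: e, by omega,
            hrep n (-1) _ (by omega) ?_, ?_, ?_⟩
          · intro y hy
            rw [List.mem_cons] at hy
            rcases hy with rfl | hy
            · omega
            · exact he y hy
          · rw [List.replicate_succ, List.cons_append]
          · rw [← List.cons_append, ← List.replicate_succ, sm_replicate _ _ _ (by simp), h5]
            omega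
      · obtain ⟨x, e, hx, he, hw, hs⟩ := ihp (by simpa using hb)
        refine ⟨-1, List.replicate n (-1) ++ x :: e, by omega,
          hrep n (-1) _ (by omega) ?_, ?_, ?_⟩
        · intro y hy
          rw [List.mem_cons] at hy
          rcases hy with rfl | hy
          · omega
          · exact he y hy
        · have h6 := neg_factor u j hj (n + 1) (wordF u j (x :: e))
          push_cast at h6
          rw [wordF_cons, hw, h6, ← List.cons_append, ← List.replicate_succ, wordF_append]
        · rw [← List.cons_append, ← List.replicate_succ, sm_replicate _ _ _ (by simp)]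
          omega

theorem _root_.Pool.HA.stmt_DW2 : Stmt_DW2 := by
  intro F _ u j hj l hl hev hh hlast hne
  obtain ⟨x, e, hx, he, hw, hs⟩ := (dw2_aux hj l hne hl hlast).1 hh
  refine ⟨x :: e, by simp, ?_, ?_, hs⟩
  · intro a ha
    rw [List.mem_cons] at ha
    rcases ha with rfl | ha
    · omega
    · exact he a ha
  · rw [(altP_even hj l).1 hev, hw]

end

end Pool.HA.H45
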