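import Pool.Agent.Work.MP_7084a3_h91.B.DW1
import Pool.Agent.Work.MP_7084a3_h91.B.DW2

set_option autoImplicit false

/-! # Block DSL (helper45) -/

namespace Pool.HA.H45

theorem sum_pos45 : ∀ l : List ℤ, l ≠ [] → (∀ a ∈ l, 0 < a) → 0 < l.sum
  | [], h, _ => absurd rfl h
  | [a], _, h => by simpa using h a (by simp)
  | a :: b :: l, _, h => by
    rw [List.sum_cons]
    have h1 := sum_pos45 (b :: l) (by simp) (fun x hx => h x (by simp [hx]))
    have h2 := h a (by simp)
    omega

theorem first_pos : ∀ l : List ℤ, (∃ a ∈ l, 0 < a) → ∃ s a t, l = s ++ a :: t ∧ 0 < a ∧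
    ∀ b ∈ s, b ≤ 0
  | [], h => by simp at h
  | c :: l, h => by
    by_cases hc : 0 < c
    · exact ⟨[], c, l, rfl, hc, by simp⟩
    · obtain ⟨s, a, t, rfl, ha, hs⟩ := first_pos l (by
        obtain ⟨a, ha, h0⟩ := h
        rw [List.mem_cons] at ha
        rcases ha with rfl | ha
        · exact absurd h0 hc
        · exact ⟨a, ha, h0⟩)
      refine ⟨c :: s, a, t, rfl, ha, ?_⟩
      intro b hb
      rw [List.mem_cons] at hb
      rcases hb with rfl | hb
      · omega
      · exact hs b hb

theorem sm_append (e f : List ℤ) : sm (e ++ f) = sm e + sm f := by simp [sm]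

theorem sm_nonneg : ∀ e : List ℤ, (∀ a ∈ e, a ≠ 0) → 0 ≤ sm e
  | [], _ => by simp [sm]
  | a :: e, h => by
    rw [sm_cons]
    have h1 := sm_nonneg e (fun x hx => h x (by simp [hx]))
    have h2 := h a (by simp)
    omega

theorem natAbs_ge {m : ℕ} {a : ℤ} (h : (m : ℤ) ∣ a) (h0 : a ≠ 0) : (m : ℤ) ≤ a.natAbs := by
  have h1 := Int.natAbs_dvd_natAbs.2 h
  have h2 := Nat.le_of_dvd (by omega) h1
  simp at h2
  omega

theorem _root_.Pool.HA.stmt_DSL : Stmt_DSL := by
  intro F _ m u j hm h l hne h0 hev hs hw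
  have hn : ∃ n ∈ l, n < 0 := by
    by_contra hc
    push Not at hc
    have := sum_pos45 l hne (fun a ha => lt_of_le_of_ne (hc a ha) (Ne.symm (h0 a ha)))
    omega
  obtain ⟨n, hnl, hn0⟩ := hn
  obtain ⟨p, q, rfl⟩ := List.append_of_mem hnl
  have hp : ∃ a ∈ q ++ p, 0 < a := by
    by_contra hc
    push Not at hc
    have h1 : ∀ w : List ℤ, (∀ a ∈ w, a ≤ 0) → w.sum ≤ 0 := by
      intro w hw
      induction w with
      | nil => simp
      | cons a w ih =>
        rw [List.sum_cons]
        have := ih (fun x hx => hw x (by simp [hx]))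
        have := hw a (by simp)
        omega
    have h2 := h1 (q ++ p) hc
    simp only [List.sum_append, List.sum_cons] at hs h2
    omega
  obtain ⟨s, a, t, hst, ha, hs0⟩ := first_pos _ hp
  rw [(altP_even h.jj _).1 hev] at hw
  have hw2 := wordF_rot hw
  have he2 : n :: q ++ p = (n :: s) ++ a :: t := by
    rw [List.cons_append, hst, List.cons_append]
  rw [he2] at hw2
  have hw3 := wordF_rot hw2
  have hlen : (p ++ n :: q).length = (a :: t ++ n :: s).length := by
    have := congrArg List.length hst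
    simp only [List.length_append, List.length_cons] at this ⊢
    omega
  have hmem : ∀ b ∈ a :: t ++ n :: s, b ∈ p ++ n :: q := by
    intro b hb
    have h1 : b ∈ n :: q ++ p := by
      rw [he2]
      simp only [List.mem_append, List.mem_cons] at hb ⊢
      tauto
    simp only [List.mem_append, List.mem_cons] at h1 ⊢
    tauto
  rw [hlen]
  rw [hlen] at hev
  obtain ⟨e, hene, he0, hew, hes⟩ := stmt_DW2 F u j h.jj (a :: t ++ n :: s)
    (fun b hb => h0 b (hmem b hb)) hev (by simpa using ha) (by
      intro b hb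
      have hb1 : b ∈ (n :: s).getLast? := by
        rw [List.getLast?_append_of_ne_nil _ (by simp)] at hb
        exact hb
      have hb2 : b ∈ n :: s := List.mem_of_getLast? hb1
      have hb3 : b ≠ 0 := h0 b (hmem b (by simp at hb2 ⊢; tauto))
      have hb4 : b ≤ 0 := by
        rw [List.mem_cons] at hb2
        rcases hb2 with rfl | hb2
        · omega
        · exact hs0 b hb2
      omega) (by simp)
  rw [(altP_even h.jj _).1 hev, hw3] at hew
  obtain ⟨x, c, y, d, z, rfl, hc, hd⟩ := stmt_DW1 F m u j hm h e hene hew.symm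
  have h1 := natAbs_ge hc (he0 c (by simp))
  have h2 := natAbs_ge hd (he0 d (by simp))
  have h3 := sm_nonneg x (fun b hb => he0 b (by simp [hb]))
  have h4 := sm_nonneg y (fun b hb => he0 b (by simp [hb]))
  have h5 := sm_nonneg z (fun b hb => he0 b (by simp [hb]))
  have h6 : sm (x ++ c :: (y ++ d :: z)) + 2 ≤ ((a :: t ++ n :: s).length : ℤ) := hes
  rw [sm_append, sm_cons, sm_append, sm_cons] at h6
  omega

end Pool.HA.H45
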