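import Pool.Agent.Work.MP_7084a3_h91.InterfaceD

set_option autoImplicit false

namespace Pool.HA

namespace DSLGx

theorem map_altP {G H : Type} [Group G] [Group H] (f : G →* H) (x y : G) (l : List ℤ) :
    f (altP x y l) = altP (f x) (f y) l := by
  induction l generalizing x y with
  | nil => simp [altP]
  | cons a l ih => rw [altP, altP, map_mul, map_zpow, ih]

theorem esum_gen {S : Type} (M : CoxeterMatrix S) (s : S) :
    esum M (gen M s) = Multiplicative.ofAdd (1 : ℤ) := by
  unfold esum gen
  exact PresentedGroup.toGroup.of _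

theorem altP_same (l : List ℤ) :
    altP (Multiplicative.ofAdd (1 : ℤ)) (Multiplicative.ofAdd (1 : ℤ)) l = Multiplicative.ofAdd l.sum := by
  induction l with
  | nil => rfl
  | cons a l ih =>
    rw [altP, ih, List.sum_cons, ofAdd_add, ← ofAdd_zsmul]
    simp

end DSLGx

theorem stmt_DSLG (h1 : Stmt_DTH) (h2 : Stmt_DSL) : Stmt_DSLG := by
  intro S M h0 s t hst l hl ha hev hw
  obtain ⟨F, iF, u, j, θ, Φ, hUJ, _, _, hs, ht, _⟩ := h1 S M h0 s t hst
  have hm : 2 ≤ M s t := by
    have e1 := h0 s t
    have e2 := M.off_diagonal s t hst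
    omega
  have hsum : l.sum = 0 := by
    have e1 := congrArg (esum M) hw
    rw [DSLGx.map_altP, DSLGx.esum_gen, DSLGx.esum_gen, DSLGx.altP_same, map_one] at e1
    exact Multiplicative.ofAdd.injective (e1.trans ofAdd_zero.symm)
  have hs' : gen M s ∈ pr (gen M) s t := Subgroup.subset_closure (by simp)
  have ht' : gen M t ∈ pr (gen M) s t := Subgroup.subset_closure (by simp)
  have hw' : altP (⟨gen M s, hs'⟩ : ↥(pr (gen M) s t)) ⟨gen M t, ht'⟩ l = 1 := by
    apply Subtype.ext
    have := DSLGx.map_altP (pr (gen M) s t).subtype ⟨gen M s, hs'⟩ ⟨gen M t, ht'⟩ l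
    rw [Subgroup.coe_subtype] at this
    rw [this]
    exact hw
  have h3 : altP (u * j) (j * u) l = 1 := by
    have := congrArg θ hw'
    rw [DSLGx.map_altP, hs _ rfl, ht _ rfl, map_one] at this
    exact this
  exact h2 F (M s t) u j hm hUJ l hl ha hev hsum h3

end Pool.HA
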