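import Pool.Agent.Work.MP_7084a3_h91.InterfaceD

set_option autoImplicit false

namespace Pool.HA

namespace DTFx

theorem esum_gen {S : Type} (M : CoxeterMatrix S) (s : S) :
    esum M (gen M s) = Multiplicative.ofAdd (1 : ℤ) := by
  unfold esum gen
  exact PresentedGroup.toGroup.of _

theorem map_altG {G H : Type} [Group G] [Group H] (f : G →* H) (x y : G) (n : ℕ) :
    f (altG x y n) = altG (f x) (f y) n := by
  induction n generalizing x y with
  | zero => simp [altG]
  | succ n ih => rw [altG, altG, map_mul, ih]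

theorem altG_same (n : ℕ) :
    altG (Multiplicative.ofAdd (1 : ℤ)) (Multiplicative.ofAdd (1 : ℤ)) n =
      Multiplicative.ofAdd (n : ℤ) := by
  induction n with
  | zero => rfl
  | succ n ih =>
    rw [altG, ih, ← ofAdd_add]
    congr 1
    push_cast; ring

theorem mk_alt {S : Type} (M : CoxeterMatrix S) (s t : S) (n : ℕ) :
    PresentedGroup.mk (braidRels M) (alt s t n) = altG (gen M s) (gen M t) n := by
  induction n generalizing s t with
  | zero => simp [alt, altG]
  | succ n ih => rw [alt, altG, map_mul, ih]; rfl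

theorem braid {S : Type} (M : CoxeterMatrix S) (h0 : ∀ s t, M s t ≠ 0) (s t : S) (hst : s ≠ t) :
    altG (gen M s) (gen M t) (M s t) = altG (gen M t) (gen M s) (M s t) := by
  have h1 : PresentedGroup.mk (braidRels M) (alt s t (M s t) * (alt t s (M s t))⁻¹) = 1 :=
    PresentedGroup.one_of_mem ⟨s, t, hst, h0 s t, rfl⟩
  rw [map_mul, map_inv, mul_inv_eq_one, mk_alt, mk_alt] at h1
  exact h1

theorem of_zpow {a : ℤ} : ∀ k : ℤ, (Multiplicative.ofAdd a) ^ k = Multiplicative.ofAdd (k * a) := by
  intro k
  rw [← ofAdd_zsmul, smul_eq_mul]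

end DTFx

theorem stmt_DTF (h1 : Stmt_DCPC) (h2 : Stmt_DSLG) : Stmt_DTF := by
  intro S M h0 s t hst h hh K hK hhK
  have hm : 2 ≤ M s t := by
    have e1 := h0 s t
    have e2 := M.off_diagonal s t hst
    omega
  -- the exponent sum is zero
  have hes : esum M h = 1 := by
    have e1 := congrArg (esum M) hhK
    rw [map_pow, map_one] at e1
    obtain ⟨a, ha⟩ : ∃ a : ℤ, esum M h = Multiplicative.ofAdd a := ⟨Multiplicative.toAdd (esum M h), rfl⟩
    rw [ha, ← ofAdd_nsmul] at e1
    have e2 := Multiplicative.ofAdd.injective (e1.trans ofAdd_zero.symm)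
    rw [nsmul_eq_mul] at e2
    rcases mul_eq_zero.1 e2 with e3 | e3
    · exfalso
      have : K = 0 := by exact_mod_cast e3
      omega
    · rw [ha, e3, ofAdd_zero]
  by_cases hm3 : 3 ≤ M s t
  · obtain ⟨w, _, l, hl⟩ := h1 S M h0 s t hst hm3 h hh K hK (by
      intro x _
      rw [hhK]
      exact Commute.one_left x)
    have hl0 : l = 0 := by
      rcases hl with hl | hl
      · rw [hl, map_mul, map_mul, map_inv, map_zpow, map_mul, DTFx.esum_gen, DTFx.esum_gen,
          mul_comm, ← mul_assoc, inv_mul_cancel, one_mul, ← ofAdd_add, DTFx.of_zpow] at hes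
        have e2 := Multiplicative.ofAdd.injective (hes.trans ofAdd_zero.symm)
        omega
      · rw [hl, map_mul, map_mul, map_inv, map_zpow, DTFx.map_altG, DTFx.esum_gen, DTFx.esum_gen,
          mul_comm, ← mul_assoc, inv_mul_cancel, one_mul, DTFx.altG_same, DTFx.of_zpow] at hes
        have e2 := Multiplicative.ofAdd.injective (hes.trans ofAdd_zero.symm)
        rcases mul_eq_zero.1 e2 with e3 | e3
        · exact e3
        · exfalso
          have : M s t = 0 := by exact_mod_cast e3
          omega
    rcases hl with hl | hl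
    · rw [hl, hl0]; simp
    · rw [hl, hl0]; simp
  · have hm2 : M s t = 2 := by omega
    have hcomm : Commute (gen M s) (gen M t) := by
      have := DTFx.braid M h0 s t hst
      rw [hm2] at this
      simp only [altG, mul_one] at this
      exact this
    have hform : ∃ a b : ℤ, h = gen M s ^ a * gen M t ^ b := by
      refine Subgroup.closure_induction (p := fun h _ => ∃ a b : ℤ, h = gen M s ^ a * gen M t ^ b)
        ?_ ?_ ?_ ?_ hh
      · intro z hz
        rcases hz with rfl | hz
        · exact ⟨1, 0, by simp⟩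
        · rw [Set.mem_singleton_iff] at hz
          exact ⟨0, 1, by rw [hz]; simp⟩
      · exact ⟨0, 0, by simp⟩
      · rintro x y _ _ ⟨a, b, rfl⟩ ⟨c, d, rfl⟩
        refine ⟨a + c, b + d, ?_⟩
        have e1 : gen M t ^ b * gen M s ^ c = gen M s ^ c * gen M t ^ b :=
          ((hcomm.zpow_zpow c b).eq).symm
        rw [zpow_add, zpow_add]
        calc gen M s ^ a * gen M t ^ b * (gen M s ^ c * gen M t ^ d)
            = gen M s ^ a * (gen M t ^ b * gen M s ^ c) * gen M t ^ d := by group
          _ = gen M s ^ a * gen M s ^ c * (gen M t ^ b * gen M t ^ d) := by rw [e1]; group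
      · rintro x _ ⟨a, b, rfl⟩
        refine ⟨-a, -b, ?_⟩
        rw [mul_inv_rev, ← zpow_neg, ← zpow_neg]
        exact ((hcomm.zpow_zpow (-a) (-b)).eq).symm
    obtain ⟨a, b, hab⟩ := hform
    have hsum : a + b = 0 := by
      rw [hab, map_mul, map_zpow, map_zpow, DTFx.esum_gen, DTFx.esum_gen, DTFx.of_zpow, DTFx.of_zpow,
        ← ofAdd_add] at hes
      have e2 := Multiplicative.ofAdd.injective (hes.trans ofAdd_zero.symm)
      omega
    by_cases ha : a = 0
    · have hb : b = 0 := by omega
      rw [hab, ha, hb]; simp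
    · exfalso
      have hb : b ≠ 0 := by omega
      have hK' : (K : ℤ) ≠ 0 := by exact_mod_cast hK.ne'
      have hpow : gen M s ^ (a * K) * gen M t ^ (b * K) = 1 := by
        rw [zpow_mul, zpow_mul, zpow_natCast, zpow_natCast, ← (hcomm.zpow_zpow a b).mul_pow, ← hab, hhK]
      have h3 := h2 S M h0 s t hst [a * K, b * K] (by simp) (by
        intro x hx
        simp only [List.mem_cons, List.not_mem_nil, or_false] at hx
        rcases hx with rfl | rfl
        · exact mul_ne_zero ha hK'
        · exact mul_ne_zero hb hK') (by simp) (by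
        simp only [altP, mul_one]
        exact hpow)
      simp at h3
      omega

end Pool.HA
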