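import Pool.Agent.Work.MP_7084a3_h91.B.WF45

set_option autoImplicit false

/-! # Block DTOR (helper45) -/

namespace Pool.HA.H45

section
variable {F : Type} [Group F] {m : ℕ} {u j : F}

/-- conjugate in `closure {u, j}` -/
def Cj (u j x z : F) : Prop := ∃ y ∈ Subgroup.closure ({u, j} : Set F), x = y * z * y⁻¹

theorem Cj.trans {x y z : F} (h1 : Cj u j x y) (h2 : Cj u j y z) : Cj u j x z := by
  obtain ⟨a, ha, rfl⟩ := h1
  obtain ⟨b, hb, rfl⟩ := h2
  exact ⟨a * b, mul_mem ha hb, by group⟩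

theorem Cj.refl (x : F) : Cj u j x x := ⟨1, one_mem _, by simp⟩

/-- the good forms -/
def Gd (m : ℕ) (u j : F) (x : F) : Prop :=
  (∃ a : ℤ, Cj u j x (u ^ a)) ∨ Cj u j x j ∨
    ∃ e : List ℤ, e ≠ [] ∧ (∀ a ∈ e, ¬ (m : ℤ) ∣ a) ∧ Cj u j x (wordF u j e)

theorem Gd.of_cj {x y : F} (h : Cj u j x y) (hy : Gd m u j y) : Gd m u j x := by
  rcases hy with ⟨a, ha⟩ | hy | ⟨e, h1, h2, h3⟩
  · exact Or.inl ⟨a, h.trans ha⟩
  · exact Or.inr (Or.inl (h.trans hy))
  · exact Or.inr (Or.inr ⟨e, h1, h2, h.trans h3⟩)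

theorem mem_u : u ∈ Subgroup.closure ({u, j} : Set F) := Subgroup.subset_closure (by simp)

theorem mem_j : j ∈ Subgroup.closure ({u, j} : Set F) := Subgroup.subset_closure (by simp)

theorem mem_word (e : List ℤ) : wordF u j e ∈ Subgroup.closure ({u, j} : Set F) := by
  induction e with
  | nil => rw [wordF_nil]; exact one_mem _
  | cons a e ih =>
    rw [wordF_cons]
    exact mul_mem (mul_mem (zpow_mem mem_u _) mem_j) ih

theorem gd_word (h : UJ m u j) : ∀ (r : ℕ) (e : List ℤ), e.length = r → e ≠ [] →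
    Gd m u j (wordF u j e) := by
  intro r
  induction r using Nat.strong_induction_on with
  | _ r ih =>
    intro e hr he
    by_cases h1 : ∀ a ∈ e, ¬ (m : ℤ) ∣ a
    · exact Or.inr (Or.inr ⟨e, he, h1, Cj.refl _⟩)
    · push Not at h1
      obtain ⟨a, ha, hd⟩ := h1
      obtain ⟨x, y, rfl⟩ := List.append_of_mem ha
      have h2 : Cj u j (wordF u j (x ++ a :: y)) (wordF u j (a :: (y ++ x))) := by
        refine ⟨wordF u j x, mem_word x, ?_⟩
        rw [← List.cons_append, wordF_append, wordF_append]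
        group
      refine Gd.of_cj h2 ?_
      have hlen : (x ++ a :: y).length = (y ++ x).length + 1 := by
        simp; omega
      generalize y ++ x = g at *
      rw [wordF_cons, u_zpow h hd, one_mul]
      rcases g with _ | ⟨b, g⟩
      · rw [wordF_nil, mul_one]
        exact Or.inr (Or.inl (Cj.refl _))
      · by_cases hg0 : g = []
        · subst hg0
          refine Or.inl ⟨b, j, mem_j, ?_⟩
          rw [wordF_single, inv_eq_of_mul_eq_one_left h.jj]
          group
        · obtain ⟨f, c, hfc⟩ := list_ends (b := b) hg0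
          rw [hfc] at hlen ⊢
          obtain ⟨y', hy1, hy'⟩ := shorten (u := u) h.jj b c f
          refine Gd.of_cj ⟨y', hy1, hy'⟩ ?_
          exact ih ((c + b) :: f).length (by
            rw [← hr, hlen]; simp) _ rfl (by simp)

theorem exists_word (h : UJ m u j) {x : F} (hx : x ∈ Subgroup.closure ({u, j} : Set F)) :
    ∃ (e : List ℤ) (a : ℤ), x = wordF u j e * u ^ a := by
  have hji : j⁻¹ = j := inv_eq_of_mul_eq_one_left h.jj
  have step : ∀ x : F, (∃ (e : List ℤ) (a : ℤ), x = wordF u j e * u ^ a) →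
      ∃ (e : List ℤ) (a : ℤ), x * j = wordF u j e * u ^ a := by
    rintro x ⟨e, a, rfl⟩
    refine ⟨e ++ [a], 0, ?_⟩
    rw [wordF_append, wordF_single]
    group
  induction hx using Subgroup.closure_induction_right with
  | one => exact ⟨[], 0, by simp [wordF_nil]⟩
  | mul_right x hx y hy ih =>
    simp only [Set.mem_insert_iff, Set.mem_singleton_iff] at hy
    rcases hy with rfl | rfl
    · obtain ⟨e, a, rfl⟩ := ih
      exact ⟨e, a + 1, by rw [zpow_add, zpow_one]; group⟩
    · exact step x ih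
  | mul_inv_cancel x hx y hy ih =>
    simp only [Set.mem_insert_iff, Set.mem_singleton_iff] at hy
    rcases hy with rfl | rfl
    · obtain ⟨e, a, rfl⟩ := ih
      exact ⟨e, a - 1, by rw [zpow_sub, zpow_one]; group⟩
    · rw [hji]
      exact step x ih

theorem gd_mem (h : UJ m u j) {x : F} (hx : x ∈ Subgroup.closure ({u, j} : Set F)) :
    Gd m u j x := by
  obtain ⟨e, a, rfl⟩ := exists_word h hx
  have h1 : Cj u j (wordF u j e * u ^ a) (u ^ a * wordF u j e) := by
    refine ⟨u ^ (-a), zpow_mem mem_u _, ?_⟩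
    group
  refine Gd.of_cj h1 ?_
  rcases e with _ | ⟨b, e⟩
  · rw [wordF_nil, mul_one]
    exact Or.inl ⟨a, Cj.refl _⟩
  · have h2 : u ^ a * wordF u j (b :: e) = wordF u j ((a + b) :: e) := by
      rw [wordF_cons, wordF_cons, zpow_add]; group
    rw [h2]
    exact gd_word h _ _ rfl (by simp)

theorem wordF_pow (u j : F) (e : List ℤ) : ∀ K : ℕ,
    (wordF u j e) ^ K = wordF u j (List.replicate K e).flatten
  | 0 => by simp [wordF_nil]
  | K + 1 => by
    rw [pow_succ', wordF_pow u j e K, List.replicate_succ, List.flatten_cons, wordF_append]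

theorem _root_.Pool.HA.stmt_DTOR : Stmt_DTOR := by
  intro F _ m u j hm h x hx K hK hxK
  rcases gd_mem h hx with ⟨a, y, hy, hxy⟩ | ⟨y, hy, hxy⟩ | ⟨e, he, hnd, y, hy, hxy⟩
  · exact ⟨y, hy, Or.inl ⟨a, hxy⟩⟩
  · exact ⟨y, hy, Or.inr hxy⟩
  · exfalso
    rw [hxy, conj_pow] at hxK
    have h1 : (wordF u j e) ^ K = 1 := by
      have h2 := mul_one_comm45 hxK
      rwa [← mul_assoc, inv_mul_cancel, one_mul] at h2
    rw [wordF_pow] at h1
    refine h.nf _ ?_ ?_ h1
    · obtain ⟨K, rfl⟩ : ∃ k, K = k + 1 := ⟨K - 1, by omega⟩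
      rw [List.replicate_succ, List.flatten_cons]
      simp [he]
    · intro a ha
      rw [List.mem_flatten] at ha
      obtain ⟨l, hl, hal⟩ := ha
      rw [List.mem_replicate] at hl
      rw [hl.2] at hal
      exact hnd a hal

end

end Pool.HA.H45
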