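import Pool.Agent.Work.MP_7084a3_h91.B.WF45

set_option autoImplicit false

/-! # Block DW1 (helper45) -/

namespace Pool.HA.H45

theorem dw1_aux {F : Type} [Group F] {m : ℕ} {u j : F} (hm : 2 ≤ m) (h : UJ m u j) :
    ∀ (r : ℕ) (e : List ℤ), e.length = r → e ≠ [] → wordF u j e = 1 → 2 ≤ cd m e := by
  intro r
  induction r using Nat.strong_induction_on with
  | _ r ih =>
    intro e hr he hw
    have h1 : ∃ a ∈ e, (m : ℤ) ∣ a := by
      by_contra hc
      push Not at hc
      exact h.nf e he hc hw
    obtain ⟨a, ha, hd⟩ := h1
    obtain ⟨x, y, rfl⟩ := List.append_of_mem ha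
    have h2 : wordF u j (a :: (y ++ x)) = 1 := by
      have := wordF_rot (u := u) (j := j) (e := x) (f := a :: y) hw
      simpa using this
    have hcd : cd m (x ++ a :: y) = cd m (y ++ x) + 1 := by
      rw [cd_append, cd_cons, cd_append, if_pos hd]
      omega
    have hlen : (x ++ a :: y).length = (y ++ x).length + 1 := by
      simp; omega
    rw [hcd]
    generalize hg : y ++ x = g at *
    rw [wordF_cons, u_zpow h hd, one_mul] at h2
    rcases g with _ | ⟨b, g⟩
    · rw [wordF_nil, mul_one] at h2
      exact absurd h2 (j_ne_one hm h)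
    · by_cases hg0 : g = []
      · subst hg0
        have h3 : u ^ b = 1 := by
          rw [wordF_single] at h2
          have h4 : u ^ b * j * j = 1 := mul_one_comm45 h2
          rwa [mul_assoc, h.jj, mul_one] at h4
        have hb := dvd_of_u_zpow h h3
        rw [cd_cons, if_pos hb]
        omega
      · obtain ⟨f, c, hfc⟩ := list_ends (b := b) hg0
        rw [hfc] at h2 hlen ⊢
        obtain ⟨y', -, hy'⟩ := shorten (u := u) h.jj b c f
        rw [hy'] at h2
        have h3 : wordF u j ((c + b) :: f) = 1 := by
          have h4 := mul_one_comm45 h2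
          rw [← mul_assoc, inv_mul_cancel, one_mul] at h4
          exact h4
        have h5 := ih ((c + b) :: f).length (by
          rw [← hr, hlen]; simp) _ rfl (by simp) h3
        rw [cd_cons] at h5
        rw [cd_cons, cd_append]
        split_ifs at h5 <;> omega

theorem _root_.Pool.HA.stmt_DW1 : Stmt_DW1 := by
  intro F _ m u j hm h e he hw
  exact of_two_le_cd (dw1_aux hm h e.length e rfl he hw)

end Pool.HA.H45
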