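import Pool.Agent.Work.MP_7084a3_h91.B.WF45

set_option autoImplicit false

/-! # Block DW3 (helper45) -/

namespace Pool.HA.H45

theorem _root_.Pool.HA.stmt_DW3 (h1 : Stmt_DW1) : Stmt_DW3 := by
  intro F _ m u j hm h e b c a he hnd hw
  have key : ∀ e' : List ℤ, e' ≠ [] → wordF u j e' = 1 → 2 ≤ cd m e' :=
    fun e' he' hw' => two_le_cd (h1 F m u j hm h e' he' hw')
  have hcd : cd m e = 0 := cd_eq_zero hnd
  have hj2 : ∀ k : ℕ, j ^ (k + k) = 1 := fun k => by
    rw [← two_mul, pow_mul, pow_two, h.jj, one_pow]
  have hj1 : ∀ k : ℕ, j ^ (2 * k + 1) = j := fun k => by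
    rw [pow_succ, pow_mul, pow_two, h.jj, one_pow, one_mul]
  obtain ⟨f, x, rfl⟩ : ∃ f x, e = f ++ [x] :=
    ⟨e.dropLast, e.getLast he, by rw [List.dropLast_append_getLast he]⟩
  have hcf : cd m f = 0 := by rw [cd_append] at hcd; omega
  have hx : wordF u j (f ++ [x]) * j = wordF u j f * u ^ x := by
    rw [wordF_append, wordF_single]
    rw [mul_assoc, mul_assoc, h.jj, mul_one]
  have hx' : wordF u j (f ++ [x]) = wordF u j f * u ^ x * j := by
    rw [wordF_append, wordF_single, mul_assoc]
  rcases Nat.even_or_odd b with hb | hb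
  · rcases Nat.even_or_odd c with hc | hc
    · exfalso
      obtain ⟨k, rfl⟩ := hb
      obtain ⟨l, rfl⟩ := hc
      rw [hj2, hj2, one_mul, mul_one] at hw
      have h2 : wordF u j (f ++ [x]) * u ^ (-a) = 1 := by rw [hw, ← zpow_add]; simp
      have h3 := mul_one_comm45 h2
      have hne : f ++ [x] ≠ [] := by simp
      generalize hg : f ++ [x] = g at *
      rcases g with _ | ⟨y, g⟩
      · exact hne rfl
      · have h4 : wordF u j ((-a + y) :: g) = 1 := by
          rw [wordF_cons] at h3 ⊢
          rw [zpow_add, ← h3]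
          group
        have h5 := key _ (by simp) h4
        rw [cd_cons] at h5 hcd
        split_ifs at h5 <;> omega
    · obtain ⟨k, rfl⟩ := hb
      obtain ⟨l, rfl⟩ := hc
      rw [hj2, hj1, one_mul, hx] at hw
      have h2 : wordF u j f * u ^ (x - a) = 1 := by
        rw [sub_eq_add_neg, zpow_add, ← mul_assoc, hw, ← zpow_add]; simp
      rcases f with _ | ⟨g, f⟩
      · rw [wordF_nil, one_mul] at h2
        exact ⟨x, rfl, ⟨k, rfl⟩, ⟨l, rfl⟩, dvd_of_u_zpow h h2⟩
      · exfalso
        have h3 := mul_one_comm45 h2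
        have h4 : wordF u j ((x - a + g) :: f) = 1 := by
          rw [wordF_cons] at h3 ⊢
          rw [zpow_add, ← h3]
          group
        have h5 := key _ (by simp) h4
        rw [cd_cons] at h5 hcf
        split_ifs at h5 <;> omega
  · exfalso
    obtain ⟨k, rfl⟩ := hb
    rcases Nat.even_or_odd c with hc | hc
    · obtain ⟨l, rfl⟩ := hc
      rw [hj1, hj2, mul_one] at hw
      have h2 : j * wordF u j (f ++ [x]) * u ^ (-a) = 1 := by rw [hw, ← zpow_add]; simp
      have h3 : wordF u j ((f ++ [x]) ++ [-a]) = 1 := by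
        rw [wordF_append _ _ _ [-a], wordF_single]
        rw [mul_assoc] at h2
        have h4 := mul_one_comm45 h2
        rw [← h4]
        group
      have h5 := key _ (by simp) h3
      rw [cd_append, hcd, cd_cons] at h5
      simp only [cd, List.countP_nil] at h5
      split_ifs at h5 <;> omega
    · obtain ⟨l, rfl⟩ := hc
      rw [hj1, hj1, mul_assoc, hx] at hw
      have h2 : wordF u j (f ++ [x - a]) = 1 := by
        rw [wordF_append, wordF_single]
        have h3 : j * (wordF u j f * u ^ (x - a)) = 1 := by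
          rw [sub_eq_add_neg, zpow_add, ← mul_assoc (wordF u j f), ← mul_assoc, hw, ← zpow_add]
          simp
        have h4 := mul_one_comm45 h3
        rw [← h4]
        group
      have h5 := key _ (by simp) h2
      rw [cd_append, hcf, cd_cons] at h5
      simp only [cd, List.countP_nil] at h5
      split_ifs at h5 <;> omega

end Pool.HA.H45
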