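import Pool.Agent.Work.MP_7084a3_h91.InterfaceX
import Pool.Agent.Work.MP_7084a3_h91.InterfaceF
import Pool.Agent.Work.MP_7084a3_h91.Basic

set_option autoImplicit false

namespace Pool.HA

theorem act2_dlt {G S : Type} [Group G] {g : S → G} (h : G) (x y z : Vtx g) :
    act2 h (dlt x y z) = dlt (h • x) (h • y) (h • z) := by
  unfold dlt act2
  simp only [Vtx.smul_ty]
  split_ifs
  · simp [Finsupp.mapDomain_single]
  · exact map_zero _

theorem act2_TT {G S : Type} [Group G] {g : S → G} (h : G) (x y z : Vtx g) :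
    act2 h (TT x y z) = TT (h • x) (h • y) (h • z) := by
  unfold TT
  simp only [map_add, map_sub, act2_dlt]

theorem stmt_EQV (hF : Stmt_FMAP) : Stmt_EQV := by
  intro G S _ g h l D n hl
  exact hF (Vtx g) (Vtx g) (C2 g) (C2 g) Vtx.ad Vtx.ad TT TT (fun v => h • v) (act2 h)
    (fun u v huv => Vtx.ad_smul h huv) (fun u v c _ _ _ => act2_TT h u v c) l D n hl

end Pool.HA
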