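import Pool.Agent.Work.MP_7084a3_h91.InterfaceX
import Pool.Agent.Work.MP_7084a3_h91.Basic

set_option autoImplicit false

namespace Pool.HA

theorem stmt_EST0 : Stmt_EST0 := by
  intro S M hM ε hε n s hn hper h1 h2
  obtain ⟨e0, e1, e2⟩ := hε
  have hn3 : 3 ≤ n := by
    by_contra hc
    have : n = 1 ∨ n = 2 := by omega
    rcases this with rfl | rfl
    · exact h1 0 (hper 0).symm
    · exact h2 0 (hper 0).symm
  rcases hn3.eq_or_lt with h | h
  · subst h
    have h3 := e2 (s 0) (s 1) (s 2) (h1 0) (h1 1) (h2 0)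
    have h4 : s 3 = s 0 := hper 0
    rw [Finset.sum_range_succ, Finset.sum_range_succ, Finset.sum_range_succ, Finset.sum_range_zero]
    have h5 : M (s 2) (s (2 + 1)) = M (s 0) (s 2) := by
      change M (s 2) (s 3) = _
      rw [h4, M.symmetric]
    rw [h5]
    simp only [zero_add] at *
    have h6 : (1 : ℝ) / (M (s 1) (s (1 + 1)) : ℝ) = 1 / (M (s 1) (s 2) : ℝ) := rfl
    rw [h6]
    linarith
  · have key : ∀ i, 7 / 6 - 4 * ε ≤ (1 - 1 / (M (s i) (s (i + 1)) : ℝ) - 2 * ε) +
        (1 - 1 / (M (s (i + 1)) (s (i + 1 + 1)) : ℝ) - 2 * ε) := by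
      intro i
      have a1 : 2 ≤ M (s i) (s (i + 1)) := hM.two_le (h1 i)
      have a2 : 2 ≤ M (s (i + 1)) (s (i + 1 + 1)) := hM.two_le (h1 (i + 1))
      have a3 : 3 ≤ M (s i) (s (i + 1)) ∨ 3 ≤ M (s (i + 1)) (s (i + 1 + 1)) := by
        rcases a1.eq_or_lt with b | b
        · right
          refine hM.match (s := s (i + 1)) (t := s i) (h1 i).symm (h1 (i + 1)) (h2 i) ?_
          rw [M.symmetric]; exact b.symm
        · left; exact b
      have c2 : ∀ m : ℕ, 2 ≤ m → 1 / (m : ℝ) ≤ 1 / 2 := by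
        intro m hm
        have : (2 : ℝ) ≤ m := by exact_mod_cast hm
        exact one_div_le_one_div_of_le (by norm_num) this
      have c3 : ∀ m : ℕ, 3 ≤ m → 1 / (m : ℝ) ≤ 1 / 3 := by
        intro m hm
        have : (3 : ℝ) ≤ m := by exact_mod_cast hm
        exact one_div_le_one_div_of_le (by norm_num) this
      rcases a3 with a3 | a3
      · have := c3 _ a3
        have := c2 _ a2
        linarith
      · have := c3 _ a3
        have := c2 _ a1
        linarith
    have hs : ∑ i ∈ Finset.range n, (1 - 1 / (M (s (i + 1)) (s (i + 1 + 1)) : ℝ) - 2 * ε) =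
        ∑ i ∈ Finset.range n, (1 - 1 / (M (s i) (s (i + 1)) : ℝ) - 2 * ε) := by
      have b1 := Finset.sum_range_succ (fun i => (1 - 1 / (M (s i) (s (i + 1)) : ℝ) - 2 * ε)) n
      have b2 := Finset.sum_range_succ' (fun i => (1 - 1 / (M (s i) (s (i + 1)) : ℝ) - 2 * ε)) n
      have b3 : s n = s 0 := by simpa using hper 0
      have b4 : s (n + 1) = s (0 + 1) := by
        have := hper 1
        rw [add_comm n 1]; exact this
      rw [b1] at b2
      rw [b3, b4] at b2
      linarith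
    have h6 : (n : ℝ) * (7 / 6 - 4 * ε) ≤ ∑ i ∈ Finset.range n,
        ((1 - 1 / (M (s i) (s (i + 1)) : ℝ) - 2 * ε) +
        (1 - 1 / (M (s (i + 1)) (s (i + 1 + 1)) : ℝ) - 2 * ε)) := by
      have := Finset.card_nsmul_le_sum (Finset.range n) (fun i =>
        ((1 - 1 / (M (s i) (s (i + 1)) : ℝ) - 2 * ε) +
        (1 - 1 / (M (s (i + 1)) (s (i + 1 + 1)) : ℝ) - 2 * ε))) (7 / 6 - 4 * ε)
        (fun i _ => key i)
      rw [Finset.card_range, nsmul_eq_mul] at this
      exact this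
    rw [Finset.sum_add_distrib, hs] at h6
    have h7 : (4 : ℝ) ≤ n := by exact_mod_cast h
    have h8 : 1 ≤ 7 / 6 - 4 * ε := by linarith
    have h9 : (4 : ℝ) ≤ n * (7 / 6 - 4 * ε) := by nlinarith
    linarith

end Pool.HA
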