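import Pool.Agent.Work.MP_7084a3_h91.InterfaceX
import Pool.Agent.Work.MP_7084a3_h91.InterfaceF
import Pool.Agent.Work.MP_7084a3_h91.Basic

set_option autoImplicit false

namespace Pool.HA

theorem EXC_chain {V : Type} {adj : V → V → Prop} {l : List V} (h : CW adj l) :
    ∀ (l' x : List V), l = x ++ l' → l'.IsChain adj := by
  intro l'
  induction l' with
  | nil => intro x _; exact List.isChain_nil
  | cons a l' ih =>
    intro x hx
    cases l' with
    | nil => exact List.isChain_singleton a
    | cons b l'' =>
      rw [List.isChain_cons_cons]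
      refine ⟨?_, ih (x ++ [a]) (by simp [hx])⟩
      obtain ⟨r, hr, har⟩ := h x a (b :: l'') hx
      simp at hr
      rw [← hr] at har
      exact har

theorem stmt_EXC (hFINS : Stmt_FINS) (hFROT : Stmt_FROT) (hFTRI : Stmt_FTRI) : Stmt_EXC := by
  intro V A _ adj T hT c l hl hc
  have key : ∀ (rest : List V) (w : V), (w :: rest).IsChain adj → (∀ v ∈ w :: rest, adj c v) →
      ∃ D n, Fill adj T (c :: w :: rest) D n := by
    intro rest
    induction rest with
    | nil =>
      intro w _ hw
      refine ⟨0 + 0, 0 + 0, ?_⟩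
      exact Fill.pair (P₁ := []) (P₂ := []) (hw w (by simp)) (by simp) (by simp) Fill.nil Fill.nil
    | cons w1 rest ih =>
      intro w hch hw
      rw [List.isChain_cons_cons] at hch
      obtain ⟨D, n, hF⟩ := ih w1 hch.2 (fun v hv => hw v (List.mem_cons_of_mem _ hv))
      have hr : Fill adj T [w1, w] (0 + 0) (0 + 0) :=
        Fill.pair (P₁ := []) (P₂ := []) (hT.symm _ _ hch.1) (by simp) (by simp) Fill.nil Fill.nil
      have h1 := hFINS V A adj T [c] (w1 :: rest) [w1, w] D (0 + 0) n (0 + 0) (by simpa using hF) hr
        (by simp)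
      have h2 := hFTRI V A adj T hT [] (w1 :: rest) c w w1 _ _ (hw w (by simp)) (hw w1 (by simp))
        (hT.symm _ _ hch.1) (by simpa using h1)
      exact ⟨_, _, by simpa using h2⟩
  rcases List.eq_nil_or_concat l with h0 | ⟨l', z, h0⟩
  · subst h0
    exact ⟨0, 0, Fill.nil⟩
  · rw [List.concat_eq_append] at h0
    cases l' with
    | nil =>
      exfalso
      obtain ⟨r, hr, har⟩ := hl [] z [] (by simpa using h0)
      simp at hr
    | cons w l'' =>
      have hch : (w :: (l'' ++ [z])).IsChain adj := EXC_chain hl _ [] (by simpa using h0)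
      have hl2 : l = w :: (l'' ++ [z]) := by simpa using h0
      obtain ⟨D, n, hF⟩ := key (l'' ++ [z]) w hch (by rw [← hl2]; exact hc)
      have h1 := hFROT V A adj T hT (c :: w :: l'') [z] D n (by simpa using hF)
      have hzw : adj z w := by
        obtain ⟨r, hr, har⟩ := hl (w :: l'') z [] (by simpa using h0)
        simp at hr
        rw [← hr] at har
        exact har
      have hcz : adj c z := hc z (by rw [hl2]; simp)
      have hcw : adj c w := hc w (by rw [hl2]; simp)
      have h2 := hFTRI V A adj T hT [] l'' z w c _ _ hzw (hT.symm _ _ hcz) hcw (by simpa using h1)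
      have h3 := hFROT V A adj T hT [z] (w :: l'') _ _ (by simpa using h2)
      exact ⟨_, _, by simpa [hl2] using h3⟩

end Pool.HA
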