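import Pool.Agent.Work.MP_7084a3_h91.B.EXF1
import Pool.Agent.Work.MP_7084a3_h91.Basic

/-! Block EXF of MP_7084a3_al: every closed walk of the coset complex is fillable. -/

set_option autoImplicit false

namespace Pool.HA
namespace EXFc
open EXFb

variable {G S : Type} [Group G] {g : S → G}

/-- segment from `o x` to `v` -/
def cin (x : G) (v : Vtx g) : List (Vtx g) := if v.ty = 0 then [] else [o g x]

/-- segment from `v` to a type 0 vertex contained in it -/
def cout (v : Vtx g) : List (Vtx g) := if v.ty = 0 then [] else [v]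

theorem eq_o {v : Vtx g} {x : G} (hx : v.mem x) (h : v.ty = 0) : v = o g x :=
  Vtx.ext_mem (Vtx.J0 h) hx (Vtx.mk_mem _ _ _)

theorem ad_o {v : Vtx g} {x : G} (hx : v.mem x) (h : v.ty ≠ 0) : Vtx.ad (o g x) v := by
  refine Vtx.ad_of (x := x) (Vtx.mk_mem _ _ _) hx ?_
  change (∅ : Finset S) ⊂ v.J
  rw [Finset.empty_ssubset, Finset.nonempty_iff_ne_empty]
  intro h2
  apply h
  rw [Vtx.ty_eq, h2]
  rfl

theorem word_of_par {J : Finset S} {h : G} (hh : h ∈ par g J) :
    ∃ u : List (S × Bool), (∀ p ∈ u, p.1 ∈ J) ∧ vl g u = h := by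
  unfold par at hh
  induction hh using Subgroup.closure_induction with
  | mem x hx =>
    obtain ⟨s, hs, rfl⟩ := hx
    exact ⟨[(s, true)], by simpa using hs, by simp [vl, lt]⟩
  | one => exact ⟨[], by simp, vl_nil⟩
  | mul a b _ _ ha hb =>
    obtain ⟨u, hu, hu'⟩ := ha
    obtain ⟨w, hw, hw'⟩ := hb
    refine ⟨u ++ w, ?_, by rw [vl_append, hu', hw']⟩
    intro p hp
    rcases List.mem_append.mp hp with hp | hp
    · exact hu p hp
    · exact hw p hp
  | inv a _ ha =>
    obtain ⟨u, hu, hu'⟩ := ha
    refine ⟨FreeGroup.invRev u, ?_, by rw [vl_invRev, hu']⟩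
    intro p hp
    unfold FreeGroup.invRev at hp
    rw [List.mem_reverse, List.mem_map] at hp
    obtain ⟨q, hq, rfl⟩ := hp
    exact hu q hq

theorem word_seg (hFROT : Stmt_FROT) (hFTRI : Stmt_FTRI) (hFBR : Stmt_FBR) (hTTOK : Stmt_TTOK)
    (v : Vtx g) (hv : v.ty ≠ 0) (u : List (S × Bool)) (hu : ∀ p ∈ u, p.1 ∈ v.J) (x : G)
    (hx : v.mem x) (B : List (Vtx g)) (hB : ∀ h ∈ B.head?, h = o g (x * vl g u))
    (hB' : B = [] → vl g u = 1) (f : fl (A := C2 g) Vtx.ad TT (wwalk g x u ++ B)) :
    fl (A := C2 g) Vtx.ad TT (o g x :: v :: B) := by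
  have hT := hTTOK G S g
  induction u generalizing x B with
  | nil =>
    rw [ww_nil, List.nil_append] at f
    rw [vl_nil, mul_one] at hB
    have := fl_pair (T := TT (g := g)) (ad_o hx hv) (P₁ := []) (P₂ := B) (by simp) hB fl_nil f
    simpa using this
  | cons p u ih =>
    have hp : p.1 ∈ v.J := hu p (by simp)
    have hx' : v.mem (x * lt g p) := by
      rw [Vtx.mem_iff hx, inv_mul_cancel_left]
      exact lt_mem hp
    rw [ww_cons] at f
    have f1 : fl (A := C2 g) Vtx.ad TT (wwalk g (x * lt g p) u ++ (B ++ [o g x, e g p.1 x])) := by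
      have := fl_rot hFROT hT (x := [o g x, e g p.1 x]) (y := wwalk g (x * lt g p) u ++ B)
        (by simpa using f)
      simpa using this
    have f2 := ih (fun q hq => hu q (by simp [hq])) (x * lt g p) hx' (B ++ [o g x, e g p.1 x])
      (by
        intro h hh
        rw [mul_assoc, ← vl_cons]
        cases B with
        | nil =>
          rw [hB' rfl, mul_one]
          simpa using hh.symm
        | cons b B =>
          exact hB h (by simpa using hh)) (by simp) f1
    have f3 : fl (A := C2 g) Vtx.ad TT ([o g x, e g p.1 x] ++ (o g (x * lt g p) :: v :: B)) :=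
      fl_rot hFROT hT (x := o g (x * lt g p) :: v :: B) (by simpa using f2)
    by_cases hve : v = e g p.1 x
    · rw [hve] at f3 ⊢
      have h5 := fl_br hFBR hT (x := [o g x]) (a := e g p.1 x) (b := o g (x * lt g p)) (y := B)
        (by rw [← hve]; exact ad_symm (ad_o hx' hv)) (by simpa using f3)
      simpa using h5
    · have hev : Vtx.ad (e g p.1 x) v := by
        refine Vtx.ad_of (x := x) (Vtx.mk_mem _ _ _) hx ?_
        change ({p.1} : Finset S) ⊂ v.J
        rw [Finset.ssubset_iff_subset_ne]
        refine ⟨by simpa using hp, ?_⟩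
        intro h
        exact hve (Vtx.ext_mem (w := e g p.1 x) h.symm hx (Vtx.mk_mem _ _ _))
      have h5 := fl_tri hFTRI hT (x := [o g x]) (y := B) (u := e g p.1 x) (v := v)
        (c := o g (x * lt g p)) hev (by rw [← e_mul p x]; exact ad_symm (ad_oe _ _))
        (ad_o hx' hv) (by simpa using f3)
      have h6 := fl_tri hFTRI hT (x := []) (y := B) (u := o g x) (v := v)
        (c := e g p.1 x) (ad_o hx hv) (ad_oe _ _) hev (by simpa using h5)
      simpa using h6

theorem seg (hFROT : Stmt_FROT) (hFTRI : Stmt_FTRI) (hFBR : Stmt_FBR) (hTTOK : Stmt_TTOK)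
    (v : Vtx g) (x z : G) (hx : v.mem x) (hz : v.mem z) :
    ∃ u : List (S × Bool), x * vl g u = z ∧ ∀ B : List (Vtx g), (∀ h ∈ B.head?, h = o g z) →
      (B = [] → x = z) → fl (A := C2 g) Vtx.ad TT (wwalk g x u ++ B) →
      fl (A := C2 g) Vtx.ad TT (cin x v ++ (cout v ++ B)) := by
  by_cases hv : v.ty = 0
  · refine ⟨[], ?_, ?_⟩
    · rw [vl_nil, mul_one]; exact Vtx.mem0 hv hx hz
    · intro B _ _ f
      simpa [cin, cout, hv, ww_nil] using f
  · obtain ⟨u, hu, hu'⟩ := word_of_par ((Vtx.mem_iff hx z).mp hz)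
    have hxu : x * vl g u = z := by rw [hu']; group
    refine ⟨u, hxu, ?_⟩
    intro B hB hB' f
    have := word_seg hFROT hFTRI hFBR hTTOK v hv u hu x hx B (by rw [hxu]; exact hB)
      (by
        intro h
        have := hB' h
        rw [← hxu] at this
        simpa using this) f
    simpa [cin, cout, hv] using this

theorem edge_seg (hFTRI : Stmt_FTRI) (hTTOK : Stmt_TTOK) {v w : Vtx g} (hvw : v.ad w) {z : G}
    (hz : v.mem z) (hz' : w.mem z) (X R : List (Vtx g)) (hR : w.ty ≠ 0 → ∃ R', R = w :: R')
    (f : fl (A := C2 g) Vtx.ad TT (X ++ (cout v ++ (cin z w ++ R)))) :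
    fl (A := C2 g) Vtx.ad TT (X ++ v :: R) := by
  have hT := hTTOK G S g
  by_cases hv : v.ty = 0
  · have hw : w.ty ≠ 0 := by
      rw [← hv]; exact (Vtx.ad_ty_ne hvw).symm
    rw [eq_o hz hv]
    simpa [cin, cout, hv, hw] using f
  · by_cases hw : w.ty = 0
    · simpa [cin, cout, hv, hw] using f
    · obtain ⟨R', rfl⟩ := hR hw
      exact fl_tri hFTRI hT hvw (ad_symm (ad_o hz hv)) (ad_o hz' hw)
        (by simpa [cin, cout, hv, hw] using f)

theorem main (hFROT : Stmt_FROT) (hFTRI : Stmt_FTRI) (hFBR : Stmt_FBR) (hTTOK : Stmt_TTOK)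
    (l : List (Vtx g)) (v : Vtx g) (x y : G) (hx : v.mem x)
    (hy : ((v :: l).getLast (by simp)).mem y) (hch : (v :: l).IsChain Vtx.ad) :
    ∃ u : List (S × Bool), x * vl g u = y ∧ ∀ B : List (Vtx g), (∀ h ∈ B.head?, h = o g y) →
      (B = [] → x = y) → fl (A := C2 g) Vtx.ad TT (wwalk g x u ++ B) →
      fl (A := C2 g) Vtx.ad TT (cin x v ++ ((v :: l).dropLast ++
        (cout ((v :: l).getLast (by simp)) ++ B))) := by
  have hT := hTTOK G S g
  induction l generalizing v x with
  | nil =>
    obtain ⟨u, h1, h2⟩ := seg hFROT hFTRI hFBR hTTOK v x y hx (by simpa using hy)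
    exact ⟨u, h1, fun B hB hB' f => by simpa using h2 B hB hB' f⟩
  | cons w l ih =>
    rw [List.isChain_cons_cons] at hch
    obtain ⟨hvw, hch⟩ := hch
    obtain ⟨z, hz, hz'⟩ := hvw.1
    obtain ⟨u, h1, h2⟩ := seg hFROT hFTRI hFBR hTTOK v x z hx hz
    obtain ⟨u', h1', h2'⟩ := ih w z hz' (by simpa using hy) hch
    refine ⟨u ++ u', by rw [vl_append, ← mul_assoc, h1, h1'], ?_⟩
    intro B hB hB' f
    rw [ww_append, h1, List.append_assoc] at f
    have f1 := h2 (wwalk g z u' ++ B) (by
      intro h hh
      cases u' with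
      | nil =>
        rw [vl_nil, mul_one] at h1'
        rw [h1']
        exact hB h (by simpa [ww_nil] using hh)
      | cons p u' =>
        rw [ww_cons] at hh
        simpa using hh.symm) (by
      intro h
      rw [List.append_eq_nil_iff] at h
      cases u' with
      | nil =>
        rw [vl_nil, mul_one] at h1'
        rw [h1']
        exact hB' h.2
      | cons p u' =>
        rw [ww_cons] at h
        simp at h) f
    have f2 : fl (A := C2 g) Vtx.ad TT (wwalk g z u' ++ (B ++ (cin x v ++ cout v))) := by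
      have := fl_rot hFROT hT (x := cin x v ++ cout v) (y := wwalk g z u' ++ B)
        (by simpa using f1)
      simpa using this
    have f3 := h2' (B ++ (cin x v ++ cout v)) (by
      intro h hh
      cases B with
      | nil =>
        by_cases hv : v.ty = 0
        · simp [cin, cout, hv] at hh
        · simp [cin, cout, hv] at hh
          rw [← hh, hB' rfl]
      | cons b B => exact hB h (by simpa using hh)) (by
      intro h
      rw [List.append_eq_nil_iff, List.append_eq_nil_iff] at h
      have hxy := hB' h.1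
      have hv : v.ty = 0 := by
        by_contra hv
        simp [cout, hv] at h
      rw [← hxy]
      exact Vtx.mem0 hv hz hx) f2
    have f4 := fl_rot hFROT hT (x := cin z w ++ ((w :: l).dropLast ++
        (cout ((w :: l).getLast (by simp)) ++ B))) (y := cin x v ++ cout v)
        (by simpa using f3)
    have f5 := edge_seg hFTRI hTTOK hvw hz hz' (cin x v) ((w :: l).dropLast ++
        (cout ((w :: l).getLast (by simp)) ++ B)) (by
        intro hw
        cases l with
        | nil => exact ⟨B, by simp [cout, hw]⟩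
        | cons w' l => exact ⟨_, by rw [List.dropLast_cons_cons, List.cons_append]⟩)
      (by simpa using f4)
    simpa using f5

end EXFc

open EXFb EXFc in
theorem stmt_EXF (hEXF1 : Stmt_EXF1) (hFROT : Stmt_FROT) (hFTRI : Stmt_FTRI) (hFBR : Stmt_FBR)
    (hTTOK : Stmt_TTOK) : Stmt_EXF := by
  intro S M hM l hl
  have hT := hTTOK _ S (gen M)
  cases l with
  | nil => exact ⟨0, 0, Fill.nil⟩
  | cons v l =>
    have hch : (v :: l).IsChain Vtx.ad := by
      rw [List.isChain_iff_forall_rel_of_append_cons_cons]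
      intro a b l₁ l₂ h
      obtain ⟨r, hr, hab⟩ := hl l₁ a (b :: l₂) h
      have : b = r := by simpa using hr
      rw [this]; exact hab
    have hlast : Vtx.ad ((v :: l).getLast (by simp)) v := by
      obtain ⟨r, hr, h⟩ := hl (v :: l).dropLast ((v :: l).getLast (by simp)) []
        (List.dropLast_append_getLast (by simp)).symm
      cases l with
      | nil => simp at hr
      | cons w l =>
        have : v = r := by simpa using hr
        rw [this] at h ⊢
        exact h
    obtain ⟨z, hz, hz'⟩ := hlast.1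
    obtain ⟨u, h1, h2⟩ := main hFROT hFTRI hFBR hTTOK l v z z hz' hz hch
    have hu : vl (gen M) u = 1 := by simpa using h1
    have f := h2 [] (by simp) (fun _ => rfl) (by
      rw [List.append_nil]
      exact hEXF1 S M hM z u hu)
    have f2 := fl_rot hFROT hT (x := cin z v ++ (v :: l).dropLast)
      (y := cout ((v :: l).getLast (by simp))) (by simpa using f)
    have f3 := edge_seg hFTRI hTTOK hlast hz hz' [] (v :: l).dropLast (by
      intro _
      cases l with
      | nil => exact absurd hlast (Vtx.ad_irrefl _)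
      | cons w l => exact ⟨_, by rw [List.dropLast_cons_cons]⟩) (by simpa using f2)
    have f4 := fl_rot hFROT hT (x := [(v :: l).getLast (by simp)]) (y := (v :: l).dropLast)
      (by simpa using f3)
    rw [List.dropLast_append_getLast (by simp)] at f4
    exact f4

end Pool.HA
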