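import Pool.Agent.Work.MP_7084a3_h91.InterfaceF
import Pool.Agent.Work.MP_7084a3_h91.InterfaceX

set_option autoImplicit false

namespace Pool.HA
namespace EXFb

section abs
variable {V A : Type} [AddCommGroup A]

/-- fillable -/
def fl (adj : V → V → Prop) (T : V → V → V → A) (l : List V) : Prop := ∃ D n, Fill adj T l D n

variable {adj : V → V → Prop} {T : V → V → V → A}

theorem fl_nil : fl adj T [] := ⟨0, 0, Fill.nil⟩

theorem fl_rot (hR : Stmt_FROT) (hT : TriOK adj T) {x y : List V} (h : fl adj T (x ++ y)) :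
    fl adj T (y ++ x) := by
  obtain ⟨D, n, h⟩ := h
  exact ⟨D, n, hR V A adj T hT x y D n h⟩

theorem fl_tri (hR : Stmt_FTRI) (hT : TriOK adj T) {x y : List V} {u v c : V} (h1 : adj u v)
    (h2 : adj u c) (h3 : adj c v) (h : fl adj T (x ++ u :: c :: v :: y)) :
    fl adj T (x ++ u :: v :: y) := by
  obtain ⟨D, n, h⟩ := h
  exact ⟨_, _, hR V A adj T hT x y u v c D n h1 h2 h3 h⟩

theorem fl_br (hR : Stmt_FBR) (hT : TriOK adj T) {x y : List V} {a b : V} (h1 : adj a b)
    (h : fl adj T (x ++ a :: b :: a :: y)) : fl adj T (x ++ a :: y) := by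
  obtain ⟨D, n, h⟩ := h
  exact ⟨_, _, hR V A adj T hT x y a b D n h1 h⟩

theorem fl_pair {u v : V} {P₁ P₂ : List V} (h : adj u v) (h1 : ∀ x ∈ P₁.head?, x = v)
    (h2 : ∀ x ∈ P₂.head?, x = u) (f1 : fl adj T P₁) (f2 : fl adj T P₂) :
    fl adj T (u :: (P₁ ++ v :: P₂)) := by
  obtain ⟨D, n, f1⟩ := f1
  obtain ⟨D', n', f2⟩ := f2
  exact ⟨_, _, Fill.pair h h1 h2 f1 f2⟩

theorem fl_edge {u v : V} (h : adj u v) : fl adj T [u, v] := by
  have := fl_pair (T := T) (P₁ := []) (P₂ := []) h (by simp) (by simp) fl_nil fl_nil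
  simpa using this

/-- removal of a backtrack at the start, in a closed walk -/
theorem fl_drop2 (hR : Stmt_FBR) (hT : TriOK adj T) {a b : V} {C : List V} (h : adj a b)
    (hC : ∀ x ∈ C.head?, x = a) (f : fl adj T (a :: b :: C)) : fl adj T C := by
  cases C with
  | nil =>
    obtain ⟨D, n, f⟩ := f
    exact ⟨D, n, Fill.sph h f⟩
  | cons c C =>
    have hc : c = a := hC c (by simp)
    subst hc
    have := fl_br hR hT (x := []) (y := C) h (by simpa using f)
    simpa using this

end abs

section basic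
variable {G S : Type} [Group G] {g : S → G}

/-- letter -/
def lt (g : S → G) (p : S × Bool) : G := if p.2 then g p.1 else (g p.1)⁻¹

/-- value of a word -/
def vl (g : S → G) (L : List (S × Bool)) : G := (L.map (lt g)).prod

/-- type 0 vertex -/
def o (g : S → G) (x : G) : Vtx g := Vtx.mk g ∅ (by simp) x

/-- type 1 vertex -/
def e (g : S → G) (s : S) (x : G) : Vtx g := Vtx.mk g {s} (by simp) x

theorem vl_nil : vl g [] = 1 := by simp [vl]
theorem vl_cons (p : S × Bool) (L : List (S × Bool)) : vl g (p :: L) = lt g p * vl g L := by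
  simp [vl]
theorem vl_append (L L' : List (S × Bool)) : vl g (L ++ L') = vl g L * vl g L' := by
  simp [vl]

theorem lt_not (s : S) (b : Bool) : lt g (s, !b) = (lt g (s, b))⁻¹ := by
  cases b <;> simp [lt]

theorem ww_nil (x : G) : wwalk g x [] = [] := rfl

theorem ww_cons (x : G) (p : S × Bool) (L : List (S × Bool)) :
    wwalk g x (p :: L) = o g x :: e g p.1 x :: wwalk g (x * lt g p) L := by
  obtain ⟨s, b⟩ := p
  rfl

theorem ww_append (L L' : List (S × Bool)) (x : G) :
    wwalk g x (L ++ L') = wwalk g x L ++ wwalk g (x * vl g L) L' := by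
  induction L generalizing x with
  | nil => simp [ww_nil, vl_nil]
  | cons p L ih => simp only [List.cons_append, ww_cons, ih, vl_cons, mul_assoc]

theorem mk_eq {J : Finset S} (hJ : J.card ≤ 2) {x y : G} (h : x⁻¹ * y ∈ par g J) :
    Vtx.mk g J hJ x = Vtx.mk g J hJ y := by
  unfold Vtx.mk
  exact Sigma.ext rfl (heq_of_eq (QuotientGroup.eq.mpr h))

theorem mem_mk {J : Finset S} (hJ : J.card ≤ 2) {x y : G} :
    (Vtx.mk g J hJ x).mem y ↔ x⁻¹ * y ∈ par g J := by
  unfold Vtx.mem Vtx.mk
  rw [QuotientGroup.eq]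
  constructor
  · intro h
    have := (par g J).inv_mem h
    simpa using this
  · intro h
    have := (par g J).inv_mem h
    simpa using this

theorem g_mem {J : Finset S} {s : S} (h : s ∈ J) : g s ∈ par g J :=
  Subgroup.subset_closure ⟨s, by simpa using h, rfl⟩

theorem lt_mem {J : Finset S} {p : S × Bool} (h : p.1 ∈ J) : lt g p ∈ par g J := by
  unfold lt
  split
  · exact g_mem h
  · exact (par g J).inv_mem (g_mem h)

theorem vl_mem {J : Finset S} {L : List (S × Bool)} (h : ∀ p ∈ L, p.1 ∈ J) :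
    vl g L ∈ par g J := by
  induction L with
  | nil => rw [vl_nil]; exact (par g J).one_mem
  | cons p L ih =>
    rw [vl_cons]
    exact (par g J).mul_mem (lt_mem (h p (by simp))) (ih (fun q hq => h q (by simp [hq])))

theorem e_mul (p : S × Bool) (x : G) : e g p.1 (x * lt g p) = e g p.1 x := by
  refine (mk_eq _ ?_).symm
  have : x⁻¹ * (x * lt g p) = lt g p := by group
  rw [this]
  exact lt_mem (by simp)

theorem ad_oe (s : S) (x : G) : Vtx.ad (o g x) (e g s x) := by
  refine ⟨⟨x, ?_, ?_⟩, Or.inl ?_⟩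
  · unfold o; rw [mem_mk]; simp
  · unfold e; rw [mem_mk]; simp
  · change (∅ : Finset S) ⊂ {s}
    exact Finset.empty_ssubset_singleton

theorem ad_symm {v w : Vtx g} (h : Vtx.ad v w) : Vtx.ad w v := by
  obtain ⟨⟨x, h1, h2⟩, h3⟩ := h
  exact ⟨⟨x, h2, h1⟩, h3.symm⟩

theorem ww_head (x : G) (L : List (S × Bool)) : ∀ v ∈ (wwalk g x L).head?, v = o g x := by
  cases L with
  | nil => simp [ww_nil]
  | cons p L => simp [ww_cons]

/-- `wwalk` plus its end point is a chain -/
theorem ww_chain (L : List (S × Bool)) (x : G) :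
    (wwalk g x L ++ [o g (x * vl g L)]).IsChain Vtx.ad := by
  induction L generalizing x with
  | nil => simp [ww_nil]
  | cons p L ih =>
    have h := ih (x * lt g p)
    rw [ww_cons, vl_cons, ← mul_assoc]
    simp only [List.cons_append]
    refine List.IsChain.cons_cons (ad_oe _ _) ?_
    have hne : ∃ C, wwalk g (x * lt g p) L ++ [o g (x * lt g p * vl g L)] =
        o g (x * lt g p) :: C := by
      cases L with
      | nil => exact ⟨[], by simp [ww_nil, vl_nil]⟩
      | cons q L => exact ⟨_, by rw [ww_cons]; rfl⟩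
    obtain ⟨C, hC⟩ := hne
    rw [hC] at h ⊢
    refine List.IsChain.cons_cons ?_ h
    rw [← e_mul p x]
    exact ad_symm (ad_oe _ _)

theorem cw_of_chain {V : Type} {adj : V → V → Prop} {l : List V} {a : V}
    (h1 : ∀ x ∈ l.head?, x = a) (h2 : l.length ≠ 1) (h : (l ++ [a]).IsChain adj) : CW adj l := by
  intro x q y hl
  subst hl
  cases y with
  | cons r y =>
    refine ⟨r, by simp, ?_⟩
    have h' : (x ++ ([q, r] ++ (y ++ [a]))).IsChain adj := by simpa using h
    have h'' := (List.isChain_append.mp h').2.1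
    simpa using (List.isChain_append.mp h'').1
  | nil =>
    cases x with
    | nil => simp at h2
    | cons b x =>
      have hb : b = a := h1 b (by simp)
      refine ⟨b, by simp, ?_⟩
      have h' : ((b :: x) ++ [q, a]).IsChain adj := by simpa using h
      have h'' := (List.isChain_append.mp h').2.1
      rw [hb]
      simpa using h''

theorem ww_len (x : G) (L : List (S × Bool)) : (wwalk g x L).length = 2 * L.length := by
  induction L generalizing x with
  | nil => rfl
  | cons p L ih => rw [ww_cons]; simp [ih]; ring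

theorem ww_cw (x : G) (L : List (S × Bool)) (h : vl g L = 1) : CW Vtx.ad (wwalk g x L) := by
  have h1 := ww_chain (g := g) L x
  rw [h, mul_one] at h1
  refine cw_of_chain (ww_head x L) ?_ h1
  rw [ww_len]
  omega

/-- all vertices of a walk in the letters of `J = {s, t}` are adjacent to the type 2 vertex -/
theorem ww_ad2 [DecidableEq S] {s t : S} (hst : s ≠ t) (y : G) (L : List (S × Bool))
    (hL : ∀ p ∈ L, p.1 ∈ ({s, t} : Finset S)) (x : G) (hx : y⁻¹ * x ∈ par g {s, t}) :
    ∀ v ∈ wwalk g x L, Vtx.ad (Vtx.mk g {s, t} (by rw [Finset.card_pair hst]) y) v := by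
  induction L generalizing x with
  | nil => simp [ww_nil]
  | cons p L ih =>
    intro v hv
    rw [ww_cons] at hv
    simp only [List.mem_cons] at hv
    rcases hv with rfl | rfl | hv
    · refine ⟨⟨x, ?_, ?_⟩, Or.inr ?_⟩
      · rw [mem_mk]; exact hx
      · unfold o; rw [mem_mk]; simp
      · change (∅ : Finset S) ⊂ {s, t}
        rw [Finset.empty_ssubset]
        exact ⟨s, by simp⟩
    · refine ⟨⟨x, ?_, ?_⟩, Or.inr ?_⟩
      · rw [mem_mk]; exact hx
      · unfold e; rw [mem_mk]; simp
      · change ({p.1} : Finset S) ⊂ {s, t}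
        have hp := hL p (by simp)
        rw [Finset.ssubset_iff_subset_ne]
        refine ⟨by simpa using hp, ?_⟩
        intro h
        have h2 := congrArg Finset.card h
        rw [Finset.card_pair hst] at h2
        simp at h2
    · refine ih (fun q hq => hL q (by simp [hq])) (x * lt g p) ?_ v hv
      rw [← mul_assoc]
      exact (par g _).mul_mem hx (lt_mem (hL p (by simp)))

/-- reversal of a word walk -/
theorem ww_rev (L : List (S × Bool)) (x : G) :
    (wwalk g x L ++ [o g (x * vl g L)]).reverse =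
      wwalk g (x * vl g L) (FreeGroup.invRev L) ++ [o g x] := by
  induction L generalizing x with
  | nil => simp [ww_nil, vl_nil, FreeGroup.invRev]
  | cons p L ih =>
    have h := ih (x * lt g p)
    have hi : FreeGroup.invRev (p :: L) = FreeGroup.invRev L ++ [(p.1, !p.2)] := by
      simp [FreeGroup.invRev]
    have hv : vl g (FreeGroup.invRev L) = (vl g L)⁻¹ := by
      clear h ih hi
      induction L with
      | nil => simp [FreeGroup.invRev, vl_nil]
      | cons q L ih =>
        have hi : FreeGroup.invRev (q :: L) = FreeGroup.invRev L ++ [(q.1, !q.2)] := by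
          simp [FreeGroup.invRev]
        rw [hi, vl_append, ih, vl_cons, vl_cons, vl_nil, lt_not]
        simp
    rw [hi, ww_append, hv, vl_cons, ← mul_assoc, ww_cons]
    have h2 : x * lt g p * vl g L * (vl g L)⁻¹ = x * lt g p := by group
    rw [h2, ww_cons, ww_nil]
    have h3 : e g (p.1, !p.2).1 (x * lt g p) = e g p.1 x := e_mul p x
    rw [h3]
    have h4 : (o g x :: e g p.1 x :: wwalk g (x * lt g p) L ++
        [o g (x * lt g p * vl g L)]).reverse =
        (wwalk g (x * lt g p) L ++ [o g (x * lt g p * vl g L)]).reverse ++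
          [e g p.1 x, o g x] := by simp
    rw [h4, h]
    simp

theorem vl_invRev (L : List (S × Bool)) : vl g (FreeGroup.invRev L) = (vl g L)⁻¹ := by
  induction L with
  | nil => simp [FreeGroup.invRev, vl_nil]
  | cons q L ih =>
    have hi : FreeGroup.invRev (q :: L) = FreeGroup.invRev L ++ [(q.1, !q.2)] := by
      simp [FreeGroup.invRev]
    rw [hi, vl_append, ih, vl_cons, vl_cons, vl_nil, lt_not]
    simp

theorem rv_ww (L : List (S × Bool)) (x : G) (h : vl g L = 1) :
    rv (wwalk g x L) = wwalk g x (FreeGroup.invRev L) := by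
  cases L with
  | nil => simp [FreeGroup.invRev, ww_nil, rv]
  | cons p L =>
    have h1 := ww_rev (g := g) (p :: L) x
    rw [h, mul_one, ww_cons] at h1
    rw [ww_cons]
    have h2 : (o g x :: e g p.1 x :: wwalk g (x * lt g p) L ++ [o g x]).reverse =
        (o g x :: (e g p.1 x :: wwalk g (x * lt g p) L).reverse) ++ [o g x] := by simp
    rw [h2] at h1
    exact List.append_cancel_right h1

/-- word walks of closed words are fillable at all base points -/
def NN (g : S → G) (L : List (S × Bool)) : Prop :=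
  ∀ x : G, fl (A := C2 g) Vtx.ad TT (wwalk g x L)

theorem vl_step (L₁ L₂ : List (S × Bool)) (s : S) (b : Bool) :
    vl g (L₁ ++ (s, b) :: (s, !b) :: L₂) = vl g (L₁ ++ L₂) := by
  rw [vl_append, vl_append, vl_cons, vl_cons, lt_not]
  simp

theorem NN_step (hFROT : Stmt_FROT) (hFBR : Stmt_FBR) (hTTOK : Stmt_TTOK)
    (L₁ L₂ : List (S × Bool)) (s : S) (b : Bool) (hv : vl g (L₁ ++ L₂) = 1) :
    NN g (L₁ ++ (s, b) :: (s, !b) :: L₂) ↔ NN g (L₁ ++ L₂) := by
  have hT := hTTOK G S g
  have key : ∀ x : G, fl (A := C2 g) Vtx.ad TT (wwalk g x (L₁ ++ (s, b) :: (s, !b) :: L₂)) ↔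
      fl (A := C2 g) Vtx.ad TT (wwalk g x (L₁ ++ L₂)) := by
    intro x
    have h1 : wwalk g x (L₁ ++ (s, b) :: (s, !b) :: L₂) = wwalk g x L₁ ++
        (o g (x * vl g L₁) :: e g s (x * vl g L₁) :: o g (x * vl g L₁ * lt g (s, b)) ::
          e g s (x * vl g L₁) :: wwalk g (x * vl g L₁) L₂) := by
      rw [ww_append, ww_cons, ww_cons]
      have h2 : x * vl g L₁ * lt g (s, b) * lt g (s, !b) = x * vl g L₁ := by
        rw [lt_not]; group
      rw [h2]
      have h3 : e g (s, !b).1 (x * vl g L₁ * lt g (s, b)) = e g s (x * vl g L₁) :=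
        e_mul (s, b) _
      rw [h3]
    have hC : ∀ v ∈ (wwalk g (x * vl g L₁) L₂ ++ wwalk g x L₁).head?, v = o g (x * vl g L₁) := by
      have : x = x * vl g L₁ * vl g L₂ := by
        rw [mul_assoc, ← vl_append, hv, mul_one]
      have h4 : wwalk g (x * vl g L₁) L₂ ++ wwalk g x L₁ =
          wwalk g (x * vl g L₁) (L₂ ++ L₁) := by
        rw [ww_append, ← this]
      rw [h4]
      exact ww_head _ _
    rw [h1, ww_append]
    have a1 : Vtx.ad (o g (x * vl g L₁)) (e g s (x * vl g L₁)) := ad_oe _ _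
    have a2 : Vtx.ad (o g (x * vl g L₁ * lt g (s, b))) (e g s (x * vl g L₁)) := by
      rw [← e_mul (s, b) (x * vl g L₁)]; exact ad_oe _ _
    constructor
    · intro f
      have f := fl_rot hFROT hT f
      have f2 := fl_br hFBR hT (x := [o g (x * vl g L₁)]) (a := e g s (x * vl g L₁))
        (b := o g (x * vl g L₁ * lt g (s, b))) (y := wwalk g (x * vl g L₁) L₂ ++ wwalk g x L₁)
        (ad_symm a2) (by simpa using f)
      have f3 := fl_drop2 hFBR hT a1 hC (by simpa using f2)
      exact fl_rot hFROT hT f3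
    · intro f
      have f := fl_rot hFROT hT f
      have f2 := fl_pair (T := TT (g := g)) a1 (P₁ := [e g s (x * vl g L₁),
        o g (x * vl g L₁ * lt g (s, b))]) (by simp) hC (fl_edge (ad_symm a2)) f
      have f3 := fl_rot (x := o g (x * vl g L₁) :: e g s (x * vl g L₁) ::
        o g (x * vl g L₁ * lt g (s, b)) :: e g s (x * vl g L₁) :: wwalk g (x * vl g L₁) L₂)
        (y := wwalk g x L₁) hFROT hT (by simpa using f2)
      exact f3
  exact forall_congr' key

theorem NN_red (hFROT : Stmt_FROT) (hFBR : Stmt_FBR) (hTTOK : Stmt_TTOK)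
    {L L' : List (S × Bool)} (h : FreeGroup.Red L L') (hv : vl g L = 1) :
    vl g L' = 1 ∧ (NN g L ↔ NN g L') := by
  induction h with
  | refl => exact ⟨hv, Iff.rfl⟩
  | tail _ hs ih =>
    obtain ⟨h1, h2⟩ := ih
    cases hs with
    | not =>
      rw [vl_step] at h1
      exact ⟨h1, h2.trans (NN_step hFROT hFBR hTTOK _ _ _ _ h1)⟩

theorem vl_red {L L' : List (S × Bool)} (h : FreeGroup.Red L L') : vl g L' = vl g L := by
  induction h with
  | refl => rfl
  | tail _ hs ih =>
    cases hs with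
    | not => rw [vl_step] at ih; exact ih

theorem NN_mk (hFROT : Stmt_FROT) (hFBR : Stmt_FBR) (hTTOK : Stmt_TTOK)
    {L L' : List (S × Bool)} (h : FreeGroup.mk L = FreeGroup.mk L') (hv : vl g L = 1)
    (hN : NN g L) : NN g L' := by
  obtain ⟨c, h1, h2⟩ := FreeGroup.Red.exact.mp h
  have hv' : vl g L' = 1 := by rw [← vl_red h2, vl_red h1, hv]
  exact (NN_red hFROT hFBR hTTOK h2 hv').2.mpr ((NN_red hFROT hFBR hTTOK h1 hv).2.mp hN)

/-- the property of free group elements -/
def PP (g : S → G) (w : FreeGroup S) : Prop :=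
  ∃ L, FreeGroup.mk L = w ∧ vl g L = 1 ∧ NN g L

theorem PP_one : PP g 1 := ⟨[], rfl, vl_nil, fun x => by rw [ww_nil]; exact fl_nil⟩

theorem PP_mul (hFCAT : Stmt_FCAT) {a b : FreeGroup S} (ha : PP g a) (hb : PP g b) :
    PP g (a * b) := by
  obtain ⟨L, rfl, v, hL⟩ := ha
  obtain ⟨L', rfl, v', hL'⟩ := hb
  refine ⟨L ++ L', by rw [FreeGroup.mul_mk], by rw [vl_append, v, v', one_mul], ?_⟩
  intro x
  rw [ww_append, v, mul_one]
  obtain ⟨D, n, f⟩ := hL x
  obtain ⟨D', n', f'⟩ := hL' x
  refine ⟨D + D', n + n', hFCAT _ _ _ _ _ _ _ _ _ _ f f' ?_⟩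
  intro z hz z' hz'
  rw [ww_head x L z hz, ww_head x L' z' hz']

theorem PP_inv (hFREV : Stmt_FREV) (hTTOK : Stmt_TTOK) {a : FreeGroup S} (ha : PP g a) :
    PP g a⁻¹ := by
  obtain ⟨L, rfl, v, hL⟩ := ha
  refine ⟨FreeGroup.invRev L, by rw [FreeGroup.inv_mk], by rw [vl_invRev, v, inv_one], ?_⟩
  intro x
  obtain ⟨D, n, f⟩ := hL x
  have := hFREV _ _ _ _ (hTTOK G S g) _ _ _ f
  rw [rv_ww L x v] at this
  exact ⟨_, _, this⟩

theorem PP_conj (hFINS : Stmt_FINS) (hFROT : Stmt_FROT) (hFBR : Stmt_FBR) (hTTOK : Stmt_TTOK)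
    {a : FreeGroup S} (ha : PP g a) (u : FreeGroup S) : PP g (u * a * u⁻¹) := by
  obtain ⟨L, rfl, v, hL⟩ := ha
  obtain ⟨U, rfl⟩ : ∃ U, FreeGroup.mk U = u := Quot.exists_rep u
  by_cases hU : U = []
  · subst hU
    refine ⟨L, ?_, v, hL⟩
    change FreeGroup.mk L = 1 * FreeGroup.mk L * 1⁻¹
    simp
  refine ⟨U ++ (L ++ FreeGroup.invRev U), ?_, ?_, ?_⟩
  · rw [FreeGroup.inv_mk, FreeGroup.mul_mk, FreeGroup.mul_mk, List.append_assoc]
  · rw [vl_append, vl_append, v, vl_invRev]; simp
  · intro x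
    have hN : NN g (U ++ FreeGroup.invRev U) := by
      refine NN_mk hFROT hFBR hTTOK (L := []) ?_ vl_nil ?_
      · rw [← FreeGroup.mul_mk, ← FreeGroup.inv_mk, mul_inv_cancel]; rfl
      · intro x; rw [ww_nil]; exact fl_nil
    obtain ⟨D, n, f⟩ := hN x
    rw [ww_append] at f
    obtain ⟨D', n', f'⟩ := hL (x * vl g U)
    rw [ww_append, ww_append, v, mul_one]
    refine ⟨_, _, hFINS _ _ _ _ _ _ _ _ _ _ _ f f' ?_⟩
    intro z hz
    rw [ww_head _ _ z hz]
    have h2 : ∃ q W, FreeGroup.invRev U = q :: W := by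
      rcases h : FreeGroup.invRev U with _ | ⟨q, W⟩
      · exfalso
        have := congrArg List.length h
        rw [FreeGroup.invRev_length] at this
        exact hU (List.length_eq_zero_iff.mp this)
      · exact ⟨q, W, rfl⟩
    obtain ⟨q, W, h2⟩ := h2
    rw [h2, ww_cons]
    simp

end basic

/-- the alternating word -/
def aw {S : Type} (s t : S) : ℕ → List (S × Bool)
  | 0 => []
  | m + 1 => (s, true) :: aw t s m

theorem mk_aw {S : Type} (m : ℕ) (s t : S) : FreeGroup.mk (aw s t m) = alt s t m := by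
  induction m generalizing s t with
  | zero => rfl
  | succ m ih =>
    rw [alt, ← ih t s]
    change FreeGroup.mk ([(s, true)] ++ aw t s m) = FreeGroup.mk [(s, true)] * _
    rw [FreeGroup.mul_mk]

theorem aw_mem {S : Type} [DecidableEq S] (m : ℕ) (s t : S) :
    ∀ p ∈ aw s t m, p.1 ∈ ({s, t} : Finset S) := by
  induction m generalizing s t with
  | zero => intro p hp; simp [aw] at hp
  | succ m ih =>
    intro p hp
    simp only [aw, List.mem_cons] at hp
    rcases hp with rfl | hp
    · simp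
    · have := ih t s p hp
      simp only [Finset.mem_insert, Finset.mem_singleton] at this ⊢
      tauto

theorem vl_mk {S : Type} (M : CoxeterMatrix S) (L : List (S × Bool)) :
    vl (gen M) L = PresentedGroup.mk (braidRels M) (FreeGroup.mk L) := by
  induction L with
  | nil => rw [vl_nil]; exact (map_one (PresentedGroup.mk (braidRels M))).symm
  | cons p L ih =>
    have h : FreeGroup.mk (p :: L) = FreeGroup.mk [p] * FreeGroup.mk L := by
      rw [FreeGroup.mul_mk]; rfl
    rw [h, map_mul, ← ih, vl_cons]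
    congr 1
    obtain ⟨s, b⟩ := p
    cases b with
    | true => rfl
    | false =>
      have h2 : (FreeGroup.mk [(s, false)] : FreeGroup S) = (FreeGroup.of s)⁻¹ := by
        change _ = (FreeGroup.mk [(s, true)])⁻¹
        rw [FreeGroup.inv_mk]; rfl
      rw [h2, map_inv]
      rfl

theorem PP_rel (hEXC : Stmt_EXC) (hTTOK : Stmt_TTOK) {S : Type} (M : CoxeterMatrix S)
    (r : FreeGroup S) (hr : r ∈ braidRels M) : PP (gen M) r := by
  classical
  obtain ⟨s, t, hst, hst', rfl⟩ := hr
  have hmk : FreeGroup.mk (aw s t (M s t) ++ FreeGroup.invRev (aw t s (M s t))) =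
      alt s t (M s t) * (alt t s (M s t))⁻¹ := by
    rw [← FreeGroup.mul_mk, ← FreeGroup.inv_mk, mk_aw, mk_aw]
  have hv : vl (gen M) (aw s t (M s t) ++ FreeGroup.invRev (aw t s (M s t))) = 1 := by
    rw [vl_mk, hmk]
    exact PresentedGroup.one_of_mem ⟨s, t, hst, hst', rfl⟩
  refine ⟨aw s t (M s t) ++ FreeGroup.invRev (aw t s (M s t)), hmk, hv, ?_⟩
  intro x
  have hmem : ∀ p ∈ aw s t (M s t) ++ FreeGroup.invRev (aw t s (M s t)),
      p.1 ∈ ({s, t} : Finset S) := by
    intro p hp
    rw [List.mem_append] at hp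
    rcases hp with hp | hp
    · exact aw_mem _ _ _ p hp
    · unfold FreeGroup.invRev at hp
      rw [List.mem_reverse, List.mem_map] at hp
      obtain ⟨q, hq, rfl⟩ := hp
      have := aw_mem _ _ _ q hq
      simp only [Finset.mem_insert, Finset.mem_singleton] at this ⊢
      tauto
  obtain ⟨D, n, f⟩ := hEXC (Vtx (gen M)) (C2 (gen M)) Vtx.ad TT (hTTOK _ S (gen M))
    (Vtx.mk (gen M) {s, t} (by rw [Finset.card_pair hst]) x) _ (ww_cw x _ hv)
    (ww_ad2 hst x _ hmem x (by simp))
  · exact ⟨D, n, f⟩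

end EXFb

open EXFb in
theorem stmt_EXF1 : Stmt_EXC → Stmt_FINS → Stmt_FROT → Stmt_FTRI → Stmt_FBR → Stmt_FREV →
    Stmt_FCAT → Stmt_EQV → Stmt_TTOK → Stmt_EXF1 := by
  intro hEXC hFINS hFROT _ hFBR hFREV hFCAT _ hTTOK S M _ x L hL
  have hv : vl (gen M) L = 1 := hL
  have hker : FreeGroup.mk L ∈ Subgroup.normalClosure (braidRels M) := by
    rw [vl_mk, PresentedGroup.mk_eq_one_iff] at hv
    exact hv
  have hPP : ∀ w ∈ Subgroup.normalClosure (braidRels M), PP (gen M) w := by
    intro w hw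
    unfold Subgroup.normalClosure at hw
    induction hw using Subgroup.closure_induction with
    | mem x hx =>
      rw [Group.mem_conjugatesOfSet_iff] at hx
      obtain ⟨r, hr, hc⟩ := hx
      obtain ⟨c, hc⟩ := isConj_iff.mp hc
      rw [← hc]
      exact PP_conj hFINS hFROT hFBR hTTOK (PP_rel hEXC hTTOK M r hr) c
    | one => exact PP_one
    | mul a b _ _ ha hb => exact PP_mul hFCAT ha hb
    | inv a _ ha => exact PP_inv hFREV hTTOK ha
  obtain ⟨L', h1, h2, h3⟩ := hPP _ hker
  exact NN_mk hFROT hFBR hTTOK h1 h2 h3 x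

end Pool.HA
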