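import Pool.Agent.Work.MP_7084a3_h91.Basic
import Pool.Agent.Work.MP_7084a3_h91.InterfaceX
import Pool.Agent.Work.MP_7084a3_h91.InterfaceD

set_option autoImplicit false

/-! # F6 (helper48): roots in the centraliser of a reflection -/

namespace Pool.HA

section pwl
variable {G S : Type} [Group G] {g : S → G}

/-- the vertices of the periodic walk -/
def f6U (x : G) (l : List (Vtx g)) (p : Vtx g) (i : ℕ) : Vtx g :=
  x ^ (i / (l.length - 1)) • (l.getD (i % (l.length - 1)) p)

theorem f6_step (x : G) (l : List (Vtx g)) (p : Vtx g) (hl : 2 ≤ l.length) (i : ℕ) :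
    f6U x l p (i + (l.length - 1)) = x • f6U x l p i := by
  unfold f6U
  have h0 : 0 < l.length - 1 := by omega
  rw [Nat.add_div_right _ h0, Nat.add_mod_right, pow_succ', mul_smul]

theorem f6_len (x : G) (l : List (Vtx g)) (hl : 2 ≤ l.length) (N : ℕ) :
    (pw x l N).length = N * (l.length - 1) + 1 := by
  induction N with
  | zero =>
    simp only [pw, List.length_take]
    omega
  | succ N ih =>
    simp only [pw, List.length_append, List.length_dropLast, List.length_map, ih]
    ring

theorem f6_get (x : G) (l : List (Vtx g)) (p : Vtx g) (hl : 2 ≤ l.length) :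
    ∀ (N i : ℕ), i ≤ N * (l.length - 1) → (pw x l N)[i]? = some (f6U x l p i) := by
  have h0 : 0 < l.length - 1 := by omega
  intro N
  induction N with
  | zero =>
    intro i hi
    have hi0 : i = 0 := by omega
    subst hi0
    have hl0 : 0 < l.length := by omega
    simp only [pw, f6U, Nat.zero_div, pow_zero, one_smul, Nat.zero_mod]
    rw [List.getElem?_take_of_lt (by omega), List.getD_eq_getElem?_getD,
      List.getElem?_eq_getElem hl0]
    rfl
  | succ N ih =>
    intro i hi
    simp only [pw]
    by_cases h1 : i < l.length - 1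
    · rw [List.getElem?_append_left (by simpa using h1), List.getElem?_dropLast, if_pos h1]
      unfold f6U
      rw [Nat.div_eq_of_lt h1, Nat.mod_eq_of_lt h1, pow_zero, one_smul, List.getD_eq_getElem?_getD,
        List.getElem?_eq_getElem (by omega)]
      rfl
    · obtain ⟨j, rfl⟩ : ∃ j, i = j + (l.length - 1) := ⟨i - (l.length - 1), by omega⟩
      rw [List.getElem?_append_right (by simp), List.length_dropLast, Nat.add_sub_cancel,
        List.getElem?_map, ih j (by rw [Nat.succ_mul] at hi; omega), f6_step x l p hl]
      rfl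

theorem f6_last {x : G} {l : List (Vtx g)} {p : Vtx g} (hw : Wk l p (x • p)) (hl : 2 ≤ l.length) :
    l[l.length - 1]? = some (x • p) := by
  rw [← List.getLast?_eq_getElem?]
  exact hw.2.1

theorem f6_0 {x : G} {l : List (Vtx g)} {p : Vtx g} (hw : Wk l p (x • p)) (hl : 2 ≤ l.length) :
    f6U x l p 0 = p := by
  have := hw.1
  rw [List.head?_eq_getElem?] at this
  unfold f6U
  rw [Nat.zero_div, Nat.zero_mod, pow_zero, one_smul, List.getD_eq_getElem?_getD, this]
  rfl

/-- consecutive vertices are adjacent -/
theorem f6_ad {x : G} {l : List (Vtx g)} {p : Vtx g} (hw : Wk l p (x • p)) (hl : 2 ≤ l.length) :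
    ∀ i, (f6U x l p i).ad (f6U x l p (i + 1)) := by
  have h0 : 0 < l.length - 1 := by omega
  have hc := hw.2.2
  rw [List.isChain_iff_getElem] at hc
  have key : ∀ i, i < l.length - 1 → (f6U x l p i).ad (f6U x l p (i + 1)) := by
    intro i hi
    have h1 := hc i (by omega)
    have e1 : f6U x l p i = l[i] := by
      unfold f6U
      rw [Nat.div_eq_of_lt hi, Nat.mod_eq_of_lt hi, pow_zero, one_smul, List.getD_eq_getElem?_getD,
        List.getElem?_eq_getElem (by omega)]
      rfl
    have e2 : f6U x l p (i + 1) = l[i + 1] := by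
      by_cases h2 : i + 1 < l.length - 1
      · unfold f6U
        rw [Nat.div_eq_of_lt h2, Nat.mod_eq_of_lt h2, pow_zero, one_smul,
          List.getD_eq_getElem?_getD, List.getElem?_eq_getElem (by omega)]
        rfl
      · have h3 : i + 1 = 0 + (l.length - 1) := by omega
        have h3' : f6U x l p (i + 1) = x • p := by
          have := f6_step x l p hl 0
          rw [f6_0 hw hl, ← h3] at this
          exact this
        have h4 := f6_last hw hl
        have h6 : l.length - 1 = i + 1 := by omega
        rw [h6, List.getElem?_eq_getElem (by omega)] at h4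
        rw [h3']
        exact (by simpa using h4.symm)
    rw [e1, e2]
    exact h1
  intro i
  induction i using Nat.strong_induction_on with
  | _ i ih =>
    by_cases h1 : i < l.length - 1
    · exact key i h1
    · obtain ⟨j, rfl⟩ : ∃ j, i = j + (l.length - 1) := ⟨i - (l.length - 1), by omega⟩
      rw [show j + (l.length - 1) + 1 = (j + 1) + (l.length - 1) by omega, f6_step x l p hl,
        f6_step x l p hl]
      exact Vtx.ad_smul x (ih j (by omega))

/-- fixed by `r` -/
theorem f6_fix {x r : G} {l : List (Vtx g)} {p : Vtx g} (hx : Commute x r) (hp : r • p = p)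
    (hF : Fx r l) (hl : 2 ≤ l.length) : ∀ i, r • f6U x l p i = f6U x l p i := by
  intro i
  unfold f6U
  set v := l.getD (i % (l.length - 1)) p with hv
  have h1 : r • v = v := by
    apply hF
    rw [hv, List.getD_eq_getElem?_getD, List.getElem?_eq_getElem
      (lt_of_lt_of_le (Nat.mod_lt _ (by omega)) (Nat.sub_le _ _))]
    exact List.getElem_mem _
  exact Fx.of_commute (hx.pow_left _) h1

/-- no backtrack -/
theorem f6_nb {x : G} {l : List (Vtx g)} {p : Vtx g} (hl : 2 ≤ l.length)
    (hR : ∀ N, Red (pw x l N)) (i : ℕ) : f6U x l p i ≠ f6U x l p (i + 2) := by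
  have h0 : 0 < l.length - 1 := by omega
  set N := i + 2 with hN
  have hle : i + 2 ≤ N * (l.length - 1) := by
    calc i + 2 = N * 1 := by omega
      _ ≤ N * (l.length - 1) := Nat.mul_le_mul_left _ h0
  have g0 := f6_get x l p hl N i (by omega)
  have g1 := f6_get x l p hl N (i + 1) (by omega)
  have g2 := f6_get x l p hl N (i + 2) hle
  have hR' := hR N
  set L := pw x l N with hL
  have hlen : i + 2 < L.length := by
    rw [hL, f6_len x l hl]
    omega
  refine hR' (L.take i) (f6U x l p i) (f6U x l p (i + 1)) (f6U x l p (i + 2)) (L.drop (i + 3)) ?_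
  have d0 : L = L.take i ++ L.drop i := (List.take_append_drop i L).symm
  have e0 : L.drop i = f6U x l p i :: L.drop (i + 1) := by
    rw [List.drop_eq_getElem_cons (by omega)]
    congr 1
    rw [List.getElem?_eq_getElem (by omega)] at g0
    simpa using g0
  have e1 : L.drop (i + 1) = f6U x l p (i + 1) :: L.drop (i + 2) := by
    rw [List.drop_eq_getElem_cons (by omega)]
    congr 1
    rw [List.getElem?_eq_getElem (by omega)] at g1
    simpa using g1
  have e2 : L.drop (i + 2) = f6U x l p (i + 2) :: L.drop (i + 3) := by
    rw [List.drop_eq_getElem_cons (by omega)]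
    congr 1
    rw [List.getElem?_eq_getElem (by omega)] at g2
    simpa using g2
  rw [e0, e1, e2] at d0
  exact d0

/-- a periodic sequence gives a cyclically reduced closed walk -/
theorem f6_cyc (U : ℕ → Vtx g) (n : ℕ) (hn : 2 ≤ n) (had : ∀ i, (U i).ad (U (i + 1)))
    (hper : ∀ i, U (i + n) = U i) (hnb : ∀ i, U i ≠ U (i + 2)) :
    CW Vtx.ad ((List.range n).map U) ∧
      (∀ x q y, (List.range n).map U = x ++ q :: y →
        ∀ r ∈ (y ++ x).head?, ∀ p ∈ (y ++ x).getLast?, r ≠ p) := by
  have key : ∀ x q y, (List.range n).map U = x ++ q :: y →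
      q = U x.length ∧ (y ++ x).head? = some (U (x.length + 1)) ∧
        (y ++ x).getLast? = some (U (x.length + (n - 1))) := by
    intro x q y h
    have hlen : x.length + 1 + y.length = n := by
      have := congrArg List.length h
      simp only [List.length_map, List.length_range, List.length_append, List.length_cons] at this
      omega
    have hget : ∀ i, i < n → (x ++ q :: y)[i]? = some (U i) := by
      intro i hi
      rw [← h]
      simp [hi]
    have hq : q = U x.length := by
      have := hget x.length (by omega)
      simpa using this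
    have hx : ∀ i, i < x.length → x[i]? = some (U i) := by
      intro i hi
      have := hget i (by omega)
      rwa [List.getElem?_append_left hi] at this
    have hy : ∀ i, i < y.length → y[i]? = some (U (x.length + 1 + i)) := by
      intro i hi
      have := hget (x.length + 1 + i) (by omega)
      rw [List.getElem?_append_right (by omega)] at this
      have e : x.length + 1 + i - x.length = i + 1 := by omega
      rw [e, List.getElem?_cons_succ] at this
      exact this
    refine ⟨hq, ?_, ?_⟩
    · rw [List.head?_eq_getElem?]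
      by_cases h1 : 0 < y.length
      · rw [List.getElem?_append_left h1, hy 0 h1]
      · rw [List.getElem?_append_right (by omega)]
        have h2 : y.length = 0 := by omega
        rw [h2, Nat.sub_zero, hx 0 (by omega)]
        have : x.length + 1 = 0 + n := by omega
        rw [this, hper]
    · rw [List.getLast?_eq_getElem?, List.length_append]
      by_cases h1 : 0 < x.length
      · rw [List.getElem?_append_right (by omega)]
        have h2 : y.length + x.length - 1 - y.length = x.length - 1 := by omega
        rw [h2, hx _ (by omega)]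
        have : x.length + (n - 1) = x.length - 1 + n := by omega
        rw [this, hper]
      · have h2 : x.length = 0 := by omega
        rw [h2, List.getElem?_append_left (by omega)]
        rw [hy _ (by omega), h2]
        congr 2
        omega
  refine ⟨?_, ?_⟩
  · intro x q y h
    obtain ⟨h1, h2, -⟩ := key x q y h
    refine ⟨_, h2, ?_⟩
    rw [h1]
    exact had _
  · intro x q y h r hr p hp
    obtain ⟨-, h2, h3⟩ := key x q y h
    rw [h2] at hr
    rw [h3] at hp
    simp only [Option.mem_def, Option.some.injEq] at hr hp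
    subst hr hp
    have h4 := hnb (x.length + (n - 1))
    have h5 : x.length + (n - 1) + 2 = x.length + 1 + n := by omega
    rw [h5, hper] at h4
    exact h4.symm

end pwl

theorem f6_zfix {G V : Type} [Group G] [MulAction G V] {r : G} {u : V} (hu : r • u = u) (b : ℤ) :
    (r ^ b) • u = u := by
  have h1 : r ∈ MulAction.stabilizer G u := hu
  exact (MulAction.stabilizer G u).zpow_mem h1 b

theorem stmt_F6 (h1 : Stmt_AXIS) (h2 : Stmt_F3) (h3 : Stmt_CYC) (h4 : Stmt_DROOT)
    (h5 : Stmt_TFE) : Stmt_F6 := by
  intro S _ M hM r x a b hr hx ha hab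
  -- a common fixed vertex
  have hxa : ∀ u : Vtx (gen M), r • u = u → (x ^ a) • u = u := by
    intro u hu
    rw [hab]
    exact f6_zfix hu b
  have hfix : ∃ p : Vtx (gen M), r • p = p ∧ x • p = p := by
    by_contra hcon
    push Not at hcon
    obtain ⟨v0, -, hv0⟩ := hr.exists_fix
    obtain ⟨p, l, hw, hF, hl, hR⟩ := h1 (Art M) S (gen M) r x hx ⟨v0, hv0⟩ (h2 S M hM r hr).2 hcon
    have hp : r • p = p := by
      apply hF
      exact List.mem_of_mem_head? hw.1
    have hfx := f6_fix hx hp hF hl
    have had := f6_ad hw hl
    have hper : ∀ i, f6U x l p (i + a * (l.length - 1)) = f6U x l p i := by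
      have h6 : ∀ k i, f6U x l p (i + k * (l.length - 1)) = x ^ k • f6U x l p i := by
        intro k
        induction k with
        | zero => intro i; simp
        | succ k ih =>
          intro i
          have e : i + (k + 1) * (l.length - 1) = (i + k * (l.length - 1)) + (l.length - 1) := by ring
          rw [e, f6_step x l p hl, ih, ← mul_smul, ← pow_succ']
      intro i
      rw [h6, hxa _ (hfx i)]
    have hn : 2 ≤ a * (l.length - 1) := by
      by_contra hc
      have h7 : a * (l.length - 1) = 1 := by
        have : 0 < a * (l.length - 1) := Nat.mul_pos ha (by omega)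
        omega
      have h8 := hper 0
      rw [h7] at h8
      have h9 := had 0
      rw [h8] at h9
      exact Vtx.ad_irrefl _ h9
    obtain ⟨hc1, hc2⟩ := f6_cyc (f6U x l p) (a * (l.length - 1)) hn had hper (f6_nb hl hR)
    refine h3 S M hM r ((List.range (a * (l.length - 1))).map (f6U x l p)) hr ?_ hc1 ?_ hc2
    · intro h6
      have := congrArg List.length h6
      simp only [List.length_map, List.length_range, List.length_nil] at this
      omega
    · intro u hu
      rw [List.mem_map] at hu
      obtain ⟨i, -, rfl⟩ := hu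
      exact hfx i
  obtain ⟨q, hrq, hxq⟩ := hfix
  have hq0 := ty_ne_zero_of_fix hr.ne_one hrq
  have hq2 := q.ty_le
  by_cases hq1 : q.ty = 1
  · obtain ⟨r', hr', -, hst⟩ := stab1 hq1
    obtain ⟨i, hi⟩ := hst x hxq
    obtain ⟨j, hj⟩ := hst r hrq
    have : r = r' := hr.eq_of_zpow hr' hj
    exact ⟨i, by rw [this]; exact hi⟩
  · have hqt : q.ty = 2 := by omega
    obtain ⟨v1, hv1, hv1f⟩ := hr.exists_fix
    have hne : q ≠ v1 := by
      rintro rfl
      omega
    obtain ⟨l, hw, hF⟩ := (h2 S M hM r hr).2 q v1 hrq hv1f
    obtain ⟨q', hqq', hq'⟩ : ∃ q', q.ad q' ∧ r • q' = q' := by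
      obtain ⟨e1, e2, e3⟩ := hw
      rcases l with _ | ⟨c, _ | ⟨d, l⟩⟩
      · simp at e1
      · simp only [List.head?_cons, Option.some.injEq, List.getLast?_singleton] at e1 e2
        exact absurd (e1.symm.trans e2) hne
      · simp only [List.head?_cons, Option.some.injEq] at e1
        subst e1
        rw [List.isChain_cons_cons] at e3
        exact ⟨d, e3.1, hF d (by simp)⟩
    have hq'1 : q'.ty = 1 := by
      rcases ad_12 hqq' hq0 (ty_ne_zero_of_fix hr.ne_one hq') with e | e
      · omega
      · exact e.2
    obtain ⟨s, hs⟩ := Vtx.J1 hq'1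
    obtain ⟨y, hy⟩ := q'.exists_mem
    have hyq : q.mem y := Vtx.ad_mem (Vtx.ad_symm hqq') (by omega) hy
    have hry := hr.eq_conj hs hq' hy
    have hss := Vtx.ad_ss (Vtx.ad_symm hqq') (by omega)
    have hsq : s ∈ q.J := by
      apply hss.subset
      rw [hs]
      simp
    classical
    obtain ⟨t, hst, hJ⟩ : ∃ t, s ≠ t ∧ q.J = {s, t} := by
      obtain ⟨c, d, hcd, hJ⟩ := Vtx.J2 hqt
      rw [hJ, Finset.mem_insert, Finset.mem_singleton] at hsq
      rcases hsq with rfl | rfl
      · exact ⟨d, hcd, hJ⟩
      · exact ⟨c, hcd.symm, by rw [hJ, Finset.pair_comm]⟩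
    have hin : y⁻¹ * x * y ∈ pr (gen M) s t := (Vtx.fix2 hJ hyq x).mp hxq
    have hpow : (y⁻¹ * x * y) ^ a = gen M s ^ b := by
      have e1 : (y⁻¹ * x * y) ^ a = y⁻¹ * x ^ a * y := by
        have := conj_pow (a := y⁻¹) (b := x) (i := a)
        rwa [inv_inv] at this
      rw [e1, hab, hry, conj_zpow]
      group
    by_cases hb : b = 0
    · subst hb
      rw [zpow_zero] at hab
      have hx1 : x = 1 := by
        by_contra hx1
        exact h5 S M hM.ne_zero x q hxq hx1 a ha hab
      exact ⟨0, by rw [hx1, zpow_zero]⟩
    · obtain ⟨i, hi⟩ := h4 S M hM.ne_zero s t hst _ hin a b ha hb hpow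
      refine ⟨i, ?_⟩
      rw [hry, conj_zpow, ← hi]
      group

end Pool.HA
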