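import Pool.Agent.Work.MP_7084a3_h91.Basic
import Pool.Agent.Work.MP_7084a3_h91.InterfaceX
import Pool.Agent.Work.MP_7084a3_h91.InterfaceD

set_option autoImplicit false

namespace Pool.HA

theorem stmt_F7 (h10 : Stmt_F10) (hCZ : Stmt_CZ) (hINT : Stmt_INT) (hDC : Stmt_DCEN) :
    Stmt_F7 := by
  intro S _ M hM hS r z hr H
  classical
  obtain ⟨u₁, u₂, hne, f1, f2, hu⟩ := h10 S M hM hS r hr
  have key : ∀ u : Vtx (gen M), r • u = u → u.ty = 2 → 3 ≤ lb M u.J → z • u = u := by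
    intro u hru hty hlb
    obtain ⟨s, t, hst, hJ⟩ := Vtx.J2 hty
    obtain ⟨x, hx⟩ := u.exists_mem
    have hm : 3 ≤ M s t := by
      rw [hJ, lb_pair hst (hM.ne_zero s t)] at hlb
      exact hlb
    have h2 := (hCZ S M hM s t x u hst hm (by intro a; simp [hJ]) hx 1 one_ne_zero).2 z
    apply h2
    rw [zpow_one]
    apply H
    -- the central element commutes with `r`
    have h3 : x⁻¹ * r * x ∈ pr (gen M) s t := (Vtx.fix2 hJ hx r).1 hru
    have h4 := hDC S M hM.ne_zero s t hst _ h3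
    have h5 : r = x * (x⁻¹ * r * x) * x⁻¹ := by group
    rw [h5]
    have h6 := h4.eq
    change _ * _ = _ * _
    have e1 : x * (gen M s * gen M t) ^ M s t * x⁻¹ * (x * (x⁻¹ * r * x) * x⁻¹) =
        x * ((gen M s * gen M t) ^ M s t * (x⁻¹ * r * x)) * x⁻¹ := by group
    have e2 : x * (x⁻¹ * r * x) * x⁻¹ * (x * (gen M s * gen M t) ^ M s t * x⁻¹) =
        x * ((x⁻¹ * r * x) * (gen M s * gen M t) ^ M s t) * x⁻¹ := by group
    rw [e1, e2, h6]
  have k1 := key u₁ f1 (hu u₁ (by simp)).1 (hu u₁ (by simp)).2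
  have k2 := key u₂ f2 (hu u₂ (by simp)).1 (hu u₂ (by simp)).2
  exact hINT S M hM r z u₁ u₂ hr hne f1 f2 k1 k2

end Pool.HA
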