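import Pool.Agent.Work.MP_7084a3_h91.InterfaceW

set_option autoImplicit false

namespace Pool.HA

theorem stmt_FAITH (h1 : Stmt_POS) : Stmt_FAITH := by
  intro S _ _ M ρ hM hρ w hw
  by_contra hne
  obtain ⟨s, hs⟩ := M.toCoxeterSystem.exists_rightDescent_of_ne_one hne
  have h2 := (h1 S M ρ hM hρ w s).2 hs s
  rw [hw] at h2
  have h3 : (bs s : S → ℝ) s = 1 := by simp [bs]
  change (bs s : S → ℝ) s ≤ 0 at h2
  rw [h3] at h2
  exact absurd h2 (by norm_num)

end Pool.HA
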