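import Pool.Agent.Work.MP_7084a3_h91.InterfaceW

set_option autoImplicit false

/-! # Block FINO: roots with `|bf v₁ v₂| < 1` give a product of finite order -/

namespace Pool.HA

set_option linter.unusedSectionVars false

namespace FINO

/-- a positive sequence cannot satisfy `c (j+2) = τ c (j+1) - c j` with `τ < 2` -/
theorem no_pos (τ : ℝ) (hτ : τ < 2) (c : ℕ → ℝ) (hc : ∀ j, 0 < c j)
    (hr : ∀ j, c (j + 2) = τ * c (j + 1) - c j) : False := by
  have key : ∀ j : ℕ, c (j + 1) / c j ≤ c 1 / c 0 - (j : ℝ) * (2 - τ) := by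
    intro j
    induction j with
    | zero => simp
    | succ j ih =>
      have h0 := hc j
      have h1 := hc (j + 1)
      have h2 := hr j
      have h3 : c (j + 1 + 1) / c (j + 1) ≤ c (j + 1) / c j - (2 - τ) := by
        rw [show j + 1 + 1 = j + 2 from rfl, h2, div_le_iff₀ h1]
        have h4 : (c (j + 1) / c j - (2 - τ)) * c (j + 1) - (τ * c (j + 1) - c j) =
            (c (j + 1) - c j) ^ 2 / c j := by
          field_simp
          ring
        have h5 : 0 ≤ (c (j + 1) - c j) ^ 2 / c j := by positivity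
        linarith
      push_cast
      linarith
  obtain ⟨n, hn⟩ := exists_nat_gt ((c 1 / c 0) / (2 - τ))
  have hp : 0 < 2 - τ := by linarith
  rw [div_lt_iff₀ hp] at hn
  have h1 := key n
  have h2 : 0 < c (n + 1) / c n := div_pos (hc _) (hc _)
  linarith

variable {S : Type} [Fintype S] [DecidableEq S] {M : CoxeterMatrix S}
  {ρ : M.Group →* Module.End ℝ (S → ℝ)}

theorem bs_neg (hR : IsRep M ρ) (h4 : Stmt_BFI) (s : S) : ρ (M.simple s) (bs s) = -bs s := by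
  obtain ⟨-, -, hbb, -, hrt, -⟩ := h4 S M ρ hR
  have h1 : IsRt M ρ (bs s) := ⟨1, s, by simp⟩
  rw [hR, hrt _ h1]
  funext t
  simp
  ring

theorem IsRt.act (g : M.Group) {v : S → ℝ} (hv : IsRt M ρ v) : IsRt M ρ (ρ g v) := by
  obtain ⟨w, s, rfl⟩ := hv
  exact ⟨g * w, s, by simp [map_mul]⟩

theorem IsRt.neg (hR : IsRep M ρ) (h4 : Stmt_BFI) {v : S → ℝ} (hv : IsRt M ρ v) :
    IsRt M ρ (-v) := by
  obtain ⟨w, s, rfl⟩ := hv
  refine ⟨w * M.simple s, s, ?_⟩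
  rw [map_mul, Module.End.mul_apply, bs_neg hR h4, map_neg]

theorem IsRf.rt (hR : IsRep M ρ) (h4 : Stmt_BFI) {r : M.Group} {v : S → ℝ}
    (hv : IsRf M ρ r v) : IsRt M ρ v := by
  obtain ⟨w, s, -, rfl | rfl⟩ := hv
  · exact ⟨w, s, rfl⟩
  · exact IsRt.neg hR h4 ⟨w, s, rfl⟩

theorem pos_or_neg (h3 : Stmt_POS) (hM : ∀ s t, M s t ≠ 0) (hR : IsRep M ρ) {v : S → ℝ}
    (hv : IsRt M ρ v) : (∀ t, 0 ≤ v t) ∨ (∀ t, v t ≤ 0) := by
  obtain ⟨w, s, rfl⟩ := hv
  obtain ⟨ha, hb⟩ := h3 S M ρ hM hR w s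
  rcases lt_trichotomy (M.toCoxeterSystem.length w) (M.toCoxeterSystem.length (w * M.simple s))
    with h | h | h
  · exact Or.inl (ha h)
  · exact absurd h.symm (M.toCoxeterSystem.length_mul_simple_ne w s)
  · exact Or.inr (hb h)

theorem sum_ne {v : S → ℝ} (h : v ≠ 0) (hv : ∀ t, 0 ≤ v t) : 0 < ∑ t, v t := by
  rcases (Finset.sum_nonneg (fun t _ => hv t)).lt_or_eq with h1 | h1
  · exact h1
  · exfalso
    apply h
    funext t
    have := (Finset.sum_eq_zero_iff_of_nonneg (fun t _ => hv t)).1 h1.symm t (Finset.mem_univ t)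
    simpa using this

theorem bf_zero (h4 : Stmt_BFI) (hR : IsRep M ρ) (w : S → ℝ) : bf M 0 w = 0 := by
  obtain ⟨-, hl, -⟩ := h4 S M ρ hR
  have := hl 0 0 0 0 w
  simpa using this

theorem rt_ne (h4 : Stmt_BFI) (hR : IsRep M ρ) {v : S → ℝ} (hv : IsRt M ρ v) : v ≠ 0 := by
  rintro rfl
  have h1 := (h4 S M ρ hR).2.2.2.2.1 0 hv
  rw [bf_zero h4 hR] at h1
  norm_num at h1

/-- the sequence of roots `(r₁ r₂)^j v₁` -/
noncomputable def xs (ρ : M.Group →* Module.End ℝ (S → ℝ)) (r₁ r₂ : M.Group) (v : S → ℝ) (j : ℕ) :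
    S → ℝ := ρ ((r₁ * r₂) ^ j) v

theorem act1 (h4 : Stmt_BFI) (hR : IsRep M ρ) {r₁ r₂ : M.Group} {v₁ v₂ : S → ℝ}
    (hr₁ : IsRf M ρ r₁ v₁) (hr₂ : IsRf M ρ r₂ v₂) :
    ρ (r₁ * r₂) v₁ = (4 * bf M v₁ v₂ ^ 2 - 1) • v₁ - (2 * bf M v₁ v₂) • v₂ := by
  obtain ⟨hs, hl, -, -, hrt, hrf⟩ := h4 S M ρ hR
  have e1 := hrt _ (IsRf.rt hR h4 hr₁)
  have e2 := hrt _ (IsRf.rt hR h4 hr₂)
  rw [map_mul, Module.End.mul_apply, hrf r₂ v₂ hr₂ v₁, map_sub, map_smul, hrf r₁ v₁ hr₁ v₁,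
    hrf r₁ v₁ hr₁ v₂, e1, hs v₂ v₁]
  module

theorem act2 (h4 : Stmt_BFI) (hR : IsRep M ρ) {r₁ r₂ : M.Group} {v₁ v₂ : S → ℝ}
    (hr₁ : IsRf M ρ r₁ v₁) (hr₂ : IsRf M ρ r₂ v₂) :
    ρ (r₁ * r₂) v₂ = (2 * bf M v₁ v₂) • v₁ - v₂ := by
  obtain ⟨hs, hl, -, -, hrt, hrf⟩ := h4 S M ρ hR
  have e1 := hrt _ (IsRf.rt hR h4 hr₁)
  have e2 := hrt _ (IsRf.rt hR h4 hr₂)
  rw [map_mul, Module.End.mul_apply, hrf r₂ v₂ hr₂ v₂, e2, map_sub, map_smul,
    hrf r₁ v₁ hr₁ v₂, hs v₂ v₁]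
  module

theorem xs_rec (h4 : Stmt_BFI) (hR : IsRep M ρ) {r₁ r₂ : M.Group} {v₁ v₂ : S → ℝ}
    (hr₁ : IsRf M ρ r₁ v₁) (hr₂ : IsRf M ρ r₂ v₂) (j : ℕ) :
    xs ρ r₁ r₂ v₁ (j + 2) = (4 * bf M v₁ v₂ ^ 2 - 2) • xs ρ r₁ r₂ v₁ (j + 1) -
      xs ρ r₁ r₂ v₁ j := by
  have h1 := act1 h4 hR hr₁ hr₂
  have h2 := act2 h4 hR hr₁ hr₂
  have h3 : ρ ((r₁ * r₂) ^ 2) v₁ = (4 * bf M v₁ v₂ ^ 2 - 2) • ρ (r₁ * r₂) v₁ - v₁ := by
    rw [pow_two, map_mul, Module.End.mul_apply, h1, map_sub, map_smul, map_smul, h1, h2]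
    module
  have h5 : ρ ((r₁ * r₂) ^ (j + 1)) v₁ = ρ ((r₁ * r₂) ^ j) (ρ (r₁ * r₂) v₁) := by
    rw [pow_succ, map_mul, Module.End.mul_apply]
  simp only [xs]
  rw [h5, pow_add, map_mul, Module.End.mul_apply, h3, map_sub, map_smul]

theorem xs_succ (r₁ r₂ : M.Group) (v : S → ℝ) (j : ℕ) :
    xs ρ r₁ r₂ v (j + 1) = ρ (r₁ * r₂) (xs ρ r₁ r₂ v j) := by
  simp only [xs]
  rw [pow_succ', map_mul, Module.End.mul_apply]

/-- if the sequence returns to `v₁` then the product has finite order -/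
theorem fin_of_return (h1 : Stmt_FAITH) (h4 : Stmt_BFI) (hM : ∀ s t, M s t ≠ 0)
    (hR : IsRep M ρ) {r₁ r₂ : M.Group} {v₁ v₂ : S → ℝ}
    (hr₁ : IsRf M ρ r₁ v₁) (hr₂ : IsRf M ρ r₂ v₂) (hb : |bf M v₁ v₂| < 1)
    (hb0 : bf M v₁ v₂ ≠ 0) (k : ℕ) (hk : xs ρ r₁ r₂ v₁ k = v₁) : (r₁ * r₂) ^ k = 1 := by
  obtain ⟨hs, hl, -, -, hrt, hrf⟩ := h4 S M ρ hR
  have e1 := hrt _ (IsRf.rt hR h4 hr₁)
  have e2 := hrt _ (IsRf.rt hR h4 hr₂)
  have a1 := act1 h4 hR hr₁ hr₂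
  set b := bf M v₁ v₂ with hbdef
  have hb' : b ^ 2 < 1 := by
    rw [← sq_abs]
    have := abs_nonneg b
    nlinarith
  apply h1 S M ρ hM hR
  set T := ρ ((r₁ * r₂) ^ k) with hT
  have hk1 : T v₁ = v₁ := hk
  have hcomm : ∀ x, T (ρ (r₁ * r₂) x) = ρ (r₁ * r₂) (T x) := by
    intro x
    rw [hT, ← Module.End.mul_apply, ← Module.End.mul_apply, ← map_mul, ← map_mul, ← pow_succ,
      ← pow_succ']
  have hk2 : T v₂ = v₂ := by
    have h5 := hcomm v₁
    rw [hk1, a1, map_sub, map_smul, map_smul, hk1] at h5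
    have h6 : (2 * b) • T v₂ = (2 * b) • v₂ := by
      have := sub_right_injective h5
      exact this
    have h7 : (2 * b) ≠ 0 := by
      simpa using hb0
    exact smul_right_injective _ h7 h6
  -- vectors orthogonal to `v₁, v₂` are fixed
  have horth : ∀ x, bf M x v₁ = 0 → bf M x v₂ = 0 → T x = x := by
    intro x hx1 hx2
    have h5 : ρ (r₁ * r₂) x = x := by
      rw [map_mul, Module.End.mul_apply, hrf r₂ v₂ hr₂ x, hx2, mul_zero, zero_smul, sub_zero,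
        hrf r₁ v₁ hr₁ x, hx1, mul_zero, zero_smul, sub_zero]
    have h6 : ∀ j : ℕ, ρ ((r₁ * r₂) ^ j) x = x := by
      intro j
      induction j with
      | zero => simp
      | succ j ih => rw [pow_succ, map_mul, Module.End.mul_apply, h5, ih]
    exact h6 k
  apply LinearMap.ext
  intro x
  have hd : 1 - b ^ 2 ≠ 0 := by linarith
  obtain ⟨p, q, hp, hq⟩ : ∃ p q : ℝ, bf M x v₁ = p + b * q ∧ bf M x v₂ = b * p + q := by
    refine ⟨(bf M x v₁ - b * bf M x v₂) / (1 - b ^ 2), (bf M x v₂ - b * bf M x v₁) / (1 - b ^ 2),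
      ?_, ?_⟩
    · field_simp
      ring
    · field_simp
      ring
  have hz1 : bf M (x - (p • v₁ + q • v₂)) v₁ = 0 := by
    have h7 := hl 1 (-1) x (p • v₁ + q • v₂) v₁
    have h8 := hl p q v₁ v₂ v₁
    rw [h8, e1, hs v₂ v₁, ← hbdef, hp] at h7
    have h9 : x - (p • v₁ + q • v₂) = (1 : ℝ) • x + (-1 : ℝ) • (p • v₁ + q • v₂) := by module
    rw [h9, h7]
    ring
  have hz2 : bf M (x - (p • v₁ + q • v₂)) v₂ = 0 := by
    have h7 := hl 1 (-1) x (p • v₁ + q • v₂) v₂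
    have h8 := hl p q v₁ v₂ v₂
    rw [h8, e2, ← hbdef, hq] at h7
    have h9 : x - (p • v₁ + q • v₂) = (1 : ℝ) • x + (-1 : ℝ) • (p • v₁ + q • v₂) := by module
    rw [h9, h7]
    ring
  have h10 := horth _ hz1 hz2
  rw [map_sub, map_add, map_smul, map_smul, hk1, hk2] at h10
  have h11 : T x = x := by
    have := sub_left_injective h10
    exact this
  rw [h11]
  rfl

end FINO

theorem stmt_FINO (h1 : Stmt_FAITH) (h2 : Stmt_NFIN) (h3 : Stmt_POS) (h4 : Stmt_BFI) :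
    Stmt_FINO := by
  intro S _ _ M ρ hM hR r₁ r₂ v₁ v₂ hr₁ hr₂ hb
  obtain ⟨hs, hl, -, hinv, hrt, hrf⟩ := h4 S M ρ hR
  by_cases hb0 : bf M v₁ v₂ = 0
  · -- orthogonal roots: the product is an involution
    refine ⟨2, by norm_num, ?_⟩
    have a1 := FINO.act1 h4 hR hr₁ hr₂
    apply h1 S M ρ hM hR
    apply LinearMap.ext
    intro x
    have e1 := hrt _ (FINO.IsRf.rt hR h4 hr₁)
    have e2 := hrt _ (FINO.IsRf.rt hR h4 hr₂)
    have h5 : ∀ z, ρ (r₁ * r₂) z = z - (2 * bf M z v₂) • v₂ - (2 * bf M z v₁) • v₁ := by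
      intro z
      rw [map_mul, Module.End.mul_apply, hrf r₂ v₂ hr₂ z, map_sub, map_smul, hrf r₁ v₁ hr₁ z,
        hrf r₁ v₁ hr₁ v₂, hs v₂ v₁, hb0]
      module
    have h6 : ρ (r₁ * r₂) v₁ = -v₁ := by
      rw [h5, e1, hb0]
      module
    have h7 : ρ (r₁ * r₂) v₂ = -v₂ := by
      rw [h5, e2, hs v₂ v₁, hb0]
      module
    rw [pow_two, map_mul, Module.End.mul_apply, h5 x, map_sub, map_sub, map_smul, map_smul, h5 x,
      h6, h7]
    simp only [Module.End.one_apply]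
    module
  · by_contra hno
    push Not at hno
    have hne : ∀ k : ℕ, 0 < k → FINO.xs ρ r₁ r₂ v₁ k ≠ v₁ := fun k hk h =>
      hno k hk (FINO.fin_of_return h1 h4 hM hR hr₁ hr₂ hb hb0 k h)
    have hinj : Function.Injective (FINO.xs ρ r₁ r₂ v₁) := by
      have key : ∀ i j : ℕ, i < j → FINO.xs ρ r₁ r₂ v₁ i ≠ FINO.xs ρ r₁ r₂ v₁ j := by
        intro i j hij h
        obtain ⟨d, rfl⟩ := Nat.exists_eq_add_of_lt hij
        apply hne (d + 1) (by omega)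
        have h5 : FINO.xs ρ r₁ r₂ v₁ (i + d + 1) =
            ρ ((r₁ * r₂) ^ i) (FINO.xs ρ r₁ r₂ v₁ (d + 1)) := by
          simp only [FINO.xs]
          rw [show i + d + 1 = i + (d + 1) from rfl, pow_add, map_mul, Module.End.mul_apply]
        rw [h5] at h
        have h6 : ρ (((r₁ * r₂) ^ i)⁻¹) (ρ ((r₁ * r₂) ^ i) v₁) =
            ρ (((r₁ * r₂) ^ i)⁻¹) (ρ ((r₁ * r₂) ^ i) (FINO.xs ρ r₁ r₂ v₁ (d + 1))) := by
          exact congrArg _ h
        rw [← Module.End.mul_apply, ← Module.End.mul_apply, ← map_mul, inv_mul_cancel,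
          map_one] at h6
        exact h6.symm
      intro i j h
      rcases lt_trichotomy i j with h5 | h5 | h5
      · exact absurd h (key i j h5)
      · exact h5
      · exact absurd h.symm (key j i h5)
    have hroot : ∀ j, IsRt M ρ (FINO.xs ρ r₁ r₂ v₁ j) := fun j =>
      FINO.IsRt.act _ (FINO.IsRf.rt hR h4 hr₁)
    have hF := (h2 S M ρ hM hR).2 (r₁ * r₂)
    set F := {v | IsPR M ρ v ∧ ∀ t, (ρ (r₁ * r₂) v) t ≤ 0} with hFdef
    have hfin1 : {j : ℕ | FINO.xs ρ r₁ r₂ v₁ j ∈ F}.Finite :=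
      hF.preimage (hinj.injOn)
    have hfin2 : {j : ℕ | -FINO.xs ρ r₁ r₂ v₁ j ∈ F}.Finite := by
      apply hF.preimage
      intro i _ j _ h
      exact hinj (neg_injective h)
    obtain ⟨j₀, hj₀⟩ : ∃ j₀ : ℕ, ∀ j, j₀ ≤ j → FINO.xs ρ r₁ r₂ v₁ j ∉ F ∧
        -FINO.xs ρ r₁ r₂ v₁ j ∉ F := by
      obtain ⟨B, hB⟩ := (hfin1.union hfin2).bddAbove
      refine ⟨B + 1, fun j hj => ⟨fun h => ?_, fun h => ?_⟩⟩
      · have := hB (Or.inl h)
        omega
      · have := hB (Or.inr h)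
        omega
    have hb' : bf M v₁ v₂ ^ 2 < 1 := by
      rw [← sq_abs]
      have := abs_nonneg (bf M v₁ v₂)
      nlinarith
    have hrec : ∀ j, ∑ t, FINO.xs ρ r₁ r₂ v₁ (j + 2) t =
        (4 * bf M v₁ v₂ ^ 2 - 2) * ∑ t, FINO.xs ρ r₁ r₂ v₁ (j + 1) t -
          ∑ t, FINO.xs ρ r₁ r₂ v₁ j t := by
      intro j
      rw [FINO.xs_rec h4 hR hr₁ hr₂ j]
      simp only [Pi.sub_apply, Pi.smul_apply, smul_eq_mul, Finset.sum_sub_distrib,
        ← Finset.mul_sum]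
    rcases FINO.pos_or_neg h3 hM hR (hroot j₀) with hp | hp
    · have hall : ∀ j, ∀ t, 0 ≤ FINO.xs ρ r₁ r₂ v₁ (j₀ + j) t := by
        intro j
        induction j with
        | zero => exact hp
        | succ j ih =>
          rcases FINO.pos_or_neg h3 hM hR (hroot (j₀ + (j + 1))) with h5 | h5
          · exact h5
          · exfalso
            refine (hj₀ (j₀ + j) (by omega)).1 ⟨⟨hroot _, ih⟩, ?_⟩
            rw [← FINO.xs_succ]
            exact h5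
      refine FINO.no_pos (4 * bf M v₁ v₂ ^ 2 - 2) (by linarith)
        (fun j => ∑ t, FINO.xs ρ r₁ r₂ v₁ (j₀ + j) t) (fun j => ?_) (fun j => ?_)
      · exact FINO.sum_ne (FINO.rt_ne h4 hR (hroot _)) (hall j)
      · exact hrec (j₀ + j)
    · have hall : ∀ j, ∀ t, FINO.xs ρ r₁ r₂ v₁ (j₀ + j) t ≤ 0 := by
        intro j
        induction j with
        | zero => exact hp
        | succ j ih =>
          rcases FINO.pos_or_neg h3 hM hR (hroot (j₀ + (j + 1))) with h5 | h5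
          · exfalso
            refine (hj₀ (j₀ + j) (by omega)).2 ⟨⟨FINO.IsRt.neg hR h4 (hroot _), ?_⟩, ?_⟩
            · intro t
              have := ih t
              simp only [Pi.neg_apply]
              linarith
            · intro t
              have h6 := h5 t
              rw [map_neg, ← FINO.xs_succ]
              simp only [Pi.neg_apply]
              have h7 : j₀ + j + 1 = j₀ + (j + 1) := by ring
              rw [h7]
              linarith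
          · exact h5
      refine FINO.no_pos (4 * bf M v₁ v₂ ^ 2 - 2) (by linarith)
        (fun j => -∑ t, FINO.xs ρ r₁ r₂ v₁ (j₀ + j) t) (fun j => ?_) (fun j => ?_)
      · have h5 := FINO.sum_ne (FINO.rt_ne h4 hR (FINO.IsRt.neg hR h4 (hroot (j₀ + j))))
          (fun t => by
            have := hall j t
            simp only [Pi.neg_apply]
            linarith)
        simpa [Finset.sum_neg_distrib] using h5
      · have := hrec (j₀ + j)
        rw [show j₀ + (j + 2) = j₀ + j + 2 by ring, show j₀ + (j + 1) = j₀ + j + 1 by ring, this]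
        ring

end Pool.HA
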