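import Pool.Agent.Work.MP_7084a3_h91.InterfaceF

/-! # Block FINS (helper55) -/

set_option autoImplicit false

namespace Pool.HA

theorem stmt_FINS (hFCAT : Stmt_FCAT) : Stmt_FINS := by
  intro V A _ adj T
  -- insertion at the base point
  have key0 : ∀ (y r : List V) (D D' : A) (n n' : ℕ), Fill adj T y D n → Fill adj T r D' n' →
      (∀ z ∈ r.head?, ∀ z' ∈ y.head?, z = z') → Fill adj T (r ++ y) (D + D') (n + n') := by
    intro y r D D' n n' h h' hh
    rw [add_comm D D', add_comm n n']
    exact hFCAT V A adj T r y D' D n' n h' h hh
  have key : ∀ (l : List V) (D : A) (n : ℕ), Fill adj T l D n →
      ∀ (x y r : List V) (D' : A) (n' : ℕ), l = x ++ y → Fill adj T r D' n' →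
      (∀ z ∈ r.head?, z ∈ (y ++ x).head?) → Fill adj T (x ++ (r ++ y)) (D + D') (n + n') := by
    intro l D n h
    induction h with
    | nil =>
      intro x y r D' n' e h' hh
      have ex : x = [] ∧ y = [] := by
        simpa using e.symm
      rw [ex.1, ex.2] at hh ⊢
      rw [List.nil_append]
      exact key0 [] r 0 D' 0 n' Fill.nil h' (by intro z hz z' hz'; simp at hz')
    | @sph u v D n h1 h2 _ =>
      intro x y r D' n' e h' hh
      have ex : x = [] ∧ y = [] := by
        simpa using e.symm
      rw [ex.1, ex.2] at hh ⊢
      rw [List.nil_append]
      exact key0 [] r D D' n n' (Fill.sph h1 h2) h' (by intro z hz z' hz'; simp at hz')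
    | @pair u v P₁ P₂ D₁ D₂ n₁ n₂ h1 h2 h3 f1 f2 ih1 ih2 =>
      intro x y r D' n' e h' hh
      cases x with
      | nil =>
        rw [List.nil_append] at e
        rw [List.nil_append]
        refine key0 y r _ D' _ n' ?_ h' ?_
        · rw [← e]; exact Fill.pair h1 h2 h3 f1 f2
        · intro z hz z' hz'
          have := hh z hz
          rw [List.append_nil] at this
          exact Option.mem_unique this hz'
      | cons u' x' =>
        simp only [List.cons_append, List.cons.injEq] at e
        obtain ⟨e1, e2⟩ := e
        subst e1
        rcases List.append_eq_append_iff.1 e2 with ⟨c', e3, e4⟩ | ⟨a', e3, e4⟩
        · -- x' = P₁ ++ c', v :: P₂ = c' ++ y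
          cases c' with
          | nil =>
            -- x' = P₁, y = v :: P₂ : insert at the end of P₁
            rw [List.append_nil] at e3
            rw [List.nil_append] at e4
            subst e3
            have hv : ∀ z ∈ r.head?, z = v := by
              intro z hz
              have := hh z hz
              rw [← e4] at this
              simpa using this.symm
            have g : Fill adj T (x' ++ (r ++ [])) (D₁ + D') (n₁ + n') := by
              cases x' with
              | nil =>
                rw [List.nil_append]
                exact key0 [] r D₁ D' n₁ n' f1 h' (by intro z hz z' hz'; simp at hz')
              | cons a x2 =>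
                refine ih1 (a :: x2) [] r D' n' (by simp) h' ?_
                intro z hz
                rw [hv z hz, ← h2 a (by simp)]
                simp
            rw [← e4]
            have g2 : Fill adj T (u :: ((x' ++ (r ++ [])) ++ v :: P₂)) (D₁ + D' + D₂)
                (n₁ + n' + n₂) := by
              refine Fill.pair h1 ?_ h3 g f2
              intro z hz
              cases x' with
              | nil =>
                rw [List.nil_append, List.append_nil] at hz
                exact hv z hz
              | cons a x2 => simp at hz; subst hz; exact h2 a (by simp)
            have e5 : u :: ((x' ++ (r ++ [])) ++ v :: P₂) = u :: x' ++ (r ++ v :: P₂) := by simp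
            have e6 : D₁ + D' + D₂ = D₁ + D₂ + D' := by abel
            have e7 : n₁ + n' + n₂ = n₁ + n₂ + n' := by omega
            rwa [e5, e6, e7] at g2
          | cons v' c'' =>
            simp only [List.cons_append, List.cons.injEq] at e4
            obtain ⟨e5, e6⟩ := e4
            subst e5 e3
            -- P₂ = c'' ++ y
            have hv : ∀ z ∈ r.head?, y = [] → z = u := by
              intro z hz hy
              have := hh z hz
              rw [hy] at this
              simpa using this.symm
            have g : Fill adj T (c'' ++ (r ++ y)) (D₂ + D') (n₂ + n') := by
              cases y with
              | nil =>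
                cases c'' with
                | nil =>
                  rw [List.nil_append]
                  rw [e6] at f2
                  exact key0 [] r D₂ D' n₂ n' f2 h' (by intro z hz z' hz'; simp at hz')
                | cons a x2 =>
                  refine ih2 (a :: x2) [] r D' n' e6 h' ?_
                  intro z hz
                  rw [hv z hz rfl, ← h3 a (by rw [e6]; simp)]
                  simp
              | cons b y' =>
                refine ih2 c'' (b :: y') r D' n' e6 h' ?_
                intro z hz
                simpa using hh z hz
            have g2 : Fill adj T (u :: (P₁ ++ v :: (c'' ++ (r ++ y)))) (D₁ + (D₂ + D'))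
                (n₁ + (n₂ + n')) := by
              refine Fill.pair h1 h2 ?_ f1 g
              intro z hz
              cases c'' with
              | nil =>
                rw [List.nil_append] at hz e6
                cases r with
                | nil =>
                  rw [List.nil_append] at hz
                  exact h3 z (by rw [e6]; exact hz)
                | cons b r' =>
                  simp at hz
                  subst hz
                  cases y with
                  | nil => exact hv b (by simp) rfl
                  | cons b' y' =>
                    have h5 : b = b' := by simpa using (hh b (by simp)).symm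
                    rw [h5]
                    exact h3 b' (by rw [e6]; simp)
              | cons a x2 => simp at hz; subst hz; exact h3 a (by rw [e6]; simp)
            have e7 : u :: (P₁ ++ v :: (c'' ++ (r ++ y))) = u :: (P₁ ++ v :: c'') ++ (r ++ y) := by
              simp
            rw [e7, ← add_assoc, ← add_assoc] at g2
            exact g2
        · -- P₁ = x' ++ a', y = a' ++ v :: P₂
          cases a' with
          | nil =>
            rw [List.append_nil] at e3
            rw [List.nil_append] at e4
            subst e3
            have hv : ∀ z ∈ r.head?, z = v := by
              intro z hz
              have := hh z hz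
              rw [e4] at this
              simpa using this.symm
            have g : Fill adj T (P₁ ++ (r ++ [])) (D₁ + D') (n₁ + n') := by
              cases P₁ with
              | nil =>
                rw [List.nil_append]
                exact key0 [] r D₁ D' n₁ n' f1 h' (by intro z hz z' hz'; simp at hz')
              | cons a x2 =>
                refine ih1 (a :: x2) [] r D' n' (by simp) h' ?_
                intro z hz
                rw [hv z hz, ← h2 a (by simp)]
                simp
            rw [e4]
            have g2 : Fill adj T (u :: ((P₁ ++ (r ++ [])) ++ v :: P₂)) (D₁ + D' + D₂)
                (n₁ + n' + n₂) := by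
              refine Fill.pair h1 ?_ h3 g f2
              intro z hz
              cases P₁ with
              | nil =>
                rw [List.nil_append, List.append_nil] at hz
                exact hv z hz
              | cons a x2 => simp at hz; subst hz; exact h2 a (by simp)
            have e5 : u :: ((P₁ ++ (r ++ [])) ++ v :: P₂) = u :: P₁ ++ (r ++ v :: P₂) := by simp
            have e6 : D₁ + D' + D₂ = D₁ + D₂ + D' := by abel
            have e7 : n₁ + n' + n₂ = n₁ + n₂ + n' := by omega
            rwa [e5, e6, e7] at g2
          | cons b y' =>
            have hb : ∀ z ∈ r.head?, z = b := by
              intro z hz
              have := hh z hz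
              rw [e4] at this
              simpa using this.symm
            have g : Fill adj T (x' ++ (r ++ (b :: y'))) (D₁ + D') (n₁ + n') := by
              refine ih1 x' (b :: y') r D' n' e3 h' ?_
              intro z hz
              rw [hb z hz]
              simp
            have g2 : Fill adj T (u :: ((x' ++ (r ++ (b :: y'))) ++ v :: P₂)) (D₁ + D' + D₂)
                (n₁ + n' + n₂) := by
              refine Fill.pair h1 ?_ h3 g f2
              intro z hz
              cases x' with
              | nil =>
                rw [List.nil_append] at hz e3
                cases r with
                | nil =>
                  exact h2 z (by rw [e3]; exact hz)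
                | cons c r' =>
                  simp at hz
                  subst hz
                  rw [hb c (by simp)]
                  exact h2 b (by rw [e3]; simp)
              | cons a x2 => simp at hz; subst hz; exact h2 a (by rw [e3]; simp)
            rw [e4]
            have e5 : u :: ((x' ++ (r ++ (b :: y'))) ++ v :: P₂) =
                u :: x' ++ (r ++ (b :: y' ++ v :: P₂)) := by simp
            have e6 : D₁ + D' + D₂ = D₁ + D₂ + D' := by abel
            have e7 : n₁ + n' + n₂ = n₁ + n₂ + n' := by omega
            rwa [e5, e6, e7] at g2
    | @tri u v c q D n h1 h2 h3 f ih =>
      intro x y r D' n' e h' hh
      cases x with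
      | nil =>
        rw [List.nil_append] at e
        rw [List.nil_append]
        refine key0 y r _ D' _ n' ?_ h' ?_
        · rw [← e]; exact Fill.tri h1 h2 h3 f
        · intro z hz z' hz'
          have := hh z hz
          rw [List.append_nil] at this
          exact Option.mem_unique this hz'
      | cons u' x' =>
        simp only [List.cons_append, List.cons.injEq] at e
        obtain ⟨e1, e2⟩ := e
        subst e1
        have e6 : ∀ X : A, X + D' + T u v c = X + T u v c + D' := by intro X; abel
        cases x' with
        | nil =>
          rw [List.nil_append] at e2
          subst e2
          have hv : ∀ z ∈ r.head?, z = v := by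
            intro z hz
            simpa using (hh z hz).symm
          have g := ih [u, c] (v :: q) r D' n' rfl h' (by
            intro z hz
            rw [hv z hz]
            simp)
          have g2 : Fill adj T ([u] ++ (r ++ v :: q)) (D + D' + T u v c) (n + n' + 1) := by
            cases r with
            | nil => exact Fill.tri h1 h2 h3 g
            | cons b r' =>
              have hb : b = v := hv b (by simp)
              subst hb
              exact Fill.tri h1 h2 h3 g
          have e7 : n + n' + 1 = n + 1 + n' := by omega
          rwa [e6, e7] at g2
        | cons v' x'' =>
          simp only [List.cons_append, List.cons.injEq] at e2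
          obtain ⟨e3, e4⟩ := e2
          subst e3
          have g := ih (u :: c :: v :: x'') y r D' n' (by rw [e4]; simp) h' (by
            intro z hz
            have := hh z hz
            cases y with
            | nil => simpa using this
            | cons b l => simpa using this)
          have g2 : Fill adj T (u :: v :: x'' ++ (r ++ y)) (D + D' + T u v c) (n + n' + 1) :=
            Fill.tri h1 h2 h3 g
          have e7 : n + n' + 1 = n + 1 + n' := by omega
          rwa [e6, e7] at g2
  intro x y r D D' n n' h h' hh
  exact key (x ++ y) D n h x y r D' n' rfl h' hh

end Pool.HA
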