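import Pool.Agent.Work.MP_7084a3_h91.InterfaceF

/-! # Block FMAP (helper55) -/

set_option autoImplicit false

namespace Pool.HA

theorem stmt_FMAP : Stmt_FMAP := by
  intro V V' A A' _ _ adj adj' T T' f F hadj hT l D n h
  induction h with
  | nil => rw [List.map_nil, map_zero]; exact Fill.nil
  | sph h1 _ ih => exact Fill.sph (hadj _ _ h1) ih
  | @pair u v P₁ P₂ D₁ D₂ n₁ n₂ h1 h2 h3 _ _ ih1 ih2 =>
    rw [map_add, List.map_cons, List.map_append, List.map_cons]
    refine Fill.pair (hadj _ _ h1) ?_ ?_ ih1 ih2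
    · intro x hx
      cases P₁ with
      | nil => simp at hx
      | cons a l => simp at hx; subst hx; rw [h2 a (by simp)]
    · intro x hx
      cases P₂ with
      | nil => simp at hx
      | cons a l => simp at hx; subst hx; rw [h3 a (by simp)]
  | @tri u v c q D n h1 h2 h3 _ ih =>
    rw [map_add, hT u v c h1 h2 h3]
    exact Fill.tri (hadj _ _ h1) (hadj _ _ h2) (hadj _ _ h3) ih

end Pool.HA
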