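import Pool.Agent.Work.MP_7084a3_h91.InterfaceF

set_option autoImplicit false

namespace Pool.HA

theorem FTREE_aux {V A : Type} [AddCommGroup A] {adj : V → V → Prop} {T : V → V → V → A}
    {l : List V} {D : A} {n : ℕ} (h : Fill adj T l D n) : n = 0 → ∀ (q : V) (z : List V),
      l = q :: z → ∃ (x : List V) (a b : V) (y : List V), q :: z ++ [q] = x ++ a :: b :: a :: y := by
  induction h with
  | nil =>
    intro _ q z hl
    cases hl
  | sph _ _ _ =>
    intro _ q z hl
    cases hl
  | @pair u v P₁ P₂ D₁ D₂ n₁ n₂ _ h1 h2 _ _ ih1 ih2 =>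
    intro hn q z hl
    have hn1 : n₁ = 0 := by omega
    obtain ⟨rfl, rfl⟩ := List.cons.inj hl
    cases P₁ with
    | nil =>
      cases P₂ with
      | nil => exact ⟨[], u, v, [], rfl⟩
      | cons w P₂ =>
        have hw : w = u := h2 w rfl
        subst hw
        exact ⟨[], w, v, P₂ ++ [w], rfl⟩
    | cons w P₁ =>
      have hw : w = v := h1 w rfl
      subst hw
      obtain ⟨x, a, b, y, hx⟩ := ih1 hn1 w P₁ rfl
      refine ⟨u :: x, a, b, y ++ (P₂ ++ [u]), ?_⟩
      have e : w :: P₁ ++ [w] ++ (P₂ ++ [u]) = x ++ a :: b :: a :: y ++ (P₂ ++ [u]) := by rw [hx]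
      simp only [List.append_assoc, List.cons_append, List.nil_append] at e ⊢
      rw [e]
  | tri _ _ _ _ _ =>
    intro hn
    exact absurd hn (by omega)

theorem stmt_FTREE : Stmt_FTREE := by
  intro V A _ adj T q z D h
  exact FTREE_aux h rfl q z rfl

end Pool.HA
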