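import Pool.Agent.Work.MP_7084a3_h91.InterfaceF

set_option autoImplicit false

/-! # Block FTWO (helper54): two reduced walks with a filling without triangles are equal -/

namespace Pool.HA

theorem ftwo_red_left {V : Type} {l l' : List V} (h : Red (l ++ l')) : Red l := by
  intro x a b c y he
  exact h x a b c (y ++ l') (by rw [he]; simp)

theorem ftwo_red_rev {V : Type} {l : List V} (h : Red l) : Red l.reverse := by
  intro x a b c y he
  have h1 : l = y.reverse ++ c :: b :: a :: x.reverse := by
    have h2 := congrArg List.reverse he
    rw [List.reverse_reverse] at h2
    rw [h2]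
    simp
  exact (h _ _ _ _ _ h1).symm

theorem ftwo_core (hTREE : Stmt_FTREE) (hBR : Stmt_FBR) (hCW : Stmt_FCW) (hROT : Stmt_FROT)
    (V A : Type) [AddCommGroup A] (adj : V → V → Prop) (T : V → V → V → A) (hT : TriOK adj T) :
    ∀ (n : ℕ) (P Q : List V) (w : V) (D : A), P.length + Q.length ≤ n → Red (P ++ [w]) →
      Red (Q ++ [w]) → (P ++ [w]).head? = (Q ++ [w]).head? →
      Fill adj T (P ++ (w :: Q.reverse).dropLast) D 0 → P = Q := by
  intro n
  induction n with
  | zero =>
    intro P Q w D hl _ _ _ _
    have h1 : P = [] := List.eq_nil_of_length_eq_zero (by omega)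
    have h2 : Q = [] := List.eq_nil_of_length_eq_zero (by omega)
    rw [h1, h2]
  | succ n ih =>
    intro P Q w D hl hP hQ hh hF
    have hQr : Red (w :: Q.reverse) := by
      have h1 := ftwo_red_rev hQ
      rwa [List.reverse_append, List.reverse_singleton, List.singleton_append] at h1
    rcases Q with _ | ⟨v', q⟩
    · -- `Q = []`
      rcases P with _ | ⟨v, p⟩
      · rfl
      · exfalso
        have hv : v = w := by simpa using hh
        have hF' : Fill adj T (v :: p) D 0 := by simpa using hF
        obtain ⟨x, a, b, y, he⟩ := hTREE V A adj T v p D hF'
        subst hv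
        exact hP x a b a y he rfl
    · have hdl : (w :: (v' :: q).reverse).dropLast = w :: q.reverse := by
        rw [List.reverse_cons, ← List.cons_append, List.dropLast_concat]
      rw [hdl] at hF
      rcases P with _ | ⟨v, p⟩
      · exfalso
        have hv : w = v' := by simpa using hh
        obtain ⟨x, a, b, y, he⟩ := hTREE V A adj T w q.reverse D (by simpa using hF)
        refine hQr x a b a y ?_ rfl
        rw [← he, hv, List.reverse_cons, List.cons_append]
      · have hv : v = v' := by simpa using hh
        subst hv
        obtain ⟨x, a, b, y, he⟩ := hTREE V A adj T v (p ++ w :: q.reverse) D (by simpa using hF)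
        have he' : (v :: p) ++ (w :: (v :: q).reverse) = x ++ (a :: b :: a :: y) := by
          rw [← he]
          simp
        -- the position of the backtrack
        have key : ∃ Y, (v :: p) = x ++ [a] ∧ (v :: q) = Y ++ [a] := by
          rcases List.append_eq_append_iff.1 he' with ⟨as, h1, h2⟩ | ⟨bs, h1, h2⟩
          · exact absurd rfl (hQr as a b a y h2)
          · rcases bs with _ | ⟨c1, _ | ⟨c2, _ | ⟨c3, bs⟩⟩⟩
            · exact absurd rfl (hQr [] a b a y (by simpa using h2.symm))
            · simp only [List.cons_append, List.nil_append, List.cons.injEq] at h2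
              obtain ⟨h3, h4, h5⟩ := h2
              refine ⟨y.reverse, ?_, ?_⟩
              · rw [h1, h3]
              · have h6 := congrArg List.reverse h5
                rw [List.reverse_reverse, List.reverse_cons] at h6
                exact h6.symm
            · simp only [List.cons_append, List.nil_append, List.cons.injEq] at h2
              obtain ⟨h3, h4, h5, h6⟩ := h2
              refine absurd rfl (hP x a b a [] ?_)
              rw [h1, ← h3, ← h4, ← h5]
              simp
            · simp only [List.cons_append, List.cons.injEq] at h2
              obtain ⟨h3, h4, h5, h6⟩ := h2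
              refine absurd rfl (hP x a b a (bs ++ [w]) ?_)
              rw [h1, ← h3, ← h4, ← h5]
              simp
        obtain ⟨Y, hPx, hQY⟩ := key
        have hlen1 : (v :: p).length = x.length + 1 := by rw [hPx]; simp
        have hlen2 : (v :: q).length = Y.length + 1 := by rw [hQY]; simp
        -- adjacency
        have hadj : adj a w := by
          have h1 := hCW V A adj T hT _ D 0 hF x a (w :: q.reverse) (by rw [hPx]; simp)
          obtain ⟨r, hr, har⟩ := h1
          simp only [List.cons_append, List.head?_cons, Option.mem_def, Option.some.injEq] at hr
          rw [hr]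
          exact har
        have hxY : x = Y := by
          refine ih x Y a D (by omega) ?_ ?_ ?_ ?_
          · rw [← hPx]
            exact ftwo_red_left hP
          · rw [← hQY]
            exact ftwo_red_left hQ
          · rw [← hPx, ← hQY]
            simp
          · rw [hPx] at hF
            rcases Y with _ | ⟨e, Y'⟩
            · -- `Q = [v]`
              have hq : v = a ∧ q = [] := by simpa using hQY
              rw [hq.2] at hF
              rcases x with _ | ⟨e, x'⟩
              · have h1 : Fill adj T [a, w] D 0 := by simpa using hF
                simpa using Fill.sph hadj h1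
              · have hea : e = a := by
                  have h1 := congrArg List.head? hPx
                  simp only [List.cons_append, List.head?_cons, Option.some.injEq] at h1
                  rw [← h1, hq.1]
                have h1 := hROT V A adj T hT (e :: x') [a, w] D 0 (by simpa using hF)
                have h2 := hBR V A adj T hT [] x' a w D 0 hadj (by rw [hea] at h1; simpa using h1)
                rw [hea]
                simpa using h2
            · have hq : v = e ∧ q = Y' ++ [a] := by simpa using hQY
              rw [hq.2, List.reverse_append, List.reverse_singleton, List.singleton_append] at hF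
              have h1 := hBR V A adj T hT x Y'.reverse a w D 0 hadj (by simpa using hF)
              rw [List.reverse_cons, ← List.cons_append, List.dropLast_concat]
              exact h1
        rw [hPx, hQY, hxY]

theorem stmt_FTWO (h1 : Stmt_FTREE) (h2 : Stmt_FBR) (h3 : Stmt_FCW) (h4 : Stmt_FROT) :
    Stmt_FTWO := by
  intro V A _ adj T hT P Q D hP hQ hrP hrQ hh hl hF
  obtain ⟨P0, w, rfl⟩ : ∃ P0 w, P = P0 ++ [w] :=
    ⟨P.dropLast, P.getLast hP, (List.dropLast_append_getLast hP).symm⟩
  obtain ⟨Q0, w', rfl⟩ : ∃ Q0 w', Q = Q0 ++ [w'] :=
    ⟨Q.dropLast, Q.getLast hQ, (List.dropLast_append_getLast hQ).symm⟩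
  have hw : w = w' := by simpa using hl
  subst hw
  rw [List.dropLast_concat, List.reverse_append, List.reverse_singleton,
    List.singleton_append] at hF
  rw [ftwo_core h1 h2 h3 h4 V A adj T hT _ P0 Q0 w D le_rfl hrP hrQ hh hF]

end Pool.HA
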