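import Pool.Agent.Work.MP_7084a3_h91.InterfaceW

set_option autoImplicit false

namespace Pool.HA

theorem FXP_set {G : Type} [Group G] (a b : G) (ha : a * a = 1) (hb : b * b = 1) (m : ℕ)
    (hm : 0 < m) (h : (a * b) ^ m = 1) : ∃ D : Finset G, D.Nonempty ∧
      (∀ w ∈ D, w * a ∈ D) ∧ ∀ w ∈ D, w * b ∈ D := by
  classical
  set z := a * b with hz
  have hfin : IsOfFinOrder z := isOfFinOrder_iff_pow_eq_one.2 ⟨m, hm, h⟩
  have hf : (Subgroup.zpowers z : Set G).Finite := by
    have : Finite (Subgroup.zpowers z) := hfin.finite_zpowers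
    exact Set.toFinite _
  set D := hf.toFinset ∪ hf.toFinset.image (fun w => a * w) with hD
  have ha' : a⁻¹ = a := inv_eq_of_mul_eq_one_left ha
  have hb' : b⁻¹ = b := inv_eq_of_mul_eq_one_left hb
  have hza : ∀ w ∈ Subgroup.zpowers z, a * w * a ∈ Subgroup.zpowers z := by
    rintro _ ⟨j, rfl⟩
    refine ⟨-j, ?_⟩
    dsimp only
    have h1 : a * z ^ j * a = (a * z * a⁻¹) ^ j := by
      rw [conj_zpow, ha']
    have h2 : a * z * a⁻¹ = z⁻¹ := by
      rw [hz, mul_inv_rev, ha', hb', ← mul_assoc, ha, one_mul]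
    rw [h1, h2, inv_zpow, zpow_neg]
  have mem : ∀ w, w ∈ D ↔ w ∈ Subgroup.zpowers z ∨ a * w ∈ Subgroup.zpowers z := by
    intro w
    rw [hD, Finset.mem_union, Finset.mem_image]
    simp only [Set.Finite.mem_toFinset, SetLike.mem_coe]
    constructor
    · rintro (h1 | ⟨v, hv, rfl⟩)
      · exact Or.inl h1
      · right
        rw [← mul_assoc, ha, one_mul]
        exact hv
    · rintro (h1 | h1)
      · exact Or.inl h1
      · right
        exact ⟨a * w, h1, by rw [← mul_assoc, ha, one_mul]⟩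
  have hA : ∀ w ∈ D, w * a ∈ D := by
    intro w hw
    rw [mem] at hw ⊢
    rcases hw with hw | hw
    · right
      rw [← mul_assoc]
      exact hza w hw
    · left
      have := hza _ hw
      rwa [← mul_assoc, ha, one_mul] at this
  refine ⟨D, ⟨1, (mem 1).2 (Or.inl (Subgroup.one_mem _))⟩, hA, fun w hw => ?_⟩
  have h1 : w * b = (w * a) * z := by
    rw [hz, mul_assoc w a, ← mul_assoc a a b, ha, one_mul]
  have h2 := hA w hw
  rw [h1]
  rw [mem] at h2 ⊢
  rcases h2 with h2 | h2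
  · left
    exact Subgroup.mul_mem _ h2 (Subgroup.mem_zpowers z)
  · right
    rw [← mul_assoc]
    exact Subgroup.mul_mem _ h2 (Subgroup.mem_zpowers z)

theorem FXP_simple_sq {S : Type} (M : CoxeterMatrix S) (s : S) :
    M.simple s * M.simple s = 1 := by
  have := M.toCoxeterSystem.simple_mul_simple_self s
  rwa [CoxeterMatrix.toCoxeterSystem_simple] at this

theorem FXP_rf {S : Type} [Fintype S] [DecidableEq S] {M : CoxeterMatrix S}
    {ρ : M.Group →* Module.End ℝ (S → ℝ)} (h : IsRep M ρ) {r : M.Group} {v : S → ℝ}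
    (hr : IsRf M ρ r v) : r * r = 1 ∧ ρ r v = -v := by
  obtain ⟨w, s, rfl, hv⟩ := hr
  have hss : bf M (bs s) (bs s) = 1 := by
    unfold bf bs
    rw [Finset.sum_eq_single s, Finset.sum_eq_single s]
    · simp [M.diagonal s]
    · intro t' _ ht'
      simp [Pi.single_eq_of_ne ht']
    · intro h; exact absurd (Finset.mem_univ _) h
    · intro s' _ hs'
      refine Finset.sum_eq_zero fun t' _ => ?_
      simp [Pi.single_eq_of_ne hs']
    · intro h; exact absurd (Finset.mem_univ _) h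
  have h1 : ρ (w * M.simple s * w⁻¹) (ρ w (bs s)) = -ρ w (bs s) := by
    rw [← Module.End.mul_apply, ← map_mul, inv_mul_cancel_right, map_mul,
      Module.End.mul_apply, h s, hss, mul_one, two_smul, map_sub, map_add]
    abel
  constructor
  · have : w * M.simple s * w⁻¹ * (w * M.simple s * w⁻¹) =
        w * (M.simple s * M.simple s) * w⁻¹ := by group
    rw [this, FXP_simple_sq, mul_one, mul_inv_cancel]
  · rcases hv with rfl | rfl
    · exact h1
    · rw [map_neg, h1]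

theorem stmt_FXP (hCONE : Stmt_CONE) : Stmt_FXP := by
  intro S S' _ _ _ _ M M' ρ ρ' ψ β hW a b hab
  classical
  obtain ⟨hadd, -, hinv, hpos⟩ := hCONE S' M' ρ' hW.hM'.ne_zero hW.rep'
  set ra := ψ (M.simple a)
  set rb := ψ (M.simple b)
  obtain ⟨haa, hρa⟩ := FXP_rf hW.rep' (hW.refl a)
  obtain ⟨hbb, hρb⟩ := FXP_rf hW.rep' (hW.refl b)
  have hm : 0 < M a b := Nat.pos_of_ne_zero (hW.hM.ne_zero a b)
  have hpow : (ra * rb) ^ (M a b) = 1 := by
    have h1 : (M.simple a * M.simple b) ^ M a b = 1 := by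
      have := M.toCoxeterSystem.simple_mul_simple_pow a b
      rwa [CoxeterMatrix.toCoxeterSystem_simple] at this
    change (ψ (M.simple a) * ψ (M.simple b)) ^ (M a b) = 1
    rw [← map_mul, ← map_pow, h1, map_one]
  obtain ⟨D, hDne, hDa, hDb⟩ := FXP_set ra rb haa hbb (M a b) hm hpow
  let y : (S' → ℝ) →ₗ[ℝ] ℝ := ∑ t, LinearMap.proj t
  have hy : y ∈ UC M' ρ' := by
    apply hpos
    intro s
    change 0 < (∑ t, (LinearMap.proj t : (S' → ℝ) →ₗ[ℝ] ℝ)) (bs s)
    rw [LinearMap.sum_apply]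
    simp only [LinearMap.proj_apply, bs]
    rw [Finset.sum_pi_single']
    simp
  let x : (S' → ℝ) →ₗ[ℝ] ℝ := ∑ w ∈ D, y ∘ₗ ρ' w
  have hx : x ∈ UC M' ρ' :=
    Finset.sum_induction_nonempty (fun w => y ∘ₗ ρ' w) (fun z => z ∈ UC M' ρ')
      (fun u v hu hv => hadd u hu v hv) hDne (fun w _ => hinv y hy w)
  have hxinv : ∀ r : M'.Group, r * r = 1 → (∀ w ∈ D, w * r ∈ D) → x ∘ₗ ρ' r = x := by
    intro r hrr hr
    change (∑ w ∈ D, y ∘ₗ ρ' w) ∘ₗ ρ' r = ∑ w ∈ D, y ∘ₗ ρ' w
    have h1 : (∑ w ∈ D, y ∘ₗ ρ' w) ∘ₗ ρ' r = ∑ w ∈ D, y ∘ₗ ρ' (w * r) := by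
      ext v
      simp only [LinearMap.comp_apply, LinearMap.sum_apply, map_mul, Module.End.mul_apply]
    rw [h1]
    refine Finset.sum_nbij' (fun w => w * r) (fun w => w * r) (fun w hw => hr w hw)
      (fun w hw => hr w hw) ?_ ?_ ?_
    · intro w _
      rw [mul_assoc, hrr, mul_one]
    · intro w _
      rw [mul_assoc, hrr, mul_one]
    · intro w _
      rfl
  have hvan : ∀ (r : M'.Group) (v : S' → ℝ), x ∘ₗ ρ' r = x → ρ' r v = -v → x v = 0 := by
    intro r v h1 h2
    have h3 : x (ρ' r v) = x v := by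
      conv_rhs => rw [← h1]
      rfl
    rw [h2, map_neg] at h3
    linarith
  exact ⟨x, hx, hvan ra _ (hxinv ra haa hDa) hρa, hvan rb _ (hxinv rb hbb hDb) hρb⟩

end Pool.HA
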