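import Pool.Agent.Work.MP_7084a3_h91.B.TRIP

set_option autoImplicit false

/-! # Block GLOB (helper35) -/

namespace Pool.HA

open Finset Pool.HA.H35

/-- GLOB -/
theorem stmt_GLOB (hT : Stmt_TRIP) (hN : Stmt_NOFX) (hX : Stmt_FXP) (hC : Stmt_CONE) :
    Stmt_GLOB := by
  intro S S' _ _ _ _ M M' ρ ρ' ψ β hW hbf hS
  have C := FC.of hC hW.hM'.ne_zero hW.rep'
  have nofx := hN S S' M M' ρ ρ' ψ β hW hbf
  have trip := hT S S' M M' ρ ρ' ψ β hW hbf
  have fxp := hX S S' M M' ρ ρ' ψ β hW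
  -- two points vanishing on the same pair
  have same : ∀ a b c, a ≠ b → b ≠ c → a ≠ c → ∀ x ∈ UC M' ρ', ∀ y ∈ UC M' ρ',
      x (β a) = 0 → x (β b) = 0 → y (β a) = 0 → y (β b) = 0 → 0 < x (β c) * y (β c) := by
    intro a b c hab hbc hac x hx y hy xa xb ya yb
    have hxc : x (β c) ≠ 0 := fun h => nofx a b c hab hbc hac x hx ⟨xa, xb, h⟩
    have hyc : y (β c) ≠ 0 := fun h => nofx a b c hab hbc hac y hy ⟨ya, yb, h⟩
    rcases lt_or_gt_of_ne (mul_ne_zero hxc hyc) with h5 | h5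
    · exfalso
      rcases mul_neg_iff.mp h5 with ⟨h6, h7⟩ | ⟨h6, h7⟩
      · exact nofx a b c hab hbc hac ((-(y (β c))) • x + (x (β c)) • y)
          (C.add _ (C.smul _ hx _ (by linarith)) _ (C.smul _ hy _ h6))
          ⟨by simp [xa, ya], by simp [xb, yb], by simp; ring⟩
      · exact nofx a b c hab hbc hac ((y (β c)) • x + (-(x (β c))) • y)
          (C.add _ (C.smul _ hx _ h7) _ (C.smul _ hy _ (by linarith)))
          ⟨by simp [xa, ya], by simp [xb, yb], by simp; ring⟩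
    · exact h5
  -- one point vanishing on a pair has the same sign on the others
  have claim : ∀ a b c d, a ≠ b → b ≠ c → a ≠ c → a ≠ d → b ≠ d → c ≠ d → ∀ x ∈ UC M' ρ',
      x (β a) = 0 → x (β b) = 0 → 0 < x (β c) → 0 < x (β d) := by
    intro a b c d hab hbc hac had hbd hcd x hx xa xb xc
    by_contra hneg
    have hxd : x (β d) ≠ 0 := fun h => nofx a b d hab hbd had x hx ⟨xa, xb, h⟩
    have xd : x (β d) < 0 := lt_of_le_of_ne (not_lt.mp hneg) hxd
    obtain ⟨u, hu, ua, uc⟩ := fxp a c hac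
    obtain ⟨w, hw, wa, wd⟩ := fxp a d had
    have h1 : 0 < x (β c) * u (β b) := trip b a c hab.symm hac hbc x hx u hu xb xa ua uc
    have h2 : 0 < x (β d) * w (β b) := trip b a d hab.symm had hbd x hx w hw xb xa wa wd
    have h3 : 0 < u (β d) * w (β c) := trip c a d hac.symm had hcd u hu w hw uc ua wa wd
    have ub : 0 < u (β b) := (pos_iff_pos_of_mul_pos h1).mp xc
    have wb : w (β b) < 0 := (neg_iff_neg_of_mul_pos h2).mp xd
    obtain ⟨z, hz⟩ : ∃ z : (S' → ℝ) →ₗ[ℝ] ℝ, z = (-(w (β b))) • u + (u (β b)) • w := ⟨_, rfl⟩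
    have hzU : z ∈ UC M' ρ' := by
      rw [hz]
      exact C.add _ (C.smul _ hu _ (by linarith)) _ (C.smul _ hw _ ub)
    have za : z (β a) = 0 := by rw [hz]; simp [ua, wa]
    have zb : z (β b) = 0 := by rw [hz]; simp; ring
    have zc : z (β c) = u (β b) * w (β c) := by rw [hz]; simp [uc]
    have zd : z (β d) = -(w (β b)) * u (β d) := by rw [hz]; simp [wd]
    have s1 := same a b c hab hbc hac x hx z hzU xa xb za zb
    have s2 := same a b d hab hbd had x hx z hzU xa xb za zb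
    have zc' : 0 < z (β c) := (pos_iff_pos_of_mul_pos s1).mp xc
    have zd' : z (β d) < 0 := (neg_iff_neg_of_mul_pos s2).mp xd
    rw [zc] at zc'
    rw [zd] at zd'
    have wc : 0 < w (β c) := pos_of_mul_pos_right zc' ub.le
    have ud : 0 < u (β d) := pos_of_mul_pos_left h3 wc.le
    have : 0 < -(w (β b)) * u (β d) := mul_pos (by linarith) ud
    linarith
  have claim2 : ∀ (τ : ℝ), (τ = 1 ∨ τ = -1) → ∀ a b c d, a ≠ b → b ≠ c → a ≠ c → a ≠ d →
      b ≠ d → c ≠ d → ∀ x ∈ UC M' ρ', x (β a) = 0 → x (β b) = 0 → 0 < τ * x (β c) →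
      0 < τ * x (β d) := by
    intro τ hτ a b c d hab hbc hac had hbd hcd x hx xa xb xc
    rcases hτ with rfl | rfl
    · rw [one_mul] at xc ⊢
      exact claim a b c d hab hbc hac had hbd hcd x hx xa xb xc
    · have hxd : x (β d) ≠ 0 := fun h => nofx a b d hab hbd had x hx ⟨xa, xb, h⟩
      by_contra hneg
      have xd : 0 < x (β d) := lt_of_le_of_ne (by linarith) hxd.symm
      have := claim a b d c hab hbd had hac hbc hcd.symm x hx xa xb xd
      linarith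
  have hX2 : ∀ a b, ∃ x : (S' → ℝ) →ₗ[ℝ] ℝ, a ≠ b → x ∈ UC M' ρ' ∧ x (β a) = 0 ∧ x (β b) = 0 := by
    intro a b
    by_cases hab : a = b
    · exact ⟨0, fun h => absurd hab h⟩
    · obtain ⟨x, hx, h1, h2⟩ := fxp a b hab
      exact ⟨x, fun _ => ⟨hx, h1, h2⟩⟩
  choose X hX using hX2
  obtain ⟨a0, b0, c0, h01, h02, h12⟩ : ∃ a b c : S, a ≠ b ∧ a ≠ c ∧ b ≠ c :=
    Fintype.two_lt_card_iff.mp (by omega)
  obtain ⟨τ, hτ, hτ0⟩ : ∃ τ : ℝ, (τ = 1 ∨ τ = -1) ∧ 0 < τ * X a0 b0 (β c0) := by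
    have h1 : X a0 b0 (β c0) ≠ 0 := fun h => nofx a0 b0 c0 h01 h12 h02 _ (hX a0 b0 h01).1
      ⟨(hX a0 b0 h01).2.1, (hX a0 b0 h01).2.2, h⟩
    rcases lt_or_gt_of_ne h1 with h2 | h2
    · exact ⟨-1, Or.inr rfl, by linarith⟩
    · exact ⟨1, Or.inl rfl, by linarith⟩
  have ττ : τ * τ = 1 := by rcases hτ with rfl | rfl <;> norm_num
  -- invariance
  have tr : ∀ u v : ℝ, 0 < u * v → 0 < τ * u → 0 < τ * v := by
    intro u v h1 h2
    have h3 : 0 < (τ * u) * (τ * v) := by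
      have : (τ * u) * (τ * v) = (τ * τ) * (u * v) := by ring
      rw [this, ττ, one_mul]
      exact h1
    exact (pos_iff_pos_of_mul_pos h3).mp h2
  obtain ⟨R, hR⟩ : ∃ R : S → S → S → Prop, ∀ a b c, R a b c ↔ 0 < τ * X a b (β c) :=
    ⟨fun a b c => 0 < τ * X a b (β c), fun _ _ _ => Iff.rfl⟩
  have sw : ∀ a b c, a ≠ b → b ≠ c → a ≠ c → R a b c → R b a c := by
    intro a b c hab hbc hac h
    rw [hR] at h ⊢
    have h1 := hX a b hab
    have h2 := hX b a hab.symm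
    exact tr _ _ (same a b c hab hbc hac _ h1.1 _ h2.1 h1.2.1 h1.2.2 h2.2.2 h2.2.1) h
  have rot : ∀ a b c, a ≠ b → b ≠ c → a ≠ c → R a b c → R b c a := by
    intro a b c hab hbc hac h
    rw [hR] at h ⊢
    have h1 := hX a b hab
    have h2 := hX b c hbc
    exact tr _ _ (trip a b c hab hbc hac _ h1.1 _ h2.1 h1.2.1 h1.2.2 h2.2.1 h2.2.2) h
  have ch : ∀ a b c d, a ≠ b → b ≠ c → a ≠ c → a ≠ d → b ≠ d → R a b c → R a b d := by
    intro a b c d hab hbc hac had hbd h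
    by_cases hcd : c = d
    · rw [← hcd]
      exact h
    · rw [hR] at h ⊢
      have h1 := hX a b hab
      exact claim2 τ hτ a b c d hab hbc hac had hbd hcd _ h1.1 h1.2.1 h1.2.2 h
  have r0 : R a0 b0 c0 := (hR _ _ _).mpr hτ0
  have r1 : ∀ c, a0 ≠ c → b0 ≠ c → R a0 b0 c := fun c h1 h2 => ch a0 b0 c0 c h01 h12 h02 h1 h2 r0
  have r2 : ∀ c d, a0 ≠ c → a0 ≠ d → c ≠ d → R a0 c d := by
    intro c d h1 h2 h3
    by_cases hc : b0 = c
    · rw [← hc]
      exact r1 d h2 (by rw [hc]; exact h3)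
    · have h4 := r1 c h1 hc
      -- R a0 b0 c → R b0 c a0 → R c a0 b0 → R a0 c b0
      have h5 := rot _ _ _ h01 hc h1 h4
      have h6 := rot _ _ _ hc h1.symm h01.symm h5
      have h7 := sw _ _ _ h1.symm h01 (Ne.symm hc) h6
      exact ch a0 c b0 d h1 (Ne.symm hc) h01 h2 h3 h7
  have r3 : ∀ a b c, a ≠ b → b ≠ c → a ≠ c → R a b c := by
    intro a b c hab hbc hac
    by_cases ha : a0 = a
    · subst ha
      exact r2 b c hab hac hbc
    · by_cases hb : a0 = b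
      · subst hb
        exact sw _ _ _ hab.symm hac hbc (r2 a c hab.symm hbc hac)
      · have h1 := r2 a b ha hb hab
        have h2 := rot _ _ _ ha hab hb h1
        by_cases hc : a0 = c
        · subst hc
          exact h2
        · exact ch a b a0 c hab (Ne.symm hb) (Ne.symm ha) hac hbc h2
  obtain ⟨x, hx⟩ : ∃ x : (S' → ℝ) →ₗ[ℝ] ℝ,
      x = ∑ p ∈ (univ : Finset (S × S)).filter (fun p => p.1 ≠ p.2), X p.1 p.2 := ⟨_, rfl⟩
  refine ⟨τ, hτ, x, ?_, ?_⟩
  · rw [hx]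
    apply Finset.sum_induction_nonempty (fun p : S × S => X p.1 p.2) (fun y => y ∈ UC M' ρ')
      (fun y z hy hz => C.add y hy z hz)
    · exact ⟨(a0, b0), mem_filter.mpr ⟨mem_univ _, h01⟩⟩
    · intro p hp
      exact (hX p.1 p.2 (mem_filter.mp hp).2).1
  · intro c
    rw [map_smul, smul_eq_mul, hx, LinearMap.sum_apply, mul_sum]
    have hnn : ∀ p ∈ (univ : Finset (S × S)).filter (fun p => p.1 ≠ p.2),
        0 ≤ τ * X p.1 p.2 (β c) := by
      intro p hp
      have hp' := (mem_filter.mp hp).2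
      have h1 := hX p.1 p.2 hp'
      by_cases e1 : p.1 = c
      · rw [← e1, h1.2.1, mul_zero]
      · by_cases e2 : p.2 = c
        · rw [← e2, h1.2.2, mul_zero]
        · exact ((hR _ _ _).mp (r3 _ _ _ hp' e2 e1)).le
    obtain ⟨a, b, hab, hac, hbc⟩ : ∃ a b : S, a ≠ b ∧ a ≠ c ∧ b ≠ c := by
      by_cases e1 : a0 = c
      · exact ⟨b0, c0, h12, by rw [← e1]; exact h01.symm, by rw [← e1]; exact h02.symm⟩
      · by_cases e2 : b0 = c
        · exact ⟨a0, c0, h02, e1, by rw [← e2]; exact h12.symm⟩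
        · exact ⟨a0, b0, h01, e1, e2⟩
    apply sum_pos' hnn
    exact ⟨(a, b), mem_filter.mpr ⟨mem_univ _, hab⟩, (hR _ _ _).mp (r3 a b c hab hbc hac)⟩

end Pool.HA
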