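import Pool.Agent.Work.MP_7084a3_h91.InterfaceW

set_option autoImplicit false

namespace Pool.HA

theorem GRAM_ident (A B C : ℝ) :
    (Real.cos A + Real.cos (B + C)) * (Real.cos A + Real.cos (B - C)) =
      Real.cos A ^ 2 + 2 * Real.cos A * Real.cos B * Real.cos C + Real.cos B ^ 2 +
        Real.cos C ^ 2 - 1 := by
  rw [Real.cos_add, Real.cos_sub]
  have h1 := Real.sin_sq_add_cos_sq B
  have h2 := Real.sin_sq_add_cos_sq C
  have h3 : Real.sin B ^ 2 = 1 - Real.cos B ^ 2 := by linarith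
  have h4 : Real.sin C ^ 2 = 1 - Real.cos C ^ 2 := by linarith
  have h5 : (Real.cos A + (Real.cos B * Real.cos C - Real.sin B * Real.sin C)) *
      (Real.cos A + (Real.cos B * Real.cos C + Real.sin B * Real.sin C)) =
      Real.cos A ^ 2 + 2 * Real.cos A * Real.cos B * Real.cos C +
        Real.cos B ^ 2 * Real.cos C ^ 2 - Real.sin B ^ 2 * Real.sin C ^ 2 := by ring
  rw [h5, h3, h4]
  ring

theorem GRAM_angle {a : ℕ} (ha : 2 ≤ a) : 0 < Real.pi / a ∧ Real.pi / a ≤ Real.pi / 2 := by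
  have h2 : (2 : ℝ) ≤ a := by exact_mod_cast ha
  constructor
  · have := Real.pi_pos
    positivity
  · exact div_le_div_of_nonneg_left Real.pi_pos.le (by norm_num) h2

theorem stmt_GRAM : Stmt_GRAM := by
  intro a b c ha hb hc h
  obtain ⟨hA0, hA⟩ := GRAM_angle ha
  obtain ⟨hB0, hB⟩ := GRAM_angle hb
  obtain ⟨hC0, hC⟩ := GRAM_angle hc
  have hsum : Real.pi / a + Real.pi / b + Real.pi / c < Real.pi := by
    have h1 : (1 : ℝ) / a + 1 / b + 1 / c < 1 := by
      have h0 : (((1 : ℚ) / a + 1 / b + 1 / c : ℚ) : ℝ) < ((1 : ℚ) : ℝ) := Rat.cast_lt.2 h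
      push_cast at h0
      exact h0
    have h2 : Real.pi / a + Real.pi / b + Real.pi / c =
        Real.pi * (1 / a + 1 / b + 1 / c) := by ring
    rw [h2]
    calc Real.pi * (1 / a + 1 / b + 1 / c) < Real.pi * 1 :=
          mul_lt_mul_of_pos_left h1 Real.pi_pos
      _ = Real.pi := mul_one _
  set A := Real.pi / a
  set B := Real.pi / b
  set C := Real.pi / c
  have hpi := Real.pi_pos
  have h1 : 0 < Real.cos A + Real.cos (B + C) := by
    have h2 : Real.cos (Real.pi - A) < Real.cos (B + C) :=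
      Real.cos_lt_cos_of_nonneg_of_le_pi (by linarith) (by linarith) (by linarith)
    rw [Real.cos_pi_sub] at h2
    linarith
  have h2 : 0 < Real.cos A + Real.cos (B - C) := by
    have h3 : 0 ≤ Real.cos A := Real.cos_nonneg_of_mem_Icc ⟨by linarith, hA⟩
    have h4 : 0 < Real.cos (B - C) := Real.cos_pos_of_mem_Ioo ⟨by linarith, by linarith⟩
    linarith
  have h3 := mul_pos h1 h2
  rw [GRAM_ident] at h3
  linarith

end Pool.HA
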