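import Pool.Agent.Work.MP_7084a3_h91.InterfaceW

set_option autoImplicit false

namespace Pool.HA

section

variable {S : Type} [Fintype S] [DecidableEq S]

theorem GREP_symm (M : CoxeterMatrix S) (v w : S → ℝ) : bf M v w = bf M w v := by
  unfold bf
  rw [Finset.sum_comm]
  refine Finset.sum_congr rfl fun s _ => Finset.sum_congr rfl fun t _ => ?_
  rw [M.symmetric t s]
  ring

theorem GREP_lin (M : CoxeterMatrix S) (a b : ℝ) (v v' w : S → ℝ) :
    bf M (a • v + b • v') w = a * bf M v w + b * bf M v' w := by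
  unfold bf
  rw [Finset.mul_sum, Finset.mul_sum, ← Finset.sum_add_distrib]
  refine Finset.sum_congr rfl fun s _ => ?_
  rw [Finset.mul_sum, Finset.mul_sum, ← Finset.sum_add_distrib]
  refine Finset.sum_congr rfl fun t _ => ?_
  simp only [Pi.add_apply, Pi.smul_apply, smul_eq_mul]
  ring

theorem GREP_basis (M : CoxeterMatrix S) (s t : S) :
    bf M (bs s) (bs t) = -Real.cos (Real.pi / M s t) := by
  unfold bf bs
  rw [Finset.sum_eq_single s, Finset.sum_eq_single t]
  · simp
  · intro t' _ ht'
    simp [Pi.single_eq_of_ne ht']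
  · intro h; exact absurd (Finset.mem_univ _) h
  · intro s' _ hs'
    refine Finset.sum_eq_zero fun t' _ => ?_
    simp [Pi.single_eq_of_ne hs']
  · intro h; exact absurd (Finset.mem_univ _) h

theorem GREP_self (M : CoxeterMatrix S) (s : S) : bf M (bs s) (bs s) = 1 := by
  rw [GREP_basis, M.diagonal s]
  simp

/-- the reflection -/
noncomputable def GREP_f (M : CoxeterMatrix S) (s : S) : Module.End ℝ (S → ℝ) where
  toFun v := v - (2 * bf M v (bs s)) • bs s
  map_add' v w := by
    have h := GREP_lin M 1 1 v w (bs s)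
    rw [one_smul, one_smul, one_mul, one_mul] at h
    rw [h, mul_add, add_smul]
    abel
  map_smul' a v := by
    have h := GREP_lin M a 0 v 0 (bs s)
    rw [zero_smul, add_zero, zero_mul, add_zero] at h
    rw [h, RingHom.id_apply, smul_sub, smul_smul]
    congr 2
    ring

theorem GREP_f_apply (M : CoxeterMatrix S) (s : S) (v : S → ℝ) :
    GREP_f M s v = v - (2 * bf M v (bs s)) • bs s := rfl

theorem GREP_iter {V : Type} [AddCommGroup V] [Module ℝ V] (f g : Module.End ℝ V) (u v : V)
    (θ : ℝ) (hfu : f u = -u) (hfv : f v = v + (2 * Real.cos θ) • u) (hgv : g v = -v)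
    (hgu : g u = u + (2 * Real.cos θ) • v) (k : ℕ) :
    Real.sin θ • ((f * g) ^ k) u =
        Real.sin ((2 * k + 1) * θ) • u + Real.sin (2 * k * θ) • v ∧
      Real.sin θ • ((f * g) ^ k) v =
        -(Real.sin (2 * k * θ) • u + Real.sin ((2 * k - 1) * θ) • v) := by
  have hTu : (f * g) u = (4 * Real.cos θ ^ 2 - 1) • u + (2 * Real.cos θ) • v := by
    rw [Module.End.mul_apply, hgu, map_add, map_smul, hfu, hfv, smul_add, smul_smul, sub_smul,
      one_smul]
    have : 2 * Real.cos θ * (2 * Real.cos θ) = 4 * Real.cos θ ^ 2 := by ring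
    rw [this]
    abel
  have hTv : (f * g) v = -v - (2 * Real.cos θ) • u := by
    rw [Module.End.mul_apply, hgv, map_neg, hfv]
    abel
  have e1 : ∀ k : ℕ, Real.sin ((2 * (k + 1 : ℕ) + 1) * θ) =
      (4 * Real.cos θ ^ 2 - 1) * Real.sin ((2 * k + 1) * θ) -
        2 * Real.cos θ * Real.sin (2 * k * θ) := by
    intro k
    have a1 : (2 * ((k + 1 : ℕ) : ℝ) + 1) * θ = (2 * k + 1) * θ + θ + θ := by push_cast; ring
    have a2 : 2 * (k : ℝ) * θ = (2 * k + 1) * θ - θ := by ring
    rw [a1, a2, Real.sin_add, Real.sin_sub, Real.sin_add, Real.cos_add]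
    have e : Real.sin θ ^ 2 = 1 - Real.cos θ ^ 2 := by
      have := Real.sin_sq_add_cos_sq θ
      linarith
    ring_nf
    rw [e]
    ring
  have e2 : ∀ k : ℕ, Real.sin (2 * (k + 1 : ℕ) * θ) =
      2 * Real.cos θ * Real.sin ((2 * k + 1) * θ) - Real.sin (2 * k * θ) := by
    intro k
    have a1 : 2 * ((k + 1 : ℕ) : ℝ) * θ = (2 * k + 1) * θ + θ := by push_cast; ring
    have a2 : 2 * (k : ℝ) * θ = (2 * k + 1) * θ - θ := by ring
    rw [a1, a2, Real.sin_add, Real.sin_sub]
    ring
  have e3 : ∀ k : ℕ, Real.sin ((2 * (k + 1 : ℕ) - 1) * θ) =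
      2 * Real.cos θ * Real.sin (2 * k * θ) - Real.sin ((2 * k - 1) * θ) := by
    intro k
    have a1 : (2 * ((k + 1 : ℕ) : ℝ) - 1) * θ = 2 * k * θ + θ := by push_cast; ring
    have a2 : (2 * (k : ℝ) - 1) * θ = 2 * k * θ - θ := by ring
    rw [a1, a2, Real.sin_add, Real.sin_sub]
    ring
  have e4 : ∀ k : ℕ, Real.sin (2 * (k + 1 : ℕ) * θ) =
      (4 * Real.cos θ ^ 2 - 1) * Real.sin (2 * k * θ) -
        2 * Real.cos θ * Real.sin ((2 * k - 1) * θ) := by
    intro k
    have a1 : 2 * ((k + 1 : ℕ) : ℝ) * θ = 2 * k * θ + θ + θ := by push_cast; ring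
    have a2 : (2 * (k : ℝ) - 1) * θ = 2 * k * θ - θ := by ring
    rw [a1, a2, Real.sin_add, Real.sin_sub, Real.sin_add, Real.cos_add]
    have e : Real.sin θ ^ 2 = 1 - Real.cos θ ^ 2 := by
      have := Real.sin_sq_add_cos_sq θ
      linarith
    ring_nf
    rw [e]
    ring
  induction k with
  | zero =>
    refine ⟨?_, ?_⟩
    · simp
    · have a1 : (2 * ((0 : ℕ) : ℝ) - 1) * θ = -θ := by push_cast; ring
      rw [a1, Real.sin_neg]
      simp
  | succ k ih =>
    obtain ⟨ih1, ih2⟩ := ih
    constructor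
    · rw [pow_succ', Module.End.mul_apply, ← map_smul, ih1, map_add, map_smul, map_smul, hTu,
        hTv, e1, e2]
      module
    · rw [pow_succ', Module.End.mul_apply, ← map_smul, ih2, map_neg, map_add, map_smul, map_smul,
        hTu, hTv, e3, e4]
      module

theorem GREP_pow (M : CoxeterMatrix S) (s t : S) (h0 : M s t ≠ 0) :
    (GREP_f M s * GREP_f M t) ^ M s t = 1 := by
  by_cases hst : s = t
  · subst hst
    rw [M.diagonal s, pow_one]
    refine LinearMap.ext fun v => ?_
    rw [Module.End.mul_apply, GREP_f_apply M s (GREP_f M s v)]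
    have h1 : bf M (GREP_f M s v) (bs s) = -bf M v (bs s) := by
      rw [GREP_f_apply]
      have h2 := GREP_lin M 1 (-(2 * bf M v (bs s))) v (bs s) (bs s)
      rw [one_smul, neg_smul, ← sub_eq_add_neg] at h2
      rw [h2, GREP_self]
      ring
    rw [h1, GREP_f_apply, Module.End.one_apply]
    module
  · set m := M s t with hm
    have hm1 : m ≠ 1 := M.off_diagonal s t hst
    have hm2 : 2 ≤ m := by omega
    set θ : ℝ := Real.pi / m with hθ
    have hmR : (2 : ℝ) ≤ m := by exact_mod_cast hm2
    have hpi := Real.pi_pos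
    have hθ0 : 0 < θ := by positivity
    have hθ1 : θ < Real.pi := by
      rw [hθ, div_lt_iff₀ (by linarith)]
      nlinarith
    have hsin : 0 < Real.sin θ := Real.sin_pos_of_pos_of_lt_pi hθ0 hθ1
    have hmθ : (m : ℝ) * θ = Real.pi := by
      rw [hθ]
      field_simp
    have hst' : bf M (bs s) (bs t) = -Real.cos θ := by rw [GREP_basis]
    have hts' : bf M (bs t) (bs s) = -Real.cos θ := by rw [GREP_symm, hst']
    have it := GREP_iter (GREP_f M s) (GREP_f M t) (bs s) (bs t) θ
      (by rw [GREP_f_apply, GREP_self]; module)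
      (by rw [GREP_f_apply, hts']; module)
      (by rw [GREP_f_apply, GREP_self]; module)
      (by rw [GREP_f_apply, hst']; module) m
    have s1 : Real.sin (2 * m * θ) = 0 := by
      have : 2 * (m : ℝ) * θ = 2 * Real.pi := by rw [mul_assoc, hmθ]
      rw [this, Real.sin_two_pi]
    have s2 : Real.sin ((2 * m + 1) * θ) = Real.sin θ := by
      have : (2 * (m : ℝ) + 1) * θ = θ + 2 * Real.pi := by
        rw [add_mul, mul_assoc, hmθ]; ring
      rw [this, Real.sin_add_two_pi]
    have s3 : Real.sin ((2 * m - 1) * θ) = -Real.sin θ := by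
      have : (2 * (m : ℝ) - 1) * θ = -θ + 2 * Real.pi := by
        rw [sub_mul, mul_assoc, hmθ]; ring
      rw [this, Real.sin_add_two_pi, Real.sin_neg]
    rw [s1, s2, s3] at it
    obtain ⟨it1, it2⟩ := it
    have hu : ((GREP_f M s * GREP_f M t) ^ m) (bs s) = bs s := by
      have h1 : Real.sin θ • ((GREP_f M s * GREP_f M t) ^ m) (bs s) =
          Real.sin θ • (bs s : S → ℝ) := by
        rw [it1]; module
      exact smul_right_injective _ hsin.ne' h1
    have hv : ((GREP_f M s * GREP_f M t) ^ m) (bs t) = bs t := by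
      have h1 : Real.sin θ • ((GREP_f M s * GREP_f M t) ^ m) (bs t) =
          Real.sin θ • (bs t : S → ℝ) := by
        rw [it2]; module
      exact smul_right_injective _ hsin.ne' h1
    refine LinearMap.ext fun v => ?_
    set c := Real.cos θ with hc
    have hc2 : (1 : ℝ) - c ^ 2 ≠ 0 := by
      have h1 : 1 - c ^ 2 = Real.sin θ ^ 2 := by
        have := Real.sin_sq_add_cos_sq θ
        linarith
      rw [h1]
      positivity
    set α := bf M v (bs s) with hα
    set β := bf M v (bs t) with hβ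
    set x := (α + c * β) / (1 - c ^ 2) with hx
    set y := (β + c * α) / (1 - c ^ 2) with hy
    set v₀ := v + (-x) • bs s + (-y) • (bs t : S → ℝ) with hv0
    have hbf : ∀ w : S → ℝ, bf M v₀ w = bf M v w - x * bf M (bs s) w - y * bf M (bs t) w := by
      intro w
      have h1 := GREP_lin M 1 (-y) (v + (-x) • bs s) (bs t) w
      have h2 := GREP_lin M 1 (-x) v (bs s) w
      rw [one_smul] at h1 h2
      rw [hv0, h1, h2]
      ring
    have hs0 : bf M v₀ (bs s) = 0 := by
      rw [hbf, GREP_self, hts', ← hα, hx, hy]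
      field_simp
      ring
    have ht0 : bf M v₀ (bs t) = 0 := by
      rw [hbf, GREP_self, hst', ← hβ, hx, hy]
      field_simp
      ring
    have hf0 : (GREP_f M s * GREP_f M t) v₀ = v₀ := by
      have h1 : GREP_f M t v₀ = v₀ := by
        rw [GREP_f_apply, ht0, mul_zero, zero_smul, sub_zero]
      have h2 : GREP_f M s v₀ = v₀ := by
        rw [GREP_f_apply, hs0, mul_zero, zero_smul, sub_zero]
      rw [Module.End.mul_apply, h1, h2]
    have hf0' : ∀ k : ℕ, ((GREP_f M s * GREP_f M t) ^ k) v₀ = v₀ := by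
      intro k
      induction k with
      | zero => rfl
      | succ k ih => rw [pow_succ, Module.End.mul_apply, hf0, ih]
    have hdec : v = v₀ + x • bs s + y • bs t := by
      rw [hv0]; module
    have : ((GREP_f M s * GREP_f M t) ^ m) v = v := by
      conv_lhs => rw [hdec]
      rw [map_add, map_add, map_smul, map_smul, hu, hv, hf0']
      exact hdec.symm
    rw [this, Module.End.one_apply]

end

theorem stmt_GREP : Stmt_GREP := by
  intro S _ _ M h0
  refine ⟨M.toCoxeterSystem.lift ⟨GREP_f M, fun s t => GREP_pow M s t (h0 s t)⟩, ?_⟩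
  intro s v
  have h1 := M.toCoxeterSystem.lift_apply_simple
    (f := GREP_f M) (fun s t => GREP_pow M s t (h0 s t)) s
  rw [CoxeterMatrix.toCoxeterSystem_simple] at h1
  rw [h1]
  rfl

end Pool.HA
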