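import Pool.Agent.Work.MP_7084a3_h91.InterfaceW

set_option autoImplicit false

/-! # Block INFO: roots with `|bf v₁ v₂| ≥ 1`, `v₁ ≠ ± v₂`, give a product of infinite order -/

namespace Pool.HA

set_option linter.unusedSectionVars false

namespace INFO

variable {S : Type} [Fintype S] [DecidableEq S] {M : CoxeterMatrix S}
  {ρ : M.Group →* Module.End ℝ (S → ℝ)}

theorem bs_neg (hR : IsRep M ρ) (h4 : Stmt_BFI) (s : S) : ρ (M.simple s) (bs s) = -bs s := by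
  obtain ⟨-, -, hbb, -, hrt, -⟩ := h4 S M ρ hR
  have h1 : IsRt M ρ (bs s) := ⟨1, s, by simp⟩
  rw [hR, hrt _ h1]
  funext t
  simp
  ring

theorem IsRf.rt (hR : IsRep M ρ) (h4 : Stmt_BFI) {r : M.Group} {v : S → ℝ}
    (hv : IsRf M ρ r v) : IsRt M ρ v := by
  obtain ⟨w, s, -, rfl | rfl⟩ := hv
  · exact ⟨w, s, rfl⟩
  · refine ⟨w * M.simple s, s, ?_⟩
    rw [map_mul, Module.End.mul_apply, bs_neg hR h4, map_neg]

/-- the sequence of roots `(r₁ r₂)^j v₁` -/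
noncomputable def xs (ρ : M.Group →* Module.End ℝ (S → ℝ)) (r₁ r₂ : M.Group) (v : S → ℝ) (j : ℕ) :
    S → ℝ := ρ ((r₁ * r₂) ^ j) v

theorem act1 (h4 : Stmt_BFI) (hR : IsRep M ρ) {r₁ r₂ : M.Group} {v₁ v₂ : S → ℝ}
    (hr₁ : IsRf M ρ r₁ v₁) (hr₂ : IsRf M ρ r₂ v₂) :
    ρ (r₁ * r₂) v₁ = (4 * bf M v₁ v₂ ^ 2 - 1) • v₁ - (2 * bf M v₁ v₂) • v₂ := by
  obtain ⟨hs, hl, -, -, hrt, hrf⟩ := h4 S M ρ hR
  have e1 := hrt _ (IsRf.rt hR h4 hr₁)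
  have e2 := hrt _ (IsRf.rt hR h4 hr₂)
  rw [map_mul, Module.End.mul_apply, hrf r₂ v₂ hr₂ v₁, map_sub, map_smul, hrf r₁ v₁ hr₁ v₁,
    hrf r₁ v₁ hr₁ v₂, e1, hs v₂ v₁]
  module

theorem act2 (h4 : Stmt_BFI) (hR : IsRep M ρ) {r₁ r₂ : M.Group} {v₁ v₂ : S → ℝ}
    (hr₁ : IsRf M ρ r₁ v₁) (hr₂ : IsRf M ρ r₂ v₂) :
    ρ (r₁ * r₂) v₂ = (2 * bf M v₁ v₂) • v₁ - v₂ := by
  obtain ⟨hs, hl, -, -, hrt, hrf⟩ := h4 S M ρ hR
  have e1 := hrt _ (IsRf.rt hR h4 hr₁)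
  have e2 := hrt _ (IsRf.rt hR h4 hr₂)
  rw [map_mul, Module.End.mul_apply, hrf r₂ v₂ hr₂ v₂, e2, map_sub, map_smul,
    hrf r₁ v₁ hr₁ v₂, hs v₂ v₁]
  module

theorem xs_rec (h4 : Stmt_BFI) (hR : IsRep M ρ) {r₁ r₂ : M.Group} {v₁ v₂ : S → ℝ}
    (hr₁ : IsRf M ρ r₁ v₁) (hr₂ : IsRf M ρ r₂ v₂) (j : ℕ) :
    xs ρ r₁ r₂ v₁ (j + 2) = (4 * bf M v₁ v₂ ^ 2 - 2) • xs ρ r₁ r₂ v₁ (j + 1) -
      xs ρ r₁ r₂ v₁ j := by
  have h1 := act1 h4 hR hr₁ hr₂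
  have h2 := act2 h4 hR hr₁ hr₂
  have h3 : ρ ((r₁ * r₂) ^ 2) v₁ = (4 * bf M v₁ v₂ ^ 2 - 2) • ρ (r₁ * r₂) v₁ - v₁ := by
    rw [pow_two, map_mul, Module.End.mul_apply, h1, map_sub, map_smul, map_smul, h1, h2]
    module
  have h5 : ρ ((r₁ * r₂) ^ (j + 1)) v₁ = ρ ((r₁ * r₂) ^ j) (ρ (r₁ * r₂) v₁) := by
    rw [pow_succ, map_mul, Module.End.mul_apply]
  simp only [xs]
  rw [h5, pow_add, map_mul, Module.End.mul_apply, h3, map_sub, map_smul]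

/-- the solution with `s 0 = 0`, `s 1 = 1` of the recursion -/
noncomputable def sq (τ : ℝ) : ℕ → ℝ
  | 0 => 0
  | 1 => 1
  | j + 2 => τ * sq τ (j + 1) - sq τ j

theorem sq_mono {τ : ℝ} (hτ : 2 ≤ τ) (j : ℕ) : 0 ≤ sq τ j ∧ sq τ j + 1 ≤ sq τ (j + 1) := by
  induction j with
  | zero => simp [sq]
  | succ j ih =>
    obtain ⟨h1, h2⟩ := ih
    refine ⟨by linarith, ?_⟩
    rw [sq]
    nlinarith

theorem xs_sq {x : ℕ → (S → ℝ)} {τ : ℝ} (h : ∀ j, x (j + 2) = τ • x (j + 1) - x j) (j : ℕ) :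
    x (j + 1) = sq τ (j + 1) • x 1 - sq τ j • x 0 ∧
      x (j + 2) = sq τ (j + 2) • x 1 - sq τ (j + 1) • x 0 := by
  induction j with
  | zero =>
    refine ⟨by simp [sq], ?_⟩
    rw [h 0]
    simp [sq]
  | succ j ih =>
    refine ⟨ih.2, ?_⟩
    rw [show j + 1 + 2 = (j + 1) + 2 from rfl, h (j + 1)]
    have e1 : sq τ (j + 1 + 2) = τ * sq τ (j + 2) - sq τ (j + 1) := rfl
    have e2 : sq τ (j + 1 + 1) = τ * sq τ (j + 1) - sq τ j := rfl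
    rw [show j + 1 + 1 = j + 2 from rfl, ih.2, ih.1, e1]
    rw [show j + 1 + 1 = j + 2 from rfl] at e2
    rw [e2]
    module

end INFO

theorem stmt_INFO (h1 : Stmt_BFI) : Stmt_INFO := by
  intro S _ _ M ρ hR r₁ r₂ v₁ v₂ hr₁ hr₂ hb hne hne' k hk hone
  obtain ⟨hs, hl, -, hinv, hrt, hrf⟩ := h1 S M ρ hR
  have e1 := hrt _ (INFO.IsRf.rt hR h1 hr₁)
  have e2 := hrt _ (INFO.IsRf.rt hR h1 hr₂)
  have a1 := INFO.act1 h1 hR hr₁ hr₂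
  set b := bf M v₁ v₂ with hbdef
  have hb' : 1 ≤ b ^ 2 := by
    rw [← sq_abs]
    have := abs_nonneg b
    nlinarith
  have hb0 : b ≠ 0 := by
    intro h
    rw [h] at hb'
    norm_num at hb'
  set τ := 4 * b ^ 2 - 2 with hτ
  have hτ2 : 2 ≤ τ := by linarith
  obtain ⟨n, rfl⟩ : ∃ n, k = n + 1 := ⟨k - 1, by omega⟩
  have h5 := (INFO.xs_sq (fun j => INFO.xs_rec h1 hR hr₁ hr₂ j) n).1
  rw [← hbdef, ← hτ] at h5
  have h6 : INFO.xs ρ r₁ r₂ v₁ (n + 1) = v₁ := by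
    simp only [INFO.xs]
    rw [hone, map_one]
    rfl
  have h7 : INFO.xs ρ r₁ r₂ v₁ 0 = v₁ := by simp [INFO.xs]
  have h8 : INFO.xs ρ r₁ r₂ v₁ 1 = ρ (r₁ * r₂) v₁ := by simp [INFO.xs]
  obtain ⟨h9, h10⟩ := INFO.sq_mono hτ2 n
  set p := INFO.sq τ (n + 1) with hp
  set q := INFO.sq τ n with hq
  have hp0 : 0 < p := by linarith
  rw [h6, h7, h8] at h5
  -- `ρ (r₁ r₂) v₁ = lam v₁`
  set L := (1 + q) / p with hL
  have hLpos : 0 < L := by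
    rw [hL]
    positivity
  have h11 : ρ (r₁ * r₂) v₁ = L • v₁ := by
    have h12 : p • ρ (r₁ * r₂) v₁ = (1 + q) • v₁ := by
      have : p • ρ (r₁ * r₂) v₁ = (p • ρ (r₁ * r₂) v₁ - q • v₁) + q • v₁ := by module
      rw [this, ← h5]
      module
    have h13 : (p⁻¹ * p) • ρ (r₁ * r₂) v₁ = (p⁻¹ * (1 + q)) • v₁ := by
      rw [mul_smul, h12, mul_smul]
    rw [inv_mul_cancel₀ hp0.ne', one_smul] at h13
    rw [h13, hL, div_eq_inv_mul]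
  have hbs : ∀ (a c : ℝ) (x y : S → ℝ), bf M (a • x) (c • y) = a * c * bf M x y := by
    intro a c x y
    have h14 := hl a 0 x 0 (c • y)
    have h15 := hl c 0 y 0 x
    have h16 : a • x + (0 : ℝ) • (0 : S → ℝ) = a • x := by simp
    have h17 : c • y + (0 : ℝ) • (0 : S → ℝ) = c • y := by simp
    rw [h16] at h14
    rw [h17] at h15
    rw [h14, hs x (c • y), h15, hs y x]
    ring
  have h18 : L = 1 := by
    have h19 := hinv (r₁ * r₂) v₁ v₁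
    rw [h11, hbs, e1] at h19
    nlinarith
  rw [h18, one_smul, a1] at h11
  -- `v₂` is proportional to `v₁`
  have h20 : v₂ = ((4 * b ^ 2 - 2) / (2 * b)) • v₁ := by
    have h21 : (2 * b) • v₂ = (4 * b ^ 2 - 2) • v₁ := by
      have : (2 * b) • v₂ = (4 * b ^ 2 - 1) • v₁ - ((4 * b ^ 2 - 1) • v₁ - (2 * b) • v₂) := by
        module
      rw [this, h11]
      module
    have h22 : ((2 * b)⁻¹ * (2 * b)) • v₂ = ((2 * b)⁻¹ * (4 * b ^ 2 - 2)) • v₁ := by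
      rw [mul_smul, h21, mul_smul]
    rw [inv_mul_cancel₀ (mul_ne_zero two_ne_zero hb0), one_smul] at h22
    rw [div_eq_inv_mul]
    exact h22
  set μ := (4 * b ^ 2 - 2) / (2 * b) with hμ
  have h23 : μ ^ 2 = 1 := by
    rw [h20, hbs, e1] at e2
    linarith
  rcases sq_eq_one_iff.1 h23 with h24 | h24
  · exact hne (by rw [h20, h24, one_smul])
  · exact hne' (by rw [h20, h24]; module)

end Pool.HA
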