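import Pool.Agent.Work.MP_7084a3_h91.Basic
import Pool.Agent.Work.MP_7084a3_h91.InterfaceX

set_option autoImplicit false

namespace Pool.HA

theorem stmt_INT (h5 : Stmt_F5) (h3 : Stmt_F3) (h8 : Stmt_F8) : Stmt_INT := by
  intro S _ M hM r h u₁ u₂ hr hne a1 a2 b1 b2
  by_cases h1 : h = 1
  · exact ⟨0, by simpa using h1⟩
  rcases h5 S M hM h u₁ h1 b1 with ⟨r', hr', i, hi⟩ | H
  · have hi0 : i ≠ 0 := by
      rintro rfl
      exact h1 (by simpa using hi)
    have c1 := (h3 S M hM r' hr').1 i hi0 u₁ (by rw [← hi]; exact b1)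
    have c2 := (h3 S M hM r' hr').1 i hi0 u₂ (by rw [← hi]; exact b2)
    have := h8 S M hM r' r u₁ u₂ hr' hr hne c1 c2 a1 a2
    exact ⟨i, by rw [hi, this]⟩
  · exact absurd (H 1 one_ne_zero u₂ (by simpa using b2)).symm hne

end Pool.HA
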