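import Pool.Agent.Work.MP_7084a3_h91.InterfaceF

set_option autoImplicit false

namespace Pool.HA

namespace ISOaux

variable {V : Type}

/-- entry of the state -/
def ent (n p : V) (q : V × Bool) : V × List (Stp V) := (q.1, [⟨n, p, if q.2 then 1 else 2⟩])

def go : V → V → List (V × Bool) → List (V × List (Stp V))
  | _, _, [] => []
  | p, z, q :: l => ent ((l.map Prod.fst).head?.getD z) p q :: go q.1 z l

theorem go_fst (l : List (V × Bool)) : ∀ p z : V, (go p z l).map Prod.fst = l.map Prod.fst := by
  induction l with
  | nil => intro p z; rfl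
  | cons q l ih => intro p z; simp [go, ent, ih]

theorem go_sum (ang : V → V → V → ℝ) (l : List (V × Bool)) : ∀ p z : V,
    ((go p z l).map (fun E => 1 - wts ang E.1 E.2)).sum = - (nns l : ℝ) := by
  induction l with
  | nil => intro p z; simp [go, nns]
  | cons q l ih =>
    intro p z
    rw [go, List.map_cons, List.sum_cons, ih]
    rcases q with ⟨q, b⟩
    cases b
    · simp [ent, wts, wt, nns]; ring
    · simp [ent, wts, wt, nns]

theorem go_split (l : List (V × Bool)) : ∀ (p z : V) (x : List (V × List (Stp V)))
    (E : V × List (Stp V)) (y : List (V × List (Stp V))), go p z l = x ++ E :: y →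
    ∃ (x' : List (V × Bool)) (q : V × Bool) (y' : List (V × Bool)), l = x' ++ q :: y' ∧
      E = ent ((y'.map Prod.fst).head?.getD z) ((x'.map Prod.fst).getLast?.getD p) q ∧
      x = go p q.1 x' ∧ y = go q.1 z y' := by
  induction l with
  | nil => intro p z x E y h; simp [go] at h
  | cons q l ih =>
    intro p z x E y h
    cases x with
    | nil =>
      rw [go, List.nil_append, List.cons.injEq] at h
      exact ⟨[], q, l, rfl, by rw [← h.1]; simp, rfl, h.2.symm⟩
    | cons a x =>
      rw [go, List.cons_append, List.cons.injEq] at h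
      obtain ⟨x', q', y', e1, e2, e3, e4⟩ := ih _ _ _ _ _ h.2
      refine ⟨q :: x', q', y', by rw [e1]; rfl, ?_, ?_, e4⟩
      · rw [e2]
        cases x' with
        | nil => simp
        | cons b x' => simp [List.getLast?_cons]
      · rw [go, ← h.1, e3]
        congr 2
        rw [e1]
        cases x' with
        | nil => simp
        | cons b x' => simp

theorem head_lem {P x y : List (V × Bool)} {q : V × Bool} (hP : P = x ++ q :: y)
    (hne : y ++ x ≠ []) {z : V} (hz : ∀ a ∈ P.head?, z = a.1) :
    ∃ r ∈ (y ++ x).head?, r.1 = (y.map Prod.fst).head?.getD z := by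
  cases y with
  | cons r y => exact ⟨r, by simp, by simp⟩
  | nil =>
    cases x with
    | nil => simp at hne
    | cons r x =>
      refine ⟨r, by simp, ?_⟩
      have := hz r (by rw [hP]; simp)
      simp [this]

theorem last_lem {P x y : List (V × Bool)} {q : V × Bool} (hP : P = x ++ q :: y)
    (hne : y ++ x ≠ []) {z : V} (hz : ∀ a ∈ P.getLast?, z = a.1) :
    ∃ r ∈ (y ++ x).getLast?, r.1 = (x.map Prod.fst).getLast?.getD z := by
  rcases List.eq_nil_or_concat x with rfl | ⟨x', p, rfl⟩
  · rcases List.eq_nil_or_concat y with rfl | ⟨y', p, rfl⟩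
    · simp at hne
    · refine ⟨p, by simp, ?_⟩
      have := hz p (by rw [hP]; simp [List.concat_eq_append, List.getLast?_cons])
      simp [this]
  · exact ⟨p, by simp [List.concat_eq_append], by simp [List.concat_eq_append]⟩

end ISOaux

open ISOaux

theorem stmt_ISO (hGB : Stmt_GB) (hAS : Stmt_ASPH) (hCW : Stmt_FCW) : Stmt_ISO := by
  intro V A _ adj T ang ε hT hN P hP hF D n₀ hn₀
  classical
  have hex : ∃ n, Fill adj T (P.map Prod.fst) D n := ⟨n₀, hn₀⟩
  obtain ⟨n, hn, hmin⟩ : ∃ n, Fill adj T (P.map Prod.fst) D n ∧
      ∀ n', Fill adj T (P.map Prod.fst) D n' → n ≤ n' :=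
    ⟨Nat.find hex, Nat.find_spec hex, fun n' h' => Nat.find_min' hex h'⟩
  refine ⟨n, hn, ?_⟩
  have hcw : CW adj (P.map Prod.fst) := hCW V A adj T hT _ _ _ hn
  obtain ⟨a₀, P₀, rfl⟩ := List.exists_cons_of_ne_nil hP
  obtain ⟨z₀, hz₀⟩ : ∃ z, (a₀ :: P₀).getLast? = some z :=
    ⟨_, List.getLast?_eq_some_getLast hP⟩
  have hz : ∀ a ∈ (a₀ :: P₀).head?, a₀.1 = a.1 := by simp
  have hp : ∀ a ∈ (a₀ :: P₀).getLast?, z₀.1 = a.1 := by
    intro a ha
    rw [hz₀] at ha
    simp at ha
    rw [ha]
  -- decomposition facts
  have hcw' : ∀ (x : List (V × Bool)) q y, a₀ :: P₀ = x ++ q :: y →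
      y ++ x ≠ [] ∧ ∀ r ∈ (y ++ x).head?, adj q.1 r.1 := by
    intro x q y h
    obtain ⟨r, hr, hr'⟩ := hcw (x.map Prod.fst) q.1 (y.map Prod.fst) (by rw [h]; simp)
    rw [← List.map_append, List.head?_map] at hr
    simp only [Option.mem_def, Option.map_eq_some_iff] at hr
    obtain ⟨r', h1, h2⟩ := hr
    refine ⟨?_, ?_⟩
    · intro h0
      rw [h0] at h1
      simp at h1
    · intro s hs
      rw [Option.mem_def, h1] at hs
      simp only [Option.some.injEq] at hs
      rw [← hs, h2]
      exact hr'
  set Q := go z₀.1 a₀.1 (a₀ :: P₀) with hQ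
  have hk : ∀ x E y, Q = x ++ E :: y → ∀ s ∈ E.2.head?, s.k ≠ 0 := by
    intro x E y h s hs
    obtain ⟨x', q, y', -, h2, -, -⟩ := go_split _ _ _ _ _ _ (hQ ▸ h)
    rw [h2] at hs
    simp [ent] at hs
    rw [← hs]
    dsimp
    split_ifs <;> norm_num
  have hSt : StOK adj ang Q := by
    refine ⟨?_, ?_⟩
    · intro E hE
      obtain ⟨x, y, h⟩ := List.append_of_mem hE
      obtain ⟨x', q, y', h1, h2, -, -⟩ := go_split _ _ _ _ _ _ (hQ ▸ h)
      obtain ⟨hne, -⟩ := hcw' _ _ _ h1
      refine ⟨by rw [h2]; simp [ent], by rw [h2]; simp [ent], ?_⟩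
      intro s hs
      rw [h2] at hs
      simp only [ent, List.mem_singleton] at hs
      obtain ⟨r, hr, hr'⟩ := head_lem h1 hne hz
      obtain ⟨p, hp, hp'⟩ := last_lem h1 hne hp
      rcases hq : q.2 with _ | _
      · right; right
        rw [hs]
        simp [hq]
      · right; left
        have := hF x' q y' h1 hq r hr p hp
        rw [hs, h2]
        simp only [ent, hq, if_true, true_and]
        rw [hr', hp'] at this
        exact this
    · intro x E y h
      obtain ⟨x', q, y', h1, h2, h3, h4⟩ := go_split _ _ _ _ _ _ (hQ ▸ h)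
      obtain ⟨hne, hadj⟩ := hcw' _ _ _ h1
      cases y' with
      | cons r y'' =>
        refine ⟨ent ((y''.map Prod.fst).head?.getD a₀.1) q.1 r, by rw [h4]; simp [go], ?_⟩
        refine ⟨?_, ?_⟩
        · rw [h2]
          exact hadj r (by simp)
        · intro s hs t ht
          rw [h2] at hs
          simp only [ent, List.head?_cons, List.getLast?_singleton, Option.mem_def,
            Option.some.injEq] at hs ht
          subst hs ht
          rw [h2]
          refine ⟨by simp [ent], by simp [ent], ?_, ?_⟩
          · dsimp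
            split_ifs <;> norm_num
          · dsimp
            split_ifs <;> norm_num
      | nil =>
        cases x' with
        | nil => simp at hne
        | cons r x'' =>
          have hr : a₀ = r := by
            rw [List.cons_append, List.cons.injEq] at h1
            exact h1.1
          have hq : z₀ = q := by
            rw [h1] at hz₀
            simp [List.getLast?_cons] at hz₀
            exact hz₀.symm
          refine ⟨ent ((x''.map Prod.fst).head?.getD q.1) z₀.1 r,
            by rw [h4, h3]; simp [go], ?_⟩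
          refine ⟨?_, ?_⟩
          · rw [h2]
            exact hadj r (by simp)
          · intro s hs t ht
            rw [h2] at hs
            simp only [ent, List.head?_cons, List.getLast?_singleton, Option.mem_def,
              Option.some.injEq] at hs ht
            subst hs ht
            rw [h2]
            refine ⟨by simp [ent, hr], by simp [ent, hq], ?_, ?_⟩
            · dsimp
              split_ifs <;> norm_num
            · dsimp
              split_ifs <;> norm_num
  have key := hGB V A adj T ang ε hT hN Q D n (by rw [hQ]; simp [go]) hSt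
    (by
      rw [hQ, go_fst]
      exact ⟨hn, hmin⟩)
    (by
      intro x E y h s hs hs0
      exact absurd hs0 (hk x E y h s hs))
    (by
      intro x E y E' z h s hs s' hs' h0
      exact absurd h0 (hk x E _ h s hs))
    (fun D' n' _ hf => hAS V A adj T ang ε hT hN D' n' hf)
  rw [hQ, go_sum] at key
  linarith

end Pool.HA
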