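import Pool.Agent.Work.MP_7084a3_h91.InterfaceD
import Pool.Agent.Work.MP_7084a3_h91.InterfaceK

set_option autoImplicit false

/-! # Block K2: for two generators the centre is not trivial -/

namespace Pool.HA

theorem k2_esum {S : Type} (M : CoxeterMatrix S) (s : S) :
    esum M (gen M s) = Multiplicative.ofAdd (1 : ℤ) := by
  rw [esum, gen, PresentedGroup.toGroup.of]

theorem k2_top {S : Type} (M : CoxeterMatrix S) (s t : S) (h : ∀ x : S, x = s ∨ x = t)
    (y : Art M) : y ∈ pr (gen M) s t := by
  have h1 : Subgroup.closure (Set.range (PresentedGroup.of (rels := braidRels M))) = ⊤ :=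
    PresentedGroup.closure_range_of _
  have h2 : y ∈ Subgroup.closure (Set.range (PresentedGroup.of (rels := braidRels M))) := by
    rw [h1]; trivial
  refine Subgroup.closure_mono ?_ h2
  rintro _ ⟨x, rfl⟩
  rcases h x with rfl | rfl
  · left; rfl
  · right; rfl

theorem stmt_K2 (hDCEN : Stmt_DCEN) : Stmt_K2 := by
  intro S _ M hM hcard
  obtain ⟨s, t, hst, huniv⟩ := Nat.card_eq_two_iff.1 hcard
  have hall : ∀ x : S, x = s ∨ x = t := by
    intro x
    have : x ∈ ({s, t} : Set S) := by rw [huniv]; trivial
    simpa using this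
  refine ⟨(gen M s * gen M t) ^ M s t, ?_, fun y => hDCEN S M hM s t hst y (k2_top M s t hall y)⟩
  intro h
  have h1 := congrArg (esum M) h
  rw [map_pow, map_mul, k2_esum, k2_esum, (esum M).map_one, ← ofAdd_add, ← ofAdd_nsmul] at h1
  have h2 := Multiplicative.ofAdd.injective h1
  have h3 := hM s t
  simp at h2
  exact h3 h2

end Pool.HA
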