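import Pool.Agent.Work.MP_7084a3_h91.InterfaceD
import Pool.Agent.Work.MP_7084a3_h91.InterfaceK
import Pool.Agent.Work.MP_7084a3_h91.Basic

set_option autoImplicit false
set_option linter.unusedSectionVars false

namespace Pool.HA

namespace K3x

/-- `K` is the least positive exponent with `y ^ K` central -/
def LeastE {G : Type} [Group G] (y : G) (K : ℕ) : Prop :=
  0 < K ∧ (∀ h, Commute (y ^ K) h) ∧ ∀ K', 0 < K' → (∀ h, Commute (y ^ K') h) → K ≤ K'

theorem LeastE.map {G H : Type} [Group G] [Group H] (e : G ≃* H) {y : G} {K : ℕ}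
    (h : LeastE y K) : LeastE (e y) K := by
  have key : ∀ k : ℕ, (∀ h, Commute ((e y) ^ k) h) ↔ ∀ h, Commute (y ^ k) h := by
    intro k
    constructor
    · intro h1 z
      have h2 : (e y) ^ k * e z = e z * (e y) ^ k := h1 (e z)
      rw [← map_pow, ← map_mul, ← map_mul] at h2
      exact e.injective h2
    · intro h1 z
      have h2 : y ^ k * e.symm z = e.symm z * y ^ k := h1 (e.symm z)
      have h3 := congrArg e h2
      rw [map_mul, map_mul, map_pow, e.apply_symm_apply] at h3
      exact h3
  exact ⟨h.1, (key K).2 h.2.1, fun K' h0 h1 => h.2.2 K' h0 ((key K').1 h1)⟩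

theorem two_el {S : Type} [Finite S] (hc : Nat.card S = 2) {s t : S} (hst : s ≠ t) (a : S) :
    a = s ∨ a = t := by
  by_contra h
  push Not at h
  classical
  have := Fintype.ofFinite S
  have h1 : ({a, s, t} : Finset S).card ≤ Fintype.card S := Finset.card_le_univ _
  rw [Finset.card_eq_three.2 ⟨a, s, t, h.1, h.2, hst, rfl⟩, ← Nat.card_eq_fintype_card, hc] at h1
  omega

theorem mem_pr_all {S : Type} [Finite S] (M : CoxeterMatrix S) (hc : Nat.card S = 2) {s t : S}
    (hst : s ≠ t) (x : Art M) : x ∈ pr (gen M) s t := by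
  have h1 : (⊤ : Subgroup (Art M)) ≤ pr (gen M) s t := by
    rw [← PresentedGroup.closure_range_of (braidRels M), Subgroup.closure_le]
    rintro _ ⟨a, rfl⟩
    rcases two_el hc hst a with h | h
    · rw [h]; exact left_mem_pr (g := gen M) _ _
    · rw [h]; exact right_mem_pr (g := gen M) _ _
  exact h1 trivial

/-- an element commuting with both generators is central -/
theorem central_of {S : Type} [Finite S] (M : CoxeterMatrix S) (hc : Nat.card S = 2) {s t : S}
    (hst : s ≠ t) {z : Art M} (h1 : Commute z (gen M s)) (h2 : Commute z (gen M t)) (x : Art M) :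
    Commute z x := by
  have hx := mem_pr_all M hc hst x
  unfold pr at hx
  refine Subgroup.closure_induction (p := fun h _ => Commute z h) ?_ ?_ ?_ ?_ hx
  · intro w hw
    rcases hw with rfl | hw
    · exact h1
    · rw [Set.mem_singleton_iff] at hw
      rw [hw]; exact h2
  · exact Commute.one_right _
  · intro a b _ _ ha hb
    exact ha.mul_right hb
  · intro a _ ha
    exact ha.inv_right

theorem altG_two_mul {G : Type} [Group G] (x y : G) (n : ℕ) : altG x y (n + n) = (x * y) ^ n := by
  induction n with
  | zero => simp [altG]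
  | succ n ih =>
    rw [show n + 1 + (n + 1) = (n + n) + 1 + 1 by ring, altG, altG, ih, pow_succ', mul_assoc]

theorem altG_odd {G : Type} [Group G] (x y : G) (n : ℕ) :
    altG x y (n + n + 1) = (x * y) ^ n * x := by
  rw [altG, altG_two_mul]
  induction n with
  | zero => simp
  | succ n ih =>
    rw [pow_succ' (x * y), mul_assoc (x * y), ← ih, pow_succ']
    simp only [mul_assoc]

theorem map_altG {G H : Type} [Group G] [Group H] (f : G →* H) (x y : G) (n : ℕ) :
    f (altG x y n) = altG (f x) (f y) n := by
  induction n generalizing x y with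
  | zero => simp [altG]
  | succ n ih => rw [altG, altG, map_mul, ih]

theorem altG_add {G : Type} [Group G] (x y : G) (a b : ℕ) :
    altG x y (a + b) = altG x y a * (if Even a then altG x y b else altG y x b) := by
  induction a generalizing x y with
  | zero => simp [altG]
  | succ a ih =>
    rw [show a + 1 + b = (a + b) + 1 by ring, altG, altG, ih y x, mul_assoc]
    by_cases h : Even a <;> simp [h, Nat.even_add_one]

/-- `Δ² = (st)^m` -/
theorem sqd {G : Type} [Group G] (x y : G) (m : ℕ) (h : altG x y m = altG y x m) :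
    altG x y m ^ 2 = (x * y) ^ m := by
  rw [← altG_two_mul, altG_add, ← h, ite_self, pow_two]

theorem key1 {G : Type} [Group G] (x y : G) (n : ℕ) : (x * y) ^ n * x = x * (y * x) ^ n := by
  induction n with
  | zero => simp
  | succ n ih => rw [pow_succ', mul_assoc, ih, pow_succ']; simp only [mul_assoc]

/-- alternating words with constant exponents -/
theorem altP_rep {G : Type} [Group G] (x y : G) (c : ℤ) (l : List ℤ) (k : ℕ) :
    altP x y (List.replicate (2 * k) c ++ l) = (x ^ c * y ^ c) ^ k * altP x y l := by
  induction k with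
  | zero => simp
  | succ k ih =>
    rw [show 2 * (k + 1) = 2 * k + 1 + 1 by ring, List.replicate_succ, List.replicate_succ,
      List.cons_append, List.cons_append, altP, altP, ih, pow_succ']
    simp only [mul_assoc]

/-- the lower bound for central powers of `st` -/
theorem lower (h4 : Stmt_DSLG) {S : Type} (M : CoxeterMatrix S) (h0 : ∀ s t, M s t ≠ 0) {s t : S}
    (hst : s ≠ t) {k : ℕ} (hk : 0 < k) (hc : Commute ((gen M s * gen M t) ^ k) (gen M s)) :
    M s t ≤ 2 * k := by
  have h1 := h4 S M h0 t s hst.symm (List.replicate (2 * k) 1 ++ List.replicate (2 * k) (-1))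
    (by
      intro h
      have := congrArg List.length h
      simp at this
      omega)
    (by
      intro a ha
      rw [List.mem_append, List.mem_replicate, List.mem_replicate] at ha
      rcases ha with ⟨_, rfl⟩ | ⟨_, rfl⟩
      · norm_num
      · norm_num)
    (by
      rw [List.length_append, List.length_replicate, List.length_replicate]
      exact ⟨2 * k, rfl⟩)
    (by
      have e1 := altP_rep (gen M t) (gen M s) 1 (List.replicate (2 * k) (-1)) k
      have e2 := altP_rep (gen M t) (gen M s) (-1) [] k
      rw [List.append_nil] at e2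
      rw [e1, e2]
      simp only [altP, mul_one, zpow_one, zpow_neg]
      have h2 : (gen M s * gen M t) ^ k * gen M s = gen M s * (gen M t * gen M s) ^ k :=
        key1 _ _ _
      have h3 : (gen M s * gen M t) ^ k * gen M s = gen M s * (gen M s * gen M t) ^ k := hc
      have h4 : (gen M t * gen M s) ^ k = (gen M s * gen M t) ^ k :=
        mul_left_cancel (h2.symm.trans h3)
      rw [h4, show (gen M t)⁻¹ * (gen M s)⁻¹ = (gen M s * gen M t)⁻¹ by rw [mul_inv_rev], inv_pow,
        mul_inv_cancel])
  rw [List.length_append, List.length_replicate, List.length_replicate, M.symmetric t s] at h1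
  omega

/-- the order of `st` modulo the centre -/
def k0 (m : ℕ) : ℕ := if Even m then m / 2 else m

theorem k0_ge {m : ℕ} (hm : 3 ≤ m) : 2 ≤ k0 m := by
  unfold k0
  split_ifs with h
  · obtain ⟨n, rfl⟩ := h
    omega
  · omega

section A
variable {S : Type} [Finite S] (M : CoxeterMatrix S) (h0 : ∀ s t, M s t ≠ 0)
  (hc : Nat.card S = 2) {s t : S} (hst : s ≠ t)

include h0 hc hst

theorem central_k0 : ∀ h, Commute ((gen M s * gen M t) ^ k0 (M s t)) h := by
  have hb := braid M hst (h0 s t)
  by_cases hm : Even (M s t)
  · obtain ⟨n, hn⟩ := hm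
    have hk : k0 (M s t) = n := by
      unfold k0
      rw [if_pos ⟨n, hn⟩, hn]
      omega
    rw [hk]
    rw [hn, altG_two_mul, altG_two_mul] at hb
    apply central_of M hc hst
    · change (gen M s * gen M t) ^ n * gen M s = gen M s * (gen M s * gen M t) ^ n
      rw [key1, ← hb]
    · change (gen M s * gen M t) ^ n * gen M t = gen M t * (gen M s * gen M t) ^ n
      rw [← key1, hb]
  · have hk : k0 (M s t) = M s t := by
      unfold k0
      rw [if_neg hm]
    rw [hk]
    have h2 : altG (gen M s) (gen M t) (M s t) ^ 2 = (gen M s * gen M t) ^ M s t := sqd _ _ _ hb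
    have h3 : (gen M t * gen M s) ^ M s t = (gen M s * gen M t) ^ M s t := by
      rw [← h2, ← sqd _ _ _ hb.symm, hb]
    apply central_of M hc hst
    · change (gen M s * gen M t) ^ M s t * gen M s = gen M s * (gen M s * gen M t) ^ M s t
      rw [key1, h3]
    · change (gen M s * gen M t) ^ M s t * gen M t = gen M t * (gen M s * gen M t) ^ M s t
      rw [← key1, h3]

theorem least (h4 : Stmt_DSLG) (hm : 3 ≤ M s t) :
    LeastE (gen M s * gen M t) (k0 (M s t)) := by
  have hk2 := k0_ge hm
  refine ⟨by omega, central_k0 M h0 hc hst, ?_⟩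
  intro K hK hC
  have h1 := lower h4 M h0 hst hK (hC _)
  by_cases hme : Even (M s t)
  · obtain ⟨n, hn⟩ := hme
    have hk : k0 (M s t) = n := by
      unfold k0
      rw [if_pos ⟨n, hn⟩, hn]
      omega
    omega
  · have hk : k0 (M s t) = M s t := by
      unfold k0
      rw [if_neg hme]
    by_contra hlt
    push Not at hlt
    rw [hk] at hlt
    have h5 : Commute ((gen M s * gen M t) ^ (M s t - K)) (gen M s) := by
      have h6 : (gen M s * gen M t) ^ (M s t - K) =
          (gen M s * gen M t) ^ (M s t) * ((gen M s * gen M t) ^ K)⁻¹ := by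
        rw [pow_sub _ hlt.le]
      rw [h6]
      apply Commute.mul_left
      · have := central_k0 M h0 hc hst (gen M s)
        rwa [hk] at this
      · exact (hC _).inv_left
    have h7 := lower h4 M h0 hst (k := M s t - K) (by omega) h5
    apply hme
    exact ⟨K, by omega⟩

theorem greatest (h1 : Stmt_DCPC) (h4 : Stmt_DSLG) (hm : 3 ≤ M s t) :
    IsGreatest {K | ∃ y : Art M, LeastE y K} (k0 (M s t)) := by
  have hb := braid M hst (h0 s t)
  refine ⟨⟨_, least M h0 hc hst h4 hm⟩, ?_⟩
  rintro K ⟨y, hK, hC, hL⟩
  obtain ⟨w, -, l, h | h⟩ := h1 S M h0 s t hst hm y (mem_pr_all M hc hst y) K hK (fun h _ => hC h)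
  · apply hL _ (by have := k0_ge hm; omega)
    intro h'
    have e : y ^ k0 (M s t) = ((gen M s * gen M t) ^ k0 (M s t)) ^ l := by
      rw [h, conj_pow, ← zpow_natCast, ← zpow_mul, mul_comm l, zpow_mul, zpow_natCast]
      have h5 : Commute (((gen M s * gen M t) ^ k0 (M s t)) ^ l) w :=
        (central_k0 M h0 hc hst w).zpow_left l
      rw [← h5.eq, mul_inv_cancel_right]
    rw [e]
    exact (central_k0 M h0 hc hst h').zpow_left l
  · refine le_trans (hL 2 (by norm_num) ?_) (k0_ge hm)
    intro h'
    have h6 : ∀ g, Commute (altG (gen M s) (gen M t) (M s t) ^ 2) g := by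
      rw [sqd _ _ _ hb]
      intro g
      by_cases hme : Even (M s t)
      · obtain ⟨n, hn⟩ := hme
        have hk : k0 (M s t) = n := by
          unfold k0
          rw [if_pos ⟨n, hn⟩, hn]
          omega
        have h7 := central_k0 M h0 hc hst g
        rw [hk] at h7
        rw [hn, pow_add]
        exact h7.mul_left h7
      · have hk : k0 (M s t) = M s t := by
          unfold k0
          rw [if_neg hme]
        have h7 := central_k0 M h0 hc hst g
        rwa [hk] at h7
    have e : y ^ 2 = (altG (gen M s) (gen M t) (M s t) ^ 2) ^ l := by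
      rw [h, conj_pow, ← zpow_natCast, ← zpow_mul, mul_comm l, zpow_mul, zpow_natCast]
      have h5 : Commute ((altG (gen M s) (gen M t) (M s t) ^ 2) ^ l) w := (h6 w).zpow_left l
      rw [← h5.eq, mul_inv_cancel_right]
    rw [e]
    exact (h6 h').zpow_left l

/-- for an odd label any two homomorphisms to `ℤ` are proportional -/
theorem odd_hom (hm : ¬ Even (M s t)) (f g : Art M →* Multiplicative ℤ) (x y : Art M) :
    (f x).toAdd * (g y).toAdd = (f y).toAdd * (g x).toAdd := by
  have hb := braid M hst (h0 s t)
  have h1 : ∀ f : Art M →* Multiplicative ℤ, f (gen M s) = f (gen M t) := by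
    intro f
    obtain ⟨n, hn⟩ := Nat.not_even_iff_odd.1 hm
    have h2 := congrArg f hb
    rw [hn, two_mul, map_altG, map_altG, altG_odd, altG_odd, mul_comm (f (gen M t)) (f (gen M s))]
      at h2
    exact mul_left_cancel h2
  have h2 : ∀ f : Art M →* Multiplicative ℤ, ∀ x, (f x).toAdd =
      (f (gen M s)).toAdd * (esum M x).toAdd := by
    intro f x
    have hx := mem_pr_all M hc hst x
    unfold pr at hx
    refine Subgroup.closure_induction (p := fun x _ => (f x).toAdd =
      (f (gen M s)).toAdd * (esum M x).toAdd) ?_ ?_ ?_ ?_ hx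
    · intro w hw
      rcases hw with rfl | hw
      · rw [esum_gen]; simp
      · rw [Set.mem_singleton_iff] at hw
        rw [hw, esum_gen, h1 f]; simp
    · simp
    · intro a b _ _ ha hb
      rw [map_mul f a b, map_mul (esum M) a b, toAdd_mul, toAdd_mul, ha, hb]; ring
    · intro a _ ha
      rw [map_inv f a, map_inv (esum M) a, toAdd_inv, toAdd_inv, ha]; ring
  rw [h2 f x, h2 f y, h2 g x, h2 g y]
  ring

/-- for an even label there are two homomorphisms to `ℤ` which are not proportional -/
theorem even_hom (hm : Even (M s t)) : ∃ (f g : Art M →* Multiplicative ℤ) (x y : Art M),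
    (f x).toAdd * (g y).toAdd ≠ (f y).toAdd * (g x).toAdd := by
  classical
  have hl : ∀ (φ : S → Multiplicative ℤ) (a b : S) (n : ℕ),
      FreeGroup.lift φ (alt a b n) = altG (φ a) (φ b) n := by
    intro φ a b n
    induction n generalizing a b with
    | zero => simp [alt, altG]
    | succ n ih => rw [alt, altG, map_mul, ih, FreeGroup.lift_apply_of]
  have hr : ∀ φ : S → Multiplicative ℤ, ∀ r ∈ braidRels M, FreeGroup.lift φ r = 1 := by
    rintro φ r ⟨a, b, hab, -, rfl⟩
    have h1 : M a b = M s t := by
      rcases two_el hc hst a with rfl | rfl <;> rcases two_el hc hst b with rfl | rfl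
      · exact absurd rfl hab
      · rfl
      · exact M.symmetric _ _
      · exact absurd rfl hab
    obtain ⟨n, hn⟩ := hm
    rw [h1, hn, map_mul, map_inv, hl, hl, altG_two_mul, altG_two_mul, mul_comm (φ b),
      mul_inv_cancel]
  refine ⟨PresentedGroup.toGroup (hr (fun a => if a = t then Multiplicative.ofAdd 1 else 1)),
    esum M, gen M s, gen M t, ?_⟩
  have h1 : PresentedGroup.toGroup (hr (fun a => if a = t then Multiplicative.ofAdd 1 else 1))
      (gen M s) = 1 := by
    refine (PresentedGroup.toGroup.of _).trans ?_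
    rw [if_neg hst]
  have h2 : PresentedGroup.toGroup (hr (fun a => if a = t then Multiplicative.ofAdd 1 else 1))
      (gen M t) = Multiplicative.ofAdd 1 := by
    refine (PresentedGroup.toGroup.of _).trans ?_
    rw [if_pos rfl]
  rw [h1, h2, esum_gen, esum_gen]
  simp

/-- the group is abelian for the label `2` -/
theorem comm2 (hm : M s t = 2) (x y : Art M) : x * y = y * x := by
  have hb := braid M hst (h0 s t)
  rw [hm] at hb
  simp only [altG, mul_one] at hb
  have h1 : ∀ x, Commute (gen M s) x := by
    intro x
    exact central_of M hc hst rfl hb x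
  have h2 : ∀ x, Commute (gen M t) x := by
    intro x
    exact central_of M hc hst hb.symm rfl x
  exact central_of M hc hst (h1 x).symm (h2 x).symm y

theorem ncomm3 (h3 : Stmt_DNCM) (hm : 3 ≤ M s t) : ¬ ∀ x y : Art M, x * y = y * x := by
  intro h
  have := h3 S M h0 s t hst hm 1 (h _ _)
  norm_num at this

end A

end K3x

open K3x in
theorem stmt_K3 (h1 : Stmt_DCPC) (h3 : Stmt_DNCM) (h4 : Stmt_DSLG) : Stmt_K3 := by
  rintro S S' _ _ M M' h0 h0' hc hc' ⟨e⟩ s t s' t' hst hst'
  have g1 : 2 ≤ M s t := by
    have := h0 s t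
    have := M.off_diagonal s t hst
    omega
  have g2 : 2 ≤ M' s' t' := by
    have := h0' s' t'
    have := M'.off_diagonal s' t' hst'
    omega
  by_cases e1 : M s t = 2
  · by_cases e2 : M' s' t' = 2
    · rw [e1, e2]
    · exfalso
      apply ncomm3 M' h0' hc' hst' h3 (by omega)
      intro x y
      have := comm2 M h0 hc hst e1 (e.symm x) (e.symm y)
      rw [← map_mul, ← map_mul] at this
      exact e.symm.injective this
  by_cases e2 : M' s' t' = 2
  · exfalso
    apply ncomm3 M h0 hc hst h3 (by omega)
    intro x y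
    have := comm2 M' h0' hc' hst' e2 (e x) (e y)
    rw [← map_mul, ← map_mul] at this
    exact e.injective this
  have m1 : 3 ≤ M s t := by omega
  have m2 : 3 ≤ M' s' t' := by omega
  -- the orders modulo the centre
  have c1 := greatest M h0 hc hst h1 h4 m1
  have c2 := greatest M' h0' hc' hst' h1 h4 m2
  have c3 : {K | ∃ y : Art M, LeastE y K} = {K | ∃ y : Art M', LeastE y K} := by
    ext K
    constructor
    · rintro ⟨y, hy⟩
      exact ⟨e y, hy.map e⟩
    · rintro ⟨y, hy⟩
      exact ⟨e.symm y, hy.map e.symm⟩
  rw [c3] at c1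
  have c4 : k0 (M s t) = k0 (M' s' t') := c1.unique c2
  -- parity
  have p1 : Even (M s t) → Even (M' s' t') := by
    intro hE
    by_contra hO
    obtain ⟨f, g, x, y, hne⟩ := even_hom M h0 hc hst hE
    apply hne
    have := odd_hom M' h0' hc' hst' hO (f.comp e.symm.toMonoidHom) (g.comp e.symm.toMonoidHom)
      (e x) (e y)
    simpa using this
  have p2 : Even (M' s' t') → Even (M s t) := by
    intro hE
    by_contra hO
    obtain ⟨f, g, x, y, hne⟩ := even_hom M' h0' hc' hst' hE
    apply hne
    have := odd_hom M h0 hc hst hO (f.comp e.toMonoidHom) (g.comp e.toMonoidHom)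
      (e.symm x) (e.symm y)
    simpa using this
  by_cases hE : Even (M s t)
  · have hE' := p1 hE
    unfold k0 at c4
    rw [if_pos hE, if_pos hE'] at c4
    obtain ⟨a, ha⟩ := hE
    obtain ⟨b, hb⟩ := hE'
    omega
  · have hE' : ¬ Even (M' s' t') := fun h => hE (p2 h)
    unfold k0 at c4
    rw [if_neg hE, if_neg hE'] at c4
    exact c4

end Pool.HA
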