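import Pool.Agent.Work.MP_7084a3_h91.InterfaceX
import Pool.Agent.Work.MP_7084a3_h91.Basic

set_option autoImplicit false

/-! Block LP0. -/

namespace Pool.HA

namespace lp0

theorem periodic {V : Type} (ω : List (Stp V)) (hne : ω ≠ []) (hch : ω.IsChain Cmp)
    (hcl : ∀ s ∈ ω.getLast?, ∀ t ∈ ω.head?, Cmp s t) :
    ∃ f : ℕ → Stp V, (∀ i, f i ∈ ω) ∧ (∀ i, f (i + ω.length) = f i) ∧
      (∀ i, Cmp (f i) (f (i + 1))) ∧
      ∀ F : Stp V → ℝ, (ω.map F).sum = ∑ i ∈ Finset.range ω.length, F (f i) := by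
  have hL : 0 < ω.length := List.length_pos_iff.2 hne
  refine ⟨fun i => ω[i % ω.length]'(Nat.mod_lt _ hL), fun i => List.getElem_mem _, fun i => ?_,
    fun i => ?_, fun F => ?_⟩
  · simp [Nat.add_mod_right]
  · have hi : i % ω.length < ω.length := Nat.mod_lt _ hL
    have e : (i + 1) % ω.length = (i % ω.length + 1) % ω.length := by
      conv_lhs => rw [← Nat.div_add_mod i ω.length, add_assoc, Nat.mul_add_mod]
    by_cases h : i % ω.length + 1 < ω.length
    · rw [Nat.mod_eq_of_lt h] at e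
      simp only [e]
      exact List.isChain_iff_getElem.1 hch _ h
    · have h2 : i % ω.length + 1 = ω.length := by omega
      rw [h2, Nat.mod_self] at e
      simp only [e]
      apply hcl
      · rw [List.getLast?_eq_getElem?, List.getElem?_eq_getElem (by omega)]
        have : i % ω.length = ω.length - 1 := by omega
        simp only [this]
        rfl
      · rw [List.head?_eq_getElem?, List.getElem?_eq_getElem (by omega)]
        rfl
  · calc (ω.map F).sum
        = (List.ofFn (fun i : Fin ω.length => F (ω[(i : ℕ) % ω.length]'(Nat.mod_lt _ hL)))).sum := by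
          congr 1
          apply List.ext_getElem
          · simp
          · intro i h1 h2
            simp at h1
            simp [Nat.mod_eq_of_lt h1]
      _ = ∑ i : Fin ω.length, F (ω[(i : ℕ) % ω.length]'(Nat.mod_lt _ hL)) := List.sum_ofFn
      _ = _ := (Finset.sum_range (fun i => F (ω[i % ω.length]'(Nat.mod_lt _ hL)))).symm

theorem sum_shift (G : ℕ → ℝ) (L : ℕ) (hG : ∀ i, G (i + L) = G i) :
    ∑ i ∈ Finset.range L, G (i + 1) = ∑ i ∈ Finset.range L, G i := by
  have h1 := Finset.sum_range_succ' G L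
  have h2 := Finset.sum_range_succ G L
  have h3 := hG 0
  rw [zero_add] at h3
  linarith

theorem sum_pairs (G : ℕ → ℝ) (n : ℕ) :
    ∑ i ∈ Finset.range (2 * n), G i = ∑ i ∈ Finset.range n, (G (2 * i) + G (2 * i + 1)) := by
  induction n with
  | zero => simp
  | succ n ih =>
    rw [Finset.sum_range_succ, ← ih, show 2 * (n + 1) = 2 * n + 1 + 1 by ring,
      Finset.sum_range_succ, Finset.sum_range_succ]
    ring

end lp0

open lp0 in
theorem stmt_LP0 (hE : Stmt_EST0) : Stmt_LP0 := by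
  intro S _ M hM ε hε v ω hv hne hP hcl
  obtain ⟨x, hx⟩ := v.exists_mem
  obtain ⟨f, f1, f2, f3, f4⟩ := periodic ω hne hP.2 hcl
  set L := ω.length with hLdef
  have hL : 0 < L := List.length_pos_iff.2 hne
  have hT : ∀ i, TStp Vtx.ad v (f i) := fun i => hP.1 _ (f1 i)
  obtain ⟨A, hA⟩ : ∃ A : ℕ → Vtx (gen M), A = fun i => (f i).a := ⟨_, rfl⟩
  have hAb : ∀ i, (f i).b = A (i + 1) := fun i => by rw [hA]; exact (f3 i).1
  have hAa : ∀ i, (f i).a = A i := fun i => by rw [hA]
  have hAL : ∀ i, A (i + L) = A i := fun i => by simp only [hA, f2]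
  have hvA : ∀ i, v.ad (A i) := fun i => by rw [← hAa]; exact (hT i).2.1
  have hAA : ∀ i, (A i).ad (A (i + 1)) := fun i => by rw [← hAa, ← hAb]; exact (hT i).2.2.2
  have hA2 : ∀ i, A i ≠ A (i + 2) := fun i => by
    have := (f3 i).2 (hT i).1 (hT (i + 1)).1
    rw [hAa, hAb] at this
    exact this
  have hty : ∀ i, (A i).ty = 1 ∨ (A i).ty = 2 := fun i => by
    have h1 := Vtx.ad_ty_ne (hvA i)
    have h2 := (A i).ty_le
    omega
  have hmem : ∀ i, (A i).mem x := fun i => by
    apply Vtx.ad_mem (hvA i) _ hx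
    rcases hty i with h | h <;> omega
  -- the weights
  obtain ⟨G, hG⟩ : ∃ G : ℕ → ℝ, G = fun j => ang M ε v (A j) (A (j + 1)) := ⟨_, rfl⟩
  have hGL : ∀ j, G (j + L) = G j := fun j => by
    have e : j + L + 1 = (j + 1) + L := by ring
    simp only [hG, e, hAL]
  have hw : wts (ang M ε) v ω = ∑ i ∈ Finset.range L, G i := by
    rw [wts, f4]
    refine Finset.sum_congr rfl fun i _ => ?_
    rw [wt, if_pos (hT i).1, hAa, hAb, hG]
  -- shift so that the first vertex has type 1
  obtain ⟨d, hd, hw2⟩ : ∃ d : ℕ, (A d).ty = 1 ∧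
      ∑ i ∈ Finset.range L, G i = ∑ i ∈ Finset.range L, G (i + d) := by
    rcases hty 0 with h | h
    · exact ⟨0, h, by simp⟩
    · refine ⟨1, ?_, (sum_shift G L hGL).symm⟩
      have h1 := Vtx.ad_ty_ne (hAA 0)
      rw [zero_add] at h1
      have h2 := hty 1
      omega
  obtain ⟨B, hB⟩ : ∃ B : ℕ → Vtx (gen M), B = fun i => A (i + d) := ⟨_, rfl⟩
  have hBL : ∀ i, B (i + L) = B i := fun i => by
    have e : i + L + d = (i + d) + L := by ring
    simp only [hB, e, hAL]
  have hBB : ∀ i, (B i).ad (B (i + 1)) := fun i => by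
    have e : i + 1 + d = (i + d) + 1 := by ring
    simp only [hB, e]; exact hAA _
  have hB2 : ∀ i, B i ≠ B (i + 2) := fun i => by
    have e : i + 2 + d = (i + d) + 2 := by ring
    simp only [hB, e]; exact hA2 _
  have hBty : ∀ i, (B i).ty = 1 ∨ (B i).ty = 2 := fun i => by rw [hB]; exact hty _
  have hBmem : ∀ i, (B i).mem x := fun i => by rw [hB]; exact hmem _
  have hB0 : (B 0).ty = 1 := by rw [hB]; simpa using hd
  have hodd : ∀ i, (B (2 * i)).ty = 1 ∧ (B (2 * i + 1)).ty = 2 := by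
    intro i
    induction i with
    | zero =>
      refine ⟨by simpa using hB0, ?_⟩
      have h1 := Vtx.ad_ty_ne (hBB 0)
      have h2 := hBty (0 + 1)
      simp only [Nat.mul_zero] at *
      omega
    | succ i ih =>
      have h1 := Vtx.ad_ty_ne (hBB (2 * i + 1))
      have h2 := hBty (2 * i + 1 + 1)
      have h3 := Vtx.ad_ty_ne (hBB (2 * i + 1 + 1))
      have h4 := hBty (2 * i + 1 + 1 + 1)
      have e : 2 * (i + 1) = 2 * i + 1 + 1 := by ring
      rw [e]
      omega
  obtain ⟨n, hn⟩ : ∃ n, L = 2 * n := by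
    rcases Nat.even_or_odd' L with ⟨n, h | h⟩
    · exact ⟨n, h⟩
    · exfalso
      have h1 := hBL 0
      rw [zero_add, h] at h1
      have h2 := (hodd n).2
      rw [h1, hB0] at h2
      omega
  have hn0 : 0 < n := by omega
  choose s hs using fun i => Vtx.J1 (hodd i).1
  have hs1 : ∀ i, s i ≠ s (i + 1) := by
    intro i he
    apply hB2 (2 * i)
    have e : 2 * i + 2 = 2 * (i + 1) := by ring
    rw [e]
    exact Vtx.ext_mem (by rw [hs, hs, he]) (hBmem _) (hBmem _)
  have hJ : ∀ i, (B (2 * i + 1)).J = {s i, s (i + 1)} := by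
    intro i
    have h1 := Vtx.ad_ss (hBB (2 * i)) (by rw [(hodd i).1, (hodd i).2]; norm_num)
    have h2 := Vtx.ad_ss (Vtx.ad_symm (hBB (2 * i + 1))) (by
      have e : 2 * i + 1 + 1 = 2 * (i + 1) := by ring
      rw [e, (hodd (i + 1)).1, (hodd i).2]; norm_num)
    rw [hs] at h1
    have e : 2 * i + 1 + 1 = 2 * (i + 1) := by ring
    rw [e, hs] at h2
    symm
    apply Finset.eq_of_subset_of_card_le
    · intro a ha
      rcases Finset.mem_insert.1 ha with h | h
      · rw [h]; exact h1.subset (Finset.mem_singleton_self _)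
      · rw [Finset.mem_singleton.1 h]; exact h2.subset (Finset.mem_singleton_self _)
    · have h3 : (B (2 * i + 1)).J.card = 2 := (hodd i).2
      rw [h3, Finset.card_pair (hs1 i)]
  have hs2 : ∀ i, s i ≠ s (i + 2) := by
    intro i he
    apply hB2 (2 * i + 1)
    have e : 2 * i + 1 + 2 = 2 * (i + 1) + 1 := by ring
    rw [e]
    refine Vtx.ext_mem ?_ (hBmem _) (hBmem _)
    rw [hJ, hJ, show i + 1 + 1 = i + 2 by ring, ← he, Finset.pair_comm]
  have hsn : ∀ i, s (i + n) = s i := by
    intro i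
    have h1 := hBL (2 * i)
    have e : 2 * i + L = 2 * (i + n) := by rw [hn]; ring
    rw [e] at h1
    have h2 := hs (i + n)
    rw [h1, hs] at h2
    exact (Finset.singleton_injective h2).symm
  have hang : ∀ (a b : Vtx (gen M)) (i : ℕ), v.J ∪ a.J ∪ b.J = {s i, s (i + 1)} →
      ang M ε v a b = 1 / 2 - 1 / (2 * (M (s i) (s (i + 1)) : ℝ)) - ε := by
    intro a b i h
    rw [ang, if_pos hv, h, lb_pair (hs1 i) (hM.ne_zero _ _)]
  have hvJ : v.J = ∅ := Vtx.J0 hv
  have hfin := hE S M hM ε hε n s hn0 hsn hs1 hs2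
  rw [hw, hw2, hn, sum_pairs (fun i => G (i + d))]
  refine hfin.trans (le_of_eq (Finset.sum_congr rfl fun i _ => ?_))
  have g1 : G (2 * i + d) = 1 / 2 - 1 / (2 * (M (s i) (s (i + 1)) : ℝ)) - ε := by
    have e1 : A (2 * i + d) = B (2 * i) := by rw [hB]
    have e2 : A (2 * i + d + 1) = B (2 * i + 1) := by
      rw [hB]; simp only; congr 1; ring
    simp only [hG, e1, e2]
    apply hang
    rw [hvJ, hs, hJ]
    ext a; simp
  have g2 : G (2 * i + 1 + d) = 1 / 2 - 1 / (2 * (M (s i) (s (i + 1)) : ℝ)) - ε := by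
    have e1 : A (2 * i + 1 + d) = B (2 * i + 1) := by rw [hB]
    have e2 : A (2 * i + 1 + d + 1) = B (2 * (i + 1)) := by
      rw [hB]; simp only; congr 1; ring
    simp only [hG, e1, e2]
    apply hang
    rw [hvJ, hs, hJ]
    ext a; simp
  change _ = G (2 * i + d) + G (2 * i + 1 + d)
  rw [g1, g2]
  have hm : (M (s i) (s (i + 1)) : ℝ) ≠ 0 := by exact_mod_cast hM.ne_zero _ _
  field_simp
  ring

end Pool.HA
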