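import Pool.Agent.Work.MP_7084a3_h91.InterfaceX
import Pool.Agent.Work.MP_7084a3_h91.Basic

set_option autoImplicit false

namespace Pool.HA

theorem stmt_LP1 : Stmt_LP1 := by
  intro S _ M ε v ω hv hne hL hcl
  obtain ⟨hT, hch⟩ := hL
  have hty : ∀ s ∈ ω, s.a.ty + s.b.ty = 2 ∧ s.a.ty ≠ s.b.ty := by
    intro s hs
    obtain ⟨-, h1, h2, h3⟩ := hT s hs
    have a1 := Vtx.ad_ty_ne h1
    have a2 := Vtx.ad_ty_ne h2
    have a3 := Vtx.ad_ty_ne h3
    have b1 := s.a.ty_le
    have b2 := s.b.ty_le
    omega
  have hw : wts (ang M ε) v ω = ω.length * (1 / 2) := by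
    unfold wts
    have : ω.map (wt (ang M ε) v) = ω.map (fun _ => (1 / 2 : ℝ)) := by
      apply List.map_congr_left
      intro s hs
      have hk := (hT s hs).1
      unfold wt
      rw [if_pos hk]
      unfold ang
      rw [if_neg (by omega), if_pos hv]
    rw [this]
    simp
  have hlen : 4 ≤ ω.length := by
    match ω, hne with
    | [s], _ =>
      exfalso
      have h1 := hcl s (by simp) s (by simp)
      have h2 := hty s (by simp)
      exact h2.2 (by rw [h1.1])
    | [s, t], _ =>
      exfalso
      have h1 := hcl t (by simp) s (by simp)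
      have h2 : Cmp s t := by
        rw [List.isChain_cons_cons] at hch
        exact hch.1
      exact h2.2 (hT s (by simp)).1 (hT t (by simp)).1 h1.1.symm
    | [s, t, u], _ =>
      exfalso
      have h1 := hcl u (by simp) s (by simp)
      have h2 : Cmp s t ∧ Cmp t u := by
        rw [List.isChain_cons_cons, List.isChain_cons_cons] at hch
        exact ⟨hch.1, hch.2.1⟩
      have c1 := hty s (by simp)
      have c2 := hty t (by simp)
      have c3 := hty u (by simp)
      have d1 : s.b.ty = t.a.ty := by rw [h2.1.1]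
      have d2 : t.b.ty = u.a.ty := by rw [h2.2.1]
      have d3 : u.b.ty = s.a.ty := by rw [h1.1]
      omega
    | s :: t :: u :: w :: rest, _ => simp
  rw [hw]
  have : (4 : ℝ) ≤ ω.length := by exact_mod_cast hlen
  linarith

end Pool.HA
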