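import Pool.Agent.Work.MP_7084a3_h91.InterfaceX
import Pool.Agent.Work.MP_7084a3_h91.InterfaceD
import Pool.Agent.Work.MP_7084a3_h91.Basic

set_option autoImplicit false

namespace Pool.HA

namespace LP2

theorem altP_append {G : Type} [Group G] (l : List ℤ) (e : ℤ) : ∀ x y : G,
    altP x y (l ++ [e]) = altP x y l * (if Even l.length then x else y) ^ e := by
  induction l with
  | nil => intro x y; simp [altP]
  | cons a l ih =>
    intro x y
    simp only [List.cons_append, altP, ih, List.length_cons, Nat.even_add_one]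
    by_cases h : Even l.length
    · simp [h, mul_assoc]
    · simp [h, mul_assoc]

variable {S : Type} [DecidableEq S] {M : CoxeterMatrix S}

/-- the main case: the path starts at a type 1 vertex -/
theorem main (h1 : Stmt_LK2) (h2 : Stmt_DSLG) (hM : HypType M) (ε : ℝ)
    (v : Vtx (gen M)) (s₀ : Stp (Vtx (gen M))) (ω' : List (Stp (Vtx (gen M)))) (hv : v.ty = 2)
    (hL : LPath Vtx.ad v (s₀ :: ω'))
    (hC : ∀ s ∈ (s₀ :: ω').getLast?, Cmp s s₀) (h01 : s₀.a.ty = 1) :
    2 ≤ wts (ang M ε) v (s₀ :: ω') := by
  have hT0 := hL.1 s₀ (by simp)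
  obtain ⟨a, ha⟩ := Vtx.J1 h01
  obtain ⟨p, q, hpq, hJ⟩ := Vtx.J2 hv
  -- the other label
  have hss : s₀.a.J ⊂ v.J := by
    have := Vtx.ad_ss (Vtx.ad_symm hT0.2.1) (by omega)
    exact this
  have hav : a ∈ v.J := by
    apply hss.subset
    rw [ha]; simp
  obtain ⟨b, hab, hJ'⟩ : ∃ b, a ≠ b ∧ v.J = {a, b} := by
    rw [hJ] at hav
    simp only [Finset.mem_insert, Finset.mem_singleton] at hav
    rcases hav with rfl | rfl
    · exact ⟨q, hpq, hJ⟩
    · exact ⟨p, hpq.symm, by rw [hJ, Finset.pair_comm]⟩
  obtain ⟨z, hz⟩ : ∃ z, (s₀ :: ω').getLast? = some z := ⟨_, List.getLast?_eq_some_getLast (by simp)⟩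
  have hCz := hC z (by rw [hz]; rfl)
  obtain ⟨k, y, l, hlk, hl0, hh, hg, hw⟩ := h1 S M hM ε v a b hab hJ' (s₀ :: ω') (by simp) hL
    (by intro s hs; simp only [List.head?_cons, Option.mem_some_iff] at hs; subst hs; exact ha)
    (by intro s hs; rw [hz] at hs; simp only [Option.mem_some_iff] at hs; subst hs
        rw [hCz.1]; exact h01)
  obtain ⟨hb0, hby, hay⟩ := hh s₀ (by simp)
  obtain ⟨hza0, hzay, hzby, hzJ⟩ := hg z (by rw [hz]; rfl)
  have hkodd : ¬ Even k := by
    intro hk
    rw [if_pos hk, hCz.1, ha] at hzJ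
    exact hab (Finset.singleton_injective hzJ)
  have hTz := hL.1 z (List.mem_of_getLast? hz)
  rw [hCz.1] at hzby
  rw [Vtx.mem1 ha hay] at hzby
  obtain ⟨e, he⟩ := hzby
  have he' : altP (gen M b) (gen M a) l = gen M a ^ e := mul_left_cancel he
  have hene : e ≠ 0 := by
    intro h0
    rw [h0, zpow_zero] at he'
    rw [he', mul_one] at hzay
    apply hCz.2 hTz.1 hT0.1
    exact Vtx.ext_mem (by rw [Vtx.J0 hza0, Vtx.J0 hb0]) hzay hby
  have key := h2 S M hM.ne_zero b a hab.symm (l ++ [-e]) (by simp)
    (by intro c hc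
        simp only [List.mem_append, List.mem_singleton] at hc
        rcases hc with hc | rfl
        · exact hl0 c hc
        · simpa using hene)
    (by simp only [List.length_append, List.length_singleton, hlk, Nat.even_add_one]
        exact hkodd)
    (by rw [altP_append, hlk, if_neg hkodd, he']; group)
  rw [hw]
  simp only [List.length_append, List.length_singleton, hlk] at key
  rw [M.symmetric] at key
  have hpos : 0 < (M a b : ℝ) := by
    have := hM.two_le hab
    positivity
  rw [le_div_iff₀ hpos]
  exact_mod_cast key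

end LP2

theorem stmt_LP2 (h1 : Stmt_LK2) (h2 : Stmt_DSLG) : Stmt_LP2 := by
  intro S _ M hM ε v ω hv hne hL hC
  obtain ⟨s₀, ω', rfl⟩ := List.exists_cons_of_ne_nil hne
  have hT0 := hL.1 s₀ (by simp)
  have hC' : ∀ s ∈ (s₀ :: ω').getLast?, Cmp s s₀ := fun s hs => hC s hs s₀ (by simp)
  rcases Vtx.flag_ty hT0.2.1 hT0.2.2.2 hT0.2.2.1 with h | h | h | h | h | h
  · omega
  · omega
  · omega
  · omega
  · -- `s₀.a` has type 0
    cases ω' with
    | nil =>
      have := (hC' s₀ (by simp)).1
      exact absurd this.symm (Vtx.ad_ne hT0.2.2.2)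
    | cons s₁ ω'' =>
      have hch := hL.2
      rw [List.isChain_cons_cons] at hch
      have hrot : wts (ang M ε) v (s₀ :: s₁ :: ω'') = wts (ang M ε) v (s₁ :: (ω'' ++ [s₀])) := by
        simp only [wts, List.map_cons, List.sum_cons, List.map_append, List.sum_append,
          List.map_nil, List.sum_nil]
        ring
      rw [hrot]
      apply LP2.main h1 h2 hM ε v s₁ (ω'' ++ [s₀]) hv
      · refine ⟨?_, ?_⟩
        · intro s hs
          apply hL.1
          simp only [List.mem_cons, List.mem_append, List.not_mem_nil, or_false] at hs ⊢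
          tauto
        · have : (s₁ :: ω'' ++ [s₀]).IsChain Cmp := by
            rw [List.isChain_append]
            refine ⟨hch.2, by simp, ?_⟩
            intro x hx y hy
            simp only [List.head?_cons, Option.mem_some_iff] at hy
            subst hy
            apply hC'
            rw [List.getLast?_cons_cons]
            exact hx
          simpa using this
      · intro s hs
        have : s = s₀ := by
          have h2 : (s₁ :: (ω'' ++ [s₀])).getLast? = some s₀ := by
            rw [← List.cons_append, List.getLast?_append]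
            simp
          rw [h2] at hs
          simpa using hs.symm
        subst this
        exact hch.1
      · rw [← hch.1.1]; exact h.2.2
  · exact LP2.main h1 h2 hM ε v s₀ ω' hv hL hC' h.2.1

end Pool.HA
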