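import Pool.Agent.Work.MP_7084a3_h91.InterfaceW

set_option autoImplicit false

namespace Pool.HA

theorem stmt_NFIN (hB : Stmt_BFI) (hP : Stmt_POS) : Stmt_NFIN := by
  intro S _ _ M ρ hM hρ
  obtain ⟨hsym, -, hst, -, hone, -⟩ := hB S M ρ hρ
  have hcs : ∀ s, M.toCoxeterSystem.simple s = M.simple s := fun s => by
    rw [CoxeterMatrix.toCoxeterSystem_simple]
  -- every root is nonnegative or nonpositive
  have hsign : ∀ v, IsRt M ρ v → (∀ t, 0 ≤ v t) ∨ ∀ t, v t ≤ 0 := by
    rintro v ⟨w, s, rfl⟩
    obtain ⟨h1, h2⟩ := hP S M ρ hM hρ w s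
    have hne := M.toCoxeterSystem.length_mul_simple_ne w s
    rw [hcs] at hne
    rcases lt_or_gt_of_ne hne with h | h
    · exact Or.inr (h2 h)
    · exact Or.inl (h1 h)
  have hss : ∀ s v, ρ (M.simple s) (ρ (M.simple s) v) = v := by
    intro s v
    have : M.simple s * M.simple s = 1 := by
      rw [← hcs]; exact M.toCoxeterSystem.simple_mul_simple_self s
    rw [← Module.End.mul_apply, ← map_mul, this, map_one, Module.End.one_apply]
  have hA : ∀ s v, IsPR M ρ v → v ≠ bs s → IsPR M ρ (ρ (M.simple s) v) := by
    rintro s v ⟨hv, h0⟩ hne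
    have hrt : IsRt M ρ (ρ (M.simple s) v) := by
      obtain ⟨w, u, rfl⟩ := hv
      exact ⟨M.simple s * w, u, by rw [map_mul, Module.End.mul_apply]⟩
    refine ⟨hrt, ?_⟩
    rcases hsign _ hrt with h | h
    · exact h
    · exfalso
      have hz : ∀ t, t ≠ s → v t = 0 := by
        intro t ht
        have h1 := h t
        rw [hρ s v] at h1
        have h2 : (v - (2 * bf M v (bs s)) • bs s) t = v t := by
          simp [bs, Pi.single_eq_of_ne ht]
        rw [h2] at h1
        exact le_antisymm h1 (h0 t)
      have hv' : v = v s • bs s := by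
        funext t
        by_cases ht : t = s
        · subst ht; simp [bs]
        · simp [bs, hz t ht, Pi.single_eq_of_ne ht]
      have h1 := hone v hv
      have h2 : bf M v v = v s * v s := by
        unfold bf
        rw [Finset.sum_eq_single s, Finset.sum_eq_single s]
        · have : M s s = 1 := M.diagonal s
          rw [this]; simp
        · intro t _ ht; rw [hz t ht]; ring
        · intro h; exact absurd (Finset.mem_univ s) h
        · intro t _ ht
          refine Finset.sum_eq_zero fun u _ => ?_
          rw [hz t ht]; ring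
        · intro h; exact absurd (Finset.mem_univ s) h
      have h3 : v s = 1 := by
        have := h0 s
        nlinarith
      rw [h3, one_smul] at hv'
      exact hne hv'
  refine ⟨hA, fun w => ?_⟩
  refine M.toCoxeterSystem.simple_induction_right
    (p := fun w => {v | IsPR M ρ v ∧ ∀ t, (ρ w v) t ≤ 0}.Finite) w ?_ ?_
  · have : {v | IsPR M ρ v ∧ ∀ t, (ρ (1 : M.Group) v) t ≤ 0} = ∅ := by
      ext v
      simp only [Set.mem_ofPred_eq, Set.mem_empty_iff_false, iff_false, map_one,
        Module.End.one_apply]
      rintro ⟨⟨hv, h0⟩, h1⟩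
      have hz : v = 0 := by
        funext t
        exact le_antisymm (h1 t) (h0 t)
      have h2 := hone v hv
      rw [hz] at h2
      simp [bf] at h2
    rw [this]; exact Set.finite_empty
  · intro w s ih
    rw [hcs]
    refine ((Set.finite_singleton (bs s)).union (ih.image (ρ (M.simple s)))).subset ?_
    rintro v ⟨hv, h1⟩
    by_cases hne : v = bs s
    · exact Or.inl hne
    · refine Or.inr ⟨ρ (M.simple s) v, ⟨hA s v hv hne, ?_⟩, hss s v⟩
      intro t
      have := h1 t
      rwa [map_mul, Module.End.mul_apply] at this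

end Pool.HA
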