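import Pool.Agent.Work.MP_7084a3_h91.InterfaceX
import Pool.Agent.Work.MP_7084a3_h91.Basic

set_option autoImplicit false

namespace Pool.HA

namespace NPCaux

open Filter Topology

theorem exists_eps {S : Type} [Finite S] (M : CoxeterMatrix S) (hM : HypType M) :
    ∃ ε : ℝ, EpsOK M ε := by
  have h1 : ∀ᶠ ε : ℝ in 𝓝[>] (0 : ℝ), 0 < ε := self_mem_nhdsWithin
  have h2 : ∀ᶠ ε : ℝ in 𝓝[>] (0 : ℝ), ε ≤ 1 / 24 := by
    apply nhdsWithin_le_nhds
    exact (eventually_le_nhds (by norm_num : (0 : ℝ) < 1 / 24))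
  have h3 : ∀ᶠ ε : ℝ in 𝓝[>] (0 : ℝ), ∀ s t r, s ≠ t → t ≠ r → s ≠ r →
      (1 : ℝ) / (M s t : ℝ) + 1 / (M t r : ℝ) + 1 / (M s r : ℝ) + 6 * ε ≤ 1 := by
    rw [eventually_all]; intro s
    rw [eventually_all]; intro t
    rw [eventually_all]; intro r
    by_cases hd : s ≠ t ∧ t ≠ r ∧ s ≠ r
    · obtain ⟨a, b, c⟩ := hd
      have h := hM.hyp s t r a b c
      have h' : (1 : ℝ) / (M s t : ℝ) + 1 / (M t r : ℝ) + 1 / (M s r : ℝ) < 1 := by
        have h5 := (Rat.cast_lt (K := ℝ)).2 h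
        push_cast at h5
        exact h5
      set q : ℝ := (1 : ℝ) / (M s t : ℝ) + 1 / (M t r : ℝ) + 1 / (M s r : ℝ) with hq
      have h4 : ∀ᶠ ε : ℝ in 𝓝[>] (0 : ℝ), ε ≤ (1 - q) / 6 := by
        apply nhdsWithin_le_nhds
        exact (eventually_le_nhds (by linarith : (0 : ℝ) < (1 - q) / 6))
      filter_upwards [h4] with ε hε _ _ _
      linarith
    · refine Eventually.of_forall (fun ε a b c => absurd ⟨a, b, c⟩ hd)
  obtain ⟨ε, a, b, c⟩ := (h1.and (h2.and h3)).exists
  exact ⟨ε, a, b, c⟩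

theorem lb_mono {S : Type} (M : CoxeterMatrix S) {J K : Finset S} (h : J ⊆ K) :
    lb M J ≤ lb M K :=
  Finset.sup_mono (Finset.product_subset_product h h)

end NPCaux

open NPCaux

theorem stmt_NPC (h0 : Stmt_LP0) (h1 : Stmt_LP1) (h2 : Stmt_LP2) : Stmt_NPC := by
  intro S _ _ M hM
  obtain ⟨ε, hε⟩ := exists_eps M hM
  refine ⟨ε, ?_⟩
  refine
    { pos := hε.1
      symm := fun u v h => Vtx.ad_symm h
      irr := fun u => Vtx.ad_irrefl u
      comm := ?_
      nonneg := ?_
      sum := ?_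
      loop := ?_ }
  · intro u v w
    have e : u.J ∪ v.J ∪ w.J = u.J ∪ w.J ∪ v.J := by
      rw [Finset.union_right_comm]
    unfold ang
    rw [e]
  · intro u v w huv hvw huw
    unfold ang
    split_ifs with a b
    · have hL : 2 ≤ lb M (u.J ∪ v.J ∪ w.J) := by
        have key : ∀ x : Vtx (gen M), x.ty = 2 → x.J ⊆ u.J ∪ v.J ∪ w.J →
            2 ≤ lb M (u.J ∪ v.J ∪ w.J) := by
          intro x hx hs
          obtain ⟨s, t, hst, hJ⟩ := Vtx.J2 hx
          have := lb_mono M hs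
          rw [hJ, lb_pair hst (hM.ne_zero s t)] at this
          exact (hM.two_le hst).trans this
        rcases Vtx.flag_ty huv hvw huw with h | h | h | h | h | h
        · exact key w h.2.2 (fun i hi => by simp [hi])
        · exact key v h.2.1 (fun i hi => by simp [hi])
        · exact key w h.2.2 (fun i hi => by simp [hi])
        · exact key v h.2.1 (fun i hi => by simp [hi])
        · exact key u h.1 (fun i hi => by simp [hi])
        · exact key u h.1 (fun i hi => by simp [hi])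
      have hL' : (2 : ℝ) ≤ (lb M (u.J ∪ v.J ∪ w.J) : ℝ) := by exact_mod_cast hL
      have h3 : (1 : ℝ) / (2 * (lb M (u.J ∪ v.J ∪ w.J) : ℝ)) ≤ 1 / 4 := by
        apply one_div_le_one_div_of_le <;> linarith
      have := hε.2.1
      linarith
    · norm_num
    · positivity
  · intro u v w huv hvw huw
    have e1 : v.J ∪ w.J ∪ u.J = u.J ∪ v.J ∪ w.J := by
      rw [Finset.union_comm, ← Finset.union_assoc]
    have e2 : w.J ∪ u.J ∪ v.J = u.J ∪ v.J ∪ w.J := by
      rw [Finset.union_assoc, Finset.union_comm]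
    unfold ang
    rw [e1, e2]
    rcases Vtx.flag_ty huv hvw huw with h | h | h | h | h | h <;> obtain ⟨a, b, c⟩ := h <;>
      simp only [a, b, c] <;> norm_num <;> ring
  · intro v ω hne hp hc
    have hty := v.ty_le
    rcases (by omega : v.ty = 0 ∨ v.ty = 1 ∨ v.ty = 2) with h | h | h
    · exact h0 S M hM ε hε v ω h hne hp hc
    · exact h1 S M ε v ω h hne hp hc
    · exact h2 S M hM ε v ω h hne hp hc

end Pool.HA
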