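import Pool.Agent.Work.MP_7084a3_h91.InterfaceW

set_option autoImplicit false

namespace Pool.HA

section

variable {S : Type} [Fintype S] [DecidableEq S]

theorem ORD_iter (M : CoxeterMatrix S) {ρ : M.Group →* Module.End ℝ (S → ℝ)}
    (hB : ∀ s t, bf M (bs s) (bs t) = -Real.cos (Real.pi / M s t))
    (h : IsRep M ρ) (s t : S) (θ : ℝ) (hθ : θ = Real.pi / M s t) (k : ℕ) :
    Real.sin θ • ρ ((M.simple s * M.simple t) ^ k) (bs s) =
      Real.sin ((2 * k + 1) * θ) • bs s + Real.sin (2 * k * θ) • bs t := by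
  have hss : bf M (bs s) (bs s) = 1 := by
    rw [hB, M.diagonal s]; simp
  have htt : bf M (bs t) (bs t) = 1 := by
    rw [hB, M.diagonal t]; simp
  have hst : bf M (bs s) (bs t) = -Real.cos θ := by rw [hB, hθ]
  have hts : bf M (bs t) (bs s) = -Real.cos θ := by rw [hB, hθ, M.symmetric t s]
  induction k with
  | zero =>
    rw [pow_zero, map_one]
    simp
  | succ k ih =>
    have h1 : Real.sin θ • ρ ((M.simple s * M.simple t) ^ (k + 1)) (bs s) =
        ρ (M.simple s) (ρ (M.simple t)
          (Real.sin θ • ρ ((M.simple s * M.simple t) ^ k) (bs s))) := by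
      rw [pow_succ', map_mul, map_mul, map_smul, map_smul]
      rfl
    have ht_s : ρ (M.simple t) (bs s) = bs s + (2 * Real.cos θ) • bs t := by
      rw [h t, hst]
      rw [sub_eq_add_neg, ← neg_smul]
      congr 2
      ring
    have ht_t : ρ (M.simple t) (bs t) = - bs t := by
      rw [h t, htt, mul_one, two_smul]
      abel
    have hs_s : ρ (M.simple s) (bs s) = - bs s := by
      rw [h s, hss, mul_one, two_smul]
      abel
    have hs_t : ρ (M.simple s) (bs t) = bs t + (2 * Real.cos θ) • bs s := by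
      rw [h s, hts]
      rw [sub_eq_add_neg, ← neg_smul]
      congr 2
      ring
    rw [h1, ih, map_add, map_smul, map_smul, ht_s, ht_t, map_add, map_smul, map_smul, map_add,
      map_smul, map_neg, hs_s, hs_t]
    have e1 : Real.sin ((2 * (k + 1 : ℕ) + 1) * θ) =
        2 * Real.cos θ * (2 * Real.cos θ * Real.sin ((2 * k + 1) * θ) - Real.sin (2 * k * θ)) -
          Real.sin ((2 * k + 1) * θ) := by
      have a1 : (2 * ((k + 1 : ℕ) : ℝ) + 1) * θ = (2 * k + 1) * θ + θ + θ := by push_cast; ring
      have a2 : 2 * (k : ℝ) * θ = (2 * k + 1) * θ - θ := by ring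
      rw [a1, a2, Real.sin_add, Real.sin_sub, Real.sin_add, Real.cos_add]
      have := Real.sin_sq_add_cos_sq θ
      have e : Real.sin θ ^ 2 = 1 - Real.cos θ ^ 2 := by linarith
      ring_nf
      rw [e]
      ring
    have e2 : Real.sin (2 * (k + 1 : ℕ) * θ) =
        2 * Real.cos θ * Real.sin ((2 * k + 1) * θ) - Real.sin (2 * k * θ) := by
      have a1 : 2 * ((k + 1 : ℕ) : ℝ) * θ = (2 * k + 1) * θ + θ := by push_cast; ring
      have a2 : 2 * (k : ℝ) * θ = (2 * k + 1) * θ - θ := by ring
      rw [a1, a2, Real.sin_add, Real.sin_sub]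
      ring
    rw [e1, e2]
    funext x
    simp only [Pi.add_apply, Pi.smul_apply, Pi.neg_apply, smul_eq_mul]
    ring

end

theorem stmt_ORD (hBFI : Stmt_BFI) : Stmt_ORD := by
  intro S _ _ M ρ h0 h s t
  have hB := (hBFI S M ρ h).2.2.1
  by_cases hst : s = t
  · subst hst
    rw [M.diagonal s]
    have h1 : M.simple s * M.simple s = 1 := by
      have := M.toCoxeterSystem.simple_mul_simple_self s
      rwa [CoxeterMatrix.toCoxeterSystem_simple] at this
    rw [h1, orderOf_one]
  · set m := M s t with hm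
    have hm0 : m ≠ 0 := h0 s t
    have hm1 : m ≠ 1 := M.off_diagonal s t hst
    have hm2 : 2 ≤ m := by omega
    set θ : ℝ := Real.pi / m with hθ
    have hmR : (2 : ℝ) ≤ m := by exact_mod_cast hm2
    have hθ0 : 0 < θ := by
      have := Real.pi_pos
      positivity
    have hθ1 : θ < Real.pi := by
      rw [hθ, div_lt_iff₀ (by linarith)]
      nlinarith [Real.pi_pos]
    have hsin : 0 < Real.sin θ := Real.sin_pos_of_pos_of_lt_pi hθ0 hθ1
    have hpow : (M.simple s * M.simple t) ^ m = 1 := by
      have := M.toCoxeterSystem.simple_mul_simple_pow s t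
      rwa [CoxeterMatrix.toCoxeterSystem_simple] at this
    have key : ∀ k : ℕ, (M.simple s * M.simple t) ^ k = 1 → m ∣ k := by
      intro k hk
      have h1 := ORD_iter M hB h s t θ hθ k
      rw [hk, map_one] at h1
      have h1' : Real.sin θ • bs s =
        Real.sin ((2 * k + 1) * θ) • bs s + Real.sin (2 * k * θ) • bs t := h1
      have hs := congrFun h1' s
      have ht := congrFun h1' t
      simp only [Pi.add_apply, Pi.smul_apply, smul_eq_mul, bs, Pi.single_eq_same,
        Pi.single_eq_of_ne hst, Pi.single_eq_of_ne (Ne.symm hst), mul_one, mul_zero,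
        add_zero, zero_add] at hs ht
      have e1 : (2 * (k : ℝ) + 1) * θ = 2 * k * θ + θ := by ring
      rw [e1, Real.sin_add, ← ht, zero_mul, zero_add] at hs
      have hcos : Real.cos (2 * k * θ) = 1 := by
        have : Real.sin θ * 1 = Real.sin θ * Real.cos (2 * k * θ) := by linarith
        exact (mul_left_cancel₀ hsin.ne' this).symm
      obtain ⟨n, hn⟩ := (Real.cos_eq_one_iff _).1 hcos
      have hpi := Real.pi_pos
      have h2 : (n : ℝ) * m = k := by
        have h3 : (n : ℝ) * (2 * Real.pi) * m = 2 * k * Real.pi := by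
          rw [hn, hθ]
          field_simp
        have h4 : (2 * Real.pi) * ((n : ℝ) * m) = (2 * Real.pi) * k := by linarith
        exact mul_left_cancel₀ (by positivity) h4
      have h5 : n * (m : ℤ) = (k : ℤ) := by exact_mod_cast h2
      have h6 : (m : ℤ) ∣ (k : ℤ) := ⟨n, by rw [← h5]; ring⟩
      exact_mod_cast h6
    exact Nat.dvd_antisymm (orderOf_dvd_of_pow_eq_one hpow) (key _ (pow_orderOf_eq_one _))

end Pool.HA
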