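import Pool.Agent.Work.MP_7084a3_h91.InterfaceW

set_option autoImplicit false

/-! # Block REGD: regular points of the Tits cone can be moved to the fundamental chamber -/

namespace Pool.HA

set_option linter.unusedSectionVars false

namespace REGD

variable {S : Type} [Fintype S] [DecidableEq S] {M : CoxeterMatrix S}
  {ρ : M.Group →* Module.End ℝ (S → ℝ)}

theorem bf_bs (s : S) : bf M (bs s) (bs s) = 1 := by
  simp [bf, bs, Pi.single_apply]

theorem bs_neg (hR : IsRep M ρ) (s : S) : ρ (M.simple s) (bs s) = -bs s := by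
  rw [hR, bf_bs]
  module

theorem bs_neg' (hR : IsRep M ρ) (s : S) (v : S → ℝ) :
    ρ (M.simple s) (ρ (M.simple s) v) = v := by
  have h : M.simple s * M.simple s = 1 := M.toCoxeterSystem.simple_mul_simple_self s
  rw [← Module.End.mul_apply, ← map_mul, h, map_one]
  rfl

end REGD

theorem stmt_REGD (h1 : Stmt_NFIN) (_h2 : Stmt_POS) : Stmt_REGD := by
  intro S _ _ M ρ hM hR
  have hN := (h1 S M ρ hM hR).1
  suffices H : ∀ n : ℕ, ∀ x ∈ UC M ρ, (∀ v, IsRt M ρ v → x v ≠ 0) →
      {v | IsPR M ρ v ∧ x v ≤ 0}.ncard = n → ∃ w, ∀ s, 0 < x (ρ w (bs s)) by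
    intro x hx hreg
    exact H _ x hx hreg rfl
  intro n
  induction n using Nat.strong_induction_on with
  | _ n ih =>
    intro x hx hreg hn
    have hroot : ∀ s, IsRt M ρ (bs s) := fun s => ⟨1, s, by simp⟩
    have hbs0 : ∀ s t : S, 0 ≤ (bs s : S → ℝ) t := by
      intro s t
      simp only [bs, Pi.single_apply]
      split_ifs <;> norm_num
    by_cases hall : ∀ s, 0 < x (bs s)
    · exact ⟨1, fun s => by simpa using hall s⟩
    · push Not at hall
      obtain ⟨s, hs⟩ := hall
      have hs' : x (bs s) < 0 := lt_of_le_of_ne hs (hreg _ (hroot s))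
      have hfin : {v | IsPR M ρ v ∧ x v ≤ 0}.Finite := hx
      set A := {v | IsPR M ρ v ∧ x v ≤ 0} with hA
      set B := {v | IsPR M ρ v ∧ (x ∘ₗ ρ (M.simple s)) v ≤ 0} with hB
      have hinj : Function.Injective (fun v : S → ℝ => ρ (M.simple s) v) := by
        intro u v h
        have := congrArg (fun z => ρ (M.simple s) z) h
        simpa only [REGD.bs_neg' hR] using this
      have hsub : (fun v : S → ℝ => ρ (M.simple s) v) '' B ⊆ A \ {bs s} := by
        rintro _ ⟨v, ⟨hv1, hv2⟩, rfl⟩
        have hv3 : v ≠ bs s := by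
          rintro rfl
          rw [LinearMap.comp_apply, REGD.bs_neg hR, map_neg] at hv2
          linarith
        refine ⟨⟨hN s v hv1 hv3, hv2⟩, ?_⟩
        intro h
        rw [Set.mem_singleton_iff] at h
        have h3 : v = -bs s := by
          have := congrArg (fun z => ρ (M.simple s) z) h
          simpa only [REGD.bs_neg' hR, REGD.bs_neg hR] using this
        have h4 := hv1.2 s
        rw [h3] at h4
        simp [bs] at h4
        linarith
      have hmem : bs s ∈ A := ⟨⟨hroot s, hbs0 s⟩, hs⟩
      have hBfin : B.Finite := by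
        have h5 : ((fun v : S → ℝ => ρ (M.simple s) v) '' B).Finite :=
          hfin.subset (hsub.trans Set.sdiff_subset)
        exact h5.of_finite_image hinj.injOn
      have hlt : B.ncard < n := by
        rw [← hn]
        calc B.ncard = ((fun v : S → ℝ => ρ (M.simple s) v) '' B).ncard :=
              (Set.ncard_image_of_injective B hinj).symm
          _ ≤ (A \ {bs s}).ncard := Set.ncard_le_ncard hsub (hfin.subset Set.sdiff_subset)
          _ < A.ncard := Set.ncard_sdiff_singleton_lt_of_mem hmem hfin
      obtain ⟨w, hw⟩ := ih _ hlt (x ∘ₗ ρ (M.simple s)) hBfin (fun v hv => by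
        obtain ⟨w, t, rfl⟩ := hv
        rw [LinearMap.comp_apply]
        exact hreg _ ⟨M.simple s * w, t, by simp [map_mul]⟩) rfl
      refine ⟨M.simple s * w, fun t => ?_⟩
      have := hw t
      rw [LinearMap.comp_apply] at this
      rw [map_mul, Module.End.mul_apply]
      exact this

end Pool.HA
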