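import Pool.Agent.Work.MP_7084a3_h91.InterfaceK

set_option autoImplicit false

/-! # Block REL: relabelling gives an isomorphism -/

namespace Pool.HA

theorem rel_alt {S S' : Type} (e : S ≃ S') (m : ℕ) : ∀ s t : S,
    FreeGroup.freeGroupCongr e (alt s t m) = alt (e s) (e t) m := by
  induction m with
  | zero => intro s t; simp [alt]
  | succ m ih => intro s t; rw [alt, map_mul, ih, alt]; simp

theorem rel_braid {S S' : Type} (M : CoxeterMatrix S) (M' : CoxeterMatrix S') (e : S ≃ S')
    (h : ∀ s t, M' (e s) (e t) = M s t) :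
    FreeGroup.freeGroupCongr e '' braidRels M = braidRels M' := by
  ext r
  constructor
  · rintro ⟨_, ⟨s, t, hst, hm, rfl⟩, rfl⟩
    refine ⟨e s, e t, fun hh => hst (e.injective hh), by rw [h]; exact hm, ?_⟩
    rw [map_mul, map_inv, rel_alt, rel_alt, h]
  · rintro ⟨s, t, hst, hm, rfl⟩
    obtain ⟨s, rfl⟩ := e.surjective s
    obtain ⟨t, rfl⟩ := e.surjective t
    rw [h] at hm ⊢
    refine ⟨_, ⟨s, t, fun hh => hst (by rw [hh]), hm, rfl⟩, ?_⟩
    rw [map_mul, map_inv, rel_alt, rel_alt]

theorem stmt_REL : Stmt_REL := by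
  intro S S' M M' e h
  have h1 := PresentedGroup.equivPresentedGroup (braidRels M) e
  rw [rel_braid M M' e h] at h1
  exact ⟨h1⟩

end Pool.HA
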