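import Pool.Agent.Work.MP_7084a3_h91.InterfaceW

set_option autoImplicit false
set_option linter.unusedSectionVars false

namespace Pool.HA

namespace SG4B

theorem cos_ge_half {m : ℕ} (hm : 3 ≤ m) : 1 / 2 ≤ Real.cos (Real.pi / m) := by
  have h3 : (3 : ℝ) ≤ (m : ℝ) := by exact_mod_cast hm
  have hpi := Real.pi_pos
  rw [← Real.cos_pi_div_three]
  apply Real.cos_le_cos_of_nonneg_of_le_pi
  · positivity
  · linarith
  · exact div_le_div_of_nonneg_left hpi.le (by norm_num) h3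

theorem cos_lt_one' {m : ℕ} (hm : 3 ≤ m) : Real.cos (Real.pi / m) < 1 := by
  have h3 : (3 : ℝ) ≤ (m : ℝ) := by exact_mod_cast hm
  have hpi := Real.pi_pos
  rw [← Real.cos_zero]
  apply Real.cos_lt_cos_of_nonneg_of_le_pi (le_refl 0)
  · rw [div_le_iff₀ (by linarith)]
    nlinarith
  · positivity

section

variable {S : Type} [Fintype S] [DecidableEq S]

theorem isRf_conj {M : CoxeterMatrix S} {ρ : M.Group →* Module.End ℝ (S → ℝ)} {r : M.Group}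
    {v : S → ℝ} (h : IsRf M ρ r v) (g : M.Group) : IsRf M ρ (g * r * g⁻¹) (ρ g v) := by
  obtain ⟨w, s, hr, hv⟩ := h
  refine ⟨g * w, s, ?_, ?_⟩
  · rw [hr]; group
  · rcases hv with hv | hv
    · left; rw [hv, map_mul]; rfl
    · right; rw [hv, map_mul, map_neg]; rfl

theorem isRf_simple (M : CoxeterMatrix S) (ρ : M.Group →* Module.End ℝ (S → ℝ)) (s : S) :
    IsRf M ρ (M.simple s) (bs s) := ⟨1, s, by simp, Or.inl (by simp)⟩

/-- `bf v (ρ g w)` for a reflection `g` with root `u` -/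
theorem bf_refl (hB : Stmt_BFI) {M : CoxeterMatrix S} {ρ : M.Group →* Module.End ℝ (S → ℝ)}
    (hρ : IsRep M ρ) {g : M.Group} {u : S → ℝ} (h : IsRf M ρ g u) (v w : S → ℝ) :
    bf M v (ρ g w) = bf M v w - 2 * bf M w u * bf M v u := by
  obtain ⟨hs, hl, _, _, _, hrf⟩ := hB S M ρ hρ
  rw [hrf g u h w, hs v, hs v w, hs v u]
  have := hl 1 (-(2 * bf M w u)) w u v
  rw [one_smul, neg_smul, ← sub_eq_add_neg] at this
  rw [this]
  ring

end

section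

variable {S S' : Type} [Fintype S] [DecidableEq S] [Fintype S'] [DecidableEq S']
  {M : CoxeterMatrix S} {M' : CoxeterMatrix S'} {ρ : M.Group →* Module.End ℝ (S → ℝ)}
  {ρ' : M'.Group →* Module.End ℝ (S' → ℝ)} {ψ : M.Group ≃* M'.Group} {β : S → (S' → ℝ)}

theorem real_fact {a b c d : ℝ} (ha : 1 / 2 ≤ a) (hb : 1 / 2 ≤ b) (hc : 1 / 2 ≤ c) (hd : 1 / 2 ≤ d)
    (ha' : a < 1) (hb' : b < 1) (hc' : c < 1) (hd' : d < 1) :
    |a * b - c * d| < 1 / 2 ∨ |a * d - b * c| < 1 / 2 := by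
  by_contra h
  rw [not_or, not_lt, not_lt, le_abs, le_abs] at h
  obtain ⟨h1 | h1, h2 | h2⟩ := h
  · nlinarith [mul_nonneg (sub_nonneg.mpr ha'.le) (sub_nonneg.mpr hb), mul_nonneg (sub_nonneg.mpr ha'.le) (sub_nonneg.mpr hd), mul_nonneg (sub_nonneg.mpr hc) (sub_nonneg.mpr hb'.le), mul_nonneg (sub_nonneg.mpr hc) (sub_nonneg.mpr hd'.le)]
  · nlinarith [mul_nonneg (sub_nonneg.mpr hb'.le) (sub_nonneg.mpr ha), mul_nonneg (sub_nonneg.mpr hb'.le) (sub_nonneg.mpr hc), mul_nonneg (sub_nonneg.mpr hd) (sub_nonneg.mpr ha'.le), mul_nonneg (sub_nonneg.mpr hd) (sub_nonneg.mpr hc'.le)]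
  · nlinarith [mul_nonneg (sub_nonneg.mpr hd'.le) (sub_nonneg.mpr ha), mul_nonneg (sub_nonneg.mpr hd'.le) (sub_nonneg.mpr hc), mul_nonneg (sub_nonneg.mpr hb) (sub_nonneg.mpr ha'.le), mul_nonneg (sub_nonneg.mpr hb) (sub_nonneg.mpr hc'.le)]
  · nlinarith [mul_nonneg (sub_nonneg.mpr hc'.le) (sub_nonneg.mpr hb), mul_nonneg (sub_nonneg.mpr hc'.le) (sub_nonneg.mpr hd), mul_nonneg (sub_nonneg.mpr ha) (sub_nonneg.mpr hb'.le), mul_nonneg (sub_nonneg.mpr ha) (sub_nonneg.mpr hd'.le)]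

theorem key (hB : Stmt_BFI) (hF : Stmt_FINO) (hI : Stmt_INFO) (hW : WC M M' ρ ρ' ψ β)
    {s₁ s₂ s₃ s₄ : S} (n12 : s₁ ≠ s₂) (n13 : s₁ ≠ s₃) (n14 : s₁ ≠ s₄) (n23 : s₂ ≠ s₃)
    (n24 : s₂ ≠ s₄) (n34 : s₃ ≠ s₄)
    (h13 : M s₁ s₃ = 2) (h24 : M s₂ s₄ = 2)
    (h12 : 3 ≤ M s₁ s₂) (h23 : 3 ≤ M s₂ s₃) (h34 : 3 ≤ M s₃ s₄) (h41 : 3 ≤ M s₄ s₁)
    (hc : |Real.cos (Real.pi / M s₁ s₂) * Real.cos (Real.pi / M s₂ s₃) -
      Real.cos (Real.pi / M s₃ s₄) * Real.cos (Real.pi / M s₄ s₁)| < 1 / 2)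
    (hneg : bf M' (β s₁) (β s₂) * bf M' (β s₂) (β s₃) * bf M' (β s₃) (β s₄) *
      bf M' (β s₄) (β s₁) < 0) : False := by
  have a1 := cos_ge_half h12
  have a2 := cos_ge_half h23
  have a3 := cos_ge_half h34
  have a4 := cos_ge_half h41
  have g1 := hW.gram s₁ s₂ n12
  have g2 := hW.gram s₂ s₃ n23
  have g3 := hW.gram s₃ s₄ n34
  have g4 := hW.gram s₄ s₁ n14.symm
  have z1 : bf M' (β s₁) (β s₃) = 0 := by
    have := hW.gram s₁ s₃ n13
    rw [h13] at this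
    norm_num at this
    exact this
  have z2 : bf M' (β s₂) (β s₄) = 0 := by
    have := hW.gram s₂ s₄ n24
    rw [h24] at this
    norm_num at this
    exact this
  obtain ⟨hs, _, hcc, _, _, _⟩ := hB S M ρ hW.rep
  obtain ⟨hs', _, _, _, _, _⟩ := hB S' M' ρ' hW.rep'
  have y1 : bf M (bs s₁) (bs s₃) = 0 := by
    rw [hcc, h13]; norm_num
  have y2 : bf M (bs s₂) (bs s₄) = 0 := by
    rw [hcc, h24]; norm_num
  -- infinite order in `M.Group`
  have hinf := hI S M ρ hW.rep (M.simple s₂ * M.simple s₁ * (M.simple s₂)⁻¹)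
    (M.simple s₄ * M.simple s₃ * (M.simple s₄)⁻¹) (ρ (M.simple s₂) (bs s₁))
    (ρ (M.simple s₄) (bs s₃)) (isRf_conj (isRf_simple M ρ s₁) _) (isRf_conj (isRf_simple M ρ s₃) _)
  have hval : bf M (ρ (M.simple s₂) (bs s₁)) (ρ (M.simple s₄) (bs s₃)) =
      -(2 * (Real.cos (Real.pi / M s₁ s₂) * Real.cos (Real.pi / M s₂ s₃) +
      Real.cos (Real.pi / M s₃ s₄) * Real.cos (Real.pi / M s₄ s₁))) := by
    rw [bf_refl hB hW.rep (isRf_simple M ρ s₄), hs (ρ (M.simple s₂) (bs s₁)) (bs s₃),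
      hs (ρ (M.simple s₂) (bs s₁)) (bs s₄), bf_refl hB hW.rep (isRf_simple M ρ s₂),
      bf_refl hB hW.rep (isRf_simple M ρ s₂), hs (bs s₃) (bs s₁), hs (bs s₄) (bs s₂), y1, y2,
      hs (bs s₃) (bs s₂), hcc, hcc, hcc, hcc]
    ring
  have hcoord : ρ (M.simple s₂) (bs s₁) s₁ = 1 := by
    rw [hW.rep s₂ (bs s₁)]
    simp [bs, n12]
  have hcoord2 : ρ (M.simple s₄) (bs s₃) s₁ = 0 := by
    rw [hW.rep s₄ (bs s₃)]
    simp [bs, n13, n14]
  have hinf' := hinf (by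
      rw [hval, abs_neg, abs_of_nonneg (by nlinarith)]
      nlinarith)
    (fun h => by
      rw [h, hcoord2] at hcoord
      norm_num at hcoord)
    (fun h => by
      rw [h, Pi.neg_apply, hcoord2] at hcoord
      norm_num at hcoord)
  -- finite order in `M'.Group`
  have hfin := hF S' M' ρ' hW.hM'.ne_zero hW.rep'
    (ψ (M.simple s₂) * ψ (M.simple s₁) * (ψ (M.simple s₂))⁻¹)
    (ψ (M.simple s₄) * ψ (M.simple s₃) * (ψ (M.simple s₄))⁻¹)
    (ρ' (ψ (M.simple s₂)) (β s₁)) (ρ' (ψ (M.simple s₄)) (β s₃))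
    (isRf_conj (hW.refl s₁) _) (isRf_conj (hW.refl s₃) _)
  have hval' : bf M' (ρ' (ψ (M.simple s₂)) (β s₁)) (ρ' (ψ (M.simple s₄)) (β s₃)) =
      -(2 * (bf M' (β s₁) (β s₂) * bf M' (β s₂) (β s₃) +
        bf M' (β s₃) (β s₄) * bf M' (β s₄) (β s₁))) := by
    rw [bf_refl hB hW.rep' (hW.refl s₄), hs' (ρ' (ψ (M.simple s₂)) (β s₁)) (β s₃),
      hs' (ρ' (ψ (M.simple s₂)) (β s₁)) (β s₄), bf_refl hB hW.rep' (hW.refl s₂),
      bf_refl hB hW.rep' (hW.refl s₂), hs' (β s₃) (β s₁), hs' (β s₄) (β s₂), z1, z2,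
      hs' (β s₃) (β s₂)]
    ring
  have hlt : |-(2 * (bf M' (β s₁) (β s₂) * bf M' (β s₂) (β s₃) +
        bf M' (β s₃) (β s₄) * bf M' (β s₄) (β s₁)))| < 1 := by
    have hx : |bf M' (β s₁) (β s₂) * bf M' (β s₂) (β s₃)| =
        Real.cos (Real.pi / M s₁ s₂) * Real.cos (Real.pi / M s₂ s₃) := by
      rw [abs_mul, g1, g2]
    have hy : |bf M' (β s₃) (β s₄) * bf M' (β s₄) (β s₁)| =
        Real.cos (Real.pi / M s₃ s₄) * Real.cos (Real.pi / M s₄ s₁) := by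
      rw [abs_mul, g3, g4]
    rw [← hx, ← hy] at hc
    have hneg' : (bf M' (β s₁) (β s₂) * bf M' (β s₂) (β s₃)) *
        (bf M' (β s₃) (β s₄) * bf M' (β s₄) (β s₁)) < 0 := by
      calc _ = bf M' (β s₁) (β s₂) * bf M' (β s₂) (β s₃) * bf M' (β s₃) (β s₄) *
            bf M' (β s₄) (β s₁) := by ring
        _ < 0 := hneg
    generalize bf M' (β s₁) (β s₂) * bf M' (β s₂) (β s₃) = x at hc hneg' ⊢
    generalize bf M' (β s₃) (β s₄) * bf M' (β s₄) (β s₁) = y at hc hneg' ⊢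
    rw [abs_neg, abs_mul, abs_two]
    rcases mul_neg_iff.mp hneg' with ⟨h1, h2⟩ | ⟨h1, h2⟩
    · rw [abs_of_pos h1, abs_of_neg h2, sub_neg_eq_add] at hc
      linarith
    · rw [abs_of_neg h1, abs_of_pos h2] at hc
      have : |x + y| = |-x - y| := by
        rw [← abs_neg]; congr 1; ring
      rw [this]
      linarith
  obtain ⟨k, hk, hk1⟩ := hfin (by rw [hval']; exact hlt)
  apply hinf' k hk
  apply ψ.injective
  rw [map_pow, map_mul, map_mul, map_mul, map_mul, map_mul, map_inv, map_inv, map_one]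
  exact hk1

end

theorem three_le {S : Type} [Fintype S] {M : CoxeterMatrix S} (hM : HypType M) {a b c : S}
    (hab : a ≠ b) (hac : a ≠ c) (hbc : b ≠ c) (h2 : M a c = 2) : 3 ≤ M a b ∧ 3 ≤ M b c := by
  have h := hM.hyp a b c hab hbc hac
  rw [h2] at h
  have e1 : M a b ≠ 0 := hM.ne_zero a b
  have e2 : M b c ≠ 0 := hM.ne_zero b c
  have f1 : M a b ≠ 1 := M.off_diagonal a b hab
  have f2 : M b c ≠ 1 := M.off_diagonal b c hbc
  have key : ∀ x y : ℕ, x ≠ 0 → x ≠ 1 → y ≠ 0 →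
      (1 : ℚ) / x + 1 / y + 1 / ((2 : ℕ) : ℚ) < 1 → 3 ≤ x := by
    intro x y hx hx' hy hxy
    by_contra hlt
    have hx2 : x = 2 := by omega
    subst hx2
    have hy' : (0 : ℚ) < 1 / y := by
      have : (0 : ℚ) < y := by exact_mod_cast Nat.pos_of_ne_zero hy
      positivity
    push_cast at hxy
    linarith
  refine ⟨key _ _ e1 f1 e2 h, key _ _ e2 f2 e1 ?_⟩
  linarith

end SG4B

theorem stmt_SG4 (hB : Stmt_BFI) (hF : Stmt_FINO) (hI : Stmt_INFO) : Stmt_SG4 := by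
  intro S S' _ _ _ _ M M' ρ ρ' ψ β hW s₁ s₂ s₃ s₄ hnd h13 h24
  have n12 : s₁ ≠ s₂ := by rintro rfl; simp at hnd
  have n13 : s₁ ≠ s₃ := by rintro rfl; simp at hnd
  have n14 : s₁ ≠ s₄ := by rintro rfl; simp at hnd
  have n23 : s₂ ≠ s₃ := by rintro rfl; simp at hnd
  have n24 : s₂ ≠ s₄ := by rintro rfl; simp at hnd
  have n34 : s₃ ≠ s₄ := by rintro rfl; simp at hnd
  obtain ⟨h12, h23⟩ := SG4B.three_le hW.hM n12 n13 n23 h13
  obtain ⟨h14, h43⟩ := SG4B.three_le hW.hM n14 n13 n34.symm h13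
  have hM : ∀ x y, M x y = M y x := M.symmetric
  have h34 : 3 ≤ M s₃ s₄ := by rw [hM]; exact h43
  have h41 : 3 ≤ M s₄ s₁ := by rw [hM]; exact h14
  by_contra hneg
  have a1 := SG4B.cos_ge_half h12
  have a2 := SG4B.cos_ge_half h23
  have a3 := SG4B.cos_ge_half h34
  have a4 := SG4B.cos_ge_half h41
  have b1 := SG4B.cos_lt_one' h12
  have b2 := SG4B.cos_lt_one' h23
  have b3 := SG4B.cos_lt_one' h34
  have b4 := SG4B.cos_lt_one' h41
  have g1 := hW.gram s₁ s₂ n12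
  have g2 := hW.gram s₂ s₃ n23
  have g3 := hW.gram s₃ s₄ n34
  have g4 := hW.gram s₄ s₁ n14.symm
  have m1 : bf M' (β s₁) (β s₂) ≠ 0 := by
    intro h; rw [h, abs_zero] at g1; linarith
  have m2 : bf M' (β s₂) (β s₃) ≠ 0 := by
    intro h; rw [h, abs_zero] at g2; linarith
  have m3 : bf M' (β s₃) (β s₄) ≠ 0 := by
    intro h; rw [h, abs_zero] at g3; linarith
  have m4 : bf M' (β s₄) (β s₁) ≠ 0 := by
    intro h; rw [h, abs_zero] at g4; linarith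
  have hneg' : bf M' (β s₁) (β s₂) * bf M' (β s₂) (β s₃) * bf M' (β s₃) (β s₄) *
      bf M' (β s₄) (β s₁) < 0 :=
    lt_of_le_of_ne (not_lt.mp hneg) (mul_ne_zero (mul_ne_zero (mul_ne_zero m1 m2) m3) m4)
  obtain ⟨hs', _, _, _, _, _⟩ := hB S' M' ρ' hW.rep'
  rcases SG4B.real_fact a1 a2 a3 a4 b1 b2 b3 b4 with h | h
  · exact SG4B.key hB hF hI hW n12 n13 n14 n23 n24 n34 h13 h24 h12 h23 h34 h41 h hneg'
  · refine SG4B.key hB hF hI hW (s₁ := s₂) (s₂ := s₁) (s₃ := s₄) (s₄ := s₃) n12.symm n24 n23 n14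
      n13 n34.symm h24 h13 (by rw [hM]; exact h12) h14 h43 (by rw [hM]; exact h23) ?_ ?_
    · rw [hM s₂ s₁, hM s₁ s₄, hM s₄ s₃, hM s₃ s₂]
      have : Real.cos (Real.pi / M s₁ s₂) * Real.cos (Real.pi / M s₄ s₁) -
          Real.cos (Real.pi / M s₃ s₄) * Real.cos (Real.pi / M s₂ s₃) =
          Real.cos (Real.pi / M s₁ s₂) * Real.cos (Real.pi / M s₄ s₁) -
          Real.cos (Real.pi / M s₂ s₃) * Real.cos (Real.pi / M s₃ s₄) := by ring
      rw [this]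
      exact h
    · rw [hs' (β s₂) (β s₁), hs' (β s₁) (β s₄), hs' (β s₄) (β s₃), hs' (β s₃) (β s₂)]
      calc _ = bf M' (β s₁) (β s₂) * bf M' (β s₂) (β s₃) * bf M' (β s₃) (β s₄) *
            bf M' (β s₄) (β s₁) := by ring
        _ < 0 := hneg'

end Pool.HA
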