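import Pool.Agent.Work.MP_7084a3_h91.InterfaceW

set_option autoImplicit false

namespace Pool.HA

theorem SGA_unit {x : ℝ} (h : x ≠ 0) : -x / |x| = 1 ∨ -x / |x| = -1 := by
  rcases lt_or_gt_of_ne h with h1 | h1
  · left
    rw [abs_of_neg h1]
    exact div_self (by linarith)
  · right
    rw [abs_of_pos h1, neg_div, div_self h]

theorem SGA_conv {x u v : ℝ} (hu : u = 1 ∨ u = -1) (hv : v = 1 ∨ v = -1)
    (h : x ≠ 0 → u * v * x < 0) : u * v * x = -|x| := by
  by_cases hx : x = 0
  · rw [hx]; simp
  · have h1 := h hx
    rcases hu with rfl | rfl <;> rcases hv with rfl | rfl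
    · have h2 : x < 0 := by linarith
      rw [abs_of_neg h2]; ring
    · have h2 : 0 < x := by linarith
      rw [abs_of_pos h2]; ring
    · have h2 : 0 < x := by linarith
      rw [abs_of_pos h2]; ring
    · have h2 : x < 0 := by linarith
      rw [abs_of_neg h2]; ring

theorem stmt_SGA : Stmt_SGA := by
  intro S _ B hsym hmat htri hcyc
  classical
  rcases isEmpty_or_nonempty S with hS | ⟨⟨b⟩⟩
  · exact ⟨fun _ => 1, fun _ => Or.inl rfl, fun s => (hS.false s).elim⟩
  · -- the basic pair computation
    have hpair : ∀ s t, s ≠ t → b ≠ s → b ≠ t → B b s ≠ 0 → B b t ≠ 0 → B s t ≠ 0 →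
        (-B b s / |B b s|) * (-B b t / |B b t|) * B s t < 0 := by
      intro s t hst hbs hbt h1 h2 h3
      have h4 := htri b s t hbs hst hbt h1 h3 h2
      have h5 : (-B b s / |B b s|) * (-B b t / |B b t|) * B s t =
          (B b s * B s t * B b t) / (|B b s| * |B b t|) := by
        field_simp
      rw [h5]
      exact div_neg_of_neg_of_pos h4 (mul_pos (abs_pos.2 h1) (abs_pos.2 h2))
    by_cases hb : ∃ b', b ≠ b' ∧ B b b' = 0
    · obtain ⟨b', hbb', hz⟩ := hb
      by_cases hs : ∃ s₀, s₀ ≠ b ∧ s₀ ≠ b'
      · obtain ⟨s₀, hs0, hs0'⟩ := hs
        have hbs : ∀ s, s ≠ b → s ≠ b' → B b s ≠ 0 := fun s h1 h2 =>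
          hmat b b' s hbb' h1.symm (Ne.symm h2) hz
        have hb's : ∀ s, s ≠ b → s ≠ b' → B b' s ≠ 0 := fun s h1 h2 =>
          hmat b' b s hbb'.symm (Ne.symm h2) h1.symm (by rw [hsym]; exact hz)
        set e0 : ℝ := -B b s₀ / |B b s₀| with he0
        have he0u := SGA_unit (hbs s₀ hs0 hs0')
        have hB0 : B s₀ b' ≠ 0 := by rw [hsym]; exact hb's s₀ hs0 hs0'
        set e1 : ℝ := -e0 * (B s₀ b' / |B s₀ b'|) with he1
        have he1' : e1 = e0 * (-B s₀ b' / |B s₀ b'|) := by rw [he1]; ring
        have he1u : e1 = 1 ∨ e1 = -1 := by
          rw [he1']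
          rcases he0u with h | h <;> rcases SGA_unit hB0 with h' | h' <;>
            rw [he0, h, h'] <;> simp
        let e : S → ℝ := fun s => if s = b then 1 else if s = b' then e1 else -B b s / |B b s|
        have heb : e b = 1 := if_pos rfl
        have heb' : e b' = e1 := by
          change (if b' = b then (1 : ℝ) else if b' = b' then e1 else _) = e1
          rw [if_neg hbb'.symm, if_pos rfl]
        have hes : ∀ s, s ≠ b → s ≠ b' → e s = -B b s / |B b s| := by
          intro s h1 h2
          change (if s = b then (1 : ℝ) else if s = b' then e1 else _) = _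
          rw [if_neg h1, if_neg h2]
        have heu : ∀ s, e s = 1 ∨ e s = -1 := by
          intro s
          by_cases h1 : s = b
          · subst h1; left; exact heb
          · by_cases h2 : s = b'
            · subst h2; rw [heb']; exact he1u
            · rw [hes s h1 h2]; exact SGA_unit (hbs s h1 h2)
        have hcb : ∀ t, t ≠ b → B b t ≠ 0 → e b * e t * B b t < 0 := by
          intro t h1 h2
          have h3 : t ≠ b' := by rintro rfl; exact h2 hz
          rw [heb, hes t h1 h3, one_mul, div_mul_eq_mul_div]
          apply div_neg_of_neg_of_pos _ (abs_pos.2 h2)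
          nlinarith [mul_self_pos.2 h2]
        have hcb' : ∀ t, t ≠ b → t ≠ b' → e t * e b' * B t b' < 0 := by
          intro t h1 h2
          have hBt : B t b' ≠ 0 := by rw [hsym]; exact hb's t h1 h2
          have hgoal : 0 < e t * e0 * B s₀ b' * B t b' := by
            by_cases ht : t = s₀
            · subst ht
              have h3 : e t = e0 := hes t h1 h2
              rw [h3]
              have h4 : 0 < e0 * e0 := by
                rcases he0u with h | h <;> rw [he0, h] <;> norm_num
              have h5 := mul_pos h4 (mul_self_pos.2 hB0)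
              nlinarith
            · by_cases h3 : B s₀ t = 0
              · have h4 := hcyc b s₀ b' t (by
                  simp only [List.nodup_cons, List.mem_cons, List.not_mem_nil, or_false,
                    not_or, not_false_eq_true, List.nodup_nil, and_true]
                  exact ⟨⟨hs0.symm, hbb', h1.symm⟩, ⟨hs0', Ne.symm ht⟩, Ne.symm h2⟩) hz h3
                rw [hes t h1 h2, he0]
                have h5 : -B b t / |B b t| * (-B b s₀ / |B b s₀|) * B s₀ b' * B t b' =
                    (B b s₀ * B s₀ b' * B b' t * B t b) / (|B b t| * |B b s₀|) := by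
                  rw [hsym t b, hsym b' t]
                  have := abs_pos.2 (hbs t h1 h2)
                  have := abs_pos.2 (hbs s₀ hs0 hs0')
                  field_simp
                rw [h5]
                exact div_pos h4 (mul_pos (abs_pos.2 (hbs t h1 h2))
                  (abs_pos.2 (hbs s₀ hs0 hs0')))
              · have h4 := htri s₀ t b' (Ne.symm ht) h2 hs0' h3 hBt hB0
                have h5 := hpair s₀ t (Ne.symm ht) hs0.symm h1.symm (hbs s₀ hs0 hs0')
                  (hbs t h1 h2) h3
                rw [← hes t h1 h2, ← he0] at h5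
                have h6 : 0 < (e t * e0 * B s₀ b' * B t b') * (B s₀ t * B s₀ t) := by
                  have := mul_pos_of_neg_of_neg h4 h5
                  nlinarith
                exact (mul_pos_iff_of_pos_right (mul_self_pos.2 h3)).1 h6
          have h7 : e t * e b' * B t b' = -(e t * e0 * B s₀ b' * B t b') / |B s₀ b'| := by
            rw [heb', he1]
            have := abs_pos.2 hB0
            field_simp
          rw [h7]
          exact div_neg_of_neg_of_pos (by linarith) (abs_pos.2 hB0)
        refine ⟨e, heu, fun s t hst => SGA_conv (heu s) (heu t) fun hB => ?_⟩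
        by_cases h1 : s = b
        · subst h1
          exact hcb t (Ne.symm hst) hB
        · by_cases h2 : t = b
          · subst h2
            have := hcb s h1 (by rw [hsym]; exact hB)
            rw [hsym s t]
            linarith
          · by_cases h3 : s = b'
            · subst h3
              have := hcb' t h2 (Ne.symm hst)
              rw [hsym s t]
              linarith
            · by_cases h4 : t = b'
              · subst h4
                exact hcb' s h1 h3
              · rw [hes s h1 h3, hes t h2 h4]
                exact hpair s t hst (Ne.symm h1) (Ne.symm h2) (hbs s h1 h3) (hbs t h2 h4) hB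
      · push Not at hs
        refine ⟨fun _ => 1, fun _ => Or.inl rfl, fun s t hst => ?_⟩
        have hst0 : B s t = 0 := by
          by_cases h1 : s = b
          · subst h1
            rw [hs t (Ne.symm hst)]; exact hz
          · rw [hs s h1]
            by_cases h2 : t = b
            · rw [h2, hsym]; exact hz
            · exact absurd ((hs s h1).trans (hs t h2).symm) hst
        rw [hst0]; simp
    · push Not at hb
      let e : S → ℝ := fun s => if s = b then 1 else -B b s / |B b s|
      have heb : e b = 1 := if_pos rfl
      have hes : ∀ s, s ≠ b → e s = -B b s / |B b s| := fun s h => if_neg h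
      have heu : ∀ s, e s = 1 ∨ e s = -1 := by
        intro s
        by_cases h1 : s = b
        · subst h1; left; exact heb
        · rw [hes s h1]; exact SGA_unit (hb s (Ne.symm h1))
      have hcb : ∀ t, t ≠ b → B b t ≠ 0 → e b * e t * B b t < 0 := by
        intro t h1 h2
        rw [heb, hes t h1, one_mul, div_mul_eq_mul_div]
        apply div_neg_of_neg_of_pos _ (abs_pos.2 h2)
        nlinarith [mul_self_pos.2 h2]
      refine ⟨e, heu, fun s t hst => SGA_conv (heu s) (heu t) fun hB => ?_⟩
      by_cases h1 : s = b
      · subst h1
        exact hcb t (Ne.symm hst) hB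
      · by_cases h2 : t = b
        · subst h2
          have := hcb s h1 (by rw [hsym]; exact hB)
          rw [hsym s t]
          linarith
        · rw [hes s h1, hes t h2]
          exact hpair s t hst (Ne.symm h1) (Ne.symm h2) (hb s (Ne.symm h1)) (hb t (Ne.symm h2)) hB

end Pool.HA
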