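import Pool.Agent.Work.MP_7084a3_h91.InterfaceD
import Pool.Agent.Work.MP_7084a3_h91.InterfaceX
import Pool.Agent.Work.MP_7084a3_h91.Basic

set_option autoImplicit false

/-! # STR: walks in the fixed set of a reflection are straight -/

namespace Pool.HA

section
variable {G : Type} [Group G]

theorem STR_altP_append (l l' : List ℤ) : ∀ x y : G, altP x y (l ++ l') =
    altP x y l * (if Even l.length then altP x y l' else altP y x l') := by
  induction l with
  | nil => intro x y; simp [altP]
  | cons a l ih =>
    intro x y
    rw [List.cons_append, altP, ih, altP, List.length_cons]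
    by_cases h : Even l.length
    · have h' : ¬ Even (l.length + 1) := by
        rw [Nat.even_add_one]; exact fun h2 => h2 h
      rw [if_pos h, if_neg h', mul_assoc]
    · have h' : Even (l.length + 1) := by
        rw [Nat.even_add_one]; exact h
      rw [if_neg h, if_pos h', mul_assoc]

theorem STR_altP_conj (e : ℤ) (l : List ℤ) : ∀ x y : G,
    altP x y (l ++ e :: (l.map (fun t => -t)).reverse) =
      altP x y l * ((if Even l.length then x else y) ^ e) * (altP x y l)⁻¹ := by
  induction l with
  | nil => intro x y; simp [altP]
  | cons a l ih =>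
    intro x y
    have e1 : a :: l ++ e :: ((a :: l).map (fun t => -t)).reverse =
        a :: ((l ++ e :: (l.map (fun t => -t)).reverse) ++ [-a]) := by simp
    have h1 : ¬ Even (l ++ e :: (l.map (fun t => -t)).reverse).length := by
      simp only [List.length_append, List.length_cons, List.length_reverse, List.length_map]
      rw [← add_assoc, Nat.even_add_one, not_not]
      exact ⟨l.length, rfl⟩
    rw [e1, altP, STR_altP_append, if_neg h1, ih y x, altP, altP, altP, List.length_cons]
    by_cases h : Even l.length
    · have h' : ¬ Even (l.length + 1) := by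
        rw [Nat.even_add_one]; exact fun h2 => h2 h
      rw [if_pos h, if_neg h']
      group
    · have h' : Even (l.length + 1) := by
        rw [Nat.even_add_one]; exact h
      rw [if_neg h, if_pos h']
      group

end

theorem stmt_STR (hLK2 : Stmt_LK2) (hDSLG : Stmt_DSLG) : Stmt_STR := by
  intro S _ M hM ε r p q n hr hqp hqn hpn hrp hrq hrn
  have hr1 : r ≠ 1 := hr.ne_one
  have hp0 := ty_ne_zero_of_fix hr1 hrp
  have hq0 := ty_ne_zero_of_fix hr1 hrq
  have hn0 := ty_ne_zero_of_fix hr1 hrn
  refine ⟨fun h => hpn h.symm, ?_⟩
  intro ω hω hL hh hl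
  rcases ad_12 hqp hq0 hp0 with ⟨hq, hp⟩ | ⟨hq, hp⟩
  · -- `q` of type 1
    have hn : n.ty = 2 := by
      rcases ad_12 hqn hq0 hn0 with ⟨-, h⟩ | ⟨h, -⟩
      · exact h
      · omega
    have hw : ∀ s ∈ ω, wt (ang M ε) q s = 1 / 2 := by
      intro s hs
      have h1 := (hL.1 s hs).1
      unfold wt ang
      rw [if_pos h1, if_neg (by omega), if_pos hq]
    have h2 : 2 ≤ ω.length := by
      cases ω with
      | nil => simp at hω
      | cons s ω =>
        cases ω with
        | nil =>
          have a1 := hh s (by simp)
          have a2 := hl s (by simp)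
          have a3 := (hL.1 s (by simp)).2.2.2
          rw [a1, a2] at a3
          have := Vtx.ad_ty_ne a3
          omega
        | cons t ω => simp
    have h3 : wts (ang M ε) q ω = ω.length * (1 / 2 : ℝ) := by
      unfold wts
      rw [List.map_congr_left hw]
      simp
    rw [h3]
    have : (2 : ℝ) ≤ ω.length := by exact_mod_cast h2
    linarith
  · -- `q` of type 2
    have hn : n.ty = 1 := by
      rcases ad_12 hqn hq0 hn0 with ⟨h, -⟩ | ⟨-, h⟩
      · omega
      · exact h
    obtain ⟨a, ha⟩ := Vtx.J1 hp
    have hss := Vtx.ad_ss (Vtx.ad_symm hqp) (by omega)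
    obtain ⟨s, t, hst, hJ⟩ := Vtx.J2 hq
    have ha2 : a ∈ q.J := hss.subset (by rw [ha]; simp)
    obtain ⟨b, hab, hJ⟩ : ∃ b, a ≠ b ∧ q.J = {a, b} := by
      rw [hJ] at ha2
      simp only [Finset.mem_insert, Finset.mem_singleton] at ha2
      rcases ha2 with rfl | rfl
      · exact ⟨t, hst, hJ⟩
      · exact ⟨s, hst.symm, by rw [hJ, Finset.pair_comm]⟩
    obtain ⟨k, y, l, hlk, hl0, hhd, hlst, hwt⟩ := hLK2 S M hM ε q a b hab hJ ω hω hL
      (by intro s hs; rw [hh s hs]; exact ha) (by intro s hs; rw [hl s hs]; exact hn)
    rw [hwt]
    have hy : p.mem y := by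
      obtain ⟨s, hs⟩ : ∃ s, s ∈ ω.head? := by
        cases ω with
        | nil => simp at hω
        | cons s ω => exact ⟨s, by simp⟩
      have := (hhd s hs).2.2
      rwa [hh s hs] at this
    have hz : n.mem (y * altP (gen M b) (gen M a) l) ∧ n.J = if Even k then {b} else {a} := by
      obtain ⟨s, hs⟩ : ∃ s, s ∈ ω.getLast? := ⟨ω.getLast hω, by
        rw [List.getLast?_eq_getLast_of_ne_nil hω]; rfl⟩
      have := (hlst s hs).2.2
      rwa [hl s hs] at this
    have e1 := hr.eq_conj ha hrp hy
    have e2 : r = (y * altP (gen M b) (gen M a) l) * (if Even k then gen M b else gen M a) *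
        (y * altP (gen M b) (gen M a) l)⁻¹ := by
      by_cases hk : Even k
      · have h2 := hz.2
        rw [if_pos hk] at h2 ⊢
        exact hr.eq_conj h2 hrn hz.1
      · have h2 := hz.2
        rw [if_neg hk] at h2 ⊢
        exact hr.eq_conj h2 hrn hz.1
    have e3 : altP (gen M b) (gen M a) ((l ++ 1 :: (l.map (fun t => -t)).reverse) ++ [-1]) = 1 := by
      have h1 : ¬ Even (l ++ (1 : ℤ) :: (l.map (fun t => -t)).reverse).length := by
        simp only [List.length_append, List.length_cons, List.length_reverse, List.length_map]
        rw [← add_assoc, Nat.even_add_one, not_not]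
        exact ⟨l.length, rfl⟩
      rw [STR_altP_append, if_neg h1, STR_altP_conj, hlk, altP, altP, zpow_one]
      rw [e1] at e2
      have e4 : gen M a = altP (gen M b) (gen M a) l * (if Even k then gen M b else gen M a) *
          (altP (gen M b) (gen M a) l)⁻¹ := by
        calc gen M a = y⁻¹ * (y * gen M a * y⁻¹) * y := by group
          _ = y⁻¹ * ((y * altP (gen M b) (gen M a) l) * (if Even k then gen M b else gen M a) *
              (y * altP (gen M b) (gen M a) l)⁻¹) * y := by rw [e2]
          _ = _ := by group
      rw [← e4]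
      group
    have hev : Even ((l ++ (1 : ℤ) :: (l.map (fun t => -t)).reverse) ++ [-1]).length := by
      simp only [List.length_append, List.length_cons, List.length_reverse, List.length_map,
        List.length_nil]
      exact ⟨l.length + 1, by ring⟩
    have h5 := hDSLG S M hM.ne_zero b a hab.symm
      ((l ++ 1 :: (l.map (fun t => -t)).reverse) ++ [-1]) (by simp) (by
        intro x hx
        simp only [List.mem_append, List.mem_cons, List.mem_reverse, List.mem_map,
          List.not_mem_nil, or_false] at hx
        rcases hx with (hx | rfl | ⟨z, hz1, rfl⟩) | rfl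
        · exact hl0 x hx
        · norm_num
        · exact neg_ne_zero.2 (hl0 z hz1)
        · norm_num) hev e3
    have h6 : M b a ≤ k + 1 := by
      simp only [List.length_append, List.length_cons, List.length_reverse, List.length_map,
        List.length_nil, hlk] at h5
      omega
    rw [M.symmetric b a] at h6
    have h7 := hM.two_le hab
    have h8 : (0 : ℝ) < (M a b : ℝ) := by exact_mod_cast (by omega : 0 < M a b)
    rw [le_div_iff₀ h8, one_mul]
    exact_mod_cast h6

end Pool.HA
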