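import Pool.Agent.Work.MP_7084a3_h91.Basic
import Pool.Agent.Work.MP_7084a3_h91.InterfaceX
import Pool.Agent.Work.MP_7084a3_h91.InterfaceD

set_option autoImplicit false

namespace Pool.HA

theorem stmt_TFE (h1 : Stmt_DTF) : Stmt_TFE := by
  intro S M hM h v hv hh k hk e
  classical
  apply hh
  have hty := v.ty_le
  obtain ⟨x, hx⟩ := v.exists_mem
  rcases Nat.lt_or_ge v.ty 1 with h0 | h0
  · exact Vtx.fix0 (by omega) hv
  rcases Nat.lt_or_ge v.ty 2 with h2 | h2
  · obtain ⟨r, hr, -, H⟩ := stab1 (v := v) (by omega)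
    obtain ⟨i, rfl⟩ := H h hv
    have e' : r ^ (i * (k : ℤ)) = r ^ (0 : ℤ) := by
      rw [zpow_mul, zpow_natCast, e, zpow_zero]
    have := hr.zpow_inj hr e'
    have hi : i = 0 := by
      rcases mul_eq_zero.1 this with h | h
      · exact h
      · exact absurd h (by omega)
    rw [hi, zpow_zero]
  · obtain ⟨s, t, hst, hJ⟩ := Vtx.J2 (v := v) (by omega)
    rw [Vtx.fix2 hJ hx] at hv
    have h3 := h1 S M hM s t hst (x⁻¹ * h * x) hv k hk (by
      have : x⁻¹ * h * x = x⁻¹ * h * (x⁻¹)⁻¹ := by rw [inv_inv]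
      rw [this, conj_pow, e]; group)
    have : h = x * (x⁻¹ * h * x) * x⁻¹ := by group
    rw [this, h3]; group

end Pool.HA
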