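import Pool.Agent.Work.MP_7084a3_h91.B.Avg35

set_option autoImplicit false

/-! # Block TRIP (helper35) -/

namespace Pool.HA

open Finset Pool.HA.H35

namespace H35

theorem pow_lab {S : Type} [Fintype S] [DecidableEq S] (M : CoxeterMatrix S) (s t : S) :
    (M.simple s * M.simple t) ^ (M s t) = 1 := by
  have h := M.toCoxeterSystem.simple_mul_simple_pow s t
  rwa [CoxeterMatrix.toCoxeterSystem_simple] at h

theorem psi_pow {S S' : Type} [Fintype S] [DecidableEq S] [Fintype S'] [DecidableEq S']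
    {M : CoxeterMatrix S} {M' : CoxeterMatrix S'} (ψ : M.Group ≃* M'.Group) (s t : S) :
    (ψ (M.simple s) * ψ (M.simple t)) ^ (M s t) = 1 := by
  rw [← map_mul, ← map_pow, pow_lab, map_one]

/-- at most one of the cosines of a hyperbolic triple vanishes -/
theorem cos_two {S : Type} {M : CoxeterMatrix S} (hM : HypType M) {a b c : S} (hab : a ≠ b)
    (hbc : b ≠ c) (hac : a ≠ c) : 0 < Real.cos (Real.pi / M a c) +
      Real.cos (Real.pi / M b c) * Real.cos (Real.pi / M a b) := by
  have l1 := lab_two M hM.ne_zero hab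
  have l2 := lab_two M hM.ne_zero hac
  have l3 := lab_two M hM.ne_zero hbc
  have c1 := cos_nonneg' _ l1
  have c2 := cos_nonneg' _ l2
  have c3 := cos_nonneg' _ l3
  by_cases h : M a c = 2
  · have hsum := hM.hyp a b c hab hbc hac
    have hpos : ∀ n : ℕ, 2 ≤ n → (0 : ℚ) < 1 / n := by
      intro n hn
      have : (0 : ℚ) < n := by exact_mod_cast (show 0 < n by omega)
      positivity
    have half : ∀ n : ℕ, n = 2 → (1 : ℚ) / n = 1 / 2 := by
      intro n hn
      rw [hn]
      norm_num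
    have e1 := half _ h
    have h1 : 3 ≤ M a b := by
      by_contra h2
      have e2 := half (M a b) (by omega)
      have e3 := hpos _ l3
      linarith
    have h3 : 3 ≤ M b c := by
      by_contra h2
      have e2 := half (M b c) (by omega)
      have e3 := hpos _ l1
      linarith
    have := mul_pos (cos_pos' _ h3) (cos_pos' _ h1)
    linarith
  · have := cos_pos' (M a c) (by omega)
    have := mul_nonneg c3 c1
    linarith

end H35

/-- TRIP -/
theorem stmt_TRIP (hN : Stmt_NOFX) (hC : Stmt_CONE) (hB : Stmt_BFI) : Stmt_TRIP := by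
  intro S S' _ _ _ _ M M' ρ ρ' ψ β hW hbf a b c hab hbc hac x hx y hy xa xb yb yc
  have F := FB.of hB hW.rep'
  have C := FC.of hC hW.hM'.ne_zero hW.rep'
  have nofx := hN S S' M M' ρ ρ' ψ β hW hbf a b c hab hbc hac
  have l1 := lab_two M hW.hM.ne_zero hab
  obtain ⟨Y, hY, Ya, Yb, Yv⟩ := avg C (FB.rf_sq (hW.refl a)) (FB.rf_sq (hW.refl b)) (M a b)
    (by omega) (psi_pow ψ a b) y hy
  have Ya0 := inv_zero F (hW.refl a) Ya
  have Yb0 := inv_zero F (hW.refl b) Yb
  obtain ⟨p, hp⟩ : ∃ p, p = Real.cos (Real.pi / M a b) := ⟨_, rfl⟩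
  obtain ⟨q', hq'⟩ : ∃ q', q' = Real.cos (Real.pi / M a c) := ⟨_, rfl⟩
  obtain ⟨r, hr⟩ : ∃ r, r = Real.cos (Real.pi / M b c) := ⟨_, rfl⟩
  have gab : bf M' (β a) (β b) = -p := by rw [hp]; exact hbf a b hab
  have gac : bf M' (β a) (β c) = -q' := by rw [hq']; exact hbf a c hac
  have gbc : bf M' (β b) (β c) = -r := by rw [hr]; exact hbf b c hbc
  have gba : bf M' (β b) (β a) = -p := by rw [F.sym, gab]
  have gca : bf M' (β c) (β a) = -q' := by rw [F.sym, gac]
  have gcb : bf M' (β c) (β b) = -r := by rw [F.sym, gbc]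
  have gaa := F.rf_nrm (hW.refl a)
  have gbb := F.rf_nrm (hW.refl b)
  have hp1 : p < 1 := by rw [hp]; exact cos_lt_one' _ l1
  have hp0 : 0 ≤ p := by rw [hp]; exact cos_nonneg' _ l1
  have hpp : 0 < 1 - p ^ 2 := by nlinarith
  have hpa : 0 < (q' + r * p) / (1 - p ^ 2) := by
    apply div_pos _ hpp
    rw [hq', hr, hp]
    exact cos_two hW.hM hab hbc hac
  obtain ⟨A, hA⟩ : ∃ A, A = (q' + r * p) / (1 - p ^ 2) := ⟨_, rfl⟩
  obtain ⟨B, hBB⟩ : ∃ B, B = (r + q' * p) / (1 - p ^ 2) := ⟨_, rfl⟩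
  have hA' : A * (1 - p ^ 2) = q' + r * p := by rw [hA]; field_simp
  have hB' : B * (1 - p ^ 2) = r + q' * p := by rw [hBB]; field_simp
  have e1 : A - B * p = q' := by
    have : (A - B * p - q') * (1 - p ^ 2) = 0 := by linear_combination hA' - p * hB'
    have := (mul_eq_zero.mp this).resolve_right hpp.ne'
    linarith
  have e2 : B - A * p = r := by
    have : (B - A * p - r) * (1 - p ^ 2) = 0 := by linear_combination hB' - p * hA'
    have := (mul_eq_zero.mp this).resolve_right hpp.ne'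
    linarith
  obtain ⟨v, hv⟩ : ∃ v : S' → ℝ, v = β c + (A • β a + B • β b) := ⟨_, rfl⟩
  have va : bf M' v (β a) = 0 := by
    rw [hv, F.add_left, F.lin, gca, gaa, gba]
    linarith
  have vb : bf M' v (β b) = 0 := by
    rw [hv, F.add_left, F.lin, gcb, gbb, gab]
    linarith
  have fa : ρ' (ψ (M.simple a)) v = v := by
    rw [F.rfx _ _ (hW.refl a), va, mul_zero, zero_smul, sub_zero]
  have fb : ρ' (ψ (M.simple b)) v = v := by
    rw [F.rfx _ _ (hW.refl b), vb, mul_zero, zero_smul, sub_zero]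
  have h1 := Yv v fa fb
  have h2 : Y v = Y (β c) := by
    rw [hv, map_add, map_add, map_smul, map_smul, Ya0, Yb0]
    simp
  have h3 : y v = A * y (β a) := by
    rw [hv, map_add, map_add, map_smul, map_smul, yb, yc]
    simp
  rw [h2, h3] at h1
  have hm : (0 : ℝ) < M a b := by exact_mod_cast (show 0 < M a b by omega)
  have hAp : 0 < A := by rw [hA]; exact hpa
  have hxc : x (β c) ≠ 0 := fun h => nofx x hx ⟨xa, xb, h⟩
  have hYc : Y (β c) ≠ 0 := fun h => nofx Y hY ⟨Ya0, Yb0, h⟩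
  have h4 : 0 < x (β c) * Y (β c) := by
    rcases lt_or_gt_of_ne (mul_ne_zero hxc hYc) with h5 | h5
    · exfalso
      rcases mul_neg_iff.mp h5 with ⟨h6, h7⟩ | ⟨h6, h7⟩
      · exact nofx ((-(Y (β c))) • x + (x (β c)) • Y)
          (C.add _ (C.smul _ hx _ (by linarith)) _ (C.smul _ hY _ h6))
          ⟨by simp [xa, Ya0], by simp [xb, Yb0], by simp; ring⟩
      · exact nofx ((Y (β c)) • x + (-(x (β c))) • Y)
          (C.add _ (C.smul _ hx _ h7) _ (C.smul _ hY _ (by linarith)))
          ⟨by simp [xa, Ya0], by simp [xb, Yb0], by simp; ring⟩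
    · exact h5
  rw [h1] at h4
  have h5 : x (β c) * (2 * (M a b : ℝ) * (A * y (β a))) =
      (2 * (M a b : ℝ) * A) * (x (β c) * y (β a)) := by ring
  rw [h5] at h4
  exact pos_of_mul_pos_right h4 (by positivity)

end Pool.HA
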