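import Pool.Agent.Work.MP_7084a3_h91.InterfaceX
import Pool.Agent.Work.MP_7084a3_h91.Basic

set_option autoImplicit false

/-! # WCH: chains of walks -/

namespace Pool.HA

section
variable {G S : Type} [Group G] {g : S → G}

theorem WCH_EE_swap (x y : Vtx g) : EE y x = - EE x y := by
  unfold EE; abel

theorem WCH_wch_cons {a b : Vtx g} {R : List (Vtx g)} (h : R.head? = some b) :
    wch (a :: R) = EE a b + wch R := by
  cases R with
  | nil => simp at h
  | cons c R =>
    simp only [List.head?_cons, Option.some.injEq] at h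
    subst h
    rfl

theorem WCH_Wk_cons {a b w : Vtx g} {R : List (Vtx g)} (hab : a.ad b) (h : Wk R b w) :
    Wk (a :: R) a w := by
  obtain ⟨h1, h2, h3⟩ := h
  cases R with
  | nil => simp at h1
  | cons c R =>
    simp only [List.head?_cons, Option.some.injEq] at h1
    subst h1
    exact ⟨rfl, by simpa using h2, List.isChain_cons_cons.2 ⟨hab, h3⟩⟩

theorem WCH_Wk_tail {a b c w : Vtx g} {R : List (Vtx g)} (h : Wk (a :: b :: R) c w) :
    a = c ∧ a.ad b ∧ Wk (b :: R) b w := by
  obtain ⟨h1, h2, h3⟩ := h
  simp only [List.head?_cons, Option.some.injEq] at h1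
  rw [List.isChain_cons_cons] at h3
  exact ⟨h1, h3.1, rfl, by simpa using h2, h3.2⟩

theorem WCH_one (P Q : List (Vtx g)) : ∀ (u v w : Vtx g), Wk P u v → Wk Q v w →
    Wk (P.dropLast ++ Q) u w ∧ wch (P.dropLast ++ Q) = wch P + wch Q := by
  induction P with
  | nil => intro u v w h; simp [Wk] at h
  | cons a P ih =>
    intro u v w hP hQ
    cases P with
    | nil =>
      obtain ⟨h1, h2, -⟩ := hP
      simp only [List.head?_cons, Option.some.injEq] at h1
      simp only [List.getLast?_singleton, Option.some.injEq] at h2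
      subst h1; subst h2
      simpa [wch] using hQ
    | cons b P =>
      obtain ⟨rfl, hab, hP'⟩ := WCH_Wk_tail hP
      obtain ⟨h1, h2⟩ := ih b v w hP' hQ
      rw [List.dropLast_cons_cons, List.cons_append]
      refine ⟨WCH_Wk_cons hab h1, ?_⟩
      rw [WCH_wch_cons h1.1, h2]
      change _ = EE a b + wch (b :: P) + wch Q
      abel

theorem WCH_dl {R : List (Vtx g)} {b : Vtx g} (h : R.getLast? = some b) :
    R = R.dropLast ++ [b] := by
  rw [List.dropLast_append_getLast? b h]

theorem WCH_two (P : List (Vtx g)) : ∀ (v w : Vtx g), Wk P v w →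
    Wk P.reverse w v ∧ wch P.reverse = -wch P := by
  induction P with
  | nil => intro u v h; simp [Wk] at h
  | cons a P ih =>
    intro u v hP
    cases P with
    | nil =>
      obtain ⟨h1, h2, -⟩ := hP
      simp only [List.head?_cons, Option.some.injEq] at h1
      simp only [List.getLast?_singleton, Option.some.injEq] at h2
      subst h1; subst h2
      simp [wch, Wk]
    | cons b P =>
      obtain ⟨rfl, hab, hP'⟩ := WCH_Wk_tail hP
      obtain ⟨h1, h2⟩ := ih b v hP'
      have h3 : Wk [b, a] b a := ⟨rfl, rfl, by simpa using Vtx.ad_symm hab⟩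
      obtain ⟨h4, h5⟩ := WCH_one _ _ _ _ _ h1 h3
      have e : (a :: b :: P).reverse = (b :: P).reverse.dropLast ++ [b, a] := by
        rw [List.reverse_cons]
        conv_lhs => rw [WCH_dl h1.2.1]
        simp
      rw [e]
      refine ⟨h4, ?_⟩
      rw [h5, h2]
      change -wch (b :: P) + (EE b a + 0) = -(EE a b + wch (b :: P))
      rw [WCH_EE_swap a b]
      abel

theorem WCH_closed {L : List (Vtx g)} {v : Vtx g} (h : Wk (L ++ [v]) v v) :
    CW Vtx.ad L ∧ cch L = wch (L ++ [v]) := by
  cases L with
  | nil =>
    refine ⟨?_, by simp [cch, wch]⟩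
    intro x q y e
    simp at e
  | cons a L =>
    have ha : a = v := by simpa using h.1
    subst ha
    refine ⟨?_, rfl⟩
    intro x q y e
    have hc := h.2.2
    rw [e] at hc
    cases y with
    | cons r y =>
      refine ⟨r, by simp, ?_⟩
      rw [List.append_assoc, List.cons_append, List.cons_append] at hc
      have := (List.isChain_append.1 hc).2.1
      exact (List.isChain_cons_cons.1 this).1
    | nil =>
      have h1 : q.ad a := by
        rw [List.append_assoc, List.cons_append, List.nil_append] at hc
        have := (List.isChain_append.1 hc).2.1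
        exact (List.isChain_cons_cons.1 this).1
      cases x with
      | nil =>
        simp only [List.nil_append, List.cons.injEq] at e
        obtain ⟨rfl, -⟩ := e
        exact absurd h1 (Vtx.ad_irrefl _)
      | cons b x =>
        simp only [List.cons_append, List.cons.injEq] at e
        obtain ⟨rfl, -⟩ := e
        exact ⟨a, by simp, h1⟩

theorem WCH_act1_EE (h : G) (x y : Vtx g) : act1 h (EE x y) = EE (h • x) (h • y) := by
  have key : ∀ x y : Vtx g, act1 h (dl1 x y) = dl1 (h • x) (h • y) := by
    intro x y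
    unfold dl1
    by_cases h' : x.ty < y.ty
    · rw [if_pos h', if_pos (by simpa using h')]
      simp [act1, Finsupp.mapDomain_single]
    · rw [if_neg h', if_neg (by simpa using h')]
      simp
  unfold EE
  rw [map_sub, key, key]

theorem WCH_four (h : G) (P : List (Vtx g)) : ∀ (v w : Vtx g), Wk P v w →
    Wk (P.map (fun v => h • v)) (h • v) (h • w) ∧
      wch (P.map (fun v => h • v)) = act1 h (wch P) := by
  induction P with
  | nil => intro u v h; simp [Wk] at h
  | cons a P ih =>
    intro u v hP
    cases P with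
    | nil =>
      obtain ⟨h1, h2, -⟩ := hP
      simp only [List.head?_cons, Option.some.injEq] at h1
      simp only [List.getLast?_singleton, Option.some.injEq] at h2
      subst h1; subst h2
      simp [wch, Wk]
    | cons b P =>
      obtain ⟨rfl, hab, hP'⟩ := WCH_Wk_tail hP
      obtain ⟨h1, h2⟩ := ih b v hP'
      rw [List.map_cons]
      refine ⟨WCH_Wk_cons (Vtx.ad_smul h hab) h1, ?_⟩
      rw [WCH_wch_cons h1.1, h2, ← WCH_act1_EE, ← map_add]
      rfl

theorem WCH_act1_mul (x y : G) (D : C1 g) : act1 (x * y) D = act1 x (act1 y D) := by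
  simp only [act1, Finsupp.mapDomain.addMonoidHom_apply]
  rw [← Finsupp.mapDomain_comp]
  congr 1
  funext t
  simp [mul_smul]

theorem WCH_act1_one (D : C1 g) : act1 (1 : G) D = D := by
  simp only [act1, Finsupp.mapDomain.addMonoidHom_apply, one_smul]
  exact Finsupp.mapDomain_id

theorem WCH_five (x : G) (l : List (Vtx g)) (p : Vtx g) (hl : Wk l p (x • p)) (N : ℕ) :
    Wk (pw x l N) p (x ^ N • p) ∧ (pw x l N).length = N * (l.length - 1) + 1 ∧
      wch (pw x l N) = ∑ i ∈ Finset.range N, act1 (x ^ i) (wch l) := by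
  have h0 : 0 < l.length := by
    cases l with
    | nil => simp [Wk] at hl
    | cons a l => simp
  induction N with
  | zero =>
    cases l with
    | nil => simp at h0
    | cons a l =>
      have : a = p := by simpa using hl.1
      subst this
      simp [pw, Wk, wch]
  | succ N ih =>
    obtain ⟨h1, h2, h3⟩ := ih
    obtain ⟨h4, h5⟩ := WCH_four x _ _ _ h1
    obtain ⟨h6, h7⟩ := WCH_one _ _ _ _ _ hl h4
    have e : x • x ^ N • p = x ^ (N + 1) • p := by rw [pow_succ', mul_smul]
    rw [e] at h6
    refine ⟨h6, ?_, ?_⟩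
    · simp only [pw, List.length_append, List.length_dropLast, List.length_map, h2]
      ring
    · rw [pw, h7, h5, h3, map_sum, Finset.sum_range_succ', pow_zero, WCH_act1_one, add_comm]
      congr 1
      apply Finset.sum_congr rfl
      intro i _
      rw [pow_succ', WCH_act1_mul]

end

theorem stmt_WCH : Stmt_WCH := by
  intro G S _ g
  refine ⟨fun P Q u v w => WCH_one P Q u v w, fun P v w => WCH_two P v w, ?_,
    fun h P v w => WCH_four h P v w, fun x l p N hl => WCH_five x l p hl N⟩
  intro P Q v w hP hQ
  obtain ⟨h1, h2⟩ := WCH_two Q v w hQ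
  obtain ⟨h3, h4⟩ := WCH_one _ _ _ _ _ hP h1
  have e : P.dropLast ++ Q.reverse = P.dropLast ++ Q.reverse.dropLast ++ [v] := by
    rw [List.append_assoc, ← WCH_dl h1.2.1]
  rw [e] at h3 h4
  obtain ⟨h5, h6⟩ := WCH_closed h3
  refine ⟨h5, ?_⟩
  rw [h6, h4, h2]
  abel

end Pool.HA
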