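import Pool.Agent.Work.MP_7084a3_h91.InterfaceW

set_option autoImplicit false
set_option linter.unusedSectionVars false

/-! # Block WCI (helper79) -/

namespace Pool.HA

theorem stmt_WCI (hBFI : Stmt_BFI) (hORD : Stmt_ORD) (hTRC : Stmt_TRC) (hFAITH : Stmt_FAITH) :
    Stmt_WCI := by
  intro S S' _ _ _ _ M M' ρ ρ' ψ hM hM' hρ hρ' h1 h2 h3
  obtain ⟨sym, lin, bas, inv, rt, rf⟩ := hBFI S' M' ρ' hρ'
  have hβ : ∀ s, ∃ b, IsRf M' ρ' (ψ (M.simple s)) b ∧ IsRt M' ρ' b := by
    intro s
    obtain ⟨w, s', h⟩ := h1 s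
    exact ⟨ρ' w (bs s'), ⟨w, s', h, Or.inl rfl⟩, ⟨w, s', rfl⟩⟩
  choose β hβ hβr using hβ
  have hcos : ∀ s t, s ≠ t → 0 ≤ Real.cos (Real.pi / M s t) := by
    intro s t hst
    have h4 := hM.ne_zero s t
    have h5 := M.off_diagonal s t hst
    have h6 : (2 : ℝ) ≤ M s t := by
      have : 2 ≤ M s t := by omega
      exact_mod_cast this
    have hpi := Real.pi_pos
    refine Real.cos_nonneg_of_mem_Icc ⟨?_, ?_⟩
    · have : 0 ≤ Real.pi / (M s t : ℝ) := by positivity
      linarith
    · rw [div_le_div_iff₀ (by linarith) (by norm_num)]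
      nlinarith
  refine ⟨β, hM, hM', hρ, hρ', hβ, h2, ?_⟩
  intro s t hst
  have h4 := hM.ne_zero s t
  have h5 := M.off_diagonal s t hst
  by_cases h6 : 3 ≤ M s t
  · obtain ⟨w, s', t', hne, he⟩ := h3 s t hst h6
    have ho : M' s' t' = M s t := by
      have e1 := hORD S' M' ρ' hM'.ne_zero hρ' s' t'
      have e2 := hORD S M ρ hM.ne_zero hρ s t
      have e3 : orderOf (ψ (M.simple s * M.simple t)) = orderOf (M.simple s * M.simple t) :=
        orderOf_injective ψ.toMonoidHom ψ.injective _
      have e4 : orderOf (w * (M'.simple s' * M'.simple t') * w⁻¹) =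
          orderOf (M'.simple s' * M'.simple t') := by
        have := orderOf_injective (MulAut.conj w).toMonoidHom (MulAut.conj w).injective
          (M'.simple s' * M'.simple t')
        exact this
      rw [← e1, ← e4, ← he, e3, e2]
    have e5 := hTRC S' M' ρ' hρ' (ψ (M.simple s)) (ψ (M.simple t)) w (β s) (β t) s' t'
      (hβ s) (hβ t) hne (by rw [← map_mul]; exact he)
    rw [ho] at e5
    have e6 := hcos s t hst
    rw [← abs_of_nonneg e6]
    exact (sq_eq_sq_iff_abs_eq_abs _ _).1 e5
  · have h7 : M s t = 2 := by omega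
    have hc : Real.cos (Real.pi / M s t) = 0 := by
      rw [h7]
      push_cast
      exact Real.cos_pi_div_two
    rw [hc, abs_eq_zero]
    obtain ⟨u, hu⟩ : ∃ u, u = β s := ⟨_, rfl⟩
    obtain ⟨v, hv⟩ : ∃ v, v = β t := ⟨_, rfl⟩
    rw [← hu, ← hv]
    obtain ⟨b, hb⟩ : ∃ b, b = bf M' u v := ⟨_, rfl⟩
    rw [← hb]
    have hru : ∀ x, ρ' (ψ (M.simple s)) x = x - (2 * bf M' x u) • u := by
      rw [hu]; exact rf _ _ (hβ s)
    have hrv : ∀ x, ρ' (ψ (M.simple t)) x = x - (2 * bf M' x v) • v := by
      rw [hv]; exact rf _ _ (hβ t)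
    have huu : bf M' u u = 1 := by rw [hu]; exact rt _ (hβr s)
    have hvv : bf M' v v = 1 := by rw [hv]; exact rt _ (hβr t)
    have hcomm : M.simple s * M.simple t = M.simple t * M.simple s := by
      have h8 := M.toCoxeterSystem.simple_mul_simple_pow s t
      rw [h7] at h8
      have h9 : (M.simple s * M.simple t) ^ 2 = 1 := h8
      have hs : M.simple s * M.simple s = 1 := M.toCoxeterSystem.simple_mul_simple_self s
      have ht : M.simple t * M.simple t = 1 := M.toCoxeterSystem.simple_mul_simple_self t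
      have h10 : M.simple s * M.simple t = (M.simple s * M.simple t)⁻¹ := by
        rw [eq_inv_iff_mul_eq_one, ← pow_two]; exact h9
      rw [mul_inv_rev] at h10
      have hsi : (M.simple s)⁻¹ = M.simple s := M.toCoxeterSystem.inv_simple s
      have hti : (M.simple t)⁻¹ = M.simple t := M.toCoxeterSystem.inv_simple t
      rw [hsi, hti] at h10
      exact h10
    have hcx : ∀ x, ρ' (ψ (M.simple s)) (ρ' (ψ (M.simple t)) x) =
        ρ' (ψ (M.simple t)) (ρ' (ψ (M.simple s)) x) := by
      intro x
      rw [← Module.End.mul_apply, ← Module.End.mul_apply, ← map_mul, ← map_mul, ← map_mul,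
        ← map_mul, hcomm]
    have hsu : ρ' (ψ (M.simple s)) u = -u := by
      rw [hru, huu, mul_one, two_smul]; abel
    have hvu : ρ' (ψ (M.simple s)) v = v - (2 * b) • u := by
      rw [hru, sym v u, hb]
    have key := hcx u
    rw [hsu, map_neg, hrv, map_sub, map_smul, hsu, hvu, ← hb] at key
    -- `4 b (b u - v) = 0`
    have hk : ∀ x, b * (b * u x - v x) = 0 := by
      intro x
      have h8 := congrFun key x
      simp only [Pi.sub_apply, Pi.smul_apply, Pi.neg_apply, smul_eq_mul] at h8
      nlinarith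
    by_contra hb0
    have hvbu : v = b • u := by
      ext x
      have h8 := hk x
      rcases mul_eq_zero.1 h8 with h8 | h8
      · exact absurd h8 hb0
      · rw [Pi.smul_apply, smul_eq_mul]; linarith
    have hb2 : b * b = 1 := by
      have h8 := lin b 0 u 0 v
      have h9 := lin b 0 u 0 u
      simp only [smul_zero, add_zero, zero_mul] at h8 h9
      rw [← hvbu] at h8 h9
      rw [hvv, ← hb] at h8
      exact h8.symm
    have hsame : ρ' (ψ (M.simple s)) = ρ' (ψ (M.simple t)) := by
      refine LinearMap.ext fun x => ?_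
      rw [hru, hrv]
      have h8 : bf M' x v = b * bf M' x u := by
        have h9 := lin b 0 u 0 x
        simp only [smul_zero, add_zero, zero_mul] at h9
        rw [sym x v, hvbu, h9, sym u x]
      rw [h8]
      rw [show (2 * (b * bf M' x u)) • v = (2 * (b * bf M' x u)) • (b • u) by rw [← hvbu]]
      rw [smul_smul]
      congr 2
      linear_combination (-2 * bf M' x u) * hb2
    have hone : ρ' (ψ (M.simple s * M.simple t)) = 1 := by
      have hs : M.simple s * M.simple s = 1 := M.toCoxeterSystem.simple_mul_simple_self s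
      rw [map_mul, map_mul, ← hsame, ← map_mul, ← map_mul, hs, map_one, map_one]
    have hst1 := hFAITH S' M' ρ' hM'.ne_zero hρ' _ hone
    have hst2 : M.simple s * M.simple t = 1 := by
      apply ψ.injective
      rw [hst1, map_one]
    have h8 := hORD S M ρ hM.ne_zero hρ s t
    rw [hst2, orderOf_one, h7] at h8
    exact absurd h8 (by norm_num)

end Pool.HA
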