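import Pool.Agent.Work.MP_7084a3_helper90.Common

set_option autoImplicit false

namespace Pool.HA

open H90 in
theorem stmt_X2 (hXISO : Stmt_XISO) (hINJ2 : Stmt_INJ2) (hBD : Stmt_BD) (hBD1 : Stmt_BD1)
    (hCONN : Stmt_CONN) (hWCH : Stmt_WCH) (hACT : Stmt_ACT) (hZZ1 : Stmt_ZZ1) (hZZ2 : Stmt_ZZ2)
    (hZPER : Stmt_ZPER) : Stmt_X2 := by
  intro S _ M hM h x hhx
  by_contra hcon
  push Not at hcon
  set g := gen M with hg
  obtain ⟨C, hC⟩ := hXISO S M hM
  obtain ⟨w1, w2, w3, w4, w5⟩ := hWCH (Art M) S g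
  obtain ⟨a1, a2, a3, a4, a5, a6, a7, a8, a9⟩ := hACT (Art M) S g
  set v : Vtx g := Vtx.mk g ∅ (by simp) 1 with hv
  obtain ⟨α, hα⟩ := hCONN S M v (h • v)
  obtain ⟨β, hβ⟩ := hCONN S M v (x • v)
  have hfree : ∀ (a b : ℤ) (u : Vtx g), (h ^ a * x ^ b) • u = u → a = 0 ∧ b = 0 := by
    intro a b u hu
    by_contra hab
    exact hcon a b u (by tauto) hu
  -- the chain of the (m, n) walk
  have key : ∀ m n : ℕ, ∃ D : C2 g, Flagged D ∧
      bd2 g D = (wch (pw h α m) - act1 (x ^ n) (wch (pw h α m))) -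
        (wch (pw x β n) - act1 (h ^ m) (wch (pw x β n))) ∧
      nrm D ≤ (2 * C * (α.length + β.length)) * (m + n) := by
    intro m n
    obtain ⟨p1, p2, p3⟩ := w5 h α v m hα
    obtain ⟨q1, q2, q3⟩ := w5 x β v n hβ
    obtain ⟨r1, r2⟩ := w4 (h ^ m) _ _ _ q1
    obtain ⟨s1, s2⟩ := w4 (x ^ n) _ _ _ p1
    obtain ⟨t1, t2⟩ := w1 _ _ _ _ _ p1 r1
    obtain ⟨u1, u2⟩ := w1 _ _ _ _ _ q1 s1
    have e1 : h ^ m • x ^ n • v = x ^ n • h ^ m • v := by
      rw [← mul_smul, ← mul_smul, (hhx.pow_pow m n).eq]
    rw [e1] at t1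
    obtain ⟨D, d1, d2, d3⟩ := fill_chain hBD hWCH hC _ _ _ _ t1 u1
      ((((pw h α m).dropLast ++ (pw x β n).map (fun v => h ^ m • v)).dropLast ++
        ((pw x β n).dropLast ++ (pw h α m).map (fun v => x ^ n • v)).reverse.dropLast).map
          (fun v => (v, false))) (by rw [List.map_map]; exact List.map_id _)
      (by
        intro X q Y hq hq2
        have hmem : q ∈ (X ++ q :: Y) := by simp
        rw [← hq] at hmem
        obtain ⟨y, -, rfl⟩ := List.mem_map.1 hmem
        simp at hq2)
    refine ⟨D, d1, ?_, d3.trans ?_⟩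
    · rw [d2, t2, u2, r2, s2]; abel
    · have hlen : nns ((((pw h α m).dropLast ++ (pw x β n).map (fun v => h ^ m • v)).dropLast ++
        ((pw x β n).dropLast ++ (pw h α m).map (fun v => x ^ n • v)).reverse.dropLast).map
          (fun v => (v, false))) ≤ 2 * (m * (α.length - 1) + n * (β.length - 1)) := by
        refine (List.countP_le_length).trans ?_
        simp only [List.length_map, List.length_append, List.length_dropLast, List.length_reverse,
          p2, q2]
        omega
      have b1 : m * (α.length - 1) ≤ m * (α.length + β.length) :=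
        Nat.mul_le_mul_left _ (by omega)
      have b2 : n * (β.length - 1) ≤ n * (α.length + β.length) :=
        Nat.mul_le_mul_left _ (by omega)
      calc C * _ ≤ C * (2 * (m * (α.length + β.length) + n * (α.length + β.length))) :=
            Nat.mul_le_mul_left _ (hlen.trans (by omega))
        _ = (2 * C * (α.length + β.length)) * (m + n) := by ring
  obtain ⟨D, hD, hDb, -⟩ := key 1 1
  have hw1 : wch (pw h α 1) = wch α := by
    rw [(w5 h α v 1 hα).2.2]; simp [a8]
  have hw2 : wch (pw x β 1) = wch β := by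
    rw [(w5 x β v 1 hβ).2.2]; simp [a8]
  rw [hw1, hw2, pow_one, pow_one] at hDb
  -- the sum formula
  have hflsum : ∀ (ι : Type) (s : Finset ι) (f : ι → C2 g), (∀ i ∈ s, Flagged (f i)) →
      Flagged (∑ i ∈ s, f i) := by
    classical
    intro ι s f
    induction s using Finset.induction_on with
    | empty => intro _ t ht; simp at ht
    | insert i s hi ih =>
      intro hf
      rw [Finset.sum_insert hi]
      exact (a3 _ _ (hf i (Finset.mem_insert_self _ _))
        (ih fun j hj => hf j (Finset.mem_insert_of_mem hj))).1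
  have hsum : ∀ m n : ℕ,
      nf (∑ i ∈ Finset.range m, ∑ j ∈ Finset.range n, mv (P2 g h ^ i * P2 g x ^ j) D) ≤
        (2 * C * (α.length + β.length)) * (m + n) := by
    intro m n
    obtain ⟨D', hD', hDb', hn⟩ := key m n
    have hconv : ∀ i j : ℕ, mv (P2 g h ^ i * P2 g x ^ j) D = act2 (h ^ i) (act2 (x ^ j) D) := by
      intro i j
      rw [← map_pow, ← map_pow, ← map_mul, mv_P2, a4]
    have hE : (∑ i ∈ Finset.range m, ∑ j ∈ Finset.range n, mv (P2 g h ^ i * P2 g x ^ j) D) =
        D' := by
      have hfl : Flagged (∑ i ∈ Finset.range m, ∑ j ∈ Finset.range n,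
          mv (P2 g h ^ i * P2 g x ^ j) D) := by
        apply hflsum
        intro i _
        apply hflsum
        intro j _
        rw [hconv]
        exact (a1 _ _).2.1 ((a1 _ _).2.1 hD)
      have h0 : (∑ i ∈ Finset.range m, ∑ j ∈ Finset.range n,
          mv (P2 g h ^ i * P2 g x ^ j) D) - D' = 0 := by
        apply hINJ2 S M hM _ ((a3 _ _ hfl hD').2)
        rw [map_sub, hDb']
        have hcomm : ∀ (i j : ℕ) (A : C1 g), act1 (h ^ i) (act1 (x ^ j) A) =
            act1 (x ^ j) (act1 (h ^ i) A) := by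
          intro i j A
          rw [← a5, ← a5, (hhx.pow_pow i j).eq]
        have hstep : bd2 g (∑ i ∈ Finset.range m, ∑ j ∈ Finset.range n,
            mv (P2 g h ^ i * P2 g x ^ j) D) =
            ∑ i ∈ Finset.range m, ∑ j ∈ Finset.range n, act1 (h ^ i) (act1 (x ^ j)
              ((wch α - act1 x (wch α)) - (wch β - act1 h (wch β)))) := by
          rw [map_sum]
          refine Finset.sum_congr rfl fun i _ => ?_
          rw [map_sum]
          refine Finset.sum_congr rfl fun j _ => ?_
          rw [hconv, (a1 _ _).1, (a1 _ _).1, hDb]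
        have hA : ∑ i ∈ Finset.range m, ∑ j ∈ Finset.range n, act1 (h ^ i) (act1 (x ^ j)
              (wch α - act1 x (wch α))) =
            wch (pw h α m) - act1 (x ^ n) (wch (pw h α m)) := by
          rw [(w5 h α v m hα).2.2]
          have e1 : ∀ i ∈ Finset.range m, ∑ j ∈ Finset.range n, act1 (h ^ i) (act1 (x ^ j)
              (wch α - act1 x (wch α))) = act1 (h ^ i) (wch α) -
                act1 (x ^ n) (act1 (h ^ i) (wch α)) := by
            intro i _
            rw [← map_sum, tele hACT, map_sub, hcomm]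
          rw [Finset.sum_congr rfl e1, Finset.sum_sub_distrib, map_sum]
        have hB : ∑ i ∈ Finset.range m, ∑ j ∈ Finset.range n, act1 (h ^ i) (act1 (x ^ j)
              (wch β - act1 h (wch β))) =
            wch (pw x β n) - act1 (h ^ m) (wch (pw x β n)) := by
          rw [Finset.sum_comm, (w5 x β v n hβ).2.2]
          have e1 : ∀ j ∈ Finset.range n, ∑ i ∈ Finset.range m, act1 (h ^ i) (act1 (x ^ j)
              (wch β - act1 h (wch β))) = act1 (x ^ j) (wch β) -
                act1 (h ^ m) (act1 (x ^ j) (wch β)) := by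
            intro j _
            have e2 : ∀ i ∈ Finset.range m, act1 (h ^ i) (act1 (x ^ j)
              (wch β - act1 h (wch β))) = act1 (x ^ j) (act1 (h ^ i) (wch β - act1 h (wch β))) :=
              fun i _ => hcomm i j _
            rw [Finset.sum_congr rfl e2, ← map_sum, tele hACT, map_sub, hcomm]
          rw [Finset.sum_congr rfl e1, Finset.sum_sub_distrib, map_sum]
        rw [hstep]
        have hsplit : ∀ i ∈ Finset.range m, ∑ j ∈ Finset.range n, act1 (h ^ i) (act1 (x ^ j)
              ((wch α - act1 x (wch α)) - (wch β - act1 h (wch β)))) =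
            ∑ j ∈ Finset.range n, act1 (h ^ i) (act1 (x ^ j) (wch α - act1 x (wch α))) -
            ∑ j ∈ Finset.range n, act1 (h ^ i) (act1 (x ^ j) (wch β - act1 h (wch β))) := by
          intro i _
          rw [← Finset.sum_sub_distrib]
          refine Finset.sum_congr rfl fun j _ => ?_
          rw [← map_sub, ← map_sub]
        rw [Finset.sum_congr rfl hsplit, Finset.sum_sub_distrib, hA, hB, sub_self]
      exact sub_eq_zero.1 h0
    rw [hE]
    exact hn
  have hcom2 : Commute (P2 g h) (P2 g x) := hhx.map _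
  have hcom1 : Commute (P1 g h) (P1 g x) := hhx.map _
  obtain ⟨P, Q, hPQ, hP, hQ⟩ := hZZ1 _ (P2 g h) (P2 g x) hcom2 D
    (2 * C * (α.length + β.length)) (by
      intro t _ a b hab
      rw [← map_zpow, ← map_zpow, ← map_mul, P2_apply] at hab
      exact hfree a b t.1 (congrArg Prod.fst hab)) hsum
  have hQf : Flagged Q := flagged_of_orbit hD fun t ht => by
    obtain ⟨a, b, hab⟩ := hQ t ht
    rw [← map_zpow, ← map_zpow, ← map_mul, P2_apply] at hab
    exact ⟨_, hab⟩
  rw [mv_P2, mv_P2] at hPQ
  have h1 : wch α - bd2 g Q - mv (P1 g x) (wch α - bd2 g Q) =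
      (wch β + bd2 g P) - mv (P1 g h) (wch β + bd2 g P) := by
    rw [mv_P1, mv_P1]
    rw [hPQ, map_add, map_sub, map_sub, (a1 _ _).1, (a1 _ _).1] at hDb
    rw [map_sub, map_add]
    have h2 : wch α - act1 x (wch α) = bd2 g P - act1 h (bd2 g P) +
        (bd2 g Q - act1 x (bd2 g Q)) + (wch β - act1 h (wch β)) := by
      rw [hDb]; abel
    calc wch α - bd2 g Q - (act1 x (wch α) - act1 x (bd2 g Q)) =
        (wch α - act1 x (wch α)) - (bd2 g Q - act1 x (bd2 g Q)) := by abel
      _ = _ := by rw [h2]; abel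
  obtain ⟨E, hE⟩ := hZZ2 _ (P1 g h) (P1 g x) hcom1 _ _ (by
    intro t _ a b hab
    rw [← map_zpow, ← map_zpow, ← map_mul, P1_apply] at hab
    exact hfree a b t.1 (congrArg Prod.fst hab)) h1
  refine no_E hZPER hBD1 hACT h ?_ α v hα Q hQf E hE
  intro k hk u hu
  have := hfree k 0 u (by simpa using hu)
  omega

end Pool.HA
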