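import Pool.Agent.Work.MP_7084a3_h91.InterfaceF

/-! # Block ZL (helper39) -/

set_option autoImplicit false

namespace Pool.HA

open Finsupp

theorem stmt_ZL (hZO : Stmt_ZO) : Stmt_ZL := by
  classical
  intro X σ D C hfree hC
  apply hZO
  let r := MulAction.orbitRel (Subgroup.zpowers σ) X
  let p : X → Quotient r := fun x => Quotient.mk r x
  have hrel : ∀ x y : X, p x = p y → ∃ a : ℤ, x = (σ ^ a) y := by
    intro x y hxy
    have h1 : r x y := Quotient.exact hxy
    obtain ⟨⟨g, hg⟩, hgy⟩ := MulAction.orbitRel_apply.1 h1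
    obtain ⟨a, ha⟩ := Subgroup.mem_zpowers_iff.1 hg
    refine ⟨a, ?_⟩
    rw [ha]
    exact hgy.symm
  have hrel' : ∀ (x : X) (a : ℤ), p ((σ ^ a) x) = p x := by
    intro x a
    apply Quotient.sound
    exact MulAction.orbitRel_apply.2 ⟨⟨σ ^ a, Subgroup.mem_zpowers_iff.2 ⟨a, rfl⟩⟩, rfl⟩
  show D.mapDomain p = 0
  by_contra hne
  obtain ⟨q, hq⟩ := Finsupp.support_nonempty_iff.2 hne
  have hq0 : D.mapDomain p q ≠ 0 := Finsupp.mem_support_iff.1 hq
  obtain ⟨x, hx, hxq⟩ := Finset.mem_image.1 (Finsupp.mapDomain_support hq)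
  -- the orbit
  have hinj : Function.Injective fun j : ℤ => (σ ^ j) x := by
    have key : ∀ a b : ℤ, a < b → (σ ^ a) x ≠ (σ ^ b) x := by
      intro a b hab he
      obtain ⟨n, hn⟩ := Int.eq_ofNat_of_zero_le (show 0 ≤ b - a by omega)
      have h1 : (σ ^ n) x = x := by
        have : (σ ^ (b - a)) x = x := by
          rw [sub_eq_neg_add, zpow_add, Equiv.Perm.mul_apply, ← he, ← Equiv.Perm.mul_apply,
            ← zpow_add]
          simp
        rw [hn] at this
        exact this
      exact hfree x hx n (by omega) h1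
    intro a b hab
    rcases lt_trichotomy a b with h | h | h
    · exact absurd hab (key a b h)
    · exact h
    · exact absurd hab.symm (key b a h)
  let J : Finset ℤ := D.support.preimage (fun j : ℤ => (σ ^ j) x) hinj.injOn
  have hJ : ∀ j : ℤ, j ∈ J ↔ D ((σ ^ j) x) ≠ 0 := by
    intro j
    rw [Finset.mem_preimage, Finsupp.mem_support_iff]
  let K : ℕ := J.sup Int.natAbs
  have hK : ∀ j ∈ J, j.natAbs ≤ K := fun j hj => Finset.le_sup (f := Int.natAbs) hj
  -- the orbit sum
  have hsum : D.mapDomain p q = ∑ j ∈ J, D ((σ ^ j) x) := by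
    have e1 : D.mapDomain p q = ∑ y ∈ D.support, if p y = q then D y else 0 := by
      show (D.sum fun y a => single (p y) a) q = _
      rw [Finsupp.sum_apply]
      unfold Finsupp.sum
      refine Finset.sum_congr rfl fun y _ => ?_
      exact Finsupp.single_apply
    rw [e1, ← Finset.sum_filter]
    symm
    refine Finset.sum_bij (fun j _ => (σ ^ j) x) ?_ ?_ ?_ ?_
    · intro j hj
      rw [Finset.mem_filter, Finsupp.mem_support_iff]
      exact ⟨(hJ j).1 hj, by rw [hrel', hxq]⟩
    · intro a _ b _ hab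
      exact hinj hab
    · intro y hy
      rw [Finset.mem_filter] at hy
      obtain ⟨a, ha⟩ := hrel y x (by rw [hy.2, hxq])
      refine ⟨a, (hJ a).2 ?_, ha.symm⟩
      rw [← ha]
      exact Finsupp.mem_support_iff.1 hy.1
    · intro j _
      rfl
  -- the partial sums
  let N : ℕ := C + 1 + 2 * K
  let E : X →₀ ℤ := ∑ i ∈ Finset.range N, mv (σ ^ i) D
  have hmv : ∀ (τ : Equiv.Perm X) (y : X), (mv τ D) y = D (τ⁻¹ y) := by
    intro τ y
    have h1 := Finsupp.mapDomain_apply τ.injective D (τ⁻¹ y)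
    have h2 : τ (τ⁻¹ y) = y := by
      rw [← Equiv.Perm.mul_apply, mul_inv_cancel, Equiv.Perm.one_apply]
    rw [h2] at h1
    exact h1
  have hE : ∀ t : ℕ, t < C + 1 → E ((σ ^ ((K + t : ℕ) : ℤ)) x) = D.mapDomain p q := by
    intro t ht
    have e1 : E ((σ ^ ((K + t : ℕ) : ℤ)) x) =
        ∑ i ∈ Finset.range N, D ((σ ^ (((K + t : ℕ) : ℤ) - (i : ℤ))) x) := by
      show (∑ i ∈ Finset.range N, mv (σ ^ i) D) _ = _
      rw [Finsupp.finsetSum_apply]
      refine Finset.sum_congr rfl fun i _ => ?_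
      rw [hmv]
      congr 1
      rw [← zpow_natCast σ i, ← zpow_neg, ← Equiv.Perm.mul_apply, ← zpow_add]
      congr 2
      ring
    rw [e1, hsum]
    have e2 : ∑ i ∈ Finset.range N, D ((σ ^ (((K + t : ℕ) : ℤ) - (i : ℤ))) x) =
        ∑ j ∈ (Finset.range N).image (fun i : ℕ => ((K + t : ℕ) : ℤ) - (i : ℤ)),
          D ((σ ^ j) x) := by
      rw [Finset.sum_image]
      intro a _ b _ hab
      simp only at hab
      omega
    rw [e2]
    symm
    refine Finset.sum_subset ?_ ?_
    · intro j hj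
      have h1 := hK j hj
      rw [Finset.mem_image]
      refine ⟨(((K + t : ℕ) : ℤ) - j).toNat, ?_, ?_⟩
      · rw [Finset.mem_range]
        show _ < C + 1 + 2 * K
        omega
      · omega
    · intro j _ hj
      by_contra h1
      exact hj ((hJ j).2 h1)
  have hge : C + 1 ≤ nf E := by
    let Y : Finset X := (Finset.range (C + 1)).image fun t => (σ ^ ((K + t : ℕ) : ℤ)) x
    have hY : Y.card = C + 1 := by
      rw [Finset.card_image_of_injOn, Finset.card_range]
      intro a _ b _ hab
      have := hinj hab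
      omega
    have hYs : Y ⊆ E.support := by
      intro y hy
      obtain ⟨t, ht, rfl⟩ := Finset.mem_image.1 hy
      rw [Finsupp.mem_support_iff, hE t (Finset.mem_range.1 ht)]
      exact hq0
    calc C + 1 = ∑ _y ∈ Y, 1 := by rw [Finset.sum_const, smul_eq_mul, mul_one, hY]
      _ ≤ ∑ y ∈ Y, (E y).natAbs := by
          refine Finset.sum_le_sum fun y hy => ?_
          have h1 := Finsupp.mem_support_iff.1 (hYs hy)
          omega
      _ ≤ ∑ y ∈ E.support, (E y).natAbs :=
          Finset.sum_le_sum_of_subset hYs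
      _ = nf E := rfl
  have := hC N
  have h2 : nf E ≤ C := this
  omega

end Pool.HA
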