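import Pool.Agent.Work.MP_7084a3_h91.InterfaceF

/-! # Block ZO (helper39) -/

set_option autoImplicit false

namespace Pool.HA

open Finsupp

namespace ZOh39

theorem mv_single {X : Type} (σ : Equiv.Perm X) (x : X) (a : ℤ) :
    mv σ (single x a) = single (σ x) a := Finsupp.mapDomain_single

/-- two points of one orbit, positive power -/
theorem one_nat {X : Type} (σ : Equiv.Perm X) (x : X) (k : ℕ) : ∃ Q : X →₀ ℤ,
    single x 1 - single ((σ ^ k) x) 1 = Q - mv σ Q ∧ ∀ z ∈ Q.support, ∃ j : ℤ, (σ ^ j) z = x := by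
  classical
  induction k with
  | zero => exact ⟨0, by simp, by simp⟩
  | succ k ih =>
    obtain ⟨Q, h1, h2⟩ := ih
    refine ⟨Q + single ((σ ^ k) x) 1, ?_, ?_⟩
    · rw [map_add, mv_single]
      have e : σ ((σ ^ k) x) = (σ ^ (k + 1)) x := by
        rw [pow_succ', Equiv.Perm.mul_apply]
      rw [e]
      have : single x (1 : ℤ) - single ((σ ^ (k + 1)) x) 1 =
          (single x 1 - single ((σ ^ k) x) 1) +
          (single ((σ ^ k) x) 1 - single ((σ ^ (k + 1)) x) 1) := by abel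
      rw [this, h1]
      abel
    · intro z hz
      rcases Finset.mem_union.1 (Finsupp.support_add hz) with h | h
      · exact h2 z h
      · have h3 := Finsupp.support_single_subset h
        rw [Finset.mem_singleton] at h3
        refine ⟨-(k : ℤ), ?_⟩
        rw [h3, ← zpow_natCast, ← Equiv.Perm.mul_apply, ← zpow_add]
        simp

theorem one_int {X : Type} (σ : Equiv.Perm X) (x y : X) (k : ℤ) (hk : y = (σ ^ k) x) :
    ∃ Q : X →₀ ℤ, single x 1 - single y 1 = Q - mv σ Q ∧
      ∀ z ∈ Q.support, ∃ j : ℤ, (σ ^ j) z = x := by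
  subst hk
  rcases Int.le_total 0 k with h | h
  · obtain ⟨n, rfl⟩ := Int.eq_ofNat_of_zero_le h
    obtain ⟨Q, h1, h2⟩ := one_nat σ x n
    refine ⟨Q, ?_, h2⟩
    rw [← h1]
    rfl
  · obtain ⟨n, hn⟩ := Int.eq_ofNat_of_zero_le (show 0 ≤ -k by omega)
    obtain ⟨Q, h1, h2⟩ := one_nat σ ((σ ^ k) x) n
    have e : (σ ^ n) ((σ ^ k) x) = x := by
      rw [← Equiv.Perm.mul_apply, ← zpow_natCast, ← zpow_add, ← hn]
      simp
    rw [e] at h1
    refine ⟨-Q, ?_, ?_⟩
    · rw [map_neg, ← neg_sub (single ((σ ^ k) x) (1 : ℤ)), h1]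
      abel
    · intro z hz
      rw [Finsupp.support_neg] at hz
      obtain ⟨j, hj⟩ := h2 z hz
      refine ⟨-k + j, ?_⟩
      rw [zpow_add, Equiv.Perm.mul_apply, hj, ← Equiv.Perm.mul_apply, ← zpow_add]
      simp

end ZOh39

open ZOh39 in
theorem stmt_ZO : Stmt_ZO := by
  classical
  intro X σ D hD
  let r := MulAction.orbitRel (Subgroup.zpowers σ) X
  let p : X → Quotient r := fun x => Quotient.mk r x
  let s : Quotient r → X := Quotient.out
  have hs : ∀ x, ∃ k : ℤ, s (p x) = (σ ^ k) x := by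
    intro x
    have h1 : r (s (p x)) x := Quotient.mk_out x
    obtain ⟨⟨g, hg⟩, hgy⟩ := MulAction.orbitRel_apply.1 h1
    obtain ⟨a, ha⟩ := Subgroup.mem_zpowers_iff.1 hg
    refine ⟨a, ?_⟩
    rw [ha]
    exact hgy.symm
  have hQ : ∀ x, ∃ Q : X →₀ ℤ, single x 1 - single (s (p x)) 1 = Q - mv σ Q ∧
      ∀ z ∈ Q.support, ∃ j : ℤ, (σ ^ j) z = x := by
    intro x
    obtain ⟨k, hk⟩ := hs x
    exact one_int σ x _ k hk
  choose Q hQ1 hQ2 using hQ
  refine ⟨∑ x ∈ D.support, D x • Q x, ?_, ?_⟩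
  · rw [map_sum, ← Finset.sum_sub_distrib]
    have e1 : ∀ x ∈ D.support, D x • Q x - mv σ (D x • Q x) =
        single x (D x) - single (s (p x)) (D x) := by
      intro x _
      rw [map_zsmul, ← smul_sub, ← hQ1, smul_sub, Finsupp.smul_single, Finsupp.smul_single]
      simp
    rw [Finset.sum_congr rfl e1, Finset.sum_sub_distrib]
    have e2 : ∑ x ∈ D.support, single x (D x) = D := Finsupp.sum_single D
    have e3 : ∑ x ∈ D.support, single (s (p x)) (D x) = D.mapDomain (fun x => s (p x)) := rfl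
    have e4 : D.mapDomain (fun x => s (p x)) = 0 := by
      have : D.mapDomain (fun x => s (p x)) = (D.mapDomain p).mapDomain s := by
        rw [← Finsupp.mapDomain_comp]
        rfl
      rw [this]
      have h5 : D.mapDomain p = 0 := hD
      rw [h5, Finsupp.mapDomain_zero]
    rw [e2, e3, e4, sub_zero]
  · intro z hz
    have h1 := Finsupp.support_finset_sum hz
    obtain ⟨x, hx, hzx⟩ := Finset.mem_biUnion.1 h1
    have h2 := Finsupp.support_smul hzx
    obtain ⟨j, hj⟩ := hQ2 x z h2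
    exact ⟨j, by rw [hj]; exact hx⟩

end Pool.HA
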