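import Pool.Agent.Work.MP_7084a3_h91.InterfaceF

/-! # Block ZPER (helper55) -/

set_option autoImplicit false

namespace Pool.HA

theorem stmt_ZPER : Stmt_ZPER := by
  intro X σ D h x hx
  have h1 : ∀ y, D (σ y) = D y := by
    intro y
    have h2 : (mv σ D) (σ y) = D y := Finsupp.mapDomain_apply σ.injective D y
    rw [h] at h2
    exact h2
  have h3 : ∀ n : ℕ, (σ ^ n) x ∈ D.support := by
    intro n
    induction n with
    | zero => simpa using hx
    | succ n ih =>
      rw [pow_succ', Equiv.Perm.mul_apply, Finsupp.mem_support_iff, h1, ← Finsupp.mem_support_iff]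
      exact ih
  obtain ⟨i, j, hij, he⟩ := Finite.exists_ne_map_eq_of_infinite
    (fun n : ℕ => (⟨(σ ^ n) x, h3 n⟩ : D.support))
  have he2 : (σ ^ i) x = (σ ^ j) x := congrArg Subtype.val he
  have key : ∀ i j : ℕ, i < j → (σ ^ i) x = (σ ^ j) x → ∃ k : ℕ, 0 < k ∧ (σ ^ k) x = x := by
    intro i j hlt he
    refine ⟨j - i, by omega, ?_⟩
    have h4 : (σ ^ j) x = (σ ^ i) ((σ ^ (j - i)) x) := by
      rw [← Equiv.Perm.mul_apply, ← pow_add]
      congr 2
      omega
    rw [h4] at he
    exact ((σ ^ i).injective he).symm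
  rcases lt_or_gt_of_ne hij with h5 | h5
  · exact key i j h5 he2
  · exact key j i h5 he2.symm

end Pool.HA
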