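import Pool.Agent.Work.MP_7084a3_h91.InterfaceF

/-! # Block ZX (helper55) -/

set_option autoImplicit false

namespace Pool.HA

theorem stmt_ZX : Stmt_ZX := by
  classical
  intro X σ A B F h hA
  by_contra hne
  push Not at hne
  have hmv : ∀ (E : X →₀ ℤ) (x : X), (mv σ E) x = E (σ⁻¹ x) := by
    intro E x
    have h2 : (mv σ E) (σ (σ⁻¹ x)) = E (σ⁻¹ x) := Finsupp.mapDomain_apply σ.injective E (σ⁻¹ x)
    rwa [show σ (σ⁻¹ x) = x from σ.apply_symm_apply x] at h2
  set Y : Set X := {x | ∃ a ∈ A.support, ∃ k : ℤ, x = (σ ^ k) a} with hY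
  have hYs : ∀ x, σ⁻¹ x ∈ Y ↔ x ∈ Y := by
    intro x
    constructor
    · rintro ⟨a, ha, k, hk⟩
      refine ⟨a, ha, k + 1, ?_⟩
      rw [add_comm, zpow_add, zpow_one, Equiv.Perm.mul_apply, ← hk]
      exact (σ.apply_symm_apply x).symm
    · rintro ⟨a, ha, k, hk⟩
      refine ⟨a, ha, k - 1, ?_⟩
      rw [sub_eq_add_neg, add_comm, zpow_add, Equiv.Perm.mul_apply, ← hk, zpow_neg, zpow_one]
  refine hA (F.filter (fun x => x ∈ Y)) ?_
  ext x
  rw [Finsupp.sub_apply, hmv]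
  have hx : A x - B x = F x - F (σ⁻¹ x) := by
    have := DFunLike.congr_fun h x
    rwa [Finsupp.sub_apply, Finsupp.sub_apply, hmv] at this
  by_cases hxY : x ∈ Y
  · rw [Finsupp.filter_apply_pos _ _ hxY, Finsupp.filter_apply_pos _ _ ((hYs x).2 hxY), ← hx]
    have hB : B x = 0 := by
      by_contra hB
      obtain ⟨a, ha, k, hk⟩ := hxY
      exact hne a ha x (Finsupp.mem_support_iff.2 hB) k hk
    rw [hB, sub_zero]
  · rw [Finsupp.filter_apply_neg _ _ hxY, Finsupp.filter_apply_neg _ _ (fun h => hxY ((hYs x).1 h)),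
      sub_zero]
    by_contra hAx
    exact hxY ⟨x, Finsupp.mem_support_iff.2 hAx, 0, by simp⟩

end Pool.HA
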