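import Pool.Agent.Work.MP_7084a3_h91.InterfaceF

/-! # Block ZZ2 (helper39) -/

set_option autoImplicit false

namespace Pool.HA

theorem mv_apply39 {X : Type} (σ : Equiv.Perm X) (D : X →₀ ℤ) : mv σ D = D.mapDomain σ := rfl

theorem stmt_ZZ2 (hZO : Stmt_ZO) (hZPER : Stmt_ZPER) : Stmt_ZZ2 := by
  classical
  intro X σ τ hc A B hfree h
  let r := MulAction.orbitRel (Subgroup.zpowers σ) X
  let p : X → Quotient r := fun x => Quotient.mk r x
  have hrel : ∀ x y : X, p x = p y → ∃ a : ℤ, x = (σ ^ a) y := by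
    intro x y hxy
    have h1 : r x y := Quotient.exact hxy
    obtain ⟨⟨g, hg⟩, hgy⟩ := MulAction.orbitRel_apply.1 h1
    obtain ⟨a, ha⟩ := Subgroup.mem_zpowers_iff.1 hg
    refine ⟨a, ?_⟩
    rw [ha]
    exact hgy.symm
  have hrel' : ∀ (x : X) (a : ℤ), p ((σ ^ a) x) = p x := by
    intro x a
    apply Quotient.sound
    exact MulAction.orbitRel_apply.2 ⟨⟨σ ^ a, Subgroup.mem_zpowers_iff.2 ⟨a, rfl⟩⟩, rfl⟩
  have hcz : ∀ (a : ℤ) (x : X), τ ((σ ^ a) x) = (σ ^ a) (τ x) := by
    intro a x
    have h1 : Commute (σ ^ a) τ := hc.zpow_left a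
    have h2 : (σ ^ a) * τ = τ * (σ ^ a) := h1.eq
    have h3 := congrArg (fun e : Equiv.Perm X => e x) h2
    exact h3.symm
  let t : Equiv.Perm (Quotient r) := Quotient.congr τ (fun a b => by
    constructor
    · intro hab
      obtain ⟨k, hk⟩ := hrel a b (Quotient.sound hab)
      have : p (τ a) = p (τ b) := by rw [hk, hcz, hrel']
      exact Quotient.exact this
    · intro hab
      obtain ⟨k, hk⟩ := hrel (τ a) (τ b) (Quotient.sound hab)
      rw [← hcz] at hk
      have h1 : a = (σ ^ k) b := τ.injective hk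
      have : p a = p b := by rw [h1, hrel']
      exact Quotient.exact this)
  have htp : ∀ x, t (p x) = p (τ x) := fun x => rfl
  have htk : ∀ (k : ℕ) x, (t ^ k) (p x) = p ((τ ^ k) x) := by
    intro k
    induction k with
    | zero => intro x; rfl
    | succ k ih =>
      intro x
      rw [pow_succ, pow_succ, Equiv.Perm.mul_apply, Equiv.Perm.mul_apply, htp, ih]
  have hA : mv t (A.mapDomain p) = A.mapDomain p := by
    have e1 : (mv τ A).mapDomain p = mv t (A.mapDomain p) := by
      rw [mv_apply39, mv_apply39, ← Finsupp.mapDomain_comp, ← Finsupp.mapDomain_comp]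
      rfl
    have e2 : (mv σ B).mapDomain p = B.mapDomain p := by
      rw [mv_apply39, ← Finsupp.mapDomain_comp]
      congr 1
      funext x
      exact hrel' x 1
    have e3 := congrArg (Finsupp.mapDomain p) h
    rw [sub_eq_add_neg, sub_eq_add_neg, Finsupp.mapDomain_add, Finsupp.mapDomain_add] at e3
    have e4 : ∀ D : X →₀ ℤ, (-D).mapDomain p = -(D.mapDomain p) := by
      intro D
      have := (Finsupp.mapDomain.addMonoidHom (M := ℤ) p).map_neg D
      exact this
    rw [e4, e4, e1, e2, add_neg_cancel] at e3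
    exact (sub_eq_zero.1 (by rw [sub_eq_add_neg]; exact e3)).symm
  have h0 : A.mapDomain p = 0 := by
    by_contra hne
    obtain ⟨z, hz⟩ := Finsupp.support_nonempty_iff.2 hne
    obtain ⟨k, hk, hkz⟩ := hZPER _ t _ hA z hz
    have h1 := Finsupp.mapDomain_support hz
    obtain ⟨y, hy, rfl⟩ := Finset.mem_image.1 h1
    rw [htk] at hkz
    obtain ⟨a, ha⟩ := hrel _ _ hkz
    have h2 := hfree y hy (-a) k (by
      rw [Equiv.Perm.mul_apply, zpow_natCast, ha, ← Equiv.Perm.mul_apply, ← zpow_add]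
      simp)
    have h3 : (k : ℤ) = 0 := h2.2
    omega
  obtain ⟨P, hP, _⟩ := hZO X σ A h0
  exact ⟨P, hP⟩

end Pool.HA
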