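import Pool.Agent.Work.MP_7084a3_h91.InterfaceX

set_option autoImplicit false

/-! # Block ACT: compatibility of the actions on chains -/

namespace Pool.HA

namespace ACTaux

variable {G S : Type} [Group G] {g : S → G}

theorem smul_inj (h : G) {v w : Vtx g} (e : h • v = h • w) : v = w := by
  have := congrArg (fun u => h⁻¹ • u) e
  simpa using this

theorem ty_smul (h : G) (v : Vtx g) : (h • v).ty = v.ty := rfl

theorem mem_smul {v : Vtx g} {x : G} (h : G) (hx : v.mem x) : (h • v).mem (h * x) := by
  unfold Vtx.mem at hx ⊢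
  change (QuotientGroup.mk (h * x) : G ⧸ par g v.J) = h • v.2
  rw [← hx]
  rfl

theorem ad_smul {v w : Vtx g} (h : G) (hvw : v.ad w) : (h • v).ad (h • w) := by
  obtain ⟨⟨x, a, b⟩, c⟩ := hvw
  exact ⟨⟨h * x, mem_smul h a, mem_smul h b⟩, c⟩

theorem f2_inj (h : G) : Function.Injective
    (fun t : Vtx g × Vtx g × Vtx g => (h • t.1, h • t.2.1, h • t.2.2)) := by
  rintro ⟨a, b, c⟩ ⟨a', b', c'⟩ e
  simp only [Prod.mk.injEq] at e
  obtain ⟨e1, e2, e3⟩ := e
  rw [smul_inj h e1, smul_inj h e2, smul_inj h e3]

theorem act1_dl1 (h : G) (x y : Vtx g) : act1 h (dl1 x y) = dl1 (h • x) (h • y) := by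
  unfold dl1 act1
  rw [ty_smul, ty_smul]
  by_cases hc : x.ty < y.ty
  · rw [if_pos hc, if_pos hc]
    simp
  · rw [if_neg hc, if_neg hc, map_zero]

theorem act1_EE (h : G) (x y : Vtx g) : act1 h (EE x y) = EE (h • x) (h • y) := by
  unfold EE
  rw [map_sub, act1_dl1, act1_dl1]

theorem bd2_single (t : Vtx g × Vtx g × Vtx g) (a : ℤ) :
    bd2 g (Finsupp.single t a) = a • (EE t.1 t.2.1 + EE t.2.1 t.2.2 + EE t.2.2 t.1) := by
  unfold bd2
  rw [Finsupp.liftAddHom_apply_single]
  rfl

theorem bd1_single (t : Vtx g × Vtx g) (a : ℤ) :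
    bd1 g (Finsupp.single t a) = a • (Finsupp.single t.2 1 - Finsupp.single t.1 1) := by
  unfold bd1
  rw [Finsupp.liftAddHom_apply_single]
  rfl

theorem act2_single (h : G) (t : Vtx g × Vtx g × Vtx g) (a : ℤ) :
    act2 h (Finsupp.single t a) = Finsupp.single (h • t.1, h • t.2.1, h • t.2.2) a := by
  unfold act2
  simp

theorem act1_single (h : G) (t : Vtx g × Vtx g) (a : ℤ) :
    act1 h (Finsupp.single t a) = Finsupp.single (h • t.1, h • t.2) a := by
  unfold act1
  simp

theorem act0_single (h : G) (t : Vtx g) (a : ℤ) :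
    act0 h (Finsupp.single t a) = Finsupp.single (h • t) a := by
  unfold act0
  simp

theorem bd2_act2 (h : G) (D : C2 g) : bd2 g (act2 h D) = act1 h (bd2 g D) := by
  have key : (bd2 g).comp (act2 h) = (act1 h).comp (bd2 g) := by
    apply Finsupp.addHom_ext
    intro t a
    rw [AddMonoidHom.comp_apply, AddMonoidHom.comp_apply, act2_single, bd2_single, bd2_single,
      map_zsmul, map_add, map_add, act1_EE, act1_EE, act1_EE]
  exact DFunLike.congr_fun key D

theorem bd1_act1 (h : G) (c : C1 g) : bd1 g (act1 h c) = act0 h (bd1 g c) := by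
  have key : (bd1 g).comp (act1 h) = (act0 h).comp (bd1 g) := by
    apply Finsupp.addHom_ext
    intro t a
    rw [AddMonoidHom.comp_apply, AddMonoidHom.comp_apply, act1_single, bd1_single, bd1_single,
      map_zsmul, map_sub, act0_single, act0_single]
  exact DFunLike.congr_fun key c

theorem flagged_act (h : G) {D : C2 g} (hD : Flagged D) : Flagged (act2 h D) := by
  classical
  intro t ht
  have h1 : t ∈ D.support.image (fun t => (h • t.1, h • t.2.1, h • t.2.2)) :=
    Finsupp.mapDomain_support ht
  rw [Finset.mem_image] at h1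
  obtain ⟨u, hu, rfl⟩ := h1
  obtain ⟨a1, a2, a3, a4, a5, a6⟩ := hD u hu
  exact ⟨a1, a2, a3, ad_smul h a4, ad_smul h a5, ad_smul h a6⟩

theorem nrm_act (h : G) (D : C2 g) : nrm (act2 h D) = nrm D := by
  unfold nrm nf act2
  exact Finsupp.sum_mapDomain_index_inj (f2_inj h)

end ACTaux

open ACTaux in
theorem stmt_ACT : Stmt_ACT := by
  intro G S _ g
  refine ⟨fun h D => ⟨bd2_act2 h D, flagged_act h, nrm_act h D⟩, bd1_act1, ?_, ?_, ?_, ?_, ?_, ?_, ?_⟩
  · intro D D' hD hD'
    classical
    constructor
    · intro t ht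
      rcases Finset.mem_union.1 (Finsupp.support_add ht) with h | h
      · exact hD t h
      · exact hD' t h
    · intro t ht
      rcases Finset.mem_union.1 (Finsupp.support_sub ht) with h | h
      · exact hD t h
      · exact hD' t h
  · intro x y D
    unfold act2
    rw [Finsupp.mapDomain.addMonoidHom_apply, Finsupp.mapDomain.addMonoidHom_apply,
      Finsupp.mapDomain.addMonoidHom_apply, ← Finsupp.mapDomain_comp]
    congr 1
    funext t
    simp [mul_smul]
  · intro x y D
    unfold act1
    rw [Finsupp.mapDomain.addMonoidHom_apply, Finsupp.mapDomain.addMonoidHom_apply,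
      Finsupp.mapDomain.addMonoidHom_apply, ← Finsupp.mapDomain_comp]
    congr 1
    funext t
    simp [mul_smul]
  · intro x y D
    unfold act0
    rw [Finsupp.mapDomain.addMonoidHom_apply, Finsupp.mapDomain.addMonoidHom_apply,
      Finsupp.mapDomain.addMonoidHom_apply, ← Finsupp.mapDomain_comp]
    congr 1
    funext t
    simp [mul_smul]
  · intro D
    unfold act2
    rw [Finsupp.mapDomain.addMonoidHom_apply]
    simp only [one_smul]
    exact Finsupp.mapDomain_id
  · intro D
    unfold act1
    rw [Finsupp.mapDomain.addMonoidHom_apply]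
    simp only [one_smul]
    exact Finsupp.mapDomain_id
  · intro D
    unfold act0
    rw [Finsupp.mapDomain.addMonoidHom_apply]
    simp only [one_smul]
    exact Finsupp.mapDomain_id

end Pool.HA
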