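import Pool.Agent.Work.MP_7084a3_h91.InterfaceD

/-! # Block DTH (helper39) -/

set_option autoImplicit false

namespace Pool.HA

namespace DTHh39

/-- scalar units -/
def scal : Subgroup (Matrix (Fin 2) (Fin 2) KK)ˣ where
  carrier := {g | ∃ c : KK, g.val = c • (1 : Matrix (Fin 2) (Fin 2) KK)}
  one_mem' := ⟨1, by simp⟩
  mul_mem' := by
    rintro a b ⟨c, hc⟩ ⟨d, hd⟩
    refine ⟨c * d, ?_⟩
    rw [Units.val_mul, hc, hd, smul_mul_smul_comm, one_mul]
  inv_mem' := by
    rintro a ⟨c, hc⟩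
    have h1 : a.val * a.inv = 1 := a.val_inv
    rw [hc, smul_mul_assoc, one_mul] at h1
    have hc0 : c ≠ 0 := by
      rintro rfl
      rw [zero_smul] at h1
      exact zero_ne_one h1
    refine ⟨c⁻¹, ?_⟩
    show a.inv = _
    rw [← h1, smul_smul, inv_mul_cancel₀ hc0, one_smul]

instance scal_normal : scal.Normal := ⟨by
  rintro a ⟨c, hc⟩ g
  refine ⟨c, ?_⟩
  rw [Units.val_mul, Units.val_mul, hc, mul_smul_comm, mul_one, smul_mul_assoc, Units.mul_inv]⟩

/-- the real rotation -/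
noncomputable def R0 (m : ℕ) : Matrix (Fin 2) (Fin 2) ℝ := !![lam m, -1; 1, 0]

theorem R0_pow (m : ℕ) (hm : 2 ≤ m) (k : ℕ) :
    Real.sin (Real.pi / m) • R0 m ^ k =
      !![Real.sin ((k + 1) * (Real.pi / m)), -Real.sin (k * (Real.pi / m));
         Real.sin (k * (Real.pi / m)), -Real.sin ((k - 1) * (Real.pi / m))] := by
  set θ := Real.pi / m with hθ
  induction k with
  | zero =>
    rw [pow_zero]
    ext i j
    fin_cases i <;> fin_cases j <;> simp
  | succ k ih =>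
    rw [pow_succ, ← smul_mul_assoc, ih]
    unfold R0 lam
    rw [← hθ]
    have e1 : Real.sin (((k : ℝ) + 1 + 1) * θ) =
        Real.sin (((k : ℝ) + 1) * θ) * (2 * Real.cos θ) - Real.sin (k * θ) := by
      have a1 : ((k : ℝ) + 1 + 1) * θ = ((k : ℝ) + 1) * θ + θ := by ring
      have a2 : (k : ℝ) * θ = ((k : ℝ) + 1) * θ - θ := by ring
      rw [a1, a2, Real.sin_add, Real.sin_sub]
      ring
    have e2 : Real.sin (((k : ℝ) + 1) * θ) =
        Real.sin ((k : ℝ) * θ) * (2 * Real.cos θ) - Real.sin (((k : ℝ) - 1) * θ) := by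
      have a1 : ((k : ℝ) + 1) * θ = (k : ℝ) * θ + θ := by ring
      have a2 : ((k : ℝ) - 1) * θ = (k : ℝ) * θ - θ := by ring
      rw [a1, a2, Real.sin_add, Real.sin_sub]
      ring
    ext i j
    fin_cases i <;> fin_cases j
    · simp [Matrix.mul_apply, Fin.sum_univ_two]
      rw [e1]; ring
    · simp [Matrix.mul_apply, Fin.sum_univ_two]
    · simp [Matrix.mul_apply, Fin.sum_univ_two]
      rw [e2]; ring
    · simp [Matrix.mul_apply, Fin.sum_univ_two]

theorem R0_m (m : ℕ) (hm : 2 ≤ m) : R0 m ^ m = -1 := by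
  have hm0 : (m : ℝ) ≠ 0 := by positivity
  have h1 := R0_pow m hm m
  have hs : 0 < Real.sin (Real.pi / m) := by
    apply Real.sin_pos_of_pos_of_lt_pi
    · positivity
    · have : (2 : ℝ) ≤ m := by exact_mod_cast hm
      rw [div_lt_iff₀ (by positivity)]
      nlinarith [Real.pi_pos]
  have e0 : (m : ℝ) * (Real.pi / m) = Real.pi := by field_simp
  have e1 : Real.sin (((m : ℝ) + 1) * (Real.pi / m)) = -Real.sin (Real.pi / m) := by
    rw [add_mul, e0, one_mul, add_comm, Real.sin_add_pi]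
  have e2 : Real.sin (((m : ℝ) - 1) * (Real.pi / m)) = Real.sin (Real.pi / m) := by
    rw [sub_mul, e0, one_mul, Real.sin_pi_sub]
  rw [e0, e1, e2, Real.sin_pi] at h1
  have h2 : Real.sin (Real.pi / m) • R0 m ^ m = Real.sin (Real.pi / m) •
      (-1 : Matrix (Fin 2) (Fin 2) ℝ) := by
    rw [h1]
    ext i j
    fin_cases i <;> fin_cases j <;> simp
  exact smul_right_injective _ hs.ne' h2

theorem U0_m (m : ℕ) (hm : 2 ≤ m) : U0 m ^ m = -1 := by
  have h1 : U0 m = (algebraMap ℝ KK).mapMatrix (R0 m) := by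
    unfold U0 R0
    ext i j
    fin_cases i <;> fin_cases j <;> simp
  rw [h1, ← map_pow, R0_m m hm, map_neg, map_one]

theorem U0_det (m : ℕ) : (U0 m).det = 1 := by
  unfold U0
  rw [Matrix.det_fin_two_of]
  ring

theorem J0_det : (J0).det = -RatFunc.X := by
  unfold J0
  rw [Matrix.det_fin_two_of]
  ring

theorem J0_sq : J0 * J0 = (RatFunc.X : KK) • (1 : Matrix (Fin 2) (Fin 2) KK) := by
  unfold J0
  ext i j
  fin_cases i <;> fin_cases j <;> simp [Matrix.mul_apply, Fin.sum_univ_two]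

theorem UJ_s (m : ℕ) : U0 m * J0 = sM m := by
  unfold U0 J0 sM
  ext i j
  fin_cases i <;> fin_cases j <;> simp [Matrix.mul_apply, Fin.sum_univ_two]

theorem JU_t (m : ℕ) : J0 * U0 m = tM m := by
  unfold U0 J0 tM
  ext i j
  fin_cases i <;> fin_cases j <;> simp [Matrix.mul_apply, Fin.sum_univ_two]
  ring

theorem word_map {F G : Type} [Group F] [Group G] (f : F →* G) (u j : F) (e : List ℤ) :
    f (wordF u j e) = wordF (f u) (f j) e := by
  unfold wordF
  rw [map_list_prod, List.map_map]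
  congr 1
  refine List.map_congr_left fun a _ => ?_
  simp

end DTHh39

open DTHh39 in
theorem stmt_DTH (hDPL : Stmt_DPL) (hDDEG : Stmt_DDEG) : Stmt_DTH := by
  intro S M hM s t hst
  obtain ⟨Φ, h1, h2⟩ := hDPL S M hM s t hst
  set m := M s t with hm
  have hm2 : 2 ≤ m := by
    have a1 := hM s t
    have a2 : M s t ≠ 1 := M.off_diagonal s t hst
    omega
  have hX : (RatFunc.X : KK) ≠ 0 := RatFunc.X_ne_zero
  obtain ⟨U, hU⟩ : IsUnit (U0 m) := by
    rw [Matrix.isUnit_iff_isUnit_det, U0_det]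
    exact isUnit_one
  obtain ⟨J, hJ⟩ : IsUnit J0 := by
    rw [Matrix.isUnit_iff_isUnit_det, J0_det]
    exact (neg_ne_zero.2 hX).isUnit
  let π : (Matrix (Fin 2) (Fin 2) KK)ˣ →* (Matrix (Fin 2) (Fin 2) KK)ˣ ⧸ scal :=
    QuotientGroup.mk' scal
  have hπ : ∀ g, π g = 1 ↔ ∃ c : KK, g.val = c • (1 : Matrix (Fin 2) (Fin 2) KK) := by
    intro g
    exact QuotientGroup.eq_one_iff (N := scal) g
  refine ⟨(Matrix (Fin 2) (Fin 2) KK)ˣ ⧸ scal, inferInstance, π U, π J,
    π.comp Φ.toHomUnits, Φ, ⟨?_, ?_, ?_⟩, h1, h2, ?_, ?_, ?_⟩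
  · rw [← map_pow, hπ]
    refine ⟨-1, ?_⟩
    rw [Units.val_pow_eq_pow_val, hU, U0_m m hm2, neg_smul, one_smul]
  · rw [← map_mul, hπ]
    refine ⟨RatFunc.X, ?_⟩
    rw [Units.val_mul, hJ, J0_sq]
  · intro e he hdiv h3
    rw [← word_map, hπ] at h3
    obtain ⟨c, hc⟩ := h3
    exact (hDDEG m hm2 U J hU hJ e he hdiv c).1 hc
  · intro x hx
    rw [MonoidHom.comp_apply, ← map_mul]
    congr 1
    apply Units.ext
    rw [MonoidHom.coe_toHomUnits, Units.val_mul, hU, hJ, UJ_s, h1 x hx]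
  · intro x hx
    rw [MonoidHom.comp_apply, ← map_mul]
    congr 1
    apply Units.ext
    rw [MonoidHom.coe_toHomUnits, Units.val_mul, hU, hJ, JU_t, h2 x hx]
  · intro x
    rw [MonoidHom.comp_apply, hπ, MonoidHom.coe_toHomUnits]

end Pool.HA
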