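import Pool.Agent.Work.MP_7084a3_h91.InterfaceX
import Pool.Agent.Work.MP_7084a3_h91.InterfaceD
import Pool.Agent.Work.MP_7084a3_h91.InterfaceF
import Pool.Agent.Work.MP_7084a3_h91.Basic

set_option autoImplicit false

namespace Pool.HA

theorem stmt_F10 (hDPG : Stmt_DPG) : Stmt_F10 := by
  classical
  intro S _ M hM hcard r hr
  obtain ⟨x, s, rfl⟩ := hr
  have hex : ∃ t₁ t₂ : S, t₁ ≠ s ∧ t₂ ≠ s ∧ t₁ ≠ t₂ := by
    haveI : Fintype S := Fintype.ofFinite S
    rw [Nat.card_eq_fintype_card] at hcard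
    have h1 : 2 ≤ (Finset.univ.erase s).card := by
      rw [Finset.card_erase_of_mem (Finset.mem_univ s), Finset.card_univ]; omega
    obtain ⟨t₁, ht₁, t₂, ht₂, hne⟩ := Finset.one_lt_card.1 h1
    exact ⟨t₁, t₂, Finset.ne_of_mem_erase ht₁, Finset.ne_of_mem_erase ht₂, hne⟩
  obtain ⟨t₁, t₂, h1, h2, h12⟩ := hex
  have hcard2 : ∀ t : S, t ≠ s → ({s, t} : Finset S).card ≤ 2 := fun t _ => Finset.card_le_two
  have hcard2' : ∀ t : S, t ≠ s → ({s, t} : Finset S).card = 2 := fun t ht =>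
    Finset.card_pair ht.symm
  have hfix : ∀ (t : S) (ht : t ≠ s) (y : Art M), y⁻¹ * (x * gen M s * x⁻¹) * y = gen M s →
      (x * gen M s * x⁻¹) • Vtx.mk (gen M) {s, t} (hcard2 t ht) y =
        Vtx.mk (gen M) {s, t} (hcard2 t ht) y := by
    intro t ht y hy
    rw [Vtx.smul_eq_iff (Vtx.mk_mem _ _ _), hy]
    exact gen_mem_par (by simp)
  have hprop : ∀ (t : S) (ht : t ≠ s) (y : Art M), 3 ≤ M s t →
      (Vtx.mk (gen M) {s, t} (hcard2 t ht) y).ty = 2 ∧
        3 ≤ lb M (Vtx.mk (gen M) {s, t} (hcard2 t ht) y).J := by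
    intro t ht y h3
    refine ⟨hcard2' t ht, ?_⟩
    rw [Vtx.mk_J, lb_pair ht.symm (by omega)]
    exact h3
  have hcase : ∀ t t' : S, t ≠ s → t' ≠ s → t ≠ t' → M s t = 2 →
      ∃ u₁ u₂ : Vtx (gen M), u₁ ≠ u₂ ∧ (x * gen M s * x⁻¹) • u₁ = u₁ ∧
        (x * gen M s * x⁻¹) • u₂ = u₂ ∧ (∀ u ∈ [u₁, u₂], u.ty = 2 ∧ 3 ≤ lb M u.J) := by
    intro t t' ht ht' htt h2
    have h3 : 3 ≤ M s t' := hM.match ht.symm ht'.symm htt h2
    refine ⟨Vtx.mk (gen M) {s, t'} (hcard2 t' ht') x,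
      Vtx.mk (gen M) {s, t'} (hcard2 t' ht') (x * gen M t), ?_, ?_, ?_, ?_⟩
    · intro he
      have h4 : (Vtx.mk (gen M) {s, t'} (hcard2 t' ht') x).mem (x * gen M t) := by
        rw [he]; exact Vtx.mk_mem _ _ _
      rw [Vtx.mk_mem_iff, inv_mul_cancel_left] at h4
      have h5 := hDPG S M hM.ne_zero _ _ h4
      simp only [Finset.mem_insert, Finset.mem_singleton] at h5
      rcases h5 with h5 | h5
      · exact ht h5
      · exact htt h5
    · exact hfix t' ht' x (by group)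
    · refine hfix t' ht' _ ?_
      have hb := braid (M := M) ht.symm (by rw [h2]; norm_num)
      rw [h2] at hb
      simp only [altG, mul_one] at hb
      calc (x * gen M t)⁻¹ * (x * gen M s * x⁻¹) * (x * gen M t)
          = (gen M t)⁻¹ * (gen M s * gen M t) := by group
        _ = (gen M t)⁻¹ * (gen M t * gen M s) := by rw [hb]
        _ = gen M s := by group
    · intro u hu
      simp only [List.mem_cons, List.not_mem_nil, or_false] at hu
      rcases hu with rfl | rfl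
      · exact hprop t' ht' _ h3
      · exact hprop t' ht' _ h3
  by_cases hA : M s t₁ = 2
  · exact hcase t₁ t₂ h1 h2 h12 hA
  by_cases hB : M s t₂ = 2
  · exact hcase t₂ t₁ h2 h1 h12.symm hB
  have h3 : 3 ≤ M s t₁ := by have := hM.two_le h1.symm; omega
  have h4 : 3 ≤ M s t₂ := by have := hM.two_le h2.symm; omega
  refine ⟨Vtx.mk (gen M) {s, t₁} (hcard2 t₁ h1) x, Vtx.mk (gen M) {s, t₂} (hcard2 t₂ h2) x,
    ?_, hfix t₁ h1 x (by group), hfix t₂ h2 x (by group), ?_⟩
  · intro he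
    have h5 : ({s, t₁} : Finset S) = {s, t₂} := congrArg Vtx.J he
    have h6 : t₁ ∈ ({s, t₂} : Finset S) := by rw [← h5]; simp
    simp only [Finset.mem_insert, Finset.mem_singleton] at h6
    rcases h6 with h6 | h6
    · exact h1 h6
    · exact h12 h6
  · intro u hu
    simp only [List.mem_cons, List.not_mem_nil, or_false] at hu
    rcases hu with rfl | rfl
    · exact hprop t₁ h1 _ h3
    · exact hprop t₂ h2 _ h4

end Pool.HA
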