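import Pool.Agent.Work.MP_7084a3_h91.InterfaceF

/-! # Block FREV (helper55) -/

set_option autoImplicit false

namespace Pool.HA

theorem stmt_FREV (hFCAT : Stmt_FCAT) (hFROT : Stmt_FROT) : Stmt_FREV := by
  intro V A _ adj T hT l D n h
  induction h with
  | nil => rw [neg_zero]; exact Fill.nil
  | @sph u v D n h1 _ ih => exact Fill.sph h1 ih
  | @pair u v P₁ P₂ D₁ D₂ n₁ n₂ h1 h2 h3 _ _ ih1 ih2 =>
    have e0 : ∀ x ∈ (rv P₁).head?, x = v := by
      intro x hx
      cases P₁ with
      | nil => simp [rv] at hx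
      | cons a l => simp [rv] at hx; subst hx; exact h2 a (by simp)
    have e1 : Fill adj T (u :: (rv P₁ ++ v :: [])) (-D₁ + 0) (n₁ + 0) :=
      Fill.pair h1 e0 (by simp) ih1 Fill.nil
    have e2 := hFCAT V A adj T (rv P₂) (u :: (rv P₁ ++ v :: [])) (-D₂) (-D₁ + 0) n₂ (n₁ + 0)
      ih2 e1 (by
        intro z hz z' hz'
        simp at hz'
        subst hz'
        cases P₂ with
        | nil => simp [rv] at hz
        | cons a l => simp [rv] at hz; subst hz; exact h3 a (by simp))
    have e3 : rv P₂ ++ (u :: (rv P₁ ++ v :: [])) = rv (u :: (P₁ ++ v :: P₂)) := by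
      have e4 : rv P₁ ++ v :: [] = v :: P₁.reverse := by
        cases P₁ with
        | nil => simp [rv]
        | cons a l => rw [h2 a (by simp)]; simp [rv]
      rw [e4]
      cases P₂ with
      | nil => simp [rv]
      | cons a l => rw [h3 a (by simp)]; simp [rv]
    rw [e3] at e2
    have e5 : -D₂ + (-D₁ + 0) = -(D₁ + D₂) := by abel
    have e6 : n₂ + (n₁ + 0) = n₁ + n₂ := by omega
    rwa [e5, e6] at e2
  | @tri u v c q D n h1 h2 h3 _ ih =>
    have e1 : Fill adj T ((u :: q.reverse) ++ [v, c]) (-D) n := by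
      have : rv (u :: c :: v :: q) = (u :: q.reverse) ++ [v, c] := by simp [rv]
      rwa [this] at ih
    have e2 : Fill adj T (v :: c :: u :: q.reverse) (-D) n := hFROT V A adj T hT _ _ _ _ e1
    have e3 : Fill adj T ([v] ++ (u :: q.reverse)) (-D + T v u c) (n + 1) :=
      Fill.tri (hT.symm _ _ h1) (hT.symm _ _ h3) (hT.symm _ _ h2) e2
    have e4 := hFROT V A adj T hT _ _ _ _ e3
    have e5 : rv (u :: v :: q) = (u :: q.reverse) ++ [v] := by simp [rv]
    have e6 : -(D + T u v c) = -D + T v u c := by rw [hT.anti u v c]; abel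
    rw [e5, e6]
    exact e4

end Pool.HA
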