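import Pool.Agent.Work.MP_7084a3_h91.InterfaceW

set_option autoImplicit false
set_option linter.unusedSectionVars false

/-! # Block POS (helper79): every root is nonnegative or nonpositive (Tits) -/

namespace Pool.HA.POS

open CoxeterSystem

section

variable {S : Type} [Fintype S] [DecidableEq S] {M : CoxeterMatrix S}
  {ρ : M.Group →* Module.End ℝ (S → ℝ)}

/-- the product of the alternating word of length `k` in `s, t` ending in `t` -/
noncomputable def aw (M : CoxeterMatrix S) (s t : S) (k : ℕ) : M.Group :=
  M.toCoxeterSystem.wordProd (alternatingWord s t k)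

theorem simple_eq (s : S) : M.toCoxeterSystem.simple s = M.simple s := rfl

theorem aw_zero (s t : S) : aw M s t 0 = 1 := by
  unfold aw
  simp [alternatingWord]

theorem aw_succ (s t : S) (k : ℕ) :
    aw M s t (k + 1) = M.simple (if Even k then t else s) * aw M s t k := by
  unfold aw
  rw [alternatingWord_succ', wordProd_cons]
  rfl

theorem aw_succ_right (s t : S) (k : ℕ) :
    aw M s t (k + 1) = aw M t s k * M.simple t := by
  unfold aw
  rw [alternatingWord_succ, wordProd_concat]
  rfl

theorem length_aw (s t : S) (k : ℕ) : M.toCoxeterSystem.length (aw M s t k) ≤ k := by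
  have h := M.toCoxeterSystem.length_wordProd_le (alternatingWord s t k)
  rw [length_alternatingWord] at h
  exact h

theorem aw_braid (s t : S) : aw M s t (M s t) = aw M t s (M s t) := by
  unfold aw
  have h := M.toCoxeterSystem.prod_alternatingWord_eq_prod_alternatingWord_sub s t (M s t)
    (by omega)
  rw [h]
  congr 2
  omega

theorem aw_split (s t : S) (m j : ℕ) : ∃ b : M.Group, M.toCoxeterSystem.length b ≤ j ∧
    aw M s t (m + j) = b * aw M s t m := by
  induction j with
  | zero => exact ⟨1, by simp, by simp⟩
  | succ j ih =>
    obtain ⟨b, hb, h⟩ := ih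
    refine ⟨M.simple (if Even (m + j) then t else s) * b, ?_, ?_⟩
    · refine (M.toCoxeterSystem.length_mul_le _ _).trans ?_
      have h1 := M.toCoxeterSystem.length_simple (if Even (m + j) then t else s)
      rw [simple_eq] at h1
      omega
    · rw [← add_assoc, aw_succ, h, mul_assoc]

theorem simple_sq' (s : S) : M.simple s * M.simple s = 1 :=
  M.toCoxeterSystem.simple_mul_simple_self s

theorem simple_inv' (s : S) : (M.simple s)⁻¹ = M.simple s :=
  M.toCoxeterSystem.inv_simple s

theorem rs_self (h : IsRep M ρ) (hB : ∀ s t, bf M (bs s) (bs t) = -Real.cos (Real.pi / M s t))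
    (s : S) : ρ (M.simple s) (bs s) = -bs s := by
  rw [h, hB, M.diagonal]
  simp
  rw [two_smul]
  abel

theorem rs_ne (h : IsRep M ρ) (hB : ∀ s t, bf M (bs s) (bs t) = -Real.cos (Real.pi / M s t))
    (s t : S) : ρ (M.simple t) (bs s) = bs s + (2 * Real.cos (Real.pi / M s t)) • bs t := by
  rw [h, hB]
  rw [mul_neg, neg_smul, sub_neg_eq_add]

/-- the action of the alternating products on the simple root `s` -/
theorem aw_root (h : IsRep M ρ)
    (hB : ∀ s t, bf M (bs s) (bs t) = -Real.cos (Real.pi / M s t)) (s t : S) (θ : ℝ)
    (hθ : θ = Real.pi / M s t) (h0 : Real.sin θ ≠ 0) (k : ℕ) :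
    ρ (aw M s t k) (bs s) =
      (Real.sin ((k + 1 : ℝ) * θ) / Real.sin θ) • bs (if Even k then s else t) +
      (Real.sin ((k : ℝ) * θ) / Real.sin θ) • bs (if Even k then t else s) := by
  have hst : ρ (M.simple t) (bs s) = bs s + (2 * Real.cos θ) • bs t := by
    rw [rs_ne h hB, hθ]
  have hts : ρ (M.simple s) (bs t) = bs t + (2 * Real.cos θ) • bs s := by
    rw [rs_ne h hB, M.symmetric t s, hθ]
  have htrig : ∀ x : ℝ, 2 * Real.cos θ * Real.sin ((x + 1) * θ) - Real.sin (x * θ) =
      Real.sin ((x + 1 + 1) * θ) := by
    intro x
    have e1 : x * θ = (x + 1) * θ - θ := by ring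
    have e2 : (x + 1 + 1) * θ = (x + 1) * θ + θ := by ring
    rw [e1, e2, Real.sin_sub, Real.sin_add]
    ring
  induction k with
  | zero =>
    rw [aw_zero, map_one]
    simp [h0]
  | succ k ih =>
    rw [aw_succ, map_mul, Module.End.mul_apply, ih]
    have hk := htrig k
    by_cases hev : Even k
    · have hodd : ¬ Even (k + 1) := by
        rw [Nat.even_add_one]; simpa using hev
      simp only [if_pos hev, if_neg hodd]
      rw [map_add, map_smul, map_smul, hst, rs_self h hB t]
      push_cast
      rw [← hk]
      ext x
      simp only [Pi.add_apply, Pi.smul_apply, smul_eq_mul, Pi.neg_apply]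
      field_simp
      ring
    · have heven : Even (k + 1) := by
        rw [Nat.even_add_one]; exact hev
      simp only [if_neg hev, if_pos heven]
      rw [map_add, map_smul, map_smul, hts, rs_self h hB s]
      push_cast
      rw [← hk]
      ext x
      simp only [Pi.add_apply, Pi.smul_apply, smul_eq_mul, Pi.neg_apply]
      field_simp
      ring

theorem main (hne : ∀ s t, M s t ≠ 0) (h : IsRep M ρ)
    (hB : ∀ s t, bf M (bs s) (bs t) = -Real.cos (Real.pi / M s t)) (N : ℕ) :
    ∀ w : M.Group, M.toCoxeterSystem.length w = N → ∀ s : S,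
      M.toCoxeterSystem.length w < M.toCoxeterSystem.length (w * M.simple s) →
        ∀ x, 0 ≤ ρ w (bs s) x := by
  induction N using Nat.strong_induction_on with
  | _ N ih =>
    intro w hw s hs
    by_cases h1 : w = 1
    · subst h1
      intro x
      rw [map_one]
      show 0 ≤ (Pi.single s (1 : ℝ) : S → ℝ) x
      by_cases hx : x = s
      · subst hx; simp
      · rw [Pi.single_eq_of_ne hx]
    obtain ⟨t, ht⟩ := M.toCoxeterSystem.exists_rightDescent_of_ne_one h1
    have hst : s ≠ t := by
      rintro rfl
      unfold IsRightDescent at ht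
      rw [simple_eq] at ht
      omega
    have ht1 : M.toCoxeterSystem.length (w * M.simple t) + 1 = M.toCoxeterSystem.length w :=
      (M.toCoxeterSystem.isRightDescent_iff).1 ht
    -- the set of good lengths
    let K : ℕ → Prop := fun k =>
      M.toCoxeterSystem.length (w * (aw M s t k)⁻¹) + k = M.toCoxeterSystem.length w
    have hK1 : K 1 := by
      show M.toCoxeterSystem.length (w * (aw M s t 1)⁻¹) + 1 = M.toCoxeterSystem.length w
      have e : aw M s t 1 = M.simple t := by
        rw [aw_succ, aw_zero]; simp
      rw [e, simple_inv']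
      exact ht1
    have hKb : ∀ k, K k → k ≤ M.toCoxeterSystem.length w := by
      intro k hk
      have hk' : M.toCoxeterSystem.length (w * (aw M s t k)⁻¹) + k =
        M.toCoxeterSystem.length w := hk
      omega
    obtain ⟨k, hk, hkmax⟩ : ∃ k, K k ∧ ∀ j, K j → j ≤ k := by
      classical
      refine ⟨Nat.findGreatest K (M.toCoxeterSystem.length w), ?_, ?_⟩
      · exact Nat.findGreatest_spec (hKb 1 hK1) hK1
      · intro j hj
        exact Nat.le_findGreatest (hKb j hj) hj
    have hk1 : 1 ≤ k := hkmax 1 hK1
    obtain ⟨v, hv⟩ : ∃ v, v = w * (aw M s t k)⁻¹ := ⟨_, rfl⟩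
    have hlv : M.toCoxeterSystem.length v + k = M.toCoxeterSystem.length w := by
      rw [hv]; exact hk
    have hwv : w = v * aw M s t k := by rw [hv]; simp
    -- the other letter
    have hp' : M.toCoxeterSystem.length v <
        M.toCoxeterSystem.length (v * M.simple (if Even k then t else s)) := by
      by_contra hcon
      have h2 := M.toCoxeterSystem.length_mul_simple v (if Even k then t else s)
      rw [simple_eq] at h2
      have h3 : M.toCoxeterSystem.length (v * M.simple (if Even k then t else s)) + 1 =
          M.toCoxeterSystem.length v := by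
        rcases h2 with h2 | h2 <;> omega
      have h4 : K (k + 1) := by
        show M.toCoxeterSystem.length (w * (aw M s t (k + 1))⁻¹) + (k + 1) =
          M.toCoxeterSystem.length w
        have e : w * (aw M s t (k + 1))⁻¹ = v * M.simple (if Even k then t else s) := by
          rw [aw_succ, mul_inv_rev, simple_inv', hv, mul_assoc]
        rw [e]
        omega
      have := hkmax _ h4
      omega
    -- the first letter
    have hp : M.toCoxeterSystem.length v <
        M.toCoxeterSystem.length (v * M.simple (if Even k then s else t)) := by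
      by_contra hcon
      have h2 := M.toCoxeterSystem.length_mul_simple v (if Even k then s else t)
      rw [simple_eq] at h2
      have h3 : M.toCoxeterSystem.length (v * M.simple (if Even k then s else t)) + 1 =
          M.toCoxeterSystem.length v := by
        rcases h2 with h2 | h2 <;> omega
      obtain ⟨j, rfl⟩ : ∃ j, k = j + 1 := ⟨k - 1, by omega⟩
      have e0 : (if Even (j + 1) then s else t) = (if Even j then t else s) := by
        by_cases hj : Even j
        · have : ¬ Even (j + 1) := by rw [Nat.even_add_one]; simpa using hj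
          rw [if_neg this, if_pos hj]
        · have : Even (j + 1) := by rw [Nat.even_add_one]; exact hj
          rw [if_pos this, if_neg hj]
      have e : w = (v * M.simple (if Even (j + 1) then s else t)) * aw M s t j := by
        rw [e0, hwv, aw_succ, ← mul_assoc]
      have h4 := M.toCoxeterSystem.length_mul_le
        (v * M.simple (if Even (j + 1) then s else t)) (aw M s t j)
      rw [← e] at h4
      have h5 := length_aw (M := M) s t j
      omega
    have hvs : M.toCoxeterSystem.length v < M.toCoxeterSystem.length (v * M.simple s) := by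
      by_cases hev : Even k
      · rw [if_pos hev] at hp; exact hp
      · rw [if_neg hev] at hp'; exact hp'
    have hvt : M.toCoxeterSystem.length v < M.toCoxeterSystem.length (v * M.simple t) := by
      by_cases hev : Even k
      · rw [if_pos hev] at hp'; exact hp'
      · rw [if_neg hev] at hp; exact hp
    have hlt : M.toCoxeterSystem.length v < N := by omega
    have hps := ih _ hlt v rfl s hvs
    have hpt := ih _ hlt v rfl t hvt
    -- `k < m`
    have hkm : k < M s t := by
      by_contra hcon
      push Not at hcon
      obtain ⟨j, hj⟩ : ∃ j, k = M s t + j := ⟨k - M s t, by omega⟩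
      obtain ⟨b, hb, hbe⟩ := aw_split (M := M) s t (M s t) j
      obtain ⟨m, hm⟩ : ∃ m, M s t = m + 1 := ⟨M s t - 1, by
        have := hne s t
        omega⟩
      have e1 : aw M s t (M s t) = aw M s t m * M.simple s := by
        rw [aw_braid, hm, aw_succ_right]
      have e2 : w * M.simple s = v * (b * aw M s t m) := by
        rw [hwv, hj, hbe, e1]
        simp only [mul_assoc]
        rw [simple_sq', mul_one]
      have h2 := M.toCoxeterSystem.length_mul_le v (b * aw M s t m)
      have h3 := M.toCoxeterSystem.length_mul_le b (aw M s t m)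
      have h4 := length_aw (M := M) s t m
      rw [← e2] at h2
      omega
    -- conclusion
    have hm2 : 2 ≤ M s t := by
      have h2 := hne s t
      have h3 := M.off_diagonal s t hst
      omega
    have hm0 : (0 : ℝ) < M s t := by
      have : 0 < M s t := by omega
      exact_mod_cast this
    obtain ⟨θ, hθ⟩ : ∃ θ : ℝ, θ = Real.pi / M s t := ⟨_, rfl⟩
    have hθ0 : 0 < θ := by rw [hθ]; positivity
    have hθm : θ * M s t = Real.pi := by rw [hθ]; field_simp
    have hθ1 : θ < Real.pi := by
      have : (2 : ℝ) ≤ M s t := by exact_mod_cast hm2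
      nlinarith [Real.pi_pos]
    have hsin : 0 < Real.sin θ := Real.sin_pos_of_pos_of_lt_pi hθ0 hθ1
    have hs1 : 0 ≤ Real.sin ((k + 1 : ℝ) * θ) := by
      refine Real.sin_nonneg_of_nonneg_of_le_pi (by positivity) ?_
      have : (k : ℝ) + 1 ≤ M s t := by exact_mod_cast hkm
      nlinarith
    have hs2 : 0 ≤ Real.sin ((k : ℝ) * θ) := by
      refine Real.sin_nonneg_of_nonneg_of_le_pi (by positivity) ?_
      have : (k : ℝ) ≤ M s t := by exact_mod_cast hkm.le
      nlinarith
    intro x
    rw [hwv, map_mul, Module.End.mul_apply, aw_root h hB s t θ hθ hsin.ne' k, map_add, map_smul,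
      map_smul]
    simp only [Pi.add_apply, Pi.smul_apply, smul_eq_mul]
    have hp1 : 0 ≤ ρ v (bs (if Even k then s else t)) x := by
      by_cases hev : Even k
      · rw [if_pos hev]; exact hps x
      · rw [if_neg hev]; exact hpt x
    have hp2 : 0 ≤ ρ v (bs (if Even k then t else s)) x := by
      by_cases hev : Even k
      · rw [if_pos hev]; exact hpt x
      · rw [if_neg hev]; exact hps x
    have := mul_nonneg (div_nonneg hs1 hsin.le) hp1
    have := mul_nonneg (div_nonneg hs2 hsin.le) hp2
    linarith

end

end Pool.HA.POS

namespace Pool.HA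

theorem stmt_POS (hBFI : Stmt_BFI) : Stmt_POS := by
  intro S _ _ M ρ hne h w s
  obtain ⟨-, -, hB, -, -, -⟩ := hBFI S M ρ h
  refine ⟨POS.main hne h hB _ w rfl s, fun hlt x => ?_⟩
  have e : w * M.simple s * M.simple s = w := by
    rw [mul_assoc, POS.simple_sq', mul_one]
  have h1 := POS.main hne h hB _ (w * M.simple s) rfl s (by rw [e]; exact hlt) x
  rw [map_mul, Module.End.mul_apply, POS.rs_self h hB, map_neg] at h1
  simp only [Pi.neg_apply] at h1
  linarith

end Pool.HA
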