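import Pool.Agent.Work.MP_7084a3_h91.B.CC

set_option autoImplicit false

/-! # Block PROD (helper45) -/

namespace Pool.HA.H45

theorem esum_altG {S : Type} (M : CoxeterMatrix S) : ∀ (n : ℕ) (s t : S),
    esum M (altG (gen M s) (gen M t) n) = Multiplicative.ofAdd (n : ℤ)
  | 0, s, t => by simp [altG]
  | n + 1, s, t => by
    rw [altG, map_mul, esum_altG M n, esum_gen, ← ofAdd_add]
    congr 1
    push_cast; ring

theorem esum_conj {S : Type} (M : CoxeterMatrix S) (w y : Art M) :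
    esum M (w * y * w⁻¹) = esum M y := by
  rw [map_mul, map_mul, map_inv, mul_right_comm, mul_inv_cancel, one_mul]

theorem _root_.Pool.HA.stmt_PROD (hCB : Stmt_CB) (hCC : Stmt_CC) (hDCPC : Stmt_DCPC)
    (hDCEN : Stmt_DCEN) : Stmt_PROD := by
  classical
  intro S S' _ _ M M' hM hM' hc hc' φ s t hst hm
  have h1 : ∀ s : S, ∃ k : ℤ, (k = 1 ∨ k = -1) ∧ esum M' (φ (gen M s)) = Multiplicative.ofAdd k := by
    intro s
    obtain ⟨r', hr', h | h⟩ := hCC S S' M M' hM hM' hc hc' φ (gen M s) (rfl_gen s)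
    · exact ⟨1, Or.inl rfl, by rw [h, hr'.esum_eq]⟩
    · exact ⟨-1, Or.inr rfl, by rw [h, map_inv, hr'.esum_eq]; rfl⟩
  obtain ⟨k₁, hk1, e1⟩ := h1 s
  obtain ⟨k₂, hk2, e2⟩ := h1 t
  have e3 : esum M' (φ (gen M s * gen M t)) = Multiplicative.ofAdd (k₁ + k₂) := by
    rw [map_mul, map_mul, e1, e2, ofAdd_add]
  have hne1 : φ (gen M s * gen M t) ≠ 1 := by
    intro h
    have h2 : gen M s * gen M t = 1 := φ.injective (by rw [h, map_one])
    have h3 := congrArg (esum M) h2
    rw [map_mul, esum_gen, esum_gen, map_one (esum M), ← ofAdd_add] at h3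
    have h4 : (1 : ℤ) + 1 = 0 := h3
    omega
  have hcard : ({s, t} : Finset S).card ≤ 2 := Finset.card_le_two
  have hcard2 : ({s, t} : Finset S).card = 2 := Finset.card_pair hst
  obtain ⟨u', hu', hul', hi⟩ := hCB S S' M M' hM hM' hc hc' φ (Vtx.mk _ {s, t} hcard 1) hcard2
    (by rw [Vtx.mk_J, lb_pair hst (hM.ne_zero s t)]; exact hm)
  obtain ⟨s', t', y, hst', hm', hJ', hy⟩ := coord2 hM'.ne_zero hu' hul'
  have hfix : ∀ h : Art M, h ∈ pr (gen M) s t → φ h • u' = u' := by
    intro h hh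
    rw [← hi, Vtx.fix2 (s := s) (t := t) rfl (Vtx.mk_mem _ _ _)]
    simpa using hh
  have hst2 : gen M s * gen M t ∈ pr (gen M) s t := mul_mem (left_mem_pr s t) (right_mem_pr s t)
  have hY : y⁻¹ * φ (gen M s * gen M t) * y ∈ pr (gen M') s' t' := by
    rw [← Vtx.fix2' hJ' hy]
    exact hfix _ hst2
  have hcom : ∀ h ∈ pr (gen M') s' t',
      Commute ((y⁻¹ * φ (gen M s * gen M t) * y) ^ M s t) h := by
    intro h hh
    have g1 : (y * h * y⁻¹) • u' = u' := by
      rw [Vtx.fix2' hJ' hy]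
      have : y⁻¹ * (y * h * y⁻¹) * y = h := by group
      rw [this]; exact hh
    have g2 : φ.symm (y * h * y⁻¹) ∈ pr (gen M) s t := by
      have g3 : φ.symm (y * h * y⁻¹) • (Vtx.mk (gen M) {s, t} hcard 1) =
          Vtx.mk (gen M) {s, t} hcard 1 := by
        rw [hi]; simpa using g1
      rw [Vtx.fix2 (s := s) (t := t) rfl (Vtx.mk_mem _ _ _)] at g3
      simpa using g3
    have g4 := hDCEN S M hM.ne_zero s t hst _ g2
    have g5 : Commute (φ ((gen M s * gen M t) ^ M s t)) (y * h * y⁻¹) := by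
      have := g4.map φ.toMonoidHom
      simpa using this
    rw [map_pow] at g5
    have g6 : (y⁻¹ * φ (gen M s * gen M t) * y) ^ M s t =
        y⁻¹ * (φ (gen M s * gen M t)) ^ M s t * y := by
      have := conj_pow (i := M s t) (a := y⁻¹) (b := φ (gen M s * gen M t))
      rw [inv_inv] at this
      exact this
    rw [g6]
    generalize (φ (gen M s * gen M t)) ^ M s t = A at *
    have g7 : A * (y * h * y⁻¹) = (y * h * y⁻¹) * A := g5
    show (y⁻¹ * A * y) * h = h * (y⁻¹ * A * y)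
    have g8 : (y⁻¹ * A * y) * h = y⁻¹ * (A * (y * h * y⁻¹)) * y := by group
    rw [g8, g7]
    group
  obtain ⟨w, hw, l, hl⟩ := hDCPC S' M' hM'.ne_zero s' t' hst' hm' _ hY (M s t) (by omega) hcom
  generalize hX : φ (gen M s * gen M t) = X at *
  have hXY : X = y * (y⁻¹ * X * y) * y⁻¹ := by group
  have e4 : esum M' (y⁻¹ * X * y) = Multiplicative.ofAdd (k₁ + k₂) := by
    rw [← e3, hXY, esum_conj]
    congr 1
    group
  rcases hl with hl | hl
  · have e5 : esum M' (y⁻¹ * X * y) = Multiplicative.ofAdd (2 * l) := by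
      rw [hl, esum_conj, map_zpow, map_mul, esum_gen, esum_gen, ← ofAdd_add, ← ofAdd_zsmul]
      congr 1
      rw [smul_eq_mul]; ring
    have e6 : k₁ + k₂ = 2 * l := by
      have := e4.symm.trans e5
      exact this
    have e7 : l ≠ 0 := by
      rintro rfl
      apply hne1
      rw [hXY, hl]; simp
    have e8 : l = 1 ∨ l = -1 := by omega
    refine ⟨s', t', y * w, hst', ?_⟩
    rcases e8 with rfl | rfl
    · left
      rw [hXY, hl, zpow_one]; group
    · right
      rw [hXY, hl, zpow_neg, zpow_one]; group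
  · exfalso
    have e5 : esum M' (y⁻¹ * X * y) = Multiplicative.ofAdd (l * (M' s' t' : ℤ)) := by
      rw [hl, esum_conj, map_zpow, esum_altG, ← ofAdd_zsmul, smul_eq_mul]
    have e6 : k₁ + k₂ = l * (M' s' t' : ℤ) := by
      have := e4.symm.trans e5
      exact this
    have e7 : l ≠ 0 := by
      rintro rfl
      apply hne1
      rw [hXY, hl]; simp
    have e8 : (3 : ℤ) ≤ |l * (M' s' t' : ℤ)| := by
      rw [abs_mul]
      have a1 : (1 : ℤ) ≤ |l| := Int.one_le_abs e7
      have a2 : (3 : ℤ) ≤ |(M' s' t' : ℤ)| := by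
        rw [abs_of_nonneg (by positivity)]
        exact_mod_cast hm'
      nlinarith
    rw [← e6] at e8
    have e9 : |k₁ + k₂| ≤ 2 := by
      rcases hk1 with rfl | rfl <;> rcases hk2 with rfl | rfl <;> norm_num
    omega

end Pool.HA.H45
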