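import Pool.Agent.Work.MP_7084a3_helper90.Common

set_option autoImplicit false

namespace Pool.HA

namespace H90

section lists
variable {V : Type}

/-- flags of a long side: only the first position is not flagged -/
def flg : List V → List (V × Bool)
  | [] => []
  | x :: l => (x, false) :: l.map (fun v => (v, true))

def nofl (l : List V) : List (V × Bool) := l.map (fun v => (v, false))

theorem flg_fst (l : List V) : (flg l).map Prod.fst = l := by
  cases l with
  | nil => rfl
  | cons x l => simp [flg, Function.comp_def]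

theorem nofl_fst (l : List V) : (nofl l).map Prod.fst = l := by
  simp [nofl, Function.comp_def]

theorem nns_append (a b : List (V × Bool)) : nns (a ++ b) = nns a + nns b := by
  simp [nns]

theorem nns_flg (l : List V) : nns (flg l) ≤ 1 := by
  cases l with
  | nil => simp [nns, flg]
  | cons x l => simp [nns, flg, List.countP_map, Function.comp_def]

theorem nns_nofl (l : List V) : nns (nofl l) = l.length := by
  simp [nns, nofl, List.countP_map, Function.comp_def]

theorem split_app {A T x y : List V} {q : V} (h : A ++ T = x ++ q :: y) :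
    (∃ x', x = A ++ x' ∧ T = x' ++ q :: y) ∨ (∃ y0, A = x ++ q :: y0 ∧ y = y0 ++ T) := by
  rcases List.append_eq_append_iff.1 h with ⟨a', h1, h2⟩ | ⟨c', h1, h2⟩
  · exact Or.inl ⟨a', h1, h2⟩
  · cases c' with
    | nil =>
      left
      exact ⟨[], by simpa using h1.symm, by simpa using h2.symm⟩
    | cons c0 c1 =>
      right
      rw [List.cons_append, List.cons_eq_cons] at h2
      obtain ⟨rfl, h3⟩ := h2
      exact ⟨c1, h1, h3⟩

end lists

variable {G S : Type} [Group G] {g : S → G}

theorem side {a : List (Vtx g)} {ρ : G} (ha : Red a) (fa : Fx ρ a)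
    {R : List (Vtx g × Bool)} (hR : a.getLast? = (R.map Prod.fst).head?) (hR0 : R ≠ [])
    {x y0 y : List (Vtx g × Bool)} {q : Vtx g × Bool} (h : flg a.dropLast = x ++ q :: y0)
    (hy : y = y0 ++ R) (hq : q.2 = true) :
    ∀ r ∈ (y ++ x).head?, ∀ p ∈ (y ++ x).getLast?, r.1 ≠ p.1 ∧
      ρ • r.1 = r.1 ∧ ρ • q.1 = q.1 ∧ ρ • p.1 = p.1 := by
  subst hy
  rcases List.eq_nil_or_concat x with rfl | ⟨x', p0, rfl⟩
  · exfalso
    cases hd : a.dropLast with
    | nil => rw [hd] at h; simp [flg] at h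
    | cons u l =>
      rw [hd] at h
      simp only [flg, List.nil_append, List.cons.injEq] at h
      rw [← h.1] at hq
      simp at hq
  · cases R with
    | nil => exact absurd rfl hR0
    | cons r0 R' =>
      intro r hr p hp
      have e1 := congrArg (List.map Prod.fst) h
      rw [flg_fst] at e1
      simp only [List.concat_eq_append, List.map_append, List.map_cons,
        List.append_assoc, List.cons_append, List.nil_append] at e1
      have e2 : a.getLast? = some r0.1 := by simpa using hR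
      have e3 : a.dropLast ++ [r0.1] = a := List.dropLast_append_getLast? _ e2
      rw [e1] at e3
      have hp' : p = p0 := by
        rw [List.concat_eq_append, ← List.append_assoc, List.getLast?_append] at hp
        simpa using hp.symm
      subst hp'
      have hp2 : p.1 ∈ a := by rw [← e3]; simp
      have hq2 : q.1 ∈ a := by rw [← e3]; simp
      cases y0 with
      | nil =>
        have hr' : r = r0 := by simpa using hr.symm
        subst hr'
        have hr2 : r.1 ∈ a := by rw [← e3]; simp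
        refine ⟨?_, fa _ hr2, fa _ hq2, fa _ hp2⟩
        refine (ha (x'.map Prod.fst) p.1 q.1 r.1 [] ?_).symm
        rw [← e3]; simp
      | cons r1 y1 =>
        have hr' : r = r1 := by simpa using hr.symm
        subst hr'
        have hr2 : r.1 ∈ a := by rw [← e3]; simp
        refine ⟨?_, fa _ hr2, fa _ hq2, fa _ hp2⟩
        refine (ha (x'.map Prod.fst) p.1 q.1 r.1 (y1.map Prod.fst ++ [r0.1]) ?_).symm
        rw [← e3]; simp

theorem rflag4 {a b c d : List (Vtx g)} {ρ₁ ρ₂ : G} (h₁ : Rfl g ρ₁) (h₂ : Rfl g ρ₂)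
    (ha : Red a) (hc : Red c) (fa : Fx ρ₁ a) (fc : Fx ρ₂ c) (ha0 : a.dropLast ≠ [])
    (hc0 : c.dropLast ≠ []) (e1 : a.getLast? = (b ++ c).head?) (e2 : c.getLast? = (d ++ a).head?) :
    RFlag (flg a.dropLast ++ (nofl b ++ (flg c.dropLast ++ nofl d))) := by
  have hd : ∀ l : List (Vtx g), l.dropLast ≠ [] → l.dropLast.head? = l.head? := by
    intro l hl
    cases l with
    | nil => simp at hl
    | cons u l => cases l with
      | nil => simp at hl
      | cons w l => simp
  have hne : ∀ l : List (Vtx g), l ≠ [] → flg l ≠ [] := by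
    intro l hl
    cases l with
    | nil => simp at hl
    | cons u l => simp [flg]
  intro x q y hxy hq
  have hno : ∀ (l : List (Vtx g)) (x y : List (Vtx g × Bool)), nofl l = x ++ q :: y → False := by
    intro l x y h
    have hm : q ∈ nofl l := by rw [h]; simp
    obtain ⟨v, -, hv⟩ := List.mem_map.1 hm
    rw [← hv] at hq
    simp at hq
  rcases split_app hxy with ⟨x₁, hx₁, h'⟩ | ⟨y₁, h', hy⟩
  · rcases split_app h' with ⟨x₂, hx₂, h''⟩ | ⟨y₂, h'', hy⟩
    · rcases split_app h'' with ⟨x₃, hx₃, h'''⟩ | ⟨y₃, h''', hy⟩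
      · exact (hno _ _ _ h''').elim
      · have key := side (R := nofl d ++ (flg a.dropLast ++ nofl b)) hc fc (by
            rw [List.map_append, List.map_append, nofl_fst, flg_fst, nofl_fst, e2]
            cases d with
            | nil =>
              rw [List.nil_append, List.nil_append, List.head?_append, hd a ha0]
              cases a with
              | nil => simp at ha0
              | cons u l => simp
            | cons u l => simp) (by simp [hne _ ha0]) h''' rfl hq
        intro r hr p hp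
        have e : (y₃ ++ (nofl d ++ (flg a.dropLast ++ nofl b))) ++ x₂ = y ++ x := by
          rw [hx₁, hx₂, hy]; simp
        rw [e] at key
        obtain ⟨k1, k2, k3, k4⟩ := key r hr p hp
        exact ⟨k1, ρ₂, h₂, k2, k3, k4⟩
    · exact (hno _ _ _ h'').elim
  · intro r hr p hp
    obtain ⟨k1, k2, k3, k4⟩ := side ha fa (by
        rw [List.map_append, List.map_append, nofl_fst, flg_fst, nofl_fst, e1]
        cases b with
        | nil =>
          rw [List.nil_append, List.nil_append, List.head?_append, hd c hc0]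
          cases c with
          | nil => simp at hc0
          | cons u l => simp
        | cons u l => simp) (by simp [hne _ hc0]) h' hy hq r hr p hp
    exact ⟨k1, ρ₁, h₁, k2, k3, k4⟩

theorem red_reverse {V : Type} {l : List V} (h : Red l) : Red l.reverse := by
  intro x a b c y e
  have e2 := congrArg List.reverse e
  rw [List.reverse_reverse] at e2
  refine (h y.reverse c b a x.reverse ?_).symm
  rw [e2]; simp

theorem fx_pw {r x : G} (h : Commute x r) {l : List (Vtx g)} (hl : Fx r l) (N : ℕ) :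
    Fx r (pw x l N) := by
  induction N with
  | zero =>
    intro v hv
    exact hl v (List.mem_of_mem_take hv)
  | succ N ih =>
    intro v hv
    rw [pw, List.mem_append] at hv
    rcases hv with hv | hv
    · exact hl v (List.mem_of_mem_dropLast hv)
    · obtain ⟨w, hw, rfl⟩ := List.mem_map.1 hv
      exact Fx.of_commute h (ih w hw)

end H90

open H90 in
theorem stmt_X3 (hAXIS : Stmt_AXIS) (hF3 : Stmt_F3) (hXISO : Stmt_XISO) (hINJ2 : Stmt_INJ2)
    (hBD : Stmt_BD) (hBD1 : Stmt_BD1) (hCONN : Stmt_CONN) (hWCH : Stmt_WCH) (hACT : Stmt_ACT)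
    (hZL : Stmt_ZL) (hZX : Stmt_ZX) (hZPER : Stmt_ZPER) : Stmt_X3 := by
  intro S _ M hM c r₁ r₂ hr₁ hr₂ hne hc₁ hc₂
  by_contra hcon
  push Not at hcon
  set g := gen M with hg
  obtain ⟨C, hC⟩ := hXISO S M hM
  obtain ⟨w1, w2, w3, w4, w5⟩ := hWCH (Art M) S g
  obtain ⟨a1, a2, a3, a4, a5, a6, a7, a8, a9⟩ := hACT (Art M) S g
  have hc1 : ∀ p : Vtx g, c • p ≠ p := by
    intro p
    have := hcon 1 one_pos p
    rwa [pow_one] at this
  have hax : ∀ r : Art M, Rfl g r → Commute c r → ∃ (p : Vtx g) (l : List (Vtx g)),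
      Wk l p (c • p) ∧ Fx r l ∧ 2 ≤ l.length ∧ ∀ N, Red (pw c l N) := by
    intro r hr hcr
    obtain ⟨v, -, hv⟩ := hr.exists_fix
    exact hAXIS (Art M) S g r c hcr ⟨v, hv⟩ (hF3 S M hM r hr).2 (fun p _ => hc1 p)
  obtain ⟨p₁, l₁, hl₁, fl₁, len₁, red₁⟩ := hax r₁ hr₁ hc₁
  obtain ⟨p₂, l₂, hl₂, fl₂, len₂, red₂⟩ := hax r₂ hr₂ hc₂
  obtain ⟨δ, hδ⟩ : ∃ δ : List (Vtx g), Wk δ p₁ p₂ := hCONN S M p₁ p₂
  have key : ∀ N : ℕ, 0 < N → ∃ D : C2 g, Flagged D ∧
      bd2 g D = (wch (pw c l₁ N) - wch (pw c l₂ N)) - (wch δ - act1 (c ^ N) (wch δ)) ∧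
      nrm D ≤ C * (2 + 2 * δ.length) := by
    intro N hN
    obtain ⟨p1, p2, p3⟩ := w5 c l₁ p₁ N hl₁
    obtain ⟨q1, q2, q3⟩ := w5 c l₂ p₂ N hl₂
    obtain ⟨b1, b2⟩ := w4 (c ^ N) _ _ _ hδ
    obtain ⟨c1, c2⟩ := w2 _ _ _ q1
    obtain ⟨d1, d2⟩ := w2 _ _ _ hδ
    obtain ⟨s1, s2⟩ := w1 _ _ _ _ _ p1 b1
    obtain ⟨t1, t2⟩ := w1 _ _ _ _ _ c1 d1
    obtain ⟨u1, u2⟩ := w2 _ _ _ t1
    have hlen1 : (pw c l₁ N).dropLast ≠ [] := by
      rw [← List.length_pos_iff_ne_nil, List.length_dropLast, p2]
      have : 1 ≤ N * (l₁.length - 1) := Nat.mul_pos hN (by omega)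
      omega
    have hlen2 : (pw c l₂ N).reverse.dropLast ≠ [] := by
      rw [← List.length_pos_iff_ne_nil, List.length_dropLast, List.length_reverse, q2]
      have : 1 ≤ N * (l₂.length - 1) := Nat.mul_pos hN (by omega)
      omega
    have hδ0 : δ ≠ [] := by
      rintro rfl
      simp [Wk] at hδ
    obtain ⟨D, e1, e2, e3⟩ := fill_chain hBD hWCH hC _ _ _ _ s1 u1
      (flg (pw c l₁ N).dropLast ++ (nofl (δ.map (fun v => c ^ N • v)).dropLast ++
        (flg (pw c l₂ N).reverse.dropLast ++ nofl δ.reverse.dropLast))) (by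
        rw [List.map_append, List.map_append, List.map_append, flg_fst, nofl_fst, flg_fst,
          nofl_fst, List.reverse_reverse, List.dropLast_append_of_ne_nil (by simpa using hδ0),
          List.dropLast_append_of_ne_nil (by simpa using hδ0)]
        simp only [List.append_assoc])
      (rflag4 hr₁ hr₂ (red₁ N) (red_reverse (red₂ N)) (fx_pw hc₁ fl₁ N)
        (fun v hv => fx_pw hc₂ fl₂ N v (List.mem_reverse.1 hv)) hlen1 hlen2
        (by
          obtain ⟨x1, -⟩ := w1 _ _ _ _ _ b1 c1
          rw [p1.2.1, x1.1])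
        (by
          obtain ⟨x1, -⟩ := w1 _ _ _ _ _ d1 p1
          rw [c1.2.1, x1.1]))
    refine ⟨D, e1, ?_, e3.trans (Nat.mul_le_mul_left _ ?_)⟩
    · rw [e2, s2, u2, t2, b2, c2, d2]; abel
    · rw [nns_append, nns_append, nns_append, nns_nofl, nns_nofl]
      have f1 := nns_flg (pw c l₁ N).dropLast
      have f2 := nns_flg (pw c l₂ N).reverse.dropLast
      simp only [List.length_dropLast, List.length_map, List.length_reverse]
      omega
  obtain ⟨D, hD, hDb, -⟩ := key 1 one_pos
  have hw1 : wch (pw c l₁ 1) = wch l₁ := by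
    rw [(w5 c l₁ p₁ 1 hl₁).2.2]; simp [a8]
  have hw2 : wch (pw c l₂ 1) = wch l₂ := by
    rw [(w5 c l₂ p₂ 1 hl₂).2.2]; simp [a8]
  rw [hw1, hw2, pow_one] at hDb
  have hsum : ∀ N : ℕ, nf (∑ i ∈ Finset.range N, mv (P2 g c ^ i) D) ≤
      C * (2 + 2 * δ.length) := by
    intro N
    rcases Nat.eq_zero_or_pos N with rfl | hN
    · simp [nf]
    obtain ⟨D', hD', hDb', hn⟩ := key N hN
    have hconv : ∀ i : ℕ, mv (P2 g c ^ i) D = act2 (c ^ i) D := by
      intro i
      rw [← map_pow, mv_P2]
    have hfl : Flagged (∑ i ∈ Finset.range N, mv (P2 g c ^ i) D) := by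
      have : ∀ s : Finset ℕ, Flagged (∑ i ∈ s, mv (P2 g c ^ i) D) := by
        intro s
        induction s using Finset.induction_on with
        | empty => intro t ht; simp at ht
        | insert i s hi ih =>
          rw [Finset.sum_insert hi, hconv]
          exact (a3 _ _ ((a1 _ _).2.1 hD) ih).1
      exact this _
    have h0 : (∑ i ∈ Finset.range N, mv (P2 g c ^ i) D) - D' = 0 := by
      apply hINJ2 S M hM _ ((a3 _ _ hfl hD').2)
      rw [map_sub, hDb', map_sum]
      have e1 : ∀ i ∈ Finset.range N, bd2 g (mv (P2 g c ^ i) D) =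
          act1 (c ^ i) (wch l₁) - act1 (c ^ i) (wch l₂) -
            act1 (c ^ i) (wch δ - act1 c (wch δ)) := by
        intro i _
        rw [hconv, (a1 _ _).1, hDb, map_sub, map_sub]
      rw [Finset.sum_congr rfl e1, Finset.sum_sub_distrib, Finset.sum_sub_distrib, tele hACT,
        (w5 c l₁ p₁ N hl₁).2.2, (w5 c l₂ p₂ N hl₂).2.2, sub_self]
    rw [sub_eq_zero.1 h0]
    exact hn
  obtain ⟨P, hPQ, hP⟩ := hZL _ (P2 g c) D _ (by
    intro t _ k hk hab
    rw [← map_pow, P2_apply] at hab
    exact hcon k hk t.1 (congrArg Prod.fst hab)) hsum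
  have hPf : Flagged P := flagged_of_orbit hD fun t ht => by
    obtain ⟨a, hab⟩ := hP t ht
    rw [← map_zpow, P2_apply] at hab
    exact ⟨_, hab⟩
  rw [mv_P2] at hPQ
  obtain ⟨a, ha, b, hb, k, hk⟩ := hZX _ (P1 g c) (wch l₁) (wch l₂) (bd2 g P + wch δ) (by
    rw [mv_P1]
    rw [hPQ, map_sub, (a1 _ _).1] at hDb
    have h2 : wch l₁ - wch l₂ = (bd2 g P - act1 c (bd2 g P)) + (wch δ - act1 c (wch δ)) := by
      rw [hDb]; abel
    rw [h2, map_add]; abel) (by
    intro E hE
    rw [mv_P1] at hE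
    refine no_E hZPER hBD1 hACT c hcon l₁ p₁ hl₁ 0 (fun t ht => by simp at ht) E ?_
    rw [map_zero, sub_zero]
    exact hE)
  obtain ⟨u1, u2, u3⟩ := wch_support ha
  obtain ⟨v1, v2, v3⟩ := wch_support hb
  rw [← map_zpow, P1_apply] at hk
  have hb1 : b.1 = c ^ k • a.1 := congrArg Prod.fst hk
  have f1 : r₁ • b.1 = b.1 := by
    rw [hb1]
    exact Fx.of_commute (hc₁.zpow_left k) (fl₁ _ u1)
  have f2 : r₂ • b.1 = b.1 := fl₂ _ v1
  have ht0 : b.1.ty ≠ 0 := ty_ne_zero_of_fix hr₁.ne_one f1
  have ht1 : b.1.ty = 1 := by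
    have := b.2.ty_le
    omega
  exact hne (hr₁.eq_of_fix1 hr₂ ht1 f1 f2)

end Pool.HA
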